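import Pool.Agent.Lib.MP_d19698_pr.B2a

/-! # B2b -/

open MeasureTheory ProbabilityTheory Filter Topology Set
open scoped ENNReal NNReal

namespace MP_d19698_pr
variable {d : ℕ}

/-! ### boxes -/

theorem Box_subset_CBox (x : Rd d) (r : ℝ) : Box x r ⊆ CBox x r := fun _ hy i => (hy i).le

private theorem B2b_cont (i : Fin d) : Continuous fun y : Rd d => y i := by
  fun_prop

theorem isOpen_Box (x : Rd d) (r : ℝ) : IsOpen (Box x r) := by
  have h : Box x r = ⋂ i : Fin d, {y : Rd d | |y i - x i| < r} := by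
    ext y
    simp [Box]
  rw [h]
  refine isOpen_iInter_of_finite fun i => ?_
  have hc := B2b_cont (d := d) i
  exact isOpen_lt (by fun_prop) continuous_const

theorem isClosed_CBox (x : Rd d) (r : ℝ) : IsClosed (CBox x r) := by
  have h : CBox x r = ⋂ i : Fin d, {y : Rd d | |y i - x i| ≤ r} := by
    ext y
    simp [CBox]
  rw [h]
  refine isClosed_iInter fun i => ?_
  have hc := B2b_cont (d := d) i
  exact isClosed_le (by fun_prop) continuous_const

private theorem B2b_norm_le {x y : Rd d} {r : ℝ} (hr : 0 ≤ r) (h : y ∈ CBox x r) :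
    ‖y - x‖ ≤ Real.sqrt d * r := by
  rw [EuclideanSpace.norm_eq]
  have h1 : ∑ i, ‖(y - x) i‖ ^ 2 ≤ (d : ℝ) * r ^ 2 := by
    calc ∑ i, ‖(y - x) i‖ ^ 2 ≤ ∑ _i : Fin d, r ^ 2 := by
          refine Finset.sum_le_sum fun i _ => ?_
          have h2 : ‖(y - x) i‖ ≤ r := by
            rw [PiLp.sub_apply, Real.norm_eq_abs]
            exact h i
          exact pow_le_pow_left₀ (norm_nonneg _) h2 2
      _ = (d : ℝ) * r ^ 2 := by
          rw [Finset.sum_const, Finset.card_univ, Fintype.card_fin, nsmul_eq_mul]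
  calc Real.sqrt (∑ i, ‖(y - x) i‖ ^ 2) ≤ Real.sqrt ((d : ℝ) * r ^ 2) := Real.sqrt_le_sqrt h1
    _ = Real.sqrt d * r := by
        rw [Real.sqrt_mul (Nat.cast_nonneg d), Real.sqrt_sq hr]

theorem isCompact_CBox (x : Rd d) (r : ℝ) : IsCompact (CBox x r) := by
  refine Metric.isCompact_of_isClosed_isBounded (isClosed_CBox x r) ?_
  refine (Metric.isBounded_closedBall (x := x) (r := Real.sqrt d * |r|)).subset fun y hy => ?_
  rw [Metric.mem_closedBall, dist_eq_norm]
  exact B2b_norm_le (abs_nonneg r) fun i => (hy i).trans (le_abs_self r)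

theorem isCompact_Ann (x : Rd d) (r r' : ℝ) : IsCompact (Ann x r r') :=
  (isCompact_CBox x r').diff (isOpen_Box x r)

private theorem B2b_comb {x y z : Rd d} {a b : ℝ} (hab : a + b = 1) (i : Fin d) :
    (a • y + b • z) i - x i = a * (y i - x i) + b * (z i - x i) := by
  have h1 : (a • y + b • z) i = a * y i + b * z i := by
    simp
  rw [h1]
  have h2 : x i = (a + b) * x i := by rw [hab, one_mul]
  linear_combination -h2

theorem convex_Box (x : Rd d) (r : ℝ) : Convex ℝ (Box x r) := by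
  intro y hy z hz a b ha hb hab i
  rw [B2b_comb hab i]
  calc |a * (y i - x i) + b * (z i - x i)| ≤ |a * (y i - x i)| + |b * (z i - x i)| := abs_add_le _ _
    _ = a * |y i - x i| + b * |z i - x i| := by
        rw [abs_mul, abs_mul, abs_of_nonneg ha, abs_of_nonneg hb]
    _ < r := by
        rcases eq_or_lt_of_le ha with h0 | h0
        · have hb1 : b = 1 := by linarith
          rw [← h0, hb1]
          have := hz i
          linarith
        · have h1 : a * |y i - x i| < a * r := mul_lt_mul_of_pos_left (hy i) h0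
          have h2 : b * |z i - x i| ≤ b * r := mul_le_mul_of_nonneg_left (hz i).le hb
          have h3 : a * r + b * r = r := by rw [← add_mul, hab, one_mul]
          linarith

theorem convex_CBox (x : Rd d) (r : ℝ) : Convex ℝ (CBox x r) := by
  intro y hy z hz a b ha hb hab i
  rw [B2b_comb hab i]
  calc |a * (y i - x i) + b * (z i - x i)| ≤ |a * (y i - x i)| + |b * (z i - x i)| := abs_add_le _ _
    _ = a * |y i - x i| + b * |z i - x i| := by
        rw [abs_mul, abs_mul, abs_of_nonneg ha, abs_of_nonneg hb]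
    _ ≤ r := by
        have h1 : a * |y i - x i| ≤ a * r := mul_le_mul_of_nonneg_left (hy i) ha
        have h2 : b * |z i - x i| ≤ b * r := mul_le_mul_of_nonneg_left (hz i) hb
        have h3 : a * r + b * r = r := by rw [← add_mul, hab, one_mul]
        linarith

/-- `‖y - x‖ ≤ √d |y - x|_∞`. -/
theorem norm_le_of_mem_CBox {x y : Rd d} {r : ℝ} (hr : 0 ≤ r) (h : y ∈ CBox x r) : ‖y - x‖ ≤ Real.sqrt d * r :=
  B2b_norm_le hr h

theorem abs_le_norm (x : Rd d) (i : Fin d) : |x i| ≤ ‖x‖ := by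
  rw [← Real.norm_eq_abs]
  exact PiLp.norm_apply_le x i

/-- inside a box two points can be joined by a segment -/
theorem D_seg_CBox (f : Rd d → ℝ) {z x y : Rd d} {r M : ℝ} {U : Set (Rd d)} (hr : 0 ≤ r) (hx : x ∈ CBox z r) (hy : y ∈ CBox z r)
    (hU : CBox z r ⊆ U) (h : ∀ p ∈ CBox z r, f p ≤ M) :
    D f {x} {y} U ≤ ENNReal.ofReal (Real.exp M * (2 * Real.sqrt d * r)) := by
  have hseg : segment ℝ x y ⊆ CBox z r := (convex_CBox z r).segment_subset hx hy
  refine (D_seg f (hseg.trans hU) fun p hp => h p (hseg hp)).trans ?_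
  apply ENNReal.ofReal_le_ofReal
  refine mul_le_mul_of_nonneg_left ?_ (Real.exp_pos M).le
  have h1 := norm_le_of_mem_CBox hr hx
  have h2 := norm_le_of_mem_CBox hr hy
  have h3 : x - y = (x - z) - (y - z) := by abel
  calc ‖x - y‖ = ‖(x - z) - (y - z)‖ := by rw [← h3]
    _ ≤ ‖x - z‖ + ‖y - z‖ := norm_sub_le _ _
    _ ≤ 2 * Real.sqrt d * r := by linarith

/-- the crossing distance is positive and finite (`d ≥ 1`, `0 ≤ r < r'`, `f` bounded on the annulus). -/
theorem Cr_pos {f : Rd d → ℝ} {x : Rd d} {r r' M : ℝ} (hr : r < r') (h : ∀ p ∈ Ann x r r', -M ≤ f p) :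
    ENNReal.ofReal (Real.exp (-M) * (r' - r)) ≤ Cr f x r r' := by
  unfold Cr
  refine le_D_of_bdd h fun a ha b hb => ?_
  have h1 := ha.1.1
  have h2 := hb.1.2
  simp only [Box, mem_ofPred_eq, not_forall, not_lt] at h2
  obtain ⟨i, hi⟩ := h2
  have h3 := h1 i
  have h4 := abs_le_norm (a - b) i
  rw [PiLp.sub_apply] at h4
  have h5 : |b i - x i| ≤ |a i - x i| + |a i - b i| := by
    have h6 : b i - x i = (a i - x i) - (a i - b i) := by ring
    rw [h6]
    exact abs_sub _ _
  linarith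

private theorem B2b_pt (x : Rd d) (s : ℝ) (i j : Fin d) :
    (x + s • ee i) j - x j = if j = i then s else 0 := by
  simp [ee]

private theorem B2b_mem_CBox {x : Rd d} {s r : ℝ} (i : Fin d) (h0 : 0 ≤ s) (h : s ≤ r) :
    x + s • ee i ∈ CBox x r := by
  intro j
  rw [B2b_pt]
  split_ifs with hj
  · rw [abs_of_nonneg h0]
    exact h
  · rw [abs_zero]
    exact h0.trans h

private theorem B2b_notMem_Box {x : Rd d} {s r : ℝ} (i : Fin d) (h0 : 0 ≤ s) (h : r ≤ s) :
    x + s • ee i ∉ Box x r := by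
  intro hj
  have h1 := hj i
  rw [B2b_pt, if_pos rfl, abs_of_nonneg h0] at h1
  linarith

theorem Cr_le [NeZero d] {f : Rd d → ℝ} {x : Rd d} {r r' M : ℝ} (hr0 : 0 ≤ r) (hr : r < r') (h : ∀ p ∈ Ann x r r', f p ≤ M) :
    Cr f x r r' ≤ ENNReal.ofReal (Real.exp M * (r' - r)) := by
  have hd : 0 < d := Nat.pos_of_ne_zero (NeZero.ne d)
  let i : Fin d := ⟨0, hd⟩
  have hseg : segment ℝ (x + r • ee i) (x + r' • ee i) ⊆ Ann x r r' := by
    rintro p ⟨a, b, ha, hb, hab, rfl⟩
    have hp : a • (x + r • ee i) + b • (x + r' • ee i) = x + (a * r + b * r') • ee i := by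
      have h1 : a • (x + r • ee i) + b • (x + r' • ee i) =
          (a + b) • x + (a * r + b * r') • ee i := by
        module
      rw [h1, hab, one_smul]
    rw [hp]
    have h2 : a * r + b * r = r := by rw [← add_mul, hab, one_mul]
    have h3 : a * r' + b * r' = r' := by rw [← add_mul, hab, one_mul]
    have h4 : b * r ≤ b * r' := mul_le_mul_of_nonneg_left hr.le hb
    have h5 : a * r ≤ a * r' := mul_le_mul_of_nonneg_left hr.le ha
    exact ⟨B2b_mem_CBox i (by linarith) (by linarith), B2b_notMem_Box i (by linarith) (by linarith)⟩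
  have hA : ({x + r • ee i} : Set (Rd d)) ⊆ SBox x r := by
    rw [singleton_subset_iff]
    exact ⟨B2b_mem_CBox i hr0 le_rfl, B2b_notMem_Box i hr0 le_rfl⟩
  have hB : ({x + r' • ee i} : Set (Rd d)) ⊆ SBox x r' := by
    rw [singleton_subset_iff]
    exact ⟨B2b_mem_CBox i (hr0.trans hr.le) le_rfl, B2b_notMem_Box i (hr0.trans hr.le) le_rfl⟩
  unfold Cr
  refine (D_mono f hA hB subset_rfl).trans ?_
  refine (D_seg f hseg fun p hp => h p (hseg hp)).trans ?_
  apply ENNReal.ofReal_le_ofReal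
  refine mul_le_mul_of_nonneg_left ?_ (Real.exp_pos M).le
  have h1 : x + r • ee i - (x + r' • ee i) = (r - r') • ee i := by module
  rw [h1, norm_smul, Real.norm_eq_abs, abs_of_neg (by linarith)]
  have h2 : ‖(ee i : Rd d)‖ = 1 := by simp [ee]
  rw [h2]
  linarith

private theorem B2b_inj (x0 : Rd d) {s : ℝ} (hs : 0 < s) :
    Function.Injective fun y : Rd d => x0 + s • (LinearIsometryEquiv.refl ℝ (Rd d)) y := by
  intro y z hyz
  have h1 : s • y = s • z := by
    have h2 : x0 + s • y = x0 + s • z := hyz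
    exact add_left_cancel h2
  exact smul_right_injective (Rd d) hs.ne' h1

private theorem B2b_coord (x0 y : Rd d) (s : ℝ) (i : Fin d) :
    (x0 + s • (LinearIsometryEquiv.refl ℝ (Rd d)) y) i - x0 i = s * (y i - (0 : Rd d) i) := by
  simp

private theorem B2b_surj (x0 y : Rd d) {s : ℝ} (hs : 0 < s) :
    x0 + s • (LinearIsometryEquiv.refl ℝ (Rd d)) (s⁻¹ • (y - x0)) = y := by
  show x0 + s • (s⁻¹ • (y - x0)) = y
  rw [smul_smul, mul_inv_cancel₀ hs.ne', one_smul]
  abel

private theorem B2b_image_Box (x0 : Rd d) {s : ℝ} (hs : 0 < s) (r : ℝ) :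
    (fun y : Rd d => x0 + s • (LinearIsometryEquiv.refl ℝ (Rd d)) y) '' Box 0 r =
      Box x0 (s * r) := by
  ext y
  constructor
  · rintro ⟨z, hz, rfl⟩ i
    show |(x0 + s • (LinearIsometryEquiv.refl ℝ (Rd d)) z) i - x0 i| < s * r
    rw [B2b_coord, abs_mul, abs_of_pos hs]
    exact mul_lt_mul_of_pos_left (hz i) hs
  · intro hy
    refine ⟨s⁻¹ • (y - x0), fun i => ?_, B2b_surj x0 y hs⟩
    have h1 := hy i
    rw [← B2b_surj x0 y hs, B2b_coord, abs_mul, abs_of_pos hs] at h1
    exact lt_of_mul_lt_mul_left h1 hs.le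

private theorem B2b_image_CBox (x0 : Rd d) {s : ℝ} (hs : 0 < s) (r : ℝ) :
    (fun y : Rd d => x0 + s • (LinearIsometryEquiv.refl ℝ (Rd d)) y) '' CBox 0 r =
      CBox x0 (s * r) := by
  ext y
  constructor
  · rintro ⟨z, hz, rfl⟩ i
    show |(x0 + s • (LinearIsometryEquiv.refl ℝ (Rd d)) z) i - x0 i| ≤ s * r
    rw [B2b_coord, abs_mul, abs_of_pos hs]
    exact mul_le_mul_of_nonneg_left (hz i) hs.le
  · intro hy
    refine ⟨s⁻¹ • (y - x0), fun i => ?_, B2b_surj x0 y hs⟩
    have h1 := hy i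
    rw [← B2b_surj x0 y hs, B2b_coord, abs_mul, abs_of_pos hs] at h1
    exact le_of_mul_le_mul_left h1 hs

theorem Cr_scale (f : Rd d → ℝ) (x0 : Rd d) {s : ℝ} (hs : 0 < s) (r r' : ℝ) :
    Cr f x0 (s * r) (s * r') = ENNReal.ofReal s * Cr (fun y => f (x0 + s • y)) 0 r r' := by
  have h := D_sim f (SBox 0 r) (SBox 0 r') (Ann 0 r r') x0 hs (LinearIsometryEquiv.refl ℝ (Rd d))
  unfold SBox Ann at h
  rw [Set.image_sdiff (B2b_inj x0 hs), Set.image_sdiff (B2b_inj x0 hs),
    Set.image_sdiff (B2b_inj x0 hs), B2b_image_Box x0 hs, B2b_image_Box x0 hs,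
    B2b_image_CBox x0 hs, B2b_image_CBox x0 hs] at h
  exact h

theorem MLip_Cr (x : Rd d) (r r' : ℝ) : MLip (Ann x r r') (fun f => Cr f x r r') :=
  MLip_D subset_rfl

end MP_d19698_pr
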