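import Pool.Agent.Lib.MP_d19698_pr.Env
import Pool.Agent.Lib.MP_d19698_pr.B2b

/-!
# A1: measurability of multiplicatively Lipschitz functionals of a continuous random field
-/

open MeasureTheory ProbabilityTheory Filter Topology Set
open scoped ENNReal NNReal

namespace MP_d19698_pr

variable {d : ℕ}

/-- a finite-range rounding map: for compact nonempty `K` and `ε > 0` there is `ρ : ℝ^d → ℝ^d` with finite range in `K`, `‖ρ x - x‖ ≤ ε` for `x ∈ K`. -/
theorem exists_rounding {K : Set (Rd d)} (hK : IsCompact K) (hne : K.Nonempty) {ε : ℝ} (hε : 0 < ε) :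
    ∃ (F : Finset (Rd d)) (ρ : Rd d → Rd d), (∀ x ∈ F, x ∈ K) ∧ (∀ x, ρ x ∈ F) ∧ ∀ x ∈ K, ‖ρ x - x‖ ≤ ε := by
  classical
  obtain ⟨t, htK, htf, hcov⟩ := hK.finite_cover_balls hε
  obtain ⟨x0, hx0⟩ := hne
  have hmem : ∀ x ∈ K, ∃ y ∈ t, ‖y - x‖ ≤ ε := by
    intro x hx
    obtain ⟨y, hy, hxy⟩ := mem_iUnion₂.1 (hcov hx)
    refine ⟨y, hy, ?_⟩
    rw [Metric.mem_ball, dist_eq_norm, norm_sub_rev] at hxy
    exact hxy.le
  obtain ⟨y0, hy0, -⟩ := hmem x0 hx0
  refine ⟨htf.toFinset, fun x => if h : ∃ y ∈ t, ‖y - x‖ ≤ ε then h.choose else y0, ?_, ?_, ?_⟩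
  · intro x hx
    exact htK (htf.mem_toFinset.1 hx)
  · intro x
    rw [htf.mem_toFinset]
    by_cases h : ∃ y ∈ t, ‖y - x‖ ≤ ε
    · simp only [dif_pos h]
      exact h.choose_spec.1
    · simp only [dif_neg h]
      exact hy0
  · intro x hx
    have h := hmem x hx
    simp only [dif_pos h]
    exact h.choose_spec.2

/-- multiplicative closeness gives convergence -/
private lemma A1a_tendsto {ι : Type*} {l : Filter ι} {u : ι → ℝ≥0∞} {b : ℝ≥0∞}
    (h : ∀ ε : ℝ, 0 < ε → ∀ᶠ i in l, u i ≤ ENNReal.ofReal (Real.exp ε) * b ∧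
      b ≤ ENNReal.ofReal (Real.exp ε) * u i) : Tendsto u l (𝓝 b) := by
  have e1 : Tendsto (fun ε : ℝ => ENNReal.ofReal (Real.exp ε) * b) (𝓝[>] 0) (𝓝 b) := by
    have h1 : Tendsto (fun ε : ℝ => ENNReal.ofReal (Real.exp ε)) (𝓝[>] 0) (𝓝 1) := by
      have h2 : Continuous fun ε : ℝ => ENNReal.ofReal (Real.exp ε) :=
        ENNReal.continuous_ofReal.comp Real.continuous_exp
      have h3 := (h2.tendsto 0).mono_left (nhdsWithin_le_nhds (s := Ioi (0 : ℝ)))
      simpa using h3
    have h4 := ENNReal.Tendsto.mul_const (b := b) h1 (Or.inl one_ne_zero)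
    rwa [one_mul] at h4
  have e2 : Tendsto (fun ε : ℝ => ENNReal.ofReal (Real.exp (-ε)) * b) (𝓝[>] 0) (𝓝 b) := by
    have h1 : Tendsto (fun ε : ℝ => ENNReal.ofReal (Real.exp (-ε))) (𝓝[>] 0) (𝓝 1) := by
      have h2 : Continuous fun ε : ℝ => ENNReal.ofReal (Real.exp (-ε)) :=
        ENNReal.continuous_ofReal.comp (Real.continuous_exp.comp continuous_neg)
      have h3 := (h2.tendsto 0).mono_left (nhdsWithin_le_nhds (s := Ioi (0 : ℝ)))
      simpa using h3
    have h4 := ENNReal.Tendsto.mul_const (b := b) h1 (Or.inl one_ne_zero)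
    rwa [one_mul] at h4
  have hpos : ∀ᶠ ε : ℝ in 𝓝[>] 0, 0 < ε := eventually_mem_nhdsWithin
  refine tendsto_order.2 ⟨fun a ha => ?_, fun a ha => ?_⟩
  · obtain ⟨ε, hε1, hε2⟩ := (((tendsto_order.1 e2).1 a ha).and hpos).exists
    filter_upwards [h ε hε2] with i hi
    refine lt_of_lt_of_le hε1 ?_
    calc ENNReal.ofReal (Real.exp (-ε)) * b
        ≤ ENNReal.ofReal (Real.exp (-ε)) * (ENNReal.ofReal (Real.exp ε) * u i) := by
          gcongr
          exact hi.2
      _ = u i := by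
          rw [← mul_assoc, ← ENNReal.ofReal_mul (Real.exp_pos _).le, ← Real.exp_add]
          simp
  · obtain ⟨ε, hε1, hε2⟩ := (((tendsto_order.1 e1).2 a ha).and hpos).exists
    filter_upwards [h ε hε2] with i hi
    exact lt_of_le_of_lt hi.1 hε1

/-- `F(f ∘ ρ_n) → F(f)` if `f` is continuous and `ρ_n → id` uniformly on the compact set `K`. -/
theorem MLip.tendsto {K : Set (Rd d)} (hK : IsCompact K) {F : (Rd d → ℝ) → ℝ≥0∞} (hF : MLip K F) {f : Rd d → ℝ} (hf : ContinuousOn f K)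
    {ρ : ℕ → Rd d → Rd d} (hρ : ∀ n, ∀ x, ρ n x ∈ K) (hρ' : ∀ n, ∀ x ∈ K, ‖ρ n x - x‖ ≤ 1 / ((n : ℝ) + 1)) :
    Tendsto (fun n => F (fun x => f (ρ n x))) atTop (𝓝 (F f)) := by
  apply A1a_tendsto
  intro ε hε
  obtain ⟨δ, hδ, hδ'⟩ := Metric.uniformContinuousOn_iff.1 (hK.uniformContinuousOn_of_continuous hf) ε hε
  have h1 : ∀ᶠ n : ℕ in atTop, 1 / ((n : ℝ) + 1) < δ :=
    (tendsto_order.1 tendsto_one_div_add_atTop_nhds_zero_nat).2 δ hδ
  filter_upwards [h1] with n hn
  have h2 : ∀ x ∈ K, |f (ρ n x) - f x| ≤ ε := by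
    intro x hx
    have h3 := hδ' (ρ n x) (hρ n x) x hx (by
      rw [dist_eq_norm]
      exact (hρ' n x hx).trans_lt hn)
    rw [Real.dist_eq] at h3
    exact h3.le
  constructor
  · exact hF _ _ ε h2
  · exact hF _ _ ε (fun x hx => by rw [abs_sub_comm]; exact h2 x hx)

/-- a functional depending on finitely many values is continuous -/
private lemma A1a_continuous {K : Set (Rd d)} {F : (Rd d → ℝ) → ℝ≥0∞} (hF : MLip K F)
    (T : Finset (Rd d)) (ρ : Rd d → Rd d) (hρ : ∀ x, ρ x ∈ T) :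
    Continuous (fun v : T → ℝ => F (fun x => v ⟨ρ x, hρ x⟩)) := by
  rw [continuous_iff_continuousAt]
  intro v
  apply A1a_tendsto
  intro ε hε
  filter_upwards [Metric.ball_mem_nhds v hε] with w hw
  have h1 : ∀ i, |w i - v i| ≤ ε := by
    intro i
    have h2 : dist (w i) (v i) ≤ dist w v := dist_le_pi_dist w v i
    rw [Real.dist_eq] at h2
    exact h2.trans (le_of_lt hw)
  constructor
  · exact hF _ _ ε (fun x _ => h1 _)
  · exact hF _ _ ε (fun x _ => by rw [abs_sub_comm]; exact h1 _)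

private lemma A1a_const {F : (Rd d → ℝ) → ℝ≥0∞} (hF : MLip (∅ : Set (Rd d)) F)
    (f g : Rd d → ℝ) : F f = F g := by
  have h : ∀ f g : Rd d → ℝ, F f ≤ F g := by
    intro f g
    have := hF f g 0 (fun x hx => hx.elim)
    simpa using this
  exact le_antisymm (h f g) (h g f)

private lemma A1a_seq {K : Set (Rd d)} (hK : IsCompact K) (hne : K.Nonempty) :
    ∃ (T : ℕ → Finset (Rd d)) (ρ : ℕ → Rd d → Rd d), (∀ n, ∀ x ∈ T n, x ∈ K) ∧
      (∀ n x, ρ n x ∈ T n) ∧ ∀ n, ∀ x ∈ K, ‖ρ n x - x‖ ≤ 1 / ((n : ℝ) + 1) := by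
  have h : ∀ n : ℕ, ∃ (F : Finset (Rd d)) (ρ : Rd d → Rd d), (∀ x ∈ F, x ∈ K) ∧
      (∀ x, ρ x ∈ F) ∧ ∀ x ∈ K, ‖ρ x - x‖ ≤ 1 / ((n : ℝ) + 1) := fun n =>
    exists_rounding hK hne (by positivity)
  choose T ρ h1 h2 h3 using h
  exact ⟨T, ρ, h1, h2, h3⟩

/-- **Measurability.** `X ω : ℝ^d → ℝ` a random field with continuous paths, `m` a σ-algebra for which all `X · x`, `x ∈ K`, are measurable, `F` multiplicatively Lipschitz
on the compact set `K`. Then `ω ↦ F (X ω)` is `m`-measurable. Proof: `K` empty: `F` is constant on... (then `MLip` with any two fields, `ε = 0`, gives `F f = F g`). Otherwise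
`F (X ω) = lim F (X ω ∘ ρ_n)` and `v ↦ F (v ∘ ρ_n)` is a function on the finite-dimensional space `F_n → ℝ` which is continuous
(multiplicatively Lipschitz), hence measurable. -/
theorem MLip.measurable {Ω : Type*} {m : MeasurableSpace Ω} {K : Set (Rd d)} (hK : IsCompact K) {F : (Rd d → ℝ) → ℝ≥0∞} (hF : MLip K F)
    {X : Ω → Rd d → ℝ} (hX : ∀ ω, Continuous (X ω)) (hm : ∀ x ∈ K, Measurable[m] (fun ω => X ω x)) :
    Measurable[m] (fun ω => F (X ω)) := by
  rcases K.eq_empty_or_nonempty with hKe | hne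
  · subst hKe
    have h1 : (fun ω => F (X ω)) = fun _ => F (fun _ => 0) := by
      funext ω
      exact A1a_const hF _ _
    rw [h1]
    exact measurable_const
  · obtain ⟨T, ρ, h1, h2, h3⟩ := A1a_seq hK hne
    have h4 : ∀ n, Measurable[m] (fun ω => F (fun x => X ω (ρ n x))) := by
      intro n
      have h5 : Measurable[m] (fun ω => fun x : T n => X ω x) :=
        measurable_pi_lambda _ fun x => hm x (h1 n x x.2)
      exact (A1a_continuous hF (T n) (ρ n) (h2 n)).measurable.comp h5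
    refine measurable_of_tendsto_metrizable h4 ?_
    rw [tendsto_pi_nhds]
    intro ω
    exact MLip.tendsto hK hF (hX ω).continuousOn (fun n x => h1 n _ (h2 n x)) h3

/-- **Equality in law.** Two random fields with continuous paths (possibly on different spaces) with the same finite-dimensional distributions on `K`:
`F(X)` and `F(Y)` have the same law. -/
theorem MLip.map_eq {Ω Ω' : Type*} [MeasurableSpace Ω] [MeasurableSpace Ω'] {P : Measure Ω} {P' : Measure Ω'} [IsProbabilityMeasure P]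
    [IsProbabilityMeasure P'] {K : Set (Rd d)} (hK : IsCompact K) {F : (Rd d → ℝ) → ℝ≥0∞} (hF : MLip K F)
    {X : Ω → Rd d → ℝ} {Y : Ω' → Rd d → ℝ} (hX : ∀ ω, Continuous (X ω)) (hY : ∀ ω, Continuous (Y ω))
    (hmX : ∀ x ∈ K, Measurable (fun ω => X ω x)) (hmY : ∀ x ∈ K, Measurable (fun ω => Y ω x))
    (hlaw : ∀ T : Finset (Rd d), (∀ x ∈ T, x ∈ K) → P.map (fun ω (x : T) => X ω x) = P'.map (fun ω (x : T) => Y ω x)) :
    P.map (fun ω => F (X ω)) = P'.map (fun ω => F (Y ω)) := by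
  have mX := MLip.measurable hK hF hX hmX
  have mY := MLip.measurable hK hF hY hmY
  rcases K.eq_empty_or_nonempty with hKe | hne
  · subst hKe
    have h1 : (fun ω => F (X ω)) = fun _ => F (fun _ => 0) := by
      funext ω
      exact A1a_const hF _ _
    have h2 : (fun ω => F (Y ω)) = fun _ => F (fun _ => 0) := by
      funext ω
      exact A1a_const hF _ _
    rw [h1, h2, Measure.map_const, Measure.map_const, measure_univ, measure_univ]
  · obtain ⟨T, ρ, h1, h2, h3⟩ := A1a_seq hK hne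
    have hPX : IsProbabilityMeasure (P.map (fun ω => F (X ω))) :=
      Measure.isProbabilityMeasure_map mX.aemeasurable
    have hPY : IsProbabilityMeasure (P'.map (fun ω => F (Y ω))) :=
      Measure.isProbabilityMeasure_map mY.aemeasurable
    have vX : ∀ n, Measurable (fun ω => fun x : T n => X ω x) := fun n =>
      measurable_pi_lambda _ fun x => hmX x (h1 n x x.2)
    have vY : ∀ n, Measurable (fun ω => fun x : T n => Y ω x) := fun n =>
      measurable_pi_lambda _ fun x => hmY x (h1 n x x.2)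
    have hc := fun n => A1a_continuous hF (T n) (ρ n) (h2 n)
    apply ext_of_forall_lintegral_eq_of_IsFiniteMeasure
    intro φ
    have hφm : Measurable (fun y : ℝ≥0∞ => (φ y : ℝ≥0∞)) :=
      (ENNReal.continuous_coe.comp φ.continuous).measurable
    rw [lintegral_map hφm mX, lintegral_map hφm mY]
    have hb : ∀ y : ℝ≥0∞, (φ y : ℝ≥0∞) ≤ (nndist 0 φ : ℝ≥0) := fun y =>
      ENNReal.coe_le_coe.2 (φ.apply_le_nndist_zero y)
    have tX : Tendsto (fun n => ∫⁻ ω, (φ (F (fun x => X ω (ρ n x))) : ℝ≥0∞) ∂P) atTop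
        (𝓝 (∫⁻ ω, (φ (F (X ω)) : ℝ≥0∞) ∂P)) := by
      refine tendsto_lintegral_of_dominated_convergence (fun _ => ((nndist 0 φ : ℝ≥0) : ℝ≥0∞))
        ?_ ?_ ?_ ?_
      · intro n
        exact hφm.comp ((hc n).measurable.comp (vX n))
      · intro n
        exact Filter.Eventually.of_forall fun ω => hb _
      · rw [lintegral_const, measure_univ, mul_one]
        exact ENNReal.coe_ne_top
      · refine Filter.Eventually.of_forall fun ω => ?_
        have h5 := MLip.tendsto hK hF (hX ω).continuousOn (fun n x => h1 n _ (h2 n x)) h3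
        exact ((ENNReal.continuous_coe.comp φ.continuous).tendsto _).comp h5
    have tY : Tendsto (fun n => ∫⁻ ω, (φ (F (fun x => Y ω (ρ n x))) : ℝ≥0∞) ∂P') atTop
        (𝓝 (∫⁻ ω, (φ (F (Y ω)) : ℝ≥0∞) ∂P')) := by
      refine tendsto_lintegral_of_dominated_convergence (fun _ => ((nndist 0 φ : ℝ≥0) : ℝ≥0∞))
        ?_ ?_ ?_ ?_
      · intro n
        exact hφm.comp ((hc n).measurable.comp (vY n))
      · intro n
        exact Filter.Eventually.of_forall fun ω => hb _
      · rw [lintegral_const, measure_univ, mul_one]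
        exact ENNReal.coe_ne_top
      · refine Filter.Eventually.of_forall fun ω => ?_
        have h5 := MLip.tendsto hK hF (hY ω).continuousOn (fun n x => h1 n _ (h2 n x)) h3
        exact ((ENNReal.continuous_coe.comp φ.continuous).tendsto _).comp h5
    have heq : ∀ n, ∫⁻ ω, (φ (F (fun x => X ω (ρ n x))) : ℝ≥0∞) ∂P =
        ∫⁻ ω, (φ (F (fun x => Y ω (ρ n x))) : ℝ≥0∞) ∂P' := by
      intro n
      have hm : Measurable (fun v : T n → ℝ => (φ (F (fun x => v ⟨ρ n x, h2 n x⟩)) : ℝ≥0∞)) :=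
        hφm.comp (hc n).measurable
      have e1 := lintegral_map (μ := P) hm (vX n)
      have e2 := lintegral_map (μ := P') hm (vY n)
      rw [← hlaw (T n) (h1 n)] at e2
      exact e1.symm.trans e2
    simp only [heq] at tX
    exact tendsto_nhds_unique tX tY

end MP_d19698_pr
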