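import Pool.Agent.Lib.MP_d19698_pr.A1a

/-! # A1b -/

open MeasureTheory ProbabilityTheory Filter Topology Set
open scoped ENNReal NNReal

namespace MP_d19698_pr
variable {d : ℕ}

namespace Env

variable [NeZero d] (E : Env d)

theorem continuous_hh (l m : ℕ) (ω : E.Ω) : Continuous (E.hh l m ω) := by
  unfold hh
  exact continuous_finsetSum _ fun k _ => E.cont k ω

theorem continuous_hf (l m : ℕ) (ω : E.Ω) : Continuous (E.hf l m ω) := by
  unfold hf
  exact continuous_const.mul (E.continuous_hh l m ω)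

theorem measurable_hh (l m : ℕ) (x : Rd d) : Measurable (fun ω => E.hh l m ω x) := by
  unfold hh
  exact Finset.measurable_sum _ fun k _ => E.meas k x

theorem FF_le (l m : ℕ) (K : Set (Rd d)) : E.FF l m K ≤ E.mΩ := by
  exact iSup₂_le fun x _ => (E.measurable_hh l m x).comap_le

theorem LL_le (l : ℕ) : E.LL l ≤ E.mΩ := by
  exact iSup₂_le fun k _ => iSup_le fun x => (E.meas k x).comap_le

theorem EE_le (k : ℕ) : E.EE k ≤ E.mΩ := by
  exact iSup_le fun x => (E.meas k x).comap_le

theorem FF_mono {l m : ℕ} {K K' : Set (Rd d)} (h : K ⊆ K') : E.FF l m K ≤ E.FF l m K' := by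
  exact biSup_mono fun x hx => h hx

theorem FF_le_LL (l m : ℕ) (K : Set (Rd d)) : E.FF l m K ≤ E.LL m := by
  refine iSup₂_le fun x _ => ?_
  have h : Measurable[E.LL m] (fun ω => E.hh l m ω x) := by
    unfold hh
    refine Finset.measurable_sum _ fun k hk => ?_
    have h1 : MeasurableSpace.comap (fun ω => E.η k ω x) inferInstance ≤ E.LL m :=
      (le_iSup (fun x => MeasurableSpace.comap (fun ω => E.η k ω x) inferInstance) x).trans
        (le_iSup₂ (f := fun k (_ : k < m) => E.EE k) k (Finset.mem_Ico.1 hk).2)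
    exact measurable_iff_comap_le.2 h1
  exact h.comap_le

theorem hf_add {l m n : ℕ} (hlm : l ≤ m) (hmn : m ≤ n) (ω : E.Ω) (x : Rd d) : E.hf l n ω x = E.hf l m ω x + E.hf m n ω x := by
  unfold hf hh
  rw [← mul_add, Finset.sum_Ico_consecutive _ hlm hmn]

/-- functionals of `ξ h_{l,m}` -/
theorem measurable_of_mlip (l m : ℕ) {K K' : Set (Rd d)} (hK : IsCompact K) (hKK : K ⊆ K') {F : (Rd d → ℝ) → ℝ≥0∞} (hF : MLip K F) :
    Measurable[E.FF l m K'] (fun ω => F (E.hf l m ω)) := by
  refine MLip.measurable (m := E.FF l m K') hK hF (X := fun ω => E.hf l m ω)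
    (fun ω => E.continuous_hf l m ω) fun x hx => ?_
  have h : Measurable[E.FF l m K'] (fun ω => E.hh l m ω x) :=
    measurable_iff_comap_le.2
      (le_iSup₂ (f := fun x (_ : x ∈ K') => MeasurableSpace.comap (fun ω => E.hh l m ω x) inferInstance)
        x (hKK hx))
  exact (measurable_const_mul E.ξ).comp h

/-- distances inside a bounded set -/
theorem measurable_D (l m : ℕ) {A B U K : Set (Rd d)} (hU : Bornology.IsBounded U) (hUK : closure U ⊆ K) :
    Measurable[E.FF l m K] (fun ω => D (E.hf l m ω) A B U) := by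
  exact E.measurable_of_mlip l m hU.isCompact_closure hUK (MLip_D (A := A) (B := B) subset_closure)

theorem measurable_Cr (l m : ℕ) (x : Rd d) (r r' : ℝ) {K : Set (Rd d)} (hK : Ann x r r' ⊆ K) :
    Measurable[E.FF l m K] (fun ω => Cr (E.hf l m ω) x r r') := by
  exact E.measurable_of_mlip l m (isCompact_Ann x r r') hK (MLip_Cr x r r')

theorem measurable_Edg (j m l : ℕ) (x : Rd d) (i : Fin d) (ρ : ℝ) {K : Set (Rd d)} (hK : CBox x (ρ * dy l) ⊆ K) :
    Measurable[E.FF j m K] (fun ω => E.Edg j m l ω x i ρ) := by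
  exact E.measurable_of_mlip j m (isCompact_CBox x (ρ * dy l)) hK
    (MLip_D (A := {x}) (B := {x + dy l • ee i}) (Box_subset_CBox x (ρ * dy l)))

/-- `e^{s sup_K h}`-type functionals: supremum and infimum over a compact box are random variables. -/
theorem measurable_sup (l m : ℕ) {K K' : Set (Rd d)} (hK : IsCompact K) (hne : K.Nonempty) (hKK : K ⊆ K') :
    Measurable[E.FF l m K'] (fun ω => sSup ((fun x => E.hf l m ω x) '' K)) := by
  have hF : MLip K (fun f => ENNReal.ofReal (Real.exp (sSup (f '' K)))) := by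
    intro f g ε h
    have hε : 0 ≤ ε := by
      obtain ⟨x, hx⟩ := hne
      exact (abs_nonneg _).trans (h x hx)
    simp only
    rw [← ENNReal.ofReal_mul (Real.exp_pos _).le, ← Real.exp_add]
    refine ENNReal.ofReal_le_ofReal (Real.exp_le_exp.2 ?_)
    by_cases hb : BddAbove (g '' K)
    · refine csSup_le (hne.image f) ?_
      rintro _ ⟨x, hx, rfl⟩
      have h1 := le_csSup hb (mem_image_of_mem g hx)
      have h2 := (abs_le.1 (h x hx)).2
      linarith
    · have hb' : ¬ BddAbove (f '' K) := by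
        rintro ⟨M, hM⟩
        refine hb ⟨M + ε, ?_⟩
        rintro _ ⟨x, hx, rfl⟩
        have h1 := hM (mem_image_of_mem f hx)
        have h2 := (abs_le.1 (h x hx)).1
        linarith
      rw [Real.sSup_of_not_bddAbove hb, Real.sSup_of_not_bddAbove hb']
      linarith
  have h1 := E.measurable_of_mlip l m hK hKK hF
  have h2 : (fun ω => sSup ((fun x => E.hf l m ω x) '' K)) =
      fun ω => Real.log (ENNReal.toReal (ENNReal.ofReal (Real.exp (sSup ((E.hf l m ω) '' K))))) := by
    funext ω
    rw [ENNReal.toReal_ofReal (Real.exp_pos _).le, Real.log_exp]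
  rw [h2]
  exact Real.measurable_log.comp (ENNReal.measurable_toReal.comp h1)

end Env

end MP_d19698_pr
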