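import Pool.Agent.Lib.MP_d19698_pr.A1b

/-!
# A2: laws
-/

open MeasureTheory ProbabilityTheory Filter Topology Set
open scoped ENNReal NNReal

namespace MP_d19698_pr

namespace Env

variable {d : ℕ} [NeZero d] (E : Env d)

/-- The process `(l,m,x) ↦ h_{l,m}(x)` is Gaussian (finite linear combinations of the Gaussian process `gauss`: for a finite set `I` of indices the vector is the image of the Gaussian vector
`(η_k(x))_{(k,x) ∈ J}`, `J` finite, under a continuous linear map; `HasGaussianLaw.map`). -/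
theorem isGaussianProcess_hh : IsGaussianProcess (fun (p : ℕ × ℕ × Rd d) ω => E.hh p.1 p.2.1 ω p.2.2) E.P := by
  classical
  refine E.gauss.of_isGaussianProcess fun p => ⟨(Finset.Ico p.1 p.2.1).image (fun k => (k, p.2.2)),
    ∑ i : ((Finset.Ico p.1 p.2.1).image (fun k => (k, p.2.2)) : Finset (ℕ × Rd d)),
      ContinuousLinearMap.proj (R := ℝ) (φ := fun _ => ℝ) i, fun ω => ?_⟩
  rw [sum_apply]
  simp only [ContinuousLinearMap.proj_apply, Finset.restrict]
  rw [Finset.sum_coe_sort ((Finset.Ico p.1 p.2.1).image (fun k => (k, p.2.2)))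
    (fun q => E.η q.1 ω q.2), Finset.sum_image]
  · rfl
  · intro a _ b _ hab
    exact congrArg Prod.fst hab

private theorem a2a_memLp (k : ℕ) (x : Rd d) : MemLp (fun ω => E.η k ω x) 2 E.P :=
  (E.gauss.hasGaussianLaw_eval (k, x)).memLp_two

theorem mean_hh (l m : ℕ) (x : Rd d) : ∫ ω, E.hh l m ω x ∂E.P = 0 := by
  unfold hh
  rw [integral_finsetSum]
  · exact Finset.sum_eq_zero fun k _ => E.mean k x
  · intro k _
    exact (E.gauss.hasGaussianLaw_eval (k, x)).integrable

theorem cov_hh (l m l' m' : ℕ) (x y : Rd d) :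
    ∫ ω, E.hh l m ω x * E.hh l' m' ω y ∂E.P = ∑ k ∈ Finset.Ico l m ∩ Finset.Ico l' m', covK E.𝔎 ((2 : ℝ) ^ k • (x - y)) := by
  unfold hh
  simp only [Finset.sum_mul_sum]
  rw [integral_finsetSum]
  · have h1 : ∀ k ∈ Finset.Ico l m, ∫ ω, ∑ j ∈ Finset.Ico l' m', E.η k ω x * E.η j ω y ∂E.P =
        if k ∈ Finset.Ico l' m' then covK E.𝔎 ((2 : ℝ) ^ k • (x - y)) else 0 := by
      intro k _
      rw [integral_finsetSum]
      · simp only [E.cov]
        rw [Finset.sum_ite_eq]
      · intro j _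
        exact (E.a2a_memLp k x).integrable_mul (E.a2a_memLp j y)
    rw [Finset.sum_congr rfl h1, Finset.sum_ite_mem]
  · intro k _
    refine integrable_finsetSum _ fun j _ => ?_
    exact (E.a2a_memLp k x).integrable_mul (E.a2a_memLp j y)

private theorem a2a_fdd {T : Finset (Rd d)} (f g : Rd d → ℕ × ℕ × Rd d)
    (hfg : ∀ x ∈ T, ∀ y ∈ T, ∫ ω, E.hh (f x).1 (f x).2.1 ω (f x).2.2 * E.hh (f y).1 (f y).2.1 ω (f y).2.2 ∂E.P =
      ∫ ω, E.hh (g x).1 (g x).2.1 ω (g x).2.2 * E.hh (g y).1 (g y).2.1 ω (g y).2.2 ∂E.P) :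
    E.P.map (fun ω (x : T) => E.hh (f x).1 (f x).2.1 ω (f x).2.2) =
      E.P.map (fun ω (x : T) => E.hh (g x).1 (g x).2.1 ω (g x).2.2) := by
  have hG : ∀ f : Rd d → ℕ × ℕ × Rd d,
      HasGaussianLaw (fun ω (x : T) => E.hh (f x).1 (f x).2.1 ω (f x).2.2) E.P := fun f =>
    ((E.isGaussianProcess_hh).comp_right f).hasGaussianLaw T
  have hL2 : ∀ (f : Rd d → ℕ × ℕ × Rd d) (x : Rd d),
      MemLp (fun ω => E.hh (f x).1 (f x).2.1 ω (f x).2.2) 2 E.P := fun f x =>
    ((E.isGaussianProcess_hh).hasGaussianLaw_eval (f x)).memLp_two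
  have hlin : ∀ (L : StrongDual ℝ (T → ℝ)) (v : T → ℝ), L v = ∑ i : T, v i * L (Pi.single i 1) := by
    intro L v
    classical
    conv_lhs => rw [← Finset.univ_sum_single v]
    rw [map_sum]
    refine Finset.sum_congr rfl fun i _ => ?_
    rw [← smul_eq_mul, ← map_smul]
    congr 1
    rw [← Pi.single_smul, smul_eq_mul, mul_one]
  have hmean : ∀ (f : Rd d → ℕ × ℕ × Rd d) (L : StrongDual ℝ (T → ℝ)),
      ∫ ω, L (fun x : T => E.hh (f x).1 (f x).2.1 ω (f x).2.2) ∂E.P = 0 := by
    intro f L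
    have e : (fun ω => L (fun x : T => E.hh (f x).1 (f x).2.1 ω (f x).2.2)) = fun ω =>
        ∑ i : T, E.hh (f i).1 (f i).2.1 ω (f i).2.2 * L (Pi.single i 1) := funext fun ω => hlin L _
    rw [e, integral_finsetSum]
    · refine Finset.sum_eq_zero fun i _ => ?_
      rw [integral_mul_const, E.mean_hh, zero_mul]
    · intro i _
      exact ((hL2 f i).integrable (by norm_num)).mul_const _
  have hvar : ∀ (f : Rd d → ℕ × ℕ × Rd d) (L : StrongDual ℝ (T → ℝ)),
      Var[fun ω => L (fun x : T => E.hh (f x).1 (f x).2.1 ω (f x).2.2); E.P] =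
      ∑ i : T, ∑ j : T, (L (Pi.single i 1) * L (Pi.single j 1)) *
        ∫ ω, E.hh (f i).1 (f i).2.1 ω (f i).2.2 * E.hh (f j).1 (f j).2.1 ω (f j).2.2 ∂E.P := by
    intro f L
    have hm : MemLp (fun ω => L (fun x : T => E.hh (f x).1 (f x).2.1 ω (f x).2.2)) 2 E.P :=
      ((hG f).map_fun L).memLp_two
    rw [variance_of_integral_eq_zero hm.aestronglyMeasurable.aemeasurable (hmean f L)]
    have e : ∀ ω, (L (fun x : T => E.hh (f x).1 (f x).2.1 ω (f x).2.2)) ^ 2 =
        ∑ i : T, ∑ j : T, (L (Pi.single i 1) * L (Pi.single j 1)) *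
          (E.hh (f i).1 (f i).2.1 ω (f i).2.2 * E.hh (f j).1 (f j).2.1 ω (f j).2.2) := by
      intro ω
      rw [hlin L, sq, Finset.sum_mul_sum]
      refine Finset.sum_congr rfl fun i _ => Finset.sum_congr rfl fun j _ => ?_
      ring
    simp only [e]
    have hint : ∀ i j : T, Integrable (fun ω => (L (Pi.single i 1) * L (Pi.single j 1)) *
          (E.hh (f i).1 (f i).2.1 ω (f i).2.2 * E.hh (f j).1 (f j).2.1 ω (f j).2.2)) E.P :=
      fun i j => ((hL2 f i).integrable_mul (hL2 f j)).const_mul _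
    rw [integral_finsetSum _ fun i _ => integrable_finsetSum _ fun j _ => hint i j]
    refine Finset.sum_congr rfl fun i _ => ?_
    rw [integral_finsetSum _ fun j _ => hint i j]
    refine Finset.sum_congr rfl fun j _ => ?_
    rw [integral_const_mul]
  have hpf : IsProbabilityMeasure (E.P.map (fun ω (x : T) => E.hh (f x).1 (f x).2.1 ω (f x).2.2)) :=
    Measure.isProbabilityMeasure_map (hG f).aemeasurable
  have hpg : IsProbabilityMeasure (E.P.map (fun ω (x : T) => E.hh (g x).1 (g x).2.1 ω (g x).2.2)) :=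
    Measure.isProbabilityMeasure_map (hG g).aemeasurable
  refine Measure.ext_of_charFunDual (funext fun L => ?_)
  rw [(hG f).charFunDual_map_eq_fun, (hG g).charFunDual_map_eq_fun, hmean f, hmean g, hvar f, hvar g]
  congr 4
  refine Finset.sum_congr rfl fun i _ => Finset.sum_congr rfl fun j _ => ?_
  rw [hfg i i.2 j j.2]

/-- Finite-dimensional distributions are invariant: `h_{l,l+m}(x0 + 2^{-l} O x)` has the law of `h_{0,m}(x)`.
(Both vectors are centred Gaussian with equal covariances: `c(2^{l+k} 2^{-l} O (x-y)) = c(2^k (x-y))` by `c_rot`. A Gaussian measure on a finite-dimensional space is determined by mean and covariance: compare characteristic functions,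
`Measure.ext_of_charFun`/`charFunDual`, `HasGaussianLaw.charFunDual_map_eq`; for a linear form `L = ∑ a_x δ_x` the mean is `0` and the variance is `∑∑ a_x a_y Cov`.) -/
theorem fdd_scale (l m : ℕ) (x0 : Rd d) (O : Rd d ≃ₗᵢ[ℝ] Rd d) (T : Finset (Rd d)) :
    E.P.map (fun ω (x : T) => E.hh l (l + m) ω (x0 + dy l • O x)) = E.P.map (fun ω (x : T) => E.hh 0 m ω x) := by
  refine E.a2a_fdd (fun x => (l, l + m, x0 + dy l • O x)) (fun x => (0, m, x)) ?_
  intro x _ y _
  simp only
  rw [E.cov_hh, E.cov_hh, Finset.inter_self, Finset.inter_self]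
  rw [Finset.sum_Ico_eq_sum_range, Finset.sum_Ico_eq_sum_range]
  simp only [add_tsub_cancel_left, tsub_zero, zero_add]
  refine Finset.sum_congr rfl fun k _ => ?_
  rw [← E.c_rot O ((2 : ℝ) ^ k • (x - y))]
  congr 1
  rw [map_smul, map_sub, add_sub_add_left_eq_sub, ← smul_sub, smul_smul]
  congr 1
  unfold dy
  rw [pow_add, mul_right_comm, ← mul_pow]
  norm_num

end Env
end MP_d19698_pr
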