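import Pool.Agent.Lib.MP_d19698_pr.A2a

/-! # A2b -/

open MeasureTheory ProbabilityTheory Filter Topology Set
open scoped ENNReal NNReal

namespace MP_d19698_pr
namespace Env
variable {d : ℕ} [NeZero d] (E : Env d)

private theorem A2b_dy_pos (l : ℕ) : 0 < dy l := by unfold dy; positivity

private theorem A2b_dy_zero : dy 0 = 1 := by simp [dy]

private theorem A2b_dy_add (j l : ℕ) : dy (j + l) = dy j * dy l := by simp [dy, pow_add]

/-- **Scaling law for functionals.** -/
theorem map_scale (l m : ℕ) (x0 : Rd d) (O : Rd d ≃ₗᵢ[ℝ] Rd d) {K : Set (Rd d)} (hK : IsCompact K) {F : (Rd d → ℝ) → ℝ≥0∞} (hF : MLip K F) :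
    E.P.map (fun ω => F (fun x => E.hf l (l + m) ω (x0 + dy l • O x))) = E.P.map (fun ω => F (E.hf 0 m ω)) := by
  have hcX : ∀ ω, Continuous (fun x => E.hf l (l + m) ω (x0 + dy l • O x)) := by
    intro ω
    exact (E.continuous_hf l (l + m) ω).comp
      (continuous_const.add (O.continuous.const_smul (dy l)))
  have hmh : ∀ l m x, Measurable (fun ω => E.hf l m ω x) := fun l m x =>
    (E.measurable_hh l m x).const_mul E.ξ
  refine MLip.map_eq hK hF hcX (E.continuous_hf 0 m) (fun x _ => hmh _ _ _) (fun x _ => hmh _ _ _) ?_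
  intro T _
  have h := E.fdd_scale l m x0 O T
  have h1 : E.P.map (fun ω (x : T) => E.hf l (l + m) ω (x0 + dy l • O x))
      = (E.P.map (fun ω (x : T) => E.hh l (l + m) ω (x0 + dy l • O x))).map
        (fun v (x : T) => E.ξ * v x) := by
    rw [Measure.map_map]
    · rfl
    · exact measurable_pi_lambda _ fun x => (measurable_pi_apply x).const_mul _
    · exact measurable_pi_lambda _ fun x => E.measurable_hh _ _ _
  have h2 : E.P.map (fun ω (x : T) => E.hf 0 m ω x)
      = (E.P.map (fun ω (x : T) => E.hh 0 m ω x)).map (fun v (x : T) => E.ξ * v x) := by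
    rw [Measure.map_map]
    · rfl
    · exact measurable_pi_lambda _ fun x => (measurable_pi_apply x).const_mul _
    · exact measurable_pi_lambda _ fun x => E.measurable_hh _ _ _
  show E.P.map (fun ω (x : T) => E.hf l (l + m) ω (x0 + dy l • O x)) = E.P.map (fun ω (x : T) => E.hf 0 m ω x)
  rw [h1, h2, h]

private theorem A2b_mlip_const_mul {K : Set (Rd d)} {F : (Rd d → ℝ) → ℝ≥0∞} (hF : MLip K F) (c : ℝ≥0∞) :
    MLip K (fun f => c * F f) := by
  intro f g ε h
  calc c * F f ≤ c * (ENNReal.ofReal (Real.exp ε) * F g) := by gcongr; exact hF f g ε h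
    _ = _ := by ring

/-- **Scaling law for distances** (`U` bounded): `D_{l,l+m}(TA,TB;TU)` has the law of `2^{-l} D_{0,m}(A,B;U)`. -/
theorem map_D_scale (l m : ℕ) (x0 : Rd d) (O : Rd d ≃ₗᵢ[ℝ] Rd d) {A B U : Set (Rd d)} (hU : Bornology.IsBounded U) :
    E.P.map (fun ω => D (E.hf l (l + m) ω) ((fun y => x0 + dy l • O y) '' A) ((fun y => x0 + dy l • O y) '' B) ((fun y => x0 + dy l • O y) '' U)) =
      E.P.map (fun ω => ENNReal.ofReal (dy l) * D (E.hf 0 m ω) A B U) := by
  have h := E.map_scale l m x0 O (K := closure U) hU.isCompact_closure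
    (F := fun f => ENNReal.ofReal (dy l) * D f A B U)
    (A2b_mlip_const_mul (MLip_D subset_closure) _)
  rw [← h]
  congr 1
  funext ω
  exact D_sim _ A B U x0 (A2b_dy_pos l) O

private theorem A2b_measurable_D (l m : ℕ) {A B U : Set (Rd d)} (hU : Bornology.IsBounded U) :
    Measurable (fun ω => D (E.hf l m ω) A B U) :=
  (E.measurable_D l m hU subset_rfl).mono (E.FF_le _ _ _) le_rfl

private theorem A2b_measurable_Cr (l m : ℕ) (x : Rd d) (r r' : ℝ) :
    Measurable (fun ω => Cr (E.hf l m ω) x r r') :=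
  (E.measurable_Cr l m x r r' subset_rfl).mono (E.FF_le _ _ _) le_rfl

private theorem A2b_bdd_Box (x : Rd d) (r : ℝ) : Bornology.IsBounded (Box x r) :=
  (isCompact_CBox x r).isBounded.subset (Box_subset_CBox x r)

/-- the coordinate transposition -/
private noncomputable def A2b_swap (i : Fin d) : Rd d ≃ₗᵢ[ℝ] Rd d :=
  LinearIsometryEquiv.piLpCongrLeft 2 ℝ ℝ (Equiv.swap 0 i)

private theorem A2b_swap_apply (i : Fin d) (x : Rd d) (k : Fin d) :
    A2b_swap i x k = x (Equiv.swap 0 i k) := by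
  simp [A2b_swap, LinearIsometryEquiv.piLpCongrLeft_apply]
  
private theorem A2b_swap_ee (i : Fin d) : A2b_swap i (ee 0) = ee i := by
  ext k
  rw [A2b_swap_apply]
  simp only [ee, PiLp.single_apply]
  congr 1
  rw [eq_iff_iff]
  constructor
  · intro h
    have := congrArg (Equiv.swap 0 i) h
    simpa using this
  · intro h
    rw [h]; simp

private theorem A2b_image_Box (i : Fin d) (x : Rd d) {s : ℝ} (hs : 0 < s) (r : ℝ) :
    (fun y => x + s • A2b_swap i y) '' (Box 0 r) = Box x (s * r) := by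
  ext z
  simp only [mem_image, Box, mem_ofPred_eq]
  constructor
  · rintro ⟨y, hy, rfl⟩ k
    have h := hy (Equiv.swap 0 i k)
    simp only [PiLp.zero_apply, sub_zero] at h
    simp only [PiLp.add_apply, PiLp.smul_apply, A2b_swap_apply, smul_eq_mul, add_sub_cancel_left]
    rw [abs_mul, abs_of_pos hs]
    exact mul_lt_mul_of_pos_left h hs
  · intro hz
    refine ⟨A2b_swap i (s⁻¹ • (z - x)), ?_, ?_⟩
    · intro k
      have h := hz (Equiv.swap 0 i k)
      simp only [PiLp.zero_apply, sub_zero, A2b_swap_apply, PiLp.smul_apply, PiLp.sub_apply, smul_eq_mul]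
      rw [abs_mul, abs_of_pos (inv_pos.mpr hs), inv_mul_lt_iff₀ hs]
      exact h
    · have h2 : A2b_swap i (A2b_swap i (s⁻¹ • (z - x))) = s⁻¹ • (z - x) := by
        ext k
        rw [A2b_swap_apply, A2b_swap_apply]
        simp
      show x + s • A2b_swap i (A2b_swap i (s⁻¹ • (z - x))) = z
      rw [h2, smul_smul, mul_inv_cancel₀ hs.ne']
      simp

private theorem A2b_edge_map (j m l : ℕ) (x : Rd d) (i : Fin d) (ρ : ℝ) :
    E.P.map (fun ω => E.Edg j (j + m) (j + l) ω x i ρ) =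
      E.P.map (fun ω => ENNReal.ofReal (dy j) * E.Edg 0 m l ω 0 0 ρ) := by
  have h := E.map_D_scale j m x (A2b_swap i) (A := {0}) (B := {0 + dy l • ee 0})
    (U := Box 0 (ρ * dy l)) (A2b_bdd_Box _ _)
  have hA : (fun y => x + dy j • A2b_swap i y) '' ({0} : Set (Rd d)) = {x} := by simp
  have hB : (fun y => x + dy j • A2b_swap i y) '' ({0 + dy l • ee 0} : Set (Rd d)) = {x + dy (j + l) • ee i} := by
    rw [image_singleton, zero_add, map_smul, A2b_swap_ee, smul_smul, ← A2b_dy_add]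
  have hU : (fun y => x + dy j • A2b_swap i y) '' (Box (0 : Rd d) (ρ * dy l)) = Box x (ρ * dy (j + l)) := by
    rw [A2b_image_Box i x (A2b_dy_pos j), A2b_dy_add]
    congr 1; ring
  rw [hA, hB, hU] at h
  exact h

private theorem A2b_measurable_Edg (j m l : ℕ) (x : Rd d) (i : Fin d) (ρ : ℝ) :
    Measurable (fun ω => E.Edg j m l ω x i ρ) :=
  (E.measurable_Edg j m l x i ρ subset_rfl).mono (E.FF_le _ _ _) le_rfl

/-- edges: level `j`-`m` field, edge level `j + l`, arbitrary position and direction. -/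
theorem edge_law (j m l : ℕ) (x : Rd d) (i : Fin d) (ρ : ℝ) (t : ℝ) :
    E.P.real {ω | ENNReal.ofReal (dy j * t) < E.Edg j (j + m) (j + l) ω x i ρ} = E.P.real {ω | ENNReal.ofReal t < E.Edg 0 m l ω 0 0 ρ} := by
  have h := E.A2b_edge_map j m l x i ρ
  have h1 : E.P {ω | ENNReal.ofReal (dy j * t) < E.Edg j (j + m) (j + l) ω x i ρ}
      = E.P.map (fun ω => E.Edg j (j + m) (j + l) ω x i ρ) (Ioi (ENNReal.ofReal (dy j * t))) := by
    rw [Measure.map_apply (E.A2b_measurable_Edg _ _ _ _ _ _) measurableSet_Ioi]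
    rfl
  have h2 : E.P.map (fun ω => ENNReal.ofReal (dy j) * E.Edg 0 m l ω 0 0 ρ) (Ioi (ENNReal.ofReal (dy j * t)))
      = E.P {ω | ENNReal.ofReal t < E.Edg 0 m l ω 0 0 ρ} := by
    rw [Measure.map_apply ((E.A2b_measurable_Edg _ _ _ _ _ _).const_mul _) measurableSet_Ioi]
    congr 1
    ext ω
    simp only [mem_preimage, mem_Ioi, mem_ofPred_eq]
    rw [ENNReal.ofReal_mul (A2b_dy_pos j).le]
    exact ENNReal.mul_lt_mul_iff_right (by simpa using A2b_dy_pos j) ENNReal.ofReal_ne_top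
  rw [measureReal_def, measureReal_def, h1, h, h2]

/-- the special case `l = 0` in terms of the tail function `Gt`. -/
theorem edge_law_Gt (j m : ℕ) (x : Rd d) (i : Fin d) (ρ : ℝ) (t : ℝ) :
    E.P.real {ω | ENNReal.ofReal (dy j * t) < E.Edg j (j + m) j ω x i ρ} = E.Gt ρ m t := by
  exact E.edge_law j m 0 x i ρ t

/-- expectation version -/
theorem edge_law_lintegral (j m : ℕ) (x : Rd d) (i : Fin d) (ρ : ℝ) :
    ∫⁻ ω, E.Edg j (j + m) j ω x i ρ ∂E.P = ENNReal.ofReal (dy j) * ∫⁻ ω, E.Edg 0 m 0 ω 0 0 ρ ∂E.P := by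
  have h := E.A2b_edge_map j m 0 x i ρ
  have h1 : ∫⁻ ω, E.Edg j (j + m) j ω x i ρ ∂E.P
      = ∫⁻ z, z ∂(E.P.map (fun ω => E.Edg j (j + m) (j + 0) ω x i ρ)) := by
    rw [lintegral_map (f := fun z => z) measurable_id (E.A2b_measurable_Edg _ _ _ _ _ _)]
    rfl
  have h2 : ∫⁻ z, z ∂(E.P.map (fun ω => ENNReal.ofReal (dy j) * E.Edg 0 m 0 ω 0 0 ρ))
      = ENNReal.ofReal (dy j) * ∫⁻ ω, E.Edg 0 m 0 ω 0 0 ρ ∂E.P := by
    rw [lintegral_map (f := fun z => z) measurable_id ((E.A2b_measurable_Edg _ _ _ _ _ _).const_mul _)]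
    exact lintegral_const_mul _ (E.A2b_measurable_Edg _ _ _ _ _ _)
  rw [h1, h, h2]

/-- annuli -/
theorem cr_law (l m : ℕ) (x : Rd d) (r r' t : ℝ) :
    E.P.real {ω | Cr (E.hf l (l + m) ω) x (dy l * r) (dy l * r') < ENNReal.ofReal (dy l * t)} =
      E.P.real {ω | Cr (E.hf 0 m ω) 0 r r' < ENNReal.ofReal t} := by
  have h := E.map_scale l m x (LinearIsometryEquiv.refl ℝ (Rd d)) (isCompact_Ann 0 r r')
    (F := fun f => ENNReal.ofReal (dy l) * Cr f 0 r r')
    (A2b_mlip_const_mul (MLip_Cr 0 r r') _)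
  have h1 : E.P {ω | Cr (E.hf l (l + m) ω) x (dy l * r) (dy l * r') < ENNReal.ofReal (dy l * t)}
      = E.P.map (fun ω => ENNReal.ofReal (dy l) * Cr (fun y => E.hf l (l + m) ω (x + dy l • LinearIsometryEquiv.refl ℝ (Rd d) y)) 0 r r')
        (Iio (ENNReal.ofReal (dy l * t))) := by
    have hfun : (fun ω => ENNReal.ofReal (dy l) * Cr (fun y => E.hf l (l + m) ω (x + dy l • LinearIsometryEquiv.refl ℝ (Rd d) y)) 0 r r')
        = fun ω => Cr (E.hf l (l + m) ω) x (dy l * r) (dy l * r') := by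
      funext ω
      rw [Cr_scale _ x (A2b_dy_pos l)]
      rfl
    rw [hfun, Measure.map_apply (E.A2b_measurable_Cr _ _ _ _ _) measurableSet_Iio]
    rfl
  have h2 : E.P.map (fun ω => ENNReal.ofReal (dy l) * Cr (E.hf 0 m ω) 0 r r') (Iio (ENNReal.ofReal (dy l * t)))
      = E.P {ω | Cr (E.hf 0 m ω) 0 r r' < ENNReal.ofReal t} := by
    rw [Measure.map_apply ((E.A2b_measurable_Cr _ _ _ _ _).const_mul _) measurableSet_Iio]
    congr 1
    ext ω
    simp only [mem_preimage, mem_Iio, mem_ofPred_eq]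
    rw [ENNReal.ofReal_mul (A2b_dy_pos l).le]
    exact ENNReal.mul_lt_mul_iff_right (by simpa using A2b_dy_pos l) ENNReal.ofReal_ne_top
  rw [measureReal_def, measureReal_def, h1, h, h2]

/-- bad cells -/
theorem cell_law (l m : ℕ) (x : Rd d) (t : ℝ) :
    E.P.real {ω | Cr (E.hf l (l + m) ω) x (1 / 2 * dy l) (3 / 2 * dy l) < ENNReal.ofReal (dy l * t)} =
      E.P.real {ω | E.Zm m ω < ENNReal.ofReal t} := by
  rw [mul_comm (1 / 2 : ℝ), mul_comm (3 / 2 : ℝ)]
  exact E.cr_law l m x (1 / 2) (3 / 2) t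

/-- Euclidean isometries (level `0`): `D_n(TA,TB;TU)` has the law of `D_n(A,B;U)`, `T y = x0 + O y`. -/
theorem map_D_isom (n : ℕ) (x0 : Rd d) (O : Rd d ≃ₗᵢ[ℝ] Rd d) {A B U : Set (Rd d)} (hU : Bornology.IsBounded U) :
    E.P.map (fun ω => D (E.hf 0 n ω) ((fun y => x0 + O y) '' A) ((fun y => x0 + O y) '' B) ((fun y => x0 + O y) '' U)) =
      E.P.map (fun ω => D (E.hf 0 n ω) A B U) := by
  have h := E.map_D_scale 0 n x0 O (A := A) (B := B) hU
  simpa [A2b_dy_zero] using h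

end Env

end MP_d19698_pr
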