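import Pool.Agent.Lib.MP_d19698_pr.A2b

/-!
# A3: independence
-/

open MeasureTheory ProbabilityTheory Filter Topology Set
open scoped ENNReal NNReal

namespace MP_d19698_pr

namespace Env

variable {d : ℕ} [NeZero d] (E : Env d)

private theorem A3a_meas (l m : ℕ) (x : Rd d) : Measurable (fun ω => E.hh l m ω x) := by
  unfold hh
  exact Finset.measurable_fun_sum _ fun k _ => E.meas k x

/-- General principle: index sets `S a ⊆ ℕ × ℕ × ℝ^d` with vanishing cross covariances generate independent σ-algebras. (`IsGaussianProcess.iIndepFun_of_covariance_eq_zero` for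
`X a (p : S a) = h_p`; joint Gaussianity from `isGaussianProcess_hh` by `comp_right`; the σ-algebra generated by `ω ↦ (p ↦ h_p(ω))` with the product σ-algebra is the supremum of the comaps.) -/
theorem iIndep_of_cov {ι : Type*} (S : ι → Set (ℕ × ℕ × Rd d))
    (h : ∀ a b, a ≠ b → ∀ p ∈ S a, ∀ q ∈ S b,
      ∑ k ∈ Finset.Ico p.1 p.2.1 ∩ Finset.Ico q.1 q.2.1, covK E.𝔎 ((2 : ℝ) ^ k • (p.2.2 - q.2.2)) = 0) :
    iIndep (fun a => ⨆ p ∈ S a, MeasurableSpace.comap (fun ω => E.hh p.1 p.2.1 ω p.2.2) inferInstance) E.P := by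
  have hX : IsGaussianProcess (fun (p : (a : ι) × S a) ω =>
      (fun (a : ι) (s : S a) (ω : E.Ω) => E.hh s.1.1 s.1.2.1 ω s.1.2.2) p.1 p.2 ω) E.P :=
    E.isGaussianProcess_hh.comp_right (fun p : (a : ι) × S a => (p.2 : ℕ × ℕ × Rd d))
  have h1 := hX.iIndepFun_of_covariance_eq_zero (X := fun (a : ι) (s : S a) (ω : E.Ω) =>
      E.hh s.1.1 s.1.2.1 ω s.1.2.2)
    (fun a s => (A3a_meas E _ _ _).aemeasurable) (fun a b hab s t => by
      rw [covariance]
      simp only [mean_hh, sub_zero]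
      rw [cov_hh]
      exact h a b hab s.1 s.2 t.1 t.2)
  rw [iIndepFun_iff_iIndep] at h1
  have h2 : (fun a => ⨆ p ∈ S a, MeasurableSpace.comap (fun ω => E.hh p.1 p.2.1 ω p.2.2)
      (inferInstance : MeasurableSpace ℝ)) =
      fun a => MeasurableSpace.comap (fun (ω : E.Ω) (s : S a) => E.hh s.1.1 s.1.2.1 ω s.1.2.2)
        MeasurableSpace.pi := by
    funext a
    rw [MeasurableSpace.pi, MeasurableSpace.comap_iSup, iSup_subtype']
    refine iSup_congr fun s => ?_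
    rw [MeasurableSpace.comap_comp]
    rfl
  rw [h2]
  exact h1

private theorem A3a_eta (k : ℕ) (ω : E.Ω) (x : Rd d) : E.η k ω x = E.hh k (k + 1) ω x := by
  unfold hh
  rw [Nat.Ico_succ_singleton, Finset.sum_singleton]

private theorem A3a_EE (k : ℕ) : E.EE k = ⨆ p ∈ {p : ℕ × ℕ × Rd d | p.1 = k ∧ p.2.1 = k + 1},
    MeasurableSpace.comap (fun ω => E.hh p.1 p.2.1 ω p.2.2) inferInstance := by
  unfold EE
  apply le_antisymm
  · refine iSup_le fun x => ?_
    have h1 : (fun ω => E.η k ω x) = fun ω => E.hh k (k + 1) ω x := by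
      funext ω
      exact A3a_eta E k ω x
    rw [h1]
    exact le_iSup₂_of_le (f := fun (p : ℕ × ℕ × Rd d)
      (_ : p ∈ {p : ℕ × ℕ × Rd d | p.1 = k ∧ p.2.1 = k + 1}) =>
      MeasurableSpace.comap (fun ω => E.hh p.1 p.2.1 ω p.2.2) inferInstance)
      (k, k + 1, x) ⟨rfl, rfl⟩ le_rfl
  · refine iSup₂_le fun p hp => ?_
    obtain ⟨a, b, x⟩ := p
    obtain ⟨rfl, hb⟩ := hp
    simp only at hb
    subst hb
    refine le_iSup_of_le x ?_
    have h1 : (fun ω => E.η a ω x) = fun ω => E.hh a (a + 1) ω x := by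
      funext ω
      exact A3a_eta E a ω x
    rw [h1]

/-- the levels are independent -/
theorem iIndep_EE : iIndep (fun k => E.EE k) E.P := by
  have h1 : (fun k => E.EE k) = fun k => ⨆ p ∈ {p : ℕ × ℕ × Rd d | p.1 = k ∧ p.2.1 = k + 1},
      MeasurableSpace.comap (fun ω => E.hh p.1 p.2.1 ω p.2.2) inferInstance := by
    funext k
    exact A3a_EE E k
  rw [h1]
  refine E.iIndep_of_cov (fun k => {p : ℕ × ℕ × Rd d | p.1 = k ∧ p.2.1 = k + 1}) ?_
  rintro a b hab ⟨p1, p2, x⟩ ⟨hp1, hp2⟩ ⟨q1, q2, y⟩ ⟨hq1, hq2⟩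
  simp only at hp1 hp2 hq1 hq2
  subst hp1 hq1
  rw [hp2, hq2]
  have h2 : Finset.Ico p1 (p1 + 1) ∩ Finset.Ico q1 (q1 + 1) = ∅ := by
    ext k
    simp only [Finset.mem_inter, Finset.mem_Ico, Finset.notMem_empty, iff_false]
    omega
  simp only
  rw [h2, Finset.sum_empty]

/-- coarse levels are independent of fine levels -/
theorem indep_LL_FF (l m : ℕ) (K : Set (Rd d)) : Indep (E.LL l) (E.FF l m K) E.P := by
  let S : Bool → Set (ℕ × ℕ × Rd d) := fun b => if b then {p | p.1 < l ∧ p.2.1 = p.1 + 1} else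
    {p | p.1 = l ∧ p.2.1 = m ∧ p.2.2 ∈ K}
  have h1 := E.iIndep_of_cov S (by
    intro a b hab p hp q hq
    have key : ∀ p q : ℕ × ℕ × Rd d, (p.1 < l ∧ p.2.1 = p.1 + 1) → q.1 = l →
        Finset.Ico p.1 p.2.1 ∩ Finset.Ico q.1 q.2.1 = ∅ := by
      intro p q hp hq
      ext k
      simp only [Finset.mem_inter, Finset.mem_Ico, Finset.notMem_empty, iff_false]
      omega
    cases a with
    | true =>
      cases b with
      | true => exact absurd rfl hab
      | false =>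
        simp only [S, if_true] at hp hq
        have h2 := key p q hp hq.1
        rw [h2, Finset.sum_empty]
    | false =>
      cases b with
      | true =>
        simp only [S, if_true] at hp hq
        have h2 := key q p hq hp.1
        rw [Finset.inter_comm, h2, Finset.sum_empty]
      | false => exact absurd rfl hab)
  have h3 := h1.indep (i := true) (j := false) (by decide)
  have e1 : E.LL l = ⨆ p ∈ S true,
      MeasurableSpace.comap (fun ω => E.hh p.1 p.2.1 ω p.2.2) inferInstance := by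
    unfold LL
    apply le_antisymm
    · refine iSup₂_le fun k hk => ?_
      rw [A3a_EE]
      refine iSup₂_le fun p hp => ?_
      exact le_iSup₂_of_le (f := fun (p : ℕ × ℕ × Rd d) (_ : p ∈ S true) =>
        MeasurableSpace.comap (fun ω => E.hh p.1 p.2.1 ω p.2.2) inferInstance)
        p ⟨by rw [hp.1]; exact hk, by rw [hp.2, hp.1]⟩ le_rfl
    · refine iSup₂_le fun p hp => ?_
      refine le_iSup₂_of_le p.1 hp.1 ?_
      rw [A3a_EE]
      exact le_iSup₂_of_le (f := fun (q : ℕ × ℕ × Rd d)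
        (_ : q ∈ {q : ℕ × ℕ × Rd d | q.1 = p.1 ∧ q.2.1 = p.1 + 1}) =>
        MeasurableSpace.comap (fun ω => E.hh q.1 q.2.1 ω q.2.2) inferInstance)
        p ⟨rfl, hp.2⟩ le_rfl
  have e2 : E.FF l m K = ⨆ p ∈ S false,
      MeasurableSpace.comap (fun ω => E.hh p.1 p.2.1 ω p.2.2) inferInstance := by
    unfold FF
    apply le_antisymm
    · refine iSup₂_le fun x hx => ?_
      exact le_iSup₂_of_le (f := fun (p : ℕ × ℕ × Rd d) (_ : p ∈ S false) =>
        MeasurableSpace.comap (fun ω => E.hh p.1 p.2.1 ω p.2.2) inferInstance)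
        (l, m, x) ⟨rfl, rfl, hx⟩ le_rfl
    · refine iSup₂_le fun p hp => ?_
      obtain ⟨a, b, x⟩ := p
      obtain ⟨ha, hb, hx⟩ := hp
      simp only at ha hb hx
      subst ha hb
      exact le_iSup₂_of_le (f := fun (x : Rd d) (_ : x ∈ K) =>
        MeasurableSpace.comap (fun ω => E.hh a b ω x) inferInstance) x hx le_rfl
  rw [e1, e2]
  exact h3

private theorem A3a_FF (l m : ℕ) (K : Set (Rd d)) :
    E.FF l m K = ⨆ p ∈ {p : ℕ × ℕ × Rd d | p.1 = l ∧ p.2.1 = m ∧ p.2.2 ∈ K},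
      MeasurableSpace.comap (fun ω => E.hh p.1 p.2.1 ω p.2.2) inferInstance := by
  unfold FF
  apply le_antisymm
  · refine iSup₂_le fun x hx => ?_
    exact le_iSup₂_of_le (f := fun (p : ℕ × ℕ × Rd d)
      (_ : p ∈ {p : ℕ × ℕ × Rd d | p.1 = l ∧ p.2.1 = m ∧ p.2.2 ∈ K}) =>
      MeasurableSpace.comap (fun ω => E.hh p.1 p.2.1 ω p.2.2) inferInstance)
      (l, m, x) ⟨rfl, rfl, hx⟩ le_rfl
  · refine iSup₂_le fun p hp => ?_
    obtain ⟨a, b, x⟩ := p
    obtain ⟨ha, hb, hx⟩ := hp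
    simp only at ha hb hx
    subst ha hb
    exact le_iSup₂_of_le (f := fun (x : Rd d) (_ : x ∈ K) =>
      MeasurableSpace.comap (fun ω => E.hh a b ω x) inferInstance) x hx le_rfl

private theorem A3a_dy_pow (k : ℕ) : (2 : ℝ) ^ k * dy k = 1 := by
  unfold dy
  rw [← mul_pow]
  norm_num

/-- **Separated regions.** `FF (l a) m (K a)` are independent if for `a ≠ b` the points of `K a` and `K b` are at distance `≥ 2 r_0 2^{-max(l a, l b)}`. -/
theorem iIndep_FF {ι : Type*} (l : ι → ℕ) (m : ℕ) (K : ι → Set (Rd d))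
    (h : ∀ a b, a ≠ b → ∀ x ∈ K a, ∀ y ∈ K b, 2 * E.r0 * dy (max (l a) (l b)) ≤ ‖x - y‖) :
    iIndep (fun a => E.FF (l a) m (K a)) E.P := by
  have h1 : (fun a => E.FF (l a) m (K a)) =
      fun a => ⨆ p ∈ {p : ℕ × ℕ × Rd d | p.1 = l a ∧ p.2.1 = m ∧ p.2.2 ∈ K a},
      MeasurableSpace.comap (fun ω => E.hh p.1 p.2.1 ω p.2.2) inferInstance := by
    funext a
    exact A3a_FF E (l a) m (K a)
  rw [h1]
  refine E.iIndep_of_cov (fun a => {p : ℕ × ℕ × Rd d | p.1 = l a ∧ p.2.1 = m ∧ p.2.2 ∈ K a}) ?_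
  rintro a b hab p ⟨hp1, hp2, hp3⟩ q ⟨hq1, hq2, hq3⟩
  refine Finset.sum_eq_zero fun k hk => ?_
  rw [Finset.mem_inter, Finset.mem_Ico, Finset.mem_Ico, hp1, hq1] at hk
  apply E.c_supp
  have h2 := h a b hab _ hp3 _ hq3
  have h3 : max (l a) (l b) ≤ k := max_le hk.1.1 hk.2.1
  rw [norm_smul, Real.norm_of_nonneg (by positivity)]
  have h4 : dy k ≤ dy (max (l a) (l b)) := by
    unfold dy
    exact pow_le_pow_of_le_one (by norm_num) (by norm_num) h3
  have hr := E.hr0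
  calc 2 * E.r0 = (2 : ℝ) ^ k * (2 * E.r0 * dy k) := by
        have := A3a_dy_pow k
        linear_combination (-(2 * E.r0)) * this
    _ ≤ (2 : ℝ) ^ k * (2 * E.r0 * dy (max (l a) (l b))) := by
        apply mul_le_mul_of_nonneg_left _ (by positivity)
        exact mul_le_mul_of_nonneg_left h4 (by positivity)
    _ ≤ (2 : ℝ) ^ k * ‖p.2.2 - q.2.2‖ := mul_le_mul_of_nonneg_left h2 (by positivity)

private theorem A3a_dy_pos (k : ℕ) : 0 < dy k := by
  unfold dy
  positivity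

private theorem A3a_coord (x y : Rd d) (i : Fin d) : |x i - y i| ≤ ‖x - y‖ := by
  have := EuclideanSpace.norm_eq (x - y)
  have h1 := PiLp.norm_apply_le (x - y) i
  rw [Real.norm_eq_abs] at h1
  exact h1

/-- cells of a family of lattice points at sup distance `≥ s_0` are independent. -/
theorem iIndep_cells (l m : ℕ) {ι : Type*} (v : ι → (Fin d → ℤ)) (h : ∀ a b, a ≠ b → ∃ i, (E.s0 : ℤ) ≤ |v a i - v b i|) :
    iIndep (fun a => E.FF l m (CBox (latt l (v a)) (3 / 2 * dy l))) E.P := by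
  refine E.iIndep_FF (fun _ => l) m (fun a => CBox (latt l (v a)) (3 / 2 * dy l)) ?_
  intro a b hab x hx y hy
  rw [max_self]
  obtain ⟨i, hi⟩ := h a b hab
  refine le_trans ?_ (A3a_coord x y i)
  have h1 := hx i
  have h2 := hy i
  have h3 : ((E.s0 : ℤ) : ℝ) ≤ |(v a i : ℝ) - v b i| := by exact_mod_cast hi
  have h4 : 2 * E.r0 + 4 ≤ (E.s0 : ℝ) := by
    unfold s0
    push_cast
    linarith [Nat.le_ceil (2 * E.r0)]
  have hdy := A3a_dy_pos l
  have e1 : (latt l (v a)) i = dy l * (v a i : ℝ) := rfl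
  have e2 : (latt l (v b)) i = dy l * (v b i : ℝ) := rfl
  rw [e1] at h1
  rw [e2] at h2
  have h5 : |dy l * ((v a i : ℝ) - v b i)| = dy l * |(v a i : ℝ) - v b i| := by
    rw [abs_mul, abs_of_pos hdy]
  have h6 : |dy l * ((v a i : ℝ) - v b i)| ≤ |x i - y i| + (3 / 2 * dy l + 3 / 2 * dy l) := by
    have : dy l * ((v a i : ℝ) - v b i) = (x i - y i) +
        (-(x i - dy l * (v a i : ℝ)) + (y i - dy l * (v b i : ℝ))) := by ring
    rw [this]
    refine (abs_add_le _ _).trans (add_le_add_right ((abs_add_le _ _).trans ?_) _)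
    rw [abs_neg]
    exact add_le_add h1 h2
  rw [h5] at h6
  have h7 : dy l * (2 * E.r0 + 4) ≤ dy l * |(v a i : ℝ) - v b i| := by
    apply mul_le_mul_of_nonneg_left _ hdy.le
    have : ((E.s0 : ℤ) : ℝ) = (E.s0 : ℝ) := by push_cast; rfl
    linarith
  nlinarith

private theorem A3a_typ_aux (a b : ℕ) (hab : a < b) (ha : Even a) (hb : Even b) (x y z : Rd d)
    (hy : y ∉ Box x ((E.R0 : ℝ) * dy (a + 1))) (hz : z ∈ CBox x (((E.R0 : ℝ) + 1) * dy b)) :
    2 * E.r0 * dy b ≤ ‖y - z‖ := by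
  have h1 : ∃ i, (E.R0 : ℝ) * dy (a + 1) ≤ |y i - x i| := by
    by_contra hcon
    push Not at hcon
    exact hy fun i => hcon i
  obtain ⟨i, hi⟩ := h1
  refine le_trans ?_ (A3a_coord y z i)
  have h2 := hz i
  have hab2 : a + 2 ≤ b := by
    obtain ⟨c, hc⟩ := ha
    obtain ⟨e, he⟩ := hb
    omega
  have h3 : dy b ≤ dy (a + 1) / 2 := by
    have e1 : dy (a + 1) / 2 = dy (a + 2) := by
      unfold dy
      rw [pow_succ _ (a + 1)]
      ring
    rw [e1]
    unfold dy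
    exact pow_le_pow_of_le_one (by norm_num) (by norm_num) hab2
  have h4 : 2 * E.r0 + 2 ≤ (E.R0 : ℝ) := by
    unfold R0
    push_cast
    linarith [Nat.le_ceil (2 * E.r0)]
  have hdy := A3a_dy_pos (a + 1)
  have hdyb := A3a_dy_pos b
  have hr := E.hr0
  have h5 : |y i - x i| ≤ |y i - z i| + |z i - x i| := abs_sub_le _ _ _
  have h6 : ((E.R0 : ℝ) + 1) * dy b ≤ ((E.R0 : ℝ) + 1) * (dy (a + 1) / 2) :=
    mul_le_mul_of_nonneg_left h3 (by linarith)
  have h7 : 2 * E.r0 * dy b ≤ 2 * E.r0 * (dy (a + 1) / 2) :=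
    mul_le_mul_of_nonneg_left h3 (by linarith)
  nlinarith

/-- the annuli of the typical scales (even scales) are independent. -/
theorem iIndep_typ (n : ℕ) (x : Rd d) :
    iIndep (fun j : {j : ℕ // Even j} =>
      E.FF j n {y | y ∈ CBox x (((E.R0 : ℝ) + 1) * dy j) ∧ y ∉ Box x ((E.R0 : ℝ) * dy (j + 1))}) E.P := by
  refine E.iIndep_FF (fun j : {j : ℕ // Even j} => (j : ℕ)) n (fun j : {j : ℕ // Even j} =>
    {y | y ∈ CBox x (((E.R0 : ℝ) + 1) * dy j) ∧ y ∉ Box x ((E.R0 : ℝ) * dy (j + 1))}) ?_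
  rintro a b hab y ⟨hy1, hy2⟩ z ⟨hz1, hz2⟩
  have hne : (a : ℕ) ≠ b := fun h => hab (Subtype.ext h)
  rcases lt_or_gt_of_ne hne with h | h
  · rw [max_eq_right h.le]
    exact A3a_typ_aux E a b h a.2 b.2 x y z hy2 hz1
  · rw [max_eq_left h.le, norm_sub_rev]
    exact A3a_typ_aux E b a h b.2 a.2 x z y hz2 hy1

end Env
end MP_d19698_pr
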