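import Pool.Agent.Lib.MP_d19698_pr.A3a

/-! # A3b -/

open MeasureTheory ProbabilityTheory Filter Topology Set
open scoped ENNReal NNReal

namespace MP_d19698_pr
namespace Env
variable {d : ℕ} [NeZero d] (E : Env d)

private lemma A3b_hh_meas (l m : ℕ) (x : Rd d) : Measurable (fun ω => E.hh l m ω x) := by
  unfold hh
  exact Finset.measurable_sum _ (fun k _ => E.meas k x)

private lemma A3b_LL_le (l : ℕ) : E.LL l ≤ E.mΩ := by
  unfold LL EE
  refine iSup_le fun k => iSup_le fun _ => iSup_le fun x => ?_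
  exact (E.meas k x).comap_le

private lemma A3b_FF_le (l m : ℕ) (K : Set (Rd d)) : E.FF l m K ≤ E.mΩ := by
  unfold FF
  refine iSup_le fun x => iSup_le fun _ => ?_
  exact (A3b_hh_meas E l m x).comap_le

/-- product formula: a nonnegative coarse quantity times a nonnegative fine quantity -/
theorem lintegral_mul_indep (l m : ℕ) (K : Set (Rd d)) {f g : E.Ω → ℝ≥0∞} (hf : Measurable[E.LL l] f) (hg : Measurable[E.FF l m K] g) :
    ∫⁻ ω, f ω * g ω ∂E.P = (∫⁻ ω, f ω ∂E.P) * ∫⁻ ω, g ω ∂E.P :=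
  lintegral_mul_eq_lintegral_mul_lintegral_of_independent_measurableSpace
    (A3b_LL_le E l) (A3b_FF_le E l m K) (E.indep_LL_FF l m K) hf hg

/-- **Random threshold.** If `Y` is `FF l m K`-measurable with `P[Y > y] ≤ B y^{-b}` for all `y > 0`, and `U` is a real `LL l`-measurable variable, then
`P[e^U Y > x] ≤ B x^{-b} E[e^{bU}]` for `x > 0`. (Tonelli for the product law of `(U,Y)`.) -/
theorem tail_product (l m : ℕ) (K : Set (Rd d)) {Y : E.Ω → ℝ≥0∞} {U : E.Ω → ℝ} (hY : Measurable[E.FF l m K] Y) (hU : Measurable[E.LL l] U)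
    {B b C : ℝ} (hB : 0 ≤ B) (hb : 0 < b) (hC : 0 ≤ C) (htail : ∀ y : ℝ, 0 < y → E.P.real {ω | ENNReal.ofReal y < Y ω} ≤ B * y ^ (-b))
    (hmom : ∫⁻ ω, ENNReal.ofReal (Real.exp (b * U ω)) ∂E.P ≤ ENNReal.ofReal C) {x : ℝ} (hx : 0 < x) :
    E.P.real {ω | ENNReal.ofReal x < ENNReal.ofReal (Real.exp (U ω)) * Y ω} ≤ B * C * x ^ (-b) := by
  have hY' : Measurable Y := hY.mono (A3b_FF_le E l m K) le_rfl
  have hU' : Measurable U := hU.mono (A3b_LL_le E l) le_rfl
  have hind : IndepFun U Y E.P := by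
    rw [IndepFun_iff_Indep]
    exact indep_of_indep_of_le_left (indep_of_indep_of_le_right (E.indep_LL_FF l m K)
      hY.comap_le) hU.comap_le
  have hprod := (indepFun_iff_map_prod_eq_prod_map_map hU'.aemeasurable hY'.aemeasurable).mp hind
  set S : Set (ℝ × ℝ≥0∞) := {p | ENNReal.ofReal x < ENNReal.ofReal (Real.exp p.1) * p.2} with hS
  have hSm : MeasurableSet S := by
    apply measurableSet_lt measurable_const
    exact (ENNReal.measurable_ofReal.comp (Real.measurable_exp.comp measurable_fst)).mul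
      measurable_snd
  have hbx : 0 ≤ B * x ^ (-b) := by positivity
  -- the section estimate
  have hsec : ∀ u : ℝ, (E.P.map Y) (Prod.mk u ⁻¹' S) ≤
      ENNReal.ofReal (B * x ^ (-b)) * ENNReal.ofReal (Real.exp (b * u)) := by
    intro u
    rw [Measure.map_apply hY' (measurable_prodMk_left hSm)]
    have hxu : 0 < x * Real.exp (-u) := by positivity
    have hsub : Y ⁻¹' (Prod.mk u ⁻¹' S) ⊆ {ω | ENNReal.ofReal (x * Real.exp (-u)) < Y ω} := by
      intro ω hω
      have h1 : ENNReal.ofReal x < ENNReal.ofReal (Real.exp u) * Y ω := hω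
      show ENNReal.ofReal (x * Real.exp (-u)) < Y ω
      by_contra hcon
      push Not at hcon
      have h2 : ENNReal.ofReal (Real.exp u) * Y ω ≤
          ENNReal.ofReal (Real.exp u) * ENNReal.ofReal (x * Real.exp (-u)) := by gcongr
      rw [← ENNReal.ofReal_mul (Real.exp_pos u).le] at h2
      have h3 : Real.exp u * (x * Real.exp (-u)) = x := by
        rw [Real.exp_neg]; field_simp
      rw [h3] at h2
      exact absurd (lt_of_lt_of_le h1 h2) (lt_irrefl _)
    calc E.P (Y ⁻¹' (Prod.mk u ⁻¹' S)) ≤ E.P {ω | ENNReal.ofReal (x * Real.exp (-u)) < Y ω} :=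
          measure_mono hsub
      _ = ENNReal.ofReal (E.P.real {ω | ENNReal.ofReal (x * Real.exp (-u)) < Y ω}) := by
          rw [Measure.real, ENNReal.ofReal_toReal (measure_ne_top _ _)]
      _ ≤ ENNReal.ofReal (B * (x * Real.exp (-u)) ^ (-b)) :=
          ENNReal.ofReal_le_ofReal (htail _ hxu)
      _ = ENNReal.ofReal (B * x ^ (-b)) * ENNReal.ofReal (Real.exp (b * u)) := by
          rw [← ENNReal.ofReal_mul hbx, Real.mul_rpow hx.le (Real.exp_pos _).le, ← Real.exp_mul]
          congr 1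
          have : -u * -b = b * u := by ring
          rw [this]; ring
  have hmain : E.P {ω | ENNReal.ofReal x < ENNReal.ofReal (Real.exp (U ω)) * Y ω} ≤
      ENNReal.ofReal (B * C * x ^ (-b)) := by
    have h1 : {ω | ENNReal.ofReal x < ENNReal.ofReal (Real.exp (U ω)) * Y ω} =
        (fun ω => (U ω, Y ω)) ⁻¹' S := rfl
    rw [h1, ← Measure.map_apply (hU'.prodMk hY') hSm, hprod, Measure.prod_apply hSm]
    calc ∫⁻ u, (E.P.map Y) (Prod.mk u ⁻¹' S) ∂(E.P.map U)
        ≤ ∫⁻ u, ENNReal.ofReal (B * x ^ (-b)) * ENNReal.ofReal (Real.exp (b * u)) ∂(E.P.map U) :=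
          lintegral_mono hsec
      _ = ∫⁻ ω, ENNReal.ofReal (B * x ^ (-b)) * ENNReal.ofReal (Real.exp (b * U ω)) ∂E.P := by
          rw [lintegral_map _ hU']
          exact measurable_const.mul (ENNReal.measurable_ofReal.comp
            (Real.measurable_exp.comp (measurable_const.mul measurable_id)))
      _ = ENNReal.ofReal (B * x ^ (-b)) * ∫⁻ ω, ENNReal.ofReal (Real.exp (b * U ω)) ∂E.P := by
          rw [lintegral_const_mul]
          exact ENNReal.measurable_ofReal.comp
            (Real.measurable_exp.comp (measurable_const.mul hU'))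
      _ ≤ ENNReal.ofReal (B * x ^ (-b)) * ENNReal.ofReal C := by gcongr
      _ = ENNReal.ofReal (B * C * x ^ (-b)) := by
          rw [← ENNReal.ofReal_mul hbx]; congr 1; ring
  have h0 : 0 ≤ B * C * x ^ (-b) := by positivity
  exact ENNReal.toReal_le_of_le_ofReal h0 hmain

end Env

end MP_d19698_pr
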