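import Pool.Agent.Lib.MP_d19698_pr.B5

/-!
# A4: chaining: Hölder-1/2 constants of continuous random fields with sub-Gaussian increments
-/

open MeasureTheory ProbabilityTheory Filter Topology Set
open scoped ENNReal NNReal

namespace MP_d19698_pr

/-- rounding towards zero -/
private noncomputable def A4a_tr (a : ℝ) : ℤ := if 0 ≤ a then ⌊a⌋ else ⌈a⌉

private theorem A4a_tr_abs_le (a : ℝ) : |((A4a_tr a : ℤ) : ℝ)| ≤ |a| := by
  unfold A4a_tr
  split_ifs with h
  · rw [abs_of_nonneg h, abs_of_nonneg (by exact_mod_cast Int.floor_nonneg.mpr h)]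
    exact Int.floor_le a
  · rw [not_le] at h
    have h1 : ⌈a⌉ ≤ 0 := Int.ceil_le.mpr (by simpa using h.le)
    rw [abs_of_neg h, abs_of_nonpos (by exact_mod_cast h1)]
    have := Int.le_ceil a
    linarith

private theorem A4a_tr_sub (a : ℝ) : |a - A4a_tr a| < 1 := by
  unfold A4a_tr
  split_ifs with h
  · rw [abs_lt]
    constructor
    · linarith [Int.floor_le a]
    · linarith [Int.lt_floor_add_one a]
  · rw [abs_lt]
    constructor
    · linarith [Int.ceil_lt_add_one a]
    · linarith [Int.le_ceil a]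

private theorem A4a_tr_two (a : ℝ) : |A4a_tr (2 * a) - 2 * A4a_tr a| ≤ 1 := by
  by_cases h : 0 ≤ a
  · have h2 : 0 ≤ 2 * a := by linarith
    unfold A4a_tr
    rw [if_pos h, if_pos h2, abs_le]
    have h3 := Int.floor_le a
    have h4 := Int.lt_floor_add_one a
    have h5 := Int.floor_le (2 * a)
    have h6 := Int.lt_floor_add_one (2 * a)
    constructor
    · have : (2 * (⌊a⌋ : ℝ)) < ⌊2 * a⌋ + 1 := by linarith
      have h7 : 2 * ⌊a⌋ < ⌊2 * a⌋ + 1 := by exact_mod_cast this
      linarith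
    · have : ((⌊2 * a⌋ : ℤ) : ℝ) < 2 * (⌊a⌋ + 1) := by linarith
      have h7 : ⌊2 * a⌋ < 2 * (⌊a⌋ + 1) := by exact_mod_cast this
      linarith
  · rw [not_le] at h
    have h2 : ¬ 0 ≤ 2 * a := by linarith
    unfold A4a_tr
    rw [if_neg (not_le.mpr h), if_neg h2, abs_le]
    have h3 := Int.le_ceil a
    have h4 := Int.ceil_lt_add_one a
    have h5 := Int.le_ceil (2 * a)
    have h6 := Int.ceil_lt_add_one (2 * a)
    constructor
    · have : (2 * ((⌈a⌉ : ℝ) - 1)) < ⌈2 * a⌉ := by linarith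
      have h7 : 2 * (⌈a⌉ - 1) < ⌈2 * a⌉ := by exact_mod_cast this
      linarith
    · have : ((⌈2 * a⌉ : ℤ) : ℝ) < 2 * ⌈a⌉ + 1 := by linarith
      have h7 : ⌈2 * a⌉ < 2 * ⌈a⌉ + 1 := by exact_mod_cast this
      linarith

private theorem A4a_sum_step {d : ℕ} (v w w' : Fin d → ℤ) (j : Fin d)
    (hne : ∀ i, i ≠ j → (v i - w' i).natAbs = (v i - w i).natAbs)
    (hj : (v j - w' j).natAbs + 1 = (v j - w j).natAbs) :
    ∑ i, (v i - w' i).natAbs + 1 = ∑ i, (v i - w i).natAbs := by
  rw [← Finset.add_sum_erase _ _ (Finset.mem_univ j),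
    ← Finset.add_sum_erase Finset.univ (fun i => (v i - w i).natAbs) (Finset.mem_univ j)]
  have h1 : ∑ x ∈ Finset.univ.erase j, (v x - w' x).natAbs =
      ∑ x ∈ Finset.univ.erase j, (v x - w x).natAbs := by
    apply Finset.sum_congr rfl
    intro i hi
    exact hne i (Finset.ne_of_mem_erase hi)
  rw [h1]
  omega

private theorem A4a_path {d : ℕ} (g : Rd d → ℝ) (l : ℕ) (T : ℝ)
    (hinc : ∀ (v : Fin d → ℤ) (i : Fin d), (∀ j, |v j| ≤ 2 ^ l) →
      (∀ j, |(v + Pi.single i 1 : Fin d → ℤ) j| ≤ 2 ^ l) →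
      |g (latt l (v + Pi.single i 1 : Fin d → ℤ)) - g (latt l v)| ≤ T) :
    ∀ (n : ℕ) (v w : Fin d → ℤ), (∀ j, |v j| ≤ 2 ^ l) → (∀ j, |w j| ≤ 2 ^ l) →
      ∑ j, (v j - w j).natAbs = n → |g (latt l v) - g (latt l w)| ≤ n * T := by
  intro n
  induction n with
  | zero =>
    intro v w _ _ hs
    have h1 : v = w := by
      funext j
      rw [Finset.sum_eq_zero_iff] at hs
      have := hs j (Finset.mem_univ j)
      rw [Int.natAbs_eq_zero] at this
      linarith
    rw [h1]
    simp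
  | succ n ih =>
    intro v w hv hw hs
    obtain ⟨j, hj⟩ : ∃ j, v j ≠ w j := by
      by_contra hcon
      push Not at hcon
      have : ∑ j, (v j - w j).natAbs = 0 := by
        apply Finset.sum_eq_zero
        intro j _
        rw [hcon j, sub_self]
        rfl
      omega
    rcases lt_or_gt_of_ne hj with hlt | hlt
    · have e1 : (w - Pi.single j 1 : Fin d → ℤ) j = w j - 1 := by simp
      have e2 : ∀ i, i ≠ j → (w - Pi.single j 1 : Fin d → ℤ) i = w i := by
        intro i hi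
        simp [hi]
      have hw' : ∀ i, |(w - Pi.single j 1 : Fin d → ℤ) i| ≤ 2 ^ l := by
        intro i
        by_cases hi : i = j
        · subst hi
          rw [e1]
          have h1 := abs_le.mp (hv i)
          have h2 := abs_le.mp (hw i)
          rw [abs_le]
          constructor
          · linarith [h1.1]
          · linarith [h2.2]
        · rw [e2 i hi]
          exact hw i
      have hsum := A4a_sum_step v w (w - Pi.single j 1) j (fun i hi => by rw [e2 i hi])
        (by rw [e1]; omega)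
      have h1 := ih v (w - Pi.single j 1) hv hw' (by omega)
      have h2 := hinc (w - Pi.single j 1) j hw' (by rw [sub_add_cancel]; exact hw)
      rw [sub_add_cancel] at h2
      push_cast
      calc |g (latt l v) - g (latt l w)| ≤ |g (latt l v) - g (latt l (w - Pi.single j 1))| +
            |g (latt l w) - g (latt l (w - Pi.single j 1))| := by
            rw [abs_sub_comm (g (latt l w))]
            exact abs_sub_le _ _ _
        _ ≤ n * T + T := add_le_add h1 h2
        _ = (n + 1) * T := by ring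
    · have e1 : (v - Pi.single j 1 : Fin d → ℤ) j = v j - 1 := by simp
      have e2 : ∀ i, i ≠ j → (v - Pi.single j 1 : Fin d → ℤ) i = v i := by
        intro i hi
        simp [hi]
      have hv' : ∀ i, |(v - Pi.single j 1 : Fin d → ℤ) i| ≤ 2 ^ l := by
        intro i
        by_cases hi : i = j
        · subst hi
          rw [e1]
          have h1 := abs_le.mp (hv i)
          have h2 := abs_le.mp (hw i)
          rw [abs_le]
          constructor
          · linarith [h2.1]
          · linarith [h1.2]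
        · rw [e2 i hi]
          exact hv i
      have hsum := A4a_sum_step w v (v - Pi.single j 1) j (fun i hi => by rw [e2 i hi])
        (by rw [e1]; omega)
      have hcomm : ∀ a b : Fin d → ℤ, ∑ i, (a i - b i).natAbs = ∑ i, (b i - a i).natAbs := by
        intro a b
        apply Finset.sum_congr rfl
        intro i _
        omega
      rw [hcomm w (v - Pi.single j 1), hcomm w v] at hsum
      have h1 := ih (v - Pi.single j 1) w hv' hw (by omega)
      have h2 := hinc (v - Pi.single j 1) j hv' (by rw [sub_add_cancel]; exact hv)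
      rw [sub_add_cancel] at h2
      push_cast
      calc |g (latt l v) - g (latt l w)| ≤ |g (latt l v) - g (latt l (v - Pi.single j 1))| +
            |g (latt l (v - Pi.single j 1)) - g (latt l w)| := abs_sub_le _ _ _
        _ ≤ T + n * T := add_le_add h2 h1
        _ = (n + 1) * T := by ring

private noncomputable def A4a_P {d : ℕ} (l : ℕ) (u : Rd d) : Fin d → ℤ :=
  fun j => A4a_tr (2 ^ l * u j)

private theorem A4a_P_le {d : ℕ} (l : ℕ) {u : Rd d} (hu : u ∈ CBox (0 : Rd d) 1) (j : Fin d) :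
    |A4a_P l u j| ≤ 2 ^ l := by
  have h1 := A4a_tr_abs_le (2 ^ l * u j)
  have h2 : |(2 : ℝ) ^ l * u j| ≤ 2 ^ l := by
    rw [abs_mul, abs_of_pos (by positivity)]
    have := hu j
    simp only [PiLp.zero_apply, sub_zero] at this
    nlinarith [pow_pos (two_pos : (0 : ℝ) < 2) l]
  have h3 : (|A4a_P l u j| : ℝ) ≤ 2 ^ l := h1.trans h2
  exact_mod_cast h3

private theorem A4a_latt_two {d : ℕ} (l : ℕ) (v : Fin d → ℤ) :
    latt l v = latt (l + 1) (fun j => 2 * v j) := by
  ext j
  rw [latt_apply, latt_apply, dy_succ]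
  push_cast
  ring

private theorem A4a_step {d : ℕ} (g : Rd d → ℝ) (l : ℕ) (T : ℝ) (hT : 0 ≤ T)
    (hinc : ∀ (v : Fin d → ℤ) (i : Fin d), (∀ j, |v j| ≤ 2 ^ (l + 1)) →
      (∀ j, |(v + Pi.single i 1 : Fin d → ℤ) j| ≤ 2 ^ (l + 1)) →
      |g (latt (l + 1) (v + Pi.single i 1 : Fin d → ℤ)) - g (latt (l + 1) v)| ≤ T)
    {u : Rd d} (hu : u ∈ CBox (0 : Rd d) 1) :
    |g (latt (l + 1) (A4a_P (l + 1) u)) - g (latt l (A4a_P l u))| ≤ d * T := by
  rw [A4a_latt_two l]
  have h2 : ∀ j, |(fun j => 2 * A4a_P l u j) j| ≤ 2 ^ (l + 1) := by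
    intro j
    have := A4a_P_le l hu j
    simp only [abs_mul, abs_two, pow_succ]
    linarith
  have h3 := A4a_path g (l + 1) T hinc _ (A4a_P (l + 1) u) (fun j => 2 * A4a_P l u j)
    (fun j => A4a_P_le (l + 1) hu j) h2 rfl
  refine h3.trans ?_
  apply mul_le_mul_of_nonneg_right _ hT
  have h4 : ∑ j, (A4a_P (l + 1) u j - 2 * A4a_P l u j).natAbs ≤ ∑ _j : Fin d, 1 := by
    apply Finset.sum_le_sum
    intro j _
    have h5 := A4a_tr_two (2 ^ l * u j)
    rw [show 2 * (2 ^ l * u j) = 2 ^ (l + 1) * u j by rw [pow_succ]; ring] at h5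
    have h6 := abs_le.mp h5
    unfold A4a_P
    omega
  rw [Finset.sum_const, Finset.card_univ, Fintype.card_fin, smul_eq_mul, mul_one] at h4
  exact_mod_cast h4

private theorem A4a_sqrt : (Real.sqrt 2)⁻¹ ≤ 3 / 4 := by
  rw [inv_le_comm₀ (by positivity) (by norm_num)]
  apply Real.le_sqrt_of_sq_le
  norm_num

private theorem A4a_unit {d : ℕ} (g : Rd d → ℝ) (M : ℝ) (hM : 0 ≤ M)
    (hg : ContinuousOn g (CBox 0 1))
    (hinc : ∀ (l : ℕ) (v : Fin d → ℤ) (i : Fin d), (∀ j, |v j| ≤ 2 ^ l) →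
      (∀ j, |(v + Pi.single i 1 : Fin d → ℤ) j| ≤ 2 ^ l) →
      |g (latt l (v + Pi.single i 1 : Fin d → ℤ)) - g (latt l v)| ≤ M * (Real.sqrt 2)⁻¹ ^ l)
    (u w : Rd d) (hu : u ∈ CBox (0 : Rd d) 1) (hw : w ∈ CBox (0 : Rd d) 1) :
    |g u - g w| ≤ (12 * d + 1) * M * Real.sqrt ‖u - w‖ := by
  set s : ℝ := (Real.sqrt 2)⁻¹ with hs
  have hs0 : 0 < s := by positivity
  have hs1 : s ≤ 3 / 4 := A4a_sqrt
  -- distance to the roundings
  have tele : ∀ (u : Rd d), u ∈ CBox (0 : Rd d) 1 → ∀ l n : ℕ,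
      |g (latt (l + n) (A4a_P (l + n) u)) - g (latt l (A4a_P l u))| ≤
        3 * d * M * s ^ l * (1 - s ^ n) := by
    intro u hu l n
    induction n with
    | zero => simp
    | succ n ih =>
      have h1 := A4a_step g (l + n) (M * s ^ (l + n + 1)) (by positivity) (hinc (l + n + 1)) hu
      have h2 : |g (latt (l + (n + 1)) (A4a_P (l + (n + 1)) u)) - g (latt l (A4a_P l u))| ≤
          d * (M * s ^ (l + n + 1)) + 3 * d * M * s ^ l * (1 - s ^ n) :=
        (abs_sub_le _ (g (latt (l + n) (A4a_P (l + n) u))) _).trans (add_le_add h1 ih)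
      refine h2.trans ?_
      have h3 : d * (M * s ^ (l + n + 1)) = (d * M * s ^ l * s ^ n) * s := by
        rw [pow_succ, pow_add]
        ring
      have h4 : 3 * d * M * s ^ l * (1 - s ^ (n + 1)) - 3 * d * M * s ^ l * (1 - s ^ n) =
          (d * M * s ^ l * s ^ n) * (3 * (1 - s)) := by
        rw [pow_succ]
        ring
      have h5 : (d * M * s ^ l * s ^ n) * s ≤ (d * M * s ^ l * s ^ n) * (3 * (1 - s)) := by
        apply mul_le_mul_of_nonneg_left _ (by positivity)
        linarith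
      linarith
  have near : ∀ (u : Rd d), u ∈ CBox (0 : Rd d) 1 → ∀ l : ℕ,
      |g u - g (latt l (A4a_P l u))| ≤ 3 * d * M * s ^ l := by
    intro u hu l
    have hconv : Tendsto (fun n : ℕ => latt (l + n) (A4a_P (l + n) u)) atTop (𝓝 u) := by
      have hdy : Tendsto (fun n : ℕ => dy (l + n)) atTop (𝓝 0) := by
        have : Tendsto (fun n : ℕ => dy n) atTop (𝓝 0) := by
          unfold dy
          exact tendsto_pow_atTop_nhds_zero_of_lt_one (by norm_num) (by norm_num)
        exact this.comp (tendsto_atTop_mono (fun n => Nat.le_add_left n l) tendsto_id)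
      have hpi : Tendsto (fun n : ℕ => (fun i => dy (l + n) * (A4a_P (l + n) u i : ℝ) : Fin d → ℝ))
          atTop (𝓝 (fun i => u i)) := by
        rw [tendsto_pi_nhds]
        intro i
        rw [tendsto_iff_norm_sub_tendsto_zero]
        apply squeeze_zero (fun n => norm_nonneg _) _ hdy
        intro n
        rw [Real.norm_eq_abs]
        have h1 := (A4a_tr_sub (2 ^ (l + n) * u i)).le
        have h2 : dy (l + n) * (A4a_P (l + n) u i : ℝ) - u i =
            -(dy (l + n) * (2 ^ (l + n) * u i - A4a_tr (2 ^ (l + n) * u i))) := by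
          have h3 := two_pow_mul_dy (l + n)
          unfold A4a_P
          linear_combination (u i) * h3
        rw [h2, abs_neg, abs_mul, abs_of_pos (dy_pos _)]
        nlinarith [dy_pos (l + n), abs_nonneg ((2 : ℝ) ^ (l + n) * u i - A4a_tr (2 ^ (l + n) * u i))]
      exact ((PiLp.continuous_toLp 2 (fun _ : Fin d => ℝ)).tendsto _).comp hpi
    have hmem : ∀ n : ℕ, latt (l + n) (A4a_P (l + n) u) ∈ CBox (0 : Rd d) 1 := by
      intro n i
      have h1 : (|A4a_P (l + n) u i| : ℝ) ≤ 2 ^ (l + n) := by exact_mod_cast A4a_P_le (l + n) hu i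
      rw [latt_apply, PiLp.zero_apply, sub_zero, abs_mul, abs_of_pos (dy_pos _)]
      have h3 := two_pow_mul_dy (l + n)
      calc dy (l + n) * |(A4a_P (l + n) u i : ℝ)| ≤ dy (l + n) * 2 ^ (l + n) := by
            gcongr
            exact (dy_pos _).le
        _ = 1 := by rw [mul_comm]; exact h3
    have hlim : Tendsto (fun n : ℕ => g (latt (l + n) (A4a_P (l + n) u))) atTop (𝓝 (g u)) := by
      have h1 : Tendsto (fun n : ℕ => latt (l + n) (A4a_P (l + n) u)) atTop
          (𝓝[CBox (0 : Rd d) 1] u) :=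
        tendsto_nhdsWithin_iff.mpr ⟨hconv, Filter.Eventually.of_forall hmem⟩
      exact (hg u hu).tendsto.comp h1
    have habs := (hlim.sub_const (g (latt l (A4a_P l u)))).abs
    apply le_of_tendsto habs
    filter_upwards with n
    refine (tele u hu l n).trans ?_
    have h6 : 0 ≤ 3 * d * M * s ^ l * s ^ n := by positivity
    linarith
  -- the main estimate
  by_cases huw : u = w
  · subst huw
    simp
  have hδ : 0 < ‖u - w‖ := norm_pos_iff.mpr (sub_ne_zero.mpr huw)
  have hcoord : ∀ j, |u j - w j| ≤ ‖u - w‖ := by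
    intro j
    have := PiLp.norm_apply_le (u - w) j
    rwa [PiLp.sub_apply, Real.norm_eq_abs] at this
  obtain ⟨l, hl1, hl2⟩ : ∃ l : ℕ, (1 / 2 : ℝ) ^ (l + 1) < ‖u - w‖ ∧
      ∀ j, |A4a_P l u j - A4a_P l w j| ≤ 2 := by
    by_cases h1 : ‖u - w‖ ≤ 1
    · obtain ⟨l, hl1, hl2⟩ := exists_nat_pow_near_of_lt_one hδ h1 (by norm_num : (0 : ℝ) < 1 / 2)
        (by norm_num)
      refine ⟨l, hl1, fun j => ?_⟩
      have h2 : |2 ^ l * u j - 2 ^ l * w j| ≤ 1 := by
        rw [← mul_sub, abs_mul, abs_of_pos (by positivity)]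
        have h3 := (hcoord j).trans hl2
        calc (2 : ℝ) ^ l * |u j - w j| ≤ 2 ^ l * (1 / 2) ^ l := by gcongr
          _ = 1 := by rw [← mul_pow]; norm_num
      have h4 := abs_lt.mp (A4a_tr_sub (2 ^ l * u j))
      have h5 := abs_lt.mp (A4a_tr_sub (2 ^ l * w j))
      have h6 := abs_le.mp h2
      have h7 : ((A4a_P l u j : ℤ) : ℝ) - A4a_P l w j < 3 := by
        unfold A4a_P
        linarith [h4.1, h5.2, h6.2]
      have h8 : -3 < ((A4a_P l u j : ℤ) : ℝ) - A4a_P l w j := by
        unfold A4a_P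
        linarith [h4.2, h5.1, h6.1]
      have h9 : A4a_P l u j - A4a_P l w j < 3 := by exact_mod_cast h7
      have h10 : -3 < A4a_P l u j - A4a_P l w j := by exact_mod_cast h8
      rw [abs_le]
      constructor <;> omega
    · rw [not_le] at h1
      refine ⟨0, lt_of_le_of_lt (by norm_num) h1, fun j => ?_⟩
      have h2 := abs_le.mp (A4a_P_le 0 hu j)
      have h3 := abs_le.mp (A4a_P_le 0 hw j)
      rw [pow_zero] at h2 h3
      rw [abs_le]
      constructor <;> omega
  have hmid : |g (latt l (A4a_P l u)) - g (latt l (A4a_P l w))| ≤ 2 * d * (M * s ^ l) := by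
    have h3 := A4a_path g l (M * s ^ l) (hinc l) _ (A4a_P l u) (A4a_P l w)
      (fun j => A4a_P_le l hu j) (fun j => A4a_P_le l hw j) rfl
    refine h3.trans ?_
    apply mul_le_mul_of_nonneg_right _ (by positivity)
    have h4 : ∑ j, (A4a_P l u j - A4a_P l w j).natAbs ≤ ∑ _j : Fin d, 2 := by
      apply Finset.sum_le_sum
      intro j _
      have := abs_le.mp (hl2 j)
      omega
    rw [Finset.sum_const, Finset.card_univ, Fintype.card_fin, smul_eq_mul] at h4
    have h5 : ((∑ j, (A4a_P l u j - A4a_P l w j).natAbs : ℕ) : ℝ) ≤ ((d * 2 : ℕ) : ℝ) := by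
      exact_mod_cast h4
    push_cast at h5 ⊢
    linarith
  have htot : |g u - g w| ≤ 8 * d * M * s ^ l := by
    have h1 := near u hu l
    have h2 := near w hw l
    have h3 : |g u - g w| ≤ |g u - g (latt l (A4a_P l u))| +
        |g (latt l (A4a_P l u)) - g (latt l (A4a_P l w))| + |g w - g (latt l (A4a_P l w))| := by
      have a1 := abs_sub_le (g u) (g (latt l (A4a_P l u))) (g w)
      have a2 := abs_sub_le (g (latt l (A4a_P l u))) (g (latt l (A4a_P l w))) (g w)
      rw [abs_sub_comm (g (latt l (A4a_P l w))) (g w)] at a2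
      linarith
    calc |g u - g w| ≤ 3 * d * M * s ^ l + 2 * d * (M * s ^ l) + 3 * d * M * s ^ l := by
          linarith
      _ = 8 * d * M * s ^ l := by ring
  have hsl : s ^ l ≤ (3 / 2) * Real.sqrt ‖u - w‖ := by
    have h1 : s ^ (l + 1) ≤ Real.sqrt ‖u - w‖ := by
      apply Real.le_sqrt_of_sq_le
      rw [← pow_mul, mul_comm, pow_mul, hs, inv_pow, Real.sq_sqrt (by norm_num)]
      rw [one_div] at hl1
      exact hl1.le
    have h2 : s ^ l = Real.sqrt 2 * s ^ (l + 1) := by
      rw [pow_succ, hs]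
      field_simp
    have h3 : Real.sqrt 2 ≤ 3 / 2 := by
      rw [Real.sqrt_le_left (by norm_num)]
      norm_num
    rw [h2]
    exact mul_le_mul h3 h1 (by positivity) (by norm_num)
  calc |g u - g w| ≤ 8 * d * M * s ^ l := htot
    _ ≤ 8 * d * M * ((3 / 2) * Real.sqrt ‖u - w‖) := by gcongr
    _ = 12 * d * M * Real.sqrt ‖u - w‖ := by ring
    _ ≤ (12 * d + 1) * M * Real.sqrt ‖u - w‖ := by
        apply mul_le_mul_of_nonneg_right _ (Real.sqrt_nonneg _)
        nlinarith

/-- Deterministic dyadic chaining. Let `f` be continuous on `CBox x0 R`, `R > 0`, and suppose that for all `l`, all lattice points `v` with `|v|_∞ ≤ 2^l` and all `i` with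
`|v + e_i|_∞ ≤ 2^l`: `|f(x0 + R 2^{-l} (v + e_i)) - f(x0 + R 2^{-l} v)| ≤ M (√2)^{-l}`. Then `|f x - f y| ≤ C_d M R^{-1/2} √‖x-y‖` on `CBox x0 R`.
Proof: standard. For `x ≠ y` choose `l` with `R 2^{-l-1} < |x-y|_∞ ≤ R 2^{-l}` (or `l = 0`), round `x` and `y` coordinatewise (towards `0`, relative to `x0`) to the grids of level
`l' ≥ l`; the roundings at levels `l'` and `l'+1` are joined by at most `d` grid edges, those of `x` and `y` at level `l` by at most `2d` edges; sum the geometric series, use continuity. -/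
theorem holder_of_dyadic (d : ℕ) : ∃ C : ℝ, 0 < C ∧ ∀ (f : Rd d → ℝ) (x0 : Rd d) (R M : ℝ), 0 < R → 0 ≤ M → ContinuousOn f (CBox x0 R) →
    (∀ (l : ℕ) (v : Fin d → ℤ) (i : Fin d), (∀ j, |v j| ≤ 2 ^ l) → (∀ j, |(v + Pi.single i 1 : Fin d → ℤ) j| ≤ 2 ^ l) →
      |f (x0 + R • latt l (v + Pi.single i 1 : Fin d → ℤ)) - f (x0 + R • latt l v)| ≤ M * (Real.sqrt 2)⁻¹ ^ l) →
    ∀ x ∈ CBox x0 R, ∀ y ∈ CBox x0 R, |f x - f y| ≤ C * M / Real.sqrt R * Real.sqrt ‖x - y‖ := by
  refine ⟨12 * d + 1, by positivity, ?_⟩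
  intro f x0 R M hR hM hf hinc x hx y hy
  have hmaps : ∀ u ∈ CBox (0 : Rd d) 1, x0 + R • u ∈ CBox x0 R := by
    intro u hu i
    have h1 := hu i
    rw [PiLp.zero_apply, sub_zero] at h1
    rw [PiLp.add_apply, PiLp.smul_apply, add_sub_cancel_left, smul_eq_mul, abs_mul, abs_of_pos hR]
    nlinarith
  have hback : ∀ z ∈ CBox x0 R, R⁻¹ • (z - x0) ∈ CBox (0 : Rd d) 1 := by
    intro z hz i
    have h1 := hz i
    rw [PiLp.zero_apply, sub_zero, PiLp.smul_apply, PiLp.sub_apply, smul_eq_mul, abs_mul,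
      abs_of_pos (inv_pos.mpr hR)]
    rw [inv_mul_le_iff₀ hR, mul_one]
    exact h1
  have hcont : ContinuousOn (fun u : Rd d => f (x0 + R • u)) (CBox 0 1) := by
    apply hf.comp (by fun_prop) hmaps
  have hmain := A4a_unit (fun u : Rd d => f (x0 + R • u)) M hM hcont hinc
    (R⁻¹ • (x - x0)) (R⁻¹ • (y - x0)) (hback x hx) (hback y hy)
  have e1 : ∀ z : Rd d, x0 + R • R⁻¹ • (z - x0) = z := by
    intro z
    rw [smul_smul, mul_inv_cancel₀ hR.ne', one_smul]
    abel
  simp only [e1] at hmain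
  have e2 : ‖R⁻¹ • (x - x0) - R⁻¹ • (y - x0)‖ = R⁻¹ * ‖x - y‖ := by
    rw [← smul_sub, norm_smul, Real.norm_eq_abs, abs_of_pos (inv_pos.mpr hR)]
    congr 2
    abel
  rw [e2, Real.sqrt_mul (inv_nonneg.mpr hR.le), Real.sqrt_inv] at hmain
  calc |f x - f y| ≤ (12 * d + 1) * M * ((Real.sqrt R)⁻¹ * Real.sqrt ‖x - y‖) := hmain
    _ = (12 * d + 1) * M / Real.sqrt R * Real.sqrt ‖x - y‖ := by ring


end MP_d19698_pr
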