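import Pool.Agent.Lib.MP_d19698_pr.A4a

/-! # A4b: exponential moments from Gaussian tails; chaining (the Hölder bound holds almost surely); the true oscillation over a compact set -/

open MeasureTheory ProbabilityTheory Filter Topology Set
open scoped ENNReal NNReal

namespace MP_d19698_pr

variable {d : ℕ}

/-- the end points of the edges of level `l` -/
private noncomputable def A4b_E (d : ℕ) (l : ℕ) : Finset ((Fin d → ℤ) × Fin d) := by
  classical
  exact (Fintype.piFinset (fun _ : Fin d => Finset.Icc (-(2 : ℤ) ^ l) (2 ^ l)) ×ˢ Finset.univ).filter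
    (fun e => ∀ j, |(e.1 + Pi.single e.2 1 : Fin d → ℤ) j| ≤ 2 ^ l)

private theorem A4b_mem_E {l : ℕ} {v : Fin d → ℤ} {i : Fin d} :
    (v, i) ∈ A4b_E d l ↔ (∀ j, |v j| ≤ 2 ^ l) ∧
      ∀ j, |(v + Pi.single i 1 : Fin d → ℤ) j| ≤ 2 ^ l := by
  classical
  unfold A4b_E
  rw [Finset.mem_filter, Finset.mem_product, Fintype.mem_piFinset]
  simp only [Finset.mem_univ, and_true, Finset.mem_Icc, abs_le]

private theorem A4b_card_E (l : ℕ) :
    ((A4b_E d l).card : ℝ) ≤ d * (3 * 2 ^ l) ^ d := by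
  classical
  have h1 : (A4b_E d l).card ≤ (Fintype.piFinset (fun _ : Fin d => Finset.Icc (-(2 : ℤ) ^ l) (2 ^ l)) ×ˢ
      (Finset.univ : Finset (Fin d))).card := Finset.card_filter_le _ _
  rw [Finset.card_product, Fintype.card_piFinset, Finset.card_univ, Fintype.card_fin] at h1
  simp only [Finset.prod_const, Int.card_Icc, Finset.card_univ, Fintype.card_fin] at h1
  have h2 : ((2 : ℤ) ^ l + 1 - -2 ^ l).toNat = 2 * 2 ^ l + 1 := by
    have h3 : ((2 : ℤ) ^ l + 1 - -2 ^ l) = ((2 * 2 ^ l + 1 : ℕ) : ℤ) := by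
      push_cast
      ring
    rw [h3, Int.toNat_natCast]
  rw [h2] at h1
  calc ((A4b_E d l).card : ℝ) ≤ (((2 * 2 ^ l + 1) ^ d * d : ℕ) : ℝ) := by exact_mod_cast h1
    _ = d * (2 * 2 ^ l + 1) ^ d := by
      push_cast
      ring
    _ ≤ d * (3 * 2 ^ l) ^ d := by
      have h4 : (1 : ℝ) ≤ 2 ^ l := one_le_pow₀ (by norm_num)
      have h5 : (2 : ℝ) * 2 ^ l + 1 ≤ 3 * 2 ^ l := by linarith
      gcongr

/-- normalised increment of level `l` -/
private noncomputable def A4b_D (x0 : Rd d) (R : ℝ) (f : Rd d → ℝ) (l : ℕ)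
    (e : (Fin d → ℤ) × Fin d) : ℝ :=
  f (x0 + R • latt l (e.1 + Pi.single e.2 1 : Fin d → ℤ)) - f (x0 + R • latt l e.1)

private noncomputable def A4b_M (x0 : Rd d) (R : ℝ) (f : Rd d → ℝ) : ℝ≥0∞ :=
  ⨆ l : ℕ, ⨆ e : (Fin d → ℤ) × Fin d, ⨆ _ : e ∈ A4b_E d l,
    ENNReal.ofReal (Real.sqrt 2 ^ l * |A4b_D x0 R f l e|)

private theorem A4b_meas {Ω : Type*} [MeasurableSpace Ω] (X : Ω → Rd d → ℝ) (x0 : Rd d) (R : ℝ)
    (hX : ∀ x, Measurable (fun ω => X ω x)) : Measurable (fun ω => A4b_M x0 R (X ω)) := by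
  unfold A4b_M
  refine Measurable.iSup fun l => Measurable.iSup fun e => Measurable.iSup_Prop _ ?_
  apply ENNReal.measurable_ofReal.comp
  apply Measurable.const_mul
  have h1 : Measurable (fun ω => A4b_D x0 R (X ω) l e) := (hX _).sub (hX _)
  exact continuous_abs.measurable.comp h1

private theorem A4b_mem_CBox {x0 : Rd d} {R : ℝ} (hR : 0 < R) {l : ℕ} {v : Fin d → ℤ}
    (hv : ∀ j, |v j| ≤ 2 ^ l) : x0 + R • latt l v ∈ CBox x0 R := by
  intro j
  have h1 : (x0 + R • latt l v : Rd d) j - x0 j = R * (dy l * (v j : ℝ)) := by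
    simp [latt]
  rw [h1, abs_mul, abs_mul, abs_of_pos hR]
  have h2 : 0 < dy l := by unfold dy; positivity
  rw [abs_of_pos h2]
  have h3 : |(v j : ℝ)| ≤ 2 ^ l := by exact_mod_cast hv j
  have h4 : dy l * 2 ^ l = 1 := by
    unfold dy
    rw [← mul_pow]
    norm_num
  have h5 : dy l * |(v j : ℝ)| ≤ 1 := by
    calc dy l * |(v j : ℝ)| ≤ dy l * 2 ^ l := by gcongr
      _ = 1 := h4
  calc R * (dy l * |(v j : ℝ)|) ≤ R * 1 := by gcongr
    _ = R := mul_one R

private theorem A4b_norm {x0 : Rd d} {R : ℝ} (hR : 0 < R) (l : ℕ) (v : Fin d → ℤ) (i : Fin d) :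
    ‖(x0 + R • latt l (v + Pi.single i 1 : Fin d → ℤ)) - (x0 + R • latt l v)‖ = R * dy l := by
  have h2 : 0 < dy l := by unfold dy; positivity
  have h1 : (x0 + R • latt l (v + Pi.single i 1 : Fin d → ℤ)) - (x0 + R • latt l v) =
      EuclideanSpace.single i (R * dy l) := by
    ext j
    simp only [latt, PiLp.sub_apply, PiLp.add_apply, PiLp.smul_apply, smul_eq_mul, Pi.add_apply,
      Int.cast_add, PiLp.single_apply]
    by_cases hj : j = i
    · subst hj
      simp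
      ring
    · rw [if_neg hj, Pi.single_eq_of_ne hj]
      simp
  rw [h1, PiLp.norm_single, Real.norm_eq_abs, abs_of_pos (by positivity)]

private theorem A4b_chernoff {Ω : Type*} [MeasurableSpace Ω] (P : Measure Ω) (Y : Ω → ℝ)
    (hY : Measurable Y) {v : ℝ} (hv : 0 < v)
    (h : ∀ s : ℝ, ∫⁻ ω, ENNReal.ofReal (Real.exp (s * Y ω)) ∂P ≤
      ENNReal.ofReal (Real.exp (s ^ 2 * v / 2))) {t : ℝ} (ht : 0 ≤ t) :
    P {ω | t < |Y ω|} ≤ ENNReal.ofReal (2 * Real.exp (-(t ^ 2 / (2 * v)))) := by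
  have key : ∀ s : ℝ, P {ω | s * (s * v) ≤ s * Y ω} ≤
      ENNReal.ofReal (Real.exp (-(s ^ 2 * v / 2))) := by
    intro s
    have h1 := mul_meas_ge_le_lintegral (μ := P)
      (f := fun ω => ENNReal.ofReal (Real.exp (s * Y ω)))
      (ENNReal.measurable_ofReal.comp (Real.measurable_exp.comp (hY.const_mul s)))
      (ENNReal.ofReal (Real.exp (s * (s * v))))
    have h2 : {ω | s * (s * v) ≤ s * Y ω} =
        {ω | ENNReal.ofReal (Real.exp (s * (s * v))) ≤ ENNReal.ofReal (Real.exp (s * Y ω))} := by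
      ext ω
      simp only [mem_ofPred_eq]
      rw [ENNReal.ofReal_le_ofReal_iff (Real.exp_pos _).le, Real.exp_le_exp]
    rw [← h2] at h1
    have h3 := h1.trans (h s)
    have h4 : ENNReal.ofReal (Real.exp (s ^ 2 * v / 2)) =
        ENNReal.ofReal (Real.exp (s * (s * v))) * ENNReal.ofReal (Real.exp (-(s ^ 2 * v / 2))) := by
      rw [← ENNReal.ofReal_mul (Real.exp_pos _).le, ← Real.exp_add]
      congr 2
      ring
    rw [h4] at h3
    refine (ENNReal.mul_le_mul_iff_right ?_ ENNReal.ofReal_ne_top).1 h3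
    simp [Real.exp_pos]
  set s : ℝ := t / v with hs
  have hsv : s * v = t := by rw [hs]; field_simp
  have h5 : {ω | t < |Y ω|} ⊆ {ω | s * (s * v) ≤ s * Y ω} ∪
      {ω | (-s) * ((-s) * v) ≤ (-s) * Y ω} := by
    intro ω hω
    have hω' : t < |Y ω| := hω
    have hs0 : 0 ≤ s := by positivity
    rcases le_abs'.1 hω'.le with h | h
    · right
      show (-s) * ((-s) * v) ≤ (-s) * Y ω
      have : (-s) * ((-s) * v) = s * t := by rw [← hsv]; ring
      rw [this]
      nlinarith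
    · left
      show s * (s * v) ≤ s * Y ω
      rw [hsv]
      nlinarith
  calc P {ω | t < |Y ω|} ≤ P _ := measure_mono h5
    _ ≤ P {ω | s * (s * v) ≤ s * Y ω} + P {ω | (-s) * ((-s) * v) ≤ (-s) * Y ω} :=
      measure_union_le _ _
    _ ≤ ENNReal.ofReal (Real.exp (-(s ^ 2 * v / 2))) +
        ENNReal.ofReal (Real.exp (-((-s) ^ 2 * v / 2))) := add_le_add (key s) (key (-s))
    _ = _ := by
      rw [← ENNReal.ofReal_add (Real.exp_pos _).le (Real.exp_pos _).le]
      congr 1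
      have h6 : s ^ 2 * v / 2 = t ^ 2 / (2 * v) := by
        rw [hs]
        field_simp
      rw [neg_sq, h6]
      ring

theorem exp_moment_of_tail {C1 c : ℝ} (hC1 : 0 ≤ C1) (hc : 0 < c) : ∃ C : ℝ, 0 ≤ C ∧
    ∀ {Ω : Type*} [MeasurableSpace Ω] (P : Measure Ω) [IsProbabilityMeasure P] (H : Ω → ℝ), Measurable H → (∀ ω, 0 ≤ H ω) →
      (∀ u : ℝ, 0 ≤ u → P.real {ω | u < H ω} ≤ C1 * Real.exp (-(c * u ^ 2))) →
      ∀ b : ℝ, 0 ≤ b → ∫⁻ ω, ENNReal.ofReal (Real.exp (b * H ω)) ∂P ≤ ENNReal.ofReal (Real.exp (C * (b + b ^ 2))) := by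
  set G : ℝ := ∫ t in Ioi (0 : ℝ), Real.exp (-(c / 2) * t ^ 2) with hG
  have hG0 : 0 ≤ G := setIntegral_nonneg measurableSet_Ioi fun t _ => (Real.exp_pos _).le
  refine ⟨max (C1 * G) (1 / (2 * c)), le_max_of_le_left (mul_nonneg hC1 hG0), ?_⟩
  intro Ω _ P _ H hH hH0 htail b hb
  have hgint : ∀ t > (0 : ℝ), IntervalIntegrable (fun u : ℝ => b * Real.exp (b * u)) volume 0 t := by
    intro t _
    apply Continuous.intervalIntegrable
    fun_prop
  have hgval : ∀ x : ℝ, ∫ t in (0 : ℝ)..x, b * Real.exp (b * t) = Real.exp (b * x) - 1 := by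
    intro x
    have hd : ∀ t ∈ Set.uIcc 0 x, HasDerivAt (fun t => Real.exp (b * t)) (b * Real.exp (b * t)) t := by
      intro t _
      have h1 : HasDerivAt (fun t : ℝ => b * t) b t := by
        simpa using (hasDerivAt_id t).const_mul b
      have h2 := h1.exp
      rwa [mul_comm] at h2
    rw [intervalIntegral.integral_eq_sub_of_hasDerivAt hd]
    · simp
    · apply Continuous.intervalIntegrable
      fun_prop
  have hlc := lintegral_comp_eq_lintegral_meas_lt_mul P (f := H)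
    (g := fun t : ℝ => b * Real.exp (b * t)) (Eventually.of_forall hH0) hH.aemeasurable hgint
    (Eventually.of_forall fun t => mul_nonneg hb (Real.exp_pos _).le)
  simp only [hgval] at hlc
  have h1 : ∫⁻ ω, ENNReal.ofReal (Real.exp (b * H ω)) ∂P =
      ∫⁻ ω, ENNReal.ofReal (Real.exp (b * H ω) - 1) ∂P + 1 := by
    have h2 : ∀ ω, ENNReal.ofReal (Real.exp (b * H ω)) =
        ENNReal.ofReal (Real.exp (b * H ω) - 1) + 1 := by
      intro ω
      rw [← ENNReal.ofReal_one, ← ENNReal.ofReal_add _ zero_le_one]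
      · congr 1
        ring
      · have := Real.one_le_exp (mul_nonneg hb (hH0 ω))
        linarith
    simp only [h2]
    rw [lintegral_add_right _ measurable_const]
    simp
  have h3 : ∫⁻ t in Ioi (0 : ℝ), P {ω | t < H ω} * ENNReal.ofReal (b * Real.exp (b * t)) ≤
      ENNReal.ofReal (C1 * b * Real.exp (b ^ 2 / (2 * c)) * G) := by
    have h4 : ∀ t ∈ Ioi (0 : ℝ), P {ω | t < H ω} * ENNReal.ofReal (b * Real.exp (b * t)) ≤
        ENNReal.ofReal ((C1 * b * Real.exp (b ^ 2 / (2 * c))) * Real.exp (-(c / 2) * t ^ 2)) := by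
      intro t ht
      have ht0 : (0 : ℝ) < t := ht
      have h5 : P {ω | t < H ω} ≤ ENNReal.ofReal (C1 * Real.exp (-(c * t ^ 2))) := by
        rw [← ENNReal.ofReal_toReal (measure_ne_top P {ω | t < H ω})]
        exact ENNReal.ofReal_le_ofReal (htail t ht0.le)
      calc P {ω | t < H ω} * ENNReal.ofReal (b * Real.exp (b * t))
          ≤ ENNReal.ofReal (C1 * Real.exp (-(c * t ^ 2))) * ENNReal.ofReal (b * Real.exp (b * t)) := by
            gcongr
        _ = ENNReal.ofReal (C1 * b * (Real.exp (-(c * t ^ 2)) * Real.exp (b * t))) := by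
            rw [← ENNReal.ofReal_mul (by positivity)]
            congr 1
            ring
        _ ≤ _ := by
            apply ENNReal.ofReal_le_ofReal
            rw [mul_assoc (C1 * b)]
            apply mul_le_mul_of_nonneg_left _ (by positivity)
            rw [← Real.exp_add, ← Real.exp_add]
            apply Real.exp_le_exp.2
            have h6 : b ^ 2 / (2 * c) + -(c / 2) * t ^ 2 - (-(c * t ^ 2) + b * t) =
                (b - c * t) ^ 2 / (2 * c) := by
              field_simp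
              ring
            have h7 : 0 ≤ (b - c * t) ^ 2 / (2 * c) := by positivity
            linarith
    calc ∫⁻ t in Ioi (0 : ℝ), P {ω | t < H ω} * ENNReal.ofReal (b * Real.exp (b * t))
        ≤ ∫⁻ t in Ioi (0 : ℝ), ENNReal.ofReal
            ((C1 * b * Real.exp (b ^ 2 / (2 * c))) * Real.exp (-(c / 2) * t ^ 2)) :=
          setLIntegral_mono' measurableSet_Ioi h4
      _ = ENNReal.ofReal (∫ t in Ioi (0 : ℝ),
            (C1 * b * Real.exp (b ^ 2 / (2 * c))) * Real.exp (-(c / 2) * t ^ 2)) := by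
          rw [ofReal_integral_eq_lintegral_ofReal]
          · exact ((integrable_exp_neg_mul_sq (by positivity)).const_mul _).integrableOn
          · exact Eventually.of_forall fun t => by positivity
      _ = _ := by
          rw [integral_const_mul]
  rw [h1, hlc]
  calc _ ≤ ENNReal.ofReal (C1 * b * Real.exp (b ^ 2 / (2 * c)) * G) + 1 := by gcongr
    _ = ENNReal.ofReal (C1 * G * b * Real.exp (b ^ 2 / (2 * c)) + 1) := by
        rw [ENNReal.ofReal_add (by positivity) zero_le_one, ENNReal.ofReal_one]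
        congr 2
        ring
    _ ≤ ENNReal.ofReal (Real.exp (C1 * G * b + b ^ 2 / (2 * c))) := by
        apply ENNReal.ofReal_le_ofReal
        rw [Real.exp_add]
        have h8 : C1 * G * b + 1 ≤ Real.exp (C1 * G * b) := Real.add_one_le_exp _
        have h9 : 1 ≤ Real.exp (b ^ 2 / (2 * c)) := Real.one_le_exp (by positivity)
        have h10 : 0 ≤ C1 * G * b := by positivity
        nlinarith
    _ ≤ _ := by
        apply ENNReal.ofReal_le_ofReal
        apply Real.exp_le_exp.2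
        have h11 : C1 * G ≤ max (C1 * G) (1 / (2 * c)) := le_max_left _ _
        have h12 : 1 / (2 * c) ≤ max (C1 * G) (1 / (2 * c)) := le_max_right _ _
        have h13 : b ^ 2 / (2 * c) = 1 / (2 * c) * b ^ 2 := by ring
        rw [h13]
        nlinarith [sq_nonneg b]

private theorem A4b_summable (d : ℕ) {b : ℝ} (hb : 0 < b) :
    Summable (fun l : ℕ => 2 * ((d : ℝ) * (3 * 2 ^ l) ^ d) * Real.exp (-(b * 2 ^ l))) := by
  have h1 : ∀ l : ℕ, 2 * ((d : ℝ) * (3 * 2 ^ l) ^ d) * Real.exp (-(b * 2 ^ l)) ≤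
      (2 * d * 3 ^ d * ((d + 1).factorial / b ^ (d + 1))) * (1 / 2) ^ l := by
    intro l
    have h2 : (0 : ℝ) < 2 ^ l := by positivity
    have h3 := Real.pow_div_factorial_le_exp (x := b * 2 ^ l) (by positivity) (d + 1)
    have h4 : Real.exp (-(b * 2 ^ l)) ≤ ((d + 1).factorial : ℝ) / (b * 2 ^ l) ^ (d + 1) := by
      rw [Real.exp_neg]
      calc (Real.exp (b * 2 ^ l))⁻¹ ≤ ((b * 2 ^ l) ^ (d + 1) / ((d + 1).factorial : ℝ))⁻¹ := by
            apply inv_anti₀ _ h3
            positivity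
        _ = _ := by rw [inv_div]
    calc 2 * ((d : ℝ) * (3 * 2 ^ l) ^ d) * Real.exp (-(b * 2 ^ l))
        ≤ 2 * ((d : ℝ) * (3 * 2 ^ l) ^ d) * (((d + 1).factorial : ℝ) / (b * 2 ^ l) ^ (d + 1)) := by
          gcongr
      _ = _ := by
          rw [mul_pow, mul_pow, one_div, inv_pow, pow_succ ((2 : ℝ) ^ l) d]
          field_simp
  refine Summable.of_nonneg_of_le (fun l => by positivity) h1 ?_
  exact (summable_geometric_of_lt_one (by norm_num) (by norm_num)).mul_left _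

private theorem A4b_tail (d : ℕ) {a : ℝ} (ha : 0 < a) : ∃ C1 : ℝ, 0 ≤ C1 ∧
    ∀ u : ℝ, 0 ≤ u → ∀ p : ℝ≥0∞, p ≤ 1 →
      p ≤ ∑' l : ℕ, ((A4b_E d l).card : ℝ≥0∞) * ENNReal.ofReal (2 * Real.exp (-(a * u ^ 2 * 2 ^ l))) →
      p ≤ ENNReal.ofReal (C1 * Real.exp (-(a / 2 * u ^ 2))) := by
  have hb : 0 < a / 2 := by positivity
  set g : ℕ → ℝ := fun l => 2 * ((d : ℝ) * (3 * 2 ^ l) ^ d) * Real.exp (-(a / 2 * 2 ^ l)) with hg
  have hgs : Summable g := A4b_summable d hb
  have hg0 : ∀ l, 0 ≤ g l := fun l => by simp only [hg]; positivity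
  refine ⟨max (Real.exp (a / 2)) (∑' l, g l), le_max_of_le_left (Real.exp_pos _).le, ?_⟩
  intro u hu p hp hpl
  rcases le_or_gt u 1 with h1 | h1
  · refine hp.trans ?_
    rw [← ENNReal.ofReal_one]
    apply ENNReal.ofReal_le_ofReal
    calc (1 : ℝ) = Real.exp (a / 2) * Real.exp (-(a / 2)) := by
          rw [← Real.exp_add]
          simp
      _ ≤ max (Real.exp (a / 2)) (∑' l, g l) * Real.exp (-(a / 2 * u ^ 2)) := by
          have h2 : u ^ 2 ≤ 1 := pow_le_one₀ hu h1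
          have h3 : Real.exp (-(a / 2)) ≤ Real.exp (-(a / 2 * u ^ 2)) := by
            apply Real.exp_le_exp.2
            nlinarith
          have h4 := le_max_left (Real.exp (a / 2)) (∑' l, g l)
          have h5 := (Real.exp_pos (a / 2)).le
          exact mul_le_mul h4 h3 (Real.exp_pos _).le (h5.trans h4)
  · refine hpl.trans ?_
    have h2 : ∀ l : ℕ, ((A4b_E d l).card : ℝ≥0∞) *
        ENNReal.ofReal (2 * Real.exp (-(a * u ^ 2 * 2 ^ l))) ≤
        ENNReal.ofReal (g l * Real.exp (-(a / 2 * u ^ 2))) := by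
      intro l
      have h3 : ((A4b_E d l).card : ℝ≥0∞) = ENNReal.ofReal ((A4b_E d l).card : ℝ) := by
        rw [ENNReal.ofReal_natCast]
      rw [h3, ← ENNReal.ofReal_mul (Nat.cast_nonneg _)]
      apply ENNReal.ofReal_le_ofReal
      have h4 := A4b_card_E (d := d) l
      have h5 : (1 : ℝ) ≤ 2 ^ l := one_le_pow₀ (by norm_num)
      have h6 : Real.exp (-(a * u ^ 2 * 2 ^ l)) ≤
          Real.exp (-(a / 2 * 2 ^ l)) * Real.exp (-(a / 2 * u ^ 2)) := by
        rw [← Real.exp_add]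
        apply Real.exp_le_exp.2
        have h7 : (1 : ℝ) ≤ u ^ 2 := one_le_pow₀ h1.le
        have h8 : (2 : ℝ) ^ l ≤ u ^ 2 * 2 ^ l := le_mul_of_one_le_left (by positivity) h7
        have h9 : u ^ 2 ≤ u ^ 2 * 2 ^ l := le_mul_of_one_le_right (by positivity) h5
        nlinarith
      calc ((A4b_E d l).card : ℝ) * (2 * Real.exp (-(a * u ^ 2 * 2 ^ l)))
          ≤ (d * (3 * 2 ^ l) ^ d) *
            (2 * (Real.exp (-(a / 2 * 2 ^ l)) * Real.exp (-(a / 2 * u ^ 2)))) := by gcongr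
        _ = _ := by simp only [hg]; ring
    calc _ ≤ ∑' l, ENNReal.ofReal (g l * Real.exp (-(a / 2 * u ^ 2))) := ENNReal.tsum_le_tsum h2
      _ = ENNReal.ofReal (∑' l, g l * Real.exp (-(a / 2 * u ^ 2))) := by
          rw [ENNReal.ofReal_tsum_of_nonneg]
          · intro l
            exact mul_nonneg (hg0 l) (Real.exp_pos _).le
          · exact hgs.mul_right _
      _ ≤ _ := by
          apply ENNReal.ofReal_le_ofReal
          rw [tsum_mul_right]
          gcongr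
          exact le_max_right _ _

private theorem A4b_prob {Λ R : ℝ} (hR : 0 < R) {Ω : Type*} [MeasurableSpace Ω]
    (P : Measure Ω) [IsProbabilityMeasure P] (X : Ω → Rd d → ℝ) (x0 : Rd d)
    (hX : ∀ x, Measurable (fun ω => X ω x))
    (hexp : ∀ (s : ℝ), ∀ x ∈ CBox x0 R, ∀ y ∈ CBox x0 R,
        ∫⁻ ω, ENNReal.ofReal (Real.exp (s * (X ω x - X ω y))) ∂P ≤
          ENNReal.ofReal (Real.exp (s ^ 2 * Λ ^ 2 * ‖x - y‖ ^ 2 / 2))) {u : ℝ} (hu : 0 ≤ u) :
    P {ω | ENNReal.ofReal u < A4b_M x0 R (X ω)} ≤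
      ∑' l : ℕ, ((A4b_E d l).card : ℝ≥0∞) *
        ENNReal.ofReal (2 * Real.exp (-((1 / (2 * (Λ ^ 2 + 1) * R ^ 2)) * u ^ 2 * 2 ^ l))) := by
  have h1 : {ω | ENNReal.ofReal u < A4b_M x0 R (X ω)} ⊆
      ⋃ l : ℕ, ⋃ e ∈ A4b_E d l, {ω | u / Real.sqrt 2 ^ l < |A4b_D x0 R (X ω) l e|} := by
    intro ω hω
    have hω' : ENNReal.ofReal u < A4b_M x0 R (X ω) := hω
    unfold A4b_M at hω'
    obtain ⟨l, hl⟩ := lt_iSup_iff.1 hω'
    obtain ⟨e, he⟩ := lt_iSup_iff.1 hl
    obtain ⟨hm, hlt⟩ := lt_iSup_iff.1 he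
    rw [ENNReal.ofReal_lt_ofReal_iff_of_nonneg hu] at hlt
    refine mem_iUnion.2 ⟨l, mem_iUnion.2 ⟨e, mem_iUnion.2 ⟨hm, ?_⟩⟩⟩
    show u / Real.sqrt 2 ^ l < |A4b_D x0 R (X ω) l e|
    rw [div_lt_iff₀ (by positivity), mul_comm]
    exact hlt
  have h2 : ∀ (l : ℕ), ∀ e ∈ A4b_E d l, P {ω | u / Real.sqrt 2 ^ l < |A4b_D x0 R (X ω) l e|} ≤
      ENNReal.ofReal (2 * Real.exp (-((1 / (2 * (Λ ^ 2 + 1) * R ^ 2)) * u ^ 2 * 2 ^ l))) := by
    rintro l ⟨v, i⟩ he
    obtain ⟨hv1, hv2⟩ := A4b_mem_E.1 he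
    have hdy : 0 < dy l := by unfold dy; positivity
    have hvar : 0 < (Λ ^ 2 + 1) * (R * dy l) ^ 2 := by positivity
    have h3 := A4b_chernoff P (fun ω => A4b_D x0 R (X ω) l (v, i)) ((hX _).sub (hX _)) hvar
      (fun s => (hexp s _ (A4b_mem_CBox hR hv2) _ (A4b_mem_CBox hR hv1)).trans (by
        apply ENNReal.ofReal_le_ofReal
        apply Real.exp_le_exp.2
        rw [A4b_norm hR]
        have h4 : 0 ≤ s ^ 2 * (R * dy l) ^ 2 := by positivity
        nlinarith)) (t := u / Real.sqrt 2 ^ l) (by positivity)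
    refine h3.trans (le_of_eq ?_)
    congr 4
    have h5 : (Real.sqrt 2 ^ l) ^ 2 = 2 ^ l := by
      rw [← pow_mul, mul_comm l 2, pow_mul, Real.sq_sqrt (by norm_num)]
    have h6 : dy l = 1 / 2 ^ l := by unfold dy; rw [one_div_pow]
    rw [div_pow, h5, h6]
    field_simp
  calc P {ω | ENNReal.ofReal u < A4b_M x0 R (X ω)}
      ≤ P (⋃ l : ℕ, ⋃ e ∈ A4b_E d l, {ω | u / Real.sqrt 2 ^ l < |A4b_D x0 R (X ω) l e|}) :=
        measure_mono h1
    _ ≤ ∑' l : ℕ, P (⋃ e ∈ A4b_E d l, {ω | u / Real.sqrt 2 ^ l < |A4b_D x0 R (X ω) l e|}) :=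
        measure_iUnion_le _
    _ ≤ _ := by
        apply ENNReal.tsum_le_tsum
        intro l
        refine (measure_biUnion_finset_le _ _).trans ?_
        refine (Finset.sum_le_sum (h2 l)).trans ?_
        rw [Finset.sum_const, nsmul_eq_mul]

/-- **Chaining.** Continuous random field on `CBox x0 R` with `E e^{s(X_x - X_y)} ≤ e^{s² Λ² ‖x-y‖²/2}`. There is a random Hölder-1/2 constant with
`E e^{bH} ≤ e^{C(b+b²)}`, `C = C(d,Λ,R)`. (The Hölder bound holds almost surely.)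
Proof: `H = (C_d/√R) sup_l (√2)^l max_{edges of level l} |ΔX|` (`holder_of_dyadic`); an edge of level `l` has length `R 2^{-l}`, so `P[|ΔX| > t] ≤ 2 exp(-t² 4^l/(2 (Λ²+1) R²))`, there are at most
`d (2^{l+1}+1)^d` edges, `P[sup > u] ≤ ∑_l 2d(2^{l+1}+1)^d exp(-u² 2^l/(2(Λ²+1)R²))`, which is at most `C exp(-u²/(4 (Λ²+1) R²))` for `u ≥ u_0` (and everywhere after increasing `C`). -/
theorem chaining (d : ℕ) (Λ R : ℝ) (hΛ : 0 ≤ Λ) (hR : 0 < R) : ∃ C : ℝ, 0 ≤ C ∧
    ∀ {Ω : Type*} [MeasurableSpace Ω] (P : Measure Ω) [IsProbabilityMeasure P] (X : Ω → Rd d → ℝ) (x0 : Rd d),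
      (∀ ω, Continuous (X ω)) → (∀ x, Measurable (fun ω => X ω x)) →
      (∀ (s : ℝ), ∀ x ∈ CBox x0 R, ∀ y ∈ CBox x0 R,
        ∫⁻ ω, ENNReal.ofReal (Real.exp (s * (X ω x - X ω y))) ∂P ≤ ENNReal.ofReal (Real.exp (s ^ 2 * Λ ^ 2 * ‖x - y‖ ^ 2 / 2))) →
      ∃ H : Ω → ℝ, Measurable[⨆ x : Rd d, MeasurableSpace.comap (fun ω => X ω x) inferInstance] H ∧ (∀ ω, 0 ≤ H ω) ∧
        (∀ᵐ ω ∂P, ∀ x ∈ CBox x0 R, ∀ y ∈ CBox x0 R, |X ω x - X ω y| ≤ H ω * Real.sqrt ‖x - y‖) ∧
        ∀ b : ℝ, 0 ≤ b → ∫⁻ ω, ENNReal.ofReal (Real.exp (b * H ω)) ∂P ≤ ENNReal.ofReal (Real.exp (C * (b + b ^ 2))) := by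
  obtain ⟨Cd, hCd, hhold⟩ := holder_of_dyadic d
  set a : ℝ := 1 / (2 * (Λ ^ 2 + 1) * R ^ 2) with ha
  have ha0 : 0 < a := by positivity
  obtain ⟨C1, hC1, htail⟩ := A4b_tail d ha0
  set q : ℝ := Cd / Real.sqrt R with hq
  have hq0 : 0 < q := by positivity
  obtain ⟨C, hC, hmom⟩ := exp_moment_of_tail (C1 := C1) (c := a / 2 / q ^ 2) hC1 (by positivity)
  refine ⟨C, hC, ?_⟩
  intro Ω _ P _ X x0 hcont hmeas hexp
  set M : Ω → ℝ≥0∞ := fun ω => A4b_M x0 R (X ω) with hM
  have hMtail : ∀ u : ℝ, 0 ≤ u → P {ω | ENNReal.ofReal u < M ω} ≤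
      ENNReal.ofReal (C1 * Real.exp (-(a / 2 * u ^ 2))) := fun u hu =>
    htail u hu _ prob_le_one (A4b_prob hR P X x0 hmeas hexp hu)
  have hMmeas : Measurable M := A4b_meas X x0 R hmeas
  have hHmeas : Measurable[⨆ x : Rd d, MeasurableSpace.comap (fun ω => X ω x) inferInstance]
      (fun ω => q * (M ω).toReal) := by
    have h1 : ∀ x, Measurable[⨆ x : Rd d, MeasurableSpace.comap (fun ω => X ω x) inferInstance]
        (fun ω => X ω x) := fun x =>
      measurable_iff_comap_le.2 (le_iSup (fun x : Rd d => MeasurableSpace.comap (fun ω => X ω x)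
        inferInstance) x)
    have h2 := @A4b_meas d Ω (⨆ x : Rd d, MeasurableSpace.comap (fun ω => X ω x) inferInstance)
      X x0 R h1
    exact (ENNReal.measurable_toReal.comp h2).const_mul q
  refine ⟨fun ω => q * (M ω).toReal, hHmeas, fun ω => by positivity, ?_, ?_⟩
  · -- almost sure finiteness
    have h1 : P {ω | M ω = ∞} = 0 := by
      have h2 : ∀ n : ℕ, P {ω | M ω = ∞} ≤ ENNReal.ofReal (C1 * Real.exp (-(a / 2 * (n : ℝ) ^ 2))) := by
        intro n
        refine le_trans (measure_mono ?_) (hMtail n (Nat.cast_nonneg n))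
        intro ω hω
        have hω' : M ω = ∞ := hω
        show ENNReal.ofReal (n : ℝ) < M ω
        rw [hω']
        exact ENNReal.ofReal_lt_top
      have h3 : Tendsto (fun n : ℕ => ENNReal.ofReal (C1 * Real.exp (-(a / 2 * (n : ℝ) ^ 2)))) atTop
          (𝓝 0) := by
        rw [← ENNReal.ofReal_zero]
        apply ENNReal.tendsto_ofReal
        have h4 : Tendsto (fun n : ℕ => a / 2 * (n : ℝ) ^ 2) atTop atTop := by
          apply Tendsto.const_mul_atTop (by positivity)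
          exact (tendsto_pow_atTop (by norm_num)).comp tendsto_natCast_atTop_atTop
        have h5 := (Real.tendsto_exp_neg_atTop_nhds_zero.comp h4).const_mul C1
        simpa using h5
      exact le_antisymm (ge_of_tendsto' h3 h2) zero_le
    have h2 : ∀ᵐ ω ∂P, M ω ≠ ∞ := by
      rw [ae_iff]
      simpa using h1
    filter_upwards [h2] with ω hω x hx y hy
    have h3 := hhold (X ω) x0 R (M ω).toReal hR ENNReal.toReal_nonneg (hcont ω).continuousOn (by
      intro l v i hv1 hv2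
      have h4 : ENNReal.ofReal (Real.sqrt 2 ^ l * |A4b_D x0 R (X ω) l (v, i)|) ≤ M ω := by
        simp only [hM, A4b_M]
        exact le_iSup_of_le l (le_iSup_of_le (v, i) (le_iSup_of_le (A4b_mem_E.2 ⟨hv1, hv2⟩) le_rfl))
      have h5 : Real.sqrt 2 ^ l * |A4b_D x0 R (X ω) l (v, i)| ≤ (M ω).toReal :=
        (ENNReal.ofReal_le_iff_le_toReal hω).1 h4
      have h6 : (0 : ℝ) < Real.sqrt 2 ^ l := by positivity
      show |A4b_D x0 R (X ω) l (v, i)| ≤ (M ω).toReal * (Real.sqrt 2)⁻¹ ^ l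
      rw [inv_pow, ← div_eq_mul_inv, le_div_iff₀ h6, mul_comm]
      exact h5) x hx y hy
    calc |X ω x - X ω y| ≤ Cd * (M ω).toReal / Real.sqrt R * Real.sqrt ‖x - y‖ := h3
      _ = q * (M ω).toReal * Real.sqrt ‖x - y‖ := by rw [hq]; ring
  · apply hmom P _ ((ENNReal.measurable_toReal.comp hMmeas).const_mul q)
      (fun ω => mul_nonneg hq0.le ENNReal.toReal_nonneg)
    intro u hu
    have h1 : {ω | u < q * (M ω).toReal} ⊆ {ω | ENNReal.ofReal (u / q) < M ω} := by
      intro ω hω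
      have hω' : u < q * (M ω).toReal := hω
      have h2 : u / q < (M ω).toReal := by
        rw [div_lt_iff₀ hq0, mul_comm]
        exact hω'
      show ENNReal.ofReal (u / q) < M ω
      have h3 : M ω ≠ ∞ := by
        intro h
        rw [h] at h2
        simp only [ENNReal.toReal_top] at h2
        have : 0 ≤ u / q := by positivity
        linarith
      exact (ENNReal.ofReal_lt_iff_lt_toReal (by positivity) h3).2 h2
    have h2 := (measure_mono h1).trans (hMtail (u / q) (by positivity))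
    have h3 : P.real {ω | u < q * (M ω).toReal} ≤ C1 * Real.exp (-(a / 2 * (u / q) ^ 2)) := by
      rw [Measure.real]
      exact ENNReal.toReal_le_of_le_ofReal (by positivity) h2
    refine h3.trans (le_of_eq ?_)
    congr 3
    rw [div_pow]
    ring

/-- the true oscillation over a compact set (for every `ω`), measurable for the `σ`-algebra of the field -/
theorem sup_osc {Ω : Type*} (m : MeasurableSpace Ω) (X : Ω → Rd d → ℝ) (hc : ∀ ω, Continuous (X ω))
    (hX : ∀ x, Measurable[m] (fun ω => X ω x)) {K : Set (Rd d)} (hK : IsCompact K) :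
    ∃ om : Ω → ℝ, Measurable[m] om ∧ (∀ ω, 0 ≤ om ω) ∧
      (∀ ω, ∀ x ∈ K, ∀ y ∈ K, |X ω x - X ω y| ≤ om ω) ∧
      ∀ (ω : Ω) (M : ℝ), 0 ≤ M → (∀ x ∈ K, ∀ y ∈ K, |X ω x - X ω y| ≤ M) → om ω ≤ M := by
  obtain ⟨S, hSK, hSc, hKS⟩ :=
    (TopologicalSpace.IsSeparable.of_separableSpace K).exists_countable_dense_subset
  set T : Ω → ℝ≥0∞ := fun ω => ⨆ x ∈ S, ⨆ y ∈ S, ENNReal.ofReal |X ω x - X ω y| with hT
  have hTm : Measurable[m] T := by
    simp only [hT]
    refine Measurable.biSup S hSc fun x _ => Measurable.biSup S hSc fun y _ => ?_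
    apply ENNReal.measurable_ofReal.comp
    exact continuous_abs.measurable.comp ((hX x).sub (hX y))
  have hTfin : ∀ ω, T ω ≠ ∞ := by
    intro ω
    obtain ⟨B, hB⟩ := hK.exists_bound_of_continuousOn (hc ω).continuousOn
    have h1 : T ω ≤ ENNReal.ofReal (B + B) := by
      simp only [hT]
      refine iSup₂_le fun x hx => iSup₂_le fun y hy => ENNReal.ofReal_le_ofReal ?_
      have h2 := hB x (hSK hx)
      have h3 := hB y (hSK hy)
      rw [Real.norm_eq_abs] at h2 h3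
      exact (abs_sub _ _).trans (add_le_add h2 h3)
    exact (lt_of_le_of_lt h1 ENNReal.ofReal_lt_top).ne
  refine ⟨fun ω => (T ω).toReal, ENNReal.measurable_toReal.comp hTm,
    fun ω => ENNReal.toReal_nonneg, ?_, ?_⟩
  · intro ω x hx y hy
    have h1 : IsClosed {p : Rd d × Rd d | |X ω p.1 - X ω p.2| ≤ (T ω).toReal} :=
      isClosed_le (continuous_abs.comp (((hc ω).comp continuous_fst).sub
        ((hc ω).comp continuous_snd))) continuous_const
    have h2 : S ×ˢ S ⊆ {p : Rd d × Rd d | |X ω p.1 - X ω p.2| ≤ (T ω).toReal} := by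
      rintro ⟨p, q⟩ ⟨hp, hq⟩
      show |X ω p - X ω q| ≤ (T ω).toReal
      rw [← ENNReal.ofReal_le_iff_le_toReal (hTfin ω)]
      simp only [hT]
      exact le_iSup₂_of_le p hp (le_iSup₂_of_le q hq le_rfl)
    have h3 : closure (S ×ˢ S) ⊆ {p : Rd d × Rd d | |X ω p.1 - X ω p.2| ≤ (T ω).toReal} :=
      closure_minimal h2 h1
    rw [closure_prod_eq] at h3
    exact h3 (Set.mk_mem_prod (hKS hx) (hKS hy))
  · intro ω M hM h
    apply ENNReal.toReal_le_of_le_ofReal hM
    simp only [hT]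
    exact iSup₂_le fun x hx => iSup₂_le fun y hy => ENNReal.ofReal_le_ofReal (h x (hSK hx) y (hSK hy))

end MP_d19698_pr
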