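import Pool.Agent.Lib.MP_d19698_pr.A3b
import Pool.Agent.Lib.MP_d19698_pr.A4b

/-!
# A5: exponential moments of oscillations and suprema (section 2)
-/

open MeasureTheory ProbabilityTheory Filter Topology Set
open scoped ENNReal NNReal

namespace MP_d19698_pr

/-- exponential moments of a centred Gaussian variable -/
private theorem lintegral_exp_gauss {Ω : Type*} [MeasurableSpace Ω] (P : Measure Ω) [IsProbabilityMeasure P]
    {Y : Ω → ℝ} (hY : HasGaussianLaw Y P) (hm : ∫ ω, Y ω ∂P = 0) {v : ℝ} (hv : ∫ ω, Y ω * Y ω ∂P = v) (s : ℝ) :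
    ∫⁻ ω, ENNReal.ofReal (Real.exp (s * Y ω)) ∂P = ENNReal.ofReal (Real.exp (v * s ^ 2 / 2)) := by
  have hlaw := hY.map_eq_gaussianReal
  have hvar : Var[Y; P] = v := by
    rw [variance_of_integral_eq_zero hY.aemeasurable hm, ← hv]
    refine integral_congr_ae (Eventually.of_forall fun ω => ?_)
    ring
  have hv0 : 0 ≤ v := by
    rw [← hvar]; exact variance_nonneg _ _
  have hmgf := mgf_gaussianReal hlaw s
  rw [hm, hvar, Real.coe_toNNReal _ hv0] at hmgf
  have hint : Integrable (fun ω => Real.exp (s * Y ω)) P := by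
    rw [← mgf_pos_iff, hmgf]
    exact Real.exp_pos _
  rw [← ofReal_integral_eq_lintegral_ofReal hint (Eventually.of_forall fun ω => (Real.exp_pos _).le)]
  congr 1
  have : ∫ ω, Real.exp (s * Y ω) ∂P = mgf Y P s := rfl
  rw [this, hmgf]
  congr 1
  ring

namespace Env

variable {d : ℕ} [NeZero d] (E : Env d)

/-- (2.1) Hölder constant of level `k` near `x`: apply `chaining` to `y ↦ η_k(x + 2^{-k} y)`; its increments are centred Gaussian with variance
`2(c(0) - c(y-y')) ≤ Λ² ‖y-y'‖²` (`cov`, `c_reg`). -/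
theorem holder_const {R : ℝ} (hR : 0 < R) : ∃ C : ℝ, 0 ≤ C ∧ ∀ (k : ℕ) (x : Rd d), ∃ H : E.Ω → ℝ, Measurable[E.EE k] H ∧ (∀ ω, 0 ≤ H ω) ∧
    (∀ᵐ ω ∂E.P, ∀ y ∈ CBox x (R * dy k), ∀ z ∈ CBox x (R * dy k), |E.η k ω y - E.η k ω z| ≤ H ω * Real.sqrt (2 ^ k * ‖y - z‖)) ∧
    ∀ b : ℝ, 0 ≤ b → ∫⁻ ω, ENNReal.ofReal (Real.exp (b * H ω)) ∂E.P ≤ ENNReal.ofReal (Real.exp (C * (b + b ^ 2))) := by
  obtain ⟨C, hC, hch⟩ := chaining d E.Λ R E.hΛ hR
  refine ⟨C, hC, fun k x => ?_⟩
  have hdy : 0 < dy k := by unfold dy; positivity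
  have hdy2 : (2 : ℝ) ^ k * dy k = 1 := by
    unfold dy
    rw [← mul_pow]
    norm_num
  have hinc : ∀ (s : ℝ), ∀ y ∈ CBox (0 : Rd d) R, ∀ z ∈ CBox (0 : Rd d) R,
      ∫⁻ ω, ENNReal.ofReal (Real.exp (s * (E.η k ω (x + dy k • y) - E.η k ω (x + dy k • z)))) ∂E.P ≤
        ENNReal.ofReal (Real.exp (s ^ 2 * E.Λ ^ 2 * ‖y - z‖ ^ 2 / 2)) := by
    intro s y _ z _
    have hG : HasGaussianLaw (fun ω => E.η k ω (x + dy k • y) - E.η k ω (x + dy k • z)) E.P :=
      E.gauss.hasGaussianLaw_fun_sub (s := (k, x + dy k • y)) (t := (k, x + dy k • z))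
    have hGy : HasGaussianLaw (fun ω => E.η k ω (x + dy k • y)) E.P :=
      E.gauss.hasGaussianLaw_eval (k, x + dy k • y)
    have hGz : HasGaussianLaw (fun ω => E.η k ω (x + dy k • z)) E.P :=
      E.gauss.hasGaussianLaw_eval (k, x + dy k • z)
    have hm : ∫ ω, (E.η k ω (x + dy k • y) - E.η k ω (x + dy k • z)) ∂E.P = 0 := by
      rw [integral_sub hGy.integrable hGz.integrable, E.mean, E.mean, sub_zero]
    have i1 : Integrable (fun ω => E.η k ω (x + dy k • y) * E.η k ω (x + dy k • y)) E.P :=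
      hGy.memLp_two.integrable_mul hGy.memLp_two
    have i2 : Integrable (fun ω => E.η k ω (x + dy k • y) * E.η k ω (x + dy k • z)) E.P :=
      hGy.memLp_two.integrable_mul hGz.memLp_two
    have i3 : Integrable (fun ω => E.η k ω (x + dy k • z) * E.η k ω (x + dy k • z)) E.P :=
      hGz.memLp_two.integrable_mul hGz.memLp_two
    have hv : ∫ ω, (E.η k ω (x + dy k • y) - E.η k ω (x + dy k • z)) *
        (E.η k ω (x + dy k • y) - E.η k ω (x + dy k • z)) ∂E.P = 2 * (covK E.𝔎 0 - covK E.𝔎 (y - z)) := by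
      have e : ∀ ω, (E.η k ω (x + dy k • y) - E.η k ω (x + dy k • z)) *
          (E.η k ω (x + dy k • y) - E.η k ω (x + dy k • z)) =
          E.η k ω (x + dy k • y) * E.η k ω (x + dy k • y) -
            2 * (E.η k ω (x + dy k • y) * E.η k ω (x + dy k • z)) +
            E.η k ω (x + dy k • z) * E.η k ω (x + dy k • z) := fun ω => by ring
      simp_rw [e]
      have j1 : Integrable (fun ω => E.η k ω (x + dy k • y) * E.η k ω (x + dy k • y) -
          2 * (E.η k ω (x + dy k • y) * E.η k ω (x + dy k • z))) E.P := i1.sub (i2.const_mul 2)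
      rw [integral_add j1 i3, integral_sub i1 (i2.const_mul 2), integral_const_mul,
        E.cov, E.cov, E.cov, if_pos rfl, if_pos rfl, if_pos rfl, sub_self, sub_self, smul_zero]
      have e2 : (2 : ℝ) ^ k • (x + dy k • y - (x + dy k • z)) = y - z := by
        rw [add_sub_add_left_eq_sub, ← smul_sub, smul_smul, hdy2, one_smul]
      rw [e2]
      ring
    rw [lintegral_exp_gauss E.P hG hm hv s]
    refine ENNReal.ofReal_le_ofReal (Real.exp_le_exp.2 ?_)
    have := E.c_reg (y - z)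
    have hs := sq_nonneg s
    nlinarith [mul_le_mul_of_nonneg_left this hs]
  obtain ⟨H, hHm, hH0, hHold, hHexp⟩ := hch E.P (fun ω y => E.η k ω (x + dy k • y)) 0
    (fun ω => (E.cont k ω).comp (continuous_const.add (continuous_const_smul _)))
    (fun y => E.meas k _) hinc
  refine ⟨H, ?_, hH0, ?_, hHexp⟩
  · refine hHm.mono ?_ le_rfl
    refine iSup_le fun y => ?_
    exact le_iSup (fun x : Rd d => MeasurableSpace.comap (fun ω => E.η k ω x) inferInstance) (x + dy k • y)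
  · filter_upwards [hHold] with ω hHoldω y hy z hz
    have hsc : ∀ w ∈ CBox x (R * dy k), (2 : ℝ) ^ k • (w - x) ∈ CBox (0 : Rd d) R := by
      intro w hw i
      have h1 := hw i
      have h2 : ((2 : ℝ) ^ k • (w - x)) i - (0 : Rd d) i = (2 : ℝ) ^ k * (w i - x i) := by
        simp
      rw [h2, abs_mul, abs_of_pos (by positivity : (0 : ℝ) < 2 ^ k)]
      calc (2 : ℝ) ^ k * |w i - x i| ≤ 2 ^ k * (R * dy k) := mul_le_mul_of_nonneg_left h1 (by positivity)
        _ = R * ((2 : ℝ) ^ k * dy k) := by ring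
        _ = R := by rw [hdy2, mul_one]
    have hback : ∀ w : Rd d, x + dy k • ((2 : ℝ) ^ k • (w - x)) = w := by
      intro w
      rw [smul_smul, mul_comm, hdy2, one_smul, add_sub_cancel]
    have := hHoldω _ (hsc y hy) _ (hsc z hz)
    simp only [hback] at this
    refine this.trans (le_of_eq ?_)
    congr 2
    rw [← smul_sub, sub_sub_sub_cancel_right, norm_smul, Real.norm_of_nonneg (by positivity)]

/-- one-point exponential moment `E e^{s η_k(x)} = 2^{s²/2}`. -/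
theorem exp_eta (k : ℕ) (x : Rd d) (s : ℝ) :
    ∫⁻ ω, ENNReal.ofReal (Real.exp (s * E.η k ω x)) ∂E.P = ENNReal.ofReal ((2 : ℝ) ^ (s ^ 2 / 2)) := by
  have hv : ∫ ω, E.η k ω x * E.η k ω x ∂E.P = Real.log 2 := by
    rw [E.cov, if_pos rfl, sub_self, smul_zero, E.c_zero]
  rw [lintegral_exp_gauss E.P (E.gauss.hasGaussianLaw_eval (k, x)) (E.mean k x) hv s,
    Real.rpow_def_of_pos two_pos]
  congr 2
  ring

/-- `E e^{s h_{0,k}(x)} = 2^{s² k/2}`. -/
theorem exp_hh (k : ℕ) (x : Rd d) (s : ℝ) :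
    ∫⁻ ω, ENNReal.ofReal (Real.exp (s * E.hh 0 k ω x)) ∂E.P = ENNReal.ofReal ((2 : ℝ) ^ (s ^ 2 * k / 2)) := by
  have hv : ∫ ω, E.hh 0 k ω x * E.hh 0 k ω x ∂E.P = k * Real.log 2 := by
    rw [E.cov_hh]
    simp only [sub_self, smul_zero, E.c_zero, Finset.inter_self, Finset.sum_const, Nat.card_Ico,
      Nat.sub_zero, nsmul_eq_mul]
  rw [lintegral_exp_gauss E.P (E.isGaussianProcess_hh.hasGaussianLaw_eval (0, k, x)) (E.mean_hh 0 k x) hv s,
    Real.rpow_def_of_pos two_pos]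
  congr 2
  ring


end Env
end MP_d19698_pr
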