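import Pool.Agent.Lib.MP_d19698_pr.A5a

/-! # A5b -/

open MeasureTheory ProbabilityTheory Filter Topology Set
open scoped ENNReal NNReal

namespace MP_d19698_pr
namespace Env
variable {d : ℕ} [NeZero d] (E : Env d)

/-- product formula over the levels -/
private theorem a5b_prod (X : ℕ → E.Ω → ℝ≥0∞) (hX : ∀ i, Measurable[E.EE i] (X i)) (s : Finset ℕ) :
    ∫⁻ ω, ∏ i ∈ s, X i ω ∂E.P = ∏ i ∈ s, ∫⁻ ω, X i ω ∂E.P := by
  apply lintegral_prod_eq_prod_lintegral_of_indepFun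
  · rw [iIndepFun_iff_iIndep]
    exact iIndep_of_iIndep_of_le E.iIndep_EE (fun i => (hX i).comap_le)
  · intro i
    exact (hX i).mono (E.EE_le i) le_rfl

private theorem a5b_meas_eta (i : ℕ) (x : Rd d) : Measurable[E.EE i] (fun ω => E.η i ω x) := by
  have h : MeasurableSpace.comap (fun ω => E.η i ω x) inferInstance ≤ E.EE i :=
    le_iSup (fun x : Rd d => MeasurableSpace.comap (fun ω => E.η i ω x) inferInstance) x
  exact (comap_measurable (fun ω => E.η i ω x)).mono h le_rfl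

private theorem a5b_EE_le_LL {i k : ℕ} (h : i < k) : E.EE i ≤ E.LL k :=
  le_iSup₂_of_le (f := fun i (_ : i < k) => E.EE i) i h le_rfl

/-- Hölder for one level -/
private theorem a5b_holder (k : ℕ) (x : Rd d) {H : E.Ω → ℝ} (hH : Measurable H) {C0 : ℝ}
    (hexp : ∀ b : ℝ, 0 ≤ b → ∫⁻ ω, ENNReal.ofReal (Real.exp (b * H ω)) ∂E.P ≤
      ENNReal.ofReal (Real.exp (C0 * (b + b ^ 2))))
    {s b ε : ℝ} (hs : 0 ≤ s) (hb : 0 ≤ b) (hε : 0 < ε) :
    ∫⁻ ω, ENNReal.ofReal (Real.exp (s * E.η k ω x + s * (b * H ω))) ∂E.P ≤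
      ENNReal.ofReal ((2 : ℝ) ^ (s ^ 2 / 2 * (1 + ε)) *
        Real.exp (C0 * (s * b + s ^ 2 * ((1 + 1 / ε) * b ^ 2)))) := by
  have hp : 0 < 1 + ε := by linarith
  have hq : 0 < 1 + 1 / ε := by positivity
  have hpq : (1 + ε).HolderConjugate (1 + 1 / ε) := by
    rw [Real.holderConjugate_iff]
    refine ⟨by linarith, ?_⟩
    field_simp
    ring
  have hm1 : Measurable (fun ω => ENNReal.ofReal (Real.exp (s * E.η k ω x))) :=
    ((measurable_const.mul (E.meas k x)).exp).ennreal_ofReal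
  have hm2 : Measurable (fun ω => ENNReal.ofReal (Real.exp (s * (b * H ω)))) :=
    ((measurable_const.mul (measurable_const.mul hH)).exp).ennreal_ofReal
  have key := ENNReal.lintegral_mul_le_Lp_mul_Lq E.P hpq hm1.aemeasurable hm2.aemeasurable
  have e1 : ∀ ω, ENNReal.ofReal (Real.exp (s * E.η k ω x)) ^ (1 + ε) =
      ENNReal.ofReal (Real.exp ((s * (1 + ε)) * E.η k ω x)) := by
    intro ω
    rw [ENNReal.ofReal_rpow_of_pos (Real.exp_pos _), ← Real.exp_mul]
    congr 2; ring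
  have e2 : ∀ ω, ENNReal.ofReal (Real.exp (s * (b * H ω))) ^ (1 + 1 / ε) =
      ENNReal.ofReal (Real.exp ((s * b * (1 + 1 / ε)) * H ω)) := by
    intro ω
    rw [ENNReal.ofReal_rpow_of_pos (Real.exp_pos _), ← Real.exp_mul]
    congr 2; ring
  have i1 : (∫⁻ ω, ENNReal.ofReal (Real.exp (s * E.η k ω x)) ^ (1 + ε) ∂E.P) ^ (1 / (1 + ε)) =
      ENNReal.ofReal ((2 : ℝ) ^ (s ^ 2 / 2 * (1 + ε))) := by
    simp_rw [e1]
    rw [E.exp_eta k x, ENNReal.ofReal_rpow_of_pos (by positivity), ← Real.rpow_mul (by norm_num)]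
    congr 2
    field_simp
  have i2 : (∫⁻ ω, ENNReal.ofReal (Real.exp (s * (b * H ω))) ^ (1 + 1 / ε) ∂E.P) ^
      (1 / (1 + 1 / ε)) ≤
      ENNReal.ofReal (Real.exp (C0 * (s * b + s ^ 2 * ((1 + 1 / ε) * b ^ 2)))) := by
    simp_rw [e2]
    refine (ENNReal.rpow_le_rpow (hexp _ (by positivity)) (by positivity)).trans ?_
    rw [ENNReal.ofReal_rpow_of_pos (Real.exp_pos _), ← Real.exp_mul]
    apply le_of_eq
    congr 2
    field_simp
  calc ∫⁻ ω, ENNReal.ofReal (Real.exp (s * E.η k ω x + s * (b * H ω))) ∂E.P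
      = ∫⁻ ω, ((fun ω => ENNReal.ofReal (Real.exp (s * E.η k ω x))) *
          (fun ω => ENNReal.ofReal (Real.exp (s * (b * H ω))))) ω ∂E.P := by
        apply lintegral_congr
        intro ω
        rw [Real.exp_add, ENNReal.ofReal_mul (Real.exp_pos _).le]
        rfl
    _ ≤ _ := key
    _ ≤ _ := by
        rw [i1, ENNReal.ofReal_mul (by positivity)]
        exact mul_le_mul_right i2 _

private theorem a5b_r : 0 < (Real.sqrt 2)⁻¹ ∧ (Real.sqrt 2)⁻¹ ≤ 3 / 4 ∧ (Real.sqrt 2)⁻¹ ^ 2 = 1 / 2 := by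
  have h2 : (Real.sqrt 2) ^ 2 = 2 := Real.sq_sqrt (by norm_num)
  have h0 : 0 < (Real.sqrt 2)⁻¹ := by positivity
  have h3 : (Real.sqrt 2)⁻¹ ^ 2 = 1 / 2 := by rw [inv_pow, h2]; norm_num
  exact ⟨h0, by nlinarith, h3⟩

private theorem a5b_sum (k : ℕ) : ∑ i ∈ Finset.range k, (Real.sqrt 2)⁻¹ ^ (k - i) ≤ 3 := by
  obtain ⟨r0, r1, r2⟩ := a5b_r
  induction k with
  | zero => simp
  | succ k ih =>
    rw [Finset.sum_range_succ]
    have : ∑ i ∈ Finset.range k, (Real.sqrt 2)⁻¹ ^ (k + 1 - i) =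
        (Real.sqrt 2)⁻¹ * ∑ i ∈ Finset.range k, (Real.sqrt 2)⁻¹ ^ (k - i) := by
      rw [Finset.mul_sum]
      apply Finset.sum_congr rfl
      intro i hi
      have hi' : i < k := Finset.mem_range.mp hi
      rw [show k + 1 - i = (k - i) + 1 by omega, pow_succ]
      ring
    rw [this, show k + 1 - k = 1 by omega, pow_one]
    have : (Real.sqrt 2)⁻¹ * ∑ i ∈ Finset.range k, (Real.sqrt 2)⁻¹ ^ (k - i) ≤ (Real.sqrt 2)⁻¹ * 3 :=
      mul_le_mul_of_nonneg_left ih r0.le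
    linarith

private theorem a5b_dy_le {i k : ℕ} (h : i ≤ k) : dy k ≤ dy i := by
  unfold dy
  exact pow_le_pow_of_le_one (by norm_num) (by norm_num) h

private theorem a5b_dy_pos (k : ℕ) : 0 < dy k := by
  unfold dy
  positivity

omit [NeZero d] in
private theorem a5b_sqrt {R : ℝ} (hR : 0 < R) {k i : ℕ} (h : i ≤ k) {x y z : Rd d}
    (hy : y ∈ CBox x (R * dy k)) (hz : z ∈ CBox x (R * dy k)) :
    Real.sqrt (2 ^ i * ‖y - z‖) ≤ Real.sqrt (2 * (Real.sqrt d * R)) * (Real.sqrt 2)⁻¹ ^ (k - i) := by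
  obtain ⟨r0, r1, r2⟩ := a5b_r
  have hRk : 0 ≤ R * dy k := (mul_pos hR (a5b_dy_pos k)).le
  have h1 := norm_le_of_mem_CBox hRk hy
  have h2 := norm_le_of_mem_CBox hRk hz
  have h3 : ‖y - z‖ ≤ 2 * (Real.sqrt d * R) * dy k := by
    calc ‖y - z‖ = ‖(y - x) - (z - x)‖ := by congr 1; abel
      _ ≤ ‖y - x‖ + ‖z - x‖ := norm_sub_le _ _
      _ ≤ _ := by linarith
  apply Real.sqrt_le_iff.mpr
  refine ⟨by positivity, ?_⟩
  rw [mul_pow, Real.sq_sqrt (by positivity), ← pow_mul, mul_comm (k - i) 2, pow_mul, r2]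
  have e : (2:ℝ) ^ i * dy k = (1 / 2) ^ (k - i) := by
    unfold dy
    obtain ⟨j, rfl⟩ := Nat.exists_eq_add_of_le h
    rw [Nat.add_sub_cancel_left, pow_add, ← mul_assoc, ← mul_pow]
    norm_num
  calc (2:ℝ) ^ i * ‖y - z‖ ≤ 2 ^ i * (2 * (Real.sqrt d * R) * dy k) :=
        mul_le_mul_of_nonneg_left h3 (by positivity)
    _ = 2 * (Real.sqrt d * R) * (2 ^ i * dy k) := by ring
    _ = _ := by rw [e]

/-- (2.2), (2.3): oscillation `om` of `h_{0,k}` on `CBox x (R 2^{-k})`, with exponential moments uniform in `k, x`, and `E e^{s(h_{0,k}(x)+om)} ≤ C(s) 2^{s²k/2}`.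
`om = ∑_{i<k} H_{i,x} (2 √d R 2^{i-k})^{1/2}` with `H_{i,x}` from `holder_const` (`‖y-z‖ ≤ 2 √d R 2^{-k}`). The `H_i` (and the pairs `(η_i(x), H_i)`) are independent (`iIndep_EE`).
Second bound: `E e^{s η_i(x) + s b_i H_i} ≤ (E e^{s p η_i})^{1/p} (E e^{s q b_i H_i})^{1/q} ≤ 2^{s² p/2} exp(C(s b_i + s² q b_i²))`, `p = 1 + ε`, `q = 1 + 1/ε`,
`ε = 2^{-(k-i)/4}`, `b_i = C 2^{-(k-i)/2}`: the product over `i < k` is `≤ C(s) 2^{s² k/2}`. -/
theorem osc_moment {R : ℝ} (hR : 0 < R) : ∃ (C : ℝ) (Cs : ℝ → ℝ), 0 ≤ C ∧ (∀ s, 0 < Cs s) ∧ ∀ (k : ℕ) (x : Rd d), ∃ om : E.Ω → ℝ,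
    Measurable[E.LL k] om ∧ (∀ ω, 0 ≤ om ω) ∧
    (∀ ω, ∀ y ∈ CBox x (R * dy k), ∀ z ∈ CBox x (R * dy k), |E.hh 0 k ω y - E.hh 0 k ω z| ≤ om ω) ∧
    (∀ b : ℝ, 0 ≤ b → ∫⁻ ω, ENNReal.ofReal (Real.exp (b * om ω)) ∂E.P ≤ ENNReal.ofReal (Real.exp (C * (b + b ^ 2)))) ∧
    ∀ s : ℝ, 0 ≤ s → ∫⁻ ω, ENNReal.ofReal (Real.exp (s * (E.hh 0 k ω x + om ω))) ∂E.P ≤ ENNReal.ofReal (Cs s * (2 : ℝ) ^ (s ^ 2 * k / 2)) := by
  obtain ⟨C0, hC0, hH⟩ := E.holder_const hR
  set c : ℝ := Real.sqrt (2 * (Real.sqrt d * R)) with hc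
  have hc0 : 0 ≤ c := Real.sqrt_nonneg _
  obtain ⟨r0, r1, r2⟩ := a5b_r
  refine ⟨C0 * (3 * c + 3 * c ^ 2),
    fun s => (2 : ℝ) ^ (3 * s ^ 2 / 2) * Real.exp (C0 * (s * (3 * c) + s ^ 2 * (6 * c ^ 2))),
    by positivity, fun s => by positivity, ?_⟩
  intro k x
  choose H hHm hH0 hHosc hHexp using fun i => hH i x
  set r : ℝ := (Real.sqrt 2)⁻¹ with hr
  set b : ℕ → ℝ := fun i => c * r ^ (k - i) with hb
  have hb0 : ∀ i, 0 ≤ b i := fun i => by positivity
  have hsumr : ∑ i ∈ Finset.range k, r ^ (k - i) ≤ 3 := a5b_sum k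
  have hsumb : ∑ i ∈ Finset.range k, b i ≤ 3 * c := by
    rw [hb, ← Finset.mul_sum]
    nlinarith
  have hrle : ∀ i, r ^ (k - i) ≤ 1 := fun i => pow_le_one₀ r0.le (by linarith)
  have hbsq : ∀ i, b i ^ 2 ≤ c ^ 2 * r ^ (k - i) := by
    intro i
    have h1 := hrle i
    have h2 : 0 ≤ r ^ (k - i) := by positivity
    have : b i ^ 2 = c ^ 2 * (r ^ (k - i) * r ^ (k - i)) := by rw [hb]; ring
    rw [this]
    apply mul_le_mul_of_nonneg_left _ (sq_nonneg c)
    nlinarith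
  have hsumb2 : ∑ i ∈ Finset.range k, b i ^ 2 ≤ 3 * c ^ 2 := by
    refine (Finset.sum_le_sum (fun i _ => hbsq i)).trans ?_
    rw [← Finset.mul_sum]
    nlinarith [sq_nonneg c]
  have hmH : ∀ i, Measurable (H i) := fun i => (hHm i).mono (E.EE_le i) le_rfl
  have hmeasLL : ∀ y : Rd d, Measurable[E.LL k] (fun ω => E.hh 0 k ω y) := by
    intro y
    unfold hh
    apply Finset.measurable_fun_sum
    intro i hi
    exact (E.a5b_meas_eta i y).mono (E.a5b_EE_le_LL (Finset.mem_Ico.mp hi).2) le_rfl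
  obtain ⟨om, homm, hom0, homosc, hommin⟩ := sup_osc (E.LL k) (fun ω y => E.hh 0 k ω y)
    (fun ω => E.continuous_hh 0 k ω) hmeasLL (isCompact_CBox x (R * dy k))
  have hle : ∀ᵐ ω ∂E.P, om ω ≤ ∑ i ∈ Finset.range k, b i * H i ω := by
    filter_upwards [ae_all_iff.mpr hHosc] with ω hω
    apply hommin ω _ (Finset.sum_nonneg (fun i _ => mul_nonneg (hb0 i) (hH0 i ω)))
    intro y hy z hz
    have e : E.hh 0 k ω y - E.hh 0 k ω z = ∑ i ∈ Finset.range k, (E.η i ω y - E.η i ω z) := by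
      unfold hh
      rw [Nat.Ico_zero_eq_range, Finset.sum_sub_distrib]
    rw [e]
    refine (Finset.abs_sum_le_sum_abs _ _).trans (Finset.sum_le_sum ?_)
    intro i hi
    have hik : i ≤ k := (Finset.mem_range.mp hi).le
    have hsub : ∀ w ∈ CBox x (R * dy k), w ∈ CBox x (R * dy i) := by
      intro w hw j
      exact (hw j).trans (mul_le_mul_of_nonneg_left (a5b_dy_le hik) hR.le)
    refine (hω i y (hsub y hy) z (hsub z hz)).trans ?_
    rw [mul_comm (b i)]
    exact mul_le_mul_of_nonneg_left (a5b_sqrt hR hik hy hz) (hH0 i ω)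
  refine ⟨om, homm, hom0, homosc, ?_, ?_⟩
  · intro t ht
    refine (lintegral_mono_ae (g := fun ω => ENNReal.ofReal (Real.exp
      (t * ∑ i ∈ Finset.range k, b i * H i ω))) (hle.mono fun ω hω => ENNReal.ofReal_le_ofReal
      (Real.exp_le_exp.mpr (mul_le_mul_of_nonneg_left hω ht)))).trans ?_
    have e : ∀ ω, ENNReal.ofReal (Real.exp (t * ∑ i ∈ Finset.range k, b i * H i ω)) =
        ∏ i ∈ Finset.range k, ENNReal.ofReal (Real.exp ((t * b i) * H i ω)) := by
      intro ω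
      rw [Finset.mul_sum, Real.exp_sum, ENNReal.ofReal_prod_of_nonneg (fun i _ => (Real.exp_pos _).le)]
      simp only [mul_assoc]
    simp_rw [e]
    rw [E.a5b_prod (fun i ω => ENNReal.ofReal (Real.exp ((t * b i) * H i ω)))
      (fun i => (((hHm i).const_mul _).exp).ennreal_ofReal)]
    calc ∏ i ∈ Finset.range k, ∫⁻ ω, ENNReal.ofReal (Real.exp ((t * b i) * H i ω)) ∂E.P
        ≤ ∏ i ∈ Finset.range k, ENNReal.ofReal (Real.exp (C0 * (t * b i + (t * b i) ^ 2))) :=
          Finset.prod_le_prod' (fun i _ => hHexp i _ (mul_nonneg ht (hb0 i)))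
      _ = ENNReal.ofReal (Real.exp (∑ i ∈ Finset.range k, C0 * (t * b i + (t * b i) ^ 2))) := by
          rw [Real.exp_sum, ENNReal.ofReal_prod_of_nonneg (fun i _ => (Real.exp_pos _).le)]
      _ ≤ _ := by
          apply ENNReal.ofReal_le_ofReal
          apply Real.exp_le_exp.mpr
          have : ∑ i ∈ Finset.range k, C0 * (t * b i + (t * b i) ^ 2) =
              C0 * (t * ∑ i ∈ Finset.range k, b i + t ^ 2 * ∑ i ∈ Finset.range k, b i ^ 2) := by
            rw [Finset.mul_sum, Finset.mul_sum, ← Finset.sum_add_distrib, Finset.mul_sum]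
            apply Finset.sum_congr rfl
            intro i _
            ring
          rw [this, mul_assoc]
          apply mul_le_mul_of_nonneg_left _ hC0
          have h1 : t * ∑ i ∈ Finset.range k, b i ≤ t * (3 * c) := mul_le_mul_of_nonneg_left hsumb ht
          have h2 : t ^ 2 * ∑ i ∈ Finset.range k, b i ^ 2 ≤ t ^ 2 * (3 * c ^ 2) :=
            mul_le_mul_of_nonneg_left hsumb2 (sq_nonneg t)
          have h3 : 0 ≤ t * (3 * c ^ 2) := by positivity
          have h4 : 0 ≤ t ^ 2 * (3 * c) := by positivity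
          linarith
  · intro s hs
    refine (lintegral_mono_ae (g := fun ω => ENNReal.ofReal (Real.exp
      (s * (E.hh 0 k ω x + ∑ i ∈ Finset.range k, b i * H i ω)))) (hle.mono fun ω hω =>
      ENNReal.ofReal_le_ofReal (Real.exp_le_exp.mpr (mul_le_mul_of_nonneg_left
        (by linarith) hs)))).trans ?_
    have e : ∀ ω, ENNReal.ofReal (Real.exp (s * (E.hh 0 k ω x + ∑ i ∈ Finset.range k, b i * H i ω))) =
        ∏ i ∈ Finset.range k, ENNReal.ofReal (Real.exp (s * E.η i ω x + s * (b i * H i ω))) := by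
      intro ω
      unfold hh
      rw [Nat.Ico_zero_eq_range, ← Finset.sum_add_distrib, Finset.mul_sum, Real.exp_sum,
        ENNReal.ofReal_prod_of_nonneg (fun i _ => (Real.exp_pos _).le)]
      simp only [mul_add]
    simp_rw [e]
    rw [E.a5b_prod (fun i ω => ENNReal.ofReal (Real.exp (s * E.η i ω x + s * (b i * H i ω))))
      (fun i => ((((E.a5b_meas_eta i x).const_mul s).add
        (((hHm i).const_mul (b i)).const_mul s)).exp).ennreal_ofReal)]
    have hε : ∀ i, 0 < r ^ (k - i) := fun i => by positivity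
    calc ∏ i ∈ Finset.range k, ∫⁻ ω, ENNReal.ofReal (Real.exp (s * E.η i ω x + s * (b i * H i ω))) ∂E.P
        ≤ ∏ i ∈ Finset.range k, ENNReal.ofReal ((2 : ℝ) ^ (s ^ 2 / 2 * (1 + r ^ (k - i))) *
          Real.exp (C0 * (s * b i + s ^ 2 * ((1 + 1 / r ^ (k - i)) * b i ^ 2)))) :=
          Finset.prod_le_prod' (fun i _ => E.a5b_holder i x (hmH i) (hHexp i) hs (hb0 i) (hε i))
      _ = ENNReal.ofReal ((2 : ℝ) ^ (∑ i ∈ Finset.range k, s ^ 2 / 2 * (1 + r ^ (k - i))) *
          Real.exp (∑ i ∈ Finset.range k,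
            C0 * (s * b i + s ^ 2 * ((1 + 1 / r ^ (k - i)) * b i ^ 2)))) := by
          rw [← ENNReal.ofReal_prod_of_nonneg (fun i _ => by positivity), Finset.prod_mul_distrib,
            Real.exp_sum, Real.rpow_sum_of_pos (by norm_num)]
      _ ≤ _ := by
          apply ENNReal.ofReal_le_ofReal
          have s1 : ∑ i ∈ Finset.range k, s ^ 2 / 2 * (1 + r ^ (k - i)) ≤
              3 * s ^ 2 / 2 + s ^ 2 * k / 2 := by
            rw [← Finset.mul_sum, Finset.sum_add_distrib]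
            simp only [Finset.sum_const, Finset.card_range, nsmul_eq_mul, mul_one]
            nlinarith [sq_nonneg s]
          have s2 : ∑ i ∈ Finset.range k,
              C0 * (s * b i + s ^ 2 * ((1 + 1 / r ^ (k - i)) * b i ^ 2)) ≤
              C0 * (s * (3 * c) + s ^ 2 * (6 * c ^ 2)) := by
            have h1 : ∀ i, (1 + 1 / r ^ (k - i)) * b i ^ 2 ≤ 2 * c ^ 2 * r ^ (k - i) := by
              intro i
              have h2 := hbsq i
              have h3 := hε i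
              have h4 : 1 / r ^ (k - i) * b i ^ 2 = c ^ 2 * r ^ (k - i) := by
                rw [hb]
                field_simp
              rw [add_mul, h4]
              linarith
            calc ∑ i ∈ Finset.range k, C0 * (s * b i + s ^ 2 * ((1 + 1 / r ^ (k - i)) * b i ^ 2))
                ≤ ∑ i ∈ Finset.range k, C0 * (s * b i + s ^ 2 * (2 * c ^ 2 * r ^ (k - i))) := by
                  apply Finset.sum_le_sum
                  intro i _
                  apply mul_le_mul_of_nonneg_left _ hC0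
                  have := mul_le_mul_of_nonneg_left (h1 i) (sq_nonneg s)
                  linarith
              _ = C0 * (s * ∑ i ∈ Finset.range k, b i +
                    s ^ 2 * (2 * c ^ 2 * ∑ i ∈ Finset.range k, r ^ (k - i))) := by
                  rw [Finset.mul_sum, Finset.mul_sum, Finset.mul_sum, ← Finset.sum_add_distrib,
                    Finset.mul_sum]
              _ ≤ _ := by
                  apply mul_le_mul_of_nonneg_left _ hC0
                  have a1 : s * ∑ i ∈ Finset.range k, b i ≤ s * (3 * c) :=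
                    mul_le_mul_of_nonneg_left hsumb hs
                  have a2 : 2 * c ^ 2 * ∑ i ∈ Finset.range k, r ^ (k - i) ≤ 2 * c ^ 2 * 3 :=
                    mul_le_mul_of_nonneg_left hsumr (by positivity)
                  have a3 := mul_le_mul_of_nonneg_left a2 (sq_nonneg s)
                  linarith
          calc (2 : ℝ) ^ (∑ i ∈ Finset.range k, s ^ 2 / 2 * (1 + r ^ (k - i))) *
              Real.exp (∑ i ∈ Finset.range k,
                C0 * (s * b i + s ^ 2 * ((1 + 1 / r ^ (k - i)) * b i ^ 2)))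
              ≤ (2 : ℝ) ^ (3 * s ^ 2 / 2 + s ^ 2 * k / 2) *
                Real.exp (C0 * (s * (3 * c) + s ^ 2 * (6 * c ^ 2))) := by
                apply mul_le_mul
                · exact Real.rpow_le_rpow_of_exponent_le (by norm_num) s1
                · exact Real.exp_le_exp.mpr s2
                · exact (Real.exp_pos _).le
                · positivity
            _ = _ := by
                rw [Real.rpow_add (by norm_num)]
                ring

/-- sup of `ξ h_{0,k}` over `CBox x (R 2^{-k})`: a coarse random variable `U ≥ ξ h_{0,k}` on the box with `E e^{tU} ≤ Cs(t) 2^{(ξt)²k/2}`. -/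
theorem sup_moment {R : ℝ} (hR : 0 < R) : ∃ Cs : ℝ → ℝ, (∀ s, 0 < Cs s) ∧ ∀ (k : ℕ) (x : Rd d), ∃ U : E.Ω → ℝ,
    Measurable[E.LL k] U ∧ (∀ ω, ∀ y ∈ CBox x (R * dy k), E.hf 0 k ω y ≤ U ω) ∧
    ∀ t : ℝ, 0 ≤ t → ∫⁻ ω, ENNReal.ofReal (Real.exp (t * U ω)) ∂E.P ≤ ENNReal.ofReal (Cs t * (2 : ℝ) ^ ((E.ξ * t) ^ 2 * k / 2)) := by
  obtain ⟨C, Cs, -, hCs, h⟩ := E.osc_moment hR
  refine ⟨fun t => Cs (E.ξ * t), fun t => hCs _, ?_⟩
  intro k x
  obtain ⟨om, hm, h0, hosc, -, hexp⟩ := h k x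
  refine ⟨fun ω => E.ξ * (E.hh 0 k ω x + om ω), ?_, ?_, ?_⟩
  · have h1 : Measurable[E.LL k] (fun ω => E.hh 0 k ω x) := by
      unfold hh
      apply Finset.measurable_fun_sum
      intro i hi
      exact (E.a5b_meas_eta i x).mono (E.a5b_EE_le_LL (Finset.mem_Ico.mp hi).2) le_rfl
    exact (h1.add hm).const_mul _
  · intro ω y hy
    have hx : x ∈ CBox x (R * dy k) := by
      intro j
      simpa using (mul_pos hR (a5b_dy_pos k)).le
    have := (abs_le.mp (hosc ω y hy x hx)).2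
    unfold hf
    exact mul_le_mul_of_nonneg_left (by linarith) E.hξ.le
  · intro t ht
    have := hexp (E.ξ * t) (mul_nonneg E.hξ.le ht)
    refine le_trans (le_of_eq ?_) this
    apply lintegral_congr
    intro ω
    congr 2
    ring

end Env

end MP_d19698_pr
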