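import Pool.Agent.Lib.MP_d19698_pr.A5b

/-!
# A6: uniform oscillation bounds
-/

open MeasureTheory ProbabilityTheory Filter Topology Set
open scoped ENNReal NNReal

namespace MP_d19698_pr

namespace Env

variable {d : ℕ} [NeZero d] (E : Env d)

/-- Chebyshev with exponential moments. -/
theorem A6a_markov {Ω : Type*} {mΩ : MeasurableSpace Ω} (P : Measure Ω) [IsProbabilityMeasure P] {om : Ω → ℝ}
    (hm : Measurable om) {b t C : ℝ} (hb : 0 ≤ b)
    (h : ∫⁻ ω, ENNReal.ofReal (Real.exp (b * om ω)) ∂P ≤ ENNReal.ofReal C) (hC : 0 ≤ C) :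
    P.real {ω | t ≤ om ω} ≤ C * Real.exp (-(b * t)) := by
  have hmeas : Measurable (fun ω => ENNReal.ofReal (Real.exp (b * om ω))) :=
    ENNReal.measurable_ofReal.comp (Real.measurable_exp.comp (hm.const_mul b))
  have h1 := mul_meas_ge_le_lintegral (μ := P) hmeas (ENNReal.ofReal (Real.exp (b * t)))
  have hsub : {ω | t ≤ om ω} ⊆ {ω | ENNReal.ofReal (Real.exp (b * t)) ≤ ENNReal.ofReal (Real.exp (b * om ω))} := by
    intro ω hω
    exact ENNReal.ofReal_le_ofReal (Real.exp_le_exp.mpr (mul_le_mul_of_nonneg_left hω hb))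
  have h2 : ENNReal.ofReal (Real.exp (b * t)) * P {ω | t ≤ om ω} ≤ ENNReal.ofReal C :=
    ((mul_le_mul_right (measure_mono hsub) _).trans h1).trans h
  have h3 : Real.exp (b * t) * P.real {ω | t ≤ om ω} ≤ C := by
    have := ENNReal.toReal_mono ENNReal.ofReal_ne_top h2
    rwa [ENNReal.toReal_mul, ENNReal.toReal_ofReal (Real.exp_pos _).le, ENNReal.toReal_ofReal hC] at this
  rw [Real.exp_neg, ← div_eq_mul_inv, le_div_iff₀ (Real.exp_pos _), mul_comm]
  exact h3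

/-- (F3) oscillation of `ξ h_{0,m}` at scale `2^{-m}` over the unit region: `≤ C √(m+1)` with probability `≥ 1 - δ`. (`osc_moment` with `R = 4`, Chebyshev with `b = √(m+1)`,
`(4·2^m+1)^d` cells.) -/
theorem osc_sqrt {δ : ℝ} (hδ : 0 < δ) : ∃ C : ℝ, 0 ≤ C ∧ ∀ m : ℕ,
    E.P.real {ω | ∃ v : Fin d → ℤ, (∀ i, (|v i| : ℝ) * dy m ≤ 2) ∧ ∃ x ∈ CBox (latt m v) (4 * dy m), ∃ y ∈ CBox (latt m v) (4 * dy m),
      C * Real.sqrt ((m : ℝ) + 1) < |E.hf 0 m ω x - E.hf 0 m ω y|} ≤ δ := by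
  obtain ⟨C0, Cs, hC0, _, hom⟩ := E.osc_moment (R := 4) (by norm_num)
  set T : ℝ := 3 * d + 2 * C0 + 1 / δ with hT
  have hTpos : 0 ≤ T := by positivity
  refine ⟨E.ξ * T, mul_nonneg E.hξ.le hTpos, fun m => ?_⟩
  choose om hmeas hpos hosc hexp hexp2 using fun v : Fin d → ℤ => hom m (latt m v)
  set s : ℝ := Real.sqrt ((m : ℝ) + 1) with hs
  have hs1 : 1 ≤ s := by
    rw [hs]; apply Real.one_le_sqrt.mpr
    have : (0 : ℝ) ≤ m := Nat.cast_nonneg m
    linarith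
  have hs0 : 0 ≤ s := by linarith
  have hss : s * s = (m : ℝ) + 1 := Real.mul_self_sqrt (by positivity)
  set V : Finset (Fin d → ℤ) := Fintype.piFinset (fun _ => Finset.Icc (-(2 ^ (m + 1) : ℤ)) (2 ^ (m + 1))) with hV
  have hcard : (V.card : ℝ) ≤ Real.exp (3 * d * ((m : ℝ) + 1)) := by
    have h1 : V.card = (2 * 2 ^ (m + 1) + 1) ^ d := by
      rw [hV, Fintype.card_piFinset]
      simp only [Int.card_Icc, Finset.prod_const, Finset.card_univ, Fintype.card_fin]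
      congr 1
      have : ((2 : ℤ) ^ (m + 1) + 1 - -2 ^ (m + 1)) = ((2 * 2 ^ (m + 1) + 1 : ℕ) : ℤ) := by
        push_cast; ring
      rw [this, Int.toNat_natCast]
    rw [h1]
    push_cast
    have h2 : (2 * 2 ^ (m + 1) + 1 : ℝ) ≤ Real.exp (3 * ((m : ℝ) + 1)) := by
      have h3 : (2 * 2 ^ (m + 1) + 1 : ℝ) ≤ 2 ^ (3 * (m + 1)) := by
        have h4 : (2 : ℝ) ^ (3 * (m + 1)) = 2 ^ (m + 1) * 2 ^ (m + 1) * 2 ^ (m + 1) := by
          rw [← pow_add, ← pow_add]; congr 1; ring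
        rw [h4]
        have h5 : (2 : ℝ) ≤ 2 ^ (m + 1) := by
          calc (2 : ℝ) = 2 ^ 1 := by norm_num
            _ ≤ 2 ^ (m + 1) := pow_le_pow_right₀ (by norm_num) (by omega)
        nlinarith [mul_nonneg (sub_nonneg.mpr h5) (sub_nonneg.mpr h5)]
      refine h3.trans ?_
      have h6 : (2 : ℝ) ≤ Real.exp 1 := by
        have := Real.add_one_le_exp (1 : ℝ); linarith
      calc (2 : ℝ) ^ (3 * (m + 1)) ≤ Real.exp 1 ^ (3 * (m + 1)) := pow_le_pow_left₀ (by norm_num) h6 _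
        _ = Real.exp (3 * ((m : ℝ) + 1)) := by
          rw [← Real.exp_nat_mul]; congr 1; push_cast; ring
    calc (2 * 2 ^ (m + 1) + 1 : ℝ) ^ d ≤ Real.exp (3 * ((m : ℝ) + 1)) ^ d := pow_le_pow_left₀ (by positivity) h2 _
      _ = Real.exp (3 * d * ((m : ℝ) + 1)) := by
        rw [← Real.exp_nat_mul]; congr 1; ring
  have hsub : {ω | ∃ v : Fin d → ℤ, (∀ i, (|v i| : ℝ) * dy m ≤ 2) ∧ ∃ x ∈ CBox (latt m v) (4 * dy m), ∃ y ∈ CBox (latt m v) (4 * dy m),
      E.ξ * T * s < |E.hf 0 m ω x - E.hf 0 m ω y|} ⊆ ⋃ v ∈ V, {ω | T * s ≤ om v ω} := by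
    rintro ω ⟨v, hv, x, hx, y, hy, hxy⟩
    simp only [Set.mem_iUnion]
    refine ⟨v, ?_, ?_⟩
    · rw [hV, Fintype.mem_piFinset]
      intro i
      rw [Finset.mem_Icc, ← abs_le]
      have h1 := hv i
      have h2 : dy m * 2 ^ m = 1 := by
        rw [dy, ← mul_pow]; norm_num
      have h3 : (|v i| : ℝ) ≤ 2 ^ (m + 1) := by
        have h4 : (|v i| : ℝ) * dy m * 2 ^ m ≤ 2 * 2 ^ m := mul_le_mul_of_nonneg_right h1 (by positivity)
        rw [mul_assoc, h2, mul_one] at h4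
        rw [pow_succ]; linarith
      exact_mod_cast h3
    · have h1 := hosc v ω x hx y hy
      have h2 : |E.hf 0 m ω x - E.hf 0 m ω y| = E.ξ * |E.hh 0 m ω x - E.hh 0 m ω y| := by
        unfold hf
        rw [← mul_sub, abs_mul, abs_of_pos E.hξ]
      rw [h2] at hxy
      have h3 : E.ξ * (T * s) < E.ξ * om v ω := by
        calc E.ξ * (T * s) = E.ξ * T * s := by ring
          _ < E.ξ * |E.hh 0 m ω x - E.hh 0 m ω y| := hxy
          _ ≤ E.ξ * om v ω := mul_le_mul_of_nonneg_left h1 E.hξ.le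
      exact (lt_of_mul_lt_mul_left h3 E.hξ.le).le
  have hone : ∀ v, E.P.real {ω | T * s ≤ om v ω} ≤ Real.exp ((2 * C0 - T) * ((m : ℝ) + 1)) := by
    intro v
    have h1 := A6a_markov E.P (t := T * s) ((hmeas v).mono (E.LL_le m) le_rfl) hs0 (hexp v s hs0) (Real.exp_pos _).le
    refine h1.trans ?_
    rw [← Real.exp_add]
    apply Real.exp_le_exp.mpr
    have h2 : s ≤ s ^ 2 := by nlinarith
    have h3 : s ^ 2 = (m : ℝ) + 1 := by rw [sq]; exact hss
    have h4 : s * (T * s) = T * ((m : ℝ) + 1) := by rw [← hss]; ring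
    rw [h4]
    nlinarith [mul_le_mul_of_nonneg_left h2 hC0]
  calc E.P.real _ ≤ E.P.real (⋃ v ∈ V, {ω | T * s ≤ om v ω}) := measureReal_mono hsub (measure_ne_top _ _)
    _ ≤ ∑ v ∈ V, E.P.real {ω | T * s ≤ om v ω} := measureReal_biUnion_finset_le _ _
    _ ≤ ∑ v ∈ V, Real.exp ((2 * C0 - T) * ((m : ℝ) + 1)) := Finset.sum_le_sum fun v _ => hone v
    _ = V.card * Real.exp ((2 * C0 - T) * ((m : ℝ) + 1)) := by rw [Finset.sum_const, nsmul_eq_mul]
    _ ≤ Real.exp (3 * d * ((m : ℝ) + 1)) * Real.exp ((2 * C0 - T) * ((m : ℝ) + 1)) :=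
      mul_le_mul_of_nonneg_right hcard (Real.exp_pos _).le
    _ = Real.exp (-(1 / δ * ((m : ℝ) + 1))) := by rw [← Real.exp_add]; congr 1; rw [hT]; ring
    _ ≤ Real.exp (-(1 / δ)) := by
      apply Real.exp_le_exp.mpr
      have : 0 ≤ 1 / δ * (m : ℝ) := by positivity
      linarith
    _ ≤ δ := by
      rw [Real.exp_neg]
      have h1 := Real.add_one_le_exp (1 / δ)
      have h2 : 1 / δ ≤ Real.exp (1 / δ) := by linarith
      calc (Real.exp (1 / δ))⁻¹ ≤ (1 / δ)⁻¹ := inv_anti₀ (by positivity) h2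
        _ = δ := by simp

end Env
end MP_d19698_pr
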