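import Pool.Agent.Lib.MP_d19698_pr.A6a

/-! # A6b -/

open MeasureTheory ProbabilityTheory Filter Topology Set
open scoped ENNReal NNReal

namespace MP_d19698_pr
namespace Env
variable {d : ℕ} [NeZero d] (E : Env d)

/-- Chernoff bound for a sum of variables of independent levels. -/
private theorem A6b_chernoff (G : ℕ → E.Ω → ℝ) (hG : ∀ i, Measurable[E.EE i] (G i)) (l : ℕ) {b : ℝ} (hb : 0 ≤ b)
    (B : ℕ → ℝ) (hB : ∀ i, i < l → ∫⁻ ω, ENNReal.ofReal (Real.exp (b * G i ω)) ∂E.P ≤ ENNReal.ofReal (Real.exp (B i)))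
    (t : ℝ) :
    E.P.real {ω | t < ∑ i ∈ Finset.range l, G i ω} ≤ Real.exp (∑ i ∈ Finset.range l, B i - b * t) := by
  have hGm : ∀ i, Measurable (G i) := fun i => (hG i).mono (E.EE_le i) le_rfl
  have hX : ∀ i, Measurable (fun ω => ENNReal.ofReal (Real.exp (b * G i ω))) := fun i =>
    ENNReal.measurable_ofReal.comp (Real.measurable_exp.comp ((hGm i).const_mul b))
  have hind : iIndepFun (fun i ω => ENNReal.ofReal (Real.exp (b * G i ω))) E.P := by
    rw [iIndepFun_iff_iIndep]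
    refine iIndep_of_iIndep_of_le E.iIndep_EE fun i => ?_
    have h1 : Measurable[E.EE i] (fun ω => ENNReal.ofReal (Real.exp (b * G i ω))) :=
      ENNReal.measurable_ofReal.comp (Real.measurable_exp.comp ((hG i).const_mul b))
    exact h1.comap_le
  have hprod : ∫⁻ ω, ENNReal.ofReal (Real.exp (b * ∑ i ∈ Finset.range l, G i ω)) ∂E.P ≤
      ENNReal.ofReal (Real.exp (∑ i ∈ Finset.range l, B i)) := by
    calc ∫⁻ ω, ENNReal.ofReal (Real.exp (b * ∑ i ∈ Finset.range l, G i ω)) ∂E.P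
        = ∫⁻ ω, ∏ i ∈ Finset.range l, ENNReal.ofReal (Real.exp (b * G i ω)) ∂E.P := by
          refine lintegral_congr fun ω => ?_
          rw [Finset.mul_sum, Real.exp_sum, ENNReal.ofReal_prod_of_nonneg (fun i _ => (Real.exp_pos _).le)]
      _ = ∏ i ∈ Finset.range l, ∫⁻ ω, ENNReal.ofReal (Real.exp (b * G i ω)) ∂E.P :=
          lintegral_prod_eq_prod_lintegral_of_indepFun _ _ hind hX
      _ ≤ ∏ i ∈ Finset.range l, ENNReal.ofReal (Real.exp (B i)) :=
          Finset.prod_le_prod' fun i hi => hB i (Finset.mem_range.1 hi)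
      _ = ENNReal.ofReal (Real.exp (∑ i ∈ Finset.range l, B i)) := by
          rw [Real.exp_sum, ENNReal.ofReal_prod_of_nonneg (fun i _ => (Real.exp_pos _).le)]
  have hSm : Measurable (fun ω => ∑ i ∈ Finset.range l, G i ω) :=
    Finset.measurable_sum _ fun i _ => hGm i
  have hSm' : Measurable (fun ω => ENNReal.ofReal (Real.exp (b * ∑ i ∈ Finset.range l, G i ω))) :=
    ENNReal.measurable_ofReal.comp (Real.measurable_exp.comp (hSm.const_mul b))
  have hle : E.P {ω | t < ∑ i ∈ Finset.range l, G i ω} ≤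
      ENNReal.ofReal (Real.exp (∑ i ∈ Finset.range l, B i - b * t)) := by
    calc E.P {ω | t < ∑ i ∈ Finset.range l, G i ω}
        ≤ ∫⁻ ω, ENNReal.ofReal (Real.exp (-(b * t))) * ENNReal.ofReal (Real.exp (b * ∑ i ∈ Finset.range l, G i ω)) ∂E.P := by
          refine meas_le_lintegral₀ ?_ ?_
          · exact (measurable_const.mul hSm').aemeasurable
          · intro ω hω
            have hω' : t < ∑ i ∈ Finset.range l, G i ω := hω
            rw [← ENNReal.ofReal_mul (Real.exp_pos _).le, ← Real.exp_add, ← ENNReal.ofReal_one]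
            refine ENNReal.ofReal_le_ofReal ?_
            rw [← Real.exp_zero]
            refine Real.exp_le_exp.2 ?_
            have := mul_le_mul_of_nonneg_left hω'.le hb
            linarith
      _ = ENNReal.ofReal (Real.exp (-(b * t))) * ∫⁻ ω, ENNReal.ofReal (Real.exp (b * ∑ i ∈ Finset.range l, G i ω)) ∂E.P := by
          rw [lintegral_const_mul _ hSm']
      _ ≤ ENNReal.ofReal (Real.exp (-(b * t))) * ENNReal.ofReal (Real.exp (∑ i ∈ Finset.range l, B i)) := by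
          gcongr
      _ = ENNReal.ofReal (Real.exp (∑ i ∈ Finset.range l, B i - b * t)) := by
          rw [← ENNReal.ofReal_mul (Real.exp_pos _).le, ← Real.exp_add]
          congr 2
          ring
  exact ENNReal.toReal_le_of_le_ofReal (Real.exp_pos _).le hle

omit [NeZero d] in
/-- `‖y - z‖ ≤ 2 √d r` on `CBox x r`. -/
private theorem A6b_diam {x y z : Rd d} {r : ℝ} (hr : 0 ≤ r) (hy : y ∈ CBox x r) (hz : z ∈ CBox x r) :
    ‖y - z‖ ≤ 2 * Real.sqrt d * r := by
  have h1 := norm_le_of_mem_CBox hr hy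
  have h2 := norm_le_of_mem_CBox hr hz
  have h3 : ‖y - z‖ ≤ ‖y - x‖ + ‖z - x‖ := by
    have : y - z = (y - x) - (z - x) := by abel
    rw [this]
    exact norm_sub_le _ _
  linarith

/-- `E e^{b |η|} ≤ 2 e^{b²/2}`. -/
private theorem A6b_abs (k : ℕ) (x : Rd d) (b : ℝ) :
    ∫⁻ ω, ENNReal.ofReal (Real.exp (b * |E.η k ω x|)) ∂E.P ≤ ENNReal.ofReal (2 * Real.exp (b ^ 2)) := by
  have hm : Measurable (fun ω => E.η k ω x) := E.meas k x
  have h2 : (2 : ℝ) ^ (b ^ 2 / 2) ≤ Real.exp (b ^ 2) := by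
    rw [Real.rpow_def_of_pos (by norm_num)]
    refine Real.exp_le_exp.2 ?_
    have := Real.log_two_lt_d9
    nlinarith [sq_nonneg b]
  calc ∫⁻ ω, ENNReal.ofReal (Real.exp (b * |E.η k ω x|)) ∂E.P
      ≤ ∫⁻ ω, (ENNReal.ofReal (Real.exp (b * E.η k ω x)) + ENNReal.ofReal (Real.exp ((-b) * E.η k ω x))) ∂E.P := by
        refine lintegral_mono fun ω => ?_
        rcases abs_cases (E.η k ω x) with h | h
        · rw [h.1]; exact le_self_add
        · rw [h.1, mul_neg, ← neg_mul]; exact le_add_self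
    _ = ENNReal.ofReal ((2 : ℝ) ^ (b ^ 2 / 2)) + ENNReal.ofReal ((2 : ℝ) ^ (b ^ 2 / 2)) := by
        have hm' : Measurable (fun ω => ENNReal.ofReal (Real.exp (b * E.η k ω x))) :=
          ENNReal.measurable_ofReal.comp (Real.measurable_exp.comp (hm.const_mul b))
        rw [lintegral_add_left hm', E.exp_eta, E.exp_eta, neg_sq]
    _ ≤ ENNReal.ofReal (2 * Real.exp (b ^ 2)) := by
        rw [← ENNReal.ofReal_add (by positivity) (by positivity)]
        refine ENNReal.ofReal_le_ofReal ?_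
        linarith

/-- fine levels -/
private theorem A6b_small : ∃ C : ℝ, 0 ≤ C ∧ ∀ (i : ℕ) (x0 : Rd d) (ρ : ℝ), 0 ≤ ρ → ρ ≤ 1 → ∃ G : E.Ω → ℝ,
    Measurable[E.EE i] G ∧
    (∀ᵐ ω ∂E.P, ∀ y ∈ CBox x0 (ρ * dy i), ∀ z ∈ CBox x0 (ρ * dy i), |E.η i ω y - E.η i ω z| ≤ G ω) ∧
    ∀ b : ℝ, 0 ≤ b → ∫⁻ ω, ENNReal.ofReal (Real.exp (b * G ω)) ∂E.P ≤
      ENNReal.ofReal (Real.exp (C * (b + b ^ 2) * Real.sqrt ρ)) := by
  obtain ⟨CH, hCH, hH⟩ := E.holder_const (R := 1) one_pos
  set c : ℝ := Real.sqrt (2 * Real.sqrt d) with hc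
  have hc0 : 0 ≤ c := Real.sqrt_nonneg _
  refine ⟨CH * (c + c ^ 2), by positivity, fun i x0 ρ hρ0 hρ1 => ?_⟩
  obtain ⟨H, hHm, hH0, hHo, hHe⟩ := hH i x0
  have hdy : 0 < dy i := dy_pos i
  refine ⟨fun ω => H ω * (c * Real.sqrt ρ), hHm.mul_const _, ?_, ?_⟩
  · filter_upwards [hHo] with ω hHoω y hy z hz
    have hsub : CBox x0 (ρ * dy i) ⊆ CBox x0 (1 * dy i) := fun w hw j =>
      (hw j).trans (mul_le_mul_of_nonneg_right hρ1 hdy.le)
    refine (hHoω y (hsub hy) z (hsub hz)).trans ?_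
    refine mul_le_mul_of_nonneg_left ?_ (hH0 ω)
    have h1 := A6b_diam (mul_nonneg hρ0 hdy.le) hy hz
    have h2 : (2 : ℝ) ^ i * ‖y - z‖ ≤ 2 * Real.sqrt d * ρ := by
      calc (2 : ℝ) ^ i * ‖y - z‖ ≤ 2 ^ i * (2 * Real.sqrt d * (ρ * dy i)) := by gcongr
        _ = 2 * Real.sqrt d * ρ * (2 ^ i * dy i) := by ring
        _ = 2 * Real.sqrt d * ρ := by rw [two_pow_mul_dy, mul_one]
    calc Real.sqrt ((2 : ℝ) ^ i * ‖y - z‖) ≤ Real.sqrt (2 * Real.sqrt d * ρ) := Real.sqrt_le_sqrt h2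
      _ = c * Real.sqrt ρ := by rw [hc, Real.sqrt_mul (by positivity)]
  · intro b hb
    have hs0 : 0 ≤ Real.sqrt ρ := Real.sqrt_nonneg _
    have hs1 : Real.sqrt ρ ≤ 1 := Real.sqrt_le_one.2 hρ1
    have h1 := hHe (b * (c * Real.sqrt ρ)) (by positivity)
    have h2 : ∫⁻ ω, ENNReal.ofReal (Real.exp (b * (H ω * (c * Real.sqrt ρ)))) ∂E.P =
        ∫⁻ ω, ENNReal.ofReal (Real.exp (b * (c * Real.sqrt ρ) * H ω)) ∂E.P := by
      refine lintegral_congr fun ω => ?_
      congr 2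
      ring
    rw [h2]
    refine h1.trans (ENNReal.ofReal_le_ofReal (Real.exp_le_exp.2 ?_))
    have h3 : (b * (c * Real.sqrt ρ)) ^ 2 ≤ b ^ 2 * c ^ 2 * Real.sqrt ρ := by
      have : Real.sqrt ρ * Real.sqrt ρ ≤ Real.sqrt ρ * 1 := mul_le_mul_of_nonneg_left hs1 hs0
      calc (b * (c * Real.sqrt ρ)) ^ 2 = b ^ 2 * c ^ 2 * (Real.sqrt ρ * Real.sqrt ρ) := by ring
        _ ≤ b ^ 2 * c ^ 2 * (Real.sqrt ρ * 1) := by gcongr
        _ = _ := by ring
    calc CH * (b * (c * Real.sqrt ρ) + (b * (c * Real.sqrt ρ)) ^ 2)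
        ≤ CH * (b * (c * Real.sqrt ρ) + b ^ 2 * c ^ 2 * Real.sqrt ρ) := by gcongr
      _ = CH * (b * c + b ^ 2 * c ^ 2) * Real.sqrt ρ := by ring
      _ ≤ CH * ((c + c ^ 2) * (b + b ^ 2)) * Real.sqrt ρ := by
          gcongr
          nlinarith [mul_nonneg hb (sq_nonneg c), mul_nonneg (sq_nonneg b) hc0]
      _ = _ := by ring

/-- coarse levels -/
private theorem A6b_coarse : ∃ C : ℝ, 0 ≤ C ∧ ∀ (i : ℕ) (x0 : Rd d) (n : ℕ) (r : ℝ), r ≤ n * dy i → ∃ G : E.Ω → ℝ,
    Measurable[E.EE i] G ∧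
    (∀ᵐ ω ∂E.P, ∀ y ∈ CBox x0 r, ∀ z ∈ CBox x0 r, |E.η i ω y - E.η i ω z| ≤ G ω) ∧
    ∀ b : ℝ, 0 ≤ b → ∫⁻ ω, ENNReal.ofReal (Real.exp (b * G ω)) ∂E.P ≤
      ENNReal.ofReal (Real.exp (d * Real.log (2 * n + 1) + C * (1 + b + b ^ 2))) := by
  obtain ⟨CH, hCH, hH⟩ := E.holder_const (R := 1) one_pos
  set c : ℝ := Real.sqrt (Real.sqrt d) with hc
  have hc0 : 0 ≤ c := Real.sqrt_nonneg _
  set C' : ℝ := 16 + CH * (4 * c + 16 * c ^ 2) with hC'
  have hC'0 : 0 ≤ C' := by positivity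
  refine ⟨C' + 2, by positivity, fun i x0 n r hr => ?_⟩
  have hdy : 0 < dy i := dy_pos i
  choose H hHm hH0 hHo hHe using fun u : Fin d → ℤ => hH i (x0 + latt i u)
  set F : Finset (Fin d → ℤ) := Fintype.piFinset fun _ => Finset.Icc (-(n : ℤ)) n with hF
  have hFne : F.Nonempty := ⟨0, by simp [hF]⟩
  have hcard : (F.card : ℝ) = (2 * n + 1) ^ d := by
    rw [hF, Fintype.card_piFinset_const]
    simp only [Int.card_Icc, Nat.cast_pow]
    congr 1
    have : ((n : ℤ) + 1 - -(n : ℤ)).toNat = 2 * n + 1 := by omega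
    rw [this]
    push_cast
    ring
  have hηm : ∀ u : Fin d → ℤ, Measurable[E.EE i] (fun ω => E.η i ω (x0 + latt i u)) := by
    intro u
    have : MeasurableSpace.comap (fun ω => E.η i ω (x0 + latt i u)) inferInstance ≤ E.EE i :=
      le_iSup (fun x : Rd d => MeasurableSpace.comap (fun ω => E.η i ω x) inferInstance) (x0 + latt i u)
    exact (comap_measurable _).mono this le_rfl
  set T : (Fin d → ℤ) → E.Ω → ℝ := fun u ω => |E.η i ω (x0 + latt i u)| + c * H u ω with hT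
  have hTm : ∀ u, Measurable[E.EE i] (T u) := fun u => by
    have h1 : Measurable[E.EE i] (fun ω => |E.η i ω (x0 + latt i u)|) :=
      (measurable_id.abs).comp (hηm u)
    exact h1.add ((hHm u).const_mul c)
  have hTm' : ∀ u, Measurable (T u) := fun u => (hTm u).mono (E.EE_le i) le_rfl
  refine ⟨fun ω => 2 * F.sup' hFne (fun u => T u ω), ?_, ?_, ?_⟩
  · refine Measurable.const_mul ?_ 2
    have := @Finset.measurable_sup' ℝ _ E.Ω (E.EE i) _ _ (Fin d → ℤ) F hFne T (fun u _ => hTm u)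
    convert this using 1
    ext ω
    rw [Finset.sup'_apply]
  · -- the bound for one point
    have hone : ∀ᵐ ω ∂E.P, ∀ y ∈ CBox x0 r, |E.η i ω y| ≤ F.sup' hFne (fun u => T u ω) := by
      filter_upwards [ae_all_iff.2 hHo] with ω hHoω y hy
      set u : Fin d → ℤ := fun j => ⌊(y j - x0 j) / dy i⌋ with hu
      have hyj : ∀ j, |(y j - x0 j) / dy i| ≤ n := by
        intro j
        rw [abs_div, abs_of_pos hdy, div_le_iff₀ hdy]
        exact (hy j).trans hr
      have huF : u ∈ F := by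
        rw [hF, Fintype.mem_piFinset]
        intro j
        rw [Finset.mem_Icc]
        have h := abs_le.1 (hyj j)
        constructor
        · rw [hu, Int.le_floor]
          push_cast
          exact h.1
        · have : ((⌊(y j - x0 j) / dy i⌋ : ℤ) : ℝ) ≤ (n : ℝ) := (Int.floor_le _).trans h.2
          exact_mod_cast this
      have hyw : y ∈ CBox (x0 + latt i u) (1 * dy i) := by
        intro j
        have h1 := Int.floor_le ((y j - x0 j) / dy i)
        have h2 := Int.lt_floor_add_one ((y j - x0 j) / dy i)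
        rw [le_div_iff₀ hdy] at h1
        rw [div_lt_iff₀ hdy] at h2
        have h3 : (x0 + latt i u) j = x0 j + dy i * (u j : ℝ) := rfl
        have h4 : ((u j : ℤ) : ℝ) = (⌊(y j - x0 j) / dy i⌋ : ℝ) := rfl
        rw [h3, h4, abs_le]
        constructor <;> nlinarith
      have hww : x0 + latt i u ∈ CBox (x0 + latt i u) (1 * dy i) := by
        intro j
        simp [hdy.le]
      have h1 := hHoω u y hyw _ hww
      have h2 : ‖y - (x0 + latt i u)‖ ≤ Real.sqrt d * (1 * dy i) :=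
        norm_le_of_mem_CBox (by positivity) hyw
      have h3 : Real.sqrt (2 ^ i * ‖y - (x0 + latt i u)‖) ≤ c := by
        refine Real.sqrt_le_sqrt ?_
        calc (2 : ℝ) ^ i * ‖y - (x0 + latt i u)‖ ≤ 2 ^ i * (Real.sqrt d * (1 * dy i)) := by gcongr
          _ = Real.sqrt d * (2 ^ i * dy i) := by ring
          _ = Real.sqrt d := by rw [two_pow_mul_dy, mul_one]
      have h4 : |E.η i ω y| ≤ T u ω := by
        have h5 : |E.η i ω y| ≤ |E.η i ω (x0 + latt i u)| + |E.η i ω y - E.η i ω (x0 + latt i u)| := by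
          have := abs_add_le (E.η i ω (x0 + latt i u)) (E.η i ω y - E.η i ω (x0 + latt i u))
          simpa using this
        have h6 : H u ω * Real.sqrt (2 ^ i * ‖y - (x0 + latt i u)‖) ≤ c * H u ω := by
          rw [mul_comm]
          exact mul_le_mul_of_nonneg_right h3 (hH0 u ω)
        simp only [hT]
        linarith
      exact h4.trans (Finset.le_sup' (fun u => T u ω) huF)
    filter_upwards [hone] with ω honeω y hy z hz
    have h1 := honeω y hy
    have h2 := honeω z hz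
    have h3 : |E.η i ω y - E.η i ω z| ≤ |E.η i ω y| + |E.η i ω z| := abs_sub _ _
    linarith
  · intro b hb
    have hpt : ∀ ω, ENNReal.ofReal (Real.exp (b * (2 * F.sup' hFne (fun u => T u ω)))) ≤
        ∑ u ∈ F, (ENNReal.ofReal (Real.exp (4 * b * |E.η i ω (x0 + latt i u)|)) +
          ENNReal.ofReal (Real.exp (4 * b * c * H u ω))) := by
      intro ω
      obtain ⟨u, huF, hu⟩ := Finset.exists_mem_eq_sup' hFne (fun u => T u ω)
      rw [hu]
      refine le_trans ?_ (Finset.single_le_sum (f := fun u => (ENNReal.ofReal (Real.exp (4 * b * |E.η i ω (x0 + latt i u)|)) +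
          ENNReal.ofReal (Real.exp (4 * b * c * H u ω)))) (fun _ _ => zero_le) huF)
      simp only [hT]
      rcases le_total (c * H u ω) |E.η i ω (x0 + latt i u)| with h | h
      · refine le_trans (ENNReal.ofReal_le_ofReal (Real.exp_le_exp.2 ?_)) le_self_add
        nlinarith
      · refine le_trans (ENNReal.ofReal_le_ofReal (Real.exp_le_exp.2 ?_)) le_add_self
        nlinarith
    have hm1 : ∀ u, Measurable (fun ω => ENNReal.ofReal (Real.exp (4 * b * |E.η i ω (x0 + latt i u)|))) := fun u =>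
      ENNReal.measurable_ofReal.comp (Real.measurable_exp.comp ((measurable_id.abs.comp (E.meas i _)).const_mul _))
    have hm2 : ∀ u, Measurable (fun ω => ENNReal.ofReal (Real.exp (4 * b * c * H u ω))) := fun u =>
      ENNReal.measurable_ofReal.comp (Real.measurable_exp.comp (((hHm u).mono (E.EE_le i) le_rfl).const_mul _))
    calc ∫⁻ ω, ENNReal.ofReal (Real.exp (b * (2 * F.sup' hFne (fun u => T u ω)))) ∂E.P
        ≤ ∫⁻ ω, ∑ u ∈ F, (ENNReal.ofReal (Real.exp (4 * b * |E.η i ω (x0 + latt i u)|)) +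
          ENNReal.ofReal (Real.exp (4 * b * c * H u ω))) ∂E.P := lintegral_mono hpt
      _ = ∑ u ∈ F, (∫⁻ ω, ENNReal.ofReal (Real.exp (4 * b * |E.η i ω (x0 + latt i u)|)) ∂E.P +
          ∫⁻ ω, ENNReal.ofReal (Real.exp (4 * b * c * H u ω)) ∂E.P) := by
          have hm3 : ∀ u ∈ F, Measurable (fun ω => ENNReal.ofReal (Real.exp (4 * b * |E.η i ω (x0 + latt i u)|)) +
              ENNReal.ofReal (Real.exp (4 * b * c * H u ω))) := fun u _ => (hm1 u).add (hm2 u)
          rw [lintegral_finsetSum F hm3]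
          exact Finset.sum_congr rfl fun u _ => lintegral_add_left (hm1 u) _
      _ ≤ ∑ u ∈ F, ENNReal.ofReal (Real.exp (2 + C' * (b + b ^ 2))) := by
          refine Finset.sum_le_sum fun u _ => ?_
          have h1 := E.A6b_abs i (x0 + latt i u) (4 * b)
          have h2 := hHe u (4 * b * c) (by positivity)
          refine (add_le_add h1 h2).trans ?_
          rw [← ENNReal.ofReal_add (by positivity) (by positivity)]
          refine ENNReal.ofReal_le_ofReal ?_
          have h3 : (4 * b) ^ 2 ≤ C' * (b + b ^ 2) := by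
            have : 0 ≤ CH * (4 * c + 16 * c ^ 2) * (b + b ^ 2) := by positivity
            have h5 : C' * (b + b ^ 2) = 16 * (b + b ^ 2) + CH * (4 * c + 16 * c ^ 2) * (b + b ^ 2) := by
              rw [hC']; ring
            rw [h5]
            nlinarith
          have h4 : CH * (4 * b * c + (4 * b * c) ^ 2) ≤ C' * (b + b ^ 2) := by
            have h5 : C' * (b + b ^ 2) - CH * (4 * b * c + (4 * b * c) ^ 2) =
                16 * (b + b ^ 2) + CH * (4 * c * b ^ 2 + 16 * c ^ 2 * b) := by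
              rw [hC']; ring
            have : 0 ≤ 16 * (b + b ^ 2) + CH * (4 * c * b ^ 2 + 16 * c ^ 2 * b) := by positivity
            linarith
          have h5 : Real.exp ((4 * b) ^ 2) ≤ Real.exp (C' * (b + b ^ 2)) := Real.exp_le_exp.2 h3
          have h6 : Real.exp (CH * (4 * b * c + (4 * b * c) ^ 2)) ≤ Real.exp (C' * (b + b ^ 2)) := Real.exp_le_exp.2 h4
          have h7 : (3 : ℝ) ≤ Real.exp 2 := by
            have := Real.add_one_le_exp (2 : ℝ)
            linarith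
          rw [Real.exp_add]
          have h8 : 0 < Real.exp (C' * (b + b ^ 2)) := Real.exp_pos _
          nlinarith
      _ = ENNReal.ofReal (F.card * Real.exp (2 + C' * (b + b ^ 2))) := by
          rw [Finset.sum_const, nsmul_eq_mul, ENNReal.ofReal_mul (by positivity), ENNReal.ofReal_natCast]
      _ ≤ ENNReal.ofReal (Real.exp (d * Real.log (2 * n + 1) + (C' + 2) * (1 + b + b ^ 2))) := by
          refine ENNReal.ofReal_le_ofReal ?_
          rw [hcard, Real.exp_add (d * Real.log (2 * n + 1))]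
          have h1 : ((2 : ℝ) * n + 1) ^ d = Real.exp (d * Real.log (2 * n + 1)) := by
            rw [Real.exp_nat_mul, Real.exp_log (by positivity)]
          rw [h1]
          refine mul_le_mul_of_nonneg_left (Real.exp_le_exp.2 ?_) (Real.exp_pos _).le
          nlinarith [mul_nonneg hC'0 hb, sq_nonneg b]

/-- the geometric sum -/
private theorem A6b_geom (n : ℕ) : ∑ m ∈ Finset.range n, (Real.sqrt 2)⁻¹ ^ m ≤ 4 := by
  have hs : Real.sqrt 2 ≥ 1.4 := by
    rw [ge_iff_le, Real.le_sqrt' (by norm_num)]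
    norm_num
  have hq0 : 0 ≤ (Real.sqrt 2)⁻¹ := by positivity
  have hq1 : (Real.sqrt 2)⁻¹ ≤ 3 / 4 := by
    rw [inv_le_comm₀ (by linarith) (by norm_num)]
    linarith
  calc ∑ m ∈ Finset.range n, (Real.sqrt 2)⁻¹ ^ m ≤ ∑ m ∈ Finset.range n, (3 / 4 : ℝ) ^ m :=
        Finset.sum_le_sum fun m _ => pow_le_pow_left₀ hq0 hq1 m
    _ ≤ ∑' m : ℕ, (3 / 4 : ℝ) ^ m :=
        (summable_geometric_of_lt_one (by norm_num) (by norm_num)).sum_le_tsum _ (fun _ _ => by positivity)
    _ = 4 := by rw [tsum_geometric_of_lt_one (by norm_num) (by norm_num)]; norm_num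

/-- (F1) oscillation of `ξ h_{0,l}` over boxes of `l+4` cells: `≤ C √l log(l+2)` with probability `≥ 1 - e^{-2l}/4`, `l` large.
(For levels `i` with `(l+4) 2^{i-l} ≤ 1`: `holder_const` at level `i` (`R = 1`), `∑ ((l+4)2^{i-l})^{1/2} H_i`. For the at most `log_2(l+4)+1` other levels: cover the box by
`(2(l+4))^d` boxes of radius `2^{-i}`, `|η_i(y)-η_i(z)| ≤ 2 max |η_i|`, `E e^{b max} ≤ ∑ E e^{b(|η_i(center)|+H)} ≤ (2(l+4))^d e^{C(b+b²)}`. Product over the independent levels: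
`E e^{b osc} ≤ exp(C(b+b²) log(l+2) + C log²(l+2))`; Chebyshev with `b = √l`, union over the `(2^{l+2}+1)^d` cells.) -/
theorem osc_log : ∃ (C : ℝ) (l0 : ℕ), 0 ≤ C ∧ ∀ l : ℕ, l0 ≤ l →
    E.P.real {ω | ∃ v : Fin d → ℤ, (∀ i, |v i| ≤ 2 ^ (l + 1)) ∧ ∃ x ∈ CBox (latt l v) (((l : ℝ) + 4) * dy l), ∃ y ∈ CBox (latt l v) (((l : ℝ) + 4) * dy l),
      C * Real.sqrt l * Real.log ((l : ℝ) + 2) < |E.hf 0 l ω x - E.hf 0 l ω y|} ≤ Real.exp (-(2 * l)) / 4 := by
  obtain ⟨CA, hCA, hA⟩ := E.A6b_small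
  obtain ⟨CB, hCB, hB⟩ := E.A6b_coarse
  set C2 : ℝ := 8 * CA + 36 * d + 18 * CB with hC2
  have hC20 : 0 ≤ C2 := by positivity
  have hξ := E.hξ
  refine ⟨E.ξ * (C2 + 4 * d + 4), 1, by positivity, fun l hl => ?_⟩
  have hl1 : (1 : ℝ) ≤ l := by exact_mod_cast hl
  set N : ℕ := l + 4 with hN
  have hNr : (N : ℝ) = l + 4 := by rw [hN]; push_cast; ring
  set j0 : ℕ := Nat.clog 2 N with hj0
  set Lg : ℝ := Real.log ((l : ℝ) + 2) with hLg
  set b : ℝ := Real.sqrt l with hb
  have hb0 : 0 ≤ b := Real.sqrt_nonneg _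
  have hb2 : b ^ 2 = l := Real.sq_sqrt (by linarith)
  have hbl : b ≤ l := by
    have h1 : 1 ≤ b := Real.one_le_sqrt.2 hl1
    nlinarith
  have hLg1 : 1 ≤ Lg := by
    rw [hLg, Real.le_log_iff_exp_le (by linarith)]
    have := Real.exp_one_lt_d9
    linarith
  have hLg2 : Lg ≤ 2 * l := by
    have := Real.log_le_sub_one_of_pos (show (0 : ℝ) < l + 2 by linarith)
    linarith
  have hlogN : Real.log N ≤ 2 * Lg := by
    have : 2 * Lg = Real.log (((l : ℝ) + 2) ^ 2) := by rw [Real.log_pow]; push_cast; rfl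
    rw [this, hNr]
    refine Real.log_le_log (by linarith) ?_
    nlinarith
  have hlogN' : Real.log (2 * N + 1) ≤ 3 * Lg := by
    have : 3 * Lg = Real.log (((l : ℝ) + 2) ^ 3) := by rw [Real.log_pow]; push_cast; rfl
    rw [this, hNr]
    refine Real.log_le_log (by linarith) ?_
    nlinarith [sq_nonneg (l : ℝ), mul_nonneg (show (0 : ℝ) ≤ l by linarith) (sq_nonneg (l : ℝ))]
  have hj0Lg : (j0 : ℝ) ≤ 4 * Lg := by
    have h1 : 2 ^ (j0 - 1) < N := Nat.pow_pred_clog_lt_self (b := 2) (x := N) (by norm_num) (by omega)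
    have h2 : ((2 : ℝ)) ^ (j0 - 1) ≤ N := by exact_mod_cast h1.le
    have h3 : ((j0 - 1 : ℕ) : ℝ) * Real.log 2 ≤ Real.log N := by
      rw [← Real.log_pow]
      exact Real.log_le_log (by positivity) h2
    have h4 : (j0 : ℝ) ≤ ((j0 - 1 : ℕ) : ℝ) + 1 := by
      have : j0 ≤ (j0 - 1) + 1 := by omega
      exact_mod_cast this
    have h5 := Real.log_two_gt_d9
    have h6 : (0 : ℝ) ≤ ((j0 - 1 : ℕ) : ℝ) := Nat.cast_nonneg _
    nlinarith
  set q : ℝ := (Real.sqrt 2)⁻¹ with hq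
  have hq0 : 0 ≤ q := by positivity
  have hq2 : q ^ 2 = 1 / 2 := by
    rw [hq, inv_pow, Real.sq_sqrt (by norm_num)]; norm_num
  set Bf : ℕ → ℝ := fun i => if i + j0 ≤ l then CA * (b + b ^ 2) * q ^ (l - j0 - i) else
    (d * Real.log (2 * N + 1) + CB * (1 + b + b ^ 2)) with hBf
  -- the variables
  have hG : ∀ (v : Fin d → ℤ) (i : ℕ), ∃ G : E.Ω → ℝ, Measurable[E.EE i] G ∧
      (∀ᵐ ω ∂E.P, i < l → ∀ y ∈ CBox (latt l v) (((l : ℝ) + 4) * dy l), ∀ z ∈ CBox (latt l v) (((l : ℝ) + 4) * dy l),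
        |E.η i ω y - E.η i ω z| ≤ G ω) ∧
      (i < l → ∫⁻ ω, ENNReal.ofReal (Real.exp (b * G ω)) ∂E.P ≤ ENNReal.ofReal (Real.exp (Bf i))) := by
    intro v i
    by_cases hil : i < l
    swap
    · exact ⟨fun _ => 0, measurable_const, Eventually.of_forall fun _ h => absurd h hil, fun h => absurd h hil⟩
    have hdyl : dy l = dy (l - i) * dy i := by
      rw [← dy_add]; congr 1; omega
    by_cases hij : i + j0 ≤ l
    · set ρ : ℝ := ((l : ℝ) + 4) * dy (l - i) with hρ
      have hρ0 : 0 ≤ ρ := mul_nonneg (by linarith) (dy_pos _).le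
      have hρm : ρ ≤ dy (l - j0 - i) := by
        have h1 : N ≤ 2 ^ j0 := Nat.le_pow_clog (by norm_num) N
        have h2 : ((l : ℝ) + 4) ≤ 2 ^ j0 := by
          rw [← hNr]; exact_mod_cast h1
        have h3 : dy (l - i) = dy j0 * dy (l - j0 - i) := by
          rw [← dy_add]; congr 1; omega
        calc ρ = ((l : ℝ) + 4) * (dy j0 * dy (l - j0 - i)) := by rw [hρ, h3]
          _ ≤ 2 ^ j0 * (dy j0 * dy (l - j0 - i)) :=
            mul_le_mul_of_nonneg_right h2 (mul_nonneg (dy_pos _).le (dy_pos _).le)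
          _ = (2 ^ j0 * dy j0) * dy (l - j0 - i) := by ring
          _ = dy (l - j0 - i) := by rw [two_pow_mul_dy, one_mul]
      have hsq : Real.sqrt ρ ≤ q ^ (l - j0 - i) := by
        refine Real.sqrt_le_iff.2 ⟨by positivity, ?_⟩
        refine hρm.trans (le_of_eq ?_)
        rw [← pow_mul, mul_comm, pow_mul, hq2]
        rfl
      obtain ⟨G, hGm, hGo, hGe⟩ := hA i (latt l v) ρ hρ0 (hρm.trans (dy_le_one _))
      refine ⟨G, hGm, ?_, fun _ => ?_⟩
      · filter_upwards [hGo] with ω hGoω _ y hy z hz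
        have he : ((l : ℝ) + 4) * dy l = ρ * dy i := by rw [hρ, hdyl]; ring
        rw [he] at hy hz
        exact hGoω y hy z hz
      · refine (hGe b hb0).trans (ENNReal.ofReal_le_ofReal (Real.exp_le_exp.2 ?_))
        simp only [hBf, if_pos hij]
        gcongr
    · obtain ⟨G, hGm, hGo, hGe⟩ := hB i (latt l v) N (((l : ℝ) + 4) * dy l) (by
        rw [hNr]
        exact mul_le_mul_of_nonneg_left (dy_anti hil.le) (by linarith))
      refine ⟨G, hGm, hGo.mono fun _ h _ => h, fun _ => ?_⟩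
      simp only [hBf, if_neg hij]
      exact hGe b hb0
  choose G hGm hGo hGe using hG
  -- the sum of the exponents
  have hsum : ∑ i ∈ Finset.range l, Bf i ≤ C2 * l * Lg := by
    have h1 : ∑ i ∈ Finset.range l, Bf i = ∑ i ∈ (Finset.range l).filter (fun i => i + j0 ≤ l), CA * (b + b ^ 2) * q ^ (l - j0 - i) +
        ∑ i ∈ (Finset.range l).filter (fun i => ¬ i + j0 ≤ l), (d * Real.log (2 * N + 1) + CB * (1 + b + b ^ 2)) := by
      rw [hBf, Finset.sum_ite]
    have h2 : ∑ i ∈ (Finset.range l).filter (fun i => i + j0 ≤ l), CA * (b + b ^ 2) * q ^ (l - j0 - i) ≤ CA * (b + b ^ 2) * 4 := by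
      rw [← Finset.mul_sum]
      refine mul_le_mul_of_nonneg_left ?_ (by positivity)
      have hsub : (Finset.range l).filter (fun i => i + j0 ≤ l) ⊆ Finset.range (l - j0 + 1) := by
        intro i hi
        rw [Finset.mem_filter] at hi
        rw [Finset.mem_range]
        omega
      refine (Finset.sum_le_sum_of_subset_of_nonneg hsub (fun _ _ _ => by positivity)).trans ?_
      have h3 := Finset.sum_range_reflect (fun m => q ^ m) (l - j0 + 1)
      have h4 : ∑ i ∈ Finset.range (l - j0 + 1), q ^ (l - j0 - i) = ∑ i ∈ Finset.range (l - j0 + 1), q ^ (l - j0 + 1 - 1 - i) := by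
        refine Finset.sum_congr rfl fun i _ => ?_
        congr 1
      rw [h4, h3]
      exact A6b_geom _
    have hK0 : 0 ≤ (d : ℝ) * Real.log (2 * N + 1) + CB * (1 + b + b ^ 2) := by
      have : 0 ≤ Real.log (2 * (N : ℝ) + 1) := Real.log_nonneg (by rw [hNr]; linarith)
      positivity
    have h5 : ∑ i ∈ (Finset.range l).filter (fun i => ¬ i + j0 ≤ l), (d * Real.log (2 * N + 1) + CB * (1 + b + b ^ 2)) ≤
        4 * Lg * (d * Real.log (2 * N + 1) + CB * (1 + b + b ^ 2)) := by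
      rw [Finset.sum_const, nsmul_eq_mul]
      refine mul_le_mul_of_nonneg_right ?_ hK0
      have hsub : (Finset.range l).filter (fun i => ¬ i + j0 ≤ l) ⊆ Finset.Ico (l - j0) l := by
        intro i hi
        rw [Finset.mem_filter, Finset.mem_range] at hi
        rw [Finset.mem_Ico]
        omega
      have hc := Finset.card_le_card hsub
      rw [Nat.card_Ico] at hc
      have hc' : ((Finset.range l).filter (fun i => ¬ i + j0 ≤ l)).card ≤ j0 := hc.trans (by omega)
      exact le_trans (by exact_mod_cast hc') hj0Lg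
    have h6 : (d : ℝ) * Real.log (2 * N + 1) + CB * (1 + b + b ^ 2) ≤ d * (3 * Lg) + CB * (3 * l) := by
      gcongr
      linarith
    have h7 : 4 * Lg * (d * Real.log (2 * N + 1) + CB * (1 + b + b ^ 2)) ≤ 4 * Lg * (d * (3 * Lg) + CB * (3 * l)) :=
      mul_le_mul_of_nonneg_left h6 (by linarith)
    have h8 : CA * (b + b ^ 2) * 4 ≤ 8 * CA * (l * Lg) := by
      have h9 : b + b ^ 2 ≤ 2 * (l * Lg) := by
        have : (l : ℝ) * 1 ≤ l * Lg := mul_le_mul_of_nonneg_left hLg1 (by linarith)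
        linarith
      nlinarith
    have h10 : Lg * Lg ≤ 2 * (l * Lg) := by nlinarith
    have hd0 : (0 : ℝ) ≤ d := Nat.cast_nonneg _
    have h11 : 0 ≤ (l : ℝ) * Lg := mul_nonneg (by linarith) (by linarith)
    rw [h1]
    have h12 : C2 * l * Lg = 8 * CA * (l * Lg) + 36 * d * (l * Lg) + 18 * CB * (l * Lg) := by rw [hC2]; ring
    rw [h12]
    have h13 : 4 * Lg * (d * (3 * Lg) + CB * (3 * l)) = 12 * d * (Lg * Lg) + 12 * CB * (l * Lg) := by ring
    have h14 : 12 * (d : ℝ) * (Lg * Lg) ≤ 12 * d * (2 * (l * Lg)) := mul_le_mul_of_nonneg_left h10 (by positivity)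
    have h15 : 0 ≤ (d : ℝ) * (l * Lg) := by positivity
    have h16 : 0 ≤ CB * (l * Lg) := by positivity
    linarith
  set t : ℝ := (C2 + 4 * d + 4) * b * Lg with ht
  have hbt : b * t = (C2 + 4 * d + 4) * l * Lg := by
    rw [ht, ← hb2]; ring
  -- the union
  set V : Finset (Fin d → ℤ) := Fintype.piFinset fun _ => Finset.Icc (-(2 ^ (l + 1) : ℤ)) (2 ^ (l + 1)) with hV
  have hVcard : (V.card : ℝ) ≤ Real.exp (4 * l * d) := by
    rw [hV, Fintype.card_piFinset_const]
    simp only [Int.card_Icc, Nat.cast_pow]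
    have h1 : ((2 ^ (l + 1) + 1 - -(2 ^ (l + 1)) : ℤ)).toNat ≤ 2 ^ (l + 3) := by
      have : (2 ^ (l + 1) + 1 - -(2 ^ (l + 1)) : ℤ) ≤ 2 ^ (l + 3) := by
        have h2 : (1 : ℤ) ≤ 2 ^ l := one_le_pow₀ (by norm_num)
        rw [pow_add, pow_add]
        norm_num
        linarith
      rw [Int.toNat_le]
      push_cast
      exact this
    have h2 : (((2 ^ (l + 1) + 1 - -(2 ^ (l + 1)) : ℤ)).toNat : ℝ) ≤ Real.exp (4 * l) := by
      calc (((2 ^ (l + 1) + 1 - -(2 ^ (l + 1)) : ℤ)).toNat : ℝ) ≤ 2 ^ (l + 3) := by exact_mod_cast h1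
        _ ≤ Real.exp 1 ^ (l + 3) := pow_le_pow_left₀ (by norm_num) (by
            have := Real.add_one_le_exp (1 : ℝ)
            linarith) _
        _ = Real.exp (l + 3) := by rw [← Real.exp_nat_mul]; push_cast; ring_nf
        _ ≤ Real.exp (4 * l) := Real.exp_le_exp.2 (by linarith)
    calc (((2 ^ (l + 1) + 1 - -(2 ^ (l + 1)) : ℤ)).toNat : ℝ) ^ d
        ≤ Real.exp (4 * l) ^ d := pow_le_pow_left₀ (Nat.cast_nonneg _) h2 _
      _ = Real.exp (4 * l * d) := by
          rw [← Real.exp_nat_mul]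
          congr 1
          ring
  have hsubset : {ω | ∃ v : Fin d → ℤ, (∀ i, |v i| ≤ 2 ^ (l + 1)) ∧ ∃ x ∈ CBox (latt l v) (((l : ℝ) + 4) * dy l), ∃ y ∈ CBox (latt l v) (((l : ℝ) + 4) * dy l),
      E.ξ * (C2 + 4 * d + 4) * Real.sqrt l * Real.log ((l : ℝ) + 2) < |E.hf 0 l ω x - E.hf 0 l ω y|} ≤ᵐ[E.P]
      (⋃ v ∈ V, {ω | t < ∑ i ∈ Finset.range l, G v i ω} : Set E.Ω) := by
    have hGo' : ∀ᵐ ω ∂E.P, ∀ v i, i < l → ∀ y ∈ CBox (latt l v) (((l : ℝ) + 4) * dy l), ∀ z ∈ CBox (latt l v) (((l : ℝ) + 4) * dy l),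
        |E.η i ω y - E.η i ω z| ≤ G v i ω := ae_all_iff.2 fun v => ae_all_iff.2 fun i => hGo v i
    filter_upwards [hGo'] with ω hGoω
    rintro ⟨v, hv, x, hx, y, hy, hxy⟩
    refine Set.mem_iUnion₂.2 ?_
    refine ⟨v, ?_, ?_⟩
    · rw [hV, Fintype.mem_piFinset]
      intro i
      rw [Finset.mem_Icc]
      exact abs_le.1 (hv i)
    · have h1 : |E.hf 0 l ω x - E.hf 0 l ω y| ≤ E.ξ * ∑ i ∈ Finset.range l, G v i ω := by
        have h2 : E.hf 0 l ω x - E.hf 0 l ω y = E.ξ * ∑ i ∈ Finset.range l, (E.η i ω x - E.η i ω y) := by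
          simp only [hf, hh]
          rw [← mul_sub, ← Finset.sum_sub_distrib, Finset.range_eq_Ico]
        rw [h2, abs_mul, abs_of_pos hξ]
        refine mul_le_mul_of_nonneg_left ?_ hξ.le
        refine (Finset.abs_sum_le_sum_abs _ _).trans ?_
        exact Finset.sum_le_sum fun i hi => hGoω v i (Finset.mem_range.1 hi) x hx y hy
      have h3 : E.ξ * t < E.ξ * ∑ i ∈ Finset.range l, G v i ω := by
        refine lt_of_eq_of_lt ?_ (hxy.trans_le h1)
        rw [ht]
        ring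
      exact lt_of_mul_lt_mul_left h3 hξ.le
  calc E.P.real {ω | ∃ v : Fin d → ℤ, (∀ i, |v i| ≤ 2 ^ (l + 1)) ∧ ∃ x ∈ CBox (latt l v) (((l : ℝ) + 4) * dy l), ∃ y ∈ CBox (latt l v) (((l : ℝ) + 4) * dy l),
      E.ξ * (C2 + 4 * d + 4) * Real.sqrt l * Real.log ((l : ℝ) + 2) < |E.hf 0 l ω x - E.hf 0 l ω y|}
      ≤ E.P.real (⋃ v ∈ V, {ω | t < ∑ i ∈ Finset.range l, G v i ω}) :=
        ENNReal.toReal_mono (measure_ne_top _ _) (measure_mono_ae hsubset)
    _ ≤ ∑ v ∈ V, E.P.real {ω | t < ∑ i ∈ Finset.range l, G v i ω} := measureReal_biUnion_finset_le _ _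
    _ ≤ ∑ v ∈ V, Real.exp (∑ i ∈ Finset.range l, Bf i - b * t) :=
        Finset.sum_le_sum fun v _ => E.A6b_chernoff (G v) (hGm v) l hb0 Bf (fun i hi => hGe v i hi) t
    _ = V.card * Real.exp (∑ i ∈ Finset.range l, Bf i - b * t) := by rw [Finset.sum_const, nsmul_eq_mul]
    _ ≤ Real.exp (4 * l * d) * Real.exp (-(4 * d + 4) * l) := by
        refine mul_le_mul hVcard (Real.exp_le_exp.2 ?_) (Real.exp_pos _).le (Real.exp_pos _).le
        rw [hbt]
        have h1 : (l : ℝ) * 1 ≤ l * Lg := mul_le_mul_of_nonneg_left hLg1 (by linarith)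
        have h2 : (4 * (d : ℝ) + 4) * (l * 1) ≤ (4 * d + 4) * (l * Lg) := mul_le_mul_of_nonneg_left h1 (by positivity)
        linarith
    _ = Real.exp (-(2 * l)) * Real.exp (-(2 * l)) := by
        rw [← Real.exp_add, ← Real.exp_add]
        congr 1
        ring
    _ ≤ Real.exp (-(2 * l)) * (1 / 4) := by
        refine mul_le_mul_of_nonneg_left ?_ (Real.exp_pos _).le
        have h1 : (4 : ℝ) ≤ Real.exp 2 := by
          have h2 := Real.exp_one_gt_d9
          have h3 : Real.exp 2 = Real.exp 1 * Real.exp 1 := by rw [← Real.exp_add]; norm_num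
          rw [h3]
          nlinarith
        have h2 : Real.exp 2 ≤ Real.exp (2 * l) := Real.exp_le_exp.2 (by linarith)
        rw [Real.exp_neg, one_div]
        exact inv_anti₀ (by norm_num) (h1.trans h2)
    _ = Real.exp (-(2 * l)) / 4 := by ring



end Env
end MP_d19698_pr
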