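import Pool.Agent.Lib.MP_d19698_pr.A6b

/-! # A6c -/

open MeasureTheory ProbabilityTheory Filter Topology Set
open scoped ENNReal NNReal

namespace MP_d19698_pr
namespace Env
variable {d : ℕ} [NeZero d] (E : Env d)

/-- bounds on a fixed number of levels and a fixed box -/
theorem abs_bound (J : ℕ) (r : ℝ) {ε : ℝ} (hε : 0 < ε) : ∃ M : ℝ, 0 ≤ M ∧
    E.P.real {ω | ∃ x ∈ CBox (0 : Rd d) r, M < |E.hf 0 J ω x|} ≤ ε := by
  obtain ⟨T, hTK, hTc, hKT⟩ := (TopologicalSpace.IsSeparable.of_separableSpace (CBox (0 : Rd d) r)).exists_countable_dense_subset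
  set A : ℕ → Set E.Ω := fun n => {ω | ∃ x ∈ CBox (0 : Rd d) r, (n : ℝ) < |E.hf 0 J ω x|} with hA
  have hAT : ∀ n, A n = ⋃ x ∈ T, {ω | (n : ℝ) < |E.hf 0 J ω x|} := by
    intro n
    ext ω
    simp only [hA, Set.mem_ofPred_eq, Set.mem_iUnion, exists_prop]
    constructor
    · rintro ⟨x, hx, hlt⟩
      have ho : IsOpen {y : Rd d | (n : ℝ) < |E.hf 0 J ω y|} :=
        isOpen_lt continuous_const (E.continuous_hf 0 J ω).abs
      obtain ⟨y, hy1, hy2⟩ := mem_closure_iff.mp (hKT hx) _ ho hlt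
      exact ⟨y, hy2, hy1⟩
    · rintro ⟨x, hx, hlt⟩
      exact ⟨x, hTK hx, hlt⟩
  have hmeas : ∀ n, MeasurableSet (A n) := by
    intro n
    rw [hAT]
    refine MeasurableSet.biUnion hTc fun x _ => ?_
    have h1 : Measurable (fun ω => |E.hf 0 J ω x|) := by
      have h2 : Measurable (fun ω => E.hf 0 J ω x) := (E.measurable_hh 0 J x).const_mul _
      exact h2.norm
    exact measurableSet_lt measurable_const h1
  have hanti : Antitone A := by
    intro n m hnm ω
    rintro ⟨x, hx, hlt⟩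
    refine ⟨x, hx, lt_of_le_of_lt ?_ hlt⟩
    exact_mod_cast hnm
  have hempty : ⋂ n, A n = ∅ := by
    rw [Set.eq_empty_iff_forall_notMem]
    intro ω hω
    rw [Set.mem_iInter] at hω
    obtain ⟨M, hM⟩ := (isCompact_CBox (0 : Rd d) r).exists_bound_of_continuousOn (E.continuous_hf 0 J ω).continuousOn
    obtain ⟨n, hn⟩ := exists_nat_ge M
    obtain ⟨x, hx, hlt⟩ := hω n
    have := hM x hx
    rw [Real.norm_eq_abs] at this
    linarith
  have htend := tendsto_measure_iInter_atTop (μ := E.P) (s := A) (fun n => (hmeas n).nullMeasurableSet) hanti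
    ⟨0, measure_ne_top _ _⟩
  rw [hempty, measure_empty] at htend
  have h1 : ∀ᶠ n in atTop, E.P (A n) < ENNReal.ofReal ε :=
    (tendsto_order.1 htend).2 _ (ENNReal.ofReal_pos.mpr hε)
  obtain ⟨n, hn⟩ := h1.exists
  refine ⟨n, Nat.cast_nonneg n, ?_⟩
  have h2 : E.P (A n) ≤ ENNReal.ofReal ε := hn.le
  exact ENNReal.toReal_le_of_le_ofReal hε.le h2

omit [NeZero d] in
/-- box inclusion at finer scales -/
theorem A6c_CBox_mono {x : Rd d} {r r' : ℝ} (h : r ≤ r') : CBox x r ⊆ CBox x r' :=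
  fun _ hy i => (hy i).trans h

/-- (t1) For every `R` there is `K` such that for all large `k` and all `x`: the number of `j ≤ k` for which `ξ h_{0,j}` oscillates by more than `K` on `CBox x (R 2^{-j})` is at least
`k/32` only with probability `≤ 2^{-4dk}`. (`osc` at scale `j` is at most `ξ∑_{i<j} C_R 2^{-(j-i)/2} H_{i,x}` (Hölder constants on `CBox x (R 2^{-i})`), so the sum over `j ≤ k` is at most
`C ∑_{i<k} H_{i,x}`, whose exponential moment is `≤ e^{Ck}`; Chebyshev with `K` large.) -/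
theorem osc_count {R : ℝ} (hR : 0 < R) : ∃ (K : ℝ) (k0 : ℕ), 0 ≤ K ∧ ∀ k : ℕ, k0 ≤ k → ∀ x : Rd d,
    E.P.real {ω | ∃ S : Finset ℕ, (∀ j ∈ S, j ≤ k ∧ ∃ y ∈ CBox x (R * dy j), ∃ z ∈ CBox x (R * dy j), K < |E.hf 0 j ω y - E.hf 0 j ω z|) ∧
      k ≤ 32 * S.card} ≤ dy k ^ (4 * d) := by
  obtain ⟨C, hC, hol⟩ := E.holder_const hR
  set c : ℝ := Real.sqrt (2 * Real.sqrt d * R) with hc
  have hc0 : 0 ≤ c := Real.sqrt_nonneg _
  set q : ℝ := Real.sqrt (1 / 2) with hq
  have hq0 : 0 ≤ q := Real.sqrt_nonneg _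
  have hqq : q * q = 1 / 2 := Real.mul_self_sqrt (by norm_num)
  have hq34 : q ≤ 3 / 4 := by
    by_contra hcon
    push Not at hcon
    nlinarith
  set L : ℝ := E.ξ * c * 4 with hL
  have hL0 : 0 ≤ L := by have := E.hξ; positivity
  set G : ℝ := 2 * C + 4 * d with hG
  have hG0 : 0 ≤ G := by positivity
  refine ⟨32 * L * G, 1, by positivity, fun k hk x => ?_⟩
  choose H hHmeas hHpos hHolae hHexp using fun i : ℕ => hol i x
  have hHm : ∀ i, Measurable (H i) := fun i => (hHmeas i).mono (E.EE_le i) le_rfl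
  -- oscillation at scale j
  have hosc : ∀ ω : E.Ω, (∀ i : ℕ, ∀ y ∈ CBox x (R * dy i), ∀ z ∈ CBox x (R * dy i), |E.η i ω y - E.η i ω z| ≤ H i ω * Real.sqrt (2 ^ i * ‖y - z‖)) →
      ∀ j : ℕ, ∀ y ∈ CBox x (R * dy j), ∀ z ∈ CBox x (R * dy j),
      |E.hf 0 j ω y - E.hf 0 j ω z| ≤ E.ξ * c * ∑ i ∈ Finset.range j, q ^ (j - i) * H i ω := by
    intro ω hHol j y hy z hz
    have hyz : ‖y - z‖ ≤ 2 * Real.sqrt d * R * dy j := by
      have hdj : 0 ≤ R * dy j := mul_nonneg hR.le (by rw [dy]; positivity)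
      have h1 := norm_le_of_mem_CBox hdj hy
      have h2 := norm_le_of_mem_CBox hdj hz
      calc ‖y - z‖ = ‖(y - x) - (z - x)‖ := by congr 1; abel
        _ ≤ ‖y - x‖ + ‖z - x‖ := norm_sub_le _ _
        _ ≤ 2 * Real.sqrt d * R * dy j := by linarith
    have h3 : E.hf 0 j ω y - E.hf 0 j ω z = E.ξ * ∑ i ∈ Finset.range j, (E.η i ω y - E.η i ω z) := by
      unfold hf hh
      rw [← mul_sub, ← Finset.sum_sub_distrib, Finset.range_eq_Ico]
    rw [h3, abs_mul, abs_of_pos E.hξ, mul_assoc]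
    refine mul_le_mul_of_nonneg_left ?_ E.hξ.le
    refine (Finset.abs_sum_le_sum_abs _ _).trans ?_
    rw [Finset.mul_sum]
    refine Finset.sum_le_sum fun i hi => ?_
    rw [Finset.mem_range] at hi
    have hsub : R * dy j ≤ R * dy i := by
      refine mul_le_mul_of_nonneg_left ?_ hR.le
      rw [dy, dy]
      exact pow_le_pow_of_le_one (by norm_num) (by norm_num) hi.le
    refine (hHol i y (A6c_CBox_mono hsub hy) z (A6c_CBox_mono hsub hz)).trans ?_
    have h4 : Real.sqrt (2 ^ i * ‖y - z‖) ≤ c * q ^ (j - i) := by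
      have h5 : c * q ^ (j - i) = Real.sqrt (2 * Real.sqrt d * R * (1 / 2) ^ (j - i)) := by
        have h6 : ((1 / 2 : ℝ)) ^ (j - i) = (q ^ (j - i)) ^ 2 := by
          rw [← pow_mul, mul_comm, pow_mul, sq, hqq]
        rw [h6, Real.sqrt_mul (by positivity), Real.sqrt_sq (pow_nonneg hq0 _), hc]
      rw [h5]
      apply Real.sqrt_le_sqrt
      calc (2 : ℝ) ^ i * ‖y - z‖ ≤ 2 ^ i * (2 * Real.sqrt d * R * dy j) := mul_le_mul_of_nonneg_left hyz (by positivity)
        _ = 2 * Real.sqrt d * R * (2 ^ i * dy j) := by ring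
        _ = 2 * Real.sqrt d * R * (1 / 2) ^ (j - i) := by
          congr 1
          rw [dy]
          obtain ⟨t, rfl⟩ : ∃ t, j = i + t := ⟨j - i, by omega⟩
          rw [pow_add, Nat.add_sub_cancel_left, ← mul_assoc, ← mul_pow]
          norm_num
    calc H i ω * Real.sqrt (2 ^ i * ‖y - z‖) ≤ H i ω * (c * q ^ (j - i)) := mul_le_mul_of_nonneg_left h4 (hHpos i ω)
      _ = c * (q ^ (j - i) * H i ω) := by ring
  -- summation over the scales
  have hsum : ∀ ω, ∑ j ∈ Finset.range (k + 1), ∑ i ∈ Finset.range j, q ^ (j - i) * H i ω ≤ 4 * ∑ i ∈ Finset.range k, H i ω := by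
    intro ω
    have h1 : ∑ j ∈ Finset.range (k + 1), ∑ i ∈ Finset.range j, q ^ (j - i) * H i ω
        = ∑ i ∈ Finset.range k, ∑ j ∈ Finset.Ico (i + 1) (k + 1), q ^ (j - i) * H i ω := by
      apply Finset.sum_comm'
      intro a b
      simp only [Finset.mem_range, Finset.mem_Ico]
      omega
    rw [h1, Finset.mul_sum]
    refine Finset.sum_le_sum fun i hi => ?_
    rw [← Finset.sum_mul]
    refine mul_le_mul_of_nonneg_right ?_ (hHpos i ω)
    have h2 : ∑ j ∈ Finset.Ico (i + 1) (k + 1), q ^ (j - i) = ∑ t ∈ Finset.range (k - i), q * q ^ t := by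
      rw [Finset.sum_Ico_eq_sum_range]
      have : k + 1 - (i + 1) = k - i := by omega
      rw [this]
      refine Finset.sum_congr rfl fun t _ => ?_
      have : i + 1 + t - i = t + 1 := by omega
      rw [this, pow_succ, mul_comm]
    rw [h2, ← Finset.mul_sum]
    have h3 : (∑ t ∈ Finset.range (k - i), q ^ t) * (1 - q) = 1 - q ^ (k - i) := by
      have := geom_sum_mul_neg q (k - i)
      exact this
    have h4 : 0 ≤ q ^ (k - i) := pow_nonneg hq0 _
    have h5 : 0 ≤ ∑ t ∈ Finset.range (k - i), q ^ t := Finset.sum_nonneg fun t _ => pow_nonneg hq0 _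
    have h6 : (∑ t ∈ Finset.range (k - i), q ^ t) ≤ 4 := by nlinarith
    nlinarith
  -- the inclusion of the events
  have hsub : {ω | ∃ S : Finset ℕ, (∀ j ∈ S, j ≤ k ∧ ∃ y ∈ CBox x (R * dy j), ∃ z ∈ CBox x (R * dy j), 32 * L * G < |E.hf 0 j ω y - E.hf 0 j ω z|) ∧
      k ≤ 32 * S.card} ≤ᵐ[E.P] {ω | G * k ≤ ∑ i ∈ Finset.range k, H i ω} := by
    filter_upwards [ae_all_iff.mpr hHolae] with ω hω
    rintro ⟨S, hS, hcard⟩
    show G * k ≤ ∑ i ∈ Finset.range k, H i ω
    have hSne : S.Nonempty := by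
      rw [← Finset.card_pos]; omega
    have hSk : S ⊆ Finset.range (k + 1) := by
      intro j hj
      rw [Finset.mem_range]
      have := (hS j hj).1
      omega
    have h1 : ∀ j ∈ S, 32 * L * G < E.ξ * c * ∑ i ∈ Finset.range j, q ^ (j - i) * H i ω := by
      intro j hj
      obtain ⟨_, y, hy, z, hz, hlt⟩ := hS j hj
      exact hlt.trans_le (hosc ω hω j y hy z hz)
    have h2 : (S.card : ℝ) * (32 * L * G) < ∑ j ∈ S, E.ξ * c * ∑ i ∈ Finset.range j, q ^ (j - i) * H i ω := by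
      rw [← nsmul_eq_mul, ← Finset.sum_const]
      exact Finset.sum_lt_sum_of_nonempty hSne h1
    have h3 : ∑ j ∈ S, E.ξ * c * ∑ i ∈ Finset.range j, q ^ (j - i) * H i ω ≤ L * ∑ i ∈ Finset.range k, H i ω := by
      rw [← Finset.mul_sum]
      have h4 : ∑ j ∈ S, ∑ i ∈ Finset.range j, q ^ (j - i) * H i ω ≤ ∑ j ∈ Finset.range (k + 1), ∑ i ∈ Finset.range j, q ^ (j - i) * H i ω :=
        Finset.sum_le_sum_of_subset_of_nonneg hSk fun j _ _ =>
          Finset.sum_nonneg fun i _ => mul_nonneg (pow_nonneg hq0 _) (hHpos i ω)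
      have h5 : 0 ≤ E.ξ * c := mul_nonneg E.hξ.le hc0
      calc E.ξ * c * ∑ j ∈ S, ∑ i ∈ Finset.range j, q ^ (j - i) * H i ω
          ≤ E.ξ * c * (4 * ∑ i ∈ Finset.range k, H i ω) := mul_le_mul_of_nonneg_left (h4.trans (hsum ω)) h5
        _ = L * ∑ i ∈ Finset.range k, H i ω := by rw [hL]; ring
    have h4 : (k : ℝ) ≤ 32 * (S.card : ℝ) := by exact_mod_cast hcard
    have h5 : L * (G * k) < L * ∑ i ∈ Finset.range k, H i ω := by
      calc L * (G * k) ≤ L * (G * (32 * (S.card : ℝ))) := by gcongr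
        _ = (S.card : ℝ) * (32 * L * G) := by ring
        _ < _ := h2.trans_le h3
    exact (lt_of_mul_lt_mul_left h5 hL0).le
  -- exponential moment
  have hind : iIndepFun (fun i ω => ENNReal.ofReal (Real.exp (H i ω))) E.P := by
    rw [iIndepFun_iff_iIndep]
    refine iIndep_of_iIndep_of_le E.iIndep_EE fun i => ?_
    have h1 : Measurable[E.EE i] (fun ω => ENNReal.ofReal (Real.exp (H i ω))) :=
      ENNReal.measurable_ofReal.comp (Real.measurable_exp.comp (hHmeas i))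
    exact h1.comap_le
  have hmom : ∫⁻ ω, ENNReal.ofReal (Real.exp (1 * ∑ i ∈ Finset.range k, H i ω)) ∂E.P ≤ ENNReal.ofReal (Real.exp (2 * C * k)) := by
    have h1 : ∀ ω, ENNReal.ofReal (Real.exp (1 * ∑ i ∈ Finset.range k, H i ω)) = ∏ i ∈ Finset.range k, ENNReal.ofReal (Real.exp (H i ω)) := by
      intro ω
      rw [one_mul, Real.exp_sum, ENNReal.ofReal_prod_of_nonneg fun i _ => (Real.exp_pos _).le]
    simp only [h1]
    rw [lintegral_prod_eq_prod_lintegral_of_indepFun _ _ hind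
      (fun i => ENNReal.measurable_ofReal.comp (Real.measurable_exp.comp (hHm i)))]
    calc ∏ i ∈ Finset.range k, ∫⁻ ω, ENNReal.ofReal (Real.exp (H i ω)) ∂E.P
        ≤ ∏ i ∈ Finset.range k, ENNReal.ofReal (Real.exp (2 * C)) := by
          refine Finset.prod_le_prod' fun i _ => ?_
          have h2 := hHexp i 1 zero_le_one
          simp only [one_mul] at h2
          have h3 : C * (1 + 1 ^ 2) = 2 * C := by ring
          rw [h3] at h2
          exact h2
      _ = ENNReal.ofReal (Real.exp (2 * C * k)) := by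
          rw [Finset.prod_const, Finset.card_range, ← ENNReal.ofReal_pow (Real.exp_pos _).le, ← Real.exp_nat_mul, mul_comm (k : ℝ)]
  have hmark := A6a_markov E.P (om := fun ω => ∑ i ∈ Finset.range k, H i ω) (t := G * k)
    (Finset.measurable_sum _ fun i _ => hHm i) zero_le_one hmom (Real.exp_pos _).le
  calc E.P.real _ ≤ E.P.real {ω | G * k ≤ ∑ i ∈ Finset.range k, H i ω} :=
        ENNReal.toReal_mono (measure_ne_top _ _) (measure_mono_ae hsub)
    _ ≤ Real.exp (2 * C * k) * Real.exp (-(1 * (G * k))) := hmark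
    _ = Real.exp (-(k * (4 * d))) := by rw [← Real.exp_add]; congr 1; rw [hG]; ring
    _ ≤ dy k ^ (4 * d) := by
      rw [dy, ← pow_mul]
      have h1 : Real.exp (-1) ≤ 1 / 2 := by
        rw [Real.exp_neg]
        have := Real.add_one_le_exp (1 : ℝ)
        rw [one_div]
        exact inv_anti₀ (by norm_num) (by linarith)
      calc Real.exp (-(k * (4 * d))) = Real.exp (-1) ^ (k * (4 * d)) := by
            rw [← Real.exp_nat_mul]; congr 1; push_cast; ring
        _ ≤ (1 / 2 : ℝ) ^ (k * (4 * d)) := pow_le_pow_left₀ (Real.exp_pos _).le h1 _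

end Env

end MP_d19698_pr
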