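import Pool.Agent.Lib.MP_d19698_pr.B3

/-!
# B5: lattice cells visited by a curve
-/

open MeasureTheory ProbabilityTheory Filter Topology Set
open scoped ENNReal NNReal

namespace MP_d19698_pr

variable {d : ℕ}

/-- the cell of `v` at level `l` is `CBox (latt l v) (dy l / 2)`; `visit l S` is the set of cells met by `S`. -/
def visit (l : ℕ) (S : Set (Rd d)) : Set (Fin d → ℤ) := {v | (S ∩ CBox (latt l v) (dy l / 2)).Nonempty}

/-- `V` is `*`-connected: any two points are joined by a chain in `V` with sup-norm steps `≤ 1`. -/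
def StarConn (V : Set (Fin d → ℤ)) : Prop :=
  ∀ v ∈ V, ∀ w ∈ V, Relation.ReflTransGen (fun a b => b ∈ V ∧ ∀ i, |a i - b i| ≤ 1) v w

@[simp] theorem latt_apply (l : ℕ) (v : Fin d → ℤ) (i : Fin d) : latt l v i = dy l * (v i : ℝ) := rfl

theorem dy_pos (l : ℕ) : 0 < dy l := by unfold dy; positivity

theorem dy_add (l m : ℕ) : dy (l + m) = dy l * dy m := by unfold dy; rw [pow_add]

theorem dy_succ (l : ℕ) : dy (l + 1) = dy l / 2 := by unfold dy; rw [pow_succ]; ring

theorem dy_zero : dy 0 = 1 := by simp [dy]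

theorem two_pow_mul_dy (l : ℕ) : (2 : ℝ) ^ l * dy l = 1 := by
  unfold dy; rw [← mul_pow]; norm_num

theorem dy_anti {l m : ℕ} (h : l ≤ m) : dy m ≤ dy l := by
  unfold dy; exact pow_le_pow_of_le_one (by norm_num) (by norm_num) h

theorem dy_le_one (l : ℕ) : dy l ≤ 1 := by
  unfold dy; exact pow_le_one₀ (by norm_num) (by norm_num)

theorem dy_eq_rpow (l : ℕ) : dy l = (2 : ℝ) ^ (-(l : ℝ)) := by
  rw [Real.rpow_neg (by norm_num), Real.rpow_natCast]; unfold dy; rw [one_div, inv_pow]

theorem visit_finite (l : ℕ) {S : Set (Rd d)} (hS : Bornology.IsBounded S) : (visit l S).Finite := by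
  obtain ⟨R, hR⟩ := hS.exists_norm_le
  have hdy := dy_pos l
  set N : ℤ := ⌈(R + dy l / 2) / dy l⌉ with hN
  refine Set.Finite.subset (Set.finite_Icc (fun _ : Fin d => -N) (fun _ => N)) ?_
  rintro v ⟨p, hpS, hp⟩
  have key : ∀ i, |(v i : ℝ)| ≤ (N : ℝ) := by
    intro i
    have h1 : |p i| ≤ R := (abs_le_norm p i).trans (hR p hpS)
    have h2 : |p i - dy l * (v i : ℝ)| ≤ dy l / 2 := hp i
    have h3 : |dy l * (v i : ℝ)| ≤ R + dy l / 2 := by
      calc |dy l * (v i : ℝ)| = |p i - (p i - dy l * (v i : ℝ))| := by congr 1; ring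
        _ ≤ |p i| + |p i - dy l * (v i : ℝ)| := abs_sub _ _
        _ ≤ R + dy l / 2 := add_le_add h1 h2
    rw [abs_mul, abs_of_pos hdy] at h3
    have h4 : |(v i : ℝ)| ≤ (R + dy l / 2) / dy l := by
      rw [le_div_iff₀ hdy]; linarith
    exact h4.trans (Int.le_ceil _)
  rw [Set.mem_Icc]
  constructor
  · intro i
    have h := (abs_le.1 (key i)).1
    show -N ≤ v i
    exact_mod_cast h
  · intro i
    have h := (abs_le.1 (key i)).2
    show v i ≤ N
    exact_mod_cast h

/-- every point of `S` is in a visited cell (nearest lattice point) -/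
theorem exists_visit (l : ℕ) (p : Rd d) : ∃ v : Fin d → ℤ, p ∈ CBox (latt l v) (dy l / 2) := by
  have hdy := dy_pos l
  refine ⟨fun i => round (p i / dy l), fun i => ?_⟩
  rw [latt_apply]
  have h := abs_sub_round (p i / dy l)
  have e : p i - dy l * (round (p i / dy l) : ℝ) = dy l * (p i / dy l - round (p i / dy l)) := by
    rw [mul_sub, mul_div_cancel₀ _ hdy.ne']
  rw [e, abs_mul, abs_of_pos hdy]
  calc dy l * |p i / dy l - round (p i / dy l)| ≤ dy l * (1 / 2) :=
        mul_le_mul_of_nonneg_left h hdy.le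
    _ = dy l / 2 := by ring

/-- two cells with a common point are `*`-adjacent -/
private lemma B5_adj {l : ℕ} {v w : Fin d → ℤ} {p : Rd d} (hv : p ∈ CBox (latt l v) (dy l / 2))
    (hw : p ∈ CBox (latt l w) (dy l / 2)) (i : Fin d) : |v i - w i| ≤ 1 := by
  have hdy := dy_pos l
  have h1 : |p i - dy l * (v i : ℝ)| ≤ dy l / 2 := hv i
  have h2 : |p i - dy l * (w i : ℝ)| ≤ dy l / 2 := hw i
  have h3 : |dy l * ((v i : ℝ) - (w i : ℝ))| ≤ dy l := by
    calc |dy l * ((v i : ℝ) - (w i : ℝ))|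
        = |(p i - dy l * (w i : ℝ)) - (p i - dy l * (v i : ℝ))| := by congr 1; ring
      _ ≤ |p i - dy l * (w i : ℝ)| + |p i - dy l * (v i : ℝ)| := abs_sub _ _
      _ ≤ dy l / 2 + dy l / 2 := add_le_add h2 h1
      _ = dy l := by ring
  rw [abs_mul, abs_of_pos hdy] at h3
  have h4 : |(v i : ℝ) - (w i : ℝ)| ≤ 1 := by
    by_contra hcon
    push Not at hcon
    nlinarith
  exact_mod_cast h4

/-- cells visited by a connected set are `*`-connected. Proof: if not, the union of the cells `v ∈ visit l S` reachable from `v0` and the union of the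
other visited cells are finite unions of closed sets (for bounded `S`), they cover `S`, both meet `S`; two cells which intersect are
`*`-adjacent, so they are disjoint; contradiction to `IsPreconnected`. -/
theorem visit_starConn (l : ℕ) {S : Set (Rd d)} (hb : Bornology.IsBounded S) (hS : IsPreconnected S) : StarConn (visit l S) := by
  intro v0 hv0 w0 hw0
  by_contra hcon
  set rel : (Fin d → ℤ) → (Fin d → ℤ) → Prop := fun a b => b ∈ visit l S ∧ ∀ i, |a i - b i| ≤ 1
    with hrel
  set R : Set (Fin d → ℤ) := {w | w ∈ visit l S ∧ Relation.ReflTransGen rel v0 w} with hR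
  have hfin := visit_finite l hb
  have hRfin : R.Finite := hfin.subset fun w hw => hw.1
  have hRcfin : (visit l S \ R).Finite := hfin.subset fun w hw => hw.1
  set A : Set (Rd d) := ⋃ v ∈ R, CBox (latt l v) (dy l / 2) with hA
  set B : Set (Rd d) := ⋃ v ∈ visit l S \ R, CBox (latt l v) (dy l / 2) with hB
  have hAcl : IsClosed A := hRfin.isClosed_biUnion fun v _ => isClosed_CBox _ _
  have hBcl : IsClosed B := hRcfin.isClosed_biUnion fun v _ => isClosed_CBox _ _
  have hcov : S ⊆ A ∪ B := by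
    intro p hp
    obtain ⟨v, hv⟩ := exists_visit l p
    have hvis : v ∈ visit l S := ⟨p, hp, hv⟩
    by_cases h : v ∈ R
    · exact Or.inl (mem_biUnion h hv)
    · exact Or.inr (mem_biUnion (show v ∈ visit l S \ R from ⟨hvis, h⟩) hv)
  have hSA : (S ∩ A).Nonempty := by
    obtain ⟨p, hp, hpv⟩ := hv0
    exact ⟨p, hp, mem_biUnion (show v0 ∈ R from ⟨⟨p, hp, hpv⟩, Relation.ReflTransGen.refl⟩) hpv⟩
  have hSB : (S ∩ B).Nonempty := by
    obtain ⟨p, hp, hpv⟩ := hw0
    refine ⟨p, hp, mem_biUnion (show w0 ∈ visit l S \ R from ⟨⟨p, hp, hpv⟩, ?_⟩) hpv⟩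
    intro h
    exact hcon h.2
  obtain ⟨p, -, hpA, hpB⟩ := isPreconnected_closed_iff.1 hS A B hAcl hBcl hcov hSA hSB
  obtain ⟨v, hvR, hpv⟩ := mem_iUnion₂.1 hpA
  obtain ⟨w, hwR, hpw⟩ := mem_iUnion₂.1 hpB
  refine hwR.2 ⟨hwR.1, hvR.2.tail ⟨hwR.1, fun i => B5_adj hpv hpw i⟩⟩

/-- if two cells contain `p` and `q` then `|v_i - w_i| ≥ 2^l |p_i - q_i| - 1`. -/
theorem cell_dist {l : ℕ} {v w : Fin d → ℤ} {p q : Rd d} (hp : p ∈ CBox (latt l v) (dy l / 2))
    (hq : q ∈ CBox (latt l w) (dy l / 2)) (i : Fin d) :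
    (2 : ℝ) ^ l * |p i - q i| - 1 ≤ |((v i - w i : ℤ) : ℝ)| := by
  have hdy := dy_pos l
  have h1 : |p i - dy l * (v i : ℝ)| ≤ dy l / 2 := hp i
  have h2 : |q i - dy l * (w i : ℝ)| ≤ dy l / 2 := hq i
  have h3 : |p i - q i| ≤ dy l + dy l * |(v i : ℝ) - w i| := by
    have e : p i - q i = (p i - dy l * (v i : ℝ)) + dy l * ((v i : ℝ) - w i)
        - (q i - dy l * (w i : ℝ)) := by ring
    rw [e]
    calc |(p i - dy l * (v i : ℝ)) + dy l * ((v i : ℝ) - w i) - (q i - dy l * (w i : ℝ))|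
        ≤ |(p i - dy l * (v i : ℝ)) + dy l * ((v i : ℝ) - w i)| + |q i - dy l * (w i : ℝ)| :=
          abs_sub _ _
      _ ≤ |p i - dy l * (v i : ℝ)| + |dy l * ((v i : ℝ) - w i)| + |q i - dy l * (w i : ℝ)| :=
          add_le_add (abs_add_le _ _) le_rfl
      _ ≤ dy l / 2 + dy l * |(v i : ℝ) - w i| + dy l / 2 := by
          rw [abs_mul, abs_of_pos hdy]
          exact add_le_add (add_le_add h1 le_rfl) h2
      _ = dy l + dy l * |(v i : ℝ) - w i| := by ring
  have h4 := two_pow_mul_dy l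
  have h5 : (2 : ℝ) ^ l * |p i - q i| ≤ (2 : ℝ) ^ l * (dy l + dy l * |(v i : ℝ) - w i|) :=
    mul_le_mul_of_nonneg_left h3 (by positivity)
  have h6 : (2 : ℝ) ^ l * (dy l + dy l * |(v i : ℝ) - w i|) = 1 + |(v i : ℝ) - w i| := by
    calc (2 : ℝ) ^ l * (dy l + dy l * |(v i : ℝ) - w i|)
        = ((2 : ℝ) ^ l * dy l) * (1 + |(v i : ℝ) - w i|) := by ring
      _ = 1 + |(v i : ℝ) - w i| := by rw [h4, one_mul]
  push_cast
  linarith

/-- at most `4^d` enlarged cells contain a given point -/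
private lemma B5_count (l : ℕ) (p : Rd d) (V : Finset (Fin d → ℤ))
    (hV : ∀ v ∈ V, p ∈ CBox (latt l v) (3 / 2 * dy l)) : V.card ≤ 4 ^ d := by
  classical
  have hdy := dy_pos l
  have hsub : V ⊆ Fintype.piFinset fun i : Fin d =>
      Finset.Icc ⌈p i / dy l - 3 / 2⌉ ⌊p i / dy l + 3 / 2⌋ := by
    intro v hv
    rw [Fintype.mem_piFinset]
    intro i
    have h1 : |p i - dy l * (v i : ℝ)| ≤ 3 / 2 * dy l := hV v hv i
    obtain ⟨h2, h3⟩ := abs_le.1 h1
    rw [Finset.mem_Icc, Int.ceil_le, Int.le_floor]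
    have e : p i = dy l * (p i / dy l) := by rw [mul_div_cancel₀ _ hdy.ne']
    constructor
    · by_contra hcon
      push Not at hcon
      have : dy l * (v i : ℝ) < dy l * (p i / dy l - 3 / 2) := mul_lt_mul_of_pos_left hcon hdy
      rw [mul_sub, ← e] at this
      linarith
    · by_contra hcon
      push Not at hcon
      have : dy l * (p i / dy l + 3 / 2) < dy l * (v i : ℝ) := mul_lt_mul_of_pos_left hcon hdy
      rw [mul_add, ← e] at this
      linarith
  refine (Finset.card_le_card hsub).trans ?_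
  rw [Fintype.card_piFinset]
  calc ∏ i : Fin d, (Finset.Icc ⌈p i / dy l - 3 / 2⌉ ⌊p i / dy l + 3 / 2⌋).card
      ≤ ∏ _i : Fin d, 4 := by
        apply Finset.prod_le_prod' fun i _ => ?_
        rw [Int.card_Icc]
        have h1 : (⌊p i / dy l + 3 / 2⌋ : ℝ) ≤ p i / dy l + 3 / 2 := Int.floor_le _
        have h2 : p i / dy l - 3 / 2 ≤ (⌈p i / dy l - 3 / 2⌉ : ℝ) := Int.le_ceil _
        have h3 : (⌊p i / dy l + 3 / 2⌋ : ℝ) - (⌈p i / dy l - 3 / 2⌉ : ℝ) ≤ 3 := by linarith
        have h4 : ⌊p i / dy l + 3 / 2⌋ - ⌈p i / dy l - 3 / 2⌉ ≤ 3 := by exact_mod_cast h3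
        omega
    _ = 4 ^ d := by simp

/-- bounded overlap of the enlarged cells: `∑_{v ∈ V} len(c ∩ CBox(latt l v, 3/2 dy l)) ≤ 4^d len(c)`.
(For every `p` there are at most `4^d` lattice points `v` with `|p - latt l v| ≤ 3/2 dy l`; write the sum of set integrals as the integral of
the sum of indicators.) -/
theorem sum_len_le (l : ℕ) (f : Rd d → ℝ) (c : Curve d) (V : Finset (Fin d → ℤ)) :
    ∑ v ∈ V, c.len f (CBox (latt l v) (3 / 2 * dy l)) ≤ 4 ^ d * c.len f univ := by
  classical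
  set E : (Fin d → ℤ) → Set ℝ := fun v =>
    Icc c.a c.b ∩ c.fn ⁻¹' CBox (latt l v) (3 / 2 * dy l) with hE
  have hEm : ∀ v, MeasurableSet (E v) := fun v =>
    c.measurableSet_preimage (isClosed_CBox _ _).measurableSet
  have hle : ∑ v ∈ V, (volume : Measure ℝ).restrict (E v) ≤
      (4 ^ d : ℝ≥0∞) • (volume : Measure ℝ).restrict (Icc c.a c.b ∩ c.fn ⁻¹' univ) := by
    rw [Measure.le_iff]
    intro s hs
    rw [Measure.finsetSum_apply, Measure.smul_apply, Measure.restrict_apply hs, preimage_univ,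
      inter_univ, smul_eq_mul]
    calc ∑ v ∈ V, (volume : Measure ℝ).restrict (E v) s
        = ∑ v ∈ V, ∫⁻ t, (s ∩ E v).indicator 1 t := by
          refine Finset.sum_congr rfl fun v _ => ?_
          rw [Measure.restrict_apply hs, lintegral_indicator_one (hs.inter (hEm v))]
      _ = ∫⁻ t, ∑ v ∈ V, (s ∩ E v).indicator 1 t := by
          rw [lintegral_finsetSum]
          intro v _
          exact measurable_one.indicator (hs.inter (hEm v))
      _ ≤ ∫⁻ t, 4 ^ d * (s ∩ Icc c.a c.b).indicator 1 t := by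
          refine lintegral_mono fun t => ?_
          by_cases ht : t ∈ s ∩ Icc c.a c.b
          · rw [indicator_of_mem ht, Pi.one_apply, mul_one]
            have h1 : ∑ v ∈ V, (s ∩ E v).indicator (1 : ℝ → ℝ≥0∞) t =
                ((V.filter fun v => t ∈ s ∩ E v).card : ℝ≥0∞) := by
              rw [Finset.card_filter]
              push_cast
              refine Finset.sum_congr rfl fun v _ => ?_
              by_cases h : t ∈ s ∩ E v
              · rw [indicator_of_mem h, if_pos h, Pi.one_apply]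
              · rw [indicator_of_notMem h, if_neg h]
            rw [h1]
            have h2 : (V.filter fun v => t ∈ s ∩ E v).card ≤ 4 ^ d := by
              apply B5_count l (c.fn t)
              intro v hv
              exact (Finset.mem_filter.1 hv).2.2.2
            calc ((V.filter fun v => t ∈ s ∩ E v).card : ℝ≥0∞) ≤ ((4 ^ d : ℕ) : ℝ≥0∞) :=
                  Nat.cast_le.2 h2
              _ = 4 ^ d := by push_cast; rfl
          · have h1 : ∑ v ∈ V, (s ∩ E v).indicator (1 : ℝ → ℝ≥0∞) t = 0 := by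
              refine Finset.sum_eq_zero fun v _ => ?_
              rw [indicator_of_notMem]
              intro h
              exact ht ⟨h.1, h.2.1⟩
            rw [h1]
            exact bot_le
      _ = 4 ^ d * (volume : Measure ℝ) (s ∩ Icc c.a c.b) := by
          rw [lintegral_const_mul _ (measurable_one.indicator (hs.inter measurableSet_Icc)),
            lintegral_indicator_one (hs.inter measurableSet_Icc)]
  have h1 : ∑ v ∈ V, c.len f (CBox (latt l v) (3 / 2 * dy l)) =
      ∫⁻ t, ENNReal.ofReal (Real.exp (f (c.fn t))) * ‖deriv c.fn t‖ₑ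
        ∂(∑ v ∈ V, (volume : Measure ℝ).restrict (E v)) := by
    rw [lintegral_finsetSum_measure]
    rfl
  rw [h1]
  refine (lintegral_mono' hle le_rfl).trans ?_
  rw [lintegral_smul_measure]
  rfl

end MP_d19698_pr
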