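import Pool.Agent.Lib.MP_d19698_pr.B3
import Pool.Agent.Lib.MP_d19698_pr.B5

/-!
# B10: spheres, the shortcut argument and the decay at typical scales
-/

open MeasureTheory ProbabilityTheory Filter Topology Set
open scoped ENNReal NNReal

namespace MP_d19698_pr

variable {d : ℕ}

/-- thin shell around `SBox x (R 2^{-j})`. -/
def Shell (R : ℕ) (x : Rd d) (j : ℕ) : Set (Rd d) :=
  Box x (((R : ℝ) + 1 / 4) * dy j) \ CBox x (((R : ℝ) - 1 / 4) * dy j)

/-- internal diameter of the sphere `SBox x (R 2^{-j})` in its shell. -/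
noncomputable def sig (R : ℕ) (f : Rd d → ℝ) (x : Rd d) (j : ℕ) : ℝ≥0∞ :=
  ⨆ p ∈ SBox x ((R : ℝ) * dy j), ⨆ q ∈ SBox x ((R : ℝ) * dy j), D f {p} {q} (Shell R x j)

theorem sig_le_exp (R : ℕ) {f g : Rd d → ℝ} {M : ℝ} (x : Rd d) (j : ℕ) (h : ∀ y ∈ Shell R x j, f y ≤ g y + M) :
    sig R f x j ≤ ENNReal.ofReal (Real.exp M) * sig R g x j := by
  unfold sig
  refine iSup₂_le fun p hp => iSup₂_le fun q hq => ?_
  refine (D_le_exp {p} {q} h).trans ?_
  apply mul_le_mul_of_nonneg_left _ zero_le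
  exact le_iSup₂_of_le p hp (le_iSup₂_of_le q hq le_rfl)

theorem sig_mlip (R : ℕ) (x : Rd d) (j : ℕ) {K : Set (Rd d)} (hK : Shell R x j ⊆ K) : MLip K (fun f => sig R f x j) := by
  intro f g ε h
  refine sig_le_exp R x j (fun y hy => ?_)
  have := (abs_le.1 (h y (hK hy))).2
  linarith

/-- scale `j` is typical at `x`. -/
def Typ (R : ℕ) (f : Rd d → ℝ) (x : Rd d) (Rt : ℝ) (j : ℕ) : Prop :=
  sig R f x j ≤ ENNReal.ofReal Rt * Cr f x ((R : ℝ) * dy (j + 1)) ((R : ℝ) * dy j)

private theorem B10_len_zero (c : Curve d) (f : Rd d → ℝ) (S : Set (Rd d)) (h : ¬ ∃ p ∈ c.img, p ∈ S) :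
    c.len f S = 0 := by
  unfold Curve.len
  have : Icc c.a c.b ∩ c.fn ⁻¹' S = ∅ := by
    rw [eq_empty_iff_forall_notMem]
    rintro u ⟨hu1, hu2⟩
    exact h ⟨c.fn u, ⟨u, hu1, rfl⟩, hu2⟩
  rw [this]
  simp

/-- **Shortcut.** If a near-minimiser `c` (from `A` to `B` in `U`) starts and ends outside `Box x (R 2^{-j})`, and the shell is in `U`, then its length inside
`CBox x (R 2^{-j})` is at most `sig + τ D`. Proof: `exists_first_last`, replace the piece between the first and the last point on the sphere by a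
path in the shell of length `≤ sig + ε`. (`D` finite.) -/
theorem shortcut {R : ℕ} (hR : 1 ≤ R) {f : Rd d → ℝ} {A B U : Set (Rd d)} {x : Rd d} {j : ℕ} (c : Curve d) {t : ℝ≥0∞}
    (hA : c.src ∈ A) (hB : c.tgt ∈ B) (hU : c.img ⊆ U) (hlen : c.len f univ ≤ D f A B U + t) (hfin : D f A B U < ∞)
    (hs : c.src ∉ Box x ((R : ℝ) * dy j)) (ht : c.tgt ∉ Box x ((R : ℝ) * dy j)) (hsh : Shell R x j ⊆ U) :
    c.len f (CBox x ((R : ℝ) * dy j)) ≤ sig R f x j + t := by
  have hdy := dy_pos j
  have hR' : (1 : ℝ) ≤ R := by exact_mod_cast hR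
  have hρ : 0 < (R : ℝ) * dy j := by positivity
  by_cases htop : t = ∞
  · rw [htop]; simp
  by_cases hmeet : ∃ p ∈ c.img, p ∈ CBox x ((R : ℝ) * dy j)
  swap
  · have h0 : c.len f (CBox x ((R : ℝ) * dy j)) = 0 := B10_len_zero c f _ hmeet
    rw [h0]
    exact zero_le
  obtain ⟨s, t0, h1, h2, h3, h4, h5, h6⟩ := exists_first_last c hρ hmeet hs ht
  have e1 := c.len_split f univ s h1 (h2.trans h3)
  have e2 := (c.sub s c.b h1 (h2.trans h3) le_rfl).len_split f univ t0 h2 h3
  set ℓ1 := (c.sub c.a s le_rfl h1 (h2.trans h3)).len f univ with hℓ1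
  set ℓ2 := (c.sub s t0 h1 h2 h3).len f univ with hℓ2
  set ℓ3 := (c.sub t0 c.b (h1.trans h2) h3 le_rfl).len f univ with hℓ3
  have e3 : c.len f univ = ℓ1 + (ℓ2 + ℓ3) := by
    rw [e1]
    congr 1
  have hin : c.len f (CBox x ((R : ℝ) * dy j)) ≤ ℓ2 := by
    rw [hℓ2]
    unfold Curve.len
    apply lintegral_mono_set
    intro u hu
    exact ⟨h6 u hu.1 hu.2, mem_univ _⟩
  have hD : D f A B U ≤ ℓ1 + sig R f x j + ℓ3 := by
    have d1 : D f A {c.fn s} U ≤ ℓ1 := by
      refine D_le_len f (A := A) (B := {c.fn s}) (U := U) (c.sub c.a s le_rfl h1 (h2.trans h3)) hA rfl ?_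
      rintro _ ⟨u, hu, rfl⟩
      exact hU ⟨u, ⟨hu.1, hu.2.trans (h2.trans h3)⟩, rfl⟩
    have d3 : D f {c.fn t0} B U ≤ ℓ3 := by
      refine D_le_len f (A := {c.fn t0}) (B := B) (U := U) (c.sub t0 c.b (h1.trans h2) h3 le_rfl) rfl hB ?_
      rintro _ ⟨u, hu, rfl⟩
      exact hU ⟨u, ⟨(h1.trans h2).trans hu.1, hu.2⟩, rfl⟩
    have d2 : D f {c.fn s} {c.fn t0} U ≤ sig R f x j := by
      refine (D_mono f subset_rfl subset_rfl hsh).trans ?_
      unfold sig
      exact le_iSup₂_of_le _ h4 (le_iSup₂_of_le _ h5 le_rfl)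
    calc D f A B U ≤ D f A {c.fn s} U + D f {c.fn s} B U := D_tri f A B _ U
      _ ≤ D f A {c.fn s} U + (D f {c.fn s} {c.fn t0} U + D f {c.fn t0} B U) := by
          gcongr
          exact D_tri f _ B _ U
      _ ≤ ℓ1 + (sig R f x j + ℓ3) := by gcongr
      _ = _ := by rw [add_assoc]
  have hfl : c.len f univ < ∞ := lt_of_le_of_lt hlen (ENNReal.add_lt_top.2 ⟨hfin, lt_top_iff_ne_top.2 htop⟩)
  rw [e3] at hfl hlen
  have f1 : ℓ1 ≠ ∞ := (lt_of_le_of_lt le_self_add hfl).ne
  have f23 : ℓ2 + ℓ3 ≠ ∞ := (lt_of_le_of_lt le_add_self hfl).ne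
  have f3 : ℓ3 ≠ ∞ := fun h => f23 (by rw [h]; simp)
  refine hin.trans ?_
  have hfinal : ℓ2 + (ℓ1 + ℓ3) ≤ (sig R f x j + t) + (ℓ1 + ℓ3) := by
    calc ℓ2 + (ℓ1 + ℓ3) = ℓ1 + (ℓ2 + ℓ3) := by ring
      _ ≤ D f A B U + t := hlen
      _ ≤ ℓ1 + sig R f x j + ℓ3 + t := by gcongr
      _ = _ := by ring
  exact (ENNReal.add_le_add_iff_right (ENNReal.add_ne_top.2 ⟨f1, f3⟩)).1 hfinal

/-- **Decay at typical scales.** Let `c` be a curve from `A` to `B` in `U` with length `≤ D f A B U + t` (`t ≥ 0`, `D` finite), `k0 ≤ k` and suppose that the boxes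
`CBox x ((R+1) 2^{-j})`, `k0 ≤ j ≤ k`, are contained in `U` and do not meet `A ∪ B`. If `N` of the scales `k0 ≤ j < k` are typical with constant
`Rt ≥ 1` then `len(c ∩ CBox x (R 2^{-k})) ≤ (1 - 1/Rt)^N len(c) + k t`.

Proof. `ℓ_j = len(c ∩ CBox x (R 2^{-j}))`, nonincreasing in `j`, `ℓ_{k0} ≤ len c`. For typical `j`: `ℓ_j ≤ sig_j + t` (`shortcut`). If `c` meets `CBox x (R 2^{-j-1})` then
`ℓ_j ≥ ℓ_{j+1} + Cr` (`Cr_le_len` and `Curve.len_union`) and `Cr ≥ sig/Rt ≥ (ℓ_j - t)/Rt`, so `ℓ_{j+1} ≤ (1-1/Rt) ℓ_j + t`; otherwise `ℓ_{j+1} = 0`. Induction on `j` from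
`k0` to `k` (real numbers; everything is finite). -/
theorem decay {R : ℕ} (hR : 1 ≤ R) {f : Rd d → ℝ} {A B U : Set (Rd d)} {x : Rd d} {k0 k : ℕ} (hk : k0 ≤ k) (c : Curve d) {t Rt : ℝ}
    (ht : 0 ≤ t) (hRt : 1 ≤ Rt) (hA : c.src ∈ A) (hB : c.tgt ∈ B) (hU : c.img ⊆ U)
    (hlen : c.len f univ ≤ D f A B U + ENNReal.ofReal t) (hfin : D f A B U < ∞)
    (hbox : ∀ j, k0 ≤ j → j ≤ k → CBox x (((R : ℝ) + 1) * dy j) ⊆ U ∧ Disjoint (CBox x (((R : ℝ) + 1) * dy j)) A ∧
      Disjoint (CBox x (((R : ℝ) + 1) * dy j)) B)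
    (N : Finset ℕ) (hN : ∀ j ∈ N, k0 ≤ j ∧ j < k ∧ Typ R f x Rt j) :
    (c.len f (CBox x ((R : ℝ) * dy k))).toReal ≤ (1 - 1 / Rt) ^ N.card * (c.len f univ).toReal + k * t := by
  have hR' : (1 : ℝ) ≤ R := by exact_mod_cast hR
  have hfl : c.len f univ < ∞ := lt_of_le_of_lt hlen (ENNReal.add_lt_top.2 ⟨hfin, ENNReal.ofReal_lt_top⟩)
  have hfS : ∀ S : Set (Rd d), c.len f S < ∞ := fun S =>
    lt_of_le_of_lt (c.len_mono f (subset_univ S)) hfl
  set L : ℝ := (c.len f univ).toReal with hL
  have hL0 : 0 ≤ L := ENNReal.toReal_nonneg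
  set q : ℝ := 1 - 1 / Rt with hq
  have hRt0 : 0 < Rt := by linarith
  have hq0 : 0 ≤ q := by
    have : 1 / Rt ≤ 1 := by rw [div_le_one hRt0]; exact hRt
    linarith
  have hq1 : q ≤ 1 := by
    have : 0 ≤ 1 / Rt := by positivity
    linarith
  have hmono : ∀ n : ℕ, (c.len f (CBox x ((R : ℝ) * dy (n + 1)))).toReal ≤
      (c.len f (CBox x ((R : ℝ) * dy n))).toReal := by
    intro n
    apply ENNReal.toReal_mono (hfS _).ne
    apply c.len_mono f
    intro y hy i
    refine (hy i).trans ?_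
    exact mul_le_mul_of_nonneg_left (dy_anti (Nat.le_succ n)) (by linarith)
  have key : ∀ n : ℕ, k0 ≤ n → n ≤ k → (c.len f (CBox x ((R : ℝ) * dy n))).toReal ≤
      q ^ (N.filter (fun j => j < n)).card * L + n * t := by
    intro n hn
    induction n, hn using Nat.le_induction with
    | base =>
      intro _
      have hempty : N.filter (fun j => j < k0) = ∅ := by
        rw [Finset.filter_eq_empty_iff]
        intro j hj
        have := (hN j hj).1
        omega
      rw [hempty, Finset.card_empty, pow_zero, one_mul]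
      have h1 : (c.len f (CBox x ((R : ℝ) * dy k0))).toReal ≤ L :=
        ENNReal.toReal_mono hfl.ne (c.len_mono f (subset_univ _))
      have h2 : 0 ≤ (k0 : ℝ) * t := by positivity
      linarith
    | succ n hn ih =>
      intro hnk
      have ih' := ih (by omega)
      by_cases hnN : n ∈ N
      swap
      · have hfil : N.filter (fun j => j < n + 1) = N.filter (fun j => j < n) := by
          apply Finset.filter_congr
          intro j hj
          constructor
          · intro h
            rcases Nat.lt_succ_iff_lt_or_eq.1 h with h' | h'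
            · exact h'
            · exact absurd (h' ▸ hj) hnN
          · intro h; omega
        rw [hfil]
        push_cast
        have := hmono n
        linarith
      · have hfil : N.filter (fun j => j < n + 1) = insert n (N.filter (fun j => j < n)) := by
          ext j
          simp only [Finset.mem_filter, Finset.mem_insert]
          constructor
          · rintro ⟨h1, h2⟩
            rcases Nat.lt_succ_iff_lt_or_eq.1 h2 with h' | h'
            · exact Or.inr ⟨h1, h'⟩
            · exact Or.inl h'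
          · rintro (h | ⟨h1, h2⟩)
            · subst h; exact ⟨hnN, by omega⟩
            · exact ⟨h1, by omega⟩
        have hcard : (N.filter (fun j => j < n + 1)).card = (N.filter (fun j => j < n)).card + 1 := by
          rw [hfil, Finset.card_insert_of_notMem]
          simp
        rw [hcard]
        set a : ℕ := (N.filter (fun j => j < n)).card with ha
        have hqa : 0 ≤ q ^ (a + 1) * L := by positivity
        by_cases hmeet : ∃ p ∈ c.img, p ∈ CBox x ((R : ℝ) * dy (n + 1))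
        swap
        · rw [B10_len_zero c f _ hmeet, ENNReal.toReal_zero]
          have : 0 ≤ ((n + 1 : ℕ) : ℝ) * t := by positivity
          linarith
        obtain ⟨hn1, hn2, htyp⟩ := hN n hnN
        obtain ⟨b1, b2, b3⟩ := hbox n hn (by omega)
        have hdyn := dy_pos n
        have hsub1 : Box x ((R : ℝ) * dy n) ⊆ CBox x (((R : ℝ) + 1) * dy n) := by
          intro y hy i
          have := hy i
          nlinarith
        have hs : c.src ∉ Box x ((R : ℝ) * dy n) := fun h => Set.disjoint_left.1 b2 (hsub1 h) hA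
        have htg : c.tgt ∉ Box x ((R : ℝ) * dy n) := fun h => Set.disjoint_left.1 b3 (hsub1 h) hB
        have hsh : Shell R x n ⊆ U := by
          refine Subset.trans ?_ b1
          intro y hy i
          have := hy.1 i
          nlinarith
        have hsc := shortcut hR c hA hB hU hlen hfin hs htg hsh
        have hrr : (R : ℝ) * dy (n + 1) < (R : ℝ) * dy n := by
          rw [dy_succ]
          nlinarith
        have hcr := Cr_le_len f c hrr hmeet ⟨c.src, c.src_mem_img, hs⟩
        have hun := c.len_union f (S := CBox x ((R : ℝ) * dy (n + 1)))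
          (T := CBox x ((R : ℝ) * dy n) \ CBox x ((R : ℝ) * dy (n + 1)))
          ((isClosed_CBox _ _).measurableSet.diff (isClosed_CBox _ _).measurableSet) disjoint_sdiff_right
        have hset : CBox x ((R : ℝ) * dy (n + 1)) ∪ (CBox x ((R : ℝ) * dy n) \ CBox x ((R : ℝ) * dy (n + 1))) =
            CBox x ((R : ℝ) * dy n) := by
          rw [union_sdiff_self, union_eq_self_of_subset_left]
          intro y hy i
          exact (hy i).trans hrr.le
        rw [hset] at hun
        set W : ℝ≥0∞ := c.len f (CBox x ((R : ℝ) * dy n) \ CBox x ((R : ℝ) * dy (n + 1))) with hW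
        set C : ℝ≥0∞ := Cr f x ((R : ℝ) * dy (n + 1)) ((R : ℝ) * dy n) with hC
        have hWf : W < ∞ := hfS _
        have hCf : C < ∞ := lt_of_le_of_lt hcr hWf
        have g1 : (c.len f (CBox x ((R : ℝ) * dy n))).toReal =
            (c.len f (CBox x ((R : ℝ) * dy (n + 1)))).toReal + W.toReal := by
          rw [hun, ENNReal.toReal_add (hfS _).ne hWf.ne]
        have g2 : C.toReal ≤ W.toReal := ENNReal.toReal_mono hWf.ne hcr
        have g3 : (c.len f (CBox x ((R : ℝ) * dy n))).toReal ≤ Rt * C.toReal + t := by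
          have h1 : c.len f (CBox x ((R : ℝ) * dy n)) ≤ ENNReal.ofReal Rt * C + ENNReal.ofReal t :=
            hsc.trans (by gcongr; exact htyp)
          have h2 := ENNReal.toReal_mono (ENNReal.add_ne_top.2
            ⟨ENNReal.mul_ne_top ENNReal.ofReal_ne_top hCf.ne, ENNReal.ofReal_ne_top⟩) h1
          rw [ENNReal.toReal_add (ENNReal.mul_ne_top ENNReal.ofReal_ne_top hCf.ne) ENNReal.ofReal_ne_top,
            ENNReal.toReal_mul, ENNReal.toReal_ofReal hRt0.le, ENNReal.toReal_ofReal ht] at h2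
          exact h2
        set u : ℝ := (c.len f (CBox x ((R : ℝ) * dy n))).toReal with hu
        set w : ℝ := (c.len f (CBox x ((R : ℝ) * dy (n + 1)))).toReal with hw
        have g4 : (u - t) / Rt ≤ C.toReal := by
          rw [div_le_iff₀ hRt0]
          linarith
        have g5 : w ≤ q * u + t := by
          have h1 : w ≤ u - (u - t) / Rt := by linarith
          have h2 : u - (u - t) / Rt = q * u + t / Rt := by rw [hq]; field_simp; ring
          have h3 : t / Rt ≤ t := by
            rw [div_le_iff₀ hRt0]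
            nlinarith
          linarith
        have g6 : q * u ≤ q * (q ^ a * L + n * t) := mul_le_mul_of_nonneg_left ih' hq0
        have g7 : q * (n * t) ≤ 1 * (n * t) := mul_le_mul_of_nonneg_right hq1 (by positivity)
        push_cast
        rw [pow_succ]
        nlinarith
  have hfin2 := key k hk le_rfl
  have hfil : N.filter (fun j => j < k) = N := by
    apply Finset.filter_true_of_mem
    intro j hj
    exact (hN j hj).2.1
  rw [hfil] at hfin2
  exact hfin2

end MP_d19698_pr
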