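import Pool.Agent.Lib.MP_d19698_pr.B3

/-!
# B11: changing the field on a small set; real-valued log distances
-/

open MeasureTheory ProbabilityTheory Filter Topology Set
open scoped ENNReal NNReal

namespace MP_d19698_pr

variable {d : ℕ}

/-- If `g ≤ f` off `S` and `g ≤ f + s` on `S` then `len_g(c) ≤ len_f(c) + (e^s - 1) len_f(c ∩ S)`. -/
theorem len_change (c : Curve d) {f g : Rd d → ℝ} {S : Set (Rd d)} (hS : MeasurableSet S) {s : ℝ} (hs : 0 ≤ s)
    (h1 : ∀ x, x ∉ S → g x ≤ f x) (h2 : ∀ x ∈ S, g x ≤ f x + s) :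
    c.len g univ ≤ c.len f univ + ENNReal.ofReal (Real.exp s - 1) * c.len f S := by
  have hu : (univ : Set (Rd d)) = S ∪ Sᶜ := (union_compl_self S).symm
  have hd : Disjoint S Sᶜ := disjoint_compl_right
  have eg : c.len g univ = c.len g S + c.len g Sᶜ := by
    rw [← c.len_union g hS.compl hd, ← hu]
  have ef : c.len f univ = c.len f S + c.len f Sᶜ := by
    rw [← c.len_union f hS.compl hd, ← hu]
  have a1 : c.len g S ≤ ENNReal.ofReal (Real.exp s) * c.len f S :=
    c.len_le hS inter_subset_left fun x hx => h2 x hx.1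
  have a2 : c.len g Sᶜ ≤ c.len f Sᶜ := by
    have h3 : c.len g Sᶜ ≤ ENNReal.ofReal (Real.exp 0) * c.len f Sᶜ :=
      c.len_le hS.compl inter_subset_left fun x hx => by
        rw [add_zero]
        exact h1 x hx.1
    rwa [Real.exp_zero, ENNReal.ofReal_one, one_mul] at h3
  have hes : 0 ≤ Real.exp s - 1 := by
    have := Real.add_one_le_exp s
    linarith
  have a3 : ENNReal.ofReal (Real.exp s) = 1 + ENNReal.ofReal (Real.exp s - 1) := by
    rw [← ENNReal.ofReal_one, ← ENNReal.ofReal_add zero_le_one hes]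
    congr 1
    ring
  calc c.len g univ = c.len g S + c.len g Sᶜ := eg
    _ ≤ ENNReal.ofReal (Real.exp s) * c.len f S + c.len f Sᶜ := add_le_add a1 a2
    _ = c.len f univ + ENNReal.ofReal (Real.exp s - 1) * c.len f S := by
        rw [a3, ef]
        ring

/-- One-sided change of the log distance: with a near-minimiser `c` for `f`, `len_f(c) ≤ (1+τ) D_f`, `0 < D_f < ∞`, and `g` as above with `s ≤ 1`,
`log D_g - log D_f ≤ τ + 2 s m(S)`, `m(S) = len_f(c ∩ S)/D_f`. (Use `log(1+y) ≤ y`, `e^s - 1 ≤ 2s`.) -/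
theorem log_D_change {f g : Rd d → ℝ} {A B U S : Set (Rd d)} (hS : MeasurableSet S) (c : Curve d) {s τ : ℝ} (hs : 0 ≤ s) (hs1 : s ≤ 1) (hτ : 0 ≤ τ)
    (hA : c.src ∈ A) (hB : c.tgt ∈ B) (hU : c.img ⊆ U) (hpos : 0 < D f A B U) (hfin : D f A B U < ∞) (hgpos : 0 < D g A B U)
    (hlen : c.len f univ ≤ ENNReal.ofReal (1 + τ) * D f A B U)
    (h1 : ∀ x, x ∉ S → g x ≤ f x) (h2 : ∀ x ∈ S, g x ≤ f x + s) :
    Real.log (D g A B U).toReal - Real.log (D f A B U).toReal ≤ τ + 2 * s * ((c.len f S).toReal / (D f A B U).toReal) := by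
  have hDg : D g A B U ≤ c.len g univ := D_le_len g c hA hB hU
  have hch := len_change c hS hs h1 h2
  have hSfin : c.len f S < ∞ :=
    (c.len_mono f (subset_univ S)).trans_lt
      (hlen.trans_lt (ENNReal.mul_lt_top ENNReal.ofReal_lt_top hfin))
  have hall : D g A B U ≤ ENNReal.ofReal (1 + τ) * D f A B U +
      ENNReal.ofReal (Real.exp s - 1) * c.len f S :=
    hDg.trans (hch.trans (add_le_add hlen le_rfl))
  have hes : 0 ≤ Real.exp s - 1 := by
    have := Real.add_one_le_exp s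
    linarith
  have hfin1 : ENNReal.ofReal (1 + τ) * D f A B U < ∞ :=
    ENNReal.mul_lt_top ENNReal.ofReal_lt_top hfin
  have hfin2 : ENNReal.ofReal (Real.exp s - 1) * c.len f S < ∞ :=
    ENNReal.mul_lt_top ENNReal.ofReal_lt_top hSfin
  have hgfin : D g A B U < ∞ := hall.trans_lt (ENNReal.add_lt_top.mpr ⟨hfin1, hfin2⟩)
  set a : ℝ := (D f A B U).toReal with ha
  set b : ℝ := (D g A B U).toReal with hb
  set m : ℝ := (c.len f S).toReal with hm
  have apos : 0 < a := ENNReal.toReal_pos hpos.ne' hfin.ne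
  have bpos : 0 < b := ENNReal.toReal_pos hgpos.ne' hgfin.ne
  have mnn : 0 ≤ m := ENNReal.toReal_nonneg
  have hreal : b ≤ (1 + τ) * a + (Real.exp s - 1) * m := by
    have h3 := ENNReal.toReal_mono (ENNReal.add_lt_top.mpr ⟨hfin1, hfin2⟩).ne hall
    rw [ENNReal.toReal_add hfin1.ne hfin2.ne, ENNReal.toReal_mul, ENNReal.toReal_mul,
      ENNReal.toReal_ofReal (by linarith), ENNReal.toReal_ofReal hes] at h3
    exact h3
  have hexp : Real.exp s - 1 ≤ 2 * s := by
    have h3 := Real.abs_exp_sub_one_le (x := s) (by rw [abs_of_nonneg hs]; exact hs1)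
    rw [abs_of_nonneg hes, abs_of_nonneg hs] at h3
    exact h3
  rw [← Real.log_div bpos.ne' apos.ne']
  have h4 : Real.log (b / a) ≤ b / a - 1 := Real.log_le_sub_one_of_pos (div_pos bpos apos)
  have h5 : b / a ≤ (1 + τ) + 2 * s * (m / a) := by
    rw [div_le_iff₀ apos]
    have h6 : ((1 + τ) + 2 * s * (m / a)) * a = (1 + τ) * a + 2 * s * m := by
      field_simp
    rw [h6]
    have h7 : (Real.exp s - 1) * m ≤ 2 * s * m := mul_le_mul_of_nonneg_right hexp mnn
    linarith
  linarith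

/-- `A`, `B` and `U` in good position: disjoint closed boxes inside an open box. -/
structure GoodPos (A B U : Set (Rd d)) : Prop where
  exA : ∃ x r, 0 < r ∧ A = CBox x r
  exB : ∃ x r, 0 < r ∧ B = CBox x r
  exU : ∃ x r, 0 < r ∧ U = Box x r
  hAU : A ⊆ U
  hBU : B ⊆ U
  disj : Disjoint A B

private theorem B11_center {x : Rd d} {r : ℝ} (hr : 0 < r) : x ∈ CBox x r := by
  intro i
  rw [sub_self, abs_zero]
  exact hr.le

/-- positivity and finiteness for fields bounded on `U`. -/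
theorem GoodPos.D_pos {A B U : Set (Rd d)} (h : GoodPos A B U) {f : Rd d → ℝ} {M : ℝ} (hf : ∀ x ∈ U, |f x| ≤ M) :
    0 < D f A B U ∧ D f A B U < ∞ := by
  obtain ⟨xA, rA, hrA, hA⟩ := h.exA
  obtain ⟨xB, rB, hrB, hB⟩ := h.exB
  obtain ⟨xU, rU, hrU, hU⟩ := h.exU
  have mA : xA ∈ A := by
    rw [hA]
    exact B11_center hrA
  have mB : xB ∈ B := by
    rw [hB]
    exact B11_center hrB
  constructor
  · have cA : IsCompact A := by
      rw [hA]
      exact isCompact_CBox xA rA
    have cB : IsClosed B := by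
      rw [hB]
      exact isClosed_CBox xB rB
    obtain ⟨δ, hδ, hδ2⟩ := Metric.exists_pos_forall_lt_edist cA cB h.disj
    have h1 : ENNReal.ofReal (Real.exp (-M) * (δ : ℝ)) ≤ D f A B U := by
      refine le_D_of_bdd (fun x hx => (abs_le.mp (hf x hx)).1) fun a ha b hb => ?_
      have h2 := hδ2 a ha.1 b hb.1
      rw [edist_dist, dist_eq_norm] at h2
      have h3 : ENNReal.ofReal (δ : ℝ) < ENNReal.ofReal ‖a - b‖ := by
        rw [ENNReal.ofReal_coe_nnreal]
        exact h2
      exact ((ENNReal.ofReal_lt_ofReal_iff_of_nonneg δ.2).mp h3).le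
    refine lt_of_lt_of_le ?_ h1
    rw [ENNReal.ofReal_pos]
    have h4 : (0 : ℝ) < (δ : ℝ) := hδ
    have h5 := Real.exp_pos (-M)
    positivity
  · have hseg : segment ℝ xA xB ⊆ U := by
      have hc : Convex ℝ U := by
        rw [hU]
        exact convex_Box xU rU
      exact hc.segment_subset (h.hAU mA) (h.hBU mB)
    have h1 : D f A B U ≤ D f {xA} {xB} U :=
      D_mono f (singleton_subset_iff.mpr mA) (singleton_subset_iff.mpr mB) subset_rfl
    refine lt_of_le_of_lt (h1.trans (D_seg (M := M) f hseg fun p hp => ?_)) ENNReal.ofReal_lt_top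
    exact (abs_le.mp (hf p (hseg hp))).2

private theorem B11_log_le {a b : ℝ≥0∞} {ε : ℝ} (ha : 0 < a) (ha' : a < ∞) (hb : 0 < b) (hb' : b < ∞)
    (h : a ≤ ENNReal.ofReal (Real.exp ε) * b) : Real.log a.toReal ≤ ε + Real.log b.toReal := by
  have h1 := ENNReal.toReal_mono (ENNReal.mul_lt_top ENNReal.ofReal_lt_top hb').ne h
  rw [ENNReal.toReal_mul, ENNReal.toReal_ofReal (Real.exp_pos ε).le] at h1
  have h2 : 0 < a.toReal := ENNReal.toReal_pos ha.ne' ha'.ne
  have h3 : 0 < b.toReal := ENNReal.toReal_pos hb.ne' hb'.ne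
  calc Real.log a.toReal ≤ Real.log (Real.exp ε * b.toReal) := Real.log_le_log h2 h1
    _ = ε + Real.log b.toReal := by
        rw [Real.log_mul (Real.exp_pos ε).ne' h3.ne', Real.log_exp]

/-- `log D` is `1`-Lipschitz in the sup norm on `U` (for fields bounded on `U`). -/
theorem GoodPos.log_lip {A B U : Set (Rd d)} (h : GoodPos A B U) {f g : Rd d → ℝ} {M ε : ℝ} (hf : ∀ x ∈ U, |f x| ≤ M)
    (hg : ∀ x ∈ U, |g x| ≤ M) (hfg : ∀ x ∈ U, |f x - g x| ≤ ε) :
    |Real.log (D f A B U).toReal - Real.log (D g A B U).toReal| ≤ ε := by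
  obtain ⟨pf, ff⟩ := h.D_pos hf
  obtain ⟨pg, fg⟩ := h.D_pos hg
  have h1 : D f A B U ≤ ENNReal.ofReal (Real.exp ε) * D g A B U :=
    D_le_exp A B fun x hx => by
      have := (abs_le.mp (hfg x hx)).2
      linarith
  have h2 : D g A B U ≤ ENNReal.ofReal (Real.exp ε) * D f A B U :=
    D_le_exp A B fun x hx => by
      have := (abs_le.mp (hfg x hx)).1
      linarith
  have h3 := B11_log_le pf ff pg fg h1
  have h4 := B11_log_le pg fg pf ff h2
  rw [abs_le]
  constructor <;> linarith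

private theorem B11_coord (x y z : Rd d) (i : Fin d) :
    (z + (1 : ℝ) • (LinearIsometryEquiv.refl ℝ (Rd d)) y) i - (x + z) i = y i - x i := by
  simp
  ring

private theorem B11_surj (y z : Rd d) :
    z + (1 : ℝ) • (LinearIsometryEquiv.refl ℝ (Rd d)) (y - z) = y := by
  show z + (1 : ℝ) • (y - z) = y
  rw [one_smul]
  abel

private theorem B11_image_CBox (x z : Rd d) (r : ℝ) :
    (fun y : Rd d => z + (1 : ℝ) • (LinearIsometryEquiv.refl ℝ (Rd d)) y) '' CBox x r =
      CBox (x + z) r := by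
  ext y
  constructor
  · rintro ⟨w, hw, rfl⟩ i
    show |(z + (1 : ℝ) • (LinearIsometryEquiv.refl ℝ (Rd d)) w) i - (x + z) i| ≤ r
    rw [B11_coord]
    exact hw i
  · intro hy
    refine ⟨y - z, fun i => ?_, B11_surj y z⟩
    have h1 := hy i
    rw [← B11_surj y z, B11_coord] at h1
    exact h1

private theorem B11_image_Box (x z : Rd d) (r : ℝ) :
    (fun y : Rd d => z + (1 : ℝ) • (LinearIsometryEquiv.refl ℝ (Rd d)) y) '' Box x r =
      Box (x + z) r := by
  ext y
  constructor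
  · rintro ⟨w, hw, rfl⟩ i
    show |(z + (1 : ℝ) • (LinearIsometryEquiv.refl ℝ (Rd d)) w) i - (x + z) i| < r
    rw [B11_coord]
    exact hw i
  · intro hy
    refine ⟨y - z, fun i => ?_, B11_surj y z⟩
    have h1 := hy i
    rw [← B11_surj y z, B11_coord] at h1
    exact h1

/-- translation: `D f (A+z) (B+z) (U+z) = D (f(·+z)) A B U`. -/
theorem D_translate (f : Rd d → ℝ) (xA xB xU z : Rd d) (rA rB rU : ℝ) :
    D f (CBox (xA + z) rA) (CBox (xB + z) rB) (Box (xU + z) rU) =
      D (fun y => f (y + z)) (CBox xA rA) (CBox xB rB) (Box xU rU) := by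
  have h := D_sim f (CBox xA rA) (CBox xB rB) (Box xU rU) z zero_lt_one
    (LinearIsometryEquiv.refl ℝ (Rd d))
  rw [B11_image_CBox, B11_image_CBox, B11_image_Box, ENNReal.ofReal_one, one_mul] at h
  rw [h]
  congr 1
  funext y
  congr 1
  show z + (1 : ℝ) • y = y + z
  rw [one_smul, add_comm]

end MP_d19698_pr
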