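import Pool.Agent.Lib.MP_d19698_pr.B10

/-!
# B12: chaining on the sphere (deterministic)
-/

open MeasureTheory ProbabilityTheory Filter Topology Set
open scoped ENNReal NNReal

namespace MP_d19698_pr

variable {d : ℕ}

/-- lattice points `v` with `|v|_∞ = R 2^l` -/
def sphV (R : ℕ) (l : ℕ) : Set (Fin d → ℤ) := {v | (∀ i, |v i| ≤ (R : ℤ) * 2 ^ l) ∧ ∃ i, |v i| = (R : ℤ) * 2 ^ l}

/-- the (lower end point, direction) pairs of the grid edges inside the sphere -/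
def sphE (R : ℕ) (l : ℕ) : Set ((Fin d → ℤ) × Fin d) := {e | e.1 ∈ sphV R l ∧ e.1 + Pi.single e.2 1 ∈ sphV R l}

/-- the points of the cube `[-M,M]^d` with `i`-th coordinate `c` -/
private noncomputable def B12a_face (M : ℤ) (i : Fin d) (c : ℤ) : Finset (Fin d → ℤ) :=
  Fintype.piFinset (fun j => if j = i then {c} else Finset.Icc (-M) M)

private theorem B12a_face_card (M : ℕ) (i : Fin d) (c : ℤ) :
    (B12a_face (M : ℤ) i c).card = (2 * M + 1) ^ (d - 1) := by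
  unfold B12a_face
  rw [Fintype.card_piFinset]
  rw [← Finset.mul_prod_erase Finset.univ _ (Finset.mem_univ i)]
  have h1 : ∀ j ∈ Finset.univ.erase i,
      (if j = i then ({c} : Finset ℤ) else Finset.Icc (-(M : ℤ)) M).card = 2 * M + 1 := by
    intro j hj
    rw [if_neg (Finset.ne_of_mem_erase hj), Int.card_Icc]
    omega
  rw [Finset.prod_congr rfl h1, Finset.prod_const, Finset.card_erase_of_mem (Finset.mem_univ i)]
  simp

private theorem B12a_subset (R : ℕ) (l : ℕ) :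
    sphV (d := d) R l ⊆ ↑(Finset.univ.biUnion (fun i : Fin d =>
      B12a_face ((R * 2 ^ l : ℕ) : ℤ) i ((R * 2 ^ l : ℕ) : ℤ) ∪
        B12a_face ((R * 2 ^ l : ℕ) : ℤ) i (-((R * 2 ^ l : ℕ) : ℤ)))) := by
  intro v hv
  obtain ⟨h1, i, hi⟩ := hv
  have hM : ((R * 2 ^ l : ℕ) : ℤ) = (R : ℤ) * 2 ^ l := by push_cast; ring
  rw [Finset.mem_coe, Finset.mem_biUnion]
  refine ⟨i, Finset.mem_univ i, ?_⟩
  rw [hM, Finset.mem_union]
  have hcase : v i = (R : ℤ) * 2 ^ l ∨ v i = -((R : ℤ) * 2 ^ l) := by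
    rcases abs_choice (v i) with h | h
    · left
      rw [← h]
      exact hi
    · right
      rw [← hi, h, neg_neg]
  have hmem : ∀ c : ℤ, v i = c → v ∈ B12a_face ((R : ℤ) * 2 ^ l) i c := by
    intro c hc
    unfold B12a_face
    rw [Fintype.mem_piFinset]
    intro j
    by_cases hj : j = i
    · rw [if_pos hj, hj, Finset.mem_singleton]
      exact hc
    · rw [if_neg hj, Finset.mem_Icc]
      exact abs_le.1 (h1 j)
  rcases hcase with h | h
  · exact Or.inl (hmem _ h)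
  · exact Or.inr (hmem _ h)

private theorem B12a_card_nat (R : ℕ) (hR : 1 ≤ R) (l : ℕ) :
    (Finset.univ.biUnion (fun i : Fin d =>
      B12a_face ((R * 2 ^ l : ℕ) : ℤ) i ((R * 2 ^ l : ℕ) : ℤ) ∪
        B12a_face ((R * 2 ^ l : ℕ) : ℤ) i (-((R * 2 ^ l : ℕ) : ℤ)))).card ≤
      2 * d * (2 * R + 1) ^ (d - 1) * 2 ^ ((d - 1) * l) := by
  refine le_trans Finset.card_biUnion_le ?_
  have h1 : ∀ i ∈ (Finset.univ : Finset (Fin d)),
      (B12a_face ((R * 2 ^ l : ℕ) : ℤ) i ((R * 2 ^ l : ℕ) : ℤ) ∪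
        B12a_face ((R * 2 ^ l : ℕ) : ℤ) i (-((R * 2 ^ l : ℕ) : ℤ))).card ≤
      2 * (2 * (R * 2 ^ l) + 1) ^ (d - 1) := by
    intro i _
    refine le_trans (Finset.card_union_le _ _) ?_
    rw [B12a_face_card, B12a_face_card]
    omega
  refine le_trans (Finset.sum_le_sum h1) ?_
  rw [Finset.sum_const, Finset.card_univ, Fintype.card_fin, smul_eq_mul]
  have h2 : 2 * (R * 2 ^ l) + 1 ≤ (2 * R + 1) * 2 ^ l := by
    have : 1 ≤ 2 ^ l := Nat.one_le_two_pow
    nlinarith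
  calc d * (2 * (2 * (R * 2 ^ l) + 1) ^ (d - 1))
      ≤ d * (2 * ((2 * R + 1) * 2 ^ l) ^ (d - 1)) := by
        gcongr
    _ = 2 * d * (2 * R + 1) ^ (d - 1) * 2 ^ ((d - 1) * l) := by
        rw [mul_pow, ← pow_mul, mul_comm l (d - 1)]
        ring

/-- counting: at most `2 d (2 R + 1)^{d-1} 2^{(d-1) l}` points, `d` times as many edges. -/
theorem sphV_card (hd : 1 ≤ d) (R : ℕ) (hR : 1 ≤ R) (l : ℕ) :
    (sphV (d := d) R l).Finite ∧ ((sphV (d := d) R l).ncard : ℝ) ≤ 2 * d * (2 * R + 1) ^ (d - 1) * 2 ^ ((d - 1) * l) := by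
  have hs := B12a_subset (d := d) R l
  have hfin : (sphV (d := d) R l).Finite := (Finset.finite_toSet _).subset hs
  refine ⟨hfin, ?_⟩
  have h1 := Set.ncard_le_ncard hs (Finset.finite_toSet _)
  rw [Set.ncard_coe_finset] at h1
  have h2 := le_trans h1 (B12a_card_nat (d := d) R hR l)
  have h3 : ((sphV (d := d) R l).ncard : ℝ) ≤
      ((2 * d * (2 * R + 1) ^ (d - 1) * 2 ^ ((d - 1) * l) : ℕ) : ℝ) := by
    exact_mod_cast h2
  push_cast at h3
  exact h3

theorem sphE_card (hd : 1 ≤ d) (R : ℕ) (hR : 1 ≤ R) (l : ℕ) :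
    (sphE (d := d) R l).Finite ∧ ((sphE (d := d) R l).ncard : ℝ) ≤ 2 * d ^ 2 * (2 * R + 1) ^ (d - 1) * 2 ^ ((d - 1) * l) := by
  obtain ⟨hfin, hcard⟩ := sphV_card (d := d) hd R hR l
  have hsub : sphE (d := d) R l ⊆ sphV (d := d) R l ×ˢ (Set.univ : Set (Fin d)) :=
    fun e he => ⟨he.1, Set.mem_univ _⟩
  have hfin2 : (sphV (d := d) R l ×ˢ (Set.univ : Set (Fin d))).Finite :=
    hfin.prod Set.finite_univ
  refine ⟨hfin2.subset hsub, ?_⟩
  have h1 := Set.ncard_le_ncard hsub hfin2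
  rw [Set.ncard_prod, Set.ncard_univ, Nat.card_eq_fintype_card, Fintype.card_fin] at h1
  have h3 : ((sphE (d := d) R l).ncard : ℝ) ≤ ((sphV (d := d) R l).ncard : ℝ) * d := by
    exact_mod_cast h1
  calc ((sphE (d := d) R l).ncard : ℝ) ≤ ((sphV (d := d) R l).ncard : ℝ) * d := h3
    _ ≤ (2 * d * (2 * R + 1) ^ (d - 1) * 2 ^ ((d - 1) * l)) * d := by gcongr
    _ = 2 * d ^ 2 * (2 * R + 1) ^ (d - 1) * 2 ^ ((d - 1) * l) := by ring


end MP_d19698_pr
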