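import Pool.Agent.Lib.MP_d19698_pr.B12a

/-! # B12b -/

open MeasureTheory ProbabilityTheory Filter Topology Set
open scoped ENNReal NNReal

namespace MP_d19698_pr
variable {d : ℕ}

/-- rounding towards `0` -/
private noncomputable def B12b_tr (s : ℝ) : ℤ := if 0 ≤ s then ⌊s⌋ else -⌊-s⌋

private theorem B12b_tr_le {s : ℝ} {N : ℤ} (h : |s| ≤ N) : |B12b_tr s| ≤ N := by
  unfold B12b_tr
  rw [abs_le] at h ⊢
  split_ifs with h0
  · have h1 : 0 ≤ ⌊s⌋ := Int.floor_nonneg.2 h0
    have h2 : ⌊s⌋ ≤ N := by exact_mod_cast (Int.floor_le s).trans h.2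
    omega
  · have h1 : 0 ≤ ⌊-s⌋ := Int.floor_nonneg.2 (by linarith)
    have h2 : ⌊-s⌋ ≤ N := by
      have := (Int.floor_le (-s)).trans (by linarith : -s ≤ (N : ℝ))
      exact_mod_cast this
    omega

private theorem B12b_tr_int (z : ℤ) : B12b_tr (z : ℝ) = z := by
  unfold B12b_tr
  split_ifs with h0
  · exact Int.floor_intCast z
  · have : -(z : ℝ) = ((-z : ℤ) : ℝ) := by push_cast; rfl
    rw [this, Int.floor_intCast, neg_neg]

private theorem B12b_tr_eq {s : ℝ} {N : ℤ} (h : |s| = N) :
    |B12b_tr s| = N ∧ ((B12b_tr s : ℤ) : ℝ) = s := by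
  have hN0 : 0 ≤ N := by
    have : (0 : ℝ) ≤ N := by rw [← h]; exact abs_nonneg _
    exact_mod_cast this
  rcases abs_choice s with hs | hs
  · have : s = ((N : ℤ) : ℝ) := by rw [← h, hs]
    rw [this, B12b_tr_int]
    exact ⟨abs_of_nonneg hN0, rfl⟩
  · have : s = ((-N : ℤ) : ℝ) := by push_cast; rw [← h, hs, neg_neg]
    rw [this, B12b_tr_int]
    exact ⟨by rw [abs_neg, abs_of_nonneg hN0], rfl⟩

private theorem B12b_tr_abs (s : ℝ) : |s - (B12b_tr s : ℝ)| ≤ 1 := by
  unfold B12b_tr
  rw [abs_le]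
  split_ifs with h0
  · have h1 := Int.floor_le s
    have h2 := Int.lt_floor_add_one s
    constructor <;> linarith
  · have h1 := Int.floor_le (-s)
    have h2 := Int.lt_floor_add_one (-s)
    push_cast
    constructor <;> linarith

private theorem B12b_tr_two (s : ℝ) : |B12b_tr (2 * s) - 2 * B12b_tr s| ≤ 1 := by
  have key : ∀ u : ℝ, 2 * ⌊u⌋ ≤ ⌊2 * u⌋ ∧ ⌊2 * u⌋ ≤ 2 * ⌊u⌋ + 1 := by
    intro u
    constructor
    · apply Int.le_floor.2
      push_cast
      linarith [Int.floor_le u]
    · have h1 : ((⌊2 * u⌋ : ℤ) : ℝ) < ((2 * ⌊u⌋ + 2 : ℤ) : ℝ) := by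
        push_cast
        linarith [Int.floor_le (2 * u), Int.lt_floor_add_one u]
      have h2 : ⌊2 * u⌋ < 2 * ⌊u⌋ + 2 := by exact_mod_cast h1
      omega
  unfold B12b_tr
  rw [abs_le]
  by_cases h0 : 0 ≤ s
  · rw [if_pos h0, if_pos (by linarith)]
    have := key s
    omega
  · rw [if_neg h0, if_neg (by linarith)]
    have := key (-s)
    have e : -(2 * s) = 2 * -s := by ring
    rw [e]
    omega

private theorem B12b_up {f : Rd d → ℝ} {S : Set (Rd d)} {P : (Fin d → ℤ) → Rd d} {A : ℝ≥0∞} {N : ℤ}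
    (hS : ∀ v : Fin d → ℤ, (∀ i, |v i| ≤ N) → (∃ i, |v i| = N) → P v ∈ S)
    (hE : ∀ (v : Fin d → ℤ) (i : Fin d), (∀ k, |v k| ≤ N) → (∃ k, |v k| = N) →
      (∀ k, |(v + Pi.single i 1 : Fin d → ℤ) k| ≤ N) → (∃ k, |(v + Pi.single i 1 : Fin d → ℤ) k| = N) →
      D f {P v} {P (v + Pi.single i 1)} S ≤ A)
    (i i1 : Fin d) (hne : i1 ≠ i) (n : ℕ) : ∀ v : Fin d → ℤ, (∀ k, |v k| ≤ N) → |v i1| = N → v i + n ≤ N →
      D f {P v} {P (v + Pi.single i (n : ℤ))} S ≤ n * A := by
  induction n with
  | zero =>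
    intro v hv h1 _
    have e : v + Pi.single i ((0 : ℕ) : ℤ) = v := by simp
    rw [e, D_self f (hS v hv ⟨i1, h1⟩)]
    exact zero_le
  | succ n ih =>
    intro v hv h1 h2
    set v' : Fin d → ℤ := v + Pi.single i 1 with hv'
    have hi : v' i = v i + 1 := by simp [hv']
    have hk : ∀ k, k ≠ i → v' k = v k := by intro k hk; simp [hv', hk]
    push_cast at h2
    have hb : ∀ k, |v' k| ≤ N := by
      intro k
      by_cases h : k = i
      · rw [h, hi]
        have := hv i
        rw [abs_le] at this ⊢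
        omega
      · rw [hk k h]; exact hv k
    have h1' : |v' i1| = N := by rw [hk i1 hne]; exact h1
    have e : v + Pi.single i (((n + 1 : ℕ)) : ℤ) = v' + Pi.single i (n : ℤ) := by
      rw [hv', add_assoc, ← Pi.single_add]
      congr 2
      push_cast
      ring
    rw [e]
    refine (D_tri f {P v} _ (P v') S).trans ?_
    have s1 := hE v i hv ⟨i1, h1⟩ hb ⟨i1, h1'⟩
    have s2 := ih v' hb h1' (by rw [hi]; linarith)
    calc _ ≤ A + n * A := add_le_add s1 s2
      _ = _ := by push_cast; ring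

private theorem B12b_move {f : Rd d → ℝ} {S : Set (Rd d)} {P : (Fin d → ℤ) → Rd d} {A : ℝ≥0∞} {N : ℤ}
    (hS : ∀ v : Fin d → ℤ, (∀ i, |v i| ≤ N) → (∃ i, |v i| = N) → P v ∈ S)
    (hE : ∀ (v : Fin d → ℤ) (i : Fin d), (∀ k, |v k| ≤ N) → (∃ k, |v k| = N) →
      (∀ k, |(v + Pi.single i 1 : Fin d → ℤ) k| ≤ N) → (∃ k, |(v + Pi.single i 1 : Fin d → ℤ) k| = N) →
      D f {P v} {P (v + Pi.single i 1)} S ≤ A)
    (i i1 : Fin d) (hne : i1 ≠ i) (v : Fin d → ℤ) (b : ℤ) (hv : ∀ k, |v k| ≤ N) (h1 : |v i1| = N) (hb : |b| ≤ N) :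
    D f {P v} {P (Function.update v i b)} S ≤ ((b - v i).natAbs : ℕ) * A := by
  rcases le_total (v i) b with h | h
  · have e : Function.update v i b = v + Pi.single i (((b - v i).natAbs : ℕ) : ℤ) := by
      funext k
      by_cases hk : k = i
      · subst hk
        simp only [Function.update_self, Pi.add_apply, Pi.single_eq_same]
        omega
      · simp [hk]
    rw [e]
    have hb' := (abs_le.1 hb).2
    exact B12b_up hS hE i i1 hne _ v hv h1 (by omega)
  · set v' := Function.update v i b with hv'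
    have hv'i : v' i = b := by simp [hv']
    have hv'k : ∀ k, k ≠ i → v' k = v k := by intro k hk; simp [hv', hk]
    have e : v = v' + Pi.single i (((b - v i).natAbs : ℕ) : ℤ) := by
      funext k
      by_cases hk : k = i
      · subst hk
        simp only [Pi.add_apply, Pi.single_eq_same, hv'i]
        omega
      · simp [hk, hv'k k hk]
    have hvi := (abs_le.1 (hv i)).2
    have hm := B12b_up hS hE i i1 hne (b - v i).natAbs v' (by
      intro k
      by_cases hk : k = i
      · rw [hk, hv'i]; exact hb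
      · rw [hv'k k hk]; exact hv k) (by rw [hv'k i1 hne]; exact h1) (by rw [hv'i]; omega)
    rw [← e] at hm
    rw [D_symm]
    exact hm

private theorem B12b_multi {f : Rd d → ℝ} {S : Set (Rd d)} {P : (Fin d → ℤ) → Rd d} {A : ℝ≥0∞} {N : ℤ}
    (hS : ∀ v : Fin d → ℤ, (∀ i, |v i| ≤ N) → (∃ i, |v i| = N) → P v ∈ S)
    (hE : ∀ (v : Fin d → ℤ) (i : Fin d), (∀ k, |v k| ≤ N) → (∃ k, |v k| = N) →
      (∀ k, |(v + Pi.single i 1 : Fin d → ℤ) k| ≤ N) → (∃ k, |(v + Pi.single i 1 : Fin d → ℤ) k| = N) →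
      D f {P v} {P (v + Pi.single i 1)} S ≤ A)
    (v w : Fin d → ℤ) (i0 : Fin d) (h0 : v i0 = w i0) (h0N : |v i0| = N)
    (hv : ∀ k, |v k| ≤ N) (hw : ∀ k, |w k| ≤ N) :
    D f {P v} {P w} S ≤ ((∑ i, (w i - v i).natAbs : ℕ) : ℝ≥0∞) * A := by
  set u : ℕ → (Fin d → ℤ) := fun k i => if (i : ℕ) < k then w i else v i with hu
  have hu0 : u 0 = v := by funext i; simp [hu]
  have hud : u d = w := by funext i; simp [hu, i.2]
  have hub : ∀ k i, |u k i| ≤ N := by
    intro k i
    simp only [hu]
    split_ifs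
    · exact hw i
    · exact hv i
  have hui0 : ∀ k, |u k i0| = N := by
    intro k
    simp only [hu]
    split_ifs
    · rw [← h0]; exact h0N
    · exact h0N
  have hstep : ∀ k (hk : k < d), D f {P (u k)} {P (u (k + 1))} S ≤
      ((w ⟨k, hk⟩ - v ⟨k, hk⟩).natAbs : ℕ) * A := by
    intro k hk
    have hup : u (k + 1) = Function.update (u k) ⟨k, hk⟩ (w ⟨k, hk⟩) := by
      funext i
      by_cases hi : i = ⟨k, hk⟩
      · subst hi
        simp [hu]
      · have hne : (i : ℕ) ≠ k := fun h => hi (Fin.ext h)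
        rw [Function.update_of_ne hi]
        simp only [hu]
        by_cases h : (i : ℕ) < k
        · rw [if_pos h, if_pos (by omega)]
        · rw [if_neg h, if_neg (by omega)]
    have huk : u k ⟨k, hk⟩ = v ⟨k, hk⟩ := by simp [hu]
    by_cases hi : (⟨k, hk⟩ : Fin d) = i0
    · have : u (k + 1) = u k := by
        rw [hup, hi, ← h0]
        funext i
        by_cases hii : i = i0
        · subst hii
          rw [Function.update_self, ← hi, huk]
        · rw [Function.update_of_ne hii]
      rw [this, D_self f (hS _ (hub k) ⟨i0, hui0 k⟩)]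
      exact zero_le
    · have hm := B12b_move hS hE ⟨k, hk⟩ i0 (fun h => hi h.symm) (u k) (w ⟨k, hk⟩) (hub k) (hui0 k) (hw _)
      rw [← hup, huk] at hm
      exact hm
  have hchain := D_chain f S (fun k => P (u k)) d (hS _ (hub 0) ⟨i0, hui0 0⟩)
  simp only [hu0, hud] at hchain
  refine hchain.trans ?_
  rw [Finset.sum_range]
  calc _ ≤ ∑ k : Fin d, ((w k - v k).natAbs : ℝ≥0∞) * A := Finset.sum_le_sum fun k _ => hstep k k.2
    _ = _ := by rw [← Finset.sum_mul, Nat.cast_sum]

/-- **Chaining on the sphere.** Let `L ≥ 4`. Suppose every grid edge of level `j+l` on the sphere `SBox x (R 2^{-j})`, `4 ≤ l ≤ L`, has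
`D f (edge; Box (lower end) (2 * 2^{-(j+l)})) ≤ a l`, and that `D f {y} {p} (Shell) ≤ a'` for every lattice point `p` of level `j+L` on the sphere and every `y` with
`|y-p|_∞ ≤ 2^{-(j+L)}` on the sphere. Then `sig ≤ 2 a' + 2 d ∑_{l=5}^{L} a l + 64 d R a 4`.

Proof. For `p` on the sphere put `p_l = x +` (the rounding of `p - x` to `2^{-(j+l)} ℤ^d`, coordinatewise towards `0`); a coordinate `± R 2^{-j}` is preserved, so `p_l` is on the sphere,
`|p - p_l|_∞ ≤ 2^{-(j+l)}`, and the coordinates of `p_l` and `p_{l+1}` differ by `0` or `± 2^{-(j+l+1)}`. Change the coordinates one at a time: at most `d` edges of level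
`j+l+1`, all on the sphere (a coordinate equal to `± R 2^{-j}` in both is never changed, the others stay between their old and new values). At level `4`: from `p_4`, with `|coordinate i| = R 2^{-j}`, move all other coordinates
(one after the other, by grid steps) to `R 2^{-j}`; then move coordinate `i` to `R 2^{-j}` (`d ≥ 2`: another coordinate is at `R 2^{-j}` now). This uses at most `d * 2 R 2^4` edges of level `j+4` on the sphere, and ends at
the corner `x + R 2^{-j} (1,..,1)`. All boxes `Box (·) (2 * 2^{-(j+l)})`, `l ≥ 4`, about points of the sphere are in the shell. -/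
theorem sphere_chain (hd : 2 ≤ d) {R : ℕ} (hR : 1 ≤ R) (f : Rd d → ℝ) (x : Rd d) (j L : ℕ) (hL : 4 ≤ L) (a : ℕ → ℝ≥0∞) (a' : ℝ≥0∞)
    (hedge : ∀ l, 4 ≤ l → l ≤ L → ∀ e ∈ sphE (d := d) R l,
      D f {x + latt (j + l) e.1} {x + latt (j + l) e.1 + dy (j + l) • ee e.2} (Box (x + latt (j + l) e.1) (2 * dy (j + l))) ≤ a l)
    (hlast : ∀ v ∈ sphV (d := d) R L, ∀ y ∈ SBox x ((R : ℝ) * dy j), y ∈ CBox (x + latt (j + L) v) (dy (j + L)) →
      D f {x + latt (j + L) v} {y} (Shell R x j) ≤ a') :
    sig R f x j ≤ 2 * a' + 2 * d * ∑ l ∈ Finset.Icc 5 L, a l + 64 * d * R * a 4 := by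
  have hdyj := dy_pos j
  have hR' : (1 : ℝ) ≤ R := by exact_mod_cast hR
  -- positions
  set P : ℕ → (Fin d → ℤ) → Rd d := fun l v => x + latt (j + l) v with hP
  have hPi : ∀ l v i, P l v i - x i = dy (j + l) * (v i : ℝ) := by
    intro l v i
    simp only [hP, PiLp.add_apply, latt_apply]
    ring
  have hN : ∀ l : ℕ, dy (j + l) * ((R : ℝ) * 2 ^ l) = R * dy j := by
    intro l
    rw [dy_add]
    have := two_pow_mul_dy l
    calc dy j * dy l * ((R : ℝ) * 2 ^ l) = R * dy j * (2 ^ l * dy l) := by ring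
      _ = _ := by rw [this, mul_one]
  have hbox : ∀ l, 4 ≤ l → ∀ v ∈ sphV (d := d) R l, Box (P l v) (2 * dy (j + l)) ⊆ Shell R x j := by
    intro l hl v hv y hy
    have hsm : 2 * dy (j + l) ≤ dy j / 8 := by
      rw [dy_add]
      have : dy l ≤ 1 / 16 := by
        refine (dy_anti hl).trans ?_
        unfold dy; norm_num
      nlinarith
    refine ⟨fun i => ?_, fun hc => ?_⟩
    · have h1 := hy i
      have h2 : |P l v i - x i| ≤ R * dy j := by
        rw [hPi, abs_mul, abs_of_pos (dy_pos _), ← hN l]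
        apply mul_le_mul_of_nonneg_left _ (dy_pos _).le
        have := hv.1 i
        exact_mod_cast this
      have h3 : |y i - x i| ≤ |y i - P l v i| + |P l v i - x i| := abs_sub_le _ _ _
      linarith
    · obtain ⟨i, hi⟩ := hv.2
      have h1 := hy i
      have h2 : |P l v i - x i| = R * dy j := by
        rw [hPi, abs_mul, abs_of_pos (dy_pos _), ← hN l]
        congr 1
        exact_mod_cast hi
      have h3 : |P l v i - x i| ≤ |P l v i - y i| + |y i - x i| := abs_sub_le _ _ _
      rw [abs_sub_comm (P l v i) (y i)] at h3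
      have h4 := hc i
      linarith
  have hmemP : ∀ l, 4 ≤ l → ∀ v ∈ sphV (d := d) R l, P l v ∈ Shell R x j := by
    intro l hl v hv
    apply hbox l hl v hv
    intro i
    simp only [sub_self, abs_zero]
    have := dy_pos (j + l)
    positivity
  have hE : ∀ l, 4 ≤ l → l ≤ L → ∀ (v : Fin d → ℤ) (i : Fin d), (∀ k, |v k| ≤ (R : ℤ) * 2 ^ l) →
      (∃ k, |v k| = (R : ℤ) * 2 ^ l) → (∀ k, |(v + Pi.single i 1 : Fin d → ℤ) k| ≤ (R : ℤ) * 2 ^ l) →
      (∃ k, |(v + Pi.single i 1 : Fin d → ℤ) k| = (R : ℤ) * 2 ^ l) →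
      D f {P l v} {P l (v + Pi.single i 1)} (Shell R x j) ≤ a l := by
    intro l hl hl' v i h1 h2 h3 h4
    have he := hedge l hl hl' (v, i) ⟨⟨h1, h2⟩, ⟨h3, h4⟩⟩
    have hpos : P l (v + Pi.single i 1) = x + latt (j + l) v + dy (j + l) • ee i := by
      ext k
      simp only [hP, PiLp.add_apply, latt_apply, PiLp.smul_apply, ee, smul_eq_mul, Pi.add_apply]
      by_cases hk : k = i
      · subst hk; simp; ring
      · simp [hk]
    rw [hpos]
    exact (D_mono f subset_rfl subset_rfl (hbox l hl v ⟨h1, h2⟩)).trans he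
  -- from the corner to a point of the sphere
  have hpt : ∀ y ∈ SBox x ((R : ℝ) * dy j),
      D f {P 4 (fun _ => (R : ℤ) * 2 ^ 4)} {y} (Shell R x j) ≤
        a' + d * ∑ l ∈ Finset.Icc 5 L, a l + 32 * d * R * a 4 := by
    intro y hy
    set s : ℕ → Fin d → ℝ := fun l i => (y i - x i) / dy (j + l) with hs
    set v : ℕ → (Fin d → ℤ) := fun l i => B12b_tr (s l i) with hv
    have hs1 : ∀ l i, s (l + 1) i = 2 * s l i := by
      intro l i
      simp only [hs]
      rw [← add_assoc, dy_succ]
      have := (dy_pos (j + l)).ne'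
      field_simp
    have hsb : ∀ l i, |s l i| ≤ (((R : ℤ) * 2 ^ l : ℤ) : ℝ) := by
      intro l i
      simp only [hs]
      rw [abs_div, abs_of_pos (dy_pos _), div_le_iff₀ (dy_pos _)]
      have := hy.1 i
      rw [← hN l] at this
      push_cast
      linarith
    obtain ⟨i0, hi0⟩ : ∃ i0, |y i0 - x i0| = R * dy j := by
      have h2 := hy.2
      simp only [Box, mem_ofPred_eq, not_forall, not_lt] at h2
      obtain ⟨i0, hi0⟩ := h2
      exact ⟨i0, le_antisymm (hy.1 i0) hi0⟩
    have hse : ∀ l, |s l i0| = (((R : ℤ) * 2 ^ l : ℤ) : ℝ) := by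
      intro l
      simp only [hs]
      rw [abs_div, abs_of_pos (dy_pos _), div_eq_iff (dy_pos _).ne', hi0, ← hN l]
      push_cast
      ring
    have hvb : ∀ l k, |v l k| ≤ (R : ℤ) * 2 ^ l := fun l k => B12b_tr_le (hsb l k)
    have hv0 : ∀ l, |v l i0| = (R : ℤ) * 2 ^ l ∧ ((v l i0 : ℤ) : ℝ) = s l i0 := fun l => B12b_tr_eq (hse l)
    have hvS : ∀ l, v l ∈ sphV (d := d) R l := fun l => ⟨hvb l, i0, (hv0 l).1⟩
    -- last step
    have hlst : D f {P L (v L)} {y} (Shell R x j) ≤ a' := by
      apply hlast (v L) (hvS L) y hy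
      intro i
      have h1 : y i - (x + latt (j + L) (v L)) i = dy (j + L) * (s L i - (v L i : ℝ)) := by
        simp only [PiLp.add_apply, latt_apply, hs]
        have := (dy_pos (j + L)).ne'
        field_simp
        ring
      rw [h1, abs_mul, abs_of_pos (dy_pos _)]
      have := B12b_tr_abs (s L i)
      have h2 := dy_pos (j + L)
      nlinarith
    -- refinement
    have href : ∀ l, 4 ≤ l → l + 1 ≤ L → D f {P l (v l)} {P (l + 1) (v (l + 1))} (Shell R x j) ≤ d * a (l + 1) := by
      intro l hl hl'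
      have hpe : P l (v l) = P (l + 1) (fun i => 2 * v l i) := by
        ext i
        simp only [hP, PiLp.add_apply, latt_apply]
        rw [← add_assoc, dy_succ]
        push_cast
        ring
      rw [hpe]
      have hpow : (R : ℤ) * 2 ^ (l + 1) = 2 * ((R : ℤ) * 2 ^ l) := by rw [pow_succ]; ring
      have hdiff : ∀ i, |v (l + 1) i - 2 * v l i| ≤ 1 := by
        intro i
        simp only [hv, hs1]
        exact B12b_tr_two _
      have heq : (fun i => 2 * v l i) i0 = v (l + 1) i0 := by
        have h1 := (hv0 l).2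
        have h2 := (hv0 (l + 1)).2
        rw [hs1] at h2
        have h3 : ((2 * v l i0 : ℤ) : ℝ) = ((v (l + 1) i0 : ℤ) : ℝ) := by
          rw [h2, ← h1]; push_cast; ring
        exact_mod_cast h3
      have hm := B12b_multi (hS := fun w h1 h2 => hmemP (l + 1) (by omega) w ⟨h1, h2⟩)
        (hE := hE (l + 1) (by omega) hl') (fun i => 2 * v l i) (v (l + 1)) i0 heq
        (by
          show |2 * v l i0| = _
          rw [abs_mul, (hv0 l).1, hpow]
          norm_num)
        (by
          intro k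
          show |2 * v l k| ≤ _
          rw [abs_mul, hpow]
          have := hvb l k
          norm_num
          exact this)
        (hvb (l + 1))
      refine hm.trans ?_
      apply mul_le_mul_of_nonneg_right _ zero_le
      have : (∑ i, (v (l + 1) i - 2 * v l i).natAbs) ≤ d := by
        calc (∑ i, (v (l + 1) i - 2 * v l i).natAbs) ≤ ∑ i : Fin d, 1 := by
              apply Finset.sum_le_sum
              intro i _
              have := abs_le.1 (hdiff i)
              omega
          _ = d := by simp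
      exact_mod_cast this
    have hmid : D f {P 4 (v 4)} {P L (v L)} (Shell R x j) ≤ d * ∑ l ∈ Finset.Icc 5 L, a l := by
      have hc := D_chain f (Shell R x j) (fun k => P (4 + k) (v (4 + k))) (L - 4) (hmemP 4 le_rfl _ (hvS 4))
      have hL4 : 4 + (L - 4) = L := by omega
      simp only [Nat.add_zero, hL4] at hc
      refine hc.trans ?_
      calc _ ≤ ∑ k ∈ Finset.range (L - 4), (d : ℝ≥0∞) * a (4 + k + 1) := by
            apply Finset.sum_le_sum
            intro k hk
            rw [Finset.mem_range] at hk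
            exact href (4 + k) (by omega) (by omega)
        _ = d * ∑ l ∈ Finset.Icc 5 L, a l := by
            rw [← Finset.mul_sum]
            congr 1
            apply Finset.sum_nbij (fun k => 4 + k + 1)
            · intro k hk
              simp only [Finset.mem_range, Finset.mem_Icc] at hk ⊢
              omega
            · intro k _ k' _ h
              simp only at h
              omega
            · intro l hl
              simp only [Finset.coe_Icc, Set.mem_Icc, Finset.coe_range, Set.mem_image, Set.mem_Iio] at hl ⊢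
              exact ⟨l - 5, by omega, by omega⟩
            · intro k _
              rfl
    -- from the corner to level 4
    have hcor : D f {P 4 (fun _ => (R : ℤ) * 2 ^ 4)} {P 4 (v 4)} (Shell R x j) ≤ 32 * d * R * a 4 := by
      set N : ℤ := (R : ℤ) * 2 ^ 4 with hNd
      have hN0 : 0 ≤ N := by positivity
      have hNa : |N| = N := abs_of_nonneg hN0
      obtain ⟨i1, hi1⟩ : ∃ i1 : Fin d, i1 ≠ i0 := by
        by_cases h : i0 = ⟨0, by omega⟩
        · exact ⟨⟨1, by omega⟩, by rw [h]; simp⟩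
        · exact ⟨⟨0, by omega⟩, fun hc => h hc.symm⟩
      set w : Fin d → ℤ := fun i => if i = i0 then v 4 i0 else N with hw
      have hwb : ∀ k, |w k| ≤ N := by
        intro k
        simp only [hw]
        split_ifs
        · exact hvb 4 i0
        · exact le_of_eq hNa
      have hw0 : w i0 = v 4 i0 := by simp [hw]
      have hw1 : w i1 = N := by simp [hw, hi1]
      have m1 := B12b_move (hS := fun w h1 h2 => hmemP 4 le_rfl w ⟨h1, h2⟩)
        (hE := hE 4 le_rfl hL) i0 i1 hi1 w N hwb (by rw [hw1, hNa]) (le_of_eq hNa)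
      have hup : Function.update w i0 N = fun _ => N := by
        funext k
        by_cases hk : k = i0
        · subst hk; simp
        · simp [hw, hk]
      rw [hup] at m1
      have m2 := B12b_multi (hS := fun w h1 h2 => hmemP 4 le_rfl w ⟨h1, h2⟩)
        (hE := hE 4 le_rfl hL) w (v 4) i0 hw0 (by rw [hw0]; exact (hv0 4).1) hwb (hvb 4)
      have c1 : (N - w i0).natAbs ≤ 32 * R := by
        have h1 := abs_le.1 (hwb i0)
        have h2 : N = (R : ℤ) * 16 := by rw [hNd]; norm_num
        omega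
      have c2 : (∑ i, (v 4 i - w i).natAbs) ≤ (d - 1) * (32 * R) := by
        rw [← Finset.add_sum_erase Finset.univ _ (Finset.mem_univ i0)]
        rw [hw0, sub_self, Int.natAbs_zero, zero_add]
        calc _ ≤ ∑ i ∈ Finset.univ.erase i0, 32 * R := by
              apply Finset.sum_le_sum
              intro i _
              have h1 := abs_le.1 (hwb i)
              have h3 := abs_le.1 (hvb 4 i)
              have h2 : N = (R : ℤ) * 16 := by rw [hNd]; norm_num
              rw [h2] at h1
              norm_num at h3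
              omega
          _ = _ := by
              rw [Finset.sum_const, Finset.card_erase_of_mem (Finset.mem_univ _), Finset.card_univ,
                Fintype.card_fin, smul_eq_mul]
      calc D f {P 4 (fun _ => N)} {P 4 (v 4)} (Shell R x j)
          ≤ D f {P 4 (fun _ => N)} {P 4 w} (Shell R x j) + D f {P 4 w} {P 4 (v 4)} (Shell R x j) :=
            D_tri f _ _ _ _
        _ ≤ ((N - w i0).natAbs : ℕ) * a 4 + ((∑ i, (v 4 i - w i).natAbs : ℕ) : ℝ≥0∞) * a 4 := by
            apply add_le_add _ m2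
            rw [D_symm]
            exact m1
        _ ≤ ((32 * R : ℕ) : ℝ≥0∞) * a 4 + (((d - 1) * (32 * R) : ℕ) : ℝ≥0∞) * a 4 := by
            gcongr
        _ = (((32 * R + (d - 1) * (32 * R) : ℕ)) : ℝ≥0∞) * a 4 := by
            rw [Nat.cast_add, add_mul]
        _ = 32 * d * R * a 4 := by
            have : 32 * R + (d - 1) * (32 * R) = 32 * d * R := by
              obtain ⟨e, rfl⟩ : ∃ e, d = e + 1 := ⟨d - 1, by omega⟩
              simp only [Nat.add_sub_cancel]
              ring
            rw [this]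
            push_cast
            rfl
    calc D f {P 4 (fun _ => (R : ℤ) * 2 ^ 4)} {y} (Shell R x j)
        ≤ D f {P 4 (fun _ => (R : ℤ) * 2 ^ 4)} {P 4 (v 4)} (Shell R x j) +
          D f {P 4 (v 4)} {y} (Shell R x j) := D_tri f _ _ _ _
      _ ≤ D f {P 4 (fun _ => (R : ℤ) * 2 ^ 4)} {P 4 (v 4)} (Shell R x j) +
          (D f {P 4 (v 4)} {P L (v L)} (Shell R x j) + D f {P L (v L)} {y} (Shell R x j)) := by
          gcongr
          exact D_tri f _ _ _ _
      _ ≤ 32 * d * R * a 4 + (d * ∑ l ∈ Finset.Icc 5 L, a l + a') := by gcongr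
      _ = _ := by ring
  unfold sig
  refine iSup₂_le fun p hp => iSup₂_le fun q hq => ?_
  calc D f {p} {q} (Shell R x j)
      ≤ D f {p} {P 4 (fun _ => (R : ℤ) * 2 ^ 4)} (Shell R x j) +
        D f {P 4 (fun _ => (R : ℤ) * 2 ^ 4)} {q} (Shell R x j) := D_tri f _ _ _ _
    _ ≤ (a' + d * ∑ l ∈ Finset.Icc 5 L, a l + 32 * d * R * a 4) +
        (a' + d * ∑ l ∈ Finset.Icc 5 L, a l + 32 * d * R * a 4) := by
        apply add_le_add _ (hpt q hq)
        rw [D_symm]
        exact hpt p hp
    _ = _ := by ring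

end MP_d19698_pr
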