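import Pool.Agent.Lib.MP_d19698_pr.Curve

/-!
# B1a: piecewise `C¹` functions
-/

open MeasureTheory ProbabilityTheory Filter Topology Set
open scoped ENNReal NNReal

namespace MP_d19698_pr

variable {d : ℕ}

/-- appending one piece -/
theorem B1a_snoc {γ : ℝ → Rd d} {a s e : ℝ} (h : PC1On γ a s) (hse : s ≤ e)
    (hc : ContDiffOn ℝ 1 γ (Icc s e)) : PC1On γ a e := by
  obtain ⟨m, t, hm, h0, hmm, ht⟩ := h
  refine ⟨m + 1, fun i => if i ≤ m then t i else e, ?_, ?_, ?_, ?_⟩
  · intro i j hij
    dsimp only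
    split_ifs with h1 h2 h2
    · exact hm hij
    · exact (hm h1).trans (hmm ▸ hse)
    · omega
    · exact le_rfl
  · simp [h0]
  · simp
  · intro i hi
    dsimp only
    rcases Nat.lt_or_ge i m with h | h
    · rw [if_pos h.le, if_pos (show i + 1 ≤ m by omega)]
      exact ht i h
    · have : i = m := by omega
      subst this
      rw [if_pos le_rfl, if_neg (by omega), hmm]
      exact hc

/-- induction on the number of pieces -/
theorem B1a_ind {γ : ℝ → Rd d} {a b : ℝ} (h : PC1On γ a b) (P : ℝ → Prop) (hP0 : P a)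
    (hstep : ∀ s e, a ≤ s → s ≤ e → e ≤ b → P s → ContDiffOn ℝ 1 γ (Icc s e) → P e) : P b := by
  obtain ⟨m, t, hm, h0, hmm, ht⟩ := h
  have key : ∀ i, i ≤ m → P (t i) := by
    intro i
    induction i with
    | zero => intro _; rw [h0]; exact hP0
    | succ i ih =>
      intro hi
      refine hstep (t i) (t (i + 1)) ?_ (hm (Nat.le_succ i)) ?_ (ih (by omega)) (ht i (by omega))
      · rw [← h0]; exact hm (Nat.zero_le i)
      · rw [← hmm]; exact hm hi
  rw [← hmm]
  exact key m le_rfl

/-- Restriction to a subinterval. -/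
theorem PC1On.sub {γ : ℝ → Rd d} {a b s t : ℝ} (h : PC1On γ a b) (hs : a ≤ s) (hst : s ≤ t) (ht : t ≤ b) :
    PC1On γ s t := by
  obtain ⟨m, T, hm, h0, hmm, hT⟩ := h
  refine ⟨m, fun i => max s (min t (T i)), ?_, ?_, ?_, ?_⟩
  · intro i j hij
    exact max_le_max le_rfl (min_le_min le_rfl (hm hij))
  · dsimp only
    rw [h0, min_eq_right (by linarith), max_eq_left hs]
  · dsimp only
    rw [hmm, min_eq_left ht, max_eq_right hst]
  · intro i hi
    dsimp only
    have hle : T i ≤ T (i + 1) := hm (Nat.le_succ i)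
    have huv : max s (min t (T i)) ≤ max s (min t (T (i + 1))) :=
      max_le_max le_rfl (min_le_min le_rfl hle)
    rcases huv.eq_or_lt with he | hlt
    · rw [← he, Icc_self]
      intro x hx
      rw [mem_singleton_iff] at hx
      subst hx
      exact contDiffWithinAt_singleton
    · refine (hT i hi).mono (Icc_subset_Icc ?_ ?_)
      · have h1 : min t (T i) < t := by
          have h2 : max s (min t (T (i + 1))) ≤ t := max_le hst (min_le_left _ _)
          exact lt_of_le_of_lt (le_max_right _ _) (lt_of_lt_of_le hlt h2)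
        have h3 : T i < t := by
          by_contra hcon
          rw [min_eq_left (not_lt.mp hcon)] at h1
          exact lt_irrefl _ h1
        rw [min_eq_right h3.le]
        exact le_max_right _ _
      · have h1 : s < max s (min t (T (i + 1))) := lt_of_le_of_lt (le_max_left _ _) hlt
        have h2 : s < min t (T (i + 1)) := by
          rcases lt_max_iff.mp h1 with h | h
          · exact absurd h (lt_irrefl _)
          · exact h
        rw [max_eq_right h2.le]
        exact min_le_right _ _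

/-- A piecewise `C¹` curve is continuous. -/
theorem PC1On.continuousOn {γ : ℝ → Rd d} {a b : ℝ} (h : PC1On γ a b) : ContinuousOn γ (Icc a b) := by
  refine B1a_ind h (fun e => ContinuousOn γ (Icc a e)) ?_ ?_
  · rw [Icc_self]; exact continuousOn_singleton _ _
  · intro s e has hse _ hc hC
    have : Icc a e = Icc a s ∪ Icc s e := (Icc_union_Icc_eq_Icc has hse).symm
    rw [this]
    exact hc.union_of_isClosed hC.continuousOn isClosed_Icc isClosed_Icc

/-- Concatenation of two pieces. -/
theorem PC1On.trans {γ : ℝ → Rd d} {a b e : ℝ} (h : PC1On γ a b) (h' : PC1On γ b e) : PC1On γ a e := by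
  refine B1a_ind h' (fun e => PC1On γ a e) h ?_
  intro s e _ hse _ hc hC
  exact B1a_snoc hc hse hC

/-- Only the values on `[a,b]` matter. -/
theorem PC1On.congr {γ γ' : ℝ → Rd d} {a b : ℝ} (h : PC1On γ a b) (hab : a ≤ b) (he : ∀ t ∈ Icc a b, γ' t = γ t) :
    PC1On γ' a b := by
  obtain ⟨m, T, hm, h0, hmm, hT⟩ := h
  refine ⟨m, T, hm, h0, hmm, fun i hi => (hT i hi).congr ?_⟩
  intro x hx
  apply he
  refine ⟨?_, ?_⟩
  · rw [← h0]; exact (hm (Nat.zero_le i)).trans hx.1
  · rw [← hmm]; exact hx.2.trans (hm hi)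

/-- Affine change of parameter `t ↦ p t + q`, `p ≠ 0` (if `p < 0` the orientation is reversed). -/
theorem PC1On.comp_affine {γ : ℝ → Rd d} {a b p q : ℝ} (h : PC1On γ (min (p * a + q) (p * b + q)) (max (p * a + q) (p * b + q)))
    (hp : p ≠ 0) (hab : a ≤ b) : PC1On (fun t => γ (p * t + q)) a b := by
  obtain ⟨m, T, hm, h0, hmm, hT⟩ := h
  have haff : ContDiff ℝ 1 (fun t : ℝ => p * t + q) := by fun_prop
  rcases lt_or_gt_of_ne hp with hneg | hpos
  · have hle : p * b + q ≤ p * a + q := by nlinarith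
    rw [min_eq_right hle] at h0
    rw [max_eq_left hle] at hmm
    refine ⟨m, fun i => (T (m - i) - q) / p, ?_, ?_, ?_, ?_⟩
    · intro i j hij
      dsimp only
      have h1 : T (m - j) ≤ T (m - i) := hm (by omega)
      exact div_le_div_of_nonpos_of_le hneg.le (by linarith)
    · dsimp only
      rw [Nat.sub_zero, hmm]
      field_simp
      ring
    · dsimp only
      rw [Nat.sub_self, h0]
      field_simp
      ring
    · intro i hi
      dsimp only
      have h1 := hT (m - (i + 1)) (by omega)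
      have h2 : m - (i + 1) + 1 = m - i := by omega
      rw [h2] at h1
      refine h1.comp haff.contDiffOn ?_
      intro x hx
      obtain ⟨hx1, hx2⟩ := hx
      rw [div_le_iff_of_neg hneg] at hx1
      rw [le_div_iff_of_neg hneg] at hx2
      constructor <;> dsimp only <;> nlinarith
  · have hle : p * a + q ≤ p * b + q := by nlinarith
    rw [min_eq_left hle] at h0
    rw [max_eq_right hle] at hmm
    refine ⟨m, fun i => (T i - q) / p, ?_, ?_, ?_, ?_⟩
    · intro i j hij
      dsimp only
      have h1 : T i ≤ T j := hm hij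
      exact div_le_div_of_nonneg_right (by linarith) hpos.le
    · dsimp only
      rw [h0]
      field_simp
      ring
    · dsimp only
      rw [hmm]
      field_simp
      ring
    · intro i hi
      dsimp only
      refine (hT i hi).comp haff.contDiffOn ?_
      intro x hx
      obtain ⟨hx1, hx2⟩ := hx
      rw [div_le_iff₀ hpos] at hx1
      rw [le_div_iff₀ hpos] at hx2
      constructor <;> dsimp only <;> nlinarith

/-- `γ` is Lipschitz on `[a,b]`. -/
theorem PC1On.lipschitz {γ : ℝ → Rd d} {a b : ℝ} (h : PC1On γ a b) (hab : a ≤ b) :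
    ∃ C : ℝ≥0, LipschitzOnWith C γ (Icc a b) := by
  refine B1a_ind h (fun e => ∃ C : ℝ≥0, LipschitzOnWith C γ (Icc a e)) ?_ ?_
  · refine ⟨0, ?_⟩
    rw [Icc_self]
    intro x hx y hy
    rw [mem_singleton_iff] at hx hy
    subst hx; subst hy
    simp
  · rintro s e has hse _ ⟨C, hC⟩ hc
    obtain ⟨C', hC'⟩ := hc.exists_lipschitzOnWith one_ne_zero (convex_Icc s e) isCompact_Icc
    refine ⟨max C C', ?_⟩
    have hL : LipschitzOnWith (max C C') γ (Icc a s) := hC.weaken (le_max_left _ _)
    have hR : LipschitzOnWith (max C C') γ (Icc s e) := hC'.weaken (le_max_right _ _)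
    have hord : ∀ x ∈ Icc a e, ∀ y ∈ Icc a e, x ≤ y →
        dist (γ x) (γ y) ≤ (max C C' : ℝ≥0) * dist x y := by
      intro x hx y hy hxy
      rcases le_total y s with hys | hys
      · exact hL.dist_le_mul x ⟨hx.1, hxy.trans hys⟩ y ⟨hy.1, hys⟩
      · rcases le_total s x with hxs | hxs
        · exact hR.dist_le_mul x ⟨hxs, hx.2⟩ y ⟨hys, hy.2⟩
        · have h1 := hL.dist_le_mul x ⟨hx.1, hxs⟩ s ⟨has, le_rfl⟩
          have h2 := hR.dist_le_mul s ⟨le_rfl, hse⟩ y ⟨hys, hy.2⟩
          have h3 : dist x y = dist x s + dist s y := by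
            rw [Real.dist_eq, Real.dist_eq, Real.dist_eq, abs_of_nonpos (by linarith),
              abs_of_nonpos (by linarith), abs_of_nonpos (by linarith)]
            ring
          calc dist (γ x) (γ y) ≤ dist (γ x) (γ s) + dist (γ s) (γ y) := dist_triangle _ _ _
            _ ≤ (max C C' : ℝ≥0) * dist x s + (max C C' : ℝ≥0) * dist s y := add_le_add h1 h2
            _ = (max C C' : ℝ≥0) * dist x y := by rw [h3]; ring
    refine LipschitzOnWith.of_dist_le_mul ?_
    intro x hx y hy
    rcases le_total x y with hxy | hxy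
    · exact hord x hx y hy hxy
    · rw [dist_comm, dist_comm x y]
      exact hord y hy x hx hxy

/-- All but finitely many points of `[a,b]` are points of differentiability. -/
theorem PC1On.differentiable {γ : ℝ → Rd d} {a b : ℝ} (h : PC1On γ a b) :
    ∃ F : Finset ℝ, ∀ t ∈ Icc a b, t ∉ F → DifferentiableAt ℝ γ t := by
  refine B1a_ind h (fun e => ∃ F : Finset ℝ, ∀ t ∈ Icc a e, t ∉ F → DifferentiableAt ℝ γ t) ?_ ?_
  · refine ⟨{a}, ?_⟩
    intro t ht hF
    rw [Icc_self] at ht
    exact absurd (by simpa using ht) hF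
  · rintro s e has hse _ ⟨F, hF⟩ hc
    refine ⟨F ∪ {s, e}, ?_⟩
    intro t ht htF
    simp only [Finset.mem_union, Finset.mem_insert, Finset.mem_singleton, not_or] at htF
    obtain ⟨h1, h2, h3⟩ := htF
    rcases lt_or_gt_of_ne h2 with h4 | h4
    · exact hF t ⟨ht.1, h4.le⟩ h1
    · have h5 : t < e := lt_of_le_of_ne ht.2 h3
      have h6 : DifferentiableWithinAt ℝ γ (Icc s e) t :=
        (hc.differentiableOn one_ne_zero) t ⟨h4.le, h5.le⟩
      exact h6.differentiableAt (Icc_mem_nhds h4 h5)

theorem B1a_piece {γ : ℝ → Rd d} {s e : ℝ} (hse : s ≤ e) (hc : ContDiffOn ℝ 1 γ (Icc s e)) :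
    edist (γ s) (γ e) ≤ ∫⁻ t in Ioc s e, ‖deriv γ t‖ₑ := by
  rcases hse.eq_or_lt with h | hlt
  · subst h; simp
  · have huniq : UniqueDiffOn ℝ (Icc s e) := uniqueDiffOn_Icc hlt
    have hcd : ContinuousOn (derivWithin γ (Icc s e)) (Icc s e) :=
      hc.continuousOn_derivWithin huniq le_rfl
    have hderiv : ∀ x ∈ Ioo s e, HasDerivAt γ (derivWithin γ (Icc s e) x) x := by
      intro x hx
      have h6 : DifferentiableWithinAt ℝ γ (Icc s e) x :=
        (hc.differentiableOn one_ne_zero) x ⟨hx.1.le, hx.2.le⟩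
      exact h6.hasDerivWithinAt.hasDerivAt (Icc_mem_nhds hx.1 hx.2)
    have hint : IntervalIntegrable (derivWithin γ (Icc s e)) volume s e := by
      apply ContinuousOn.intervalIntegrable
      rw [uIcc_of_le hse]
      exact hcd
    have hFTC := intervalIntegral.integral_eq_sub_of_hasDerivAt_of_le hse hc.continuousOn hderiv hint
    rw [edist_comm, edist_eq_enorm_sub, ← hFTC, intervalIntegral.integral_of_le hse]
    refine (enorm_integral_le_lintegral_enorm _).trans (le_of_eq ?_)
    rw [← restrict_Ioo_eq_restrict_Ioc]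
    refine setLIntegral_congr_fun measurableSet_Ioo ?_
    intro x hx
    dsimp only
    rw [(hderiv x hx).deriv]

/-- The Euclidean length dominates the distance of the end points. -/
theorem PC1On.edist_le {γ : ℝ → Rd d} {a b : ℝ} (h : PC1On γ a b) (hab : a ≤ b) :
    edist (γ a) (γ b) ≤ ∫⁻ t in Icc a b, ‖deriv γ t‖ₑ := by
  refine B1a_ind h (fun e => edist (γ a) (γ e) ≤ ∫⁻ t in Icc a e, ‖deriv γ t‖ₑ) ?_ ?_
  · simp
  · intro s e has hse _ hP hc
    have h1 : Icc a e = Icc a s ∪ Ioc s e := (Icc_union_Ioc_eq_Icc has hse).symm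
    have h2 : Disjoint (Icc a s) (Ioc s e) := by
      rw [Set.disjoint_left]
      intro x hx hx'
      exact absurd hx.2 (not_le.mpr hx'.1)
    rw [h1, lintegral_union measurableSet_Ioc h2]
    exact (edist_triangle _ (γ s) _).trans (add_le_add hP (B1a_piece hse hc))

/-- The Euclidean length is finite. -/
theorem PC1On.lintegral_lt_top {γ : ℝ → Rd d} {a b : ℝ} (h : PC1On γ a b) (hab : a ≤ b) :
    ∫⁻ t in Icc a b, ‖deriv γ t‖ₑ < ∞ := by
  obtain ⟨C, hC⟩ := h.lipschitz hab
  rw [← restrict_Ioo_eq_restrict_Icc]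
  have h1 : ∫⁻ t in Ioo a b, ‖deriv γ t‖ₑ ≤ ∫⁻ _ in Ioo a b, (C : ℝ≥0∞) := by
    refine setLIntegral_mono measurable_const ?_
    intro x hx
    have h2 : ‖deriv γ x‖ ≤ C := norm_deriv_le_of_lipschitzOn (Icc_mem_nhds hx.1 hx.2) hC
    rw [enorm_eq_nnnorm]
    exact_mod_cast h2
  refine lt_of_le_of_lt h1 ?_
  rw [setLIntegral_const, Real.volume_Ioo]
  exact ENNReal.mul_lt_top ENNReal.coe_lt_top ENNReal.ofReal_lt_top

end MP_d19698_pr
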