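import Pool.Agent.Lib.MP_d19698_pr.B1a

/-!
# B1b: lengths of curves
-/

open MeasureTheory ProbabilityTheory Filter Topology Set
open scoped ENNReal NNReal

namespace MP_d19698_pr

variable {d : ℕ}

namespace Curve

/-- Restriction of a curve to a subinterval `[s,t] ⊆ [a,b]`. -/
def sub (c : Curve d) (s t : ℝ) (hs : c.a ≤ s) (hst : s ≤ t) (ht : t ≤ c.b) : Curve d :=
  ⟨c.fn, s, t, hst, c.pc1.sub hs hst ht⟩

theorem measurableSet_preimage (c : Curve d) {S : Set (Rd d)} (hS : MeasurableSet S) :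
    MeasurableSet (Icc c.a c.b ∩ c.fn ⁻¹' S) := by
  have hc : Continuous ((Icc c.a c.b).restrict c.fn) := continuousOn_iff_continuous_restrict.1 c.pc1.continuousOn
  have hm : MeasurableSet (((Icc c.a c.b).restrict c.fn) ⁻¹' S) := hc.measurable hS
  have h := measurableSet_Icc.subtype_image hm
  convert h using 1
  ext t
  simp only [mem_inter_iff, mem_preimage, mem_image, Subtype.exists, Set.restrict_apply]
  constructor
  · rintro ⟨h1, h2⟩; exact ⟨t, h1, h2, rfl⟩
  · rintro ⟨u, h1, h2, rfl⟩; exact ⟨h1, h2⟩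

theorem isCompact_img (c : Curve d) : IsCompact c.img := by
  exact isCompact_Icc.image_of_continuousOn c.pc1.continuousOn

theorem isPreconnected_img (c : Curve d) : IsPreconnected c.img := by
  exact isPreconnected_Icc.image _ c.pc1.continuousOn

theorem src_mem_img (c : Curve d) : c.src ∈ c.img := ⟨c.a, left_mem_Icc.2 c.hab, rfl⟩

theorem tgt_mem_img (c : Curve d) : c.tgt ∈ c.img := ⟨c.b, right_mem_Icc.2 c.hab, rfl⟩

/-- monotonicity in the weight (only values on the image matter) and in the set -/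
theorem len_le (c : Curve d) {f g : Rd d → ℝ} {M : ℝ} {S T : Set (Rd d)} (hS : MeasurableSet S) (hST : S ∩ c.img ⊆ T)
    (h : ∀ x ∈ S ∩ c.img, f x ≤ g x + M) : c.len f S ≤ ENNReal.ofReal (Real.exp M) * c.len g T := by
  have hm := c.measurableSet_preimage hS
  calc c.len f S ≤ ∫⁻ t in Icc c.a c.b ∩ c.fn ⁻¹' S,
        ENNReal.ofReal (Real.exp M) * (ENNReal.ofReal (Real.exp (g (c.fn t))) * ‖deriv c.fn t‖ₑ) := by
        unfold len
        refine setLIntegral_mono' hm ?_
        rintro t ⟨ht, htS⟩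
        rw [← mul_assoc, ← ENNReal.ofReal_mul (Real.exp_pos M).le, ← Real.exp_add]
        refine mul_le_mul_left ?_ _
        refine ENNReal.ofReal_le_ofReal (Real.exp_le_exp.2 ?_)
        have := h (c.fn t) ⟨htS, ⟨t, ht, rfl⟩⟩
        linarith
    _ = ENNReal.ofReal (Real.exp M) * ∫⁻ t in Icc c.a c.b ∩ c.fn ⁻¹' S,
        ENNReal.ofReal (Real.exp (g (c.fn t))) * ‖deriv c.fn t‖ₑ :=
        lintegral_const_mul' _ _ ENNReal.ofReal_ne_top
    _ ≤ _ := by
        unfold len
        refine mul_le_mul_right ?_ _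
        refine lintegral_mono_set ?_
        rintro t ⟨ht, htS⟩
        exact ⟨ht, hST ⟨htS, ⟨t, ht, rfl⟩⟩⟩

theorem len_mono (c : Curve d) (f : Rd d → ℝ) {S T : Set (Rd d)} (hST : S ⊆ T) : c.len f S ≤ c.len f T := by
  unfold len
  exact lintegral_mono_set (inter_subset_inter_right _ (preimage_mono hST))

/-- additivity -/
theorem len_union (c : Curve d) (f : Rd d → ℝ) {S T : Set (Rd d)} (hT : MeasurableSet T) (hST : Disjoint S T) :
    c.len f (S ∪ T) = c.len f S + c.len f T := by
  unfold len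
  rw [preimage_union, inter_union_distrib_left]
  refine lintegral_union (c.measurableSet_preimage hT) ?_
  exact (hST.preimage c.fn).mono inter_subset_right inter_subset_right

/-- `c.len f S` is finite if `f` is bounded above on the image. -/
theorem len_lt_top (c : Curve d) (f : Rd d → ℝ) (S : Set (Rd d)) {M : ℝ} (h : ∀ x ∈ c.img, f x ≤ M) :
    c.len f S < ∞ := by
  calc c.len f S ≤ ∫⁻ t in Icc c.a c.b, ENNReal.ofReal (Real.exp (f (c.fn t))) * ‖deriv c.fn t‖ₑ := by
        unfold len
        exact lintegral_mono_set inter_subset_left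
    _ ≤ ∫⁻ t in Icc c.a c.b, ENNReal.ofReal (Real.exp M) * ‖deriv c.fn t‖ₑ := by
        refine setLIntegral_mono' measurableSet_Icc ?_
        intro t ht
        refine mul_le_mul_left ?_ _
        exact ENNReal.ofReal_le_ofReal (Real.exp_le_exp.2 (h _ ⟨t, ht, rfl⟩))
    _ = ENNReal.ofReal (Real.exp M) * ∫⁻ t in Icc c.a c.b, ‖deriv c.fn t‖ₑ :=
        lintegral_const_mul' _ _ ENNReal.ofReal_ne_top
    _ < ∞ := ENNReal.mul_lt_top ENNReal.ofReal_lt_top (c.pc1.lintegral_lt_top c.hab)

/-- splitting at an intermediate time -/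
theorem len_split (c : Curve d) (f : Rd d → ℝ) (S : Set (Rd d)) (s : ℝ) (hs : c.a ≤ s) (hs' : s ≤ c.b) :
    c.len f S = (c.sub c.a s le_rfl hs hs').len f S + (c.sub s c.b hs hs' le_rfl).len f S := by
  unfold len sub
  simp only
  rw [← Measure.restrict_restrict measurableSet_Icc, ← Measure.restrict_restrict measurableSet_Icc,
    ← Measure.restrict_restrict measurableSet_Icc]
  have h1 : Icc c.a c.b = Ico c.a s ∪ Icc s c.b := by
    rw [Ico_union_Icc_eq_Icc hs hs']
  have h2 : Disjoint (Ico c.a s) (Icc s c.b) := by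
    rw [Set.disjoint_left]
    intro x hx hx'
    exact absurd hx.2 (not_lt.2 hx'.1)
  rw [h1, lintegral_union measurableSet_Icc h2]
  congr 1
  exact setLIntegral_congr Ico_ae_eq_Icc

/-- a subcurve is shorter; more precisely its length is the length over the subinterval, and if the open subinterval is mapped
into `S` then it is at most `c.len f S`. -/
theorem sub_len_le (c : Curve d) (f : Rd d → ℝ) {S : Set (Rd d)} {s t : ℝ} (hs : c.a ≤ s) (hst : s ≤ t) (ht : t ≤ c.b)
    (h : ∀ u ∈ Ioo s t, c.fn u ∈ S) : (c.sub s t hs hst ht).len f univ ≤ c.len f S := by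
  unfold len sub
  simp only [preimage_univ, inter_univ]
  rw [← setLIntegral_congr (Ioo_ae_eq_Icc (μ := volume) (a := s) (b := t))]
  refine lintegral_mono_set ?_
  intro u hu
  exact ⟨⟨hs.trans hu.1.le, hu.2.le.trans ht⟩, h u hu⟩

/-- Euclidean lower bound: `e^{-M} ‖src - tgt‖ ≤ len`. -/
theorem le_len (c : Curve d) (f : Rd d → ℝ) {M : ℝ} (h : ∀ x ∈ c.img, -M ≤ f x) :
    ENNReal.ofReal (Real.exp (-M) * ‖c.src - c.tgt‖) ≤ c.len f univ := by
  have h1 := c.pc1.edist_le c.hab
  calc ENNReal.ofReal (Real.exp (-M) * ‖c.src - c.tgt‖)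
      = ENNReal.ofReal (Real.exp (-M)) * edist (c.fn c.a) (c.fn c.b) := by
        rw [ENNReal.ofReal_mul (Real.exp_pos _).le, edist_dist, dist_eq_norm]
        rfl
    _ ≤ ENNReal.ofReal (Real.exp (-M)) * ∫⁻ t in Icc c.a c.b, ‖deriv c.fn t‖ₑ := mul_le_mul_right h1 _
    _ = ∫⁻ t in Icc c.a c.b, ENNReal.ofReal (Real.exp (-M)) * ‖deriv c.fn t‖ₑ :=
        (lintegral_const_mul' _ _ ENNReal.ofReal_ne_top).symm
    _ ≤ c.len f univ := by
        unfold len
        simp only [preimage_univ, inter_univ]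
        refine setLIntegral_mono' measurableSet_Icc ?_
        intro t ht
        refine mul_le_mul_left ?_ _
        exact ENNReal.ofReal_le_ofReal (Real.exp_le_exp.2 (h _ ⟨t, ht, rfl⟩))

end Curve

end MP_d19698_pr
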