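import Pool.Agent.Lib.MP_d19698_pr.B1b

/-!
# B1c: constructions of curves
-/

open MeasureTheory ProbabilityTheory Filter Topology Set
open scoped ENNReal NNReal

namespace MP_d19698_pr

variable {d : ℕ}

namespace Curve

private lemma b1c_deriv (γ : ℝ → Rd d) (p q t : ℝ) :
    deriv (fun s => γ (p * s + q)) t = p • deriv γ (p * t + q) := by
  have h1 := deriv_comp_mul_left p (fun u => γ (u + q)) t
  rw [deriv_comp_add_const] at h1
  exact h1

private lemma b1c_map (p q : ℝ) (hp : p ≠ 0) :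
    Measure.map (fun t : ℝ => p * t + q) volume = ENNReal.ofReal |p⁻¹| • volume := by
  have h1 : (fun t : ℝ => p * t + q) = (fun t => t + q) ∘ (fun t => p * t) := rfl
  rw [h1, ← Measure.map_map (measurable_add_const q) (measurable_const_mul p),
    Real.map_volume_mul_left hp, Measure.map_smul, map_add_right_eq_self]

private lemma b1c_emb (p q : ℝ) (hp : p ≠ 0) : MeasurableEmbedding (fun t : ℝ => p * t + q) := by
  have h1 : (fun t : ℝ => p * t + q) = (fun t => t + q) ∘ (fun t => p * t) := rfl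
  rw [h1]
  exact (measurableEmbedding_addRight q).comp (measurableEmbedding_mulLeft₀ hp)

/-- change of variables -/
private lemma b1c_cov (γ : ℝ → Rd d) (f : Rd d → ℝ) (Y : Set ℝ) (p q : ℝ) (hp : p ≠ 0) :
    ∫⁻ t in (fun t => p * t + q) ⁻¹' Y, ENNReal.ofReal (Real.exp (f (γ (p * t + q)))) *
      ‖deriv (fun s => γ (p * s + q)) t‖ₑ =
    ∫⁻ t in Y, ENNReal.ofReal (Real.exp (f (γ t))) * ‖deriv γ t‖ₑ := by
  set F : ℝ → ℝ≥0∞ := fun t => ENNReal.ofReal (Real.exp (f (γ t))) * ‖deriv γ t‖ₑ with hF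
  have hemb := b1c_emb p q hp
  have h1 : ∀ t, ENNReal.ofReal (Real.exp (f (γ (p * t + q)))) *
      ‖deriv (fun s => γ (p * s + q)) t‖ₑ = ‖p‖ₑ * F (p * t + q) := by
    intro t
    rw [b1c_deriv, enorm_smul, hF]
    ring
  simp only [h1]
  rw [lintegral_const_mul' _ _ enorm_ne_top]
  have h2 : ∫⁻ t in (fun t => p * t + q) ⁻¹' Y, F (p * t + q) =
      ENNReal.ofReal |p⁻¹| * ∫⁻ t in Y, F t := by
    have h3 : ∫⁻ t, F t ∂((Measure.map (fun t : ℝ => p * t + q) volume).restrict Y) =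
        ∫⁻ t in (fun t => p * t + q) ⁻¹' Y, F (p * t + q) := by
      rw [hemb.restrict_map, hemb.lintegral_map]
    rw [← h3, b1c_map p q hp, Measure.restrict_smul, lintegral_smul_measure, smul_eq_mul]
  rw [h2, ← mul_assoc]
  have h4 : ‖p‖ₑ * ENNReal.ofReal |p⁻¹| = 1 := by
    rw [← ofReal_norm_eq_enorm, Real.norm_eq_abs, ← ENNReal.ofReal_mul (abs_nonneg _), ← abs_mul,
      mul_inv_cancel₀ hp, abs_one, ENNReal.ofReal_one]
  rw [h4, one_mul]

/-- affine change of parameter -/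
private lemma b1c_affine (c : Curve d) (p q a' b' : ℝ) (hp : p ≠ 0) (hab : a' ≤ b')
    (hmin : min (p * a' + q) (p * b' + q) = c.a) (hmax : max (p * a' + q) (p * b' + q) = c.b)
    (hpre : (fun t => p * t + q) ⁻¹' Icc c.a c.b = Icc a' b') :
    ∃ c' : Curve d, c'.a = a' ∧ c'.b = b' ∧ c'.fn = (fun t => c.fn (p * t + q)) ∧
      c'.img = c.img ∧ ∀ f S, c'.len f S = c.len f S := by
  have hpc : PC1On (fun t => c.fn (p * t + q)) a' b' := by
    apply PC1On.comp_affine _ hp hab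
    rw [hmin, hmax]
    exact c.pc1
  refine ⟨⟨fun t => c.fn (p * t + q), a', b', hab, hpc⟩, rfl, rfl, rfl, ?_, ?_⟩
  · have hsurj : Function.Surjective (fun t : ℝ => p * t + q) := by
      intro u
      refine ⟨(u - q) / p, ?_⟩
      show p * ((u - q) / p) + q = u
      field_simp
      ring
    show (fun t => c.fn (p * t + q)) '' Icc a' b' = c.fn '' Icc c.a c.b
    rw [← hpre]
    have h1 : (fun t => c.fn (p * t + q)) = c.fn ∘ (fun t => p * t + q) := rfl
    rw [h1, image_comp, image_preimage_eq _ hsurj]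
  · intro f S
    have h1 := b1c_cov c.fn f (Icc c.a c.b ∩ c.fn ⁻¹' S) p q hp
    show ∫⁻ t in Icc a' b' ∩ (fun t => c.fn (p * t + q)) ⁻¹' S,
      ENNReal.ofReal (Real.exp (f (c.fn (p * t + q)))) *
        ‖deriv (fun s => c.fn (p * s + q)) t‖ₑ = _
    have h2 : Icc a' b' ∩ (fun t => c.fn (p * t + q)) ⁻¹' S =
        (fun t => p * t + q) ⁻¹' (Icc c.a c.b ∩ c.fn ⁻¹' S) := by
      rw [preimage_inter, hpre]
      rfl
    rw [h2, h1]
    rfl

/-- the constant curve -/
theorem exists_const (x : Rd d) : ∃ c : Curve d, c.src = x ∧ c.tgt = x ∧ c.img = {x} ∧ ∀ f S, c.len f S = 0 := by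
  refine ⟨⟨fun _ => x, 0, 0, le_rfl, ⟨0, fun _ => 0, monotone_const, rfl, rfl,
    fun i hi => absurd hi (Nat.not_lt_zero i)⟩⟩, rfl, rfl, ?_, ?_⟩
  · show (fun _ : ℝ => x) '' Icc (0 : ℝ) 0 = {x}
    rw [Icc_self, image_singleton]
  · intro f S
    show ∫⁻ t in Icc (0 : ℝ) 0 ∩ (fun _ : ℝ => x) ⁻¹' S,
      ENNReal.ofReal (Real.exp (f x)) * ‖deriv (fun _ : ℝ => x) t‖ₑ = 0
    simp

private lemma b1c_ae {X A : Set ℝ} (hA : MeasurableSet A) {F G : ℝ → ℝ≥0∞} (b : ℝ)
    (h : ∀ t ∈ A, t ≠ b → F t = G t) :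
    ∫⁻ t in A ∩ X, F t = ∫⁻ t in A ∩ X, G t := by
  rw [← Measure.restrict_restrict hA]
  apply lintegral_congr_ae
  have h1 : ∀ᵐ t ∂((volume.restrict X).restrict A), t ∈ A := ae_restrict_mem hA
  have h2 : ∀ᵐ t ∂((volume.restrict X).restrict A), t ≠ b := by
    apply ae_restrict_of_ae
    apply ae_restrict_of_ae
    exact Measure.ae_ne volume b
  filter_upwards [h1, h2] with t ht htb
  exact h t ht htb

private lemma b1c_join (c c' : Curve d) (hb : c'.a = c.b) (h : c.fn c.b = c'.fn c.b) :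
    ∃ c'' : Curve d, c''.src = c.src ∧ c''.tgt = c'.tgt ∧ c''.img = c.img ∪ c'.img ∧
      ∀ f S, c''.len f S = c.len f S + c'.len f S := by
  have hab := c.hab
  have hab' : c.b ≤ c'.b := by rw [← hb]; exact c'.hab
  set fn : ℝ → Rd d := fun t => if t ≤ c.b then c.fn t else c'.fn t with hfn
  have hf1 : ∀ t, t ≤ c.b → fn t = c.fn t := fun t ht => by simp only [hfn, if_pos ht]
  have hf2 : ∀ t, c.b ≤ t → fn t = c'.fn t := by
    intro t ht
    rcases ht.eq_or_lt with h1 | h1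
    · rw [← h1, hf1 c.b le_rfl, h]
    · simp only [hfn, if_neg (not_le.2 h1)]
  have hpc1 : PC1On fn c.a c.b := c.pc1.congr hab (fun t ht => hf1 t ht.2)
  have hpc2 : PC1On fn c.b c'.b := by
    have h1 := c'.pc1
    rw [hb] at h1
    exact h1.congr hab' (fun t ht => hf2 t ht.1)
  refine ⟨⟨fn, c.a, c'.b, hab.trans hab', hpc1.trans hpc2⟩, hf1 _ hab, hf2 _ hab', ?_, ?_⟩
  · show fn '' Icc c.a c'.b = c.fn '' Icc c.a c.b ∪ c'.fn '' Icc c'.a c'.b
    rw [← Icc_union_Icc_eq_Icc hab hab', image_union, hb]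
    congr 1
    · exact image_congr (fun t ht => hf1 t ht.2)
    · exact image_congr (fun t ht => hf2 t ht.1)
  · intro f S
    show ∫⁻ t in Icc c.a c'.b ∩ fn ⁻¹' S, ENNReal.ofReal (Real.exp (f (fn t))) * ‖deriv fn t‖ₑ =
      (∫⁻ t in Icc c.a c.b ∩ c.fn ⁻¹' S, ENNReal.ofReal (Real.exp (f (c.fn t))) *
        ‖deriv c.fn t‖ₑ) +
      ∫⁻ t in Icc c'.a c'.b ∩ c'.fn ⁻¹' S, ENNReal.ofReal (Real.exp (f (c'.fn t))) *
        ‖deriv c'.fn t‖ₑ
    rw [← lintegral_inter_add_diff _ (Icc c.a c'.b ∩ fn ⁻¹' S) (measurableSet_Iic (a := c.b))]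
    congr 1
    · have h1 : Icc c.a c'.b ∩ fn ⁻¹' S ∩ Iic c.b = Icc c.a c.b ∩ c.fn ⁻¹' S := by
        ext t
        simp only [mem_inter_iff, mem_Icc, mem_preimage, mem_Iic]
        constructor
        · rintro ⟨⟨⟨h2, h3⟩, h4⟩, h5⟩
          rw [hf1 t h5] at h4
          exact ⟨⟨h2, h5⟩, h4⟩
        · rintro ⟨⟨h2, h3⟩, h4⟩
          rw [hf1 t h3]
          exact ⟨⟨⟨h2, h3.trans hab'⟩, h4⟩, h3⟩
      rw [h1]
      apply b1c_ae measurableSet_Icc c.b
      intro t ht htb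
      have h2 : t < c.b := lt_of_le_of_ne ht.2 htb
      have h3 : fn =ᶠ[𝓝 t] c.fn := by
        filter_upwards [Iio_mem_nhds h2] with s hs
        exact hf1 s (le_of_lt hs)
      rw [h3.deriv_eq, hf1 t ht.2]
    · have h1 : (Icc c.a c'.b ∩ fn ⁻¹' S) \ Iic c.b = Ioc c.b c'.b ∩ c'.fn ⁻¹' S := by
        ext t
        simp only [mem_inter_iff, mem_Icc, mem_preimage, mem_Iic, Set.mem_sdiff, mem_Ioc, not_le]
        constructor
        · rintro ⟨⟨⟨h2, h3⟩, h4⟩, h5⟩
          rw [hf2 t h5.le] at h4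
          exact ⟨⟨h5, h3⟩, h4⟩
        · rintro ⟨⟨h2, h3⟩, h4⟩
          rw [hf2 t h2.le]
          exact ⟨⟨⟨hab.trans h2.le, h3⟩, h4⟩, h2⟩
      rw [h1, hb]
      have h4 : (volume : Measure ℝ).restrict (Ioc c.b c'.b ∩ c'.fn ⁻¹' S) =
          volume.restrict (Icc c.b c'.b ∩ c'.fn ⁻¹' S) := by
        apply Measure.restrict_congr_set
        exact (Ioc_ae_eq_Icc).inter (ae_eq_refl _)
      rw [← h4]
      apply b1c_ae measurableSet_Ioc c.b
      intro t ht htb
      have h3 : fn =ᶠ[𝓝 t] c'.fn := by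
        filter_upwards [Ioi_mem_nhds ht.1] with s hs
        exact hf2 s (le_of_lt hs)
      rw [h3.deriv_eq, hf2 t ht.1.le]

/-- concatenation -/
theorem exists_trans (c c' : Curve d) (h : c.tgt = c'.src) :
    ∃ c'' : Curve d, c''.src = c.src ∧ c''.tgt = c'.tgt ∧ c''.img = c.img ∪ c'.img ∧
      ∀ f S, c''.len f S = c.len f S + c'.len f S := by
  have hab' := c'.hab
  obtain ⟨e, he1, he2, he3, he4, he5⟩ := b1c_affine c' 1 (c'.a - c.b) c.b (c.b + (c'.b - c'.a))
    one_ne_zero (by linarith)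
    (by
      have h1 : 1 * c.b + (c'.a - c.b) = c'.a := by ring
      have h2 : 1 * (c.b + (c'.b - c'.a)) + (c'.a - c.b) = c'.b := by ring
      rw [h1, h2, min_eq_left hab'])
    (by
      have h1 : 1 * c.b + (c'.a - c.b) = c'.a := by ring
      have h2 : 1 * (c.b + (c'.b - c'.a)) + (c'.a - c.b) = c'.b := by ring
      rw [h1, h2, max_eq_right hab'])
    (by
      ext t
      simp only [mem_preimage, mem_Icc]
      constructor
      · rintro ⟨h1, h2⟩
        constructor <;> linarith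
      · rintro ⟨h1, h2⟩
        constructor <;> linarith)
  obtain ⟨c'', k1, k2, k3, k4⟩ := b1c_join c e he1 (by
    rw [he3]
    show c.fn c.b = c'.fn (1 * c.b + (c'.a - c.b))
    have h1 : 1 * c.b + (c'.a - c.b) = c'.a := by ring
    rw [h1]
    exact h)
  refine ⟨c'', k1, ?_, ?_, ?_⟩
  · rw [k2]
    show e.fn e.b = c'.fn c'.b
    rw [he2, he3]
    show c'.fn (1 * (c.b + (c'.b - c'.a)) + (c'.a - c.b)) = c'.fn c'.b
    congr 1
    ring
  · rw [k3, he4]
  · intro f S
    rw [k4, he5]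

/-- reversal -/
theorem exists_symm (c : Curve d) :
    ∃ c' : Curve d, c'.src = c.tgt ∧ c'.tgt = c.src ∧ c'.img = c.img ∧ ∀ f S, c'.len f S = c.len f S := by
  have hab := c.hab
  have h1 : (-1) * c.a + (c.a + c.b) = c.b := by ring
  have h2 : (-1) * c.b + (c.a + c.b) = c.a := by ring
  obtain ⟨e, he1, he2, he3, he4, he5⟩ := b1c_affine c (-1) (c.a + c.b) c.a c.b
    (by norm_num) hab
    (by rw [h1, h2, min_eq_right hab])
    (by rw [h1, h2, max_eq_left hab])
    (by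
      ext t
      simp only [mem_preimage, mem_Icc]
      constructor
      · rintro ⟨h1, h2⟩
        constructor <;> linarith
      · rintro ⟨h1, h2⟩
        constructor <;> linarith)
  refine ⟨e, ?_, ?_, he4, he5⟩
  · show e.fn e.a = c.fn c.b
    rw [he1, he3]
    show c.fn ((-1) * c.a + (c.a + c.b)) = c.fn c.b
    rw [h1]
  · show e.fn e.b = c.fn c.a
    rw [he2, he3]
    show c.fn ((-1) * c.b + (c.a + c.b)) = c.fn c.a
    rw [h2]

/-- segments -/
theorem exists_seg (x y : Rd d) : ∃ c : Curve d, c.src = x ∧ c.tgt = y ∧ c.img = segment ℝ x y ∧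
    (∀ f S, c.len f S ≤ ∫⁻ t in Icc (0 : ℝ) 1, ENNReal.ofReal (Real.exp (f (x + t • (y - x)))) * ‖y - x‖ₑ) ∧
    ∀ (f : Rd d → ℝ) (M : ℝ), (∀ p ∈ segment ℝ x y, f p ≤ M) → c.len f univ ≤ ENNReal.ofReal (Real.exp M * ‖x - y‖) := by
  have hd : ∀ t : ℝ, deriv (fun t : ℝ => x + t • (y - x)) t = y - x := by
    intro t
    have h1 : HasDerivAt (fun t : ℝ => x + t • (y - x)) ((1 : ℝ) • (y - x)) t :=
      ((hasDerivAt_id t).smul_const (y - x)).const_add x
    rw [h1.deriv, one_smul]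
  have hpc : PC1On (fun t : ℝ => x + t • (y - x)) 0 1 := by
    refine ⟨1, fun i => (i : ℝ), Nat.mono_cast, by simp, by simp, ?_⟩
    intro i _
    apply ContDiff.contDiffOn
    fun_prop
  have hlen : ∀ f S, (⟨fun t : ℝ => x + t • (y - x), 0, 1, zero_le_one, hpc⟩ : Curve d).len f S ≤
      ∫⁻ t in Icc (0 : ℝ) 1, ENNReal.ofReal (Real.exp (f (x + t • (y - x)))) * ‖y - x‖ₑ := by
    intro f S
    show ∫⁻ t in Icc (0 : ℝ) 1 ∩ (fun t : ℝ => x + t • (y - x)) ⁻¹' S,
      ENNReal.ofReal (Real.exp (f (x + t • (y - x)))) *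
        ‖deriv (fun t : ℝ => x + t • (y - x)) t‖ₑ ≤ _
    simp only [hd]
    exact lintegral_mono_set inter_subset_left
  refine ⟨⟨fun t : ℝ => x + t • (y - x), 0, 1, zero_le_one, hpc⟩, ?_, ?_, ?_, hlen, ?_⟩
  · show x + (0 : ℝ) • (y - x) = x
    rw [zero_smul, add_zero]
  · show x + (1 : ℝ) • (y - x) = y
    rw [one_smul, add_sub_cancel]
  · rw [segment_eq_image']
    rfl
  · intro f M hM
    refine (hlen f univ).trans ?_
    calc ∫⁻ t in Icc (0 : ℝ) 1, ENNReal.ofReal (Real.exp (f (x + t • (y - x)))) * ‖y - x‖ₑ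
        ≤ ∫⁻ _t in Icc (0 : ℝ) 1, ENNReal.ofReal (Real.exp M) * ‖y - x‖ₑ := by
          apply setLIntegral_mono' measurableSet_Icc
          intro t ht
          gcongr
          apply hM
          rw [segment_eq_image']
          exact ⟨t, ht, rfl⟩
      _ = ENNReal.ofReal (Real.exp M) * ‖y - x‖ₑ := by
          rw [setLIntegral_const, Real.volume_Icc, sub_zero, ENNReal.ofReal_one, mul_one]
      _ = ENNReal.ofReal (Real.exp M * ‖x - y‖) := by
          rw [ENNReal.ofReal_mul (Real.exp_pos M).le, norm_sub_rev, ofReal_norm_eq_enorm]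

/-- similarity `T y = x0 + r O y` -/
theorem exists_sim (c : Curve d) (x0 : Rd d) {r : ℝ} (hr : 0 < r) (O : Rd d ≃ₗᵢ[ℝ] Rd d) :
    ∃ c' : Curve d, c'.src = x0 + r • O c.src ∧ c'.tgt = x0 + r • O c.tgt ∧
      c'.img = (fun y => x0 + r • O y) '' c.img ∧
      ∀ f : Rd d → ℝ, c'.len f univ = ENNReal.ofReal r * c.len (fun y => f (x0 + r • O y)) univ := by
  have hpc : PC1On (fun t => x0 + r • O (c.fn t)) c.a c.b := by
    obtain ⟨m, t, h1, h2, h3, h4⟩ := c.pc1
    refine ⟨m, t, h1, h2, h3, fun i hi => ?_⟩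
    have h5 : ContDiff ℝ 1 (fun y : Rd d => x0 + r • O y) := by
      have h6 : ContDiff ℝ 1 (fun y : Rd d => O y) := O.contDiff
      exact contDiff_const.add (h6.const_smul r)
    exact h5.comp_contDiffOn (h4 i hi)
  refine ⟨⟨fun t => x0 + r • O (c.fn t), c.a, c.b, c.hab, hpc⟩, rfl, rfl, ?_, ?_⟩
  · show (fun t => x0 + r • O (c.fn t)) '' Icc c.a c.b =
      (fun y => x0 + r • O y) '' (c.fn '' Icc c.a c.b)
    rw [image_image]
  · intro f
    have hderiv : ∀ t, deriv (fun t => x0 + r • O (c.fn t)) t = r • O (deriv c.fn t) := by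
      intro t
      have h1 : deriv (fun t => O (c.fn t)) t = O (deriv c.fn t) := by
        have h2 : fderiv ℝ (⇑O ∘ c.fn) t =
            (O.toContinuousLinearEquiv : Rd d →L[ℝ] Rd d).comp (fderiv ℝ c.fn t) :=
          O.comp_fderiv
        have h3 : deriv (fun t => O (c.fn t)) t = fderiv ℝ (⇑O ∘ c.fn) t 1 := rfl
        rw [h3, h2]
        rfl
      rw [deriv_const_add, deriv_fun_const_smul_field, h1]
    show ∫⁻ t in Icc c.a c.b ∩ (fun t => x0 + r • O (c.fn t)) ⁻¹' univ,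
      ENNReal.ofReal (Real.exp (f (x0 + r • O (c.fn t)))) *
        ‖deriv (fun t => x0 + r • O (c.fn t)) t‖ₑ = ENNReal.ofReal r *
      ∫⁻ t in Icc c.a c.b ∩ c.fn ⁻¹' univ,
        ENNReal.ofReal (Real.exp (f (x0 + r • O (c.fn t)))) * ‖deriv c.fn t‖ₑ
    rw [preimage_univ, preimage_univ, ← lintegral_const_mul' _ _ ENNReal.ofReal_ne_top]
    refine lintegral_congr fun t => ?_
    rw [hderiv, enorm_smul]
    have h4 : ‖O (deriv c.fn t)‖ₑ = ‖deriv c.fn t‖ₑ := by
      rw [← ofReal_norm_eq_enorm, ← ofReal_norm_eq_enorm, O.norm_map]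
    have h5 : ‖r‖ₑ = ENNReal.ofReal r := by
      rw [← ofReal_norm_eq_enorm, Real.norm_of_nonneg hr.le]
    rw [h4, h5]
    ring

/-- reparametrisation on `[0,1]` -/
theorem exists_unit (c : Curve d) :
    ∃ c' : Curve d, c'.a = 0 ∧ c'.b = 1 ∧ c'.src = c.src ∧ c'.tgt = c.tgt ∧ c'.img = c.img ∧
      ∀ f S, c'.len f S = c.len f S := by
  rcases c.hab.eq_or_lt with hab | hab
  · -- the degenerate case
    have hpc : PC1On (fun _ : ℝ => c.fn c.a) 0 1 := by
      refine ⟨1, fun i => (i : ℝ), Nat.mono_cast, by simp, by simp, ?_⟩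
      intro i _
      exact contDiffOn_const
    refine ⟨⟨fun _ => c.fn c.a, 0, 1, zero_le_one, hpc⟩, rfl, rfl, rfl, ?_, ?_, ?_⟩
    · show c.fn c.a = c.fn c.b
      rw [hab]
    · show (fun _ : ℝ => c.fn c.a) '' Icc (0 : ℝ) 1 = c.fn '' Icc c.a c.b
      rw [← hab, Icc_self, image_singleton]
      exact (nonempty_Icc.2 zero_le_one).image_const _
    · intro f S
      show ∫⁻ t in Icc (0 : ℝ) 1 ∩ (fun _ : ℝ => c.fn c.a) ⁻¹' S,
        ENNReal.ofReal (Real.exp (f (c.fn c.a))) * ‖deriv (fun _ : ℝ => c.fn c.a) t‖ₑ =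
        ∫⁻ t in Icc c.a c.b ∩ c.fn ⁻¹' S, ENNReal.ofReal (Real.exp (f (c.fn t))) *
          ‖deriv c.fn t‖ₑ
      have h1 : (volume : Measure ℝ) (Icc c.a c.b ∩ c.fn ⁻¹' S) = 0 := by
        apply measure_mono_null inter_subset_left
        rw [← hab, Icc_self, Real.volume_singleton]
      rw [setLIntegral_measure_zero _ _ h1]
      simp
  · have h1 : (c.b - c.a) * 0 + c.a = c.a := by ring
    have h2 : (c.b - c.a) * 1 + c.a = c.b := by ring
    have hpos : 0 < c.b - c.a := by linarith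
    obtain ⟨e, he1, he2, he3, he4, he5⟩ := b1c_affine c (c.b - c.a) c.a 0 1
      hpos.ne' zero_le_one
      (by rw [h1, h2, min_eq_left hab.le])
      (by rw [h1, h2, max_eq_right hab.le])
      (by
        ext t
        simp only [mem_preimage, mem_Icc]
        constructor
        · rintro ⟨h3, h4⟩
          constructor
          · by_contra hcon
            have : (c.b - c.a) * t < 0 := mul_neg_of_pos_of_neg hpos (not_le.1 hcon)
            linarith
          · by_contra hcon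
            have : (c.b - c.a) * 1 < (c.b - c.a) * t :=
              mul_lt_mul_of_pos_left (not_le.1 hcon) hpos
            linarith
        · rintro ⟨h3, h4⟩
          constructor
          · have := mul_nonneg hpos.le h3
            linarith
          · have := mul_le_mul_of_nonneg_left h4 hpos.le
            linarith)
    refine ⟨e, he1, he2, ?_, ?_, he4, he5⟩
    · show e.fn e.a = c.fn c.a
      rw [he1, he3]
      show c.fn ((c.b - c.a) * 0 + c.a) = c.fn c.a
      rw [h1]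
    · show e.fn e.b = c.fn c.b
      rw [he2, he3]
      show c.fn ((c.b - c.a) * 1 + c.a) = c.fn c.b
      rw [h2]

end Curve

end MP_d19698_pr
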