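import Pool.Agent.Lib.MP_d19698_pr.B1c

/-!
# B2: basic properties of `D f A B U`
-/

open MeasureTheory ProbabilityTheory Filter Topology Set
open scoped ENNReal NNReal

namespace MP_d19698_pr

variable {d : ℕ}

theorem D_le_len (f : Rd d → ℝ) {A B U : Set (Rd d)} (c : Curve d) (hA : c.src ∈ A) (hB : c.tgt ∈ B) (hU : c.img ⊆ U) :
    D f A B U ≤ c.len f univ := by
  unfold D
  exact iInf_le_of_le c (iInf_le_of_le hA (iInf_le_of_le hB (iInf_le_of_le hU le_rfl)))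

theorem exists_curve_lt {f : Rd d → ℝ} {A B U : Set (Rd d)} {t : ℝ≥0∞} (h : D f A B U < t) :
    ∃ c : Curve d, c.src ∈ A ∧ c.tgt ∈ B ∧ c.img ⊆ U ∧ c.len f univ < t := by
  unfold D at h
  simp only [iInf_lt_iff] at h
  obtain ⟨c, hA, hB, hU, hlt⟩ := h
  exact ⟨c, hA, hB, hU, hlt⟩

theorem le_D {f : Rd d → ℝ} {A B U : Set (Rd d)} {t : ℝ≥0∞}
    (h : ∀ c : Curve d, c.src ∈ A → c.tgt ∈ B → c.img ⊆ U → t ≤ c.len f univ) : t ≤ D f A B U := by
  unfold D
  exact le_iInf fun c => le_iInf fun hA => le_iInf fun hB => le_iInf fun hU => h c hA hB hU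

theorem D_mono (f : Rd d → ℝ) {A A' B B' U U' : Set (Rd d)} (hA : A ⊆ A') (hB : B ⊆ B') (hU : U ⊆ U') :
    D f A' B' U' ≤ D f A B U :=
  le_D fun c h1 h2 h3 => D_le_len f c (hA h1) (hB h2) (h3.trans hU)

/-- `f ≤ g + M` on `U` implies `D f ≤ e^M D g`. -/
theorem D_le_exp {f g : Rd d → ℝ} {M : ℝ} {U : Set (Rd d)} (A B : Set (Rd d)) (h : ∀ x ∈ U, f x ≤ g x + M) :
    D f A B U ≤ ENNReal.ofReal (Real.exp M) * D g A B U := by
  have hM : 0 < Real.exp M := Real.exp_pos M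
  have h0 : ENNReal.ofReal (Real.exp M) ≠ 0 := by
    rw [Ne, ENNReal.ofReal_eq_zero, not_le]; exact hM
  have h1 : ENNReal.ofReal (Real.exp M) ≠ ∞ := ENNReal.ofReal_ne_top
  have h2 : D f A B U / ENNReal.ofReal (Real.exp M) ≤ D g A B U := by
    refine le_D fun c hA hB hU => ?_
    rw [ENNReal.div_le_iff h0 h1, mul_comm]
    refine (D_le_len f c hA hB hU).trans ?_
    exact c.len_le MeasurableSet.univ (fun _ _ => mem_univ _) (fun x hx => h x (hU hx.2))
  rw [ENNReal.div_le_iff h0 h1, mul_comm] at h2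
  exact h2

theorem MLip_D {A B U K : Set (Rd d)} (h : U ⊆ K) : MLip K (fun f => D f A B U) := by
  intro f g ε hfg
  refine D_le_exp A B fun x hx => ?_
  have := (abs_le.1 (hfg x (h hx))).2
  linarith

theorem D_symm (f : Rd d → ℝ) (A B U : Set (Rd d)) : D f A B U = D f B A U := by
  have key : ∀ A B : Set (Rd d), D f A B U ≤ D f B A U := by
    intro A B
    refine le_D fun c hA hB hU => ?_
    obtain ⟨c', h1, h2, h3, h4⟩ := c.exists_symm
    rw [← h4 f univ]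
    refine D_le_len f c' ?_ ?_ ?_
    · rw [h1]; exact hB
    · rw [h2]; exact hA
    · rw [h3]; exact hU
  exact le_antisymm (key A B) (key B A)

theorem D_tri (f : Rd d → ℝ) (A B : Set (Rd d)) (y : Rd d) (U : Set (Rd d)) :
    D f A B U ≤ D f A {y} U + D f {y} B U := by
  refine le_of_forall_gt fun t ht => ?_
  have h1 : D f A {y} U ≠ ∞ := fun h => by
    rw [h, top_add] at ht; exact not_top_lt ht
  have h2 : D f {y} B U ≠ ∞ := fun h => by
    rw [h, add_top] at ht; exact not_top_lt ht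
  -- choose the slack
  obtain ⟨t', ht1, ht2⟩ := exists_between ht
  have h3 : D f {y} B U < t' - D f A {y} U := by
    rw [lt_tsub_iff_left]; exact ht1
  obtain ⟨c', hA', hB', hU', hc'⟩ := exists_curve_lt h3
  have h4 : c'.len f univ ≠ ∞ := (lt_of_lt_of_le hc' le_top).ne
  have h5 : D f A {y} U < t' - c'.len f univ := by
    rw [lt_tsub_iff_right]
    rw [lt_tsub_iff_left] at hc'
    exact hc'
  obtain ⟨c, hA, hB, hU, hc⟩ := exists_curve_lt h5
  have hend : c.tgt = c'.src := by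
    rw [mem_singleton_iff] at hB hA'
    rw [hB, hA']
  obtain ⟨c'', e1, e2, e3, e4⟩ := c.exists_trans c' hend
  have h6 : D f A B U ≤ c''.len f univ := by
    refine D_le_len f c'' ?_ ?_ ?_
    · rw [e1]; exact hA
    · rw [e2]; exact hB'
    · rw [e3]; exact union_subset hU hU'
  rw [e4] at h6
  have h7 : c.len f univ + c'.len f univ < t' := by
    rw [lt_tsub_iff_right] at hc
    exact hc
  exact (h6.trans_lt h7).trans ht2

theorem D_self (f : Rd d → ℝ) {x : Rd d} {U : Set (Rd d)} (hx : x ∈ U) : D f {x} {x} U = 0 := by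
  obtain ⟨c, h1, h2, h3, h4⟩ := Curve.exists_const x
  have h := D_le_len f (A := {x}) (B := {x}) (U := U) c (by rw [h1]; rfl) (by rw [h2]; rfl)
    (by rw [h3]; exact singleton_subset_iff.2 hx)
  rw [h4] at h
  exact le_antisymm h bot_le

/-- finite chains -/
theorem D_chain (f : Rd d → ℝ) (U : Set (Rd d)) (p : ℕ → Rd d) (n : ℕ) (h0 : p 0 ∈ U) :
    D f {p 0} {p n} U ≤ ∑ i ∈ Finset.range n, D f {p i} {p (i + 1)} U := by
  induction n with
  | zero => rw [D_self f h0]; exact bot_le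
  | succ n ih =>
    rw [Finset.sum_range_succ]
    exact (D_tri f {p 0} {p (n + 1)} (p n) U).trans (add_le_add ih le_rfl)

theorem D_seg (f : Rd d → ℝ) {x y : Rd d} {U : Set (Rd d)} {M : ℝ} (hU : segment ℝ x y ⊆ U)
    (h : ∀ p ∈ segment ℝ x y, f p ≤ M) : D f {x} {y} U ≤ ENNReal.ofReal (Real.exp M * ‖x - y‖) := by
  obtain ⟨c, h1, h2, h3, -, h5⟩ := Curve.exists_seg x y
  refine (D_le_len f c (by rw [h1]; rfl) (by rw [h2]; rfl) (by rw [h3]; exact hU)).trans ?_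
  exact h5 f M h

theorem le_D_of_bdd {f : Rd d → ℝ} {A B U : Set (Rd d)} {M δ : ℝ} (h : ∀ x ∈ U, -M ≤ f x)
    (hAB : ∀ a ∈ A ∩ U, ∀ b ∈ B ∩ U, δ ≤ ‖a - b‖) : ENNReal.ofReal (Real.exp (-M) * δ) ≤ D f A B U := by
  refine le_D fun c hA hB hU => ?_
  refine le_trans ?_ (c.le_len f (M := M) fun x hx => h x (hU hx))
  apply ENNReal.ofReal_le_ofReal
  exact mul_le_mul_of_nonneg_left
    (hAB _ ⟨hA, hU c.src_mem_img⟩ _ ⟨hB, hU c.tgt_mem_img⟩) (Real.exp_pos _).le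

/-- union of the source sets / target sets -/
theorem D_iUnion_lt {ι ι' : Type*} {f : Rd d → ℝ} {A B U : Set (Rd d)} {t : ℝ≥0∞} (As : ι → Set (Rd d)) (Bs : ι' → Set (Rd d))
    (hA : A ⊆ ⋃ i, As i) (hB : B ⊆ ⋃ j, Bs j) (h : D f A B U < t) : ∃ i j, D f (As i) (Bs j) U < t := by
  obtain ⟨c, h1, h2, h3, h4⟩ := exists_curve_lt h
  obtain ⟨i, hi⟩ := mem_iUnion.1 (hA h1)
  obtain ⟨j, hj⟩ := mem_iUnion.1 (hB h2)
  exact ⟨i, j, (D_le_len f c hi hj h3).trans_lt h4⟩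

private lemma B2a_sim_le (f : Rd d → ℝ) (A B U : Set (Rd d)) (x0 : Rd d) {r : ℝ} (hr : 0 < r)
    (O : Rd d ≃ₗᵢ[ℝ] Rd d) :
    D f ((fun y => x0 + r • O y) '' A) ((fun y => x0 + r • O y) '' B) ((fun y => x0 + r • O y) '' U) ≤
      ENNReal.ofReal r * D (fun y => f (x0 + r • O y)) A B U := by
  have h0 : ENNReal.ofReal r ≠ 0 := by
    rw [Ne, ENNReal.ofReal_eq_zero, not_le]; exact hr
  have h1 : ENNReal.ofReal r ≠ ∞ := ENNReal.ofReal_ne_top
  rw [mul_comm, ← ENNReal.div_le_iff h0 h1]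
  refine le_D fun c hA hB hU => ?_
  rw [ENNReal.div_le_iff h0 h1, mul_comm]
  obtain ⟨c', e1, e2, e3, e4⟩ := c.exists_sim x0 hr O
  rw [← e4]
  refine D_le_len f c' ?_ ?_ ?_
  · rw [e1]; exact ⟨_, hA, rfl⟩
  · rw [e2]; exact ⟨_, hB, rfl⟩
  · rw [e3]; exact image_mono hU

/-- scaling: `T y = x0 + r O y`. -/
theorem D_sim (f : Rd d → ℝ) (A B U : Set (Rd d)) (x0 : Rd d) {r : ℝ} (hr : 0 < r) (O : Rd d ≃ₗᵢ[ℝ] Rd d) :
    D f ((fun y => x0 + r • O y) '' A) ((fun y => x0 + r • O y) '' B) ((fun y => x0 + r • O y) '' U) =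
      ENNReal.ofReal r * D (fun y => f (x0 + r • O y)) A B U := by
  refine le_antisymm (B2a_sim_le f A B U x0 hr O) ?_
  -- the inverse similarity is `z ↦ x1 + r⁻¹ O⁻¹ z`, `x1 = - r⁻¹ O⁻¹ x0`
  set T : Rd d → Rd d := fun y => x0 + r • O y with hT
  set x1 : Rd d := -(r⁻¹ • O.symm x0) with hx1
  have hr' : 0 < r⁻¹ := inv_pos.2 hr
  have hinv : ∀ y, x1 + r⁻¹ • O.symm (T y) = y := by
    intro y
    rw [hx1, hT]
    simp only [map_add, map_smul, LinearIsometryEquiv.symm_apply_apply, smul_add, smul_smul,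
      inv_mul_cancel₀ hr.ne', one_smul]
    abel
  have hinv' : ∀ z, T (x1 + r⁻¹ • O.symm z) = z := by
    intro z
    rw [hx1, hT]
    simp only [map_add, map_smul, map_neg, LinearIsometryEquiv.apply_symm_apply, smul_add,
      smul_neg, smul_smul, mul_inv_cancel₀ hr.ne', one_smul]
    abel
  have himg : ∀ S : Set (Rd d), (fun z => x1 + r⁻¹ • O.symm z) '' (T '' S) = S := by
    intro S
    rw [image_image]
    simp only [hinv, image_id']
  have h2 := B2a_sim_le (fun y => f (T y)) (T '' A) (T '' B) (T '' U) x1 hr' O.symm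
  rw [himg, himg, himg] at h2
  simp only [hinv'] at h2
  calc ENNReal.ofReal r * D (fun y => f (x0 + r • O y)) A B U
      ≤ ENNReal.ofReal r * (ENNReal.ofReal r⁻¹ * D f (T '' A) (T '' B) (T '' U)) :=
        mul_le_mul_right h2 _
    _ = D f (T '' A) (T '' B) (T '' U) := by
        rw [← mul_assoc, ← ENNReal.ofReal_mul hr.le, mul_inv_cancel₀ hr.ne', ENNReal.ofReal_one, one_mul]

end MP_d19698_pr
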