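import Pool.Agent.Lib.MP_d19698_pr.B2b

/-!
# B3: annulus crossings of a curve
-/

open MeasureTheory ProbabilityTheory Filter Topology Set
open scoped ENNReal NNReal

namespace MP_d19698_pr

variable {d : ℕ}

/-- sup distance to `x` -/
private noncomputable def B3_N (x y : Rd d) : ℝ := ‖(fun i => y i - x i : Fin d → ℝ)‖

private theorem B3_N_cont (x : Rd d) : Continuous (B3_N x) := by
  unfold B3_N
  fun_prop

private theorem B3_le [Nonempty (Fin d)] {x y : Rd d} {r : ℝ} : y ∈ CBox x r ↔ B3_N x y ≤ r := by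
  unfold B3_N CBox
  rw [pi_norm_le_iff_of_nonempty]
  rfl

private theorem B3_lt [Nonempty (Fin d)] {x y : Rd d} {r : ℝ} : y ∈ Box x r ↔ B3_N x y < r := by
  unfold B3_N Box
  rcases lt_or_ge 0 r with h | h
  · rw [pi_norm_lt_iff h]
    rfl
  · constructor
    · intro h1
      obtain ⟨i⟩ := (inferInstance : Nonempty (Fin d))
      have h2 : |y i - x i| < r := h1 i
      exact absurd (abs_nonneg (y i - x i)) (not_le.2 (h2.trans_le h))
    · intro h1
      exact absurd (norm_nonneg _) (not_le.2 (h1.trans_le h))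

private theorem B3_eq [Nonempty (Fin d)] {x y : Rd d} {r : ℝ} : y ∈ SBox x r ↔ B3_N x y = r := by
  unfold SBox
  rw [Set.mem_sdiff, B3_le, B3_lt]
  constructor
  · rintro ⟨h1, h2⟩
    exact le_antisymm h1 (not_lt.1 h2)
  · intro h
    exact ⟨h.le, h.not_lt⟩

private theorem B3_cont (c : Curve d) (x : Rd d) :
    ContinuousOn (fun u => B3_N x (c.fn u)) (Icc c.a c.b) :=
  (B3_N_cont x).comp_continuousOn c.pc1.continuousOn

/-- first time with `N ≥ ρ` -/
private theorem B3_first {g : ℝ → ℝ} {a b ρ : ℝ} (_hab : a ≤ b) (hg : ContinuousOn g (Icc a b))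
    (ha : g a ≤ ρ) (hne : ∃ u ∈ Icc a b, ρ ≤ g u) :
    ∃ t ∈ Icc a b, g t = ρ ∧ ∀ u ∈ Icc a b, ρ ≤ g u → t ≤ u := by
  set S : Set ℝ := Icc a b ∩ g ⁻¹' Ici ρ with hS
  have hcl : IsClosed S := hg.preimage_isClosed_of_isClosed isClosed_Icc isClosed_Ici
  have hSne : S.Nonempty := by
    obtain ⟨u, hu, hu'⟩ := hne
    exact ⟨u, hu, hu'⟩
  have hbdd : BddBelow S := ⟨a, fun u hu => hu.1.1⟩
  have hmem := hcl.csInf_mem hSne hbdd
  have hmin : ∀ u ∈ Icc a b, ρ ≤ g u → sInf S ≤ u := fun u hu hu' => csInf_le hbdd ⟨hu, hu'⟩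
  refine ⟨sInf S, hmem.1, ?_, hmin⟩
  have hsub : Icc a (sInf S) ⊆ Icc a b := Icc_subset_Icc le_rfl hmem.1.2
  have h1 := intermediate_value_Icc hmem.1.1 (hg.mono hsub)
  obtain ⟨u, hu, hu'⟩ := h1 ⟨ha, hmem.2⟩
  have h2 := hmin u (hsub hu) hu'.ge
  have h3 : u = sInf S := le_antisymm hu.2 h2
  rw [← h3]
  exact hu'

/-- last time with `N ≤ ρ` -/
private theorem B3_last {g : ℝ → ℝ} {a b ρ : ℝ} (_hab : a ≤ b) (hg : ContinuousOn g (Icc a b))
    (hb : ρ ≤ g b) (hne : ∃ u ∈ Icc a b, g u ≤ ρ) :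
    ∃ t ∈ Icc a b, g t = ρ ∧ ∀ u ∈ Icc a b, g u ≤ ρ → u ≤ t := by
  set S : Set ℝ := Icc a b ∩ g ⁻¹' Iic ρ with hS
  have hcl : IsClosed S := hg.preimage_isClosed_of_isClosed isClosed_Icc isClosed_Iic
  have hSne : S.Nonempty := by
    obtain ⟨u, hu, hu'⟩ := hne
    exact ⟨u, hu, hu'⟩
  have hbdd : BddAbove S := ⟨b, fun u hu => hu.1.2⟩
  have hmem := hcl.csSup_mem hSne hbdd
  have hmax : ∀ u ∈ Icc a b, g u ≤ ρ → u ≤ sSup S := fun u hu hu' => le_csSup hbdd ⟨hu, hu'⟩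
  refine ⟨sSup S, hmem.1, ?_, hmax⟩
  have hsub : Icc (sSup S) b ⊆ Icc a b := Icc_subset_Icc hmem.1.1 le_rfl
  have h1 := intermediate_value_Icc hmem.1.2 (hg.mono hsub)
  obtain ⟨u, hu, hu'⟩ := h1 ⟨hmem.2, hb⟩
  have h2 := hmax u (hsub hu) hu'.le
  have h3 : u = sSup S := le_antisymm h2 hu.1
  rw [← h3]
  exact hu'

/-- first time with `N ≤ ρ` -/
private theorem B3_first' {g : ℝ → ℝ} {a b ρ : ℝ} (_hab : a ≤ b) (hg : ContinuousOn g (Icc a b))
    (ha : ρ ≤ g a) (hne : ∃ u ∈ Icc a b, g u ≤ ρ) :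
    ∃ t ∈ Icc a b, g t = ρ ∧ ∀ u ∈ Icc a b, g u ≤ ρ → t ≤ u := by
  obtain ⟨t, ht, h1, h2⟩ := B3_first (g := fun u => -g u) (ρ := -ρ) _hab hg.neg
    (by simpa using ha) (by
      obtain ⟨u, hu, hu'⟩ := hne
      exact ⟨u, hu, by simpa using hu'⟩)
  refine ⟨t, ht, by simpa using h1, fun u hu hu' => h2 u hu (by simpa using hu')⟩

private theorem B3_sub_len (c : Curve d) (f : Rd d → ℝ) (S : Set (Rd d)) {s t : ℝ} (hs : c.a ≤ s)
    (hst : s ≤ t) (ht : t ≤ c.b) : (c.sub s t hs hst ht).len f S ≤ c.len f S := by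
  unfold Curve.len
  apply lintegral_mono_set
  exact inter_subset_inter_left _ (Icc_subset_Icc hs ht)

private theorem B3_sub_img (c : Curve d) {s t : ℝ} (hs : c.a ≤ s)
    (hst : s ≤ t) (ht : t ≤ c.b) : (c.sub s t hs hst ht).img ⊆ c.img :=
  image_mono (Icc_subset_Icc hs ht)

/-- the oriented version -/
private theorem B3_Cr [Nonempty (Fin d)] (f : Rd d → ℝ) (c : Curve d) {x : Rd d} {r r' : ℝ}
    (hr : r < r') (h1 : B3_N x c.src ≤ r) (h2 : r' ≤ B3_N x c.tgt) :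
    Cr f x r r' ≤ c.len f (CBox x r' \ CBox x r) := by
  have hg := B3_cont c x
  obtain ⟨t2, ht2, e2, hmin⟩ := B3_first c.hab hg (h1.trans hr.le)
    ⟨c.b, right_mem_Icc.2 c.hab, h2⟩
  have hsub2 : Icc c.a t2 ⊆ Icc c.a c.b := Icc_subset_Icc le_rfl ht2.2
  obtain ⟨t1, ht1, e1, hmax⟩ := B3_last ht2.1 (hg.mono hsub2)
    (show r ≤ B3_N x (c.fn t2) by rw [e2]; exact hr.le) ⟨c.a, left_mem_Icc.2 ht2.1, h1⟩
  have hin : ∀ u ∈ Icc t1 t2, r ≤ B3_N x (c.fn u) ∧ B3_N x (c.fn u) ≤ r' := by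
    intro u hu
    have hu' : u ∈ Icc c.a t2 := ⟨ht1.1.trans hu.1, hu.2⟩
    constructor
    · by_contra hcon
      push Not at hcon
      have h3 := hmax u hu' hcon.le
      have h4 : u = t1 := le_antisymm h3 hu.1
      rw [h4] at hcon
      exact absurd e1 hcon.ne
    · by_contra hcon
      push Not at hcon
      have h3 := hmin u (hsub2 hu') hcon.le
      have h4 : u = t2 := le_antisymm hu.2 h3
      rw [h4] at hcon
      exact absurd e2 hcon.ne'
  have hopen : ∀ u ∈ Ioo t1 t2, c.fn u ∈ CBox x r' \ CBox x r := by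
    intro u hu
    rw [Set.mem_sdiff, B3_le, B3_le]
    refine ⟨(hin u ⟨hu.1.le, hu.2.le⟩).2, ?_⟩
    intro hcon
    have hu' : u ∈ Icc c.a t2 := ⟨ht1.1.trans hu.1.le, hu.2.le⟩
    exact absurd (hmax u hu' hcon) (not_le.2 hu.1)
  refine le_trans ?_ (c.sub_len_le f ht1.1 ht1.2 ht2.2 hopen)
  apply D_le_len
  · exact B3_eq.2 e1
  · exact B3_eq.2 e2
  · rintro y ⟨u, hu, rfl⟩
    unfold Ann
    rw [Set.mem_sdiff, B3_le, B3_lt]
    exact ⟨(hin u hu).2, not_lt.2 (hin u hu).1⟩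

/-- A curve which visits `CBox x r` and which also visits the complement of `Box x r'` (`r < r'`) has a subcurve crossing the closed
annulus, whose open part lies in `CBox x r' \ CBox x r`. Hence its length inside `CBox x r' \ CBox x r` is at least `Cr f x r r'`.

Proof. Put `N(t) = sup_i |c.fn t i - x i|` (continuous on `[a,b]`). There are `s, t ∈ [a,b]` with `N s ≤ r`, `N t ≥ r'`. Suppose `s < t`
(otherwise use the reversed curve, or argue symmetrically). Let `t2 = inf {u ∈ [s,t] : N u ≥ r'}` (closed set, so `N t2 = r'` by continuity,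
`N u < r'` on `[s,t2)`), `t1 = sup {u ∈ [s,t2] : N u ≤ r}` (`N t1 = r`, `N u > r` on `(t1,t2]`). On `[t1,t2]` the curve is in `Ann x r r'`,
it starts in `SBox x r`, it ends in `SBox x r'`, and on `(t1,t2)` it lies in `CBox x r' \ CBox x r`. Use `D_le_len` for the subcurve and
`Curve.sub_len_le`. -/
theorem Cr_le_len (f : Rd d → ℝ) (c : Curve d) {x : Rd d} {r r' : ℝ} (hr : r < r')
    (h1 : ∃ p ∈ c.img, p ∈ CBox x r) (h2 : ∃ p ∈ c.img, p ∉ Box x r') :
    Cr f x r r' ≤ c.len f (CBox x r' \ CBox x r) := by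
  have hne : Nonempty (Fin d) := by
    obtain ⟨p, _, hp⟩ := h2
    by_contra hcon
    rw [not_nonempty_iff] at hcon
    exact hp (fun i => (hcon.false i).elim)
  obtain ⟨p, ⟨s, hs, rfl⟩, hp⟩ := h1
  obtain ⟨q, ⟨t, ht, rfl⟩, hq⟩ := h2
  rw [B3_le] at hp
  rw [B3_lt, not_lt] at hq
  rcases le_total s t with hst | hts
  · exact (B3_Cr f (c.sub s t hs.1 hst ht.2) hr hp hq).trans (B3_sub_len c f _ hs.1 hst ht.2)
  · obtain ⟨c', e1, e2, _, e4⟩ := (c.sub t s ht.1 hts hs.2).exists_symm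
    have h3 : B3_N x c'.src ≤ r := by
      rw [e1]
      exact hp
    have h4 : r' ≤ B3_N x c'.tgt := by
      rw [e2]
      exact hq
    have h5 := B3_Cr f c' hr h3 h4
    rw [e4] at h5
    exact h5.trans (B3_sub_len c f _ ht.1 hts hs.2)

/-- The same for the crossing distance of a subcurve started at time `s`: general form used in shortcut arguments. If a curve starts outside
`Box x r`, ends outside `Box x r` and visits `Box x r`, then its first and last points in `CBox x r` lie on `SBox x r`: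
there are `s ≤ t` in `[a,b]` with `c.fn s, c.fn t ∈ SBox x r` and `c.fn u ∉ CBox x r` for `u < s` and for `u > t`. -/
theorem exists_first_last (c : Curve d) {x : Rd d} {r : ℝ} (hr : 0 < r) (h1 : ∃ p ∈ c.img, p ∈ CBox x r)
    (hs : c.src ∉ Box x r) (ht : c.tgt ∉ Box x r) :
    ∃ s t : ℝ, c.a ≤ s ∧ s ≤ t ∧ t ≤ c.b ∧ c.fn s ∈ SBox x r ∧ c.fn t ∈ SBox x r ∧
      ∀ u ∈ Icc c.a c.b, c.fn u ∈ CBox x r → u ∈ Icc s t := by
  have hne : Nonempty (Fin d) := by
    by_contra hcon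
    rw [not_nonempty_iff] at hcon
    exact hs (fun i => (hcon.false i).elim)
  have hg := B3_cont c x
  rw [B3_lt, not_lt] at hs ht
  have hex : ∃ u ∈ Icc c.a c.b, B3_N x (c.fn u) ≤ r := by
    obtain ⟨p, ⟨u, hu, rfl⟩, hp⟩ := h1
    exact ⟨u, hu, B3_le.1 hp⟩
  obtain ⟨s, hs', es, hmin⟩ := B3_first' c.hab hg hs hex
  obtain ⟨t, ht', et, hmax⟩ := B3_last c.hab hg ht hex
  refine ⟨s, t, hs'.1, hmin t ht' et.le, ht'.2, B3_eq.2 es, B3_eq.2 et, ?_⟩
  intro u hu hu'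
  exact ⟨hmin u hu (B3_le.1 hu'), hmax u hu (B3_le.1 hu')⟩

/-- A curve from `A ⊆ Box x r` to `B ⊆ Box y r`, where `CBox x r` and `CBox y r` are disjoint, meets both spheres: if `D f A B U < t` there are
`p ∈ SBox x r` and `q ∈ SBox y r` on the curve (so in `U`) with `D f {p} {q} U < t` (subcurve between the two times, `D_symm` if they occur in the
other order; intermediate value theorem / connectedness for the existence of the sphere points). -/
theorem exists_sphere_points (f : Rd d → ℝ) {A B U : Set (Rd d)} {x y : Rd d} {r : ℝ} {t : ℝ≥0∞}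
    (hA : A ⊆ Box x r) (hB : B ⊆ Box y r) (hxy : Disjoint (CBox x r) (CBox y r)) (h : D f A B U < t) :
    ∃ p ∈ SBox x r, ∃ q ∈ SBox y r, p ∈ U ∧ q ∈ U ∧ D f {p} {q} U < t := by
  have hne : Nonempty (Fin d) := by
    by_contra hcon
    rw [not_nonempty_iff] at hcon
    exact (Set.disjoint_left.1 hxy) (a := x) (fun i => (hcon.false i).elim)
      (fun i => (hcon.false i).elim)
  obtain ⟨c, hcA, hcB, hcU, hlen⟩ := exists_curve_lt h
  have ha1 : B3_N x (c.fn c.a) < r := B3_lt.1 (hA hcA)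
  have hb1 : B3_N y (c.fn c.b) < r := B3_lt.1 (hB hcB)
  have ha2 : r < B3_N y (c.fn c.a) := by
    by_contra hcon
    push Not at hcon
    exact (Set.disjoint_left.1 hxy) (B3_le.2 ha1.le) (B3_le.2 hcon)
  have hb2 : r < B3_N x (c.fn c.b) := by
    by_contra hcon
    push Not at hcon
    exact (Set.disjoint_left.1 hxy) (B3_le.2 hcon) (B3_le.2 hb1.le)
  obtain ⟨s, hs, es⟩ := intermediate_value_Icc c.hab (B3_cont c x) ⟨ha1.le, hb2.le⟩
  obtain ⟨v, hv, ev⟩ := intermediate_value_Icc' c.hab (B3_cont c y) ⟨hb1.le, ha2.le⟩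
  refine ⟨c.fn s, B3_eq.2 es, c.fn v, B3_eq.2 ev, hcU ⟨s, hs, rfl⟩, hcU ⟨v, hv, rfl⟩, ?_⟩
  rcases le_total s v with hsv | hvs
  · refine lt_of_le_of_lt ?_ hlen
    refine le_trans (D_le_len f (c.sub s v hs.1 hsv hv.2) rfl rfl ?_)
      (B3_sub_len c f _ hs.1 hsv hv.2)
    exact (B3_sub_img c hs.1 hsv hv.2).trans hcU
  · refine lt_of_le_of_lt ?_ hlen
    rw [D_symm]
    refine le_trans (D_le_len f (c.sub v s hv.1 hvs hs.2) rfl rfl ?_)
      (B3_sub_len c f _ hv.1 hvs hs.2)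
    exact (B3_sub_img c hv.1 hvs hs.2).trans hcU

end MP_d19698_pr
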