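import Pool.Agent.Lib.MP_d19698_pr.B5

/-!
# B6: combinatorics of `*`-paths
-/

open Set

namespace MP_d19698_pr

variable {d : ℕ}

/-- `g 0, ..., g (k-1)` is an injective `*`-path with `k` vertices. -/
def StarPath (k : ℕ) (g : ℕ → (Fin d → ℤ)) : Prop :=
  Set.InjOn g (Set.Iio k) ∧ ∀ j, j + 1 < k → ∀ i, |g (j + 1) i - g j i| ≤ 1

private theorem B6a_path {V : Set (Fin d → ℤ)} {v w : Fin d → ℤ} (hv : v ∈ V)
    (h : Relation.ReflTransGen (fun a b => b ∈ V ∧ ∀ i, |a i - b i| ≤ 1) v w) :
    ∃ (k : ℕ) (g : ℕ → (Fin d → ℤ)), g 0 = v ∧ g k = w ∧ (∀ j ≤ k, g j ∈ V) ∧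
      ∀ j < k, ∀ i, |g (j + 1) i - g j i| ≤ 1 := by
  induction h with
  | refl => exact ⟨0, fun _ => v, rfl, rfl, fun _ _ => hv, fun j hj => absurd hj (Nat.not_lt_zero j)⟩
  | @tail b c _ hbc ih =>
    obtain ⟨k, g, h0, hk, hV, hst⟩ := ih
    refine ⟨k + 1, fun j => if j ≤ k then g j else c, ?_, ?_, ?_, ?_⟩
    · simp only [Nat.zero_le, if_true]
      exact h0
    · have : ¬ (k + 1 ≤ k) := by omega
      simp only [if_neg this]
    · intro j hj
      by_cases hjk : j ≤ k
      · simp only [if_pos hjk]
        exact hV j hjk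
      · simp only [if_neg hjk]
        exact hbc.1
    · intro j hj i
      by_cases hjk : j + 1 ≤ k
      · have : j ≤ k := by omega
        simp only [if_pos hjk, if_pos this]
        exact hst j (by omega) i
      · have hj' : j = k := by omega
        subst hj'
        have : ¬ (j + 1 ≤ j) := by omega
        simp only [if_neg this, le_refl, if_true]
        rw [hk, abs_sub_comm]
        exact hbc.2 i

/-- In a `*`-connected set any two points are joined by an injective `*`-path in the set. -/
theorem exists_starPath {V : Set (Fin d → ℤ)} (hV : StarConn V) {v w : Fin d → ℤ} (hv : v ∈ V) (hw : w ∈ V) :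
    ∃ (k : ℕ) (g : ℕ → (Fin d → ℤ)), StarPath (k + 1) g ∧ g 0 = v ∧ g k = w ∧ ∀ j ≤ k, g j ∈ V := by
  classical
  have hex : ∃ k : ℕ, ∃ g : ℕ → (Fin d → ℤ), g 0 = v ∧ g k = w ∧ (∀ j ≤ k, g j ∈ V) ∧
      ∀ j < k, ∀ i, |g (j + 1) i - g j i| ≤ 1 := B6a_path hv (hV v hv w hw)
  obtain ⟨g, h0, hk, hgV, hst⟩ := Nat.find_spec hex
  set k : ℕ := Nat.find hex with hkdef
  refine ⟨k, g, ⟨?_, ?_⟩, h0, hk, hgV⟩
  · have key : ∀ i j : ℕ, i < j → j ≤ k → g i ≠ g j := by
      intro i j hij hjk heq
      have hlt : k - (j - i) < k := by omega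
      apply Nat.find_min hex (m := k - (j - i)) (by rw [← hkdef]; exact hlt)
      refine ⟨fun n => if n ≤ i then g n else g (n + (j - i)), ?_, ?_, ?_, ?_⟩
      · simp only [Nat.zero_le, if_true]
        exact h0
      · by_cases h1 : k - (j - i) ≤ i
        · simp only [if_pos h1]
          have h2 : k - (j - i) = i := by omega
          have h3 : j = k := by omega
          rw [h2, heq, h3, hk]
        · simp only [if_neg h1]
          have h2 : k - (j - i) + (j - i) = k := by omega
          rw [h2, hk]
      · intro n hn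
        by_cases h1 : n ≤ i
        · simp only [if_pos h1]
          exact hgV n (by omega)
        · simp only [if_neg h1]
          exact hgV _ (by omega)
      · intro n hn l
        by_cases h1 : n + 1 ≤ i
        · have h2 : n ≤ i := by omega
          simp only [if_pos h1, if_pos h2]
          exact hst n (by omega) l
        · by_cases h2 : n ≤ i
          · have h3 : n = i := by omega
            simp only [if_neg h1, if_pos h2]
            have h4 : n + 1 + (j - i) = j + 1 := by omega
            rw [h4, h3, heq]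
            exact hst j (by omega) l
          · simp only [if_neg h1, if_neg h2]
            have h4 : n + 1 + (j - i) = n + (j - i) + 1 := by omega
            rw [h4]
            exact hst _ (by omega) l
    intro i hi j hj heq
    rw [Set.mem_Iio] at hi hj
    rcases lt_trichotomy i j with h | h | h
    · exact absurd heq (key i j h (by omega))
    · exact h
    · exact absurd heq.symm (key j i h (by omega))
  · intro j hj i
    exact hst j (by omega) i

/-- along a `*`-path the sup distance to the start is at most the index -/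
theorem StarPath.dist_le {k : ℕ} {g : ℕ → (Fin d → ℤ)} (h : StarPath k g) {j : ℕ} (hj : j < k) (i : Fin d) :
    |g j i - g 0 i| ≤ j := by
  induction j with
  | zero => simp
  | succ j ih =>
    have h1 := ih (by omega)
    have h2 := h.2 j hj i
    calc |g (j + 1) i - g 0 i| = |(g (j + 1) i - g j i) + (g j i - g 0 i)| := by
          congr 1
          ring
      _ ≤ |g (j + 1) i - g j i| + |g j i - g 0 i| := abs_add_le _ _
      _ ≤ 1 + j := add_le_add h2 h1
      _ = ((j + 1 : ℕ) : ℤ) := by push_cast; ring

/-- **Good cells are near.** If `V` is `*`-connected of diameter `≥ 2k` and has no bad injective `*`-path with `k` vertices, then every `v ∈ V`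
has a good `w ∈ V` within distance `k`. Proof: some `w0 ∈ V` has `|v i - w0 i| ≥ k` (else `|w i - w' i| < 2k`). The injective path from
`v` to `w0` in `V` has at least `k+1` vertices (`dist_le`). One of its first `k` vertices is good. -/
theorem good_near {V : Set (Fin d → ℤ)} (hV : StarConn V) (bad : (Fin d → ℤ) → Prop) {k : ℕ} (hk : 1 ≤ k)
    (hno : ∀ g : ℕ → (Fin d → ℤ), StarPath k g → (∀ j < k, g j ∈ V) → ∃ j < k, ¬ bad (g j))
    {w w' : Fin d → ℤ} (hw : w ∈ V) (hw' : w' ∈ V) {i : Fin d} (hd : 2 * (k : ℤ) ≤ |w i - w' i|)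
    {v : Fin d → ℤ} (hv : v ∈ V) : ∃ u ∈ V, ¬ bad u ∧ ∀ i, |v i - u i| ≤ k := by
  obtain ⟨w0, hw0, hd0⟩ : ∃ w0 ∈ V, (k : ℤ) ≤ |v i - w0 i| := by
    by_contra hcon
    push Not at hcon
    have h1 := hcon w hw
    have h2 := hcon w' hw'
    have h3 : |w i - w' i| ≤ |v i - w i| + |v i - w' i| := by
      have e : w i - w' i = (v i - w' i) - (v i - w i) := by ring
      rw [e]
      have := abs_sub (v i - w' i) (v i - w i)
      linarith
    linarith
  obtain ⟨m, g, hg, h0, hm, hgV⟩ := exists_starPath hV hv hw0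
  have h4 := hg.dist_le (j := m) (by omega) i
  rw [hm, h0, abs_sub_comm] at h4
  have hkm : k ≤ m := by
    have : (k : ℤ) ≤ m := hd0.trans h4
    exact_mod_cast this
  have hgk : StarPath k g := by
    refine ⟨hg.1.mono fun j hj => ?_, fun j hj => hg.2 j (by omega)⟩
    rw [Set.mem_Iio] at hj ⊢
    omega
  obtain ⟨j, hj, hbad⟩ := hno g hgk fun j hj => hgV j (by omega)
  refine ⟨g j, hgV j (by omega), hbad, fun l => ?_⟩
  have h5 := hgk.dist_le hj l
  rw [h0, abs_sub_comm] at h5
  exact h5.trans (by exact_mod_cast hj.le)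


end MP_d19698_pr
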