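import Pool.Agent.Lib.MP_d19698_pr.B6a

/-! # B6b -/

open Set

namespace MP_d19698_pr
variable {d : ℕ}

/-- **Peierls counting (deterministic part).** A `*`-path with `k` vertices contains a set of at least `k / s^d` vertices with pairwise sup distance
`≥ s` (pigeonhole on the residues mod `s`). -/
theorem exists_separated {k s : ℕ} (hs : 1 ≤ s) {g : ℕ → (Fin d → ℤ)} (hg : Set.InjOn g (Set.Iio k)) :
    ∃ F : Finset (Fin d → ℤ), (∀ v ∈ F, ∃ j < k, g j = v) ∧ (k : ℝ) / (s : ℝ) ^ d ≤ F.card ∧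
      ∀ v ∈ F, ∀ w ∈ F, v ≠ w → ∃ i, (s : ℤ) ≤ |v i - w i| := by
  classical
  have hs0 : (0 : ℤ) < s := by exact_mod_cast hs
  set F0 : Finset (Fin d → ℤ) := (Finset.range k).image g with hF0
  have hcard : F0.card = k := by
    rw [hF0, Finset.card_image_of_injOn, Finset.card_range]
    intro a ha b hb hab
    exact hg (by simpa using ha) (by simpa using hb) hab
  set T : Finset (Fin d → ℤ) := Fintype.piFinset (fun _ : Fin d => Finset.Ico (0 : ℤ) s) with hT
  have hTcard : T.card = s ^ d := by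
    rw [hT, Fintype.card_piFinset]
    simp
  have hmaps : ∀ a ∈ F0, (fun i => a i % (s : ℤ)) ∈ T := by
    intro a _
    rw [hT, Fintype.mem_piFinset]
    intro i
    rw [Finset.mem_Ico]
    exact ⟨Int.emod_nonneg _ hs0.ne', Int.emod_lt_of_pos _ hs0⟩
  have hne : T.Nonempty := by
    rw [← Finset.card_pos, hTcard]
    positivity
  have hsR : (0 : ℝ) < (s : ℝ) ^ d := by
    have : (0 : ℝ) < s := by exact_mod_cast hs
    positivity
  obtain ⟨y, _, hy⟩ := Finset.exists_le_card_fiber_of_nsmul_le_card_of_maps_to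
    (M := ℝ) (b := (k : ℝ) / (s : ℝ) ^ d) hmaps hne (by
      rw [hTcard, hcard, nsmul_eq_mul]
      push_cast
      rw [mul_div_cancel₀ _ hsR.ne'])
  refine ⟨_, ?_, hy, ?_⟩
  · intro v hv
    rw [Finset.mem_filter, hF0, Finset.mem_image] at hv
    obtain ⟨⟨j, hj, rfl⟩, _⟩ := hv
    exact ⟨j, Finset.mem_range.1 hj, rfl⟩
  · intro v hv w hw hvw
    rw [Finset.mem_filter] at hv hw
    obtain ⟨i, hi⟩ := Function.ne_iff.1 hvw
    refine ⟨i, ?_⟩
    have h1 : v i % (s : ℤ) = w i % (s : ℤ) := by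
      have := congrFun (hv.2.trans hw.2.symm) i
      simpa using this
    have h2 : (s : ℤ) ∣ v i - w i := Int.ModEq.dvd (show w i ≡ v i [ZMOD s] from h1.symm)
    exact Int.le_of_dvd (abs_pos.2 (sub_ne_zero.2 hi)) ((dvd_abs _ _).2 h2)

private theorem B6b_sum (k : ℕ) (v : Fin d → ℤ) (g : ℕ → (Fin d → ℤ)) (h0 : g 0 = v) :
    ∀ j < k, v + ∑ i ∈ Finset.range j, (if h : i < k then
      (fun i : Fin k => if (i : ℕ) + 1 < k then g (i + 1) - g i else 0) ⟨i, h⟩ else 0) = g j := by
  intro j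
  induction j with
  | zero => intro _; simp [h0]
  | succ j ih =>
    intro hj
    rw [Finset.sum_range_succ, ← add_assoc, ih (by omega)]
    have h1 : j < k := by omega
    simp only [h1, hj, dif_pos, if_true]
    abel

/-- The number of `*`-paths (restricted to `range k`) starting at a given point is at most `(3^d)^k`: there is a finite family `𝒢` of functions of
size `≤ (3^d)^k` such that every `StarPath k g` with `g 0 = v` agrees on `j < k` with a member of `𝒢`. -/
theorem starPath_count (k : ℕ) (v : Fin d → ℤ) :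
    ∃ 𝒢 : Finset (ℕ → (Fin d → ℤ)), 𝒢.card ≤ (3 ^ d) ^ k ∧
      ∀ g, StarPath k g → g 0 = v → ∃ g' ∈ 𝒢, ∀ j < k, g' j = g j := by
  classical
  set S : Finset (Fin k → Fin d → ℤ) := Fintype.piFinset (fun _ : Fin k =>
    Fintype.piFinset (fun _ : Fin d => Finset.Icc (-1 : ℤ) 1)) with hS
  have hScard : S.card = (3 ^ d) ^ k := by
    rw [hS, Fintype.card_piFinset]
    simp [Fintype.card_piFinset]
  refine ⟨S.image (fun st : Fin k → Fin d → ℤ => fun j : ℕ =>
    v + ∑ i ∈ Finset.range j, (if h : i < k then st ⟨i, h⟩ else 0)), ?_, ?_⟩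
  · exact Finset.card_image_le.trans hScard.le
  · intro g hg h0
    refine ⟨_, Finset.mem_image_of_mem _ (a := fun i : Fin k =>
      if (i : ℕ) + 1 < k then g (i + 1) - g i else 0) ?_, B6b_sum k v g h0⟩
    rw [hS, Fintype.mem_piFinset]
    intro i
    rw [Fintype.mem_piFinset]
    intro l
    rw [Finset.mem_Icc]
    by_cases hi : (i : ℕ) + 1 < k
    · simp only [hi, if_true, Pi.sub_apply]
      exact abs_le.1 (hg.2 i hi l)
    · simp only [hi, if_false, Pi.zero_apply]
      norm_num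

end MP_d19698_pr
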