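import Pool.Agent.Lib.MP_d19698_pr.B6b

/-!
# B7: chaining distances along graphs
-/

open MeasureTheory ProbabilityTheory Filter Topology Set
open scoped ENNReal NNReal

namespace MP_d19698_pr

variable {d : ℕ}

/-- A connected set covered by finitely many closed sets which all meet it: the intersection graph is connected. -/
theorem conn_graph {ι : Type*} {S : Set (Rd d)} (hS : IsPreconnected S) (V : Finset ι) (F : ι → Set (Rd d))
    (hF : ∀ i ∈ V, IsClosed (F i)) (hcov : S ⊆ ⋃ i ∈ V, F i) (hmeet : ∀ i ∈ V, (F i ∩ S).Nonempty)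
    {i j : ι} (hi : i ∈ V) (hj : j ∈ V) :
    Relation.ReflTransGen (fun a b => b ∈ V ∧ (F a ∩ F b).Nonempty) i j := by
  classical
  by_contra hne
  set R : ι → ι → Prop := fun a b => b ∈ V ∧ (F a ∩ F b).Nonempty with hR
  set A : Finset ι := V.filter fun a => Relation.ReflTransGen R i a with hA
  set B : Finset ι := V.filter fun a => ¬ Relation.ReflTransGen R i a with hB
  have hiA : i ∈ A := Finset.mem_filter.2 ⟨hi, Relation.ReflTransGen.refl⟩
  have hjB : j ∈ B := Finset.mem_filter.2 ⟨hj, hne⟩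
  have hT1 : IsClosed (⋃ a ∈ A, F a) :=
    isClosed_biUnion_finset fun a ha => hF a (Finset.mem_filter.1 ha).1
  have hT2 : IsClosed (⋃ a ∈ B, F a) :=
    isClosed_biUnion_finset fun a ha => hF a (Finset.mem_filter.1 ha).1
  have hcov' : S ⊆ (⋃ a ∈ A, F a) ∪ (⋃ a ∈ B, F a) := by
    intro x hx
    obtain ⟨a, haV, hxa⟩ := mem_iUnion₂.1 (hcov hx)
    by_cases h : Relation.ReflTransGen R i a
    · exact Or.inl (mem_iUnion₂.2 ⟨a, Finset.mem_filter.2 ⟨haV, h⟩, hxa⟩)
    · exact Or.inr (mem_iUnion₂.2 ⟨a, Finset.mem_filter.2 ⟨haV, h⟩, hxa⟩)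
  have h1 : (S ∩ ⋃ a ∈ A, F a).Nonempty := by
    obtain ⟨x, hx1, hx2⟩ := hmeet i hi
    exact ⟨x, hx2, mem_iUnion₂.2 ⟨i, hiA, hx1⟩⟩
  have h2 : (S ∩ ⋃ a ∈ B, F a).Nonempty := by
    obtain ⟨x, hx1, hx2⟩ := hmeet j hj
    exact ⟨x, hx2, mem_iUnion₂.2 ⟨j, hjB, hx1⟩⟩
  obtain ⟨x, -, hxA, hxB⟩ := isPreconnected_closed_iff.1 hS _ _ hT1 hT2 hcov' h1 h2
  obtain ⟨a, ha, hxa⟩ := mem_iUnion₂.1 hxA
  obtain ⟨b, hb, hxb⟩ := mem_iUnion₂.1 hxB
  have ha' := (Finset.mem_filter.1 ha).2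
  have hb' := (Finset.mem_filter.1 hb)
  exact hb'.2 (ha'.tail ⟨hb'.1, ⟨x, hxa, hxb⟩⟩)

/-- last visit: a connection inside `V` leaves `x` for good at some point. -/
private theorem B7_last_visit {ι : Type*} [DecidableEq ι] (V : Finset ι) (adj : ι → ι → Prop) {x y : ι}
    (h : Relation.ReflTransGen (fun a b => b ∈ V ∧ adj a b) x y) :
    y = x ∨ ∃ x₁ ∈ V.erase x, adj x x₁ ∧ Relation.ReflTransGen (fun a b => b ∈ V.erase x ∧ adj a b) x₁ y := by
  induction h with
  | refl => exact Or.inl rfl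
  | @tail b c _ hbc ih =>
    by_cases hc : c = x
    · exact Or.inl hc
    · have hcV : c ∈ V.erase x := Finset.mem_erase.2 ⟨hc, hbc.1⟩
      rcases ih with rfl | ⟨x₁, hx₁, hadj, hr⟩
      · exact Or.inr ⟨c, hcV, hbc.2, Relation.ReflTransGen.refl⟩
      · exact Or.inr ⟨x₁, hx₁, hadj, hr.tail ⟨hcV, hbc.2⟩⟩

/-- if the target point is not in `U`, then the distance is infinite. -/
private theorem B7_D_top (f : Rd d → ℝ) (U : Set (Rd d)) (p q : Rd d) (hq : q ∉ U) : D f {p} {q} U = ⊤ := by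
  refine top_le_iff.1 (le_D ?_)
  intro c _ hc hU
  exact absurd (hU (hc ▸ c.tgt_mem_img)) hq

private theorem B7_aux {ι : Type*} [DecidableEq ι] (f : Rd d → ℝ) (U : Set (Rd d)) (pos : ι → Rd d) (cost : ι → ℝ≥0∞)
    (adj : ι → ι → Prop) (y : ι) :
    ∀ (n : ℕ) (V : Finset ι), V.card = n →
    (∀ a ∈ V, ∀ b ∈ V, adj a b → D f {pos a} {pos b} U ≤ cost a + cost b) →
    ∀ x ∈ V, pos x ∈ U → Relation.ReflTransGen (fun a b => b ∈ V ∧ adj a b) x y →
    D f {pos x} {pos y} U ≤ cost x + 2 * ∑ v ∈ V.erase x, cost v := by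
  intro n
  induction n with
  | zero =>
    intro V hV _ x hx
    rw [Finset.card_eq_zero] at hV
    subst hV
    exact absurd hx (Finset.notMem_empty _)
  | succ n ih =>
    intro V hV hadj x hx hU hxy
    rcases B7_last_visit V adj hxy with rfl | ⟨x₁, hx₁, hax, hr⟩
    · rw [D_self f hU]
      exact zero_le
    · have hx₁V : x₁ ∈ V := Finset.mem_of_mem_erase hx₁
      have h1 := hadj x hx x₁ hx₁V hax
      by_cases hU₁ : pos x₁ ∈ U
      · have h2 := ih (V.erase x) (by rw [Finset.card_erase_of_mem hx, hV]; rfl)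
          (fun a ha b hb => hadj a (Finset.mem_of_mem_erase ha) b (Finset.mem_of_mem_erase hb)) x₁ hx₁ hU₁ hr
        calc D f {pos x} {pos y} U ≤ D f {pos x} {pos x₁} U + D f {pos x₁} {pos y} U := D_tri f _ _ _ U
          _ ≤ (cost x + cost x₁) + (cost x₁ + 2 * ∑ v ∈ (V.erase x).erase x₁, cost v) := add_le_add h1 h2
          _ = cost x + 2 * (cost x₁ + ∑ v ∈ (V.erase x).erase x₁, cost v) := by ring
          _ = cost x + 2 * ∑ v ∈ V.erase x, cost v := by rw [Finset.add_sum_erase _ _ hx₁]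
      · rw [B7_D_top f U _ _ hU₁, top_le_iff] at h1
        refine le_trans le_top (le_of_eq ?_)
        symm
        rw [← top_le_iff, ← h1]
        refine add_le_add le_rfl ?_
        calc cost x₁ ≤ ∑ v ∈ V.erase x, cost v := Finset.single_le_sum (f := cost) (fun _ _ => zero_le) hx₁
          _ ≤ 2 * ∑ v ∈ V.erase x, cost v := by rw [two_mul]; exact le_add_self

/-- **Vertex-cost chaining.** If `x` and `y` are connected in the graph `adj` inside the finite set `V`, and adjacent vertices satisfy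
`D(pos a, pos b) ≤ cost a + cost b`, then `D(pos x, pos y) ≤ 2 ∑_{v ∈ V} cost v`. (Take a path without repeated vertices.) -/
theorem D_graph_le {ι : Type*} [DecidableEq ι] (f : Rd d → ℝ) (U : Set (Rd d)) (V : Finset ι) (pos : ι → Rd d) (cost : ι → ℝ≥0∞)
    (adj : ι → ι → Prop)
    (hadj : ∀ a ∈ V, ∀ b ∈ V, adj a b → D f {pos a} {pos b} U ≤ cost a + cost b)
    {x y : ι} (hx : x ∈ V) (hU : pos x ∈ U) (hxy : Relation.ReflTransGen (fun a b => b ∈ V ∧ adj a b) x y) :
    D f {pos x} {pos y} U ≤ 2 * ∑ v ∈ V, cost v := by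
  refine (B7_aux f U pos cost adj y _ V rfl hadj x hx hU hxy).trans ?_
  rw [← Finset.add_sum_erase V cost hx, mul_add]
  refine add_le_add ?_ le_rfl
  rw [two_mul]
  exact le_add_self

end MP_d19698_pr
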