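import Pool.Agent.Lib.MP_d19698_pr.B7

/-!
# B8: deterministic coarse graining of annulus crossings
-/

open MeasureTheory ProbabilityTheory Filter Topology Set
open scoped ENNReal NNReal

namespace MP_d19698_pr

variable {d : ℕ}

/-- the cell `v` of level `l` is good for the fine field `φ` if its annulus crossing distance is at least `2^{-l} a`. -/
def GoodCell (φ : Rd d → ℝ) (l : ℕ) (a : ℝ) (v : Fin d → ℤ) : Prop :=
  ENNReal.ofReal (dy l * a) ≤ Cr φ (latt l v) (1 / 2 * dy l) (3 / 2 * dy l)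

/-- a curve which meets the cell of a good `v` and leaves `Box (latt l v) (3/2 dy l)` has `e^{g+φ}`-length at least `e^{m} 2^{-l} a` inside
`CBox (latt l v) (3/2 dy l)` if `g ≥ m` there. (`Cr_le_len`, `Curve.len_le`.) -/
theorem good_cell_len {l : ℕ} {a m : ℝ} {v : Fin d → ℤ} {g φ : Rd d → ℝ} (c : Curve d)
    (hgood : GoodCell φ l a v) (hv : v ∈ visit l c.img) (hexit : ∃ p ∈ c.img, p ∉ Box (latt l v) (3 / 2 * dy l))
    (hm : ∀ x ∈ CBox (latt l v) (3 / 2 * dy l), m ≤ g x) :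
    ENNReal.ofReal (Real.exp m * (dy l * a)) ≤ c.len (fun x => g x + φ x) (CBox (latt l v) (3 / 2 * dy l)) := by
  have hdy : 0 < dy l := dy_pos l
  obtain ⟨p, hp, hpc⟩ := hv
  have h1 : ∃ p ∈ c.img, p ∈ CBox (latt l v) (1 / 2 * dy l) := by
    refine ⟨p, hp, ?_⟩
    have e : 1 / 2 * dy l = dy l / 2 := by ring
    rw [e]
    exact hpc
  have h2 := Cr_le_len φ c (x := latt l v) (r := 1 / 2 * dy l) (r' := 3 / 2 * dy l) (by linarith) h1 hexit
  have h3 : c.len φ (CBox (latt l v) (3 / 2 * dy l) \ CBox (latt l v) (1 / 2 * dy l)) ≤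
      ENNReal.ofReal (Real.exp (-m)) * c.len (fun x => g x + φ x) (CBox (latt l v) (3 / 2 * dy l)) := by
    refine c.len_le ?_ ?_ ?_
    · exact (isClosed_CBox _ _).measurableSet.diff (isClosed_CBox _ _).measurableSet
    · exact fun x hx => hx.1.1
    · intro x hx
      have := hm x hx.1.1
      linarith
  have h4 : ENNReal.ofReal (dy l * a) ≤
      ENNReal.ofReal (Real.exp (-m)) * c.len (fun x => g x + φ x) (CBox (latt l v) (3 / 2 * dy l)) :=
    (hgood.trans h2).trans h3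
  calc ENNReal.ofReal (Real.exp m * (dy l * a)) = ENNReal.ofReal (Real.exp m) * ENNReal.ofReal (dy l * a) :=
        ENNReal.ofReal_mul (Real.exp_pos m).le
    _ ≤ ENNReal.ofReal (Real.exp m) *
        (ENNReal.ofReal (Real.exp (-m)) * c.len (fun x => g x + φ x) (CBox (latt l v) (3 / 2 * dy l))) := by gcongr
    _ = c.len (fun x => g x + φ x) (CBox (latt l v) (3 / 2 * dy l)) := by
        rw [← mul_assoc, ← ENNReal.ofReal_mul (Real.exp_pos m).le, ← Real.exp_add, add_neg_cancel, Real.exp_zero,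
          ENNReal.ofReal_one, one_mul]

private theorem B8_pow (l : ℕ) (hl : 4 ≤ l) : 2 * (l + 1) + 1 ≤ 2 ^ l := by
  induction l, hl using Nat.le_induction with
  | base => norm_num
  | succ n hn ih => rw [pow_succ]; omega

/-- the cell of a point of the ball of radius `R` is in the region -/
private theorem B8_region {l : ℕ} {v : Fin d → ℤ} {p : Rd d} {R : ℝ} (hp : p ∈ CBox (0 : Rd d) R)
    (hv : p ∈ CBox (latt l v) (dy l / 2)) (i : Fin d) : |dy l * (v i : ℝ)| ≤ R + dy l / 2 := by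
  have h1 := hp i
  have h2 := hv i
  have h3 : (0 : Rd d) i = 0 := rfl
  rw [h3, sub_zero] at h1
  rw [latt_apply] at h2
  rw [abs_le] at h1 h2 ⊢
  constructor <;> linarith [h1.1, h1.2, h2.1, h2.2]

private theorem B8_sep {r r' : ℝ} {p q : Rd d} (hp : p ∈ SBox (0 : Rd d) r) (hq : q ∈ SBox (0 : Rd d) r') :
    ∃ i, r' - r ≤ |q i - p i| := by
  have h1 : ∃ i, ¬ |q i - (0 : Rd d) i| < r' := by
    by_contra hcon
    push Not at hcon
    exact hq.2 hcon
  obtain ⟨i, hi⟩ := h1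
  refine ⟨i, ?_⟩
  have h2 := hp.1 i
  have h3 : (0 : Rd d) i = 0 := rfl
  rw [h3, sub_zero] at hi h2
  have h4 : |q i| ≤ |q i - p i| + |p i| := by
    have := abs_add_le (q i - p i) (p i)
    rwa [sub_add_cancel] at this
  linarith [not_lt.1 hi]

private theorem B8_Cr_le_D (g : Rd d → ℝ) {r r' : ℝ} (hr : r < r') {p q : Rd d} (hp : p ∈ CBox (0 : Rd d) r)
    (hq : q ∉ Box (0 : Rd d) r') : Cr g 0 r r' ≤ D g {p} {q} univ := by
  refine le_D fun c hc1 hc2 _ => ?_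
  rw [mem_singleton_iff] at hc1 hc2
  refine (Cr_le_len g c hr ⟨p, ?_, hp⟩ ⟨q, ?_, hq⟩).trans (c.len_mono g (subset_univ _))
  · rw [← hc1]; exact c.src_mem_img
  · rw [← hc2]; exact c.tgt_mem_img

/-- **Deterministic part of (F1).** Let `l ≥ 4`, `a > 0`. Suppose that
(i) there is no injective `*`-path of `l+1` bad cells (`¬ GoodCell φ l a`) in the region `|v i| ≤ 2^{l+1}`;
(ii) `|g x - g y| ≤ ω` for `x, y` in `CBox (latt l v) ((l+4) 2^{-l})`, `v` in the region.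
Then `Cr (g+φ) 0 (1/2) (3/2) ≥ a e^{-2ω} / (8 √d 4^d (l+2)) * Cr g 0 (1/2) (3/2)`.

Proof. Let `c` be a curve from `SBox 0 (1/2)` to `SBox 0 (3/2)` in the closed annulus, `V = visit l c.img` (finite, `*`-connected, in the region since
`|v i| 2^{-l} ≤ 3/2 + 2^{-l}/2`), of diameter `≥ 2^l - 1 ≥ 2(l+1)` (`cell_dist`; some coordinate of `tgt - src` is `≥ 1`). Let `Vg` be the good cells of
`V`. By `good_near` (k = l+1) every `v ∈ V` has `w ∈ Vg` with `|v - w|_∞ ≤ l+1`, so `c.img ⊆ ⋃_{w ∈ Vg} CBox (latt l w) ((l+2) 2^{-l})`. These boxes all meet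
`c.img`. By `conn_graph` their intersection graph is connected. If two boxes meet at `p` then, with
`cost w = ofReal (exp (g (latt l w) + ω) * (2 √d (l+2) 2^{-l}))`, `D g {latt a} {latt b} univ ≤ cost a + cost b` by `D_seg_CBox` (twice) and `D_tri`; also
`D g {c.src} {latt w} univ ≤ cost w` if `c.src` is in the box of `w`. `D_graph_le` gives `D g {c.src} {c.tgt} univ ≤ 4 ∑_{Vg} cost`.
A curve from `c.src ∈ CBox 0 (1/2)` to `c.tgt ∉ Box 0 (3/2)` has length `≥ Cr g 0 (1/2) (3/2)` (`Cr_le_len`), so `Cr g 0 (1/2) (3/2) ≤ 4 ∑ cost`.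
On the other hand `good_cell_len` with `m = g (latt l w) - ω` and `sum_len_le` give
`∑_{Vg} ofReal (exp (g (latt l w) - ω) * (2^{-l} a)) ≤ 4^d * c.len (g+φ) univ` (the curve leaves `Box (latt l w) (3/2 2^{-l})` because it contains two points at
sup distance `≥ 1 > 3 * 2^{-l}`). Combine. -/
theorem f1_det {l : ℕ} (hl : 4 ≤ l) {a ω : ℝ} (ha : 0 < a) (hω : 0 ≤ ω) (g φ : Rd d → ℝ)
    (hno : ∀ p : ℕ → (Fin d → ℤ), StarPath (l + 1) p → (∀ j < l + 1, ∀ i, |p j i| ≤ 2 ^ (l + 1)) → ∃ j < l + 1, GoodCell φ l a (p j))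
    (hosc : ∀ v : Fin d → ℤ, (∀ i, |v i| ≤ 2 ^ (l + 1)) → ∀ x ∈ CBox (latt l v) (((l : ℝ) + 4) * dy l),
      ∀ y ∈ CBox (latt l v) (((l : ℝ) + 4) * dy l), |g x - g y| ≤ ω) :
    ENNReal.ofReal (a * Real.exp (-(2 * ω)) / (8 * Real.sqrt d * 4 ^ d * ((l : ℝ) + 2))) * Cr g 0 (1 / 2) (3 / 2) ≤
      Cr (fun x => g x + φ x) 0 (1 / 2) (3 / 2) := by
  classical
  have hdy : 0 < dy l := dy_pos l
  have h2dy : (2 : ℝ) ^ l * dy l = 1 := two_pow_mul_dy l
  refine le_D fun c hsrc htgt himg => ?_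
  obtain ⟨i0, hi0⟩ := B8_sep hsrc htgt
  have hi1 : 1 ≤ |c.tgt i0 - c.src i0| := by linarith
  have hd0 : 0 < d := lt_of_le_of_lt (Nat.zero_le _) i0.2
  have hfin : (visit l c.img).Finite := visit_finite l c.isCompact_img.isBounded
  have hstar : StarConn (visit l c.img) := visit_starConn l c.isCompact_img.isBounded c.isPreconnected_img
  have hreg : ∀ v ∈ visit l c.img, ∀ i, |v i| ≤ 2 ^ (l + 1) := by
    rintro v ⟨p, hp, hpc⟩ i
    have h1 : p ∈ CBox (0 : Rd d) (3 / 2) := (himg hp).1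
    have h2 := B8_region h1 hpc i
    rw [abs_mul, abs_of_pos hdy] at h2
    have h3 : |(v i : ℝ)| ≤ 3 / 2 * 2 ^ l + 1 / 2 := by
      have h4 : (2 : ℝ) ^ l * (dy l * |(v i : ℝ)|) ≤ 2 ^ l * (3 / 2 + dy l / 2) := by gcongr
      have h5 : (2 : ℝ) ^ l * (dy l * |(v i : ℝ)|) = |(v i : ℝ)| := by rw [← mul_assoc, h2dy, one_mul]
      have h6 : (2 : ℝ) ^ l * (3 / 2 + dy l / 2) = 3 / 2 * 2 ^ l + 1 / 2 := by
        linear_combination (1 / 2) * h2dy
      linarith
    have h7 : (1 : ℝ) ≤ 2 ^ l := one_le_pow₀ (by norm_num)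
    have h8 : |(v i : ℝ)| ≤ 2 ^ (l + 1) := by
      rw [pow_succ]
      linarith
    exact_mod_cast h8
  obtain ⟨v0, hv0⟩ := exists_visit l c.src
  obtain ⟨v1, hv1⟩ := exists_visit l c.tgt
  have hv0V : v0 ∈ visit l c.img := ⟨c.src, c.src_mem_img, hv0⟩
  have hv1V : v1 ∈ visit l c.img := ⟨c.tgt, c.tgt_mem_img, hv1⟩
  have hdiam : 2 * ((l + 1 : ℕ) : ℤ) ≤ |v1 i0 - v0 i0| := by
    have h1 := cell_dist hv1 hv0 i0
    have h2 : (2 : ℝ) ^ l * 1 ≤ 2 ^ l * |c.tgt i0 - c.src i0| := by gcongr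
    have h3 : (2 * ((l : ℝ) + 1) + 1) ≤ 2 ^ l := by exact_mod_cast B8_pow l hl
    have h4 : (2 * ((l : ℝ) + 1)) ≤ |((v1 i0 - v0 i0 : ℤ) : ℝ)| := by linarith
    exact_mod_cast h4
  have hnear : ∀ v ∈ visit l c.img, ∃ w ∈ visit l c.img, GoodCell φ l a w ∧ ∀ i, |v i - w i| ≤ ((l + 1 : ℕ) : ℤ) := by
    intro v hv
    obtain ⟨w, hw, hgw, hd⟩ := good_near hstar (fun w => ¬ GoodCell φ l a w) (k := l + 1) (by omega)
      (fun p hp hpV => by
        obtain ⟨j, hj, hgj⟩ := hno p hp fun j hj => hreg _ (hpV j hj)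
        exact ⟨j, hj, not_not.2 hgj⟩) hv1V hv0V hdiam hv
    exact ⟨w, hw, not_not.1 hgw, hd⟩
  set Vg : Finset (Fin d → ℤ) := hfin.toFinset.filter (fun w => GoodCell φ l a w) with hVg
  have hVg1 : ∀ w ∈ Vg, w ∈ visit l c.img ∧ GoodCell φ l a w := by
    intro w hw
    rw [hVg, Finset.mem_filter, Set.Finite.mem_toFinset] at hw
    exact hw
  set r : ℝ := ((l : ℝ) + 2) * dy l with hr
  have hl0 : (0 : ℝ) ≤ l := Nat.cast_nonneg l
  have hr0 : 0 ≤ r := by rw [hr]; positivity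
  set F : (Fin d → ℤ) → Set (Rd d) := fun w => CBox (latt l w) r with hF
  have hnearF : ∀ p ∈ c.img, ∃ w ∈ Vg, p ∈ F w := by
    intro p hp
    obtain ⟨v, hv⟩ := exists_visit l p
    obtain ⟨w, hw, hgw, hd⟩ := hnear v ⟨p, hp, hv⟩
    refine ⟨w, ?_, fun i => ?_⟩
    · rw [hVg, Finset.mem_filter, Set.Finite.mem_toFinset]
      exact ⟨hw, hgw⟩
    · have h1 := hv i
      have h2 : |((v i - w i : ℤ) : ℝ)| ≤ (l : ℝ) + 1 := by
        have := hd i
        have h3 : ((|v i - w i| : ℤ) : ℝ) ≤ (((l + 1 : ℕ) : ℤ) : ℝ) := by exact_mod_cast this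
        push_cast at h3 ⊢
        exact h3
      rw [latt_apply] at h1 ⊢
      have e : p i - dy l * (w i : ℝ) = (p i - dy l * (v i : ℝ)) + dy l * ((v i - w i : ℤ) : ℝ) := by
        push_cast
        ring
      rw [e]
      calc |(p i - dy l * (v i : ℝ)) + dy l * ((v i - w i : ℤ) : ℝ)|
          ≤ |p i - dy l * (v i : ℝ)| + |dy l * ((v i - w i : ℤ) : ℝ)| := abs_add_le _ _
        _ = |p i - dy l * (v i : ℝ)| + dy l * |((v i - w i : ℤ) : ℝ)| := by rw [abs_mul, abs_of_pos hdy]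
        _ ≤ dy l / 2 + dy l * ((l : ℝ) + 1) := by gcongr
        _ ≤ r := by rw [hr]; nlinarith
  have hFmeet : ∀ w ∈ Vg, (F w ∩ c.img).Nonempty := by
    intro w hw
    obtain ⟨p, hp, hpc⟩ := (hVg1 w hw).1
    refine ⟨p, fun i => (hpc i).trans ?_, hp⟩
    rw [hr]
    nlinarith
  have hconn : ∀ w ∈ Vg, ∀ w' ∈ Vg, Relation.ReflTransGen (fun a b => b ∈ Vg ∧ (F a ∩ F b).Nonempty) w w' := by
    intro w hw w' hw'
    refine conn_graph c.isPreconnected_img Vg F (fun i _ => isClosed_CBox _ _) ?_ hFmeet hw hw'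
    intro p hp
    obtain ⟨w, hw, hpw⟩ := hnearF p hp
    rw [mem_iUnion₂]
    exact ⟨w, hw, hpw⟩
  -- the oscillation of `g` near a visited cell
  have hself : ∀ (w : Fin d → ℤ) {t : ℝ}, 0 ≤ t → latt l w ∈ CBox (latt l w) t := by
    intro w t ht i
    rw [sub_self, abs_zero]
    exact ht
  have hosc' : ∀ w ∈ Vg, ∀ x : Rd d, x ∈ CBox (latt l w) (((l : ℝ) + 4) * dy l) → |g x - g (latt l w)| ≤ ω := by
    intro w hw x hx
    exact hosc w (hreg w (hVg1 w hw).1) x hx _ (hself w (by positivity))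
  have hF4 : ∀ w, F w ⊆ CBox (latt l w) (((l : ℝ) + 4) * dy l) := by
    intro w x hx i
    refine (hx i).trans ?_
    rw [hr]
    nlinarith
  set cost : (Fin d → ℤ) → ℝ≥0∞ := fun w => ENNReal.ofReal (Real.exp (g (latt l w) + ω) * (2 * Real.sqrt d * r)) with hcost
  have hD1 : ∀ w ∈ Vg, ∀ p ∈ F w, D g {latt l w} {p} univ ≤ cost w := by
    intro w hw p hp
    refine D_seg_CBox g hr0 (hself w hr0) hp (subset_univ _) fun q hq => ?_
    have := (abs_le.1 (hosc' w hw q (hF4 w hq))).2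
    linarith
  have hD2 : ∀ w ∈ Vg, ∀ p ∈ F w, D g {p} {latt l w} univ ≤ cost w := by
    intro w hw p hp
    rw [D_symm]
    exact hD1 w hw p hp
  obtain ⟨w0, hw0, hsw0⟩ := hnearF c.src c.src_mem_img
  obtain ⟨w1, hw1, htw1⟩ := hnearF c.tgt c.tgt_mem_img
  have hgraph : D g {latt l w0} {latt l w1} univ ≤ 2 * ∑ w ∈ Vg, cost w := by
    refine D_graph_le g univ Vg (latt l) cost (fun a b => (F a ∩ F b).Nonempty) ?_ hw0 (mem_univ _) (hconn w0 hw0 w1 hw1)
    rintro a ha b hb ⟨p, hpa, hpb⟩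
    exact (D_tri g {latt l a} {latt l b} p univ).trans (add_le_add (hD1 a ha p hpa) (hD2 b hb p hpb))
  have hsum1 : cost w0 ≤ ∑ w ∈ Vg, cost w := Finset.single_le_sum (fun _ _ => bot_le) hw0
  have hsum2 : cost w1 ≤ ∑ w ∈ Vg, cost w := Finset.single_le_sum (fun _ _ => bot_le) hw1
  have hCr : Cr g 0 (1 / 2) (3 / 2) ≤ 4 * ∑ w ∈ Vg, cost w := by
    calc Cr g 0 (1 / 2) (3 / 2) ≤ D g {c.src} {c.tgt} univ :=
          B8_Cr_le_D g (by norm_num) hsrc.1 htgt.2
      _ ≤ D g {c.src} {latt l w0} univ + D g {latt l w0} {c.tgt} univ := D_tri _ _ _ _ _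
      _ ≤ D g {c.src} {latt l w0} univ + (D g {latt l w0} {latt l w1} univ + D g {latt l w1} {c.tgt} univ) := by
          gcongr
          exact D_tri _ _ _ _ _
      _ ≤ ∑ w ∈ Vg, cost w + (2 * ∑ w ∈ Vg, cost w + ∑ w ∈ Vg, cost w) :=
          add_le_add ((hD2 w0 hw0 _ hsw0).trans hsum1) (add_le_add hgraph ((hD1 w1 hw1 _ htw1).trans hsum2))
      _ = 4 * ∑ w ∈ Vg, cost w := by ring
  -- the curve pays in every good cell
  set L : ℝ≥0∞ := c.len (fun x => g x + φ x) univ with hL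
  have hpay : ∑ w ∈ Vg, ENNReal.ofReal (Real.exp (g (latt l w) - ω) * (dy l * a)) ≤ 4 ^ d * L := by
    refine (Finset.sum_le_sum fun w hw => ?_).trans (sum_len_le l (fun x => g x + φ x) c Vg)
    refine good_cell_len c (hVg1 w hw).2 (hVg1 w hw).1 ?_ fun x hx => ?_
    · by_contra hcon
      push Not at hcon
      have h1 := hcon c.src c.src_mem_img i0
      have h2 := hcon c.tgt c.tgt_mem_img i0
      have h3 : |c.tgt i0 - c.src i0| ≤ |c.tgt i0 - (latt l w) i0| + |c.src i0 - (latt l w) i0| := by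
        have e : c.tgt i0 - c.src i0 = (c.tgt i0 - (latt l w) i0) - (c.src i0 - (latt l w) i0) := by ring
        rw [e]
        exact abs_sub _ _
      have h4 : 3 * dy l < 1 := by
        have h5 : (11 : ℝ) ≤ 2 ^ l := by
          have : 11 ≤ 2 ^ l := le_trans (by omega) (B8_pow l hl)
          exact_mod_cast this
        nlinarith
      linarith
    · have := (abs_le.1 (hosc' w hw x fun i => (hx i).trans (by nlinarith))).1
      linarith
  have hratio : ∀ w, cost w = ENNReal.ofReal (Real.exp (2 * ω) * (2 * Real.sqrt d * ((l : ℝ) + 2)) / a) *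
      ENNReal.ofReal (Real.exp (g (latt l w) - ω) * (dy l * a)) := by
    intro w
    rw [hcost, ← ENNReal.ofReal_mul (by positivity)]
    congr 1
    have e : Real.exp (g (latt l w) + ω) = Real.exp (2 * ω) * Real.exp (g (latt l w) - ω) := by
      rw [← Real.exp_add]
      congr 1
      ring
    simp only
    rw [e, hr]
    field_simp
  set K : ℝ := Real.exp (2 * ω) * (2 * Real.sqrt d * ((l : ℝ) + 2)) / a with hK
  have hK0 : 0 ≤ K := by rw [hK]; positivity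
  have hsumK : ∑ w ∈ Vg, cost w =
      ENNReal.ofReal K * ∑ w ∈ Vg, ENNReal.ofReal (Real.exp (g (latt l w) - ω) * (dy l * a)) := by
    rw [Finset.mul_sum]
    exact Finset.sum_congr rfl fun w _ => hratio w
  have hCr2 : Cr g 0 (1 / 2) (3 / 2) ≤ ENNReal.ofReal (4 * K * 4 ^ d) * L := by
    calc Cr g 0 (1 / 2) (3 / 2) ≤ 4 * ∑ w ∈ Vg, cost w := hCr
      _ = 4 * (ENNReal.ofReal K * ∑ w ∈ Vg, ENNReal.ofReal (Real.exp (g (latt l w) - ω) * (dy l * a))) := by
          rw [hsumK]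
      _ ≤ 4 * (ENNReal.ofReal K * (4 ^ d * L)) := by gcongr
      _ = ENNReal.ofReal (4 * K * 4 ^ d) * L := by
          rw [ENNReal.ofReal_mul (by positivity), ENNReal.ofReal_mul (by norm_num), ENNReal.ofReal_pow (by norm_num)]
          have e4 : ENNReal.ofReal 4 = 4 := by
            rw [show (4 : ℝ) = ((4 : ℕ) : ℝ) by norm_num, ENNReal.ofReal_natCast]
            rfl
          rw [e4]
          ring
  have hsd : 0 < Real.sqrt d := Real.sqrt_pos.2 (by exact_mod_cast hd0)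
  calc ENNReal.ofReal (a * Real.exp (-(2 * ω)) / (8 * Real.sqrt d * 4 ^ d * ((l : ℝ) + 2))) * Cr g 0 (1 / 2) (3 / 2)
      ≤ ENNReal.ofReal (a * Real.exp (-(2 * ω)) / (8 * Real.sqrt d * 4 ^ d * ((l : ℝ) + 2))) *
        (ENNReal.ofReal (4 * K * 4 ^ d) * L) := by gcongr
    _ = L := by
        rw [← mul_assoc, ← ENNReal.ofReal_mul (by positivity)]
        have e : a * Real.exp (-(2 * ω)) / (8 * Real.sqrt d * 4 ^ d * ((l : ℝ) + 2)) * (4 * K * 4 ^ d) = 1 := by
          rw [hK, Real.exp_neg]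
          have h1 := Real.exp_pos (2 * ω)
          field_simp
          norm_num
        rw [e, ENNReal.ofReal_one, one_mul]

/-- **Deterministic part of (CrossLow).** -/
theorem cross_det {J k : ℕ} (hk : 1 ≤ k) {a M r r' : ℝ} (ha : 0 ≤ a) (hr : 0 < r) (hrr : (2 * k + 4 : ℝ) ≤ (r' - r) * 2 ^ J) (g φ : Rd d → ℝ)
    (hno : ∀ p : ℕ → (Fin d → ℤ), StarPath k p → (∀ j < k, ∀ i, (|p j i| : ℝ) ≤ (r' + 1) * 2 ^ J) → ∃ j < k, GoodCell φ J a (p j))
    (hM : ∀ x ∈ CBox (0 : Rd d) (r' + 2), -M ≤ g x) :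
    ENNReal.ofReal (Real.exp (-M) * (dy J * a)) ≤ Cr (fun x => g x + φ x) 0 r r' := by
  classical
  have hdy : 0 < dy J := dy_pos J
  have hdy1 : dy J ≤ 1 := dy_le_one J
  have h2dy : (2 : ℝ) ^ J * dy J = 1 := two_pow_mul_dy J
  have hk1 : (1 : ℝ) ≤ k := by exact_mod_cast hk
  refine le_D fun c hsrc htgt himg => ?_
  obtain ⟨i0, hi0⟩ := B8_sep hsrc htgt
  have hstar : StarConn (visit J c.img) := visit_starConn J c.isCompact_img.isBounded c.isPreconnected_img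
  have hreg0 : ∀ v ∈ visit J c.img, ∀ i, |dy J * (v i : ℝ)| ≤ r' + dy J / 2 := by
    rintro v ⟨p, hp, hpc⟩ i
    exact B8_region (himg hp).1 hpc i
  have hreg : ∀ v ∈ visit J c.img, ∀ i, (|v i| : ℝ) ≤ (r' + 1) * 2 ^ J := by
    intro v hv i
    have h2 := hreg0 v hv i
    rw [abs_mul, abs_of_pos hdy] at h2
    have h4 : (2 : ℝ) ^ J * (dy J * |(v i : ℝ)|) ≤ 2 ^ J * (r' + dy J / 2) := by gcongr
    have h5 : (2 : ℝ) ^ J * (dy J * |(v i : ℝ)|) = |(v i : ℝ)| := by rw [← mul_assoc, h2dy, one_mul]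
    have h6 : (2 : ℝ) ^ J * (r' + dy J / 2) = r' * 2 ^ J + 1 / 2 := by linear_combination (1 / 2) * h2dy
    have h7 : (1 : ℝ) ≤ 2 ^ J := one_le_pow₀ (by norm_num)
    linarith
  obtain ⟨v0, hv0⟩ := exists_visit J c.src
  obtain ⟨v1, hv1⟩ := exists_visit J c.tgt
  have hv0V : v0 ∈ visit J c.img := ⟨c.src, c.src_mem_img, hv0⟩
  have hv1V : v1 ∈ visit J c.img := ⟨c.tgt, c.tgt_mem_img, hv1⟩
  have hdiam : 2 * (k : ℤ) ≤ |v1 i0 - v0 i0| := by
    have h1 := cell_dist hv1 hv0 i0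
    have h2 : (2 : ℝ) ^ J * (r' - r) ≤ 2 ^ J * |c.tgt i0 - c.src i0| := by gcongr
    have h4 : (2 * (k : ℝ)) ≤ |((v1 i0 - v0 i0 : ℤ) : ℝ)| := by linarith
    exact_mod_cast h4
  obtain ⟨w, hw, hgw, -⟩ := good_near hstar (fun w => ¬ GoodCell φ J a w) (k := k) hk
    (fun p hp hpV => by
      obtain ⟨j, hj, hgj⟩ := hno p hp fun j hj => hreg _ (hpV j hj)
      exact ⟨j, hj, not_not.2 hgj⟩) hv1V hv0V hdiam hv0V
  have hgw' : GoodCell φ J a w := not_not.1 hgw
  refine (good_cell_len c hgw' hw ?_ fun x hx => ?_).trans (c.len_mono _ (subset_univ _))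
  · by_contra hcon
    push Not at hcon
    have h1 := hcon c.src c.src_mem_img i0
    have h2 := hcon c.tgt c.tgt_mem_img i0
    have h3 : |c.tgt i0 - c.src i0| ≤ |c.tgt i0 - (latt J w) i0| + |c.src i0 - (latt J w) i0| := by
      have e : c.tgt i0 - c.src i0 = (c.tgt i0 - (latt J w) i0) - (c.src i0 - (latt J w) i0) := by ring
      rw [e]
      exact abs_sub _ _
    have h4 : r' - r < 3 * dy J := by linarith
    have h5 : (r' - r) * 2 ^ J < 3 := by
      have h6 : (r' - r) * 2 ^ J < 3 * dy J * 2 ^ J := mul_lt_mul_of_pos_right h4 (by positivity)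
      have h7 : 3 * dy J * 2 ^ J = 3 := by linear_combination 3 * h2dy
      linarith
    linarith
  · refine hM x fun i => ?_
    have h1 := hx i
    have h2 := hreg0 w hw i
    have h3 : (0 : Rd d) i = 0 := rfl
    rw [h3, sub_zero]
    rw [latt_apply] at h1
    have e : x i = (x i - dy J * (w i : ℝ)) + dy J * (w i : ℝ) := by ring
    calc |x i| = |(x i - dy J * (w i : ℝ)) + dy J * (w i : ℝ)| := by rw [← e]
      _ ≤ |x i - dy J * (w i : ℝ)| + |dy J * (w i : ℝ)| := abs_add_le _ _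
      _ ≤ r' + 2 := by linarith

end MP_d19698_pr
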