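import Pool.Agent.Lib.MP_d19698_pr.B7

/-!
# B9: deterministic part of submultiplicativity (F3)
-/

open MeasureTheory ProbabilityTheory Filter Topology Set
open scoped ENNReal NNReal

namespace MP_d19698_pr

variable {d : ℕ} [NeZero d]

/-- `v + {-1,0,1}^d`. -/
noncomputable def nbr (v : Fin d → ℤ) : Finset (Fin d → ℤ) := Fintype.piFinset fun i => Finset.Icc (v i - 1) (v i + 1)

/-- the lattice point `2^m e_1`. -/
noncomputable def topv (m : ℕ) : Fin d → ℤ := fun i => if i = 0 then 2 ^ m else 0

/-- admissible sets of cells: finite, `*`-connected, containing `0` and `2^m e_1`, contained in the region of the cells which meet `Box 0 (5/4)`. -/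
def AdmSet (m : ℕ) (V : Finset (Fin d → ℤ)) : Prop :=
  StarConn (V : Set (Fin d → ℤ)) ∧ (0 : Fin d → ℤ) ∈ V ∧ topv m ∈ V ∧ ∀ v ∈ V, ∀ i, (|v i| : ℝ) * dy m ≤ 5 / 4 + dy m / 2

omit [NeZero d] in
private theorem B9_zero (m : ℕ) : latt m (0 : Fin d → ℤ) = 0 := by
  ext i
  rw [latt_apply]
  simp

private theorem B9_topv (m : ℕ) : latt m (topv m : Fin d → ℤ) = ee 0 := by
  ext i
  rw [latt_apply]
  unfold topv ee
  by_cases h : i = 0
  · subst h
    simp only [if_true]
    push_cast
    rw [mul_comm, two_pow_mul_dy]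
    simp
  · rw [if_neg h]
    simp [h]

omit [NeZero d] in
private theorem B9_edge (m : ℕ) (a b : Fin d → ℤ) (i : Fin d) (h : b i = a i + 1) (h' : ∀ j, j ≠ i → b j = a j) :
    latt m b = latt m a + dy m • ee i := by
  ext j
  by_cases hj : j = i
  · subst hj
    simp [latt_apply, ee, h]
    ring
  · simp [latt_apply, ee, h' j hj, hj]

private theorem B9_dy {m : ℕ} (hm : 2 ≤ m) : dy m ≤ 1 / 4 := by
  refine (dy_anti hm).trans ?_
  unfold dy
  norm_num

/-- The cells visited by a curve from `0` to `e_1` in `Box 0 (5/4)` are admissible, and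
`∑_{v ∈ V} 2^{-m} e^{g(latt v)} ≤ 4^d e^{ω} len_g(c)` (each visited cell is exited: `c` contains `0` and `e_1`, at sup distance `1 > 3/2 2^{-m} * ...`, so `c` leaves
`Box (latt v) (3/2 2^{-m})` for `m ≥ 2`; the crossing costs at least `e^{g(latt v) - ω} 2^{-m}` by `Cr_le_len` and `Cr_pos`; overlap `sum_len_le`). -/
theorem exists_admSet {m : ℕ} (hm : 2 ≤ m) (g : Rd d → ℝ) {ω : ℝ} (c : Curve d) (hsrc : c.src = 0) (htgt : c.tgt = ee 0)
    (himg : c.img ⊆ Box 0 (5 / 4))
    (hosc : ∀ v : Fin d → ℤ, (∀ i, (|v i| : ℝ) * dy m ≤ 2) → ∀ x ∈ CBox (latt m v) (4 * dy m), ∀ y ∈ CBox (latt m v) (4 * dy m), |g x - g y| ≤ ω) :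
    ∃ V : Finset (Fin d → ℤ), AdmSet m V ∧
      ∑ v ∈ V, ENNReal.ofReal (dy m * Real.exp (g (latt m v))) ≤ ENNReal.ofReal (4 ^ d * Real.exp ω) * c.len g univ := by
  have hdy := dy_pos m
  have hdy4 := B9_dy hm
  have hb : Bornology.IsBounded c.img := c.isCompact_img.isBounded
  have hfin : (visit m c.img).Finite := visit_finite m hb
  have hreg : ∀ v ∈ visit m c.img, ∀ i, (|v i| : ℝ) * dy m ≤ 5 / 4 + dy m / 2 := by
    rintro v ⟨p, hp1, hp2⟩ i
    have h1 := himg hp1 i
    have h2 := hp2 i
    rw [latt_apply] at h2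
    have h3 : |dy m * (v i : ℝ)| ≤ |p i| + dy m / 2 := by
      have h4 : |dy m * (v i : ℝ)| = |p i - (p i - dy m * (v i : ℝ))| := by congr 1; ring
      rw [h4]
      exact (abs_sub _ _).trans (by linarith)
    rw [abs_mul, abs_of_pos hdy] at h3
    have h5 : |p i| < 5 / 4 := by
      have : p i - (0 : Rd d) i = p i := by simp
      rw [this] at h1
      exact h1
    rw [mul_comm]
    linarith
  have h2le : ∀ v ∈ visit m c.img, ∀ i, (|v i| : ℝ) * dy m ≤ 2 := by
    intro v hv i
    refine (hreg v hv i).trans ?_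
    linarith
  refine ⟨hfin.toFinset, ⟨?_, ?_, ?_, ?_⟩, ?_⟩
  · rw [hfin.coe_toFinset]
    exact visit_starConn m hb c.isPreconnected_img
  · rw [hfin.mem_toFinset]
    refine ⟨c.src, c.src_mem_img, fun i => ?_⟩
    rw [hsrc, latt_apply]
    simp only [PiLp.zero_apply, Pi.zero_apply, Int.cast_zero, mul_zero, sub_zero, abs_zero]
    positivity
  · rw [hfin.mem_toFinset]
    refine ⟨c.tgt, c.tgt_mem_img, fun i => ?_⟩
    rw [htgt, B9_topv]
    simp only [sub_self, abs_zero]
    positivity
  · intro v hv
    rw [hfin.mem_toFinset] at hv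
    exact hreg v hv
  · have hone : ∀ v ∈ hfin.toFinset, ENNReal.ofReal (dy m * Real.exp (g (latt m v))) ≤
        ENNReal.ofReal (Real.exp ω) * c.len g (CBox (latt m v) (3 / 2 * dy m)) := by
      intro v hv
      rw [hfin.mem_toFinset] at hv
      have hv' := hv
      obtain ⟨p, hp1, hp2⟩ := hv'
      have hrr : dy m / 2 < 3 / 2 * dy m := by linarith
      have hexit : ∃ p ∈ c.img, p ∉ Box (latt m v) (3 / 2 * dy m) := by
        by_contra hcon
        push Not at hcon
        have h1 := hcon c.src c.src_mem_img 0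
        have h2 := hcon c.tgt c.tgt_mem_img 0
        rw [hsrc] at h1
        rw [htgt] at h2
        have e1 : (0 : Rd d) (0 : Fin d) = 0 := rfl
        have e2 : (ee (0 : Fin d) : Rd d) (0 : Fin d) = 1 := by
          unfold ee; simp
        rw [e1] at h1
        rw [e2] at h2
        rw [abs_lt] at h1 h2
        linarith [h1.1, h1.2, h2.1, h2.2]
      have hcr := Cr_le_len g c hrr ⟨p, hp1, hp2⟩ hexit
      have hpos := Cr_pos (f := g) (x := latt m v) (M := -(g (latt m v) - ω)) hrr (by
        intro y hy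
        rw [neg_neg]
        have hy1 : y ∈ CBox (latt m v) (4 * dy m) := by
          intro i
          refine (hy.1 i).trans ?_
          linarith
        have hx1 : latt m v ∈ CBox (latt m v) (4 * dy m) := by
          intro i
          simp only [sub_self, abs_zero]
          positivity
        have := (abs_le.1 (hosc v (h2le v hv) _ hx1 _ hy1)).2
        linarith)
      rw [neg_neg] at hpos
      have hle : c.len g (CBox (latt m v) (3 / 2 * dy m) \ CBox (latt m v) (dy m / 2)) ≤
          c.len g (CBox (latt m v) (3 / 2 * dy m)) := c.len_mono g sdiff_subset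
      calc ENNReal.ofReal (dy m * Real.exp (g (latt m v)))
          = ENNReal.ofReal (Real.exp ω) *
            ENNReal.ofReal (Real.exp (g (latt m v) - ω) * (3 / 2 * dy m - dy m / 2)) := by
            rw [← ENNReal.ofReal_mul (Real.exp_nonneg _)]
            congr 1
            rw [← mul_assoc, ← Real.exp_add]
            have : ω + (g (latt m v) - ω) = g (latt m v) := by ring
            rw [this]
            ring
        _ ≤ _ := by
            apply mul_le_mul_of_nonneg_left _ zero_le
            exact hpos.trans (hcr.trans hle)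
    calc _ ≤ ∑ v ∈ hfin.toFinset, ENNReal.ofReal (Real.exp ω) * c.len g (CBox (latt m v) (3 / 2 * dy m)) :=
          Finset.sum_le_sum hone
      _ = ENNReal.ofReal (Real.exp ω) * ∑ v ∈ hfin.toFinset, c.len g (CBox (latt m v) (3 / 2 * dy m)) := by
          rw [Finset.mul_sum]
      _ ≤ ENNReal.ofReal (Real.exp ω) * (4 ^ d * c.len g univ) := by
          apply mul_le_mul_of_nonneg_left _ zero_le
          exact sum_len_le m g c _
      _ = _ := by
          rw [ENNReal.ofReal_mul (by positivity), ENNReal.ofReal_pow (by norm_num)]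
          have : ENNReal.ofReal 4 = 4 := by norm_num
          rw [this]
          ring

/-- For an admissible `V` the distance of `0` and `e_1` for `g + φ` is bounded by the sum of the costs of the grid edges near `V`.
Proof: for `v, w ∈ V` with `|v - w|_∞ ≤ 1` change the coordinates one at a time; every step is a grid edge with lower end point in `nbr v`
(domain `Box (latt w) (5/4 2^{-m}) ⊆ Box 0 2` since `5/4 + (1/2 + 1 + 5/4) 2^{-m} < 2` for `m ≥ 2`), and `e^{g+φ} ≤ e^{g(latt v)+ω} e^φ` on the domain. So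
`D({latt v},{latt w}) ≤ cost v := ofReal (exp (g (latt v) + ω)) * ∑_{w' ∈ nbr v} ∑_i D φ (edge w' i)`. Then `D_graph_le`. -/
theorem D_le_of_admSet {m : ℕ} (hm : 2 ≤ m) {V : Finset (Fin d → ℤ)} (hV : AdmSet m V) (g φ : Rd d → ℝ) {ω : ℝ}
    (hosc : ∀ v : Fin d → ℤ, (∀ i, (|v i| : ℝ) * dy m ≤ 2) → ∀ x ∈ CBox (latt m v) (4 * dy m), ∀ y ∈ CBox (latt m v) (4 * dy m), |g x - g y| ≤ ω) :
    D (fun x => g x + φ x) {0} {ee 0} (Box 0 2) ≤ 2 * ∑ v ∈ V, ENNReal.ofReal (Real.exp (g (latt m v) + ω)) *
      ∑ w ∈ nbr v, ∑ i : Fin d, D φ {latt m w} {latt m w + dy m • ee i} (Box (latt m w) (5 / 4 * dy m)) := by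
  classical
  obtain ⟨hconn, h0V, htV, hregV⟩ := hV
  have hdy := dy_pos m
  have hdy4 := B9_dy hm
  set cost : (Fin d → ℤ) → ℝ≥0∞ := fun v => ENNReal.ofReal (Real.exp (g (latt m v) + ω)) *
      ∑ w ∈ nbr v, ∑ i : Fin d, D φ {latt m w} {latt m w + dy m • ee i} (Box (latt m w) (5 / 4 * dy m)) with hcost
  have habs : ∀ v ∈ V, ∀ i, |(v i : ℝ)| * dy m ≤ 5 / 4 + dy m / 2 := by
    intro v hv i
    have := hregV v hv i
    exact_mod_cast this
  have hadj : ∀ a ∈ V, ∀ b ∈ V, (∀ i, |a i - b i| ≤ 1) →
      D (fun x => g x + φ x) {latt m a} {latt m b} (Box 0 2) ≤ cost a + cost b := by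
    intro v hv w hw hvw
    refine le_trans ?_ le_self_add
    -- the chain
    set u : ℕ → (Fin d → ℤ) := fun k i => if (i : ℕ) < k then w i else v i with hu
    have hu0 : u 0 = v := by funext i; simp [hu]
    have hud : u d = w := by funext i; simp [hu, i.2]
    have huabs : ∀ k i, |(u k i : ℝ)| * dy m ≤ 5 / 4 + dy m / 2 := by
      intro k i
      simp only [hu]
      split_ifs
      · exact habs w hw i
      · exact habs v hv i
    have hunbr : ∀ k, ∀ i, |u k i - v i| ≤ 1 := by
      intro k i
      simp only [hu]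
      split_ifs
      · rw [abs_sub_comm]; exact hvw i
      · simp
    have hmem : ∀ k, u k ∈ nbr v := by
      intro k
      unfold nbr
      rw [Fintype.mem_piFinset]
      intro i
      have := abs_le.1 (hunbr k i)
      rw [Finset.mem_Icc]
      constructor <;> linarith [this.1, this.2]
    have hbox2 : ∀ k, Box (latt m (u k)) (5 / 4 * dy m) ⊆ Box (0 : Rd d) 2 := by
      intro k y hy i
      have h1 := hy i
      rw [latt_apply] at h1
      have h2 : |y i| ≤ |y i - dy m * (u k i : ℝ)| + |dy m * (u k i : ℝ)| := by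
        have : y i = (y i - dy m * (u k i : ℝ)) + dy m * (u k i : ℝ) := by ring
        calc |y i| = |(y i - dy m * (u k i : ℝ)) + dy m * (u k i : ℝ)| := by rw [← this]
          _ ≤ _ := abs_add_le _ _
      rw [abs_mul, abs_of_pos hdy] at h2
      have h3 := huabs k i
      have e1 : (0 : Rd d) i = 0 := rfl
      rw [e1, sub_zero]
      nlinarith
    have hbox4 : ∀ k, Box (latt m (u k)) (5 / 4 * dy m) ⊆ CBox (latt m v) (4 * dy m) := by
      intro k y hy i
      have h1 := hy i
      rw [latt_apply] at h1 ⊢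
      have h4 : |((u k i - v i : ℤ) : ℝ)| ≤ 1 := by exact_mod_cast hunbr k i
      have h2 : |y i - dy m * (v i : ℝ)| ≤ |y i - dy m * (u k i : ℝ)| + dy m * |((u k i - v i : ℤ) : ℝ)| := by
        have : y i - dy m * (v i : ℝ) = (y i - dy m * (u k i : ℝ)) + dy m * ((u k i - v i : ℤ) : ℝ) := by
          push_cast; ring
        rw [this]
        refine (abs_add_le _ _).trans ?_
        rw [abs_mul, abs_of_pos hdy]
      nlinarith
    -- one edge
    have hedge : ∀ k (i : Fin d), D (fun x => g x + φ x) {latt m (u k)} {latt m (u k) + dy m • ee i} (Box 0 2) ≤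
        ENNReal.ofReal (Real.exp (g (latt m v) + ω)) *
          D φ {latt m (u k)} {latt m (u k) + dy m • ee i} (Box (latt m (u k)) (5 / 4 * dy m)) := by
      intro k i
      refine (D_mono _ subset_rfl subset_rfl (hbox2 k)).trans ?_
      apply D_le_exp
      intro y hy
      have hy1 := hbox4 k hy
      have hx1 : latt m v ∈ CBox (latt m v) (4 * dy m) := by
        intro i
        simp only [sub_self, abs_zero]
        positivity
      have h2v : ∀ i, (|v i| : ℝ) * dy m ≤ 2 := by
        intro i
        have := hregV v hv i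
        linarith
      have := (abs_le.1 (hosc v h2v _ hx1 _ hy1)).1
      linarith
    have hstep : ∀ k (hk : k < d), D (fun x => g x + φ x) {latt m (u k)} {latt m (u (k + 1))} (Box 0 2) ≤
        ENNReal.ofReal (Real.exp (g (latt m v) + ω)) *
          ∑ w' ∈ nbr v, D φ {latt m w'} {latt m w' + dy m • ee (⟨k, hk⟩ : Fin d)} (Box (latt m w') (5 / 4 * dy m)) := by
      intro k hk
      have hdiff : ∀ i : Fin d, i ≠ ⟨k, hk⟩ → u (k + 1) i = u k i := by
        intro i hi
        simp only [hu]
        have : (i : ℕ) ≠ k := fun h => hi (Fin.ext h)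
        by_cases h : (i : ℕ) < k
        · rw [if_pos h, if_pos (by omega)]
        · rw [if_neg h, if_neg (by omega)]
      have hk1 : u (k + 1) ⟨k, hk⟩ = w ⟨k, hk⟩ := by simp [hu]
      have hk0 : u k ⟨k, hk⟩ = v ⟨k, hk⟩ := by simp [hu]
      have hterm : ∀ k', D φ {latt m (u k')} {latt m (u k') + dy m • ee (⟨k, hk⟩ : Fin d)}
          (Box (latt m (u k')) (5 / 4 * dy m)) ≤
          ∑ w' ∈ nbr v, D φ {latt m w'} {latt m w' + dy m • ee (⟨k, hk⟩ : Fin d)} (Box (latt m w') (5 / 4 * dy m)) :=
        fun k' => Finset.single_le_sum (f := fun w' => D φ {latt m w'}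
          {latt m w' + dy m • ee (⟨k, hk⟩ : Fin d)} (Box (latt m w') (5 / 4 * dy m)))
          (fun _ _ => zero_le) (hmem k')
      have hcases : w ⟨k, hk⟩ = v ⟨k, hk⟩ ∨ w ⟨k, hk⟩ = v ⟨k, hk⟩ + 1 ∨ v ⟨k, hk⟩ = w ⟨k, hk⟩ + 1 := by
        have := abs_le.1 (hvw ⟨k, hk⟩)
        omega
      rcases hcases with h | h | h
      · have he : u (k + 1) = u k := by
          funext i
          by_cases hi : i = ⟨k, hk⟩
          · rw [hi, hk1, hk0, h]
          · exact hdiff i hi
        rw [he, D_self]
        · exact zero_le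
        · apply hbox2 k
          intro i
          simp only [sub_self, abs_zero]
          positivity
      · have he : latt m (u (k + 1)) = latt m (u k) + dy m • ee (⟨k, hk⟩ : Fin d) := by
          apply B9_edge
          · rw [hk1, hk0, h]
          · exact hdiff
        rw [he]
        refine (hedge k ⟨k, hk⟩).trans ?_
        apply mul_le_mul_of_nonneg_left _ zero_le
        exact hterm k
      · have he : latt m (u k) = latt m (u (k + 1)) + dy m • ee (⟨k, hk⟩ : Fin d) := by
          apply B9_edge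
          · rw [hk1, hk0, h]
          · intro i hi
            exact (hdiff i hi).symm
        rw [he, D_symm]
        refine (hedge (k + 1) ⟨k, hk⟩).trans ?_
        apply mul_le_mul_of_nonneg_left _ zero_le
        exact hterm (k + 1)
    have hchain := D_chain (fun x => g x + φ x) (Box (0 : Rd d) 2) (fun k => latt m (u k)) d (by
      apply hbox2 0
      intro i
      simp only [sub_self, abs_zero]
      positivity)
    simp only [hu0, hud] at hchain
    refine hchain.trans ?_
    calc ∑ k ∈ Finset.range d, D (fun x => g x + φ x) {latt m (u k)} {latt m (u (k + 1))} (Box 0 2)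
        = ∑ k : Fin d, D (fun x => g x + φ x) {latt m (u k)} {latt m (u (k + 1))} (Box 0 2) := by
          rw [Finset.sum_range]
      _ ≤ ∑ k : Fin d, ENNReal.ofReal (Real.exp (g (latt m v) + ω)) *
          ∑ w' ∈ nbr v, D φ {latt m w'} {latt m w' + dy m • ee k} (Box (latt m w') (5 / 4 * dy m)) :=
          Finset.sum_le_sum fun k _ => hstep k k.2
      _ = cost v := by
          rw [← Finset.mul_sum, hcost, Finset.sum_comm]
  have hfin := D_graph_le (fun x => g x + φ x) (Box (0 : Rd d) 2) V (latt m) cost (fun a b => ∀ i, |a i - b i| ≤ 1) hadj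
    h0V (by
      intro i
      have e1 : latt m (0 : Fin d → ℤ) i = 0 := by rw [latt_apply]; simp
      have e2 : (0 : Rd d) i = 0 := rfl
      rw [e1, e2]
      norm_num) (hconn 0 h0V (topv m) htV)
  rw [B9_topv, B9_zero] at hfin
  exact hfin

end MP_d19698_pr
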