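import Pool.Agent.Lib.MP_d19698_pr.A5b
import Pool.Agent.Lib.MP_d19698_pr.B5

/-!
# C1: the one-step inequality (section 3)
-/

open MeasureTheory ProbabilityTheory Filter Topology Set
open scoped ENNReal NNReal

namespace MP_d19698_pr

namespace Env

variable {d : ℕ} [NeZero d] (E : Env d)

private theorem C1a_d_pos : (0 : ℝ) < 2 * (d : ℝ) := by
  have : 0 < d := Nat.pos_of_ne_zero (NeZero.ne d)
  have h : (0 : ℝ) < d := by exact_mod_cast this
  linarith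

theorem be_pos : 0 < E.be := by
  unfold be
  exact div_pos (Real.sqrt_pos.2 C1a_d_pos) E.hξ

theorem one_lt_be : 1 < E.be := by
  unfold be
  exact (one_lt_div E.hξ).2 E.hβ

theorem xi_mul_be : E.ξ * E.be = Real.sqrt (2 * d) := by
  unfold be
  exact mul_div_cancel₀ _ E.hξ.ne'

/-- `(ξβ)²/2 = d`. -/
theorem xi_be_sq : (E.ξ * E.be) ^ 2 / 2 = d := by
  rw [xi_mul_be, Real.sq_sqrt C1a_d_pos.le]
  ring

/-- `αβ - β = -2d`. -/
theorem al_mul_be : E.al * E.be - E.be = -(2 * d) := by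
  have h1 : E.al * E.be - E.be = -(Real.sqrt (2 * d) * (E.ξ * E.be)) := by
    unfold al
    ring
  rw [h1, xi_mul_be, Real.mul_self_sqrt C1a_d_pos.le]

private theorem C1a_ee_apply (i j : Fin d) : (ee i : Rd d) j = if j = i then 1 else 0 := by
  unfold ee
  simp

private theorem C1a_norm_ee (i : Fin d) : ‖(ee i : Rd d)‖ = 1 := by
  unfold ee
  simp

private theorem C1a_seg_subset (l : ℕ) (x : Rd d) (i : Fin d) {ρ : ℝ} (hρ : 1 < ρ) :
    segment ℝ x (x + dy l • ee i) ⊆ Box x (ρ * dy l) := by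
  have hd := dy_pos l
  refine (convex_Box x (ρ * dy l)).segment_subset ?_ ?_
  · intro j
    simp only [sub_self, abs_zero]
    positivity
  · intro j
    have h1 : (x + dy l • ee i) j - x j = dy l * (ee i : Rd d) j := by
      simp
    rw [h1, C1a_ee_apply]
    split_ifs
    · rw [mul_one, abs_of_pos hd]
      nlinarith
    · rw [mul_zero, abs_zero]
      positivity

/-- `X_m` is finite and positive. -/
theorem Edg_pos_lt_top (j m l : ℕ) (ω : E.Ω) (x : Rd d) (i : Fin d) {ρ : ℝ} (hρ : 1 < ρ) :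
    0 < E.Edg j m l ω x i ρ ∧ E.Edg j m l ω x i ρ < ∞ := by
  have hd := dy_pos l
  have hcont := E.continuous_hf j m ω
  obtain ⟨M, hM⟩ := (isCompact_CBox x (ρ * dy l)).exists_bound_of_continuousOn hcont.continuousOn
  have hM' : ∀ p ∈ Box x (ρ * dy l), |E.hf j m ω p| ≤ M := fun p hp =>
    hM p (Box_subset_CBox _ _ hp)
  constructor
  · refine lt_of_lt_of_le ?_ (le_D_of_bdd (f := E.hf j m ω) (A := {x}) (B := {x + dy l • ee i})
      (U := Box x (ρ * dy l)) (M := M) (δ := dy l) (fun p hp => (abs_le.1 (hM' p hp)).1) ?_)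
    · exact ENNReal.ofReal_pos.2 (by positivity)
    · rintro a ⟨rfl, _⟩ b ⟨rfl, _⟩
      rw [sub_add_cancel_left, norm_neg, norm_smul, C1a_norm_ee, mul_one, Real.norm_eq_abs,
        abs_of_pos hd]
  · exact lt_of_le_of_lt (D_seg (f := E.hf j m ω) (M := M) (C1a_seg_subset l x i hρ)
      fun p hp => (abs_le.1 (hM' p (C1a_seg_subset l x i hρ hp))).2) ENNReal.ofReal_lt_top

theorem Gt_anti {ρ ρ' : ℝ} (h : ρ ≤ ρ') (m : ℕ) (x : ℝ) : E.Gt ρ' m x ≤ E.Gt ρ m x := by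
  unfold Gt
  refine measureReal_mono (fun ω hω => ?_) (measure_ne_top _ _)
  have hω' : ENNReal.ofReal x < E.Edg 0 m 0 ω 0 0 ρ' := hω
  refine lt_of_lt_of_le hω' ?_
  unfold Edg
  refine D_mono _ (subset_refl _) (subset_refl _) fun y hy j => ?_
  exact lt_of_lt_of_le (hy j) (mul_le_mul_of_nonneg_right h (dy_pos 0).le)

theorem Gt_mono {ρ : ℝ} (m : ℕ) {x y : ℝ} (h : x ≤ y) : E.Gt ρ m y ≤ E.Gt ρ m x := by
  unfold Gt
  refine measureReal_mono (fun ω hω => ?_) (measure_ne_top _ _)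
  exact lt_of_le_of_lt (ENNReal.ofReal_le_ofReal h) hω

private theorem C1a_edg_le (m : ℕ) (ω : E.Ω) {ρ : ℝ} (hρ : 1 < ρ) :
    E.Edg 0 m 0 ω 0 0 ρ ≤ ∫⁻ s in Icc (0 : ℝ) 1,
      ENNReal.ofReal (Real.exp (E.ξ * E.hh 0 m ω (s • (ee 0 : Rd d)))) := by
  obtain ⟨c, h1, h2, h3, h4, _⟩ := Curve.exists_seg (0 : Rd d) (0 + dy 0 • ee 0)
  have h5 : E.Edg 0 m 0 ω 0 0 ρ ≤ c.len (E.hf 0 m ω) univ := by
    unfold Edg
    refine D_le_len _ c (by rw [h1]; exact mem_singleton _) (by rw [h2]; exact mem_singleton _) ?_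
    rw [h3]
    exact C1a_seg_subset 0 0 0 hρ
  refine h5.trans ((h4 _ _).trans (le_of_eq ?_))
  refine lintegral_congr fun s => ?_
  have h6 : (0 : Rd d) + dy 0 • (ee 0 : Rd d) - 0 = ee 0 := by
    rw [dy_zero, one_smul, zero_add, sub_zero]
  rw [h6, zero_add]
  have h7 : ‖(ee 0 : Rd d)‖ₑ = 1 := by
    rw [← ofReal_norm, C1a_norm_ee, ENNReal.ofReal_one]
  rw [h7, mul_one]
  rfl

private theorem C1a_jensen {t : ℝ} (ht : 1 ≤ t) {g : ℝ → ℝ} (hg : Continuous g) :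
    (∫⁻ s in Icc (0 : ℝ) 1, ENNReal.ofReal (Real.exp (g s))) ^ t ≤
      ∫⁻ s in Icc (0 : ℝ) 1, ENNReal.ofReal (Real.exp (t * g s)) := by
  have ht0 : 0 < t := lt_of_lt_of_le one_pos ht
  have : IsProbabilityMeasure (volume.restrict (Icc (0 : ℝ) 1)) := ⟨by simp⟩
  have h1 := eLpNorm'_le_eLpNorm'_of_exponent_le (f := fun s => Real.exp (g s)) (p := 1) (q := t)
    one_pos ht (volume.restrict (Icc (0 : ℝ) 1))
    (Real.continuous_exp.comp hg).aestronglyMeasurable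
  unfold eLpNorm' at h1
  simp only [ENNReal.rpow_one, div_one] at h1
  have h2 : ∀ s, ‖Real.exp (g s)‖ₑ = ENNReal.ofReal (Real.exp (g s)) := fun s => by
    rw [← ofReal_norm, Real.norm_eq_abs, abs_of_pos (Real.exp_pos _)]
  simp only [h2] at h1
  have h3 := ENNReal.rpow_le_rpow h1 ht0.le
  rw [← ENNReal.rpow_mul, one_div, inv_mul_cancel₀ ht0.ne', ENNReal.rpow_one] at h3
  refine h3.trans (le_of_eq (lintegral_congr fun s => ?_))
  rw [ENNReal.ofReal_rpow_of_pos (Real.exp_pos _), ← Real.exp_mul, mul_comm]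

/-- **Straight path.** `P[X_m > x] ≤ x^{-t} 2^{(ξ t)² m/2}` for every `t ≥ 1` (domain `Box 0 ρ`, `ρ > 1`): `X_m ≤ ∫_0^1 e^{ξ h_m(s e_1)} ds`, Jensen
(`(∫ f)^t ≤ ∫ f^t`) and Markov. -/
theorem straight {ρ t : ℝ} (hρ : 1 < ρ) (ht : 1 ≤ t) (m : ℕ) {x : ℝ} (hx : 0 < x) :
    E.Gt ρ m x ≤ x ^ (-t) * (2 : ℝ) ^ ((E.ξ * t) ^ 2 * m / 2) := by
  have ht0 : 0 < t := lt_of_lt_of_le one_pos ht
  set u : ℝ → E.Ω → ℝ := fun s ω => E.hh 0 m ω (s • (ee 0 : Rd d)) with hu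
  have hcont : ∀ ω, Continuous (fun s => u s ω) := fun ω =>
    (E.continuous_hh 0 m ω).comp (continuous_id.smul continuous_const)
  have hmeas : ∀ s, Measurable (u s) := fun s => E.measurable_hh 0 m _
  have hjoint : Measurable (Function.uncurry u) :=
    measurable_uncurry_of_continuous_of_measurable hcont hmeas
  set w : E.Ω → ℝ → ℝ≥0∞ := fun ω s => ENNReal.ofReal (Real.exp (E.ξ * t * u s ω)) with hw
  have hwm : Measurable (Function.uncurry w) := by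
    have h1 : Measurable (fun p : E.Ω × ℝ => u p.2 p.1) := hjoint.comp measurable_swap
    exact ENNReal.measurable_ofReal.comp (Real.measurable_exp.comp (h1.const_mul _))
  set G : E.Ω → ℝ≥0∞ := fun ω => ∫⁻ s in Icc (0 : ℝ) 1, w ω s with hG
  have hGm : Measurable G := hwm.lintegral_prod_right'
  have hGint : ∫⁻ ω, G ω ∂E.P = ENNReal.ofReal ((2 : ℝ) ^ ((E.ξ * t) ^ 2 * m / 2)) := by
    simp only [hG]
    rw [lintegral_lintegral_swap hwm.aemeasurable]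
    have h1 : ∀ s, ∫⁻ ω, w ω s ∂E.P = ENNReal.ofReal ((2 : ℝ) ^ ((E.ξ * t) ^ 2 * m / 2)) :=
      fun s => E.exp_hh m _ (E.ξ * t)
    simp only [h1]
    simp
  have hsub : {ω | ENNReal.ofReal x < E.Edg 0 m 0 ω 0 0 ρ} ⊆ {ω | (ENNReal.ofReal x) ^ t ≤ G ω} := by
    intro ω hω
    have h1 : ENNReal.ofReal x < E.Edg 0 m 0 ω 0 0 ρ := hω
    have h2 := (h1.le).trans (E.C1a_edg_le m ω hρ)
    have h3 := ENNReal.rpow_le_rpow h2 ht0.le
    have h4 := C1a_jensen ht (g := fun s => E.ξ * u s ω) (continuous_const.mul (hcont ω))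
    refine h3.trans (h4.trans (le_of_eq (lintegral_congr fun s => ?_)))
    simp only [hw]
    congr 2
    ring
  have hmarkov := mul_meas_ge_le_lintegral₀ (μ := E.P) hGm.aemeasurable ((ENNReal.ofReal x) ^ t)
  rw [hGint] at hmarkov
  have hP := (mul_le_mul_right (measure_mono (μ := E.P) hsub) ((ENNReal.ofReal x) ^ t)).trans hmarkov
  unfold Gt
  have hxt : 0 < x ^ t := Real.rpow_pos_of_pos hx t
  rw [ENNReal.ofReal_rpow_of_pos hx] at hP
  have h5 : E.P {ω | ENNReal.ofReal x < E.Edg 0 m 0 ω 0 0 ρ} ≤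
      ENNReal.ofReal (x ^ (-t) * (2 : ℝ) ^ ((E.ξ * t) ^ 2 * m / 2)) := by
    have h6 : ENNReal.ofReal (x ^ (-t) * (2 : ℝ) ^ ((E.ξ * t) ^ 2 * m / 2)) =
        ENNReal.ofReal ((2 : ℝ) ^ ((E.ξ * t) ^ 2 * m / 2)) / ENNReal.ofReal (x ^ t) := by
      rw [← ENNReal.ofReal_div_of_pos hxt, Real.rpow_neg hx.le]
      congr 1
      exact (div_eq_inv_mul _ _).symm
    rw [h6, ENNReal.le_div_iff_mul_le (Or.inl (ENNReal.ofReal_pos.2 hxt).ne')
      (Or.inl ENNReal.ofReal_ne_top), mul_comm]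
    exact hP
  exact ENNReal.toReal_le_of_le_ofReal (by positivity) h5


end Env
end MP_d19698_pr
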