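import Pool.Agent.Lib.MP_d19698_pr.C1a

/-! # C1b -/

open MeasureTheory ProbabilityTheory Filter Topology Set
open scoped ENNReal NNReal

namespace MP_d19698_pr
namespace Env
variable {d : ℕ} [NeZero d] (E : Env d)

/-- **One line of edges.** The probability that some of the `2^l` edges of the line `x0 + [0,1] e_1` has `2^l Y_e > t`, and the measurability of this event. -/
def badLine (l m : ℕ) (x0 : Rd d) (t : ℝ) : Set E.Ω :=
  {ω | ∃ k : Fin (2 ^ l), ENNReal.ofReal (dy l * t) < E.Edg l (l + m) l ω (x0 + ((k : ℕ) * dy l) • ee 0) 0 2}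

private theorem C1b_badLine_eq (l m : ℕ) (x0 : Rd d) (t : ℝ) : E.badLine l m x0 t =
    ⋃ k : Fin (2 ^ l), {ω | ENNReal.ofReal (dy l * t) < E.Edg l (l + m) l ω (x0 + ((k : ℕ) * dy l) • ee 0) 0 2} := by
  ext ω
  simp only [badLine, Set.mem_ofPred_eq, Set.mem_iUnion]

theorem badLine_prob (l m : ℕ) (x0 : Rd d) (t : ℝ) : E.P.real (E.badLine l m x0 t) ≤ 2 ^ l * E.Gt 2 m t := by
  rw [C1b_badLine_eq]
  refine (measureReal_iUnion_fintype_le _).trans ?_
  have h : ∀ k : Fin (2 ^ l), E.P.real {ω | ENNReal.ofReal (dy l * t) <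
      E.Edg l (l + m) l ω (x0 + ((k : ℕ) * dy l) • ee 0) 0 2} = E.Gt 2 m t := fun k =>
    E.edge_law_Gt l m _ 0 2 t
  rw [Finset.sum_congr rfl (fun k _ => h k)]
  rw [Finset.sum_const, Finset.card_univ, Fintype.card_fin, nsmul_eq_mul]
  push_cast
  exact le_rfl

private theorem C1b_ee_apply (i : Fin d) (hi : i ≠ 0) : (ee (0 : Fin d) : Rd d) i = 0 := by
  simp [ee, hi]

theorem measurableSet_badLine (l m : ℕ) (x0 : Rd d) (t : ℝ) {K : Set (Rd d)}
    (hK : ∀ y : Rd d, (∀ i, i ≠ 0 → |y i - x0 i| ≤ 2 * dy l) → y ∈ K) :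
    MeasurableSet[E.FF l (l + m) K] (E.badLine l m x0 t) := by
  rw [C1b_badLine_eq]
  refine MeasurableSet.iUnion fun k => ?_
  have hm : Measurable[E.FF l (l + m) K] (fun ω => E.Edg l (l + m) l ω (x0 + ((k : ℕ) * dy l) • ee 0) 0 2) := by
    apply E.measurable_Edg
    intro y hy
    apply hK
    intro i hi
    have h1 := hy i
    have h2 : (x0 + ((k : ℕ) * dy l) • ee (0 : Fin d) : Rd d) i = x0 i := by
      rw [PiLp.add_apply, PiLp.smul_apply, C1b_ee_apply i hi, smul_zero, add_zero]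
    rwa [h2] at h1
  exact measurableSet_lt measurable_const hm

/-- On the complement of `badLine` the line costs at most `t * (average over the edges of e^{U_e})`, where `U_e ≥ ξ h_{0,l}` on `Box (x_e) (2·2^{-l})`. -/
theorem line_cost (l m : ℕ) (x0 : Rd d) {t : ℝ} (ht : 0 ≤ t) (ω : E.Ω) (hω : ω ∉ E.badLine l m x0 t) (U : Fin (2 ^ l) → ℝ)
    (hU : ∀ k : Fin (2 ^ l), ∀ y ∈ CBox (x0 + ((k : ℕ) * dy l) • ee 0) (2 * dy l), E.hf 0 l ω y ≤ U k)
    {V : Set (Rd d)} (hV : ∀ k : Fin (2 ^ l), Box (x0 + ((k : ℕ) * dy l) • ee 0) (2 * dy l) ⊆ V) :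
    D (E.hf 0 (l + m) ω) {x0} {x0 + ee 0} V ≤ ENNReal.ofReal (t * (dy l * ∑ k, Real.exp (U k))) := by
  have hdy := dy_pos l
  set p : ℕ → Rd d := fun k => x0 + ((k : ℝ) * dy l) • ee 0 with hp
  have hp0 : p 0 = x0 := by simp [hp]
  have hpn : p (2 ^ l) = x0 + ee 0 := by
    simp only [hp]
    push_cast
    rw [two_pow_mul_dy, one_smul]
  have hstep : ∀ k, p (k + 1) = p k + dy l • ee 0 := by
    intro k
    simp only [hp]
    push_cast
    rw [add_mul, one_mul, add_smul, add_assoc]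
  have hpos : 0 < 2 ^ l := by positivity
  have h0 : p 0 ∈ V := by
    refine hV ⟨0, hpos⟩ ?_
    intro i
    show |p 0 i - (x0 + (((0 : ℕ) : ℝ) * dy l) • ee (0 : Fin d) : Rd d) i| < 2 * dy l
    have : (x0 + (((0 : ℕ) : ℝ) * dy l) • ee (0 : Fin d) : Rd d) = p 0 := rfl
    rw [this, sub_self, abs_zero]
    positivity
  have hchain := D_chain (E.hf 0 (l + m) ω) V p (2 ^ l) h0
  rw [hp0, hpn] at hchain
  refine hchain.trans ?_
  rw [Finset.sum_range]
  have hω' : ∀ k : Fin (2 ^ l), E.Edg l (l + m) l ω (p k) 0 2 ≤ ENNReal.ofReal (dy l * t) := by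
    intro k
    by_contra hcon
    exact hω ⟨k, not_le.1 hcon⟩
  have hterm : ∀ k : Fin (2 ^ l), D (E.hf 0 (l + m) ω) {p k} {p (k + 1)} V ≤
      ENNReal.ofReal (Real.exp (U k) * (dy l * t)) := by
    intro k
    calc D (E.hf 0 (l + m) ω) {p k} {p (k + 1)} V
        ≤ D (E.hf 0 (l + m) ω) {p k} {p (k + 1)} (Box (p k) (2 * dy l)) :=
          D_mono _ subset_rfl subset_rfl (hV k)
      _ ≤ ENNReal.ofReal (Real.exp (U k)) * D (E.hf l (l + m) ω) {p k} {p (k + 1)} (Box (p k) (2 * dy l)) := by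
          apply D_le_exp
          intro y hy
          rw [E.hf_add (Nat.zero_le l) (Nat.le_add_right l m)]
          have h1 := hU k y (fun i => (hy i).le)
          linarith
      _ ≤ ENNReal.ofReal (Real.exp (U k)) * ENNReal.ofReal (dy l * t) := by
          gcongr
          have h1 := hω' k
          unfold Env.Edg at h1
          rw [hstep]
          exact h1
      _ = ENNReal.ofReal (Real.exp (U k) * (dy l * t)) := by
          rw [ENNReal.ofReal_mul (Real.exp_pos _).le]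
  refine (Finset.sum_le_sum fun k _ => hterm k).trans ?_
  rw [← ENNReal.ofReal_sum_of_nonneg (fun k _ => by positivity)]
  apply ENNReal.ofReal_le_ofReal
  rw [← Finset.sum_mul]
  apply le_of_eq
  ring

/-- the `t`-th moment of the average of `e^{U_e}` (`t ≥ 1`, `U_e` from `sup_moment` with `R = 2`), and Markov. -/
theorem line_moment {t : ℝ} (ht : 1 ≤ t) {C : ℝ} (hC : 0 < C) (l : ℕ) (U : Fin (2 ^ l) → E.Ω → ℝ) (hm : ∀ k, Measurable (U k))
    (hU : ∀ k, ∫⁻ ω, ENNReal.ofReal (Real.exp (t * U k ω)) ∂E.P ≤ ENNReal.ofReal C) {x : ℝ} (hx : 0 < x) :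
    E.P.real {ω | x < dy l * ∑ k, Real.exp (U k ω)} ≤ C * x ^ (-t) := by
  have hdy := dy_pos l
  have hxt : 0 < x ^ t := Real.rpow_pos_of_pos hx t
  -- Jensen
  have hJ : ∀ ω, (dy l * ∑ k, Real.exp (U k ω)) ^ t ≤ ∑ k, dy l * Real.exp (t * U k ω) := by
    intro ω
    have h1 := Real.rpow_arith_mean_le_arith_mean_rpow (Finset.univ : Finset (Fin (2 ^ l))) (fun _ => dy l)
      (fun k => Real.exp (U k ω)) (fun _ _ => hdy.le) (by
        rw [Finset.sum_const, Finset.card_univ, Fintype.card_fin, nsmul_eq_mul]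
        push_cast
        exact two_pow_mul_dy l) (fun k _ => (Real.exp_pos _).le) ht
    rw [Finset.mul_sum]
    refine h1.trans (le_of_eq ?_)
    refine Finset.sum_congr rfl fun k _ => ?_
    rw [← Real.exp_mul, mul_comm (U k ω) t]
  set S : E.Ω → ℝ≥0∞ := fun ω => ∑ k, ENNReal.ofReal (dy l) * ENNReal.ofReal (Real.exp (t * U k ω)) with hS
  have hSm : Measurable S := by
    refine Finset.measurable_sum _ fun k _ => ?_
    refine Measurable.const_mul ?_ _
    have := hm k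
    fun_prop
  have hSJ : ∀ ω, ENNReal.ofReal ((dy l * ∑ k, Real.exp (U k ω)) ^ t) ≤ S ω := by
    intro ω
    refine (ENNReal.ofReal_le_ofReal (hJ ω)).trans ?_
    rw [ENNReal.ofReal_sum_of_nonneg (fun k _ => by positivity)]
    refine Finset.sum_le_sum fun k _ => ?_
    rw [ENNReal.ofReal_mul hdy.le]
  have hSint : ∫⁻ ω, S ω ∂E.P ≤ ENNReal.ofReal C := by
    rw [lintegral_finsetSum _ (fun k _ => by
      refine Measurable.const_mul ?_ _
      have := hm k
      fun_prop)]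
    calc ∑ k, ∫⁻ ω, ENNReal.ofReal (dy l) * ENNReal.ofReal (Real.exp (t * U k ω)) ∂E.P
        ≤ ∑ k : Fin (2 ^ l), ENNReal.ofReal (dy l) * ENNReal.ofReal C := by
          refine Finset.sum_le_sum fun k _ => ?_
          rw [lintegral_const_mul _ (by
            have := hm k
            fun_prop)]
          gcongr
          exact hU k
      _ = ENNReal.ofReal C := by
          rw [Finset.sum_const, Finset.card_univ, Fintype.card_fin, nsmul_eq_mul, ← mul_assoc,
            show ((2 ^ l : ℕ) : ℝ≥0∞) = ENNReal.ofReal ((2 : ℝ) ^ l) by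
              rw [show ((2 : ℝ) ^ l) = ((2 ^ l : ℕ) : ℝ) by push_cast; rfl, ENNReal.ofReal_natCast],
            ← ENNReal.ofReal_mul (by positivity), two_pow_mul_dy, ENNReal.ofReal_one, one_mul]
  have hsub : {ω | x < dy l * ∑ k, Real.exp (U k ω)} ⊆ {ω | ENNReal.ofReal (x ^ t) ≤ S ω} := by
    intro ω hω
    have h1 : x < dy l * ∑ k, Real.exp (U k ω) := hω
    have h2 : x ^ t ≤ (dy l * ∑ k, Real.exp (U k ω)) ^ t := Real.rpow_le_rpow hx.le h1.le (by linarith)
    exact (ENNReal.ofReal_le_ofReal h2).trans (hSJ ω)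
  have hmk : E.P {ω | ENNReal.ofReal (x ^ t) ≤ S ω} ≤ ENNReal.ofReal (C * x ^ (-t)) := by
    have h1 := meas_ge_le_lintegral_div (μ := E.P) hSm.aemeasurable (ε := ENNReal.ofReal (x ^ t))
      (by simpa using hxt) ENNReal.ofReal_ne_top
    refine h1.trans ?_
    calc (∫⁻ ω, S ω ∂E.P) / ENNReal.ofReal (x ^ t) ≤ ENNReal.ofReal C / ENNReal.ofReal (x ^ t) := by
          gcongr
      _ = ENNReal.ofReal (C * x ^ (-t)) := by
          rw [← ENNReal.ofReal_div_of_pos hxt, Real.rpow_neg hx.le]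
          rfl
  calc E.P.real {ω | x < dy l * ∑ k, Real.exp (U k ω)} ≤ E.P.real {ω | ENNReal.ofReal (x ^ t) ≤ S ω} :=
        measureReal_mono hsub
    _ ≤ C * x ^ (-t) := by
        rw [measureReal_def]
        exact ENNReal.toReal_le_of_le_ofReal (by positivity) hmk

end Env
end MP_d19698_pr
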