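import Pool.Agent.Lib.MP_d19698_pr.C1b

/-! # C1c -/

open MeasureTheory ProbabilityTheory Filter Topology Set
open scoped ENNReal NNReal

namespace MP_d19698_pr
namespace Env
variable {d : ℕ} [NeZero d] (E : Env d)

/-- **Edges with the coarse field** (used for the edges near the end points): if `P[X_m > y] ≤ B y^{-β}` for all `y > 0` then for every edge of level `l`
`P[D_{0,l+m}(e; Box (x_e) (ρ 2^{-l})) > x] ≤ C B x^{-β} 2^{(d-β) l}`. (`D_{0,l+m} ≤ e^U Y_e`, `tail_product`, `sup_moment`.) -/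
theorem coarse_edge {ρ : ℝ} (hρ : 1 < ρ) : ∃ C : ℝ, 0 < C ∧ ∀ (l m : ℕ) (B : ℝ), 0 ≤ B → (∀ y : ℝ, 0 < y → E.Gt ρ m y ≤ B * y ^ (-E.be)) →
    ∀ (e : Rd d) (i : Fin d) (x : ℝ), 0 < x →
      E.P.real {ω | ENNReal.ofReal x < E.Edg 0 (l + m) l ω e i ρ} ≤ C * B * x ^ (-E.be) * (2 : ℝ) ^ (((d : ℝ) - E.be) * l) := by
  have hρ0 : 0 < ρ := by linarith
  have hbe := E.be_pos
  obtain ⟨Cs, hCs, hsup⟩ := E.sup_moment hρ0
  refine ⟨Cs E.be, hCs _, ?_⟩
  intro l m B hB hG e i x hx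
  have hdy := dy_pos l
  obtain ⟨U, hUm, hU, hUmom⟩ := hsup l e
  set K : Set (Rd d) := CBox e (ρ * dy l) with hK
  have hYm : Measurable[E.FF l (l + m) K] (fun ω => E.Edg l (l + m) l ω e i ρ) :=
    E.measurable_Edg l (l + m) l e i ρ subset_rfl
  have htail : ∀ y : ℝ, 0 < y → E.P.real {ω | ENNReal.ofReal y < E.Edg l (l + m) l ω e i ρ} ≤
      (B * (dy l) ^ E.be) * y ^ (-E.be) := by
    intro y hy
    have h1 := E.edge_law_Gt l m e i ρ (y / dy l)
    rw [mul_div_cancel₀ _ hdy.ne'] at h1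
    rw [h1]
    refine (hG _ (by positivity)).trans (le_of_eq ?_)
    rw [Real.div_rpow hy.le hdy.le, Real.rpow_neg hdy.le, div_inv_eq_mul]
    ring
  have hmom := hUmom E.be hbe.le
  have h := E.tail_product l (l + m) K hYm hUm (B := B * (dy l) ^ E.be) (b := E.be)
    (C := Cs E.be * (2 : ℝ) ^ ((E.ξ * E.be) ^ 2 * l / 2)) (by positivity) hbe
    (by have := hCs E.be; positivity) htail hmom hx
  have hsub : {ω | ENNReal.ofReal x < E.Edg 0 (l + m) l ω e i ρ} ⊆
      {ω | ENNReal.ofReal x < ENNReal.ofReal (Real.exp (U ω)) * E.Edg l (l + m) l ω e i ρ} := by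
    intro ω hω
    have h0 : ENNReal.ofReal x < E.Edg 0 (l + m) l ω e i ρ := hω
    show ENNReal.ofReal x < _
    refine lt_of_lt_of_le h0 ?_
    unfold Env.Edg
    apply D_le_exp
    intro y hy
    rw [E.hf_add (Nat.zero_le l) (Nat.le_add_right l m)]
    have h1 := hU ω y (fun i => (hy i).le)
    linarith
  refine (measureReal_mono hsub).trans (h.trans (le_of_eq ?_))
  have e1 : (E.ξ * E.be) ^ 2 * l / 2 = (d : ℝ) * l := by
    have := E.xi_be_sq
    linear_combination (l : ℝ) * this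
  have e2 : (dy l) ^ E.be = (2 : ℝ) ^ (-(E.be * l)) := by
    rw [dy_eq_rpow, ← Real.rpow_mul (by norm_num)]
    congr 1
    ring
  have e3 : (2 : ℝ) ^ (((d : ℝ) - E.be) * l) = (2 : ℝ) ^ (-(E.be * l)) * (2 : ℝ) ^ ((d : ℝ) * l) := by
    rw [← Real.rpow_add (by norm_num)]
    congr 1
    ring
  rw [e1, e2, e3]
  ring

/-- the start points of the lines -/
private noncomputable def C1c_st (hd : 1 < d) (l D j : ℕ) : Rd d := (((j * D : ℕ) : ℝ) * dy l) • ee (⟨1, hd⟩ : Fin d)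

omit [NeZero d] in
private theorem C1c_ee_same (i : Fin d) : (ee i : Rd d) i = 1 := by
  simp [ee]

omit [NeZero d] in
private theorem C1c_ee_ne {i j : Fin d} (h : j ≠ i) : (ee i : Rd d) j = 0 := by
  simp [ee, h]

omit [NeZero d] in
private theorem C1c_ee_abs (i j : Fin d) : |(ee i : Rd d) j| ≤ 1 := by
  by_cases h : j = i
  · rw [h, C1c_ee_same, abs_one]
  · rw [C1c_ee_ne h, abs_zero]
    exact zero_le_one

/-- boxes around points `a e_1 + b e_2` -/
private theorem C1c_box_sub (hd : 1 < d) {a b r : ℝ} (ha : 0 ≤ a) (ha1 : a ≤ 1) (hb : 0 ≤ b) (hb1 : b + r ≤ 1 / 8) :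
    Box (a • ee (0 : Fin d) + b • ee (⟨1, hd⟩ : Fin d)) r ⊆ Box (0 : Rd d) (5 / 4) := by
  intro y hy i
  have h1 := hy i
  rw [PiLp.add_apply, PiLp.smul_apply, PiLp.smul_apply, smul_eq_mul, smul_eq_mul] at h1
  rw [PiLp.zero_apply, sub_zero]
  have h3 : |a * (ee (0 : Fin d) : Rd d) i + b * (ee (⟨1, hd⟩ : Fin d) : Rd d) i| ≤ 1 + (1 / 8 - r) := by
    refine (abs_add_le _ _).trans ?_
    rw [abs_mul, abs_mul, abs_of_nonneg ha, abs_of_nonneg hb]
    have h4 := C1c_ee_abs (0 : Fin d) i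
    have h5 := C1c_ee_abs (⟨1, hd⟩ : Fin d) i
    have h6 : a * |(ee (0 : Fin d) : Rd d) i| ≤ 1 := by
      calc a * |(ee (0 : Fin d) : Rd d) i| ≤ 1 * 1 := by gcongr
        _ = 1 := one_mul 1
    have h7 : b * |(ee (⟨1, hd⟩ : Fin d) : Rd d) i| ≤ b * 1 := by gcongr
    linarith
  have h8 := abs_sub_abs_le_abs_sub (y i) (a * (ee (0 : Fin d) : Rd d) i + b * (ee (⟨1, hd⟩ : Fin d) : Rd d) i)
  linarith

/-- **One step.** With `β' = β + 1`, `W = (ξβ')²/2`, `Δ = ⌈2 r_0⌉ + 5`: there is `C` and for every `M ≥ 1` there are `CM`, `lM` such that for `l ≥ lM`, all `m`, `B`: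
`G'_{l+m}(x) ≤ (2^l G_m(t))^M + M C (2t/x)^{β'} 2^{W l} + CM B x^{-β} 2^{(d-β) l}`.
Proof: section 3 of the notes. The `M` lines start at `j Δ 2^{-l} e_2`, `j < M` (`e_2 = ee ⟨1, E.hd⟩`); bad events of different lines are independent by `iIndep_FF` (the slabs
`|y_2 - jΔ 2^{-l}| ≤ 2·2^{-l}` are at distance `≥ (Δ-4) 2^{-l} ≥ 2 r_0 2^{-l}`). If line `j` is good, all line averages are `≤ x/(2t)` and all `2MΔ` end edges cost `≤ x/(4MΔ)`, then
`X'_{l+m} ≤ x` (triangle inequality; all domains are in `Box 0 (5/4)` as soon as `(2 + MΔ) 2^{-l} ≤ 1/8`). -/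
theorem one_step : ∃ C : ℝ, 0 < C ∧ ∀ M : ℕ, 1 ≤ M → ∃ (CM : ℝ) (lM : ℕ), 0 < CM ∧ ∀ l : ℕ, lM ≤ l → ∀ (m : ℕ) (B : ℝ), 0 ≤ B →
    (∀ y : ℝ, 0 < y → E.Gt 2 m y ≤ B * y ^ (-E.be)) → ∀ x t : ℝ, 0 < x → 0 < t →
      E.Gt (5 / 4) (l + m) x ≤ (2 ^ l * E.Gt 2 m t) ^ M + M * C * (2 * t / x) ^ (E.be + 1) * (2 : ℝ) ^ ((E.ξ * (E.be + 1)) ^ 2 / 2 * l) +
        CM * B * x ^ (-E.be) * (2 : ℝ) ^ (((d : ℝ) - E.be) * l) := by
  have hbe := E.be_pos
  have hd : 1 < d := E.hd
  obtain ⟨Cs, hCs, hsup⟩ := E.sup_moment (R := 2) (by norm_num)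
  obtain ⟨Ce, hCe, hedge⟩ := E.coarse_edge (ρ := 2) (by norm_num)
  refine ⟨Cs (E.be + 1), hCs _, ?_⟩
  intro M hM
  set Δ : ℕ := ⌈2 * E.r0⌉₊ + 5 with hΔ
  have hΔ5 : (5 : ℝ) ≤ Δ := by
    rw [hΔ]
    push_cast
    have : (0 : ℝ) ≤ ⌈2 * E.r0⌉₊ := by positivity
    linarith
  have hΔr : 2 * E.r0 + 5 ≤ Δ := by
    rw [hΔ]
    push_cast
    have := Nat.le_ceil (2 * E.r0)
    linarith
  have hMpos : (0 : ℝ) < M := by
    have : 0 < M := hM
    exact_mod_cast this
  have hM1 : (1 : ℝ) ≤ M := by exact_mod_cast hM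
  -- the threshold level
  obtain ⟨lM, hlM⟩ : ∃ lM : ℕ, dy lM ≤ 1 / (8 * (2 + M * Δ)) := by
    obtain ⟨n, hn⟩ := exists_pow_lt_of_lt_one (show (0 : ℝ) < 1 / (8 * (2 + M * Δ)) by positivity)
      (show (1 / 2 : ℝ) < 1 by norm_num)
    exact ⟨n, hn.le⟩
  set NE : ℕ := 2 * M * Δ with hNE
  have hNEpos : (0 : ℝ) < NE := by
    rw [hNE]
    push_cast
    positivity
  refine ⟨NE * (2 * NE) ^ E.be * Ce, lM, by positivity, ?_⟩
  intro l hl m B hB hG x t hx ht
  have hdy := dy_pos l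
  have hdyl : (2 + M * Δ) * dy l ≤ 1 / 8 := by
    have h1 : dy l ≤ 1 / (8 * (2 + M * Δ)) := (dy_anti hl).trans hlM
    rw [le_div_iff₀ (by positivity)] at h1
    linarith
  set e2 : Rd d := ee (⟨1, hd⟩ : Fin d) with he2
  set st : ℕ → Rd d := C1c_st hd l Δ with hst
  -- the coarse variables
  choose U hUm hU hUmom using fun x : Rd d => hsup l x
  set xk : ℕ → ℕ → Rd d := fun j k => st j + ((k : ℝ) * dy l) • ee 0 with hxk
  -- events
  set bad : Fin M → Set E.Ω := fun j => E.badLine l m (st j) t with hbad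
  set av : Fin M → Set E.Ω := fun j => {ω | x / (2 * t) < dy l * ∑ k : Fin (2 ^ l), Real.exp (U (xk j k) ω)} with hav
  -- end edges: `(side, i)`, `i < MΔ`
  set pe : Bool → ℕ → Rd d := fun s i => (if s then ee 0 else 0) + ((i : ℝ) * dy l) • e2 with hpe
  set ed : Bool × Fin (M * Δ) → Set E.Ω := fun q => {ω | ENNReal.ofReal (x / (2 * NE)) < E.Edg 0 (l + m) l ω (pe q.1 q.2) ⟨1, hd⟩ 2} with hed
  -- inclusion of events
  have hincl : {ω | ENNReal.ofReal x < E.Edg 0 (l + m) 0 ω 0 0 (5 / 4)} ⊆ (⋂ j, bad j) ∪ ((⋃ j, av j) ∪ ⋃ q, ed q) := by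
    intro ω hω
    by_contra hcon
    simp only [Set.mem_union, Set.mem_iInter, Set.mem_iUnion, not_or, not_forall, not_exists] at hcon
    obtain ⟨⟨j, hj⟩, hav', hed'⟩ := hcon
    have hav'' := hav' j
    simp only [hav, Set.mem_ofPred_eq, not_lt] at hav''
    have hed'' : ∀ s i, i < M * Δ → E.Edg 0 (l + m) l ω (pe s i) ⟨1, hd⟩ 2 ≤ ENNReal.ofReal (x / (2 * NE)) := by
      intro s i hi
      have := hed' (s, ⟨i, hi⟩)
      simp only [hed, Set.mem_ofPred_eq, not_lt] at this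
      exact this
    apply absurd hω
    rw [Set.mem_ofPred_eq, not_lt]
    -- the chains at the two ends
    have hjM : (j : ℕ) < M := j.2
    have hjΔ : (j : ℕ) * Δ ≤ M * Δ := Nat.mul_le_mul_right _ hjM.le
    have hjΔr : ((j : ℕ) : ℝ) * Δ ≤ (M : ℝ) * Δ := by
      have : ((j : ℕ) : ℝ) ≤ M := by exact_mod_cast hjM.le
      gcongr
    set V : Set (Rd d) := Box (0 : Rd d) (5 / 4) with hV
    have hboxV : ∀ (a : ℝ) (i : ℝ), 0 ≤ a → a ≤ 1 → 0 ≤ i → i ≤ (M : ℝ) * Δ →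
        Box (a • ee (0 : Fin d) + (i * dy l) • e2) (2 * dy l) ⊆ V := by
      intro a i ha ha1 hi hi1
      refine C1c_box_sub hd ha ha1 (by positivity) ?_
      have : i * dy l ≤ M * Δ * dy l := by gcongr
      linarith
    have hpe' : ∀ s i, pe s i = (if s then (1 : ℝ) else 0) • ee (0 : Fin d) + ((i : ℝ) * dy l) • e2 := by
      intro s i
      simp only [hpe]
      cases s
      · simp
      · simp
    have hpeV : ∀ s (i : ℕ), i ≤ M * Δ → Box (pe s i) (2 * dy l) ⊆ V := by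
      intro s i hi
      rw [hpe']
      refine hboxV _ _ ?_ ?_ (by positivity) (by exact_mod_cast hi)
      · cases s <;> simp
      · cases s <;> simp
    have hcenter : ∀ (p : Rd d), p ∈ Box p (2 * dy l) := by
      intro p i
      rw [sub_self, abs_zero]
      positivity
    have hend : ∀ s, D (E.hf 0 (l + m) ω) {pe s 0} {pe s ((j : ℕ) * Δ)} V ≤ ENNReal.ofReal (x / 4) := by
      intro s
      have h0 : pe s 0 ∈ V := hpeV s 0 (Nat.zero_le _) (hcenter _)
      refine (D_chain (E.hf 0 (l + m) ω) V (pe s) ((j : ℕ) * Δ) h0).trans ?_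
      have hterm : ∀ i ∈ Finset.range ((j : ℕ) * Δ), D (E.hf 0 (l + m) ω) {pe s i} {pe s (i + 1)} V ≤
          ENNReal.ofReal (x / (2 * NE)) := by
        intro i hi
        have hi' : i < M * Δ := lt_of_lt_of_le (Finset.mem_range.1 hi) hjΔ
        refine le_trans ?_ (hed'' s i hi')
        unfold Env.Edg
        have hstep : pe s (i + 1) = pe s i + dy l • ee (⟨1, hd⟩ : Fin d) := by
          simp only [hpe]
          push_cast
          rw [add_mul, one_mul, add_smul, add_assoc]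
        rw [hstep]
        exact D_mono _ subset_rfl subset_rfl (hpeV s i hi'.le)
      refine (Finset.sum_le_sum hterm).trans ?_
      rw [Finset.sum_const, Finset.card_range, nsmul_eq_mul, ← ENNReal.ofReal_natCast,
        ← ENNReal.ofReal_mul (by positivity)]
      apply ENNReal.ofReal_le_ofReal
      have hNE' : (NE : ℝ) = 2 * M * Δ := by
        rw [hNE]
        push_cast
        ring
      rw [hNE']
      have hpos : (0 : ℝ) < 2 * (2 * M * Δ) := by positivity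
      rw [mul_div_assoc', div_le_div_iff₀ hpos (by norm_num)]
      push_cast
      nlinarith
    -- the line
    have hline : D (E.hf 0 (l + m) ω) {st j} {st j + ee 0} V ≤ ENNReal.ofReal (x / 2) := by
      have h1 := E.line_cost l m (st j) ht.le ω hj (fun k => U (xk j k) ω) (fun k y hy => hU _ ω y hy) (V := V) (by
        intro k
        have e1 : st j + (((k : ℕ) : ℝ) * dy l) • ee (0 : Fin d) =
            (((k : ℕ) : ℝ) * dy l) • ee (0 : Fin d) + ((((j : ℕ) : ℝ) * Δ) * dy l) • e2 := by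
          rw [add_comm]
          simp only [hst, C1c_st]
          push_cast
          rfl
        rw [e1]
        refine hboxV _ _ (by positivity) ?_ (by positivity) hjΔr
        have h2 : (((k : ℕ) : ℝ)) ≤ 2 ^ l := by
          have := k.2.le
          exact_mod_cast this
        calc ((k : ℕ) : ℝ) * dy l ≤ 2 ^ l * dy l := by gcongr
          _ = 1 := two_pow_mul_dy l)
      refine h1.trans (ENNReal.ofReal_le_ofReal ?_)
      calc t * (dy l * ∑ k : Fin (2 ^ l), Real.exp (U (xk j k) ω)) ≤ t * (x / (2 * t)) := by gcongr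
        _ = x / 2 := by field_simp
    -- combine
    have hp0 : pe false 0 = 0 := by simp [hpe]
    have hp0' : pe true 0 = ee 0 := by simp [hpe]
    have hpj : pe false ((j : ℕ) * Δ) = st j := by
      simp only [hpe, hst, C1c_st]
      push_cast
      simp [he2]
    have hpj' : pe true ((j : ℕ) * Δ) = st j + ee 0 := by
      simp only [hpe, hst, C1c_st]
      push_cast
      rw [add_comm]
    have a1 := hend false
    have a2 := hend true
    rw [hp0, hpj] at a1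
    rw [hp0', hpj', D_symm] at a2
    have b1 := D_tri (E.hf 0 (l + m) ω) {(0 : Rd d)} {ee 0} (st j) V
    have b2 := D_tri (E.hf 0 (l + m) ω) {st j} {ee 0} (st j + ee 0) V
    have e3 : E.Edg 0 (l + m) 0 ω 0 0 (5 / 4) = D (E.hf 0 (l + m) ω) {(0 : Rd d)} {ee 0} V := by
      unfold Env.Edg
      rw [dy_zero, one_smul, zero_add, mul_one]
    rw [e3]
    calc D (E.hf 0 (l + m) ω) {(0 : Rd d)} {ee 0} V
        ≤ D (E.hf 0 (l + m) ω) {(0 : Rd d)} {st j} V + (D (E.hf 0 (l + m) ω) {st j} {st j + ee 0} V +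
            D (E.hf 0 (l + m) ω) {st j + ee 0} {ee 0} V) := b1.trans (by gcongr)
      _ ≤ ENNReal.ofReal (x / 4) + (ENNReal.ofReal (x / 2) + ENNReal.ofReal (x / 4)) := by gcongr
      _ = ENNReal.ofReal x := by
          rw [← ENNReal.ofReal_add (by positivity) (by positivity), ← ENNReal.ofReal_add (by positivity) (by positivity)]
          congr 1
          ring
  -- probabilities
  have hPbad : E.P.real (⋂ j, bad j) ≤ (2 ^ l * E.Gt 2 m t) ^ M := by
    set K : Fin M → Set (Rd d) := fun j => {y | |y ⟨1, hd⟩ - st j ⟨1, hd⟩| ≤ 2 * dy l} with hK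
    have h10 : (⟨1, hd⟩ : Fin d) ≠ 0 := by
      intro h
      have := congrArg Fin.val h
      simp at this
    have hmeas : ∀ j, MeasurableSet[E.FF l (l + m) (K j)] (bad j) := by
      intro j
      apply E.measurableSet_badLine
      intro y hy
      exact hy _ h10
    have hst1 : ∀ j : ℕ, st j ⟨1, hd⟩ = (j : ℝ) * Δ * dy l := by
      intro j
      simp only [hst, C1c_st]
      rw [PiLp.smul_apply, C1c_ee_same, smul_eq_mul, mul_one]
      push_cast
      rfl
    have hindep := E.iIndep_FF (fun _ : Fin M => l) (l + m) K (by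
      intro a b hab y hy z hz
      rw [max_self]
      have h1 : |y ⟨1, hd⟩ - z ⟨1, hd⟩| ≤ ‖y - z‖ := by
        have := PiLp.norm_apply_le (y - z) (⟨1, hd⟩ : Fin d)
        rwa [PiLp.sub_apply, Real.norm_eq_abs] at this
      refine le_trans ?_ h1
      have h2 : |y ⟨1, hd⟩ - st a ⟨1, hd⟩| ≤ 2 * dy l := hy
      have h3 : |z ⟨1, hd⟩ - st b ⟨1, hd⟩| ≤ 2 * dy l := hz
      rw [hst1] at h2 h3
      have h4 : (1 : ℝ) ≤ |((a : ℕ) : ℝ) - ((b : ℕ) : ℝ)| := by
        have h5 : ((a : ℕ) : ℤ) - ((b : ℕ) : ℤ) ≠ 0 := by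
          intro h6
          apply hab
          apply Fin.ext
          omega
        have h7 := Int.one_le_abs h5
        exact_mod_cast h7
      have h8 : (1 : ℝ) * (Δ * dy l) ≤ |((a : ℕ) : ℝ) * Δ * dy l - ((b : ℕ) : ℝ) * Δ * dy l| := by
        rw [show ((a : ℕ) : ℝ) * Δ * dy l - ((b : ℕ) : ℝ) * Δ * dy l = (((a : ℕ) : ℝ) - ((b : ℕ) : ℝ)) * (Δ * dy l) by ring,
          abs_mul, abs_of_pos (show (0 : ℝ) < Δ * dy l by positivity)]
        gcongr
      have h9 : |((a : ℕ) : ℝ) * Δ * dy l - ((b : ℕ) : ℝ) * Δ * dy l| ≤ |y ⟨1, hd⟩ - z ⟨1, hd⟩| + 2 * dy l + 2 * dy l := by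
        have : ((a : ℕ) : ℝ) * Δ * dy l - ((b : ℕ) : ℝ) * Δ * dy l = (y ⟨1, hd⟩ - z ⟨1, hd⟩) -
            (y ⟨1, hd⟩ - ((a : ℕ) : ℝ) * Δ * dy l) + (z ⟨1, hd⟩ - ((b : ℕ) : ℝ) * Δ * dy l) := by ring
        rw [this]
        refine (abs_add_le _ _).trans ?_
        have := abs_sub (y ⟨1, hd⟩ - z ⟨1, hd⟩) (y ⟨1, hd⟩ - ((a : ℕ) : ℝ) * Δ * dy l)
        linarith
      nlinarith)
    have hprod := hindep.meas_iInter (s := bad) hmeas
    rw [measureReal_def, hprod, ENNReal.toReal_prod]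
    calc ∏ j, (E.P (bad j)).toReal ≤ ∏ _j : Fin M, (2 ^ l * E.Gt 2 m t) := by
          refine Finset.prod_le_prod (fun j _ => ENNReal.toReal_nonneg) (fun j _ => ?_)
          exact E.badLine_prob l m (st j) t
      _ = (2 ^ l * E.Gt 2 m t) ^ M := by
          rw [Finset.prod_const, Finset.card_univ, Fintype.card_fin]
  have hPav : E.P.real (⋃ j, av j) ≤ M * Cs (E.be + 1) * (2 * t / x) ^ (E.be + 1) * (2 : ℝ) ^ ((E.ξ * (E.be + 1)) ^ 2 / 2 * l) := by
    refine (measureReal_iUnion_fintype_le _).trans ?_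
    have h1 : ∀ j : Fin M, E.P.real (av j) ≤ Cs (E.be + 1) * (2 * t / x) ^ (E.be + 1) * (2 : ℝ) ^ ((E.ξ * (E.be + 1)) ^ 2 / 2 * l) := by
      intro j
      have h2 := E.line_moment (t := E.be + 1) (by linarith) (C := Cs (E.be + 1) * (2 : ℝ) ^ ((E.ξ * (E.be + 1)) ^ 2 * l / 2))
        (by have := hCs (E.be + 1); positivity) l (fun k => U (xk j k))
        (fun k => (hUm _).mono (E.LL_le l) le_rfl) (fun k => hUmom _ (E.be + 1) (by linarith)) (x := x / (2 * t)) (by positivity)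
      refine h2.trans (le_of_eq ?_)
      have e1 : (E.ξ * (E.be + 1)) ^ 2 * l / 2 = (E.ξ * (E.be + 1)) ^ 2 / 2 * l := by ring
      have e2 : (x / (2 * t)) ^ (-(E.be + 1)) = (2 * t / x) ^ (E.be + 1) := by
        rw [Real.rpow_neg (by positivity), ← Real.inv_rpow (by positivity), inv_div]
      rw [e1, e2]
      ring
    refine (Finset.sum_le_sum fun j _ => h1 j).trans (le_of_eq ?_)
    rw [Finset.sum_const, Finset.card_univ, Fintype.card_fin, nsmul_eq_mul]
    ring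
  have hPed : E.P.real (⋃ q, ed q) ≤ NE * (2 * NE) ^ E.be * Ce * B * x ^ (-E.be) * (2 : ℝ) ^ (((d : ℝ) - E.be) * l) := by
    refine (measureReal_iUnion_fintype_le _).trans ?_
    have h1 : ∀ q, E.P.real (ed q) ≤ Ce * B * (x / (2 * NE)) ^ (-E.be) * (2 : ℝ) ^ (((d : ℝ) - E.be) * l) := by
      intro q
      exact hedge l m B hB hG _ _ _ (by positivity)
    refine (Finset.sum_le_sum fun q _ => h1 q).trans (le_of_eq ?_)
    rw [Finset.sum_const, Finset.card_univ, Fintype.card_prod, Fintype.card_bool, Fintype.card_fin, nsmul_eq_mul]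
    have e1 : (x / (2 * NE)) ^ (-E.be) = (2 * (NE : ℝ)) ^ E.be * x ^ (-E.be) := by
      rw [Real.div_rpow hx.le (by positivity), Real.rpow_neg (show (0 : ℝ) ≤ 2 * NE by positivity), div_inv_eq_mul]
      ring
    have e2 : ((2 * (M * Δ) : ℕ) : ℝ) = NE := by
      rw [hNE]
      push_cast
      ring
    rw [e1, e2]
    ring
  calc E.Gt (5 / 4) (l + m) x = E.P.real {ω | ENNReal.ofReal x < E.Edg 0 (l + m) 0 ω 0 0 (5 / 4)} := rfl
    _ ≤ E.P.real ((⋂ j, bad j) ∪ ((⋃ j, av j) ∪ ⋃ q, ed q)) := measureReal_mono hincl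
    _ ≤ E.P.real (⋂ j, bad j) + (E.P.real (⋃ j, av j) + E.P.real (⋃ q, ed q)) :=
        (measureReal_union_le _ _).trans (by gcongr; exact measureReal_union_le _ _)
    _ ≤ _ := by
        rw [← add_assoc]
        gcongr

end Env

end MP_d19698_pr
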