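import Pool.Agent.Lib.MP_d19698_pr.C1c

/-!
# C2: quantiles, the tail estimate (T): existence of `Par`
-/

open MeasureTheory ProbabilityTheory Filter Topology Set
open scoped ENNReal NNReal

namespace MP_d19698_pr

namespace Env

variable {d : ℕ} [NeZero d] (E : Env d)

theorem Gt_tendsto {ρ : ℝ} (hρ : 1 < ρ) (m : ℕ) : Tendsto (fun x : ℝ => E.Gt ρ m x) atTop (𝓝 0) := by
  have h1 : Tendsto (fun x : ℝ => x ^ (-(1 : ℝ)) * (2 : ℝ) ^ ((E.ξ * 1) ^ 2 * m / 2)) atTop (𝓝 0) := by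
    have h2 := (tendsto_rpow_neg_atTop (zero_lt_one' ℝ)).mul_const ((2 : ℝ) ^ ((E.ξ * 1) ^ 2 * m / 2))
    simpa using h2
  refine squeeze_zero' (Eventually.of_forall fun x => measureReal_nonneg) ?_ h1
  filter_upwards [eventually_gt_atTop (0 : ℝ)] with x hx
  exact E.straight hρ le_rfl m hx

private theorem C2a_nonempty {p : ℝ} (hp : 0 < p) (m : ℕ) : {t : ℝ | 0 ≤ t ∧ E.Gt 2 m t ≤ p}.Nonempty := by
  have h1 := (E.Gt_tendsto (ρ := 2) (by norm_num) m).eventually (gt_mem_nhds hp)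
  obtain ⟨t, ht1, ht2⟩ := (h1.and (eventually_ge_atTop (0 : ℝ))).exists
  exact ⟨t, ht2, le_of_lt ht1⟩

private theorem C2a_bdd (p : ℝ) (m : ℕ) : BddBelow {t : ℝ | 0 ≤ t ∧ E.Gt 2 m t ≤ p} :=
  ⟨0, fun _ ht => ht.1⟩

/-- `λ*_m > 0` for `p < 1`: for small `t > 0`, `P[X_m > t]` is close to `1`. -/
theorem lamQ_pos {p : ℝ} (hp : 0 < p) (hp1 : p < 1) (m : ℕ) : 0 < E.lamQ p m := by
  have hanti : ∀ i j : ℕ, i ≤ j → (1 : ℝ) / ((j : ℝ) + 1) ≤ 1 / ((i : ℝ) + 1) := by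
    intro i j hij
    have h1 : (i : ℝ) ≤ j := by exact_mod_cast hij
    have h0 : (0 : ℝ) ≤ i := Nat.cast_nonneg i
    apply one_div_le_one_div_of_le <;> linarith
  have hmono : Monotone (fun n : ℕ => {ω : E.Ω | ENNReal.ofReal (1 / ((n : ℝ) + 1)) < E.Edg 0 m 0 ω 0 0 2}) := by
    intro i j hij ω hω
    exact lt_of_le_of_lt (ENNReal.ofReal_le_ofReal (hanti i j hij)) hω
  have hunion : (⋃ n : ℕ, {ω : E.Ω | ENNReal.ofReal (1 / ((n : ℝ) + 1)) < E.Edg 0 m 0 ω 0 0 2}) = univ := by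
    rw [eq_univ_iff_forall]
    intro ω
    rw [mem_iUnion]
    obtain ⟨hpos, hfin⟩ := E.Edg_pos_lt_top 0 m 0 ω 0 0 (ρ := 2) (by norm_num)
    have hpos' : 0 < (E.Edg 0 m 0 ω 0 0 2).toReal := ENNReal.toReal_pos hpos.ne' hfin.ne
    obtain ⟨n, hn⟩ := exists_nat_one_div_lt hpos'
    refine ⟨n, ?_⟩
    show ENNReal.ofReal (1 / ((n : ℝ) + 1)) < E.Edg 0 m 0 ω 0 0 2
    rw [← ENNReal.ofReal_toReal hfin.ne]
    exact (ENNReal.ofReal_lt_ofReal_iff hpos').2 hn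
  have htend := tendsto_measure_iUnion_atTop (μ := E.P) hmono
  rw [hunion, measure_univ] at htend
  have htend2 : Tendsto (fun n : ℕ => E.Gt 2 m (1 / ((n : ℝ) + 1))) atTop (𝓝 1) := by
    have h3 := (ENNReal.tendsto_toReal ENNReal.one_ne_top).comp htend
    simpa [Env.Gt, Measure.real, Function.comp_def] using h3
  obtain ⟨n, hn⟩ := (htend2.eventually (lt_mem_nhds hp1)).exists
  have hn0 : (0 : ℝ) < 1 / ((n : ℝ) + 1) := by positivity
  refine lt_of_lt_of_le hn0 ?_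
  refine le_csInf (E.C2a_nonempty hp m) ?_
  intro t ht
  by_contra hcon
  have h4 := E.Gt_mono (ρ := 2) m (le_of_lt (not_le.1 hcon))
  linarith [ht.2]

/-- `P[X_m > λ*_m] ≤ p` (right continuity of the tail function). -/
theorem Gt_lamQ {p : ℝ} (hp : 0 < p) (hp1 : p < 1) (m : ℕ) : E.Gt 2 m (E.lamQ p m) ≤ p := by
  have hl := E.lamQ_pos hp hp1 m
  have hanti : ∀ i j : ℕ, i ≤ j → (1 : ℝ) / ((j : ℝ) + 1) ≤ 1 / ((i : ℝ) + 1) := by
    intro i j hij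
    have h1 : (i : ℝ) ≤ j := by exact_mod_cast hij
    have h0 : (0 : ℝ) ≤ i := Nat.cast_nonneg i
    apply one_div_le_one_div_of_le <;> linarith
  have hmono : Monotone (fun n : ℕ => {ω : E.Ω | ENNReal.ofReal (E.lamQ p m + 1 / ((n : ℝ) + 1)) < E.Edg 0 m 0 ω 0 0 2}) := by
    intro i j hij ω hω
    exact lt_of_le_of_lt (ENNReal.ofReal_le_ofReal (by linarith [hanti i j hij])) hω
  have hunion : (⋃ n : ℕ, {ω : E.Ω | ENNReal.ofReal (E.lamQ p m + 1 / ((n : ℝ) + 1)) < E.Edg 0 m 0 ω 0 0 2}) =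
      {ω : E.Ω | ENNReal.ofReal (E.lamQ p m) < E.Edg 0 m 0 ω 0 0 2} := by
    ext ω
    rw [mem_iUnion]
    obtain ⟨hpos, hfin⟩ := E.Edg_pos_lt_top 0 m 0 ω 0 0 (ρ := 2) (by norm_num)
    have hpos' : 0 < (E.Edg 0 m 0 ω 0 0 2).toReal := ENNReal.toReal_pos hpos.ne' hfin.ne
    constructor
    · rintro ⟨n, hn⟩
      have hn0 : (0 : ℝ) < 1 / ((n : ℝ) + 1) := by positivity
      exact lt_of_le_of_lt (ENNReal.ofReal_le_ofReal (by linarith)) hn
    · intro h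
      have h' : ENNReal.ofReal (E.lamQ p m) < E.Edg 0 m 0 ω 0 0 2 := h
      rw [← ENNReal.ofReal_toReal hfin.ne, ENNReal.ofReal_lt_ofReal_iff hpos'] at h'
      obtain ⟨n, hn⟩ := exists_nat_one_div_lt (sub_pos.2 h')
      refine ⟨n, ?_⟩
      show ENNReal.ofReal (E.lamQ p m + 1 / ((n : ℝ) + 1)) < E.Edg 0 m 0 ω 0 0 2
      rw [← ENNReal.ofReal_toReal hfin.ne]
      exact (ENNReal.ofReal_lt_ofReal_iff hpos').2 (by linarith)
  have htend := tendsto_measure_iUnion_atTop (μ := E.P) hmono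
  rw [hunion] at htend
  have htend2 : Tendsto (fun n : ℕ => E.Gt 2 m (E.lamQ p m + 1 / ((n : ℝ) + 1))) atTop (𝓝 (E.Gt 2 m (E.lamQ p m))) := by
    have h3 := (ENNReal.tendsto_toReal (measure_ne_top E.P _)).comp htend
    simpa [Env.Gt, Measure.real, Function.comp_def] using h3
  refine le_of_tendsto htend2 (Eventually.of_forall fun n => ?_)
  have hn0 : (0 : ℝ) < 1 / ((n : ℝ) + 1) := by positivity
  have hlt : E.lamQ p m < E.lamQ p m + 1 / ((n : ℝ) + 1) := by linarith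
  obtain ⟨t, ht, htlt⟩ := exists_lt_of_csInf_lt (E.C2a_nonempty hp m) hlt
  exact (E.Gt_mono (ρ := 2) m htlt.le).trans ht.2

/-- `P[X_m > t] ≤ p`, `0 ≤ t` implies `λ*_m ≤ t`. -/
theorem lamQ_le {p t : ℝ} (m : ℕ) (ht : 0 ≤ t) (h : E.Gt 2 m t ≤ p) : E.lamQ p m ≤ t :=
  csInf_le (E.C2a_bdd p m) ⟨ht, h⟩

private theorem C2a_edg_zero (ω : E.Ω) : E.Edg 0 0 0 ω 0 0 2 = 1 := by
  have hf0 : E.hf 0 0 ω = fun _ => 0 := by
    funext x
    simp [Env.hf, Env.hh]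
  have hpt : (0 : Rd d) + dy 0 • ee 0 = ee 0 := by
    simp [dy]
  have hbox : (2 : ℝ) * dy 0 = 2 := by simp [dy]
  unfold Env.Edg
  rw [hf0, hpt, hbox]
  have hnorm : ‖(0 : Rd d) - ee 0‖ = 1 := by
    rw [zero_sub, norm_neg]
    unfold ee
    simp
  have h0 : (0 : Rd d) ∈ Box (0 : Rd d) 2 := by
    intro i
    simp
  have h1 : ee 0 ∈ Box (0 : Rd d) 2 := by
    intro i
    have h2 := abs_le_norm (ee (0 : Fin d)) i
    have h3 : ‖ee (0 : Fin d)‖ = 1 := by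
      rw [zero_sub, norm_neg] at hnorm
      exact hnorm
    have h4 : (ee (0 : Fin d)) i - (0 : Rd d) i = (ee (0 : Fin d)) i := by simp
    rw [h4]
    linarith
  apply le_antisymm
  · have h2 := D_seg (fun _ : Rd d => (0 : ℝ)) (x := 0) (y := ee 0) (U := Box (0 : Rd d) 2) (M := 0)
      ((convex_Box (0 : Rd d) 2).segment_subset h0 h1) (fun _ _ => le_rfl)
    rw [hnorm] at h2
    simpa using h2
  · have h2 := le_D_of_bdd (f := fun _ : Rd d => (0 : ℝ)) (A := {0}) (B := {ee 0}) (U := Box (0 : Rd d) 2) (M := 0)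
      (δ := 1) (fun _ _ => by simp) (by
        rintro a ⟨ha, -⟩ b ⟨hb, -⟩
        rw [mem_singleton_iff] at ha hb
        rw [ha, hb, hnorm])
    simpa using h2

theorem lamQ_zero {p : ℝ} (hp : 0 < p) (hp1 : p < 1) : E.lamQ p 0 = 1 := by
  have hset : {t : ℝ | 0 ≤ t ∧ E.Gt 2 0 t ≤ p} = Ici 1 := by
    ext t
    constructor
    · rintro ⟨ht0, ht⟩
      by_contra hcon
      have hlt : t < 1 := not_le.1 hcon
      have h1 : E.Gt 2 0 t = 1 := by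
        unfold Env.Gt
        have h2 : {ω : E.Ω | ENNReal.ofReal t < E.Edg 0 0 0 ω 0 0 2} = univ := by
          rw [eq_univ_iff_forall]
          intro ω
          show ENNReal.ofReal t < E.Edg 0 0 0 ω 0 0 2
          rw [E.C2a_edg_zero ω, ← ENNReal.ofReal_one]
          exact (ENNReal.ofReal_lt_ofReal_iff one_pos).2 hlt
        rw [h2]
        simp
      linarith
    · intro ht
      have ht1 : (1 : ℝ) ≤ t := ht
      refine ⟨by linarith, ?_⟩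
      have h2 : {ω : E.Ω | ENNReal.ofReal t < E.Edg 0 0 0 ω 0 0 2} = ∅ := by
        rw [eq_empty_iff_forall_notMem]
        intro ω hω
        have h3 : ENNReal.ofReal t < E.Edg 0 0 0 ω 0 0 2 := hω
        rw [E.C2a_edg_zero ω, ← ENNReal.ofReal_one] at h3
        exact absurd ((ENNReal.ofReal_lt_ofReal_iff one_pos).1 h3) (not_lt.2 ht1)
      unfold Env.Gt
      rw [h2]
      simpa using hp.le
  unfold Env.lamQ
  rw [hset, csInf_Ici]

theorem lamQ_le_muQ (κ p : ℝ) (m : ℕ) : E.lamQ p m ≤ E.muQ κ p m := by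
  have h := Finset.le_sup' (s := Finset.range (m + 1))
    (fun l : ℕ => (2 : ℝ) ^ (-(E.al * l)) * Real.exp (-(κ * l)) * E.lamQ p (m - l)) (b := 0) (by simp)
  simpa [Env.muQ] using h

theorem muQ_pos {κ p : ℝ} (hp : 0 < p) (hp1 : p < 1) (m : ℕ) : 0 < E.muQ κ p m :=
  lt_of_lt_of_le (E.lamQ_pos hp hp1 m) (E.lamQ_le_muQ κ p m)

theorem exists_muQ_eq (κ p : ℝ) (m : ℕ) : ∃ l ≤ m, E.muQ κ p m = (2 : ℝ) ^ (-(E.al * l)) * Real.exp (-(κ * l)) * E.lamQ p (m - l) := by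
  obtain ⟨l, hl, h⟩ := Finset.exists_mem_eq_sup' (s := Finset.range (m + 1)) ⟨0, by simp⟩
    (fun l : ℕ => (2 : ℝ) ^ (-(E.al * l)) * Real.exp (-(κ * l)) * E.lamQ p (m - l))
  exact ⟨l, Nat.lt_succ_iff.1 (Finset.mem_range.1 hl), h⟩

theorem muQ_zero {κ p : ℝ} (hp : 0 < p) (hp1 : p < 1) : E.muQ κ p 0 = 1 := by
  obtain ⟨l, hl, h⟩ := E.exists_muQ_eq κ p 0
  have hl0 : l = 0 := Nat.le_zero.1 hl
  rw [h, hl0]
  simp [E.lamQ_zero hp hp1]

/-- `μ_m ≤ 2^{αl} e^{κl} μ_{m+l}`. -/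
theorem muQ_le (κ p : ℝ) (m l : ℕ) : E.muQ κ p m ≤ (2 : ℝ) ^ (E.al * l) * Real.exp (κ * l) * E.muQ κ p (m + l) := by
  obtain ⟨l', hl', h⟩ := E.exists_muQ_eq κ p m
  have h2 : (2 : ℝ) ^ (-(E.al * ((l' + l : ℕ) : ℝ))) * Real.exp (-(κ * ((l' + l : ℕ) : ℝ))) * E.lamQ p (m + l - (l' + l)) ≤
      E.muQ κ p (m + l) := by
    have h3 := Finset.le_sup' (s := Finset.range (m + l + 1))
      (fun k : ℕ => (2 : ℝ) ^ (-(E.al * k)) * Real.exp (-(κ * k)) * E.lamQ p (m + l - k)) (b := l' + l)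
      (Finset.mem_range.2 (by omega))
    exact h3
  have hsub : m + l - (l' + l) = m - l' := by omega
  rw [hsub] at h2
  rw [h]
  have hc : (0 : ℝ) < (2 : ℝ) ^ (E.al * l) * Real.exp (κ * l) := by positivity
  have h4 := mul_le_mul_of_nonneg_left h2 hc.le
  refine le_trans (le_of_eq ?_) h4
  have e1 : (2 : ℝ) ^ (-(E.al * (l' : ℝ))) = (2 : ℝ) ^ (E.al * l) * (2 : ℝ) ^ (-(E.al * ((l' + l : ℕ) : ℝ))) := by
    rw [← Real.rpow_add (by norm_num)]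
    congr 1
    push_cast
    ring
  have e2 : Real.exp (-(κ * (l' : ℝ))) = Real.exp (κ * l) * Real.exp (-(κ * ((l' + l : ℕ) : ℝ))) := by
    rw [← Real.exp_add]
    congr 1
    push_cast
    ring
  rw [e1, e2]
  ring

/-- at a maximiser, `m - l` is good: `μ_{m-l} = λ*_{m-l}`. -/
theorem good_of_max {κ p : ℝ} {m l : ℕ} (hl : l ≤ m)
    (h : E.muQ κ p m = (2 : ℝ) ^ (-(E.al * l)) * Real.exp (-(κ * l)) * E.lamQ p (m - l)) : E.muQ κ p (m - l) = E.lamQ p (m - l) := by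
  refine le_antisymm ?_ (E.lamQ_le_muQ κ p (m - l))
  have h1 := E.muQ_le κ p (m - l) l
  rw [Nat.sub_add_cancel hl, h] at h1
  refine h1.trans (le_of_eq ?_)
  have e1 : (2 : ℝ) ^ (E.al * (l : ℝ)) * (2 : ℝ) ^ (-(E.al * (l : ℝ))) = 1 := by
    rw [← Real.rpow_add (by norm_num), add_neg_cancel, Real.rpow_zero]
  have e2 : Real.exp (κ * l) * Real.exp (-(κ * (l : ℝ))) = 1 := by
    rw [← Real.exp_add, add_neg_cancel, Real.exp_zero]
  calc (2 : ℝ) ^ (E.al * (l : ℝ)) * Real.exp (κ * l) * ((2 : ℝ) ^ (-(E.al * (l : ℝ))) * Real.exp (-(κ * (l : ℝ))) * E.lamQ p (m - l))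
      = ((2 : ℝ) ^ (E.al * (l : ℝ)) * (2 : ℝ) ^ (-(E.al * (l : ℝ)))) * (Real.exp (κ * l) * Real.exp (-(κ * (l : ℝ)))) * E.lamQ p (m - l) := by ring
    _ = E.lamQ p (m - l) := by rw [e1, e2]; ring

end Env
end MP_d19698_pr
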