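import Pool.Agent.Lib.MP_d19698_pr.C2a

/-! # C2b -/

open MeasureTheory ProbabilityTheory Filter Topology Set
open scoped ENNReal NNReal

namespace MP_d19698_pr
namespace Env
variable {d : ℕ} [NeZero d] (E : Env d)

theorem C2b_small (c X : ℝ) (hc : 0 < c) :
    ∃ N : ℕ, ∀ n ≥ N, X * (2 : ℝ) ^ (-(c * (n : ℝ))) ≤ 1 / 4 := by
  have h1 : (2 : ℝ) ^ (-c) < 1 := Real.rpow_lt_one_of_one_lt_of_neg one_lt_two (by linarith)
  have h0 : 0 ≤ (2 : ℝ) ^ (-c) := (Real.rpow_pos_of_pos two_pos _).le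
  have ht := (tendsto_pow_atTop_nhds_zero_of_lt_one h0 h1).const_mul X
  rw [mul_zero] at ht
  have hev := ht.eventually (eventually_le_nhds (show (0 : ℝ) < 1 / 4 by norm_num))
  obtain ⟨N, hN⟩ := eventually_atTop.mp hev
  refine ⟨N, fun n hn => ?_⟩
  have := hN n hn
  rwa [← Real.rpow_natCast, ← Real.rpow_mul two_pos.le, neg_mul] at this

theorem C2b_mono {u v : ℝ} (h : u ≤ v) : (2 : ℝ) ^ u ≤ (2 : ℝ) ^ v :=
  Real.rpow_le_rpow_of_exponent_le one_le_two h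

theorem C2b_pos (u : ℝ) : 0 < (2 : ℝ) ^ u := Real.rpow_pos_of_pos two_pos u

/-- The purely real-number part of the induction step: exponents. `ka = al + k2`. -/
theorem C2b_choice (E1 C2 θ al be W k2 : ℝ) (l1 : ℕ) (α : ℝ) (hbe : 1 < be)
    (hE1 : E1 = W + (be + 1) * (|al| + 4)) (hE1p : 0 < E1) (hC2 : C2 = E1 + 1) (hθ : θ = 1 / (4 * (E1 + 2)))
    (hk2 : k2 ≤ 2) (hl1 : 1 ≤ l1) (hα : C2 * l1 < α) :
    ∃ l : ℕ, l1 ≤ l ∧ E1 * l ≤ α ∧ θ * α < l + 1 ∧
      (l = l1 ∨ (C2 * l1 + ((be + 1) * (2 / be + al + k2) + W) * l - α ≤ -(l1 : ℝ))) := by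
  have hl1' : (1 : ℝ) ≤ l1 := by exact_mod_cast hl1
  have hθpos : 0 < θ := by rw [hθ]; positivity
  have hαpos : 0 < α := by
    have : 0 ≤ C2 * (l1 : ℝ) := by rw [hC2]; positivity
    linarith
  have hθE : E1 * θ ≤ 1 / 4 := by
    rw [hθ, mul_one_div, div_le_iff₀ (by positivity)]
    linarith
  have hfl : θ * α < (⌊θ * α⌋₊ : ℝ) + 1 := Nat.lt_floor_add_one _
  have hfl2 : (⌊θ * α⌋₊ : ℝ) ≤ θ * α := Nat.floor_le (by positivity)
  rcases le_or_gt ⌊θ * α⌋₊ l1 with hL | hL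
  · refine ⟨l1, le_rfl, ?_, ?_, Or.inl rfl⟩
    · rw [hC2] at hα
      linarith
    · have : (⌊θ * α⌋₊ : ℝ) ≤ l1 := by exact_mod_cast hL
      linarith
  · refine ⟨⌊θ * α⌋₊, hL.le, ?_, hfl, Or.inr ?_⟩
    · have h1 : E1 * (⌊θ * α⌋₊ : ℝ) ≤ E1 * (θ * α) := mul_le_mul_of_nonneg_left hfl2 hE1p.le
      have h2 : E1 * θ * α ≤ 1 / 4 * α := mul_le_mul_of_nonneg_right hθE hαpos.le
      linarith
    · have h1 : E1 * (⌊θ * α⌋₊ : ℝ) ≤ E1 * (θ * α) := mul_le_mul_of_nonneg_left hfl2 hE1p.le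
      have h2 : E1 * θ * α ≤ 1 / 4 * α := mul_le_mul_of_nonneg_right hθE hαpos.le
      have h3 : (be + 1) * (2 / be + al + k2) + W ≤ E1 := by
        rw [hE1]
        have h4 : 2 / be ≤ 2 := by
          rw [div_le_iff₀ (by linarith)]
          linarith
        have h5 : al ≤ |al| := le_abs_self al
        have h6 : (be + 1) * (2 / be + al + k2) ≤ (be + 1) * (|al| + 4) :=
          mul_le_mul_of_nonneg_left (by linarith) (by linarith)
        linarith
      have h4 : ((be + 1) * (2 / be + al + k2) + W) * (⌊θ * α⌋₊ : ℝ) ≤ E1 * (⌊θ * α⌋₊ : ℝ) :=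
        mul_le_mul_of_nonneg_right h3 (Nat.cast_nonneg _)
      have h5 : (l1 : ℝ) ≤ θ * α := by
        have : (l1 : ℝ) ≤ (⌊θ * α⌋₊ : ℝ) := by exact_mod_cast hL.le
        linarith
      have h6 : 4 * (E1 + 2) * (l1 : ℝ) ≤ α := by
        have h7 : 4 * (E1 + 2) * (l1 : ℝ) ≤ 4 * (E1 + 2) * (θ * α) :=
          mul_le_mul_of_nonneg_left h5 (by positivity)
        have h8 : 4 * (E1 + 2) * θ = 1 := by
          rw [hθ]
          field_simp
        have h9 : 4 * (E1 + 2) * (θ * α) = α := by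
          rw [← mul_assoc, h8, one_mul]
        linarith
      rw [hC2]
      nlinarith

/-- **The numerical induction.** -/
theorem tail_induction (al be W κ dd : ℝ) (hbe : 1 < be) (hW : 0 ≤ W) (hκ : 0 < κ) (hκ1 : κ ≤ 1) (hκβ : κ * be ≤ Real.log 2 / 4) (hdd : 1 ≤ dd)
    (hal : al * be - be = -(2 * dd)) (C : ℝ) (hC : 0 < C) (CM : ℕ → ℝ) (lM : ℕ → ℕ) (hCM : ∀ M, 0 < CM M) :
    ∃ (p2 A2 : ℝ), 0 < p2 ∧ p2 < 1 / 2 ∧ 1 ≤ A2 ∧ ∀ (G G' : ℕ → ℝ → ℝ) (mu : ℕ → ℝ),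
      (∀ m x, 0 ≤ G m x) → (∀ m x, G m x ≤ G' m x) → (∀ m x, G' m x ≤ 1) → (∀ m, 0 < mu m) → mu 0 = 1 →
      (∀ m, G m (mu m) ≤ p2) →
      (∀ m l : ℕ, mu m ≤ (2 : ℝ) ^ (al * l) * Real.exp (κ * l) * mu (m + l)) →
      (∀ (m : ℕ) (x : ℝ), 0 < x → G' m x ≤ x ^ (-(be + 1)) * (2 : ℝ) ^ (W * m)) →
      (∀ M : ℕ, 1 ≤ M → ∀ l : ℕ, lM M ≤ l → ∀ (m : ℕ) (B : ℝ), 0 ≤ B → (∀ y : ℝ, 0 < y → G m y ≤ B * y ^ (-be)) → ∀ x t : ℝ, 0 < x → 0 < t →
        G' (l + m) x ≤ (2 ^ l * G m t) ^ M + M * C * (2 * t / x) ^ (be + 1) * (2 : ℝ) ^ (W * l) + CM M * B * x ^ (-be) * (2 : ℝ) ^ ((dd - be) * l)) →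
      ∀ m x, 0 < x → G' m x ≤ (A2 * mu m / x) ^ be := by
  -- constants
  obtain ⟨E1, hE1⟩ : ∃ E1 : ℝ, E1 = W + (be + 1) * (|al| + 4) := ⟨_, rfl⟩
  obtain ⟨C2, hC2⟩ : ∃ C2 : ℝ, C2 = E1 + 1 := ⟨_, rfl⟩
  obtain ⟨θ, hθ⟩ : ∃ θ : ℝ, θ = 1 / (4 * (E1 + 2)) := ⟨_, rfl⟩
  obtain ⟨k2, hk2⟩ : ∃ k2 : ℝ, k2 = κ / Real.log 2 := ⟨_, rfl⟩
  have hbe0 : 0 < be := by linarith
  have habs : 0 ≤ |al| := abs_nonneg al
  have hE1p : 0 < E1 := by
    rw [hE1]
    have : 0 < (be + 1) * (|al| + 4) := by positivity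
    linarith
  have hC2p : 0 < C2 := by linarith
  have hθpos : 0 < θ := by rw [hθ]; positivity
  have hlog2 : 0 < Real.log 2 := Real.log_pos one_lt_two
  have hlog2' : 1 / 2 < Real.log 2 := by
    have := Real.log_two_gt_d9
    norm_num at this ⊢
    linarith
  have hk2pos : 0 < k2 := by rw [hk2]; positivity
  have hk2le : k2 ≤ 2 := by
    rw [hk2, div_le_iff₀ hlog2]
    linarith
  have hk2be : k2 * be ≤ 1 / 4 := by
    rw [hk2, div_mul_eq_mul_div, div_le_iff₀ hlog2]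
    linarith
  obtain ⟨M, hM⟩ : ∃ M : ℕ, M = ⌈2 * be / θ⌉₊ + 2 := ⟨_, rfl⟩
  have hM1 : 1 ≤ M := by omega
  have hMreal : 2 * be / θ + 2 ≤ M := by
    have : 2 * be / θ ≤ (⌈2 * be / θ⌉₊ : ℝ) := Nat.le_ceil _
    rw [hM]
    push_cast
    linarith
  obtain ⟨N1, hN1⟩ := C2b_small (3 / 4) (CM M) (by norm_num)
  obtain ⟨N2, hN2⟩ := C2b_small 1 (M * C * (2 : ℝ) ^ (be + 1)) (by norm_num)
  obtain ⟨l1, hl1⟩ : ∃ l1 : ℕ, l1 = 1 + lM M + N1 + N2 := ⟨_, rfl⟩
  have hl1_1 : 1 ≤ l1 := by omega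
  have hl1_1r : (1 : ℝ) ≤ l1 := by exact_mod_cast hl1_1
  have hl1_M : lM M ≤ l1 := by omega
  have hl1_N1 : N1 ≤ l1 := by omega
  have hl1_N2 : N2 ≤ l1 := by omega
  refine ⟨(2 : ℝ) ^ (-(2 * (l1 : ℝ))), (2 : ℝ) ^ (C2 * l1), C2b_pos _, ?_, ?_, ?_⟩
  · have h1 : (2 : ℝ) ^ (-(2 * (l1 : ℝ))) ≤ (2 : ℝ) ^ (-2 : ℝ) := C2b_mono (by linarith)
    have h2 : (2 : ℝ) ^ (-2 : ℝ) = 1 / 4 := by
      rw [Real.rpow_neg two_pos.le]
      norm_num
    rw [h2] at h1
    linarith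
  · exact Real.one_le_rpow one_le_two (by positivity)
  intro G G' mu hG0 hGG' hG'1 hmu hmu0 hmup hmuquasi htriv hstep m
  -- the quasi-monotonicity in base 2
  have hquasi : ∀ m l : ℕ, mu m ≤ (2 : ℝ) ^ ((al + k2) * l) * mu (m + l) := by
    intro m l
    have h1 : (2 : ℝ) ^ ((al + k2) * (l : ℝ)) = (2 : ℝ) ^ (al * l) * Real.exp (κ * l) := by
      rw [add_mul, Real.rpow_add two_pos]
      congr 1
      rw [Real.rpow_def_of_pos two_pos]
      congr 1
      rw [hk2]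
      field_simp
    rw [h1]
    exact hmuquasi m l
  induction m using Nat.strong_induction_on with
  | _ m ih =>
  intro x hx
  have hmum := hmu m
  obtain ⟨α, hα⟩ : ∃ α : ℝ, (2 : ℝ) ^ α = x / mu m :=
    ⟨Real.logb 2 (x / mu m), Real.rpow_logb two_pos (by norm_num) (div_pos hx hmum)⟩
  have hxα : x = (2 : ℝ) ^ α * mu m := by
    rw [hα]
    field_simp
  have hrhs : ((2 : ℝ) ^ (C2 * (l1 : ℝ)) * mu m / x) ^ be = (2 : ℝ) ^ ((C2 * l1 - α) * be) := by
    rw [Real.rpow_mul two_pos.le (C2 * l1 - α) be]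
    congr 1
    rw [hxα, Real.rpow_sub two_pos]
    have := C2b_pos α
    field_simp
  rw [hrhs]
  rcases le_or_gt α (C2 * l1) with hsmall | hbig
  · refine (hG'1 m x).trans (Real.one_le_rpow one_le_two ?_)
    exact mul_nonneg (by linarith) hbe0.le
  obtain ⟨l, hl1l, hE1l, hθα, hor⟩ :=
    C2b_choice E1 C2 θ al be W k2 l1 α hbe hE1 hE1p hC2 hθ hk2le hl1_1 hbig
  have hlr : (l1 : ℝ) ≤ l := by exact_mod_cast hl1l
  have hl1r : (1 : ℝ) ≤ l := hl1_1r.trans hlr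
  have hF : (be + 1) * (al + k2) + W ≤ E1 := by
    rw [hE1]
    have h5 : al ≤ |al| := le_abs_self al
    have h6 : (be + 1) * (al + k2) ≤ (be + 1) * (|al| + 4) :=
      mul_le_mul_of_nonneg_left (by linarith) (by linarith)
    linarith
  rcases le_or_gt m l with hml | hml
  · -- case (i)
    have h1 : 1 ≤ (2 : ℝ) ^ ((al + k2) * m) * mu m := by
      have := hquasi 0 m
      rwa [hmu0, zero_add] at this
    have h2 : (2 : ℝ) ^ (α - (al + k2) * m) ≤ x := by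
      rw [hxα, Real.rpow_sub two_pos, div_le_iff₀ (C2b_pos _)]
      calc (2 : ℝ) ^ α = (2 : ℝ) ^ α * 1 := by ring
        _ ≤ (2 : ℝ) ^ α * ((2 : ℝ) ^ ((al + k2) * m) * mu m) :=
            mul_le_mul_of_nonneg_left h1 (C2b_pos α).le
        _ = _ := by ring
    have h3 : x ^ (-(be + 1)) ≤ ((2 : ℝ) ^ (α - (al + k2) * m)) ^ (-(be + 1)) :=
      Real.rpow_le_rpow_of_nonpos (C2b_pos _) h2 (by linarith)
    rw [← Real.rpow_mul two_pos.le] at h3
    calc G' m x ≤ x ^ (-(be + 1)) * (2 : ℝ) ^ (W * m) := htriv m x hx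
      _ ≤ (2 : ℝ) ^ ((α - (al + k2) * m) * (-(be + 1))) * (2 : ℝ) ^ (W * m) :=
          mul_le_mul_of_nonneg_right h3 (C2b_pos _).le
      _ = (2 : ℝ) ^ ((α - (al + k2) * m) * (-(be + 1)) + W * m) := by
          rw [Real.rpow_add two_pos]
      _ ≤ (2 : ℝ) ^ ((C2 * l1 - α) * be) := by
          apply C2b_mono
          have h4 : ((be + 1) * (al + k2) + W) * (m : ℝ) ≤ E1 * m :=
            mul_le_mul_of_nonneg_right hF (Nat.cast_nonneg _)
          have h5 : E1 * (m : ℝ) ≤ E1 * l :=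
            mul_le_mul_of_nonneg_left (by exact_mod_cast hml) hE1p.le
          have h6 : 0 ≤ C2 * l1 * be := by positivity
          have h7 : (α - (al + k2) * m) * (-(be + 1)) + W * m
              = -(α * be) - α + ((be + 1) * (al + k2) + W) * (m : ℝ) := by ring
          rw [h7, sub_mul]
          linarith
  · -- case (ii)
    obtain ⟨m', rfl⟩ : ∃ m', m = l + m' := ⟨m - l, by omega⟩
    have hm'lt : m' < l + m' := by omega
    have hmum' := hmu m'
    have hq := hquasi m' l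
    rw [add_comm m' l] at hq
    -- the induction hypothesis
    have hB : ∀ y : ℝ, 0 < y → G m' y ≤ ((2 : ℝ) ^ (C2 * (l1 : ℝ)) * mu m') ^ be * y ^ (-be) := by
      intro y hy
      refine (hGG' m' y).trans ((ih m' hm'lt y hy).trans (le_of_eq ?_))
      rw [Real.div_rpow (by have := C2b_pos (C2 * (l1 : ℝ)); positivity) hy.le, Real.rpow_neg hy.le]
      rfl
    have hB0 : 0 ≤ ((2 : ℝ) ^ (C2 * (l1 : ℝ)) * mu m') ^ be := by
      have := C2b_pos (C2 * (l1 : ℝ))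
      positivity
    -- ratio
    have hratio : mu m' / x ≤ (2 : ℝ) ^ ((al + k2) * l - α) := by
      rw [Real.rpow_sub two_pos, hxα, div_le_div_iff₀ (by have := C2b_pos α; positivity) (C2b_pos α)]
      calc mu m' * (2 : ℝ) ^ α ≤ ((2 : ℝ) ^ ((al + k2) * l) * mu (l + m')) * (2 : ℝ) ^ α :=
            mul_le_mul_of_nonneg_right hq (C2b_pos α).le
        _ = _ := by ring
    have hratio0 : 0 ≤ mu m' / x := by positivity
    -- the choice of `t`
    obtain ⟨s, hs1, hs2⟩ : ∃ s : ℝ, G m' ((2 : ℝ) ^ s * mu m') ≤ (2 : ℝ) ^ (-(2 * (l : ℝ))) ∧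
        (be + 1) * s + ((be + 1) * (al + k2) + W) * l - α ≤ be * (C2 * l1) - l1 := by
      rcases hor with hll | hcase
      · subst hll
        refine ⟨0, ?_, ?_⟩
        · rw [Real.rpow_zero, one_mul]
          exact hmup m'
        · have h4 : ((be + 1) * (al + k2) + W) * (l : ℝ) ≤ E1 * l :=
            mul_le_mul_of_nonneg_right hF (Nat.cast_nonneg _)
          have h5 : 0 ≤ be * (C2 * (l : ℝ)) := by positivity
          rw [hC2] at hbig
          linarith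
      · refine ⟨C2 * l1 + 2 * l / be, ?_, ?_⟩
        · have ht : 0 < (2 : ℝ) ^ (C2 * l1 + 2 * l / be) * mu m' := by
            have := C2b_pos (C2 * l1 + 2 * l / be)
            positivity
          refine (hGG' m' _).trans ((ih m' hm'lt _ ht).trans (le_of_eq ?_))
          have h1 : (2 : ℝ) ^ (C2 * (l1 : ℝ)) * mu m' / ((2 : ℝ) ^ (C2 * l1 + 2 * l / be) * mu m') =
              (2 : ℝ) ^ (-(2 * (l : ℝ) / be)) := by
            rw [Real.rpow_add two_pos, Real.rpow_neg two_pos.le]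
            have := C2b_pos (C2 * (l1 : ℝ))
            have := C2b_pos (2 * (l : ℝ) / be)
            field_simp
          rw [h1, ← Real.rpow_mul two_pos.le]
          congr 1
          field_simp
        · have h1 : (be + 1) * (C2 * l1 + 2 * l / be) + ((be + 1) * (al + k2) + W) * l - α =
              be * (C2 * l1) + (C2 * l1 + ((be + 1) * (2 / be + al + k2) + W) * l - α) := by
            ring
          rw [h1]
          linarith
    have ht0 : 0 < (2 : ℝ) ^ s * mu m' := by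
      have := C2b_pos s
      positivity
    have hmain := hstep M hM1 l (hl1_M.trans hl1l) m' _ hB0 hB x _ hx ht0
    have hQpos := C2b_pos ((C2 * l1 - α) * be)
    -- first term
    have T1 : ((2 : ℝ) ^ l * G m' ((2 : ℝ) ^ s * mu m')) ^ M ≤ 1 / 4 * (2 : ℝ) ^ ((C2 * l1 - α) * be) := by
      have h1 : (2 : ℝ) ^ l * G m' ((2 : ℝ) ^ s * mu m') ≤ (2 : ℝ) ^ (-(l : ℝ)) := by
        calc (2 : ℝ) ^ l * G m' ((2 : ℝ) ^ s * mu m') ≤ (2 : ℝ) ^ l * (2 : ℝ) ^ (-(2 * (l : ℝ))) :=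
              mul_le_mul_of_nonneg_left hs1 (by positivity)
          _ = (2 : ℝ) ^ (l : ℝ) * (2 : ℝ) ^ (-(2 * (l : ℝ))) := by rw [Real.rpow_natCast]
          _ = (2 : ℝ) ^ (-(l : ℝ)) := by
              rw [← Real.rpow_add two_pos]
              congr 1
              ring
      have h2 : ((2 : ℝ) ^ l * G m' ((2 : ℝ) ^ s * mu m')) ^ M ≤ ((2 : ℝ) ^ (-(l : ℝ))) ^ M :=
        pow_le_pow_left₀ (mul_nonneg (by positivity) (hG0 _ _)) h1 M
      refine h2.trans ?_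
      have h3 : (1 : ℝ) / 4 = (2 : ℝ) ^ (-2 : ℝ) := by
        rw [Real.rpow_neg two_pos.le]
        norm_num
      rw [h3, ← Real.rpow_natCast, ← Real.rpow_mul two_pos.le, ← Real.rpow_add two_pos]
      apply C2b_mono
      have h4 : be * α ≤ (M - 2) * l := by
        have h5 : α ≤ 2 * l / θ := by
          rw [le_div_iff₀ hθpos]
          linarith
        calc be * α ≤ be * (2 * l / θ) := mul_le_mul_of_nonneg_left h5 hbe0.le
          _ = (2 * be / θ) * l := by ring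
          _ ≤ (M - 2) * l := mul_le_mul_of_nonneg_right (by linarith) (by linarith)
      have h5 : 0 ≤ C2 * l1 * be := by positivity
      have h6 : -(l : ℝ) * M = -((M - 2) * l) - 2 * l := by ring
      rw [h6, sub_mul]
      linarith
    -- second term
    have T2 : M * C * (2 * ((2 : ℝ) ^ s * mu m') / x) ^ (be + 1) * (2 : ℝ) ^ (W * l) ≤
        1 / 4 * (2 : ℝ) ^ ((C2 * l1 - α) * be) := by
      have h1 : 2 * ((2 : ℝ) ^ s * mu m') / x ≤ (2 : ℝ) ^ (1 + s + ((al + k2) * l - α)) := by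
        have h2 : 2 * ((2 : ℝ) ^ s * mu m') / x = 2 * (2 : ℝ) ^ s * (mu m' / x) := by ring
        rw [h2, Real.rpow_add two_pos, Real.rpow_add two_pos, Real.rpow_one]
        exact mul_le_mul_of_nonneg_left hratio (by have := C2b_pos s; positivity)
      have h2 : (2 * ((2 : ℝ) ^ s * mu m') / x) ^ (be + 1) ≤
          (2 : ℝ) ^ ((1 + s + ((al + k2) * l - α)) * (be + 1)) := by
        rw [Real.rpow_mul two_pos.le]
        exact Real.rpow_le_rpow (by positivity) h1 (by linarith)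
      calc M * C * (2 * ((2 : ℝ) ^ s * mu m') / x) ^ (be + 1) * (2 : ℝ) ^ (W * l)
          ≤ M * C * (2 : ℝ) ^ ((1 + s + ((al + k2) * l - α)) * (be + 1)) * (2 : ℝ) ^ (W * l) := by
            have := C2b_pos (W * (l : ℝ))
            gcongr
        _ = M * C * (2 : ℝ) ^ ((1 + s + ((al + k2) * l - α)) * (be + 1) + W * l) := by
            rw [mul_assoc (M * C), ← Real.rpow_add two_pos]
        _ ≤ M * C * (2 : ℝ) ^ ((be + 1) + (-(1 * (l1 : ℝ))) + (C2 * l1 - α) * be) := by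
            have h3 : (1 + s + ((al + k2) * l - α)) * (be + 1) + W * l ≤
                (be + 1) + (-(1 * (l1 : ℝ))) + (C2 * l1 - α) * be := by
              have h4 : (1 + s + ((al + k2) * l - α)) * (be + 1) + W * l =
                (be + 1) + ((be + 1) * s + ((be + 1) * (al + k2) + W) * l - α) - α * be := by ring
              rw [h4, sub_mul]
              linarith
            have h5 := C2b_mono h3
            have h6 : 0 ≤ (M : ℝ) * C := by positivity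
            exact mul_le_mul_of_nonneg_left h5 h6
        _ = (M * C * (2 : ℝ) ^ (be + 1) * (2 : ℝ) ^ (-(1 * (l1 : ℝ)))) *
              (2 : ℝ) ^ ((C2 * l1 - α) * be) := by
            rw [Real.rpow_add two_pos, Real.rpow_add two_pos]
            ring
        _ ≤ 1 / 4 * (2 : ℝ) ^ ((C2 * l1 - α) * be) :=
            mul_le_mul_of_nonneg_right (hN2 l1 hl1_N2) hQpos.le
    -- third term
    have T3 : CM M * ((2 : ℝ) ^ (C2 * (l1 : ℝ)) * mu m') ^ be * x ^ (-be) * (2 : ℝ) ^ ((dd - be) * l) ≤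
        1 / 4 * (2 : ℝ) ^ ((C2 * l1 - α) * be) := by
      have h1 : ((2 : ℝ) ^ (C2 * (l1 : ℝ)) * mu m') ^ be * x ^ (-be) =
          ((2 : ℝ) ^ (C2 * (l1 : ℝ)) * (mu m' / x)) ^ be := by
        rw [← mul_div_assoc, Real.div_rpow (by have := C2b_pos (C2 * (l1 : ℝ)); positivity) hx.le,
          Real.rpow_neg hx.le]
        rfl
      have h2 : ((2 : ℝ) ^ (C2 * (l1 : ℝ)) * (mu m' / x)) ^ be ≤
          (2 : ℝ) ^ ((C2 * l1 + ((al + k2) * l - α)) * be) := by
        rw [Real.rpow_mul two_pos.le (C2 * l1 + ((al + k2) * l - α)) be, Real.rpow_add two_pos]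
        refine Real.rpow_le_rpow (mul_nonneg (C2b_pos _).le hratio0) ?_ hbe0.le
        exact mul_le_mul_of_nonneg_left hratio (C2b_pos _).le
      have hCMM := hCM M
      calc CM M * ((2 : ℝ) ^ (C2 * (l1 : ℝ)) * mu m') ^ be * x ^ (-be) * (2 : ℝ) ^ ((dd - be) * l)
          = CM M * (((2 : ℝ) ^ (C2 * (l1 : ℝ)) * (mu m' / x)) ^ be) * (2 : ℝ) ^ ((dd - be) * l) := by
            rw [← h1]; ring
        _ ≤ CM M * (2 : ℝ) ^ ((C2 * l1 + ((al + k2) * l - α)) * be) * (2 : ℝ) ^ ((dd - be) * l) := by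
            have := C2b_pos ((dd - be) * (l : ℝ))
            gcongr
        _ = CM M * (2 : ℝ) ^ ((C2 * l1 + ((al + k2) * l - α)) * be + (dd - be) * l) := by
            rw [mul_assoc, ← Real.rpow_add two_pos]
        _ ≤ CM M * (2 : ℝ) ^ (-(3 / 4 * (l1 : ℝ)) + (C2 * l1 - α) * be) := by
            have h3 : (C2 * l1 + ((al + k2) * l - α)) * be + (dd - be) * l ≤
                -(3 / 4 * (l1 : ℝ)) + (C2 * l1 - α) * be := by
              have h4 : (C2 * l1 + ((al + k2) * l - α)) * be + (dd - be) * l =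
                (C2 * l1 - α) * be + ((al * be - be) + dd + k2 * be) * l := by ring
              rw [h4, hal]
              have h5 : (-(2 * dd) + dd + k2 * be) * (l : ℝ) ≤ (-(3 / 4)) * l :=
                mul_le_mul_of_nonneg_right (by linarith) (by linarith)
              linarith
            exact mul_le_mul_of_nonneg_left (C2b_mono h3) hCMM.le
        _ = (CM M * (2 : ℝ) ^ (-(3 / 4 * (l1 : ℝ)))) * (2 : ℝ) ^ ((C2 * l1 - α) * be) := by
            rw [Real.rpow_add two_pos]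
            ring
        _ ≤ 1 / 4 * (2 : ℝ) ^ ((C2 * l1 - α) * be) :=
            mul_le_mul_of_nonneg_right (hN1 l1 hl1_N1) hQpos.le
    calc G' (l + m') x ≤ _ := hmain
      _ ≤ 1 / 4 * (2 : ℝ) ^ ((C2 * l1 - α) * be) + 1 / 4 * (2 : ℝ) ^ ((C2 * l1 - α) * be) +
          1 / 4 * (2 : ℝ) ^ ((C2 * l1 - α) * be) := add_le_add (add_le_add T1 T2) T3
      _ ≤ (2 : ℝ) ^ ((C2 * l1 - α) * be) := by linarith

end Env
end MP_d19698_pr
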