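import Pool.Agent.Lib.MP_d19698_pr.C2b

/-! # C2c -/

open MeasureTheory ProbabilityTheory Filter Topology Set
open scoped ENNReal NNReal

namespace MP_d19698_pr
namespace Env
variable {d : ℕ} [NeZero d] (E : Env d)

/-- **(T)**. -/
theorem exists_par : Nonempty (Par E) := by
  have hbe : 1 < E.be := E.one_lt_be
  have hbe0 : 0 < E.be := E.be_pos
  have hlog : 0 < Real.log 2 := Real.log_pos (by norm_num)
  set κ : ℝ := min 1 (Real.log 2 / (4 * E.be)) with hκdef
  have hκ0 : 0 < κ := lt_min one_pos (by positivity)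
  have hκ1 : κ ≤ 1 := min_le_left _ _
  have hκβ : κ * E.be ≤ Real.log 2 / 4 := by
    have h1 : κ ≤ Real.log 2 / (4 * E.be) := min_le_right _ _
    calc κ * E.be ≤ Real.log 2 / (4 * E.be) * E.be := by gcongr
      _ = Real.log 2 / 4 := by field_simp
  have hdd : (1 : ℝ) ≤ (d : ℝ) := by
    have := E.hd
    exact_mod_cast (by omega : 1 ≤ d)
  obtain ⟨C, hC, hone⟩ := E.one_step
  choose! CM lM hM using hone
  obtain ⟨p2, A2, hp0, hp1, hA2, ind⟩ := tail_induction E.al E.be
    ((E.ξ * (E.be + 1)) ^ 2 / 2) κ (d : ℝ) hbe (by positivity) hκ0 hκ1 hκβ hdd E.al_mul_be C hC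
    (fun M => if 1 ≤ M then CM M else 1) lM (by
      intro M
      by_cases h : 1 ≤ M
      · simp only [if_pos h]
        exact (hM M h).1
      · simp only [if_neg h]
        exact one_pos)
  have hp1' : p2 < 1 := by linarith
  refine ⟨⟨κ, p2, A2, hκ0, hκ1, hκβ, hp0, hp1, hA2, ?_⟩⟩
  apply ind (E.Gt 2) (E.Gt (5 / 4)) (E.muQ κ p2)
  · intro m x
    exact measureReal_nonneg
  · intro m x
    exact E.Gt_anti (by norm_num) m x
  · intro m x
    exact measureReal_le_one
  · intro m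
    exact E.muQ_pos hp0 hp1' m
  · exact E.muQ_zero hp0 hp1'
  · intro m
    exact (E.Gt_mono m (E.lamQ_le_muQ κ p2 m)).trans (E.Gt_lamQ hp0 hp1' m)
  · intro m l
    exact E.muQ_le κ p2 m l
  · intro m x hx
    have h1 := E.straight (ρ := 5 / 4) (t := E.be + 1) (by norm_num) (by linarith) m hx
    have h2 : (E.ξ * (E.be + 1)) ^ 2 / 2 * (m : ℝ) = (E.ξ * (E.be + 1)) ^ 2 * m / 2 := by ring
    rw [h2]
    exact h1
  · intro M hM1 l hl m B hB hG x t hx ht
    simp only [if_pos hM1]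
    exact (hM M hM1).2 l hl m B hB hG x t hx ht

end Env

end MP_d19698_pr
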