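import Pool.Agent.Lib.MP_d19698_pr.C2c
import Pool.Agent.Lib.MP_d19698_pr.B12b

/-!
# C3: consequences of (T): means, edge tails, spheres (sections 3, 4)
-/

open MeasureTheory ProbabilityTheory Filter Topology Set
open scoped ENNReal NNReal

namespace MP_d19698_pr

namespace Par

variable {d : ℕ} [NeZero d] {E : Env d} (A : Par E)

theorem lam_pos (m : ℕ) : 0 < A.lam m :=
  E.lamQ_pos A.p2_pos (lt_trans A.p2_lt (by norm_num)) m

theorem mu_pos (m : ℕ) : 0 < A.mu m :=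
  E.muQ_pos A.p2_pos (lt_trans A.p2_lt (by norm_num)) m

theorem lam_le_mu (m : ℕ) : A.lam m ≤ A.mu m := E.lamQ_le_muQ A.κ A.p2 m

/-- `μ_m ≤ 2^{αl} e^{κl} μ_{m+l}`. -/
theorem mu_le (m l : ℕ) : A.mu m ≤ (2 : ℝ) ^ (E.al * l) * Real.exp (A.κ * l) * A.mu (m + l) :=
  E.muQ_le A.κ A.p2 m l

/-- lower bound `μ_m ≥ 2^{-αm} e^{-κm}`. -/
theorem le_mu (m : ℕ) : (2 : ℝ) ^ (-(E.al * m)) * Real.exp (-(A.κ * m)) ≤ A.mu m := by
  have h1 := A.mu_le 0 m
  have h0 : A.mu 0 = 1 := E.muQ_zero A.p2_pos (lt_trans A.p2_lt (by norm_num))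
  rw [h0, zero_add] at h1
  rw [Real.rpow_neg (by norm_num), Real.exp_neg, ← mul_inv]
  rw [inv_le_iff_one_le_mul₀ (by positivity)]
  linarith [mul_comm (A.mu m) ((2 : ℝ) ^ (E.al * m) * Real.exp (A.κ * m))]

private theorem C3a_tail (a β : ℝ) (ha : 0 < a) (hβ : 1 < β) (G : ℝ → ℝ)
    (h1 : ∀ t, G t ≤ 1) (h2 : ∀ t, 0 < t → G t ≤ (a / t) ^ β) :
    ∫⁻ t in Ioi (0 : ℝ), ENNReal.ofReal (G t) ≤ ENNReal.ofReal (a * (1 + 1 / (β - 1))) := by
  have hsplit : Ioi (0 : ℝ) = Ioc 0 a ∪ Ioi a := (Ioc_union_Ioi_eq_Ioi ha.le).symm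
  rw [hsplit, lintegral_union measurableSet_Ioi (by
    rw [Set.disjoint_left]
    intro t ht ht'
    exact absurd ht.2 (not_le.2 ht'))]
  have e1 : ∫⁻ t in Ioc (0 : ℝ) a, ENNReal.ofReal (G t) ≤ ENNReal.ofReal a := by
    calc ∫⁻ t in Ioc (0 : ℝ) a, ENNReal.ofReal (G t) ≤ ∫⁻ _t in Ioc (0 : ℝ) a, 1 := by
          refine lintegral_mono fun t => ?_
          rw [← ENNReal.ofReal_one]
          exact ENNReal.ofReal_le_ofReal (h1 t)
      _ = ENNReal.ofReal a := by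
          rw [lintegral_one, Measure.restrict_apply_univ, Real.volume_Ioc, sub_zero]
  have e2 : ∫⁻ t in Ioi a, ENNReal.ofReal (G t) ≤ ENNReal.ofReal (a / (β - 1)) := by
    have hint : IntegrableOn (fun t : ℝ => a ^ β * t ^ (-β)) (Ioi a) :=
      (integrableOn_Ioi_rpow_of_lt (by linarith) ha).const_mul _
    calc ∫⁻ t in Ioi a, ENNReal.ofReal (G t) ≤
          ∫⁻ t in Ioi a, ENNReal.ofReal (a ^ β * t ^ (-β)) := by
          refine setLIntegral_mono' measurableSet_Ioi fun t ht => ?_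
          have ht0 : 0 < t := lt_trans ha ht
          refine ENNReal.ofReal_le_ofReal ((h2 t ht0).trans (le_of_eq ?_))
          rw [Real.div_rpow ha.le ht0.le, Real.rpow_neg ht0.le]
          rfl
      _ = ENNReal.ofReal (∫ t in Ioi a, a ^ β * t ^ (-β)) := by
          rw [ofReal_integral_eq_lintegral_ofReal hint]
          refine (ae_restrict_mem measurableSet_Ioi).mono fun t ht => ?_
          have ht0 : 0 < t := lt_trans ha ht
          positivity
      _ = ENNReal.ofReal (a / (β - 1)) := by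
          congr 1
          rw [integral_const_mul, integral_Ioi_rpow_of_lt (by linarith) ha]
          have h3 : -β + 1 ≠ 0 := by linarith
          have h4 : β - 1 ≠ 0 := by linarith
          have h5 : a ^ β * a ^ (-β + 1) = a := by
            rw [← Real.rpow_add ha]
            simp
          have h6 : a ^ β * (-a ^ (-β + 1) / (-β + 1)) = (a ^ β * a ^ (-β + 1)) / (β - 1) := by
            field_simp
            ring
          rw [h6, h5]
  refine (add_le_add e1 e2).trans (le_of_eq ?_)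
  rw [← ENNReal.ofReal_add ha.le (div_nonneg ha.le (by linarith))]
  congr 1
  ring

/-- `E[X'_m] ≤ C μ_m` (`β > 1`; layer cake). -/
theorem mean_le : ∃ C : ℝ, 0 < C ∧ ∀ m : ℕ, ∫⁻ ω, E.Edg 0 m 0 ω 0 0 (5 / 4) ∂E.P ≤ ENNReal.ofReal (C * A.mu m) := by
  have hβ := E.one_lt_be
  have hβ' : 0 < E.be - 1 := by linarith
  have hA2 : 0 < A.A2 := lt_of_lt_of_le one_pos A.A2_one
  refine ⟨A.A2 * (1 + 1 / (E.be - 1)), by positivity, fun m => ?_⟩
  have hmu := A.mu_pos m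
  have hmeas : Measurable (fun ω => E.Edg 0 m 0 ω 0 0 (5 / 4)) :=
    (E.measurable_Edg 0 m 0 0 0 (5 / 4) (K := CBox 0 ((5 / 4) * dy 0)) (subset_refl _)).mono
      (E.FF_le 0 m _) le_rfl
  have hfin : ∀ ω, E.Edg 0 m 0 ω 0 0 (5 / 4) < ∞ := fun ω =>
    (E.Edg_pos_lt_top 0 m 0 ω 0 0 (by norm_num)).2
  have h1 : ∫⁻ ω, E.Edg 0 m 0 ω 0 0 (5 / 4) ∂E.P =
      ∫⁻ ω, ENNReal.ofReal (E.Edg 0 m 0 ω 0 0 (5 / 4)).toReal ∂E.P := by
    refine lintegral_congr fun ω => ?_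
    rw [ENNReal.ofReal_toReal (hfin ω).ne]
  rw [h1, lintegral_eq_lintegral_meas_lt E.P (Eventually.of_forall fun ω => ENNReal.toReal_nonneg)
    hmeas.ennreal_toReal.aemeasurable]
  have h2 : ∀ t ∈ Ioi (0 : ℝ), E.P {ω | t < (E.Edg 0 m 0 ω 0 0 (5 / 4)).toReal} =
      ENNReal.ofReal (E.Gt (5 / 4) m t) := by
    intro t ht
    unfold Env.Gt
    rw [Measure.real, ENNReal.ofReal_toReal (measure_ne_top _ _)]
    congr 1
    ext ω
    exact (ENNReal.ofReal_lt_iff_lt_toReal (le_of_lt ht) (hfin ω).ne).symm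
  rw [setLIntegral_congr_fun measurableSet_Ioi h2]
  refine (C3a_tail (A.A2 * A.mu m) E.be (mul_pos hA2 hmu) hβ (fun t => E.Gt (5 / 4) m t)
    (fun t => ?_) (fun t ht => A.tail m t ht)).trans (le_of_eq ?_)
  · exact measureReal_le_one
  · congr 1
    ring

end Par
end MP_d19698_pr
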