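import Pool.Agent.Lib.MP_d19698_pr.C3a

/-! # C3b -/

open MeasureTheory ProbabilityTheory Filter Topology Set
open scoped ENNReal NNReal

namespace MP_d19698_pr
namespace Par
variable {d : ℕ} [NeZero d] {E : Env d} (A : Par E)

/-- **Edge tail.** Field levels `[i, n)`, edge level `i + l ≤ n`:
`P[D_{i,n}(e; Box (x_e) (2·2^{-(i+l)})) > a 2^{-i} μ_{n-i}] ≤ C a^{-β} 2^{-d l} e^{κ β l}`. (`edge_law` reduces to `i = 0`; `coarse_edge`, `muQ_le`, `al_mul_be`.) -/
theorem edge_tail : ∃ C : ℝ, 0 < C ∧ ∀ (i m l : ℕ), l ≤ m → ∀ (x : Rd d) (k : Fin d) (a : ℝ), 0 < a →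
    E.P.real {ω | ENNReal.ofReal (a * (dy i * A.mu m)) < E.Edg i (i + m) (i + l) ω x k 2} ≤
      C * a ^ (-E.be) * (2 : ℝ) ^ (-((d : ℝ) * l)) * Real.exp (A.κ * E.be * l) := by
  obtain ⟨C, hC, hCE⟩ := E.coarse_edge (ρ := 2) (by norm_num)
  have hA2 : 0 < A.A2 := lt_of_lt_of_le one_pos A.A2_one
  refine ⟨C * A.A2 ^ E.be, by positivity, ?_⟩
  intro i m l hlm x k a ha
  obtain ⟨m', rfl⟩ := Nat.exists_eq_add_of_le hlm
  have h1 : a * (dy i * A.mu (l + m')) = dy i * (a * A.mu (l + m')) := by ring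
  rw [h1, E.edge_law i (l + m') l x k 2 (a * A.mu (l + m'))]
  have hmu : 0 < A.mu (l + m') := A.mu_pos _
  have hmu' : 0 < A.mu m' := A.mu_pos _
  have hB : ∀ y : ℝ, 0 < y → E.Gt 2 m' y ≤ (A.A2 * A.mu m') ^ E.be * y ^ (-E.be) := by
    intro y hy
    calc E.Gt 2 m' y ≤ E.Gt (5 / 4) m' y := E.Gt_anti (by norm_num) m' y
      _ ≤ (A.A2 * A.mu m' / y) ^ E.be := A.tail m' y hy
      _ = (A.A2 * A.mu m') ^ E.be * y ^ (-E.be) := by
        rw [Real.div_rpow (by positivity) hy.le, Real.rpow_neg hy.le, div_eq_mul_inv]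
  have h2 := hCE l m' ((A.A2 * A.mu m') ^ E.be) (by positivity) hB 0 0 (a * A.mu (l + m')) (by positivity)
  refine h2.trans ?_
  have hle : A.mu m' ≤ (2 : ℝ) ^ (E.al * l) * Real.exp (A.κ * l) * A.mu (l + m') := by
    have := A.mu_le m' l
    rwa [add_comm m' l] at this
  have h3 : A.mu m' ^ E.be ≤ (2 : ℝ) ^ (E.al * E.be * l) * Real.exp (A.κ * E.be * l) * A.mu (l + m') ^ E.be := by
    calc A.mu m' ^ E.be ≤ ((2 : ℝ) ^ (E.al * l) * Real.exp (A.κ * l) * A.mu (l + m')) ^ E.be :=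
          Real.rpow_le_rpow hmu'.le hle E.be_pos.le
      _ = (2 : ℝ) ^ (E.al * E.be * l) * Real.exp (A.κ * E.be * l) * A.mu (l + m') ^ E.be := by
        rw [Real.mul_rpow (by positivity) hmu.le, Real.mul_rpow (by positivity) (by positivity),
          ← Real.rpow_mul (by norm_num), ← Real.exp_mul]
        congr 3 <;> ring_nf
  have h4 : E.al * E.be * l + ((d : ℝ) - E.be) * l = -((d : ℝ) * l) := by
    have := E.al_mul_be
    linear_combination (l : ℝ) * this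
  have h5 : (a * A.mu (l + m')) ^ (-E.be) = a ^ (-E.be) * A.mu (l + m') ^ (-E.be) :=
    Real.mul_rpow ha.le hmu.le
  have h6 : A.mu (l + m') ^ E.be * A.mu (l + m') ^ (-E.be) = 1 := by
    rw [← Real.rpow_add hmu, add_neg_cancel, Real.rpow_zero]
  have h7 : (2 : ℝ) ^ (E.al * E.be * l) * (2 : ℝ) ^ (((d : ℝ) - E.be) * l) = (2 : ℝ) ^ (-((d : ℝ) * l)) := by
    rw [← Real.rpow_add (by norm_num), h4]
  rw [h5, Real.mul_rpow hA2.le hmu'.le]
  calc C * (A.A2 ^ E.be * A.mu m' ^ E.be) * (a ^ (-E.be) * A.mu (l + m') ^ (-E.be)) * (2 : ℝ) ^ (((d : ℝ) - E.be) * l)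
      ≤ C * (A.A2 ^ E.be * ((2 : ℝ) ^ (E.al * E.be * l) * Real.exp (A.κ * E.be * l) * A.mu (l + m') ^ E.be)) *
          (a ^ (-E.be) * A.mu (l + m') ^ (-E.be)) * (2 : ℝ) ^ (((d : ℝ) - E.be) * l) := by
        gcongr
    _ = C * A.A2 ^ E.be * a ^ (-E.be) * ((2 : ℝ) ^ (E.al * E.be * l) * (2 : ℝ) ^ (((d : ℝ) - E.be) * l)) *
          Real.exp (A.κ * E.be * l) * (A.mu (l + m') ^ E.be * A.mu (l + m') ^ (-E.be)) := by ring
    _ = C * A.A2 ^ E.be * a ^ (-E.be) * (2 : ℝ) ^ (-((d : ℝ) * l)) * Real.exp (A.κ * E.be * l) := by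
        rw [h6, h7, mul_one]

omit [NeZero d] in
private lemma C3b_mlip (K : Set (Rd d)) :
    MLip K (fun φ : Rd d → ℝ => ⨆ y ∈ K, ENNReal.ofReal (Real.exp (φ y))) := by
  intro f g ε h
  refine iSup₂_le fun y hy => ?_
  have h1 : f y ≤ g y + ε := by
    have := (abs_le.mp (h y hy)).2
    linarith
  calc ENNReal.ofReal (Real.exp (f y)) ≤ ENNReal.ofReal (Real.exp ε * Real.exp (g y)) := by
        apply ENNReal.ofReal_le_ofReal
        rw [← Real.exp_add]
        exact Real.exp_le_exp.mpr (by linarith)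
    _ = ENNReal.ofReal (Real.exp ε) * ENNReal.ofReal (Real.exp (g y)) :=
        ENNReal.ofReal_mul (Real.exp_pos _).le
    _ ≤ ENNReal.ofReal (Real.exp ε) * ⨆ y ∈ K, ENNReal.ofReal (Real.exp (g y)) := by
        gcongr
        exact le_iSup₂ (f := fun y (_ : y ∈ K) => ENNReal.ofReal (Real.exp (g y))) y hy

/-- **Last step.** `P[ 2^{-(i+l)} sup_{CBox x (2^{-(i+l)})} e^{ξ h_{i,i+m}} > a 2^{-i} μ_m ] ≤ C a^{-β} 2^{-dl} e^{κβl}` when `m ≤ l + 4` and `l ≤ m + 4` (fine levels compared with the scale of the box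
differ by a bounded number; scaling law, `sup_moment`, `le_mu`). -/
theorem last_step : ∃ C : ℝ, 0 < C ∧ ∀ (i m l : ℕ), m ≤ l + 4 → l ≤ m + 4 → ∀ (x : Rd d) (a : ℝ), 0 < a →
    E.P.real {ω | ∃ y ∈ CBox x (2 * dy (i + l)), a * (dy i * A.mu m) < dy (i + l) * Real.exp (E.hf i (i + m) ω y)} ≤
      C * a ^ (-E.be) * (2 : ℝ) ^ (-((d : ℝ) * l)) * Real.exp (A.κ * E.be * l) := by
  obtain ⟨Cs, hCs, hsup⟩ := E.sup_moment (R := 32) (by norm_num)
  have hbe := E.be_pos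
  refine ⟨Cs E.be * ((2 : ℝ) ^ (4 * |E.be - d|) * Real.exp (4 * (A.κ * E.be))), by
    have := hCs E.be
    positivity, ?_⟩
  intro i m l hml hlm x a ha
  have hmu : 0 < A.mu m := A.mu_pos m
  have hdl := dy_pos l
  have hdi := dy_pos i
  set c : ℝ := a * A.mu m / dy l with hc
  have hc0 : 0 < c := by positivity
  set K : Set (Rd d) := CBox 0 (2 * dy l) with hK
  have hKc : IsCompact K := isCompact_CBox _ _
  set F : (Rd d → ℝ) → ℝ≥0∞ := fun φ => ⨆ y ∈ K, ENNReal.ofReal (Real.exp (φ y)) with hF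
  have hFm : MLip K F := C3b_mlip K
  set O : Rd d ≃ₗᵢ[ℝ] Rd d := LinearIsometryEquiv.refl ℝ (Rd d) with hO
  -- step 1: the event in terms of `F`
  have hsub : {ω | ∃ y ∈ CBox x (2 * dy (i + l)), a * (dy i * A.mu m) < dy (i + l) * Real.exp (E.hf i (i + m) ω y)} ⊆
      {ω | ENNReal.ofReal c < F (fun z => E.hf i (i + m) ω (x + dy i • O z))} := by
    rintro ω ⟨y, hy, hlt⟩
    have hz : (dy i)⁻¹ • (y - x) ∈ K := by
      intro j
      have h1 := hy j
      rw [dy_add] at h1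
      have h2 : ((dy i)⁻¹ • (y - x)) j - (0 : Rd d) j = (dy i)⁻¹ * (y j - x j) := by simp
      rw [h2, abs_mul, abs_of_pos (by positivity)]
      calc (dy i)⁻¹ * |y j - x j| ≤ (dy i)⁻¹ * (2 * (dy i * dy l)) := by gcongr
        _ = 2 * dy l := by field_simp
    have hxz : x + dy i • O ((dy i)⁻¹ • (y - x)) = y := by
      rw [hO, LinearIsometryEquiv.coe_refl, id, smul_smul, mul_inv_cancel₀ hdi.ne', one_smul]
      abel
    have h3 : c < Real.exp (E.hf i (i + m) ω y) := by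
      rw [hc, div_lt_iff₀ hdl]
      rw [dy_add] at hlt
      have h4 : dy i * (a * A.mu m) < dy i * (Real.exp (E.hf i (i + m) ω y) * dy l) := by
        calc dy i * (a * A.mu m) = a * (dy i * A.mu m) := by ring
          _ < dy i * dy l * Real.exp (E.hf i (i + m) ω y) := hlt
          _ = dy i * (Real.exp (E.hf i (i + m) ω y) * dy l) := by ring
      exact lt_of_mul_lt_mul_left h4 hdi.le
    show ENNReal.ofReal c < F (fun z => E.hf i (i + m) ω (x + dy i • O z))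
    calc ENNReal.ofReal c < ENNReal.ofReal (Real.exp (E.hf i (i + m) ω y)) :=
          (ENNReal.ofReal_lt_ofReal_iff (Real.exp_pos _)).mpr h3
      _ = ENNReal.ofReal (Real.exp (E.hf i (i + m) ω (x + dy i • O ((dy i)⁻¹ • (y - x))))) := by rw [hxz]
      _ ≤ F (fun z => E.hf i (i + m) ω (x + dy i • O z)) :=
          le_iSup₂ (f := fun z (_ : z ∈ K) => ENNReal.ofReal (Real.exp (E.hf i (i + m) ω (x + dy i • O z)))) _ hz
  -- step 2: the scaling law
  have hm1 : Measurable (fun ω => F (fun z => E.hf i (i + m) ω (x + dy i • O z))) := by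
    apply hFm.measurable hKc
    · intro ω
      have h0 : Continuous (fun z : Rd d => x + dy i • O z) := by
        have := O.continuous
        fun_prop
      exact (E.continuous_hf i (i + m) ω).comp h0
    · intro z _
      exact (E.measurable_hh i (i + m) _).const_mul E.ξ
  have hm2 : Measurable (fun ω => F (E.hf 0 m ω)) := by
    apply hFm.measurable hKc
    · intro ω
      exact E.continuous_hf 0 m ω
    · intro z _
      exact (E.measurable_hh 0 m _).const_mul E.ξ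
  have hlaw : E.P {ω | ENNReal.ofReal c < F (fun z => E.hf i (i + m) ω (x + dy i • O z))} =
      E.P {ω | ENNReal.ofReal c < F (E.hf 0 m ω)} := by
    have h1 := E.map_scale i m x O hKc hFm
    have h2 : E.P.map (fun ω => F (fun z => E.hf i (i + m) ω (x + dy i • O z))) (Ioi (ENNReal.ofReal c)) =
        E.P.map (fun ω => F (E.hf 0 m ω)) (Ioi (ENNReal.ofReal c)) := by rw [h1]
    rw [Measure.map_apply hm1 measurableSet_Ioi, Measure.map_apply hm2 measurableSet_Ioi] at h2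
    exact h2
  -- step 3: the coarse bound
  obtain ⟨U, hUm, hUle, hUmom⟩ := hsup m 0
  have hUm' : Measurable U := hUm.mono (E.LL_le m) le_rfl
  have hKsub : K ⊆ CBox (0 : Rd d) (32 * dy m) := by
    intro y hy j
    have h1 := hy j
    have h2 : dy (l + 4) ≤ dy m := dy_anti hml
    rw [dy_add] at h2
    have h3 : dy 4 = 1 / 16 := by unfold dy; norm_num
    rw [h3] at h2
    linarith
  have hFle : ∀ ω, F (E.hf 0 m ω) ≤ ENNReal.ofReal (Real.exp (U ω)) := by
    intro ω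
    refine iSup₂_le fun y hy => ?_
    exact ENNReal.ofReal_le_ofReal (Real.exp_le_exp.mpr (hUle ω y (hKsub hy)))
  have hcb : 0 < c ^ E.be := Real.rpow_pos_of_pos hc0 _
  have hsub2 : {ω | ENNReal.ofReal c < F (E.hf 0 m ω)} ⊆
      {ω | ENNReal.ofReal (c ^ E.be) ≤ ENNReal.ofReal (Real.exp (E.be * U ω))} := by
    intro ω hω
    have h1 : ENNReal.ofReal c < ENNReal.ofReal (Real.exp (U ω)) := lt_of_lt_of_le hω (hFle ω)
    have h2 : c < Real.exp (U ω) := (ENNReal.ofReal_lt_ofReal_iff (Real.exp_pos _)).mp h1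
    apply ENNReal.ofReal_le_ofReal
    calc c ^ E.be ≤ (Real.exp (U ω)) ^ E.be := Real.rpow_le_rpow hc0.le h2.le hbe.le
      _ = Real.exp (E.be * U ω) := by rw [← Real.exp_mul, mul_comm]
  have hmark : E.P {ω | ENNReal.ofReal (c ^ E.be) ≤ ENNReal.ofReal (Real.exp (E.be * U ω))} ≤
      ENNReal.ofReal (Cs E.be * (2 : ℝ) ^ ((E.ξ * E.be) ^ 2 * m / 2) / c ^ E.be) := by
    have hme : Measurable (fun ω => ENNReal.ofReal (Real.exp (E.be * U ω))) :=
      ENNReal.measurable_ofReal.comp (Real.measurable_exp.comp (hUm'.const_mul E.be))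
    have h1 := meas_ge_le_lintegral_div (μ := E.P) hme.aemeasurable
      (ε := ENNReal.ofReal (c ^ E.be)) (by simpa using hcb) ENNReal.ofReal_ne_top
    refine h1.trans ?_
    rw [ENNReal.ofReal_div_of_pos hcb]
    gcongr
    exact hUmom E.be hbe.le
  have hfin : E.P.real {ω | ∃ y ∈ CBox x (2 * dy (i + l)), a * (dy i * A.mu m) < dy (i + l) * Real.exp (E.hf i (i + m) ω y)} ≤
      Cs E.be * (2 : ℝ) ^ ((E.ξ * E.be) ^ 2 * m / 2) / c ^ E.be := by
    have hpos : 0 ≤ Cs E.be * (2 : ℝ) ^ ((E.ξ * E.be) ^ 2 * m / 2) / c ^ E.be := by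
      have := hCs E.be
      positivity
    refine ENNReal.toReal_le_of_le_ofReal hpos ?_
    calc E.P {ω | ∃ y ∈ CBox x (2 * dy (i + l)), a * (dy i * A.mu m) < dy (i + l) * Real.exp (E.hf i (i + m) ω y)}
        ≤ E.P {ω | ENNReal.ofReal c < F (fun z => E.hf i (i + m) ω (x + dy i • O z))} := measure_mono hsub
      _ = E.P {ω | ENNReal.ofReal c < F (E.hf 0 m ω)} := hlaw
      _ ≤ E.P {ω | ENNReal.ofReal (c ^ E.be) ≤ ENNReal.ofReal (Real.exp (E.be * U ω))} := measure_mono hsub2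
      _ ≤ _ := hmark
  refine hfin.trans ?_
  -- step 4: the numbers
  have hxb : (E.ξ * E.be) ^ 2 * m / 2 = (d : ℝ) * m := by
    have := E.xi_be_sq
    linear_combination (m : ℝ) * this
  have hc1 : (c ^ E.be)⁻¹ = a ^ (-E.be) * A.mu m ^ (-E.be) * (2 : ℝ) ^ (-(E.be * l)) := by
    rw [hc, ← Real.rpow_neg hc0.le, hc, Real.div_rpow (by positivity) hdl.le,
      Real.mul_rpow ha.le hmu.le, dy_eq_rpow, ← Real.rpow_mul (by norm_num), div_eq_mul_inv,
      ← Real.rpow_neg (by norm_num)]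
    congr 2
    ring
  have hmub : A.mu m ^ (-E.be) ≤ (2 : ℝ) ^ (E.al * E.be * m) * Real.exp (A.κ * E.be * m) := by
    have h1 : (2 : ℝ) ^ (-(E.al * m)) * Real.exp (-(A.κ * m)) ≤ A.mu m := A.le_mu m
    have h2 : A.mu m ^ (-E.be) ≤ ((2 : ℝ) ^ (-(E.al * m)) * Real.exp (-(A.κ * m))) ^ (-E.be) :=
      Real.rpow_le_rpow_of_nonpos (by positivity) h1 (by linarith)
    refine h2.trans (le_of_eq ?_)
    rw [Real.mul_rpow (by positivity) (by positivity), ← Real.rpow_mul (by norm_num), ← Real.exp_mul]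
    congr 2 <;> ring
  have hmR : (m : ℝ) ≤ l + 4 := by exact_mod_cast hml
  have hlR : (l : ℝ) ≤ m + 4 := by exact_mod_cast hlm
  have hexp : (2 : ℝ) ^ ((d : ℝ) * m) * (2 : ℝ) ^ (E.al * E.be * m) * (2 : ℝ) ^ (-(E.be * l)) ≤
      (2 : ℝ) ^ (4 * |E.be - d|) * (2 : ℝ) ^ (-((d : ℝ) * l)) := by
    rw [← Real.rpow_add (by norm_num), ← Real.rpow_add (by norm_num), ← Real.rpow_add (by norm_num)]
    apply Real.rpow_le_rpow_of_exponent_le (by norm_num)
    have h1 : (d : ℝ) * m + E.al * E.be * m + -(E.be * l) = (E.be - d) * ((m : ℝ) - l) + -((d : ℝ) * l) := by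
      have := E.al_mul_be
      linear_combination (m : ℝ) * this
    rw [h1]
    have h2 : (E.be - d) * ((m : ℝ) - l) ≤ |E.be - d| * 4 := by
      calc (E.be - d) * ((m : ℝ) - l) ≤ |(E.be - d) * ((m : ℝ) - l)| := le_abs_self _
        _ = |E.be - d| * |(m : ℝ) - l| := abs_mul _ _
        _ ≤ |E.be - d| * 4 := by
          gcongr
          rw [abs_le]
          constructor <;> linarith
    linarith
  have hexp2 : Real.exp (A.κ * E.be * m) ≤ Real.exp (4 * (A.κ * E.be)) * Real.exp (A.κ * E.be * l) := by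
    rw [← Real.exp_add]
    apply Real.exp_le_exp.mpr
    have := A.κ_pos
    have h1 : A.κ * E.be * m ≤ A.κ * E.be * (l + 4) := by gcongr
    linarith
  have hC0 := hCs E.be
  rw [hxb, div_eq_mul_inv, hc1]
  calc Cs E.be * (2 : ℝ) ^ ((d : ℝ) * m) * (a ^ (-E.be) * A.mu m ^ (-E.be) * (2 : ℝ) ^ (-(E.be * l)))
      ≤ Cs E.be * (2 : ℝ) ^ ((d : ℝ) * m) * (a ^ (-E.be) * ((2 : ℝ) ^ (E.al * E.be * m) * Real.exp (A.κ * E.be * m)) *
          (2 : ℝ) ^ (-(E.be * l))) := by gcongr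
    _ = Cs E.be * a ^ (-E.be) * ((2 : ℝ) ^ ((d : ℝ) * m) * (2 : ℝ) ^ (E.al * E.be * m) * (2 : ℝ) ^ (-(E.be * l))) *
          Real.exp (A.κ * E.be * m) := by ring
    _ ≤ Cs E.be * a ^ (-E.be) * ((2 : ℝ) ^ (4 * |E.be - d|) * (2 : ℝ) ^ (-((d : ℝ) * l))) *
          (Real.exp (4 * (A.κ * E.be)) * Real.exp (A.κ * E.be * l)) := by gcongr
    _ = Cs E.be * ((2 : ℝ) ^ (4 * |E.be - d|) * Real.exp (4 * (A.κ * E.be))) * a ^ (-E.be) *
          (2 : ℝ) ^ (-((d : ℝ) * l)) * Real.exp (A.κ * E.be * l) := by ring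


end Par
end MP_d19698_pr
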