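import Pool.Agent.Lib.MP_d19698_pr.C3b

/-! # C3c -/

open MeasureTheory ProbabilityTheory Filter Topology Set
open scoped ENNReal NNReal

namespace MP_d19698_pr
namespace Par
variable {d : ℕ} [NeZero d] {E : Env d} (A : Par E)

/-- summability of the weights -/
private theorem C3c_summable (b : ℝ) :
    Summable (fun l : ℕ => ((l : ℝ) + 1) ^ (2 * b) * (2 : ℝ) ^ (-(3 / 4 * (l : ℝ)))) := by
  set r : ℝ := (2 : ℝ) ^ (-(3 / 4 : ℝ)) with hr
  have hr0 : 0 < r := Real.rpow_pos_of_pos (by norm_num) _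
  have hr1 : r < 1 := Real.rpow_lt_one_of_one_lt_of_neg (by norm_num) (by norm_num)
  have hrn : ‖r‖ < 1 := by rwa [Real.norm_of_nonneg hr0.le]
  have h1 := summable_pow_mul_geometric_of_norm_lt_one (⌈2 * b⌉₊) hrn
  have h2 := (summable_nat_add_iff (f := fun n : ℕ => (n : ℝ) ^ ⌈2 * b⌉₊ * r ^ n) 1).2 h1
  have h3 := h2.mul_right r⁻¹
  refine Summable.of_nonneg_of_le (fun l => by positivity) (fun l => ?_) h3
  have e1 : (2 : ℝ) ^ (-(3 / 4 * (l : ℝ))) = r ^ l := by
    rw [hr, ← Real.rpow_natCast, ← Real.rpow_mul (by norm_num)]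
    congr 1
    ring
  have e2 : ((l : ℝ) + 1) ^ (2 * b) ≤ ((l : ℝ) + 1) ^ ⌈2 * b⌉₊ := by
    rw [← Real.rpow_natCast]
    apply Real.rpow_le_rpow_of_exponent_le
    · have : (0 : ℝ) ≤ l := by positivity
      linarith
    · exact Nat.le_ceil _
  rw [e1]
  push_cast
  calc ((l : ℝ) + 1) ^ (2 * b) * r ^ l ≤ ((l : ℝ) + 1) ^ ⌈2 * b⌉₊ * r ^ l := by gcongr
    _ = ((l : ℝ) + 1) ^ ⌈2 * b⌉₊ * r ^ (l + 1) * r⁻¹ := by
        rw [pow_succ]
        field_simp

/-- `∑ 1/(l+1)^2 ≤ 1` over `5 ≤ l ≤ L` -/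
private theorem C3c_sum_sq (L : ℕ) : ∑ l ∈ Finset.Icc 5 L, 1 / ((l : ℝ) + 1) ^ 2 ≤ 1 := by
  have h : ∀ L : ℕ, ∑ l ∈ Finset.Icc 5 L, 1 / ((l : ℝ) + 1) ^ 2 ≤ 1 - 1 / ((L : ℝ) + 1) := by
    intro L
    induction L with
    | zero => simp
    | succ L ih =>
      by_cases hL : 5 ≤ L + 1
      · rw [Finset.sum_Icc_succ_top hL]
        have h1 : 1 / (((L + 1 : ℕ) : ℝ) + 1) ^ 2 ≤ 1 / ((L : ℝ) + 1) - 1 / (((L + 1 : ℕ) : ℝ) + 1) := by
          push_cast
          have hL0 : (0 : ℝ) ≤ L := by positivity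
          rw [div_sub_div _ _ (by positivity) (by positivity), div_le_div_iff₀ (by positivity) (by positivity)]
          nlinarith
        linarith
      · rw [Finset.Icc_eq_empty (by omega), Finset.sum_empty]
        have : 1 / (((L + 1 : ℕ) : ℝ) + 1) ≤ 1 := by
          rw [div_le_one (by positivity)]
          push_cast
          have : (0 : ℝ) ≤ L := by positivity
          linarith
        linarith
  have h0 : 0 ≤ 1 / ((L : ℝ) + 1) := by positivity
  linarith [h L]

private theorem C3c_norm_le (v : Rd d) {r : ℝ} (hr : 0 ≤ r) (h : ∀ i, |v i| ≤ r) : ‖v‖ ≤ d * r := by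
  rw [EuclideanSpace.norm_eq]
  have h1 : ∑ i, ‖v i‖ ^ 2 ≤ (d * r) ^ 2 := by
    calc ∑ i, ‖v i‖ ^ 2 ≤ ∑ _i : Fin d, r ^ 2 := by
          refine Finset.sum_le_sum fun i _ => ?_
          rw [Real.norm_eq_abs]
          have := h i
          gcongr
      _ = d * r ^ 2 := by
          rw [Finset.sum_const, Finset.card_univ, Fintype.card_fin, nsmul_eq_mul]
      _ ≤ (d * r) ^ 2 := by
          have hd1 : (1 : ℝ) ≤ d := by
            have : 1 ≤ d := Nat.one_le_iff_ne_zero.2 (NeZero.ne d)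
            exact_mod_cast this
          rw [mul_pow]
          have : (d : ℝ) ≤ (d : ℝ) ^ 2 := by nlinarith
          nlinarith [sq_nonneg r]
  calc Real.sqrt (∑ i, ‖v i‖ ^ 2) ≤ Real.sqrt ((d * r) ^ 2) := Real.sqrt_le_sqrt h1
    _ = d * r := Real.sqrt_sq (by positivity)

omit [NeZero d] in
/-- coordinates along a segment -/
private theorem C3c_segment {x y z : Rd d} (hz : z ∈ segment ℝ x y) {r : ℝ} (h : ∀ i, |y i - x i| ≤ r) (i : Fin d) :
    |z i - x i| ≤ r := by
  obtain ⟨a, b, ha, hb, hab, rfl⟩ := hz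
  rw [PiLp.add_apply, PiLp.smul_apply, PiLp.smul_apply, smul_eq_mul, smul_eq_mul]
  have e : a * x i + b * y i - x i = b * (y i - x i) := by
    rw [show a = 1 - b by linarith]
    ring
  rw [e, abs_mul, abs_of_nonneg hb]
  have h1 := h i
  have h2 := abs_nonneg (y i - x i)
  nlinarith

omit [NeZero d] in
/-- the geometric factor: `2^{(d-1) l} 2^{-d(p+l)} e^{κβ(p+l)} ≤ 2^{-dp} e^{κβp} 2^{-3l/4}` -/
private theorem C3c_factor (hd : 1 ≤ d) (p l : ℕ) {kb : ℝ} (hkb : kb ≤ Real.log 2 / 4) :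
    (2 : ℝ) ^ ((d - 1) * l) * ((2 : ℝ) ^ (-((d : ℝ) * ((p + l : ℕ) : ℝ))) * Real.exp (kb * ((p + l : ℕ) : ℝ))) ≤
      ((2 : ℝ) ^ (-((d : ℝ) * p)) * Real.exp (kb * p)) * (2 : ℝ) ^ (-(3 / 4 * (l : ℝ))) := by
  have e1 : (2 : ℝ) ^ ((d - 1) * l) = (2 : ℝ) ^ (((d : ℝ) - 1) * l) := by
    rw [← Real.rpow_natCast]
    congr 1
    push_cast [Nat.cast_sub hd]
    ring
  have e2 : (2 : ℝ) ^ (-((d : ℝ) * ((p + l : ℕ) : ℝ))) = (2 : ℝ) ^ (-((d : ℝ) * p)) * (2 : ℝ) ^ (-((d : ℝ) * l)) := by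
    rw [← Real.rpow_add (by norm_num)]
    congr 1
    push_cast
    ring
  have e3 : Real.exp (kb * ((p + l : ℕ) : ℝ)) = Real.exp (kb * p) * Real.exp (kb * l) := by
    rw [← Real.exp_add]
    congr 1
    push_cast
    ring
  have e4 : Real.exp (kb * l) ≤ (2 : ℝ) ^ ((l : ℝ) / 4) := by
    rw [Real.rpow_def_of_pos (by norm_num)]
    apply Real.exp_le_exp.2
    have : (0 : ℝ) ≤ l := by positivity
    nlinarith
  rw [e1, e2, e3]
  calc (2 : ℝ) ^ (((d : ℝ) - 1) * l) * ((2 : ℝ) ^ (-((d : ℝ) * p)) * (2 : ℝ) ^ (-((d : ℝ) * l)) *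
        (Real.exp (kb * p) * Real.exp (kb * l)))
      ≤ (2 : ℝ) ^ (((d : ℝ) - 1) * l) * ((2 : ℝ) ^ (-((d : ℝ) * p)) * (2 : ℝ) ^ (-((d : ℝ) * l)) *
        (Real.exp (kb * p) * (2 : ℝ) ^ ((l : ℝ) / 4))) := by gcongr
    _ = ((2 : ℝ) ^ (-((d : ℝ) * p)) * Real.exp (kb * p)) *
        ((2 : ℝ) ^ (((d : ℝ) - 1) * l) * (2 : ℝ) ^ (-((d : ℝ) * l)) * (2 : ℝ) ^ ((l : ℝ) / 4)) := by ring
    _ = _ := by
        congr 1
        rw [← Real.rpow_add (by norm_num), ← Real.rpow_add (by norm_num)]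
        congr 1
        ring

/-- **Sphere tail** (4.1), (4.2). Field levels `[i, n)`, `i ≤ j ≤ n`, sphere of radius `R_0 2^{-j}` about `x`:
`P[sig(h_{i,n}, x, j) > a 2^{-i} μ_{n-i}] ≤ C a^{-β} 2^{-d(j-i)} e^{κβ(j-i)}`.
Proof: `sphere_chain` with `L = max 4 (n-j)`, thresholds `a_l = c a/(l+1)^2` for the edges of level `j + l` (if `j + l ≤ n`: `edge_tail`; the finitely many levels `j + l > n` with `l ≤ 4` only occur for
`n - j < 4`: use straight edges and `last_step`), and `last_step` for the last step at level `j + L`; union bound with `sphV_card`, `sphE_card`: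
`∑_l C 2^{(d-1)l} (l+1)^{2β} a^{-β} 2^{-d(j-i+l)} e^{κβ(j-i+l)}`, and `2^{-l} e^{κβ l} ≤ 2^{-3l/4}`. -/
theorem sphere_tail : ∃ C : ℝ, 0 < C ∧ ∀ (i j n : ℕ), i ≤ j → j ≤ n → ∀ (x : Rd d) (a : ℝ), 0 < a →
    E.P.real {ω | ENNReal.ofReal (a * (dy i * A.mu (n - i))) < sig E.R0 (E.hf i n ω) x j} ≤
      C * a ^ (-E.be) * (2 : ℝ) ^ (-((d : ℝ) * ((j - i : ℕ) : ℝ))) * Real.exp (A.κ * E.be * ((j - i : ℕ) : ℝ)) := by
  classical
  have hbe := E.be_pos
  have hd2 : 2 ≤ d := E.hd
  have hd1 : 1 ≤ d := by omega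
  have hd0 : (0 : ℝ) < d := by exact_mod_cast hd1
  have hd1r : (1 : ℝ) ≤ d := by exact_mod_cast hd1
  have hκβ := A.κβ
  obtain ⟨C1, hC1, hedge⟩ := A.edge_tail
  obtain ⟨C2, hC2, hlast⟩ := A.last_step
  set R : ℕ := E.R0 with hR
  have hR1 : 1 ≤ R := by
    rw [hR]
    unfold Env.R0
    omega
  have hRr : (1 : ℝ) ≤ R := by exact_mod_cast hR1
  set C0 : ℝ := C1 + C2 with hC0
  have hC0p : 0 < C0 := by positivity
  set w : ℝ := 1 / (16 * d * R) with hw
  have hwp : 0 < w := by positivity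
  set S : ℝ := ∑' l : ℕ, ((l : ℝ) + 1) ^ (2 * E.be) * (2 : ℝ) ^ (-(3 / 4 * (l : ℝ))) with hS
  have hSsum := C3c_summable E.be
  have hS0 : 0 ≤ S := tsum_nonneg fun l => by positivity
  set KE : ℝ := 2 * d ^ 2 * (2 * R + 1) ^ (d - 1) with hKE
  set KV : ℝ := 2 * d * (2 * R + 1) ^ (d - 1) with hKV
  have hKEp : 0 < KE := by positivity
  have hKVp : 0 < KV := by positivity
  refine ⟨KE * C0 * w ^ (-E.be) * S + KV * C0 * (1 / (8 * d)) ^ (-E.be), by positivity, ?_⟩
  intro i j n hij hjn x a ha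
  obtain ⟨p, rfl⟩ := Nat.exists_eq_add_of_le hij
  obtain ⟨q, rfl⟩ := Nat.exists_eq_add_of_le hjn
  have hni : i + p + q - i = p + q := by omega
  have hji : i + p - i = p := by omega
  rw [hni, hji]
  set m : ℕ := p + q with hm
  have hn : i + p + q = i + m := by omega
  rw [hn]
  set j : ℕ := i + p with hj
  set L : ℕ := max 4 q with hL
  have hL4 : 4 ≤ L := le_max_left _ _
  have hmu := A.mu_pos m
  have hdyi := dy_pos i
  have hT : 0 < dy i * A.mu m := by positivity
  set G : ℝ := (2 : ℝ) ^ (-((d : ℝ) * p)) * Real.exp (A.κ * E.be * p) with hG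
  have hGp : 0 < G := by positivity
  -- thresholds
  set al : ℕ → ℝ := fun l => a * w / ((l : ℝ) + 1) ^ 2 with hal
  have halp : ∀ l, 0 < al l := fun l => by positivity
  -- events
  set Ev : ℕ → ((Fin d → ℤ) × Fin d) → Set E.Ω := fun l e =>
    {ω | ENNReal.ofReal (al l * (dy i * A.mu m)) < E.Edg i (i + m) (j + l) ω (x + latt (j + l) e.1) e.2 2} with hEv
  set La : (Fin d → ℤ) → Set E.Ω := fun v =>
    {ω | ∃ y ∈ CBox (x + latt (j + L) v) (2 * dy (j + L)), a / (8 * d) * (dy i * A.mu m) < dy (j + L) * Real.exp (E.hf i (i + m) ω y)} with hLa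
  -- straight edges
  have hstraight : ∀ (l : ℕ) (b : ℝ), 0 < b → ∀ (y : Rd d) (k : Fin d) (ω : E.Ω),
      ENNReal.ofReal (b * (dy i * A.mu m)) < E.Edg i (i + m) (j + l) ω y k 2 →
      ∃ z ∈ CBox y (2 * dy (j + l)), b * (dy i * A.mu m) < dy (j + l) * Real.exp (E.hf i (i + m) ω z) := by
    intro l b hb y k ω hω
    by_contra hcon
    push Not at hcon
    have hdyl := dy_pos (j + l)
    apply absurd hω
    rw [not_lt]
    have hseg : ∀ z ∈ segment ℝ y (y + dy (j + l) • ee k), ∀ s, |z s - y s| ≤ dy (j + l) := by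
      intro z hz s
      refine C3c_segment hz ?_ s
      intro s
      rw [PiLp.add_apply, PiLp.smul_apply, smul_eq_mul, add_sub_cancel_left, abs_mul, abs_of_pos hdyl]
      have : |(ee k : Rd d) s| ≤ 1 := by
        by_cases hs : s = k
        · simp [ee, hs]
        · simp [ee, hs]
      nlinarith
    set Mx : ℝ := Real.log (b * (dy i * A.mu m) / dy (j + l)) with hMx
    have hexp : Real.exp Mx = b * (dy i * A.mu m) / dy (j + l) := Real.exp_log (by positivity)
    have h1 := D_seg (E.hf i (i + m) ω) (x := y) (y := y + dy (j + l) • ee k) (U := Box y (2 * dy (j + l))) (M := Mx) (by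
      intro z hz s
      have := hseg z hz s
      linarith) (by
      intro z hz
      have h2 := hcon z (fun s => by
        have := hseg z hz s
        linarith)
      have h3 : Real.exp (E.hf i (i + m) ω z) ≤ Real.exp Mx := by
        rw [hexp, le_div_iff₀ hdyl]
        linarith
      exact Real.exp_le_exp.1 h3)
    have hnorm : ‖y - (y + dy (j + l) • (ee k : Rd d))‖ = dy (j + l) := by
      rw [sub_add_cancel_left, norm_neg, norm_smul, Real.norm_of_nonneg hdyl.le]
      simp [ee]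
    rw [hnorm, hexp, div_mul_cancel₀ _ hdyl.ne'] at h1
    exact h1
  -- probability of the edge events
  have hPE : ∀ l, 4 ≤ l → l ≤ L → ∀ e, E.P.real (Ev l e) ≤
      C0 * (al l) ^ (-E.be) * (2 : ℝ) ^ (-((d : ℝ) * ((p + l : ℕ) : ℝ))) * Real.exp (A.κ * E.be * ((p + l : ℕ) : ℝ)) := by
    intro l hl4 hlL e
    have hpos : 0 ≤ (al l) ^ (-E.be) * (2 : ℝ) ^ (-((d : ℝ) * ((p + l : ℕ) : ℝ))) * Real.exp (A.κ * E.be * ((p + l : ℕ) : ℝ)) := by
      have := halp l
      positivity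
    by_cases hq : l ≤ q
    · have h1 := hedge i m (p + l) (by omega) (x + latt (j + l) e.1) e.2 (al l) (halp l)
      have hjl : i + (p + l) = j + l := by omega
      rw [hjl] at h1
      refine h1.trans ?_
      rw [hC0]
      nlinarith
    · have hl : l = 4 := by
        rw [hL] at hlL
        rcases le_max_iff.1 hlL with h | h
        · omega
        · exact absurd h hq
      have h1 := hlast i m (p + l) (by omega) (by omega) (x + latt (j + l) e.1) (al l) (halp l)
      have hjl : i + (p + l) = j + l := by omega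
      rw [hjl] at h1
      have h2 : Ev l e ⊆ {ω | ∃ y ∈ CBox (x + latt (j + l) e.1) (2 * dy (j + l)),
          al l * (dy i * A.mu m) < dy (j + l) * Real.exp (E.hf i (i + m) ω y)} := by
        intro ω hω
        exact hstraight l (al l) (halp l) _ _ ω hω
      refine (measureReal_mono h2).trans (h1.trans ?_)
      rw [hC0]
      nlinarith
  have hPL : ∀ v, E.P.real (La v) ≤ C0 * (a / (8 * d)) ^ (-E.be) * (2 : ℝ) ^ (-((d : ℝ) * ((p + L : ℕ) : ℝ))) *
      Real.exp (A.κ * E.be * ((p + L : ℕ) : ℝ)) := by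
    intro v
    have hLq : L ≤ q + 4 := by
      rw [hL]
      exact max_le (by omega) (by omega)
    have hqL : q ≤ L := le_max_right _ _
    have h1 := hlast i m (p + L) (by omega) (by omega) (x + latt (j + L) v) (a / (8 * d)) (by positivity)
    have hjl : i + (p + L) = j + L := by omega
    rw [hjl] at h1
    refine h1.trans ?_
    have hpos : 0 ≤ (a / (8 * d)) ^ (-E.be) * (2 : ℝ) ^ (-((d : ℝ) * ((p + L : ℕ) : ℝ))) * Real.exp (A.κ * E.be * ((p + L : ℕ) : ℝ)) := by
      positivity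
    rw [hC0]
    nlinarith
  -- finite sets
  have hEfin := fun l => sphE_card (d := d) hd1 R hR1 l
  have hVfin := sphV_card (d := d) hd1 R hR1 L
  -- inclusion
  have hincl : {ω | ENNReal.ofReal (a * (dy i * A.mu m)) < sig R (E.hf i (i + m) ω) x j} ⊆
      (⋃ l ∈ Finset.Icc 4 L, ⋃ e ∈ (hEfin l).1.toFinset, Ev l e) ∪ ⋃ v ∈ hVfin.1.toFinset, La v := by
    intro ω hω
    by_contra hcon
    simp only [Set.mem_union, Set.mem_iUnion, not_or, not_exists, Set.Finite.mem_toFinset] at hcon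
    obtain ⟨h1, h2⟩ := hcon
    apply absurd hω
    rw [Set.mem_ofPred_eq, not_lt]
    have hc := sphere_chain hd2 hR1 (E.hf i (i + m) ω) x j L hL4 (fun l => ENNReal.ofReal (al l * (dy i * A.mu m)))
      (ENNReal.ofReal (a / 8 * (dy i * A.mu m))) (by
        intro l hl4 hlL e he
        have h3 := h1 l (Finset.mem_Icc.2 ⟨hl4, hlL⟩) e he
        exact not_lt.1 h3) (by
        intro v hv y hy hyv
        have h3 := h2 v hv
        have h4 : ∀ z ∈ CBox (x + latt (j + L) v) (2 * dy (j + L)), dy (j + L) * Real.exp (E.hf i (i + m) ω z) ≤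
            a / (8 * d) * (dy i * A.mu m) := by
          intro z hz
          by_contra h5
          exact h3 ⟨z, hz, not_le.1 h5⟩
        have hdyl := dy_pos (j + L)
        have hdyj := dy_pos j
        have hdyjL : dy (j + L) ≤ dy j / 16 := by
          rw [dy_add]
          have h6 : dy L ≤ dy 4 := dy_anti hL4
          have h7 : dy 4 = 1 / 16 := by
            unfold dy
            norm_num
          rw [h7] at h6
          nlinarith
        set pt : Rd d := x + latt (j + L) v with hpt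
        have hseg : ∀ z ∈ segment ℝ pt y, ∀ s, |z s - pt s| ≤ dy (j + L) := by
          intro z hz s
          exact C3c_segment hz hyv s
        have hptx : ∀ s, pt s - x s = dy (j + L) * (v s : ℝ) := by
          intro s
          rw [hpt, PiLp.add_apply, latt_apply, add_sub_cancel_left]
        have hscale : dy (j + L) * ((R : ℝ) * 2 ^ L) = R * dy j := by
          rw [dy_add]
          have := two_pow_mul_dy L
          linear_combination (R : ℝ) * dy j * this
        have hptle : ∀ s, |pt s - x s| ≤ R * dy j := by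
          intro s
          rw [hptx, abs_mul, abs_of_pos hdyl, ← hscale]
          have h8 := hv.1 s
          have h9 : |(v s : ℝ)| ≤ (R : ℝ) * 2 ^ L := by exact_mod_cast h8
          gcongr
        obtain ⟨s0, hs0⟩ := hv.2
        have hpteq : |pt s0 - x s0| = R * dy j := by
          rw [hptx, abs_mul, abs_of_pos hdyl, ← hscale]
          have h9 : |(v s0 : ℝ)| = (R : ℝ) * 2 ^ L := by exact_mod_cast hs0
          rw [h9]
        set Mx : ℝ := Real.log (a / (8 * d) * (dy i * A.mu m) / dy (j + L)) with hMx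
        have hexp : Real.exp Mx = a / (8 * d) * (dy i * A.mu m) / dy (j + L) := Real.exp_log (by positivity)
        have h10 := D_seg (E.hf i (i + m) ω) (x := pt) (y := y) (U := Shell R x j) (M := Mx) (by
          intro z hz
          constructor
          · intro s
            have h11 := hseg z hz s
            have h12 := hptle s
            have h13 := abs_add_le (z s - pt s) (pt s - x s)
            rw [sub_add_sub_cancel] at h13
            nlinarith
          · intro hcb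
            have h11 := hseg z hz s0
            have h12 := hcb s0
            have h13 := abs_add_le (pt s0 - z s0) (z s0 - x s0)
            rw [sub_add_sub_cancel, hpteq, abs_sub_comm] at h13
            nlinarith) (by
          intro z hz
          have h11 := h4 z (fun s => by
            have := hseg z hz s
            linarith)
          have h12 : Real.exp (E.hf i (i + m) ω z) ≤ Real.exp Mx := by
            rw [hexp, le_div_iff₀ hdyl]
            linarith
          exact Real.exp_le_exp.1 h12)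
        refine h10.trans (ENNReal.ofReal_le_ofReal ?_)
        have hnorm : ‖pt - y‖ ≤ d * dy (j + L) := by
          apply C3c_norm_le _ hdyl.le
          intro s
          rw [PiLp.sub_apply, abs_sub_comm]
          exact hyv s
        rw [hexp]
        calc a / (8 * d) * (dy i * A.mu m) / dy (j + L) * ‖pt - y‖
            ≤ a / (8 * d) * (dy i * A.mu m) / dy (j + L) * (d * dy (j + L)) := by gcongr
          _ = a / 8 * (dy i * A.mu m) := by field_simp)
    refine hc.trans ?_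
    -- the sum of the thresholds
    have e1 : ∑ l ∈ Finset.Icc 5 L, ENNReal.ofReal (al l * (dy i * A.mu m)) =
        ENNReal.ofReal (∑ l ∈ Finset.Icc 5 L, al l * (dy i * A.mu m)) :=
      (ENNReal.ofReal_sum_of_nonneg (fun l _ => by have := halp l; positivity)).symm
    have e2 : (2 * (d : ℝ≥0∞)) = ENNReal.ofReal (2 * d) := by
      rw [ENNReal.ofReal_mul (by norm_num), ENNReal.ofReal_ofNat, ENNReal.ofReal_natCast]
    have e3 : (64 * (d : ℝ≥0∞) * (R : ℝ≥0∞)) = ENNReal.ofReal (64 * d * R) := by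
      rw [ENNReal.ofReal_mul (by positivity), ENNReal.ofReal_mul (by norm_num), ENNReal.ofReal_ofNat,
        ENNReal.ofReal_natCast, ENNReal.ofReal_natCast]
    have e4 : (2 : ℝ≥0∞) = ENNReal.ofReal 2 := by rw [ENNReal.ofReal_ofNat]
    rw [e1, e2, e3]
    nth_rewrite 1 [e4]
    rw [← ENNReal.ofReal_mul (by norm_num), ← ENNReal.ofReal_mul (by positivity), ← ENNReal.ofReal_mul (by positivity),
      ← ENNReal.ofReal_add (by positivity) (by
        have : 0 ≤ ∑ l ∈ Finset.Icc 5 L, al l * (dy i * A.mu m) :=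
          Finset.sum_nonneg fun l _ => by have := halp l; positivity
        positivity), ← ENNReal.ofReal_add (by
        have : 0 ≤ ∑ l ∈ Finset.Icc 5 L, al l * (dy i * A.mu m) :=
          Finset.sum_nonneg fun l _ => by have := halp l; positivity
        positivity) (by have := halp 4; positivity)]
    apply ENNReal.ofReal_le_ofReal
    have e5 : ∑ l ∈ Finset.Icc 5 L, al l * (dy i * A.mu m) = a * w * (dy i * A.mu m) * ∑ l ∈ Finset.Icc 5 L, 1 / ((l : ℝ) + 1) ^ 2 := by
      rw [Finset.mul_sum]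
      refine Finset.sum_congr rfl fun l _ => ?_
      simp only [hal]
      ring
    have e6 : 2 * (d : ℝ) * (a * w * (dy i * A.mu m) * ∑ l ∈ Finset.Icc 5 L, 1 / ((l : ℝ) + 1) ^ 2) ≤ 1 / 8 * (a * (dy i * A.mu m)) := by
      have h5 := C3c_sum_sq L
      have h6 : 2 * (d : ℝ) * w ≤ 1 / 8 := by
        rw [hw, mul_one_div, div_le_div_iff₀ (by positivity) (by norm_num)]
        nlinarith
      calc 2 * (d : ℝ) * (a * w * (dy i * A.mu m) * ∑ l ∈ Finset.Icc 5 L, 1 / ((l : ℝ) + 1) ^ 2)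
          = (2 * (d : ℝ) * w) * (a * (dy i * A.mu m)) * ∑ l ∈ Finset.Icc 5 L, 1 / ((l : ℝ) + 1) ^ 2 := by ring
        _ ≤ (1 / 8) * (a * (dy i * A.mu m)) * 1 := by gcongr
        _ = 1 / 8 * (a * (dy i * A.mu m)) := by ring
    have e7 : 64 * (d : ℝ) * R * (al 4 * (dy i * A.mu m)) = 4 / 25 * (a * (dy i * A.mu m)) := by
      simp only [hal, hw]
      push_cast
      field_simp
      norm_num
    rw [e5, e7]
    have h7 : 0 < a * (dy i * A.mu m) := by positivity
    nlinarith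
  -- the union bound
  have hsumE : ∀ l ∈ Finset.Icc 4 L, E.P.real (⋃ e ∈ (hEfin l).1.toFinset, Ev l e) ≤
      KE * C0 * w ^ (-E.be) * a ^ (-E.be) * G * (((l : ℝ) + 1) ^ (2 * E.be) * (2 : ℝ) ^ (-(3 / 4 * (l : ℝ)))) := by
    intro l hl
    obtain ⟨hl4, hlL⟩ := Finset.mem_Icc.1 hl
    refine (measureReal_biUnion_finset_le _ _).trans ?_
    refine (Finset.sum_le_sum fun e _ => hPE l hl4 hlL e).trans ?_
    rw [Finset.sum_const, nsmul_eq_mul]
    have hcard : (((hEfin l).1.toFinset.card : ℕ) : ℝ) ≤ KE * 2 ^ ((d - 1) * l) := by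
      have h1 := (hEfin l).2
      rw [Set.ncard_eq_toFinset_card _ (hEfin l).1] at h1
      exact h1
    have hal' : (al l) ^ (-E.be) = a ^ (-E.be) * w ^ (-E.be) * ((l : ℝ) + 1) ^ (2 * E.be) := by
      have e1 : al l = a * w * (((l : ℝ) + 1) ^ (2 : ℝ))⁻¹ := by
        simp only [hal]
        rw [Real.rpow_two]
        rfl
      rw [e1, Real.mul_rpow (by positivity) (by positivity), Real.mul_rpow ha.le hwp.le,
        Real.inv_rpow (by positivity), ← Real.rpow_mul (by positivity), ← Real.rpow_neg (by positivity)]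
      congr 2
      ring
    have hfac := C3c_factor (d := d) hd1 p l hκβ
    have hposr : 0 ≤ C0 * (a ^ (-E.be) * w ^ (-E.be) * ((l : ℝ) + 1) ^ (2 * E.be)) * KE := by positivity
    calc (((hEfin l).1.toFinset.card : ℕ) : ℝ) * (C0 * (al l) ^ (-E.be) * (2 : ℝ) ^ (-((d : ℝ) * ((p + l : ℕ) : ℝ))) *
          Real.exp (A.κ * E.be * ((p + l : ℕ) : ℝ)))
        ≤ (KE * 2 ^ ((d - 1) * l)) * (C0 * (al l) ^ (-E.be) * (2 : ℝ) ^ (-((d : ℝ) * ((p + l : ℕ) : ℝ))) *
          Real.exp (A.κ * E.be * ((p + l : ℕ) : ℝ))) := by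
          have := halp l
          gcongr
      _ = (C0 * (a ^ (-E.be) * w ^ (-E.be) * ((l : ℝ) + 1) ^ (2 * E.be)) * KE) * ((2 : ℝ) ^ ((d - 1) * l) *
          ((2 : ℝ) ^ (-((d : ℝ) * ((p + l : ℕ) : ℝ))) * Real.exp (A.κ * E.be * ((p + l : ℕ) : ℝ)))) := by
          rw [hal']
          ring
      _ ≤ (C0 * (a ^ (-E.be) * w ^ (-E.be) * ((l : ℝ) + 1) ^ (2 * E.be)) * KE) * (((2 : ℝ) ^ (-((d : ℝ) * p)) *
          Real.exp (A.κ * E.be * p)) * (2 : ℝ) ^ (-(3 / 4 * (l : ℝ)))) := mul_le_mul_of_nonneg_left hfac hposr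
      _ = _ := by
          rw [hG]
          ring
  have hsumL : E.P.real (⋃ v ∈ hVfin.1.toFinset, La v) ≤ KV * C0 * (1 / (8 * d)) ^ (-E.be) * a ^ (-E.be) * G := by
    refine (measureReal_biUnion_finset_le _ _).trans ?_
    refine (Finset.sum_le_sum fun v _ => hPL v).trans ?_
    rw [Finset.sum_const, nsmul_eq_mul]
    have hcard : ((hVfin.1.toFinset.card : ℕ) : ℝ) ≤ KV * 2 ^ ((d - 1) * L) := by
      have h1 := hVfin.2
      rw [Set.ncard_eq_toFinset_card _ hVfin.1] at h1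
      exact h1
    have hfac := C3c_factor (d := d) hd1 p L hκβ
    have hle1 : (2 : ℝ) ^ (-(3 / 4 * (L : ℝ))) ≤ 1 := by
      apply Real.rpow_le_one_of_one_le_of_nonpos (by norm_num)
      have : (0 : ℝ) ≤ L := by positivity
      linarith
    have ha8 : (a / (8 * d)) ^ (-E.be) = (1 / (8 * (d : ℝ))) ^ (-E.be) * a ^ (-E.be) := by
      rw [← Real.mul_rpow (by positivity) ha.le]
      congr 1
      ring
    have hposr : 0 ≤ C0 * ((1 / (8 * (d : ℝ))) ^ (-E.be) * a ^ (-E.be)) * KV := by positivity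
    calc ((hVfin.1.toFinset.card : ℕ) : ℝ) * (C0 * (a / (8 * d)) ^ (-E.be) * (2 : ℝ) ^ (-((d : ℝ) * ((p + L : ℕ) : ℝ))) *
          Real.exp (A.κ * E.be * ((p + L : ℕ) : ℝ)))
        ≤ (KV * 2 ^ ((d - 1) * L)) * (C0 * (a / (8 * d)) ^ (-E.be) * (2 : ℝ) ^ (-((d : ℝ) * ((p + L : ℕ) : ℝ))) *
          Real.exp (A.κ * E.be * ((p + L : ℕ) : ℝ))) := by
          gcongr
      _ = (C0 * ((1 / (8 * (d : ℝ))) ^ (-E.be) * a ^ (-E.be)) * KV) * ((2 : ℝ) ^ ((d - 1) * L) *
          ((2 : ℝ) ^ (-((d : ℝ) * ((p + L : ℕ) : ℝ))) * Real.exp (A.κ * E.be * ((p + L : ℕ) : ℝ)))) := by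
          rw [ha8]
          ring
      _ ≤ (C0 * ((1 / (8 * (d : ℝ))) ^ (-E.be) * a ^ (-E.be)) * KV) * (((2 : ℝ) ^ (-((d : ℝ) * p)) *
          Real.exp (A.κ * E.be * p)) * (2 : ℝ) ^ (-(3 / 4 * (L : ℝ)))) := mul_le_mul_of_nonneg_left hfac hposr
      _ ≤ (C0 * ((1 / (8 * (d : ℝ))) ^ (-E.be) * a ^ (-E.be)) * KV) * (((2 : ℝ) ^ (-((d : ℝ) * p)) *
          Real.exp (A.κ * E.be * p)) * 1) := by gcongr
      _ = _ := by
          rw [hG]
          ring
  calc E.P.real {ω | ENNReal.ofReal (a * (dy i * A.mu m)) < sig R (E.hf i (i + m) ω) x j}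
      ≤ E.P.real ((⋃ l ∈ Finset.Icc 4 L, ⋃ e ∈ (hEfin l).1.toFinset, Ev l e) ∪ ⋃ v ∈ hVfin.1.toFinset, La v) :=
        measureReal_mono hincl
    _ ≤ E.P.real (⋃ l ∈ Finset.Icc 4 L, ⋃ e ∈ (hEfin l).1.toFinset, Ev l e) + E.P.real (⋃ v ∈ hVfin.1.toFinset, La v) :=
        measureReal_union_le _ _
    _ ≤ KE * C0 * w ^ (-E.be) * a ^ (-E.be) * G * S + KV * C0 * (1 / (8 * d)) ^ (-E.be) * a ^ (-E.be) * G := by
        refine add_le_add ?_ hsumL
        refine (measureReal_biUnion_finset_le _ _).trans ?_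
        refine (Finset.sum_le_sum hsumE).trans ?_
        rw [← Finset.mul_sum]
        refine mul_le_mul_of_nonneg_left ?_ (by positivity)
        exact hSsum.sum_le_tsum _ (fun l _ => by positivity)
    _ = (KE * C0 * w ^ (-E.be) * S + KV * C0 * (1 / (8 * d)) ^ (-E.be)) * a ^ (-E.be) *
        (2 : ℝ) ^ (-((d : ℝ) * (p : ℝ))) * Real.exp (A.κ * E.be * (p : ℝ)) := by
        rw [hG]
        ring

end Par

end MP_d19698_pr
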