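import Pool.Agent.Lib.MP_d19698_pr.C3c
import Pool.Agent.Lib.MP_d19698_pr.A6c
import Pool.Agent.Lib.MP_d19698_pr.B9

/-!
# C4: submultiplicativity (section 5)
-/

open MeasureTheory ProbabilityTheory Filter Topology Set
open scoped ENNReal NNReal

namespace MP_d19698_pr

namespace Par

variable {d : ℕ} [NeZero d] {E : Env d} (A : Par E)

private theorem C4a_box (b k : ℕ) (hk : k < 2 ^ b) :
    Box (((k : ℝ) * dy b) • ee (0 : Fin d)) (5 / 4 * dy b) ⊆ Box (0 : Rd d) 2 := by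
  intro y hy i
  have h1 := hy i
  have hb : 0 < dy b := dy_pos b
  have hb1 : dy b ≤ 1 := dy_le_one b
  have hk1 : (k : ℝ) + 1 ≤ 2 ^ b := by exact_mod_cast hk
  have hk2 : ((k : ℝ) + 1) * dy b ≤ 1 := by
    have h2 := mul_le_mul_of_nonneg_right hk1 hb.le
    rwa [two_pow_mul_dy] at h2
  have hk0 : (0 : ℝ) ≤ (k : ℝ) * dy b := by positivity
  have h3 : |((((k : ℝ) * dy b) • ee (0 : Fin d)) : Rd d) i| ≤ (k : ℝ) * dy b := by
    have h4 := abs_le_norm ((((k : ℝ) * dy b) • ee (0 : Fin d)) : Rd d) i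
    refine h4.trans ?_
    rw [norm_smul, Real.norm_of_nonneg hk0]
    have h5 : ‖ee (0 : Fin d)‖ = 1 := by
      unfold ee
      simp
    rw [h5, mul_one]
  have h6 : y i - (0 : Rd d) i = y i := by simp
  rw [h6]
  have h7 : |y i| ≤ |y i - ((((k : ℝ) * dy b) • ee (0 : Fin d)) : Rd d) i| + |((((k : ℝ) * dy b) • ee (0 : Fin d)) : Rd d) i| := by
    have h8 := abs_add_le (y i - ((((k : ℝ) * dy b) • ee (0 : Fin d)) : Rd d) i) (((((k : ℝ) * dy b) • ee (0 : Fin d)) : Rd d) i)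
    simpa using h8
  nlinarith

/-- `λ*_{b+K} ≤ C_b μ_K`: straight line of `2^b` edges (domains `Box x_e (5/4 2^{-b}) ⊆ Box 0 2`), first moments, Markov. -/
theorem lam_add_le (b : ℕ) : ∃ C : ℝ, 0 < C ∧ ∀ K : ℕ, A.lam (b + K) ≤ C * A.mu K := by
  obtain ⟨C1, hC1, hmean⟩ := A.mean_le
  have hp2 := A.p2_pos
  obtain ⟨M, hM0, hM⟩ := E.abs_bound b 2 (half_pos hp2)
  refine ⟨Real.exp M * (2 / A.p2 * C1), by positivity, fun K => ?_⟩
  have hmu := A.mu_pos K
  refine E.lamQ_le (b + K) (by positivity) ?_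
  have hmeas : ∀ k : ℕ, Measurable (fun ω => E.Edg b (b + K) b ω (((k : ℝ) * dy b) • ee (0 : Fin d)) 0 (5 / 4)) := fun k =>
    (E.measurable_Edg b (b + K) b (((k : ℝ) * dy b) • ee (0 : Fin d)) 0 (5 / 4)
      (K := CBox (((k : ℝ) * dy b) • ee (0 : Fin d)) (5 / 4 * dy b)) subset_rfl).mono (E.FF_le _ _ _) le_rfl
  set S : E.Ω → ℝ≥0∞ := fun ω => ∑ k ∈ Finset.range (2 ^ b), E.Edg b (b + K) b ω (((k : ℝ) * dy b) • ee (0 : Fin d)) 0 (5 / 4) with hS
  have hSm : Measurable S := Finset.measurable_sum _ (fun k _ => hmeas k)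
  have hSint : ∫⁻ ω, S ω ∂E.P ≤ ENNReal.ofReal (C1 * A.mu K) := by
    have h1 : ∫⁻ ω, S ω ∂E.P = ∑ k ∈ Finset.range (2 ^ b), ∫⁻ ω, E.Edg b (b + K) b ω (((k : ℝ) * dy b) • ee (0 : Fin d)) 0 (5 / 4) ∂E.P := by
      rw [hS]
      exact lintegral_finsetSum _ (fun k _ => hmeas k)
    rw [h1]
    have h2 : ∀ k ∈ Finset.range (2 ^ b), ∫⁻ ω, E.Edg b (b + K) b ω (((k : ℝ) * dy b) • ee (0 : Fin d)) 0 (5 / 4) ∂E.P ≤
        ENNReal.ofReal (dy b) * ENNReal.ofReal (C1 * A.mu K) := by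
      intro k _
      rw [E.edge_law_lintegral]
      gcongr
      exact hmean K
    refine (Finset.sum_le_sum h2).trans (le_of_eq ?_)
    rw [Finset.sum_const, Finset.card_range, nsmul_eq_mul, ← mul_assoc]
    have h3 : (((2 ^ b : ℕ) : ℝ≥0∞)) * ENNReal.ofReal (dy b) = 1 := by
      rw [← ENNReal.ofReal_natCast, ← ENNReal.ofReal_mul (by positivity)]
      push_cast
      rw [two_pow_mul_dy, ENNReal.ofReal_one]
    rw [h3, one_mul]
  have hX : ∀ ω, (∀ y ∈ CBox (0 : Rd d) 2, |E.hf 0 b ω y| ≤ M) → E.Edg 0 (b + K) 0 ω 0 0 2 ≤ ENNReal.ofReal (Real.exp M) * S ω := by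
    intro ω hω
    have e1 : E.Edg 0 (b + K) 0 ω 0 0 2 = D (E.hf 0 (b + K) ω) {0} {ee 0} (Box 0 2) := by
      unfold Env.Edg
      simp [dy]
    rw [e1]
    have h1 := D_le_exp (f := E.hf 0 (b + K) ω) (g := E.hf b (b + K) ω) (M := M) (U := Box (0 : Rd d) 2) {0} {ee 0} (by
      intro x hx
      rw [E.hf_add (Nat.zero_le b) (Nat.le_add_right b K) ω x]
      have h2 := (abs_le.1 (hω x (Box_subset_CBox 0 2 hx))).2
      linarith)
    refine h1.trans ?_
    gcongr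
    have h3 := D_chain (E.hf b (b + K) ω) (Box (0 : Rd d) 2) (fun k : ℕ => ((k : ℝ) * dy b) • ee (0 : Fin d)) (2 ^ b) (by
      intro i
      simp)
    have e2 : (((2 ^ b : ℕ) : ℝ) * dy b) • ee (0 : Fin d) = ee 0 := by
      push_cast
      rw [two_pow_mul_dy, one_smul]
    have e3 : (((0 : ℕ) : ℝ) * dy b) • ee (0 : Fin d) = 0 := by simp
    simp only [e2, e3] at h3
    refine h3.trans ?_
    rw [hS]
    refine Finset.sum_le_sum fun k hk => ?_
    unfold Env.Edg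
    have e4 : (((k : ℕ) : ℝ) * dy b) • ee (0 : Fin d) + dy b • ee 0 = (((k + 1 : ℕ) : ℝ) * dy b) • ee (0 : Fin d) := by
      rw [← add_smul]
      congr 1
      push_cast
      ring
    rw [e4]
    exact D_mono _ subset_rfl subset_rfl (C4a_box b k (Finset.mem_range.1 hk))
  have hsub : {ω | ENNReal.ofReal (Real.exp M * (2 / A.p2 * C1) * A.mu K) < E.Edg 0 (b + K) 0 ω 0 0 2} ⊆
      {ω | ∃ x ∈ CBox (0 : Rd d) 2, M < |E.hf 0 b ω x|} ∪ {ω | ENNReal.ofReal (2 / A.p2 * C1 * A.mu K) ≤ S ω} := by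
    intro ω hω
    by_cases h1 : ∃ x ∈ CBox (0 : Rd d) 2, M < |E.hf 0 b ω x|
    · exact Or.inl h1
    · right
      push Not at h1
      have h2 := lt_of_lt_of_le hω (hX ω h1)
      have e5 : Real.exp M * (2 / A.p2 * C1) * A.mu K = Real.exp M * (2 / A.p2 * C1 * A.mu K) := by ring
      rw [e5, ENNReal.ofReal_mul (Real.exp_pos M).le] at h2
      by_contra h3
      have h4 : S ω < ENNReal.ofReal (2 / A.p2 * C1 * A.mu K) := not_le.1 h3
      have h5 : ENNReal.ofReal (Real.exp M) * S ω ≤ ENNReal.ofReal (Real.exp M) * ENNReal.ofReal (2 / A.p2 * C1 * A.mu K) := by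
        gcongr
      exact absurd h2 (not_lt.2 h5)
  have hmarkov : E.P.real {ω | ENNReal.ofReal (2 / A.p2 * C1 * A.mu K) ≤ S ω} ≤ A.p2 / 2 := by
    have hpos : 0 < 2 / A.p2 * C1 * A.mu K := by positivity
    have h1 := meas_ge_le_lintegral_div (μ := E.P) hSm.aemeasurable
      (ENNReal.ofReal_pos.2 hpos).ne' ENNReal.ofReal_ne_top
    have h2 : E.P {ω | ENNReal.ofReal (2 / A.p2 * C1 * A.mu K) ≤ S ω} ≤ ENNReal.ofReal (A.p2 / 2) := by
      refine h1.trans ?_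
      refine (ENNReal.div_le_div_right hSint _).trans ?_
      rw [← ENNReal.ofReal_div_of_pos hpos]
      apply ENNReal.ofReal_le_ofReal
      apply le_of_eq
      field_simp
    unfold Measure.real
    have h3 := ENNReal.toReal_mono ENNReal.ofReal_ne_top h2
    rwa [ENNReal.toReal_ofReal (by positivity)] at h3
  have hfin := measureReal_mono hsub (measure_ne_top E.P _)
  have hun := measureReal_union_le (μ := E.P) {ω | ∃ x ∈ CBox (0 : Rd d) 2, M < |E.hf 0 b ω x|} {ω | ENNReal.ofReal (2 / A.p2 * C1 * A.mu K) ≤ S ω}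
  have hgoal : E.Gt 2 (b + K) (Real.exp M * (2 / A.p2 * C1) * A.mu K) =
      E.P.real {ω | ENNReal.ofReal (Real.exp M * (2 / A.p2 * C1) * A.mu K) < E.Edg 0 (b + K) 0 ω 0 0 2} := rfl
  rw [hgoal]
  linarith

end Par
end MP_d19698_pr
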