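import Pool.Agent.Lib.MP_d19698_pr.C4a

/-! # C4b -/

open MeasureTheory ProbabilityTheory Filter Topology Set
open scoped ENNReal NNReal

namespace MP_d19698_pr
namespace Par
variable {d : ℕ} [NeZero d] {E : Env d} (A : Par E)

/-- selection of the first admissible event, without measurability of the bad event `G` -/
private theorem C4b_select {Ω ι : Type*} [mΩ : MeasurableSpace Ω] (P : Measure Ω)
    (m0 : MeasurableSpace Ω) (hm0 : m0 ≤ mΩ) [DecidableEq ι] (s : Finset ι) (S : ι → Set Ω)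
    (hS : ∀ i ∈ s, MeasurableSet[m0] (S i)) (G : Set Ω) (q : ℝ≥0∞)
    (hq : ∀ i ∈ s, ∀ B, MeasurableSet[m0] B → B ⊆ S i → P (G ∩ B) ≤ q * P B) :
    ∀ B, MeasurableSet[m0] B → P (G ∩ (B ∩ ⋃ i ∈ s, S i)) ≤ q * P (B ∩ ⋃ i ∈ s, S i) := by
  induction s using Finset.induction_on with
  | empty =>
    intro B _
    simp
  | insert i s hi ih =>
    intro B hB
    have ih' := ih (fun j hj => hS j (Finset.mem_insert_of_mem hj))
      (fun j hj => hq j (Finset.mem_insert_of_mem hj)) (B \ S i)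
      (MeasurableSet.diff (m := m0) hB (hS i (Finset.mem_insert_self i s)))
    have hSi := hS i (Finset.mem_insert_self i s)
    have h1 := hq i (Finset.mem_insert_self i s) (B ∩ S i)
      (MeasurableSet.inter (m := m0) hB hSi) inter_subset_right
    have e1 : B ∩ ⋃ j ∈ insert i s, S j = (B ∩ S i) ∪ ((B \ S i) ∩ ⋃ j ∈ s, S j) := by
      rw [Finset.set_biUnion_insert]
      ext x
      simp only [mem_inter_iff, mem_union, Set.mem_sdiff]
      tauto
    have hUm : MeasurableSet[m0] (⋃ j ∈ s, S j) :=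
      Finset.measurableSet_biUnion (m := m0) s (fun j hj => hS j (Finset.mem_insert_of_mem hj))
    have e2 : P (B ∩ ⋃ j ∈ insert i s, S j) = P (B ∩ S i) + P ((B \ S i) ∩ ⋃ j ∈ s, S j) := by
      rw [e1]
      apply measure_union
      · rw [Set.disjoint_left]
        rintro x ⟨-, h2⟩ ⟨⟨-, h3⟩, -⟩
        exact h3 h2
      · exact hm0 _ (MeasurableSet.inter (m := m0) (MeasurableSet.diff (m := m0) hB hSi) hUm)
    rw [e2, e1, inter_union_distrib_left, mul_add]
    exact (measure_union_le _ _).trans (add_le_add h1 ih')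

omit [NeZero d] in
private theorem C4b_curve {f : Rd d → ℝ} {S T U : Set (Rd d)} {t : ℝ≥0∞} (h : D f S T U < t) :
    ∃ c : Curve d, c.src ∈ S ∧ c.tgt ∈ T ∧ c.img ⊆ U ∧ c.len f univ < t := by
  unfold D at h
  simp only [iInf_lt_iff] at h
  obtain ⟨c, h1, h2, h3, h4⟩ := h
  exact ⟨c, h1, h2, h3, h4⟩

private theorem C4b_meas_hf (m : ℕ) (x : Rd d) : Measurable[E.LL m] (fun ω => E.hf 0 m ω x) := by
  have h1 : Measurable[E.FF 0 m univ] (fun ω => E.hh 0 m ω x) := by
    have h2 : MeasurableSpace.comap (fun ω => E.hh 0 m ω x) inferInstance ≤ E.FF 0 m univ :=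
      le_iSup₂_of_le x (mem_univ x) le_rfl
    exact Measurable.mono (comap_measurable _) h2 le_rfl
  have h3 : Measurable[E.LL m] (fun ω => E.hh 0 m ω x) := Measurable.mono h1 (E.FF_le_LL 0 m univ) le_rfl
  exact h3.const_mul E.ξ

/-- the coarse cost of a set of cells -/
private noncomputable def C4b_c (E : Env d) (m : ℕ) (V : Finset (Fin d → ℤ)) (ω : E.Ω) : ℝ≥0∞ :=
  ∑ v ∈ V, ENNReal.ofReal (dy m * Real.exp (E.hf 0 m ω (latt m v)))

/-- the bound for the distance -/
private noncomputable def C4b_Φ (E : Env d) (m K : ℕ) (w0 : ℝ) (V : Finset (Fin d → ℤ)) (ω : E.Ω) : ℝ≥0∞ :=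
  2 * ∑ v ∈ V, ENNReal.ofReal (Real.exp (E.hf 0 m ω (latt m v) + w0)) *
      ∑ w ∈ nbr v, ∑ i : Fin d, E.Edg m (m + K) m ω (latt m w) i (5 / 4)

private theorem C4b_c_meas (m : ℕ) (V : Finset (Fin d → ℤ)) : Measurable[E.LL m] (C4b_c E m V) := by
  unfold C4b_c
  refine Finset.measurable_fun_sum V fun v _ => ?_
  exact ENNReal.measurable_ofReal.comp ((Real.measurable_exp.comp (C4b_meas_hf m _)).const_mul _)

private theorem C4b_Edg_meas (m K : ℕ) (x : Rd d) (i : Fin d) (ρ : ℝ) :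
    Measurable[E.FF m (m + K) univ] (fun ω => E.Edg m (m + K) m ω x i ρ) :=
  E.measurable_Edg m (m + K) m x i ρ (subset_univ _)

omit [NeZero d] in
private theorem C4b_card (v : Fin d → ℤ) : (nbr v).card = 3 ^ d := by
  unfold nbr
  rw [Fintype.card_piFinset]
  simp only [Int.card_Icc]
  have : ∀ i : Fin d, (v i + 1 + 1 - (v i - 1)).toNat = 3 := fun i => by omega
  simp [this]

/-- first moment of the bound on a coarse event -/
private theorem C4b_moment (m K : ℕ) (w0 : ℝ) (V : Finset (Fin d → ℤ)) (t0 : ℝ≥0∞) (B : Set E.Ω)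
    (hB : MeasurableSet[E.LL m] B) (hBV : B ⊆ {ω | C4b_c E m V ω ≤ t0}) :
    ∫⁻ ω, B.indicator (C4b_Φ E m K w0 V) ω ∂E.P ≤
      2 * 3 ^ d * d * (∫⁻ ω, E.Edg 0 K 0 ω 0 0 (5 / 4) ∂E.P) * ENNReal.ofReal (Real.exp w0) * t0 * E.P B := by
  have hBm : MeasurableSet B := E.LL_le m _ hB
  set I := ∫⁻ ω, E.Edg 0 K 0 ω 0 0 (5 / 4) ∂E.P with hI
  have hcoarse : ∀ v, Measurable[E.LL m] (B.indicator (fun ω =>
      ENNReal.ofReal (Real.exp (E.hf 0 m ω (latt m v) + w0)))) := by
    intro v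
    refine Measurable.indicator (m := E.LL m) ?_ hB
    exact ENNReal.measurable_ofReal.comp (Real.measurable_exp.comp ((C4b_meas_hf m _).add_const _))
  have e1 : ∀ ω, B.indicator (C4b_Φ E m K w0 V) ω = 2 * ∑ v ∈ V, ∑ w ∈ nbr v, ∑ i : Fin d,
      B.indicator (fun ω => ENNReal.ofReal (Real.exp (E.hf 0 m ω (latt m v) + w0))) ω *
        E.Edg m (m + K) m ω (latt m w) i (5 / 4) := by
    intro ω
    by_cases hω : ω ∈ B
    · simp only [indicator_of_mem hω]
      unfold C4b_Φ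
      simp only [Finset.mul_sum]
    · simp only [indicator_of_notMem hω, zero_mul, Finset.sum_const_zero, mul_zero]
  have hmeas : ∀ v w (i : Fin d), Measurable (fun ω =>
      B.indicator (fun ω => ENNReal.ofReal (Real.exp (E.hf 0 m ω (latt m v) + w0))) ω *
        E.Edg m (m + K) m ω (latt m w) i (5 / 4)) := by
    intro v w i
    exact (Measurable.mono (hcoarse v) (E.LL_le m) le_rfl).mul
      (Measurable.mono (C4b_Edg_meas m K (latt m w) i (5 / 4)) (E.FF_le m (m + K) univ) le_rfl)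
  have e2 : ∫⁻ ω, B.indicator (C4b_Φ E m K w0 V) ω ∂E.P = 2 * ∑ v ∈ V, ∑ w ∈ nbr v, ∑ i : Fin d,
      (∫⁻ ω, B.indicator (fun ω => ENNReal.ofReal (Real.exp (E.hf 0 m ω (latt m v) + w0))) ω ∂E.P) *
        (ENNReal.ofReal (dy m) * I) := by
    simp only [e1]
    rw [lintegral_const_mul _ (by
      refine Finset.measurable_fun_sum _ fun v _ => Finset.measurable_fun_sum _ fun w _ =>
        Finset.measurable_fun_sum _ fun i _ => hmeas v w i)]
    congr 1
    rw [lintegral_finsetSum _ (fun v _ => Finset.measurable_fun_sum _ fun w _ =>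
        Finset.measurable_fun_sum _ fun i _ => hmeas v w i)]
    refine Finset.sum_congr rfl fun v _ => ?_
    rw [lintegral_finsetSum _ (fun w _ => Finset.measurable_fun_sum _ fun i _ => hmeas v w i)]
    refine Finset.sum_congr rfl fun w _ => ?_
    rw [lintegral_finsetSum _ (fun i _ => hmeas v w i)]
    refine Finset.sum_congr rfl fun i _ => ?_
    rw [E.lintegral_mul_indep m (m + K) univ (hcoarse v) (C4b_Edg_meas m K (latt m w) i (5 / 4)),
      E.edge_law_lintegral m K (latt m w) i (5 / 4)]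
  have e3 : ∀ v : Fin d → ℤ, ENNReal.ofReal (dy m) *
      ∫⁻ ω, B.indicator (fun ω => ENNReal.ofReal (Real.exp (E.hf 0 m ω (latt m v) + w0))) ω ∂E.P =
      ENNReal.ofReal (Real.exp w0) * ∫⁻ ω, B.indicator (fun ω =>
        ENNReal.ofReal (dy m * Real.exp (E.hf 0 m ω (latt m v)))) ω ∂E.P := by
    intro v
    have hdy : 0 ≤ dy m := by unfold dy; positivity
    rw [← lintegral_const_mul _ (Measurable.mono (hcoarse v) (E.LL_le m) le_rfl),
      ← lintegral_const_mul _ (by
        refine Measurable.indicator ?_ hBm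
        exact ENNReal.measurable_ofReal.comp ((Real.measurable_exp.comp
          (Measurable.mono (C4b_meas_hf m _) (E.LL_le m) le_rfl)).const_mul _))]
    refine lintegral_congr fun ω => ?_
    by_cases hω : ω ∈ B
    · simp only [indicator_of_mem hω]
      rw [← ENNReal.ofReal_mul hdy, ← ENNReal.ofReal_mul (Real.exp_pos _).le, Real.exp_add]
      congr 1
      ring
    · simp only [indicator_of_notMem hω, mul_zero]
  rw [e2]
  have e4 : ∀ v ∈ V, ∑ w ∈ nbr v, ∑ i : Fin d,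
      (∫⁻ ω, B.indicator (fun ω => ENNReal.ofReal (Real.exp (E.hf 0 m ω (latt m v) + w0))) ω ∂E.P) *
        (ENNReal.ofReal (dy m) * I) = (3 ^ d * d * I * ENNReal.ofReal (Real.exp w0)) *
        ∫⁻ ω, B.indicator (fun ω => ENNReal.ofReal (dy m * Real.exp (E.hf 0 m ω (latt m v)))) ω ∂E.P := by
    intro v _
    rw [Finset.sum_const, Finset.sum_const, C4b_card, Finset.card_univ, Fintype.card_fin]
    have h1 := e3 v
    simp only [nsmul_eq_mul, Nat.cast_pow, Nat.cast_ofNat]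
    calc _ = 3 ^ d * d * I * (ENNReal.ofReal (dy m) *
        ∫⁻ ω, B.indicator (fun ω => ENNReal.ofReal (Real.exp (E.hf 0 m ω (latt m v) + w0))) ω ∂E.P) := by ring
      _ = _ := by rw [h1]; ring
  rw [Finset.sum_congr rfl e4, ← Finset.mul_sum]
  have e5 : ∑ v ∈ V, ∫⁻ ω, B.indicator (fun ω =>
      ENNReal.ofReal (dy m * Real.exp (E.hf 0 m ω (latt m v)))) ω ∂E.P ≤ t0 * E.P B := by
    rw [← lintegral_finsetSum _ (fun v _ => by
        refine Measurable.indicator ?_ hBm
        exact ENNReal.measurable_ofReal.comp ((Real.measurable_exp.comp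
          (Measurable.mono (C4b_meas_hf m _) (E.LL_le m) le_rfl)).const_mul _))]
    calc _ ≤ ∫⁻ ω, B.indicator (fun _ => t0) ω ∂E.P := by
          apply lintegral_mono
          intro ω
          by_cases hω : ω ∈ B
          · simp only [indicator_of_mem hω]
            exact hBV hω
          · simp only [indicator_of_notMem hω, Finset.sum_const_zero, le_refl]
      _ = t0 * E.P B := lintegral_indicator_const hBm t0
  calc _ ≤ 2 * ((3 ^ d * d * I * ENNReal.ofReal (Real.exp w0)) * (t0 * E.P B)) := by gcongr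
    _ = _ := by ring

/-- **(F3)** `λ*_{m+K} ≤ C e^{C√m} μ_m μ_K`. For `m < 2` use `lam_add_le` and `mu_pos`. For `m ≥ 2`: let `A0` be such that `P[X'_m > A0 μ_m] ≤ p2/4` (`tail`), `ω_m = C√(m+1)` from `osc_sqrt` with
`δ = p2/4`. Let `V_1,...,V_N` enumerate the admissible sets (`AdmSet m`, finitely many), let `V(ω)` be the first one with
`∑_{v ∈ V} ofReal (2^{-m} e^{ξ h_m(latt v)}) ≤ ofReal(4^d e^{ω_m}) * 2 A0 μ_m` if there is one. On `{X'_m ≤ A0 μ_m} ∩ {osc ≤ ω_m}` there is one (`exists_admSet` for a curve of length `≤ 2 A0 μ_m`), and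
`X_{m+K} ≤ 2∑_{v ∈ V(ω)} ofReal(e^{ξ h_m(latt v)+ω_m}) ∑_{w ∈ nbr v} ∑_i Y_{w,i}` (`D_le_of_admSet`). For fixed `V` the event `{V(ω) = V}` and the coarse factors are `LL m`-measurable, `Y_{w,i}` is
`FF m (m+K)`-measurable with mean `2^{-m} E X'_K ≤ C 2^{-m} μ_K` (`edge_law_lintegral`, `mean_le`), so (`lintegral_mul_indep`) the expectation of the right side over `{V(ω) exists}` is
`≤ 2 · 3^d · d · e^{ω_m} · C μ_K · 4^d e^{ω_m} 2 A0 μ_m`. Markov with probability `p2/4`: `P[X_{m+K} > C e^{2ω_m} μ_m μ_K] ≤ 3 p2/4 ≤ p2`, `lamQ_le`. -/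
theorem lam_submul : ∃ C : ℝ, 1 ≤ C ∧ ∀ m K : ℕ, A.lam (m + K) ≤ C * Real.exp (C * Real.sqrt m) * A.mu m * A.mu K := by
  classical
  obtain ⟨C0, hC0, h0⟩ := A.lam_add_le 0
  obtain ⟨C1, hC1, h1⟩ := A.lam_add_le 1
  have hp : 0 < A.p2 / 4 := by linarith [A.p2_pos]
  obtain ⟨Cw, hCw, hosc⟩ := E.osc_sqrt hp
  obtain ⟨Cm, hCm, hmean⟩ := A.mean_le
  have hbe : 0 < E.be := E.be_pos
  -- `A0`
  obtain ⟨A0, hA0pos, hA0⟩ : ∃ A0 : ℝ, 0 < A0 ∧ (A.A2 / A0) ^ E.be ≤ A.p2 / 4 := by
    have hA2 : 0 < A.A2 := lt_of_lt_of_le one_pos A.A2_one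
    have hq : 0 < (A.p2 / 4) ^ (1 / E.be) := Real.rpow_pos_of_pos hp _
    refine ⟨A.A2 / (A.p2 / 4) ^ (1 / E.be), div_pos hA2 hq, ?_⟩
    have e1 : A.A2 / (A.A2 / (A.p2 / 4) ^ (1 / E.be)) = (A.p2 / 4) ^ (1 / E.be) := by
      field_simp
    rw [e1, ← Real.rpow_mul hp.le, one_div_mul_cancel hbe.ne', Real.rpow_one]
  -- the constant for `m ≥ 2`
  obtain ⟨Cc, hCc⟩ : ∃ Cc : ℝ, Cc = (4 / A.p2) * (2 * 3 ^ d * d * Cm * (4 ^ d * (2 * A0))) := ⟨_, rfl⟩
  have hd0 : (0 : ℝ) < d := by exact_mod_cast Nat.pos_of_ne_zero (NeZero.ne d)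
  have hCc0 : 0 < Cc := by
    rw [hCc]
    have := A.p2_pos
    positivity
  have hbig : ∀ m K : ℕ, 2 ≤ m → A.lam (m + K) ≤
      Cc * Real.exp (2 * (Cw * Real.sqrt ((m : ℝ) + 1))) * A.mu m * A.mu K := by
    intro m K hm
    have hmu := A.mu_pos m
    have hmuK := A.mu_pos K
    obtain ⟨w0, hw0⟩ : ∃ w0 : ℝ, w0 = Cw * Real.sqrt ((m : ℝ) + 1) := ⟨_, rfl⟩
    obtain ⟨T, hT⟩ : ∃ T : ℝ, T = Cc * Real.exp (2 * w0) * A.mu m * A.mu K := ⟨_, rfl⟩
    have hTpos : 0 < T := by
      rw [hT]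
      exact mul_pos (mul_pos (mul_pos hCc0 (Real.exp_pos _)) hmu) hmuK
    rw [← hw0, ← hT]
    apply E.lamQ_le (m + K) hTpos.le
    -- events
    set E1 : Set E.Ω := {ω | ENNReal.ofReal (A0 * A.mu m) < E.Edg 0 m 0 ω 0 0 (5 / 4)} with hE1
    set E2 : Set E.Ω := {ω | ∃ v : Fin d → ℤ, (∀ i, (|v i| : ℝ) * dy m ≤ 2) ∧
      ∃ x ∈ CBox (latt m v) (4 * dy m), ∃ y ∈ CBox (latt m v) (4 * dy m),
      Cw * Real.sqrt ((m : ℝ) + 1) < |E.hf 0 m ω x - E.hf 0 m ω y|} with hE2
    set G : Set E.Ω := {ω | ENNReal.ofReal T < E.Edg 0 (m + K) 0 ω 0 0 2} ∩ E2ᶜ with hG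
    set t0 : ℝ≥0∞ := ENNReal.ofReal (4 ^ d * Real.exp w0) * ENNReal.ofReal (2 * (A0 * A.mu m)) with ht0
    let box : Finset (Fin d → ℤ) := Fintype.piFinset fun _ => Finset.Icc (-(2 ^ (m + 2) : ℤ)) (2 ^ (m + 2))
    let VV : Finset (Finset (Fin d → ℤ)) := box.powerset.filter (fun V => AdmSet m V)
    let S : Finset (Fin d → ℤ) → Set E.Ω := fun V => {ω | C4b_c E m V ω ≤ t0}
    have hdym : 0 < dy m := by unfold dy; positivity
    have hVV : ∀ V, AdmSet m V → V ∈ VV := by
      intro V hV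
      rw [Finset.mem_filter, Finset.mem_powerset]
      refine ⟨fun v hv => ?_, hV⟩
      rw [Fintype.mem_piFinset]
      intro i
      have h3 := hV.2.2.2 v hv i
      have h4 : dy m ≤ 1 := by
        unfold dy
        exact pow_le_one₀ (by norm_num) (by norm_num)
      have h5 : (|v i| : ℝ) * dy m ≤ 4 := by linarith
      have h6 : (2 : ℝ) ^ m * dy m = 1 := by
        unfold dy
        rw [← mul_pow]
        norm_num
      have h7 : |(v i : ℝ)| ≤ 4 * 2 ^ m := by
        have h8 : |(v i : ℝ)| * dy m * 2 ^ m ≤ 4 * 2 ^ m := mul_le_mul_of_nonneg_right h5 (by positivity)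
        have h9 : |(v i : ℝ)| * dy m * 2 ^ m = |(v i : ℝ)| := by
          rw [mul_assoc, mul_comm (dy m), h6, mul_one]
        linarith
      have h8 : |v i| ≤ 2 ^ (m + 2) := by
        have : ((|v i| : ℤ) : ℝ) ≤ ((2 ^ (m + 2) : ℤ) : ℝ) := by
          rw [Int.cast_abs]
          push_cast
          rw [pow_add]
          linarith
        exact_mod_cast this
      rw [Finset.mem_Icc]
      exact abs_le.1 h8
    -- the key estimate
    have hkey : ∀ V ∈ VV, ∀ B, MeasurableSet[E.LL m] B → B ⊆ S V →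
        E.P (G ∩ B) ≤ ENNReal.ofReal (A.p2 / 4) * E.P B := by
      intro V hV B hB hBV
      rw [Finset.mem_filter] at hV
      have hBm : MeasurableSet B := E.LL_le m _ hB
      have hmom := C4b_moment (E := E) m K w0 V t0 B hB hBV
      have hT0 : ENNReal.ofReal T ≠ 0 := by
        rw [Ne, ENNReal.ofReal_eq_zero, not_le]
        exact hTpos
      have hsub : G ∩ B ⊆ {ω | ENNReal.ofReal T ≤ B.indicator (C4b_Φ E m K w0 V) ω} := by
        rintro ω ⟨⟨hω1, hω2⟩, hωB⟩
        rw [Set.mem_ofPred_eq, indicator_of_mem hωB]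
        refine le_of_lt (lt_of_lt_of_le hω1 ?_)
        have hosc' : ∀ v : Fin d → ℤ, (∀ i, (|v i| : ℝ) * dy m ≤ 2) →
            ∀ x ∈ CBox (latt m v) (4 * dy m), ∀ y ∈ CBox (latt m v) (4 * dy m),
            |E.hf 0 m ω x - E.hf 0 m ω y| ≤ w0 := by
          intro v hv x hx y hy
          by_contra hcon
          apply hω2
          rw [hE2]
          refine ⟨v, hv, x, hx, y, hy, ?_⟩
          rw [← hw0]
          exact not_le.1 hcon
        have h3 := D_le_of_admSet hm hV.2 (E.hf 0 m ω) (E.hf m (m + K) ω) hosc'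
        unfold C4b_Φ Env.Edg
        have h4 : (fun x => E.hf 0 m ω x + E.hf m (m + K) ω x) = E.hf 0 (m + K) ω := by
          funext x
          exact (E.hf_add (Nat.zero_le m) (Nat.le_add_right m K) ω x).symm
        rw [h4] at h3
        have h5 : (0 : Rd d) + dy 0 • ee 0 = ee 0 := by
          simp [dy]
        have h6 : (2 : ℝ) * dy 0 = 2 := by simp [dy]
        rw [h5, h6]
        exact h3
      have hΦm : Measurable (B.indicator (C4b_Φ E m K w0 V)) := by
        refine Measurable.indicator ?_ hBm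
        unfold C4b_Φ
        refine Measurable.const_mul (Finset.measurable_fun_sum _ fun v _ => ?_) _
        refine Measurable.mul ?_ (Finset.measurable_fun_sum _ fun w _ =>
          Finset.measurable_fun_sum _ fun i _ =>
          (Measurable.mono (C4b_Edg_meas m K (latt m w) i (5 / 4)) (E.FF_le m (m + K) univ) le_rfl))
        exact ENNReal.measurable_ofReal.comp (Real.measurable_exp.comp
          ((Measurable.mono (C4b_meas_hf m _) (E.LL_le m) le_rfl).add_const _))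
      have hmarkov := mul_meas_ge_le_lintegral (μ := E.P) hΦm (ENNReal.ofReal T)
      have h7 : ENNReal.ofReal T * E.P (G ∩ B) ≤ ENNReal.ofReal T * (ENNReal.ofReal (A.p2 / 4) * E.P B) := by
        calc ENNReal.ofReal T * E.P (G ∩ B) ≤ ENNReal.ofReal T *
              E.P {ω | ENNReal.ofReal T ≤ B.indicator (C4b_Φ E m K w0 V) ω} := by gcongr
          _ ≤ _ := hmarkov
          _ ≤ _ := hmom
          _ ≤ 2 * 3 ^ d * d * ENNReal.ofReal (Cm * A.mu K) * ENNReal.ofReal (Real.exp w0) * t0 * E.P B := by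
              gcongr
              exact hmean K
          _ = ENNReal.ofReal T * (ENNReal.ofReal (A.p2 / 4) * E.P B) := by
              have e9 : 2 * 3 ^ d * d * ENNReal.ofReal (Cm * A.mu K) * ENNReal.ofReal (Real.exp w0) * t0 =
                  ENNReal.ofReal T * ENNReal.ofReal (A.p2 / 4) := by
                have e2 : (2 : ℝ≥0∞) * 3 ^ d * d = ENNReal.ofReal (2 * 3 ^ d * d) := by
                  rw [ENNReal.ofReal_mul (by positivity), ENNReal.ofReal_mul (by norm_num),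
                    ENNReal.ofReal_pow (by norm_num), ENNReal.ofReal_natCast, ENNReal.ofReal_ofNat,
                    ENNReal.ofReal_ofNat]
                have p1 : 0 ≤ 2 * 3 ^ d * (d : ℝ) := by positivity
                have p2 : 0 ≤ Cm * A.mu K := by positivity
                rw [ht0, e2, ← ENNReal.ofReal_mul p1, ← ENNReal.ofReal_mul (by positivity),
                  ← ENNReal.ofReal_mul (by positivity), ← ENNReal.ofReal_mul (by positivity),
                  ← ENNReal.ofReal_mul hTpos.le]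
                congr 1
                rw [hT, hCc, show (2 : ℝ) * w0 = w0 + w0 by ring, Real.exp_add]
                have := A.p2_pos.ne'
                field_simp
              rw [e9, mul_assoc]
      exact (ENNReal.mul_le_mul_iff_right hT0 ENNReal.ofReal_ne_top).1 h7
    have hsel := C4b_select E.P (E.LL m) (E.LL_le m) VV S
      (fun V _ => measurableSet_le (mδ := E.LL m) (C4b_c_meas m V) measurable_const) G
      (ENNReal.ofReal (A.p2 / 4)) hkey univ MeasurableSet.univ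
    rw [univ_inter] at hsel
    have hsel' : E.P.real (G ∩ ⋃ V ∈ VV, S V) ≤ A.p2 / 4 := by
      have h3 : E.P (G ∩ ⋃ V ∈ VV, S V) ≤ ENNReal.ofReal (A.p2 / 4) := by
        refine hsel.trans ?_
        calc ENNReal.ofReal (A.p2 / 4) * E.P (⋃ V ∈ VV, S V) ≤ ENNReal.ofReal (A.p2 / 4) * 1 := by
              gcongr
              exact prob_le_one
          _ = _ := mul_one _
      exact ENNReal.toReal_le_of_le_ofReal hp.le h3
    have hE1p : E.P.real E1 ≤ A.p2 / 4 := by
      have h3 := A.tail m (A0 * A.mu m) (mul_pos hA0pos hmu)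
      refine (le_trans h3 ?_)
      have h4 : A.A2 * E.muQ A.κ A.p2 m / (A0 * A.mu m) = A.A2 / A0 := by
        have h5 : E.muQ A.κ A.p2 m = A.mu m := rfl
        rw [h5]
        field_simp
      rw [h4]
      exact hA0
    have hE2p : E.P.real E2 ≤ A.p2 / 4 := hosc m
    have hcov : {ω | ENNReal.ofReal T < E.Edg 0 (m + K) 0 ω 0 0 2} ⊆
        (E1 ∪ E2) ∪ (G ∩ ⋃ V ∈ VV, S V) := by
      intro ω hω
      by_cases h3 : ω ∈ E1
      · exact Or.inl (Or.inl h3)
      by_cases h4 : ω ∈ E2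
      · exact Or.inl (Or.inr h4)
      right
      refine ⟨⟨hω, h4⟩, ?_⟩
      rw [hE1, Set.mem_ofPred_eq, not_lt] at h3
      have h5 : E.Edg 0 m 0 ω 0 0 (5 / 4) < ENNReal.ofReal (2 * (A0 * A.mu m)) := by
        refine lt_of_le_of_lt h3 ?_
        rw [ENNReal.ofReal_lt_ofReal_iff (by positivity)]
        have := mul_pos hA0pos hmu
        linarith
      unfold Env.Edg at h5
      obtain ⟨c, hc1, hc2, hc3, hc4⟩ := C4b_curve h5
      have h6 : (0 : Rd d) + dy 0 • ee 0 = ee 0 := by simp [dy]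
      have h7 : (5 / 4 : ℝ) * dy 0 = 5 / 4 := by simp [dy]
      rw [h6, mem_singleton_iff] at hc2
      rw [h7] at hc3
      rw [mem_singleton_iff] at hc1
      have hosc' : ∀ v : Fin d → ℤ, (∀ i, (|v i| : ℝ) * dy m ≤ 2) →
          ∀ x ∈ CBox (latt m v) (4 * dy m), ∀ y ∈ CBox (latt m v) (4 * dy m),
          |E.hf 0 m ω x - E.hf 0 m ω y| ≤ w0 := by
        intro v hv x hx y hy
        by_contra hcon
        apply h4
        rw [hE2]
        refine ⟨v, hv, x, hx, y, hy, ?_⟩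
        rw [← hw0]
        exact not_le.1 hcon
      obtain ⟨V, hV, hVs⟩ := exists_admSet hm (E.hf 0 m ω) c hc1 hc2 hc3 hosc'
      rw [mem_iUnion₂]
      refine ⟨V, hVV V hV, ?_⟩
      show C4b_c E m V ω ≤ t0
      unfold C4b_c
      refine hVs.trans ?_
      rw [ht0]
      gcongr
    calc E.Gt 2 (m + K) T = E.P.real {ω | ENNReal.ofReal T < E.Edg 0 (m + K) 0 ω 0 0 2} := rfl
      _ ≤ E.P.real ((E1 ∪ E2) ∪ (G ∩ ⋃ V ∈ VV, S V)) := measureReal_mono hcov
      _ ≤ E.P.real (E1 ∪ E2) + E.P.real (G ∩ ⋃ V ∈ VV, S V) := measureReal_union_le _ _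
      _ ≤ (E.P.real E1 + E.P.real E2) + E.P.real (G ∩ ⋃ V ∈ VV, S V) := by
          gcongr
          exact measureReal_union_le _ _
      _ ≤ (A.p2 / 4 + A.p2 / 4) + A.p2 / 4 := by gcongr
      _ ≤ A.p2 := by linarith [A.p2_pos]
  -- conclusion
  have hmu0 := A.mu_pos 0
  have hmu1 := A.mu_pos 1
  refine ⟨1 + C0 / A.mu 0 + C1 / A.mu 1 + Cc + 4 * Cw, ?_, fun m K => ?_⟩
  · have q0 : 0 < C0 / A.mu 0 := div_pos hC0 hmu0
    have q1 : 0 < C1 / A.mu 1 := div_pos hC1 hmu1
    linarith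
  have q0 : 0 < C0 / A.mu 0 := div_pos hC0 hmu0
  have q1 : 0 < C1 / A.mu 1 := div_pos hC1 hmu1
  have hmuK := A.mu_pos K
  have hmum := A.mu_pos m
  obtain ⟨CC, hCC⟩ : ∃ CC : ℝ, CC = 1 + C0 / A.mu 0 + C1 / A.mu 1 + Cc + 4 * Cw := ⟨_, rfl⟩
  rw [← hCC]
  have hCC0 : 0 < CC := by rw [hCC]; linarith
  have hfin : ∀ c0 : ℝ, 0 ≤ c0 → c0 ≤ CC → ∀ e0 : ℝ, 0 ≤ e0 → e0 ≤ CC * Real.sqrt m →
      c0 * Real.exp e0 * A.mu m * A.mu K ≤ CC * Real.exp (CC * Real.sqrt m) * A.mu m * A.mu K := by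
    intro c0 hc0 hc1 e0 _ he1
    gcongr
  rcases Nat.lt_or_ge m 2 with hm | hm
  · interval_cases m
    · refine (h0 K).trans ?_
      have h3 := hfin (C0 / A.mu 0) q0.le (by rw [hCC]; linarith) 0 le_rfl (by positivity)
      refine le_trans (le_of_eq ?_) h3
      rw [Real.exp_zero, mul_one, div_mul_cancel₀ _ hmu0.ne']
    · refine (h1 K).trans ?_
      have h3 := hfin (C1 / A.mu 1) q1.le (by rw [hCC]; linarith) 0 le_rfl (by positivity)
      refine le_trans (le_of_eq ?_) h3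
      rw [Real.exp_zero, mul_one, div_mul_cancel₀ _ hmu1.ne']
  · refine (hbig m K hm).trans ?_
    apply hfin Cc hCc0.le (by rw [hCC]; linarith) _ (by positivity)
    have h3 : Real.sqrt ((m : ℝ) + 1) ≤ 2 * Real.sqrt m := by
      rw [show (2 : ℝ) * Real.sqrt m = Real.sqrt (4 * m) by
        rw [Real.sqrt_mul (by norm_num), show (4 : ℝ) = 2 ^ 2 by norm_num, Real.sqrt_sq (by norm_num)]]
      apply Real.sqrt_le_sqrt
      have : (2 : ℝ) ≤ m := by exact_mod_cast hm
      linarith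
    calc 2 * (Cw * Real.sqrt ((m : ℝ) + 1)) ≤ 2 * (Cw * (2 * Real.sqrt m)) := by gcongr
      _ = (4 * Cw) * Real.sqrt m := by ring
      _ ≤ CC * Real.sqrt m := by
          apply mul_le_mul_of_nonneg_right _ (Real.sqrt_nonneg _)
          rw [hCC]
          linarith

end Par
end MP_d19698_pr
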