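import Pool.Agent.Lib.MP_d19698_pr.C4b

/-! # C4c -/

open MeasureTheory ProbabilityTheory Filter Topology Set
open scoped ENNReal NNReal

namespace MP_d19698_pr
namespace Par
variable {d : ℕ} [NeZero d] {E : Env d} (A : Par E)

/-- `μ_{m+K} ≤ μ_K max(C e^{C√m} μ_m, 2^{-αm} e^{-κm})`. -/
theorem mu_submul : ∃ C : ℝ, 1 ≤ C ∧ ∀ m K : ℕ,
    A.mu (m + K) ≤ max (C * Real.exp (C * Real.sqrt m) * A.mu m) ((2 : ℝ) ^ (-(E.al * m)) * Real.exp (-(A.κ * m))) * A.mu K := by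
  obtain ⟨C, hC, hsub⟩ := A.lam_submul
  refine ⟨C, hC, fun m K => ?_⟩
  have hmuK := A.mu_pos K
  have hmum := A.mu_pos m
  obtain ⟨l, hl, h⟩ := E.exists_muQ_eq A.κ A.p2 (m + K)
  have h' : A.mu (m + K) = (2 : ℝ) ^ (-(E.al * l)) * Real.exp (-(A.κ * l)) * A.lam (m + K - l) := h
  rw [h']
  rcases le_total m l with hml | hml
  · obtain ⟨l', rfl⟩ := Nat.exists_eq_add_of_le hml
    have hl' : l' ≤ K := by omega
    have e0 : m + K - (m + l') = K - l' := by omega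
    rw [e0]
    have h3 : (2 : ℝ) ^ (-(E.al * l')) * Real.exp (-(A.κ * l')) * A.lam (K - l') ≤ A.mu K := by
      have h4 := Finset.le_sup' (s := Finset.range (K + 1))
        (fun k : ℕ => (2 : ℝ) ^ (-(E.al * k)) * Real.exp (-(A.κ * k)) * E.lamQ A.p2 (K - k)) (b := l')
        (Finset.mem_range.2 (by omega))
      exact h4
    have e1 : (2 : ℝ) ^ (-(E.al * ((m + l' : ℕ) : ℝ))) = (2 : ℝ) ^ (-(E.al * m)) * (2 : ℝ) ^ (-(E.al * (l' : ℝ))) := by
      rw [← Real.rpow_add (by norm_num)]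
      congr 1
      push_cast
      ring
    have e2 : Real.exp (-(A.κ * ((m + l' : ℕ) : ℝ))) = Real.exp (-(A.κ * m)) * Real.exp (-(A.κ * (l' : ℝ))) := by
      rw [← Real.exp_add]
      congr 1
      push_cast
      ring
    rw [e1, e2]
    have hc : (0 : ℝ) < (2 : ℝ) ^ (-(E.al * m)) * Real.exp (-(A.κ * m)) := by positivity
    calc (2 : ℝ) ^ (-(E.al * m)) * (2 : ℝ) ^ (-(E.al * (l' : ℝ))) * (Real.exp (-(A.κ * m)) * Real.exp (-(A.κ * (l' : ℝ)))) * A.lam (K - l')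
        = ((2 : ℝ) ^ (-(E.al * m)) * Real.exp (-(A.κ * m))) * ((2 : ℝ) ^ (-(E.al * (l' : ℝ))) * Real.exp (-(A.κ * (l' : ℝ))) * A.lam (K - l')) := by ring
      _ ≤ ((2 : ℝ) ^ (-(E.al * m)) * Real.exp (-(A.κ * m))) * A.mu K := mul_le_mul_of_nonneg_left h3 hc.le
      _ ≤ _ := mul_le_mul_of_nonneg_right (le_max_right _ _) hmuK.le
  · obtain ⟨m', rfl⟩ := Nat.exists_eq_add_of_le hml
    have e0 : l + m' + K - l = m' + K := by omega
    rw [e0]
    have h3 := hsub m' K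
    have h4 : A.mu m' ≤ (2 : ℝ) ^ (E.al * l) * Real.exp (A.κ * l) * A.mu (l + m') := by
      have h5 := A.mu_le m' l
      rwa [Nat.add_comm m' l] at h5
    have e1 : (2 : ℝ) ^ (-(E.al * (l : ℝ))) * (2 : ℝ) ^ (E.al * (l : ℝ)) = 1 := by
      rw [← Real.rpow_add (by norm_num), neg_add_cancel, Real.rpow_zero]
    have e2 : Real.exp (-(A.κ * (l : ℝ))) * Real.exp (A.κ * l) = 1 := by
      rw [← Real.exp_add, neg_add_cancel, Real.exp_zero]
    have hC0 : (0 : ℝ) < C := by linarith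
    have hsq : Real.sqrt m' ≤ Real.sqrt ((l + m' : ℕ) : ℝ) := by
      apply Real.sqrt_le_sqrt
      push_cast
      have : (0 : ℝ) ≤ l := Nat.cast_nonneg l
      linarith
    have hexp : Real.exp (C * Real.sqrt m') ≤ Real.exp (C * Real.sqrt ((l + m' : ℕ) : ℝ)) := by
      apply Real.exp_le_exp.2
      exact mul_le_mul_of_nonneg_left hsq hC0.le
    have hc : (0 : ℝ) < (2 : ℝ) ^ (-(E.al * (l : ℝ))) * Real.exp (-(A.κ * (l : ℝ))) := by positivity
    have hmum' := A.mu_pos m'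
    calc (2 : ℝ) ^ (-(E.al * (l : ℝ))) * Real.exp (-(A.κ * (l : ℝ))) * A.lam (m' + K)
        ≤ (2 : ℝ) ^ (-(E.al * (l : ℝ))) * Real.exp (-(A.κ * (l : ℝ))) * (C * Real.exp (C * Real.sqrt m') * A.mu m' * A.mu K) :=
          mul_le_mul_of_nonneg_left h3 hc.le
      _ ≤ (2 : ℝ) ^ (-(E.al * (l : ℝ))) * Real.exp (-(A.κ * (l : ℝ))) * (C * Real.exp (C * Real.sqrt ((l + m' : ℕ) : ℝ)) *
            ((2 : ℝ) ^ (E.al * l) * Real.exp (A.κ * l) * A.mu (l + m')) * A.mu K) := by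
          gcongr
      _ = ((2 : ℝ) ^ (-(E.al * (l : ℝ))) * (2 : ℝ) ^ (E.al * (l : ℝ))) * (Real.exp (-(A.κ * (l : ℝ))) * Real.exp (A.κ * l)) *
            (C * Real.exp (C * Real.sqrt ((l + m' : ℕ) : ℝ)) * A.mu (l + m')) * A.mu K := by ring
      _ = (C * Real.exp (C * Real.sqrt ((l + m' : ℕ) : ℝ)) * A.mu (l + m')) * A.mu K := by rw [e1, e2]; ring
      _ ≤ _ := mul_le_mul_of_nonneg_right (le_max_left _ _) hmuK.le

/-- (5.1): under the rate hypothesis `θ_m = 2^{αm} μ_m ≥ c e^{-C√m}`. -/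
theorem theta_lower (hR : A.Rate) : ∃ C : ℝ, 1 ≤ C ∧ ∀ m : ℕ, C⁻¹ * Real.exp (-(C * Real.sqrt m)) ≤ (2 : ℝ) ^ (E.al * m) * A.mu m := by
  obtain ⟨C, hC, hsub⟩ := A.mu_submul
  refine ⟨C, hC, fun m => ?_⟩
  have hC0 : (0 : ℝ) < C := by linarith
  have hmum := A.mu_pos m
  rcases Nat.eq_zero_or_pos m with hm | hm
  · subst hm
    have h0 : A.mu 0 = 1 := E.muQ_zero A.p2_pos (by linarith [A.p2_lt])
    have h1 : C⁻¹ ≤ 1 := inv_le_one_of_one_le₀ hC
    simpa [h0] using h1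
  · by_contra hcon
    have hlt : (2 : ℝ) ^ (E.al * m) * A.mu m < C⁻¹ * Real.exp (-(C * Real.sqrt m)) := not_le.1 hcon
    -- the factor
    have h2pos : (0 : ℝ) < (2 : ℝ) ^ (E.al * (m : ℝ)) := by positivity
    set θ : ℕ → ℝ := fun n => (2 : ℝ) ^ (E.al * n) * A.mu n with hθ
    have hθpos : ∀ n, 0 < θ n := fun n => mul_pos (by positivity) (A.mu_pos n)
    have hq1 : C * Real.exp (C * Real.sqrt m) * θ m < 1 := by
      have h1 : 0 < C * Real.exp (C * Real.sqrt m) := by positivity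
      have h2 := mul_lt_mul_of_pos_left hlt h1
      refine lt_of_lt_of_le h2 (le_of_eq ?_)
      have e2 : Real.exp (C * Real.sqrt m) * Real.exp (-(C * Real.sqrt m)) = 1 := by
        rw [← Real.exp_add, add_neg_cancel, Real.exp_zero]
      calc C * Real.exp (C * Real.sqrt m) * (C⁻¹ * Real.exp (-(C * Real.sqrt m)))
          = (C * C⁻¹) * (Real.exp (C * Real.sqrt m) * Real.exp (-(C * Real.sqrt m))) := by ring
        _ = 1 := by rw [e2, mul_inv_cancel₀ hC0.ne', one_mul]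
    have hm' : (0 : ℝ) < m := by exact_mod_cast hm
    have hq2 : Real.exp (-(A.κ * m)) < 1 := by
      rw [Real.exp_lt_one_iff]
      have := mul_pos A.κ_pos hm'
      linarith
    set q : ℝ := max (C * Real.exp (C * Real.sqrt m) * θ m) (Real.exp (-(A.κ * m))) with hq
    have hq_lt : q < 1 := max_lt hq1 hq2
    have hq_pos : 0 < q := lt_of_lt_of_le (Real.exp_pos _) (le_max_right _ _)
    have hstep : ∀ K : ℕ, θ (m + K) ≤ q * θ K := by
      intro K
      have h1 := hsub m K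
      have e1 : (2 : ℝ) ^ (E.al * ((m + K : ℕ) : ℝ)) = (2 : ℝ) ^ (E.al * (m : ℝ)) * (2 : ℝ) ^ (E.al * (K : ℝ)) := by
        rw [← Real.rpow_add (by norm_num)]
        congr 1
        push_cast
        ring
      have e3 : (2 : ℝ) ^ (E.al * (m : ℝ)) * (2 : ℝ) ^ (-(E.al * (m : ℝ))) = 1 := by
        rw [← Real.rpow_add (by norm_num), add_neg_cancel, Real.rpow_zero]
      have e2 : q = (2 : ℝ) ^ (E.al * (m : ℝ)) * max (C * Real.exp (C * Real.sqrt m) * A.mu m) ((2 : ℝ) ^ (-(E.al * m)) * Real.exp (-(A.κ * m))) := by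
        rw [mul_max_of_nonneg _ _ h2pos.le, hq, hθ]
        congr 1
        · ring
        · rw [← mul_assoc, e3, one_mul]
      have hKpos : (0 : ℝ) < (2 : ℝ) ^ (E.al * (K : ℝ)) := by positivity
      calc θ (m + K) = (2 : ℝ) ^ (E.al * (m : ℝ)) * (2 : ℝ) ^ (E.al * (K : ℝ)) * A.mu (m + K) := by
            show (2 : ℝ) ^ (E.al * ((m + K : ℕ) : ℝ)) * A.mu (m + K) = _
            rw [e1]
        _ ≤ (2 : ℝ) ^ (E.al * (m : ℝ)) * (2 : ℝ) ^ (E.al * (K : ℝ)) *
              (max (C * Real.exp (C * Real.sqrt m) * A.mu m) ((2 : ℝ) ^ (-(E.al * m)) * Real.exp (-(A.κ * m))) * A.mu K) :=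
            mul_le_mul_of_nonneg_left h1 (mul_pos h2pos hKpos).le
        _ = ((2 : ℝ) ^ (E.al * (m : ℝ)) * max (C * Real.exp (C * Real.sqrt m) * A.mu m) ((2 : ℝ) ^ (-(E.al * m)) * Real.exp (-(A.κ * m)))) *
              ((2 : ℝ) ^ (E.al * (K : ℝ)) * A.mu K) := by ring
        _ = q * θ K := by rw [← e2]
    have hpow : ∀ j : ℕ, θ (j * m) ≤ q ^ j := by
      intro j
      induction j with
      | zero =>
        have h0 : A.mu 0 = 1 := E.muQ_zero A.p2_pos (by linarith [A.p2_lt])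
        simp [hθ, h0]
      | succ j ih =>
        have e : (j + 1) * m = m + j * m := by ring
        rw [e, pow_succ]
        refine (hstep (j * m)).trans ?_
        rw [mul_comm]
        exact mul_le_mul_of_nonneg_right ih hq_pos.le
    -- contradiction with the rate
    have hlog : Real.log q < 0 := Real.log_neg hq_pos hq_lt
    have hl2 : 0 < Real.log 2 := Real.log_pos (by norm_num)
    set ε : ℝ := -Real.log q / (2 * m * Real.log 2) with hε
    have hε0 : 0 < ε := by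
      apply div_pos <;> [linarith; positivity]
    have hev := hR ε hε0
    obtain ⟨n0, hn0⟩ := eventually_atTop.1 hev
    set j : ℕ := n0 + 1 with hj
    have hjn : n0 ≤ j * m := by
      have : j ≤ j * m := Nat.le_mul_of_pos_right j hm
      omega
    have h1 := hn0 (j * m) hjn
    have h2 : A.lam (j * m) ≤ A.mu (j * m) := A.lam_le_mu _
    have h3 := hpow j
    have hj0 : (0 : ℝ) < j := by
      rw [hj]
      positivity
    have h2jpos : (0 : ℝ) < (2 : ℝ) ^ (E.al * ((j * m : ℕ) : ℝ)) := by positivity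
    have h4 : (2 : ℝ) ^ (-(ε * ((j * m : ℕ) : ℝ))) ≤ q ^ j := by
      refine le_trans ?_ h3
      have e4 : (2 : ℝ) ^ (-(ε * ((j * m : ℕ) : ℝ))) = (2 : ℝ) ^ (E.al * ((j * m : ℕ) : ℝ)) * (2 : ℝ) ^ (-((E.al + ε) * ((j * m : ℕ) : ℝ))) := by
        rw [← Real.rpow_add (by norm_num)]
        congr 1
        ring
      rw [e4]
      exact mul_le_mul_of_nonneg_left (h1.trans h2) h2jpos.le
    have h5 : (2 : ℝ) ^ (-(ε * ((j * m : ℕ) : ℝ))) = Real.exp (Real.log q * (j / 2)) := by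
      rw [Real.rpow_def_of_pos (by norm_num)]
      congr 1
      rw [hε]
      push_cast
      field_simp
    have h6 : q ^ j = Real.exp (Real.log q * j) := by
      rw [← Real.rpow_natCast, Real.rpow_def_of_pos hq_pos]
    rw [h5, h6, Real.exp_le_exp] at h4
    nlinarith

/-- (5.2): `μ_{m+b} ≤ C_b μ_m`. -/
theorem mu_add_le (b : ℕ) : ∃ C : ℝ, 0 < C ∧ ∀ m : ℕ, A.mu (m + b) ≤ C * A.mu m := by
  obtain ⟨C, hC, hsub⟩ := A.mu_submul
  refine ⟨max (C * Real.exp (C * Real.sqrt b) * A.mu b) ((2 : ℝ) ^ (-(E.al * b)) * Real.exp (-(A.κ * b))), ?_, fun m => ?_⟩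
  · exact lt_of_lt_of_le (by positivity) (le_max_right _ _)
  · rw [Nat.add_comm m b]
    exact hsub b m

end Par

end MP_d19698_pr
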