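import Pool.Agent.Lib.MP_d19698_pr.A6c
import Pool.Agent.Lib.MP_d19698_pr.B8

/-!
# C5: Peierls estimate, lower quantiles, supermultiplicativity (section 6)
-/

open MeasureTheory ProbabilityTheory Filter Topology Set
open scoped ENNReal NNReal

namespace MP_d19698_pr

/-- **Peierls.** Events `bad v`, `v ∈ ℤ^d`, such that for every finite set `F` of points with pairwise sup distance `≥ s` the probability that all of `F` is bad is `≤ p^{|F|}`. Then the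
probability that an injective `*`-path of `k` bad vertices starts in `V0` is `≤ |V0| (3^d)^k p^{k/s^d}`. (`starPath_count`, `exists_separated`.) -/
theorem peierls {d : ℕ} {Ω : Type*} [MeasurableSpace Ω] (P : Measure Ω) [IsProbabilityMeasure P] (bad : (Fin d → ℤ) → Set Ω) {s : ℕ} (hs : 1 ≤ s)
    {p : ℝ} (hp : 0 < p) (hp1 : p ≤ 1)
    (h : ∀ F : Finset (Fin d → ℤ), (∀ v ∈ F, ∀ w ∈ F, v ≠ w → ∃ i, (s : ℤ) ≤ |v i - w i|) → P.real (⋂ v ∈ F, bad v) ≤ p ^ F.card)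
    (V0 : Finset (Fin d → ℤ)) (k : ℕ) :
    P.real {ω | ∃ g : ℕ → (Fin d → ℤ), StarPath k g ∧ g 0 ∈ V0 ∧ ∀ j < k, ω ∈ bad (g j)} ≤
      V0.card * (3 ^ d) ^ k * p ^ ((k : ℝ) / (s : ℝ) ^ d) := by
  classical
  have hcount := fun v : Fin d → ℤ => starPath_count (d := d) k v
  choose G hG1 hG2 using hcount
  set G' : (Fin d → ℤ) → Finset (ℕ → (Fin d → ℤ)) :=
    fun v => (G v).filter (fun g => Set.InjOn g (Set.Iio k)) with hG'
  have hone : ∀ g : ℕ → (Fin d → ℤ), Set.InjOn g (Set.Iio k) →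
      P.real (⋂ j ∈ Finset.range k, bad (g j)) ≤ p ^ ((k : ℝ) / (s : ℝ) ^ d) := by
    intro g hg
    obtain ⟨F, hF1, hF2, hF3⟩ := exists_separated hs hg
    have hsub : (⋂ j ∈ Finset.range k, bad (g j)) ⊆ ⋂ v ∈ F, bad v := by
      intro ω hω
      rw [Set.mem_iInter₂] at hω ⊢
      intro v hv
      obtain ⟨j, hj, rfl⟩ := hF1 v hv
      exact hω j (Finset.mem_range.2 hj)
    calc P.real (⋂ j ∈ Finset.range k, bad (g j)) ≤ P.real (⋂ v ∈ F, bad v) :=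
          measureReal_mono hsub
      _ ≤ p ^ F.card := h F hF3
      _ = p ^ ((F.card : ℕ) : ℝ) := (Real.rpow_natCast p _).symm
      _ ≤ p ^ ((k : ℝ) / (s : ℝ) ^ d) := Real.rpow_le_rpow_of_exponent_ge hp hp1 hF2
  have hsub : {ω | ∃ g : ℕ → (Fin d → ℤ), StarPath k g ∧ g 0 ∈ V0 ∧ ∀ j < k, ω ∈ bad (g j)} ⊆
      ⋃ v ∈ V0, ⋃ g ∈ G' v, ⋂ j ∈ Finset.range k, bad (g j) := by
    rintro ω ⟨g, hg, hg0, hgb⟩
    obtain ⟨g', hg', hgg⟩ := hG2 (g 0) g hg rfl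
    rw [Set.mem_iUnion₂]
    refine ⟨g 0, hg0, ?_⟩
    rw [Set.mem_iUnion₂]
    refine ⟨g', ?_, ?_⟩
    · rw [hG', Finset.mem_filter]
      refine ⟨hg', ?_⟩
      intro i hi j hj hij
      rw [hgg i hi, hgg j hj] at hij
      exact hg.1 hi hj hij
    · rw [Set.mem_iInter₂]
      intro j hj
      rw [Finset.mem_range] at hj
      rw [hgg j hj]
      exact hgb j hj
  have hpow : 0 ≤ p ^ ((k : ℝ) / (s : ℝ) ^ d) := Real.rpow_nonneg hp.le _
  calc P.real {ω | ∃ g : ℕ → (Fin d → ℤ), StarPath k g ∧ g 0 ∈ V0 ∧ ∀ j < k, ω ∈ bad (g j)}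
      ≤ P.real (⋃ v ∈ V0, ⋃ g ∈ G' v, ⋂ j ∈ Finset.range k, bad (g j)) :=
        measureReal_mono hsub (measure_ne_top _ _)
    _ ≤ ∑ v ∈ V0, P.real (⋃ g ∈ G' v, ⋂ j ∈ Finset.range k, bad (g j)) :=
        measureReal_biUnion_finset_le _ _
    _ ≤ ∑ v ∈ V0, ∑ g ∈ G' v, P.real (⋂ j ∈ Finset.range k, bad (g j)) :=
        Finset.sum_le_sum fun v _ => measureReal_biUnion_finset_le _ _
    _ ≤ ∑ v ∈ V0, ∑ _g ∈ G' v, p ^ ((k : ℝ) / (s : ℝ) ^ d) := by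
        refine Finset.sum_le_sum fun v _ => Finset.sum_le_sum fun g hg => hone g ?_
        rw [hG', Finset.mem_filter] at hg
        exact hg.2
    _ = ∑ v ∈ V0, ((G' v).card : ℝ) * p ^ ((k : ℝ) / (s : ℝ) ^ d) := by
        refine Finset.sum_congr rfl fun v _ => ?_
        rw [Finset.sum_const, nsmul_eq_mul]
    _ ≤ ∑ _v ∈ V0, ((3 : ℝ) ^ d) ^ k * p ^ ((k : ℝ) / (s : ℝ) ^ d) := by
        refine Finset.sum_le_sum fun v _ => mul_le_mul_of_nonneg_right ?_ hpow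
        have h1 : (G' v).card ≤ (3 ^ d) ^ k := (Finset.card_filter_le _ _).trans (hG1 v)
        exact_mod_cast h1
    _ = V0.card * (3 ^ d) ^ k * p ^ ((k : ℝ) / (s : ℝ) ^ d) := by
        rw [Finset.sum_const, nsmul_eq_mul, mul_assoc]


end MP_d19698_pr
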