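import Pool.Agent.Lib.MP_d19698_pr.C5a

/-! # C5b -/

open MeasureTheory ProbabilityTheory Filter Topology Set
open scoped ENNReal NNReal

namespace MP_d19698_pr

namespace Env

variable {d : ℕ} [NeZero d] (E : Env d)

private theorem C5b_base_pos : 0 < Real.exp (-3) / 6 ^ d := by positivity

private theorem C5b_base_lt_one : Real.exp (-3) / 6 ^ d < 1 := by
  have h1 : Real.exp (-3) < 1 := by
    rw [Real.exp_lt_one_iff]
    norm_num
  have h2 : (1 : ℝ) ≤ 6 ^ d := one_le_pow₀ (by norm_num)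
  rw [div_lt_one (by positivity)]
  linarith

theorem p1_pos : 0 < E.p1 := by
  unfold Env.p1
  positivity

theorem p1_lt_one : E.p1 < 1 := by
  unfold Env.p1
  refine pow_lt_one₀ (C5b_base_pos (d := d)).le (C5b_base_lt_one (d := d)) ?_
  have h : 0 < E.s0 := by
    unfold Env.s0
    omega
  exact (pow_pos h d).ne'

/-- `p1^{1/s0^d} = e^{-3}/6^d`. -/
theorem p1_rpow (k : ℝ) : E.p1 ^ (k / (E.s0 : ℝ) ^ d) = (Real.exp (-3) / 6 ^ d) ^ k := by
  unfold Env.p1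
  have hb := C5b_base_pos (d := d)
  rw [← Real.rpow_natCast, ← Real.rpow_mul hb.le]
  congr 1
  have h : (0 : ℝ) < E.s0 := by
    unfold Env.s0
    positivity
  push_cast
  field_simp

theorem qq_bounds (m : ℕ) : E.p1 / 2 ≤ E.qq m ∧ E.qq m < E.p1 := by
  have hp := E.p1_pos
  have hm : (0 : ℝ) ≤ m := Nat.cast_nonneg m
  unfold Env.qq
  have h1 : (1 : ℝ) / (2 * ((m : ℝ) + 1)) ≤ 1 / 2 := by
    apply one_div_le_one_div_of_le <;> linarith
  have h2 : (0 : ℝ) < 1 / (2 * ((m : ℝ) + 1)) := by positivity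
  constructor
  · nlinarith
  · nlinarith

theorem qq_add_le (m K : ℕ) (hm : 1 ≤ m) : E.qq K + E.p1 / (2 * ((K : ℝ) + 1) * ((K : ℝ) + 2)) ≤ E.qq (K + m) := by
  have hp := E.p1_pos
  have hK : (0 : ℝ) ≤ K := Nat.cast_nonneg K
  have hm' : (1 : ℝ) ≤ m := by exact_mod_cast hm
  unfold Env.qq
  have h1 : (1 : ℝ) / (2 * (((K + m : ℕ) : ℝ) + 1)) ≤ 1 / (2 * ((K : ℝ) + 2)) := by
    push_cast
    apply one_div_le_one_div_of_le <;> linarith
  have h2 : (1 : ℝ) / (2 * ((K : ℝ) + 1)) - 1 / (2 * ((K : ℝ) + 2)) = 1 / (2 * ((K : ℝ) + 1) * ((K : ℝ) + 2)) := by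
    field_simp
    ring
  have h3 : E.p1 / (2 * ((K : ℝ) + 1) * ((K : ℝ) + 2)) = E.p1 * (1 / (2 * ((K : ℝ) + 1) * ((K : ℝ) + 2))) := by ring
  rw [h3, ← h2]
  nlinarith

private theorem C5b_bdd (m : ℕ) (ω : E.Ω) : ∃ M : ℝ, ∀ p ∈ Ann (0 : Rd d) (1 / 2) (3 / 2), |E.hf 0 m ω p| ≤ M := by
  have hc : ContinuousOn (fun p => E.hf 0 m ω p) (Ann (0 : Rd d) (1 / 2) (3 / 2)) :=
    (E.continuous_hf 0 m ω).continuousOn
  obtain ⟨M, hM⟩ := (isCompact_Ann (0 : Rd d) (1 / 2) (3 / 2)).exists_bound_of_continuousOn hc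
  exact ⟨M, fun p hp => hM p hp⟩

theorem Zm_pos_lt_top (m : ℕ) (ω : E.Ω) : 0 < E.Zm m ω ∧ E.Zm m ω < ∞ := by
  obtain ⟨M, hM⟩ := E.C5b_bdd m ω
  constructor
  · have h := Cr_pos (f := E.hf 0 m ω) (x := 0) (r := 1 / 2) (r' := 3 / 2) (M := M) (by norm_num)
      (fun p hp => (abs_le.1 (hM p hp)).1)
    refine lt_of_lt_of_le ?_ h
    rw [ENNReal.ofReal_pos]
    have := Real.exp_pos (-M)
    nlinarith
  · have h := Cr_le (f := E.hf 0 m ω) (x := 0) (r := 1 / 2) (r' := 3 / 2) (M := M) (by norm_num) (by norm_num)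
      (fun p hp => (abs_le.1 (hM p hp)).2)
    exact lt_of_le_of_lt h ENNReal.ofReal_lt_top

private theorem C5b_meas (m : ℕ) : Measurable (E.Zm m) := by
  have h := E.measurable_Cr 0 m 0 (1 / 2) (3 / 2) (K := Ann (0 : Rd d) (1 / 2) (3 / 2)) subset_rfl
  exact h.mono (E.FF_le 0 m _) le_rfl

private theorem C5b_bddAbove (m : ℕ) : BddAbove {t : ℝ | 0 ≤ t ∧ E.P.real {ω | E.Zm m ω < ENNReal.ofReal t} ≤ E.qq m} := by
  have hmono : Monotone (fun n : ℕ => {ω : E.Ω | E.Zm m ω < ENNReal.ofReal n}) := by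
    intro i j hij ω hω
    refine lt_of_lt_of_le hω (ENNReal.ofReal_le_ofReal ?_)
    exact_mod_cast hij
  have hunion : (⋃ n : ℕ, {ω : E.Ω | E.Zm m ω < ENNReal.ofReal n}) = univ := by
    rw [eq_univ_iff_forall]
    intro ω
    rw [mem_iUnion]
    obtain ⟨n, hn⟩ := ENNReal.exists_nat_gt (E.Zm_pos_lt_top m ω).2.ne
    refine ⟨n, ?_⟩
    show E.Zm m ω < ENNReal.ofReal n
    rwa [ENNReal.ofReal_natCast]
  have htend := tendsto_measure_iUnion_atTop (μ := E.P) hmono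
  rw [hunion, measure_univ] at htend
  have htend2 : Tendsto (fun n : ℕ => E.P.real {ω : E.Ω | E.Zm m ω < ENNReal.ofReal n}) atTop (𝓝 1) := by
    have h3 := (ENNReal.tendsto_toReal ENNReal.one_ne_top).comp htend
    simpa [Measure.real, Function.comp_def] using h3
  have hq : E.qq m < 1 := lt_trans (E.qq_bounds m).2 E.p1_lt_one
  obtain ⟨n, hn⟩ := (htend2.eventually (lt_mem_nhds hq)).exists
  refine ⟨n, ?_⟩
  rintro t ⟨ht0, ht⟩
  by_contra hcon
  have h4 : (n : ℝ) ≤ t := le_of_lt (not_le.1 hcon)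
  have h5 : E.P.real {ω : E.Ω | E.Zm m ω < ENNReal.ofReal n} ≤ E.P.real {ω | E.Zm m ω < ENNReal.ofReal t} := by
    refine measureReal_mono ?_ (measure_ne_top _ _)
    intro ω hω
    exact lt_of_lt_of_le hω (ENNReal.ofReal_le_ofReal h4)
  linarith

theorem aq_pos (m : ℕ) : 0 < E.aq m := by
  have hanti : ∀ i j : ℕ, i ≤ j → (1 : ℝ) / ((j : ℝ) + 1) ≤ 1 / ((i : ℝ) + 1) := by
    intro i j hij
    have h1 : (i : ℝ) ≤ j := by exact_mod_cast hij
    have h0 : (0 : ℝ) ≤ i := Nat.cast_nonneg i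
    apply one_div_le_one_div_of_le <;> linarith
  have hmono : Monotone (fun n : ℕ => {ω : E.Ω | ENNReal.ofReal (1 / ((n : ℝ) + 1)) ≤ E.Zm m ω}) := by
    intro i j hij ω hω
    exact le_trans (ENNReal.ofReal_le_ofReal (hanti i j hij)) hω
  have hunion : (⋃ n : ℕ, {ω : E.Ω | ENNReal.ofReal (1 / ((n : ℝ) + 1)) ≤ E.Zm m ω}) = univ := by
    rw [eq_univ_iff_forall]
    intro ω
    rw [mem_iUnion]
    obtain ⟨hpos, hfin⟩ := E.Zm_pos_lt_top m ω
    have hpos' : 0 < (E.Zm m ω).toReal := ENNReal.toReal_pos hpos.ne' hfin.ne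
    obtain ⟨n, hn⟩ := exists_nat_one_div_lt hpos'
    refine ⟨n, ?_⟩
    show ENNReal.ofReal (1 / ((n : ℝ) + 1)) ≤ E.Zm m ω
    rw [← ENNReal.ofReal_toReal hfin.ne]
    exact ENNReal.ofReal_le_ofReal hn.le
  have htend := tendsto_measure_iUnion_atTop (μ := E.P) hmono
  rw [hunion, measure_univ] at htend
  have htend2 : Tendsto (fun n : ℕ => E.P.real {ω : E.Ω | ENNReal.ofReal (1 / ((n : ℝ) + 1)) ≤ E.Zm m ω}) atTop (𝓝 1) := by
    have h3 := (ENNReal.tendsto_toReal ENNReal.one_ne_top).comp htend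
    simpa [Measure.real, Function.comp_def] using h3
  have hq : 0 < E.qq m := lt_of_lt_of_le (half_pos E.p1_pos) (E.qq_bounds m).1
  obtain ⟨n, hn⟩ := (htend2.eventually (lt_mem_nhds (show 1 - E.qq m < 1 by linarith))).exists
  have hn0 : (0 : ℝ) < 1 / ((n : ℝ) + 1) := by positivity
  refine lt_of_lt_of_le hn0 (le_csSup (E.C5b_bddAbove m) ⟨hn0.le, ?_⟩)
  have hcompl : {ω : E.Ω | E.Zm m ω < ENNReal.ofReal (1 / ((n : ℝ) + 1))} =
      {ω : E.Ω | ENNReal.ofReal (1 / ((n : ℝ) + 1)) ≤ E.Zm m ω}ᶜ := by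
    ext ω
    simp [not_le]
  rw [hcompl, probReal_compl_eq_one_sub (measurableSet_le measurable_const (E.C5b_meas m))]
  linarith

/-- `P[Z_m < a_m] ≤ q_m` (left continuity). -/
theorem prob_lt_aq (m : ℕ) : E.P.real {ω | E.Zm m ω < ENNReal.ofReal (E.aq m)} ≤ E.qq m := by
  have ha := E.aq_pos m
  have hne : {t : ℝ | 0 ≤ t ∧ E.P.real {ω | E.Zm m ω < ENNReal.ofReal t} ≤ E.qq m}.Nonempty := by
    refine ⟨0, le_rfl, ?_⟩
    have h0 : {ω : E.Ω | E.Zm m ω < ENNReal.ofReal 0} = ∅ := by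
      rw [eq_empty_iff_forall_notMem]
      intro ω hω
      have hω' : E.Zm m ω < ENNReal.ofReal 0 := hω
      simp at hω'
    rw [h0]
    have hq : 0 < E.qq m := lt_of_lt_of_le (half_pos E.p1_pos) (E.qq_bounds m).1
    simpa using hq.le
  have hanti : ∀ i j : ℕ, i ≤ j → (1 : ℝ) / ((j : ℝ) + 1) ≤ 1 / ((i : ℝ) + 1) := by
    intro i j hij
    have h1 : (i : ℝ) ≤ j := by exact_mod_cast hij
    have h0 : (0 : ℝ) ≤ i := Nat.cast_nonneg i
    apply one_div_le_one_div_of_le <;> linarith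
  have hmono : Monotone (fun n : ℕ => {ω : E.Ω | E.Zm m ω < ENNReal.ofReal (E.aq m - 1 / ((n : ℝ) + 1))}) := by
    intro i j hij ω hω
    exact lt_of_lt_of_le hω (ENNReal.ofReal_le_ofReal (by linarith [hanti i j hij]))
  have hunion : (⋃ n : ℕ, {ω : E.Ω | E.Zm m ω < ENNReal.ofReal (E.aq m - 1 / ((n : ℝ) + 1))}) =
      {ω : E.Ω | E.Zm m ω < ENNReal.ofReal (E.aq m)} := by
    ext ω
    rw [mem_iUnion]
    obtain ⟨hpos, hfin⟩ := E.Zm_pos_lt_top m ω
    have hpos' : 0 < (E.Zm m ω).toReal := ENNReal.toReal_pos hpos.ne' hfin.ne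
    constructor
    · rintro ⟨n, hn⟩
      have hn0 : (0 : ℝ) < 1 / ((n : ℝ) + 1) := by positivity
      exact lt_of_lt_of_le hn (ENNReal.ofReal_le_ofReal (by linarith))
    · intro h
      have h' : E.Zm m ω < ENNReal.ofReal (E.aq m) := h
      rw [← ENNReal.ofReal_toReal hfin.ne, ENNReal.ofReal_lt_ofReal_iff ha] at h'
      obtain ⟨n, hn⟩ := exists_nat_one_div_lt (sub_pos.2 h')
      refine ⟨n, ?_⟩
      show E.Zm m ω < ENNReal.ofReal (E.aq m - 1 / ((n : ℝ) + 1))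
      rw [← ENNReal.ofReal_toReal hfin.ne]
      exact (ENNReal.ofReal_lt_ofReal_iff (by linarith)).2 (by linarith)
  have htend := tendsto_measure_iUnion_atTop (μ := E.P) hmono
  rw [hunion] at htend
  have htend2 : Tendsto (fun n : ℕ => E.P.real {ω : E.Ω | E.Zm m ω < ENNReal.ofReal (E.aq m - 1 / ((n : ℝ) + 1))}) atTop
      (𝓝 (E.P.real {ω : E.Ω | E.Zm m ω < ENNReal.ofReal (E.aq m)})) := by
    have h3 := (ENNReal.tendsto_toReal (measure_ne_top E.P _)).comp htend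
    simpa [Measure.real, Function.comp_def] using h3
  refine le_of_tendsto htend2 (Eventually.of_forall fun n => ?_)
  have hn0 : (0 : ℝ) < 1 / ((n : ℝ) + 1) := by positivity
  have hlt : E.aq m - 1 / ((n : ℝ) + 1) < E.aq m := by linarith
  obtain ⟨t, ht, htlt⟩ := exists_lt_of_lt_csSup hne hlt
  refine le_trans ?_ ht.2
  refine measureReal_mono ?_ (measure_ne_top _ _)
  intro ω hω
  exact lt_of_lt_of_le hω (ENNReal.ofReal_le_ofReal htlt.le)

/-- `P[Z_m < t] ≤ q_m`, `0 ≤ t` implies `t ≤ a_m`. -/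
theorem le_aq {m : ℕ} {t : ℝ} (ht : 0 ≤ t) (h : E.P.real {ω | E.Zm m ω < ENNReal.ofReal t} ≤ E.qq m) : t ≤ E.aq m :=
  le_csSup (E.C5b_bddAbove m) ⟨ht, h⟩

end Env
end MP_d19698_pr
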