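import Pool.Agent.Lib.MP_d19698_pr.C5b

/-! # C5c -/

open MeasureTheory ProbabilityTheory Filter Topology Set
open scoped ENNReal NNReal

namespace MP_d19698_pr
namespace Env
variable {d : ℕ} [NeZero d] (E : Env d)

/-- **Bad cells.** Level `l`, fine levels `[l, l+m)`, threshold `a_m`: the probability that an injective `*`-path of `k` bad cells starts in `V0` is
`≤ |V0| (3^d)^k (e^{-3}/6^d)^k`. (`iIndep_cells`, `measurable_Cr`, `cell_law`, `prob_lt_aq`, `peierls` with `s = s0`, `p = p1`.) -/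
theorem bad_path_prob (l m : ℕ) (V0 : Finset (Fin d → ℤ)) (k : ℕ) :
    E.P.real {ω | ∃ g : ℕ → (Fin d → ℤ), StarPath k g ∧ g 0 ∈ V0 ∧ ∀ j < k, ¬ GoodCell (E.hf l (l + m) ω) l (E.aq m) (g j)} ≤
      V0.card * (3 ^ d) ^ k * (Real.exp (-3) / 6 ^ d) ^ k := by
  have hs : 1 ≤ E.s0 := by unfold Env.s0; omega
  have h := peierls E.P (fun v => {ω | ¬ GoodCell (E.hf l (l+m) ω) l (E.aq m) v}) hs E.p1_pos E.p1_lt_one.le ?_ V0 k
  · rw [E.p1_rpow, Real.rpow_natCast] at h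
    exact h
  · intro F hF
    have hind := E.iIndep_cells l (l + m) (ι := F) (fun a => (a : Fin d → ℤ)) (by
      intro a b hab
      exact hF a a.2 b b.2 (fun hc => hab (Subtype.ext hc)))
    have hset : (⋂ v ∈ F, {ω | ¬ GoodCell (E.hf l (l+m) ω) l (E.aq m) v}) =
        ⋂ a : F, {ω | Cr (E.hf l (l + m) ω) (latt l (a : Fin d → ℤ)) (1 / 2 * dy l) (3 / 2 * dy l) <
          ENNReal.ofReal (dy l * E.aq m)} := by
      ext ω
      simp only [mem_iInter, mem_setOf_eq, GoodCell, not_le, Subtype.forall]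
    have hprod := hind.meas_iInter (s := fun a : F => {ω | Cr (E.hf l (l + m) ω) (latt l (a : Fin d → ℤ)) (1 / 2 * dy l) (3 / 2 * dy l) <
          ENNReal.ofReal (dy l * E.aq m)}) (fun a => by
        have hm := E.measurable_Cr l (l + m) (latt l (a : Fin d → ℤ)) (1 / 2 * dy l) (3 / 2 * dy l)
          (K := CBox (latt l (a : Fin d → ℤ)) (3 / 2 * dy l)) (fun y hy => hy.1)
        exact hm (measurableSet_Iio (a := ENNReal.ofReal (dy l * E.aq m))))
    rw [hset, Measure.real, hprod, ENNReal.toReal_prod]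
    have hle : ∀ a : F, (E.P {ω | Cr (E.hf l (l + m) ω) (latt l (a : Fin d → ℤ)) (1 / 2 * dy l) (3 / 2 * dy l) <
          ENNReal.ofReal (dy l * E.aq m)}).toReal ≤ E.p1 := by
      intro a
      have h1 := E.cell_law l m (latt l (a : Fin d → ℤ)) (E.aq m)
      have h2 := E.prob_lt_aq m
      rw [← h1] at h2
      exact h2.trans (E.qq_bounds m).2.le
    calc ∏ a : F, (E.P {ω | Cr (E.hf l (l + m) ω) (latt l (a : Fin d → ℤ)) (1 / 2 * dy l) (3 / 2 * dy l) <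
          ENNReal.ofReal (dy l * E.aq m)}).toReal ≤ ∏ _a : F, E.p1 :=
          Finset.prod_le_prod (fun _ _ => ENNReal.toReal_nonneg) (fun a _ => hle a)
      _ = E.p1 ^ F.card := by simp

omit [NeZero d] in
private theorem C5c_card (K : ℕ) : ((Fintype.piFinset (fun _ : Fin d => Finset.Icc (-(2 ^ (K + 1)) : ℤ) (2 ^ (K + 1)))).card : ℝ) ≤ (2 ^ (K + 3)) ^ d := by
  rw [Fintype.card_piFinset_const, Int.card_Icc]
  push_cast
  refine pow_le_pow_left₀ (by positivity) ?_ _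
  have h1 : ((2 : ℤ) ^ (K + 1) + 1 - -(2 ^ (K + 1))).toNat = 2 ^ (K + 2) + 1 := by
    have : ((2 : ℤ) ^ (K + 1) + 1 - -(2 ^ (K + 1))) = ((2 ^ (K + 2) + 1 : ℕ) : ℤ) := by
      push_cast; ring
    rw [this, Int.toNat_natCast]
  rw [h1]
  push_cast
  have : (1 : ℝ) ≤ 2 ^ (K + 2) := one_le_pow₀ (by norm_num)
  calc (2 : ℝ) ^ (K + 2) + 1 ≤ 2 ^ (K + 2) + 2 ^ (K + 2) := by linarith
    _ = 2 ^ (K + 3) := by ring

omit [NeZero d] in
private theorem C5c_bound (K : ℕ) : ((2 : ℝ) ^ (K + 3)) ^ d * (3 ^ d) ^ (K + 1) * (Real.exp (-3) / 6 ^ d) ^ (K + 1) =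
    4 ^ d * Real.exp (-3 * ((K : ℝ) + 1)) := by
  have h6 : ((6 : ℝ) ^ d) ^ (K + 1) = (2 ^ (K + 1)) ^ d * (3 ^ d) ^ (K + 1) := by
    rw [← pow_mul, ← pow_mul, ← pow_mul, mul_comm (K + 1) d, ← mul_pow]; norm_num
  have h2 : ((2 : ℝ) ^ (K + 3)) ^ d = (2 ^ (K + 1)) ^ d * 4 ^ d := by
    rw [← mul_pow]; congr 1; ring
  have he : Real.exp (-3) ^ (K + 1) = Real.exp (-3 * ((K : ℝ) + 1)) := by
    rw [← Real.exp_nat_mul]; push_cast; ring_nf
  rw [div_pow, h6, h2, he]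
  have : (0 : ℝ) < (2 ^ (K + 1)) ^ d := by positivity
  have : (0 : ℝ) < (3 ^ d) ^ (K + 1) := by positivity
  field_simp

/-- **(F1)** `a_{K+m} ≥ e^{-C √K log(K+2)} a_m a_K` for `K ≥ K0`, `m ≥ 1`. Events: no bad path of `K+1` cells starting in `|v|_∞ ≤ 2^{K+1}` (probability of failure
`≤ (2^{K+2}+1)^d (3^d)^{K+1} (e^{-3}/6^d)^{K+1} ≤ e^{-2K}/4`), `osc_log` (failure `≤ e^{-2K}/4`), `Z_K ≥ a_K` (failure `≤ q_K`). On them `f1_det` with `g = ξh_{0,K}`, `φ = ξh_{K,K+m}`,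
`ω = C√K log(K+2)`: `Z_{K+m} ≥ t0 := a_m a_K e^{-2ω}/(8√d 4^d (K+2))`. So `P[Z_{K+m} < t0] ≤ q_K + e^{-2K} ≤ q_{K+m}` (`qq_add_le`, `K` large), `le_aq`. -/
theorem aq_supermul : ∃ (C : ℝ) (K0 : ℕ), 0 < C ∧ ∀ K : ℕ, K0 ≤ K → ∀ m : ℕ, 1 ≤ m →
    Real.exp (-(C * Real.sqrt K * Real.log ((K : ℝ) + 2))) * E.aq m * E.aq K ≤ E.aq (K + m) := by
  obtain ⟨C0, l0, hC0, hosc⟩ := E.osc_log
  -- two asymptotic facts
  have hA : ∀ᶠ K : ℕ in atTop, 4 ^ d * Real.exp (-3 * ((K : ℝ) + 1)) ≤ Real.exp (-(2 * K)) / 4 := by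
    have ht : Tendsto (fun K : ℕ => Real.exp (-(K : ℝ))) atTop (𝓝 0) :=
      (Real.tendsto_exp_neg_atTop_nhds_zero).comp tendsto_natCast_atTop_atTop
    have hpos : (0 : ℝ) < Real.exp 3 / (4 * 4 ^ d) := by positivity
    filter_upwards [ht.eventually (gt_mem_nhds hpos)] with K hK
    have e1 : Real.exp (-3 * ((K : ℝ) + 1)) = Real.exp (-(2 * K)) * Real.exp (-(K : ℝ)) * (Real.exp 3)⁻¹ := by
      rw [← Real.exp_neg, ← Real.exp_add, ← Real.exp_add]; ring_nf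
    rw [e1]
    have h1 : (4 : ℝ) ^ d * (Real.exp (-(K : ℝ)) * (Real.exp 3)⁻¹) ≤ 1 / 4 := by
      have := mul_le_mul_of_nonneg_left hK.le (show (0:ℝ) ≤ 4 ^ d * (Real.exp 3)⁻¹ by positivity)
      calc (4 : ℝ) ^ d * (Real.exp (-(K : ℝ)) * (Real.exp 3)⁻¹) = 4 ^ d * (Real.exp 3)⁻¹ * Real.exp (-(K : ℝ)) := by ring
        _ ≤ 4 ^ d * (Real.exp 3)⁻¹ * (Real.exp 3 / (4 * 4 ^ d)) := this
        _ = 1 / 4 := by field_simp
    calc (4 : ℝ) ^ d * (Real.exp (-(2 * K)) * Real.exp (-(K : ℝ)) * (Real.exp 3)⁻¹)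
        = Real.exp (-(2 * K)) * (4 ^ d * (Real.exp (-(K : ℝ)) * (Real.exp 3)⁻¹)) := by ring
      _ ≤ Real.exp (-(2 * K)) * (1 / 4) := mul_le_mul_of_nonneg_left h1 (Real.exp_pos _).le
      _ = Real.exp (-(2 * K)) / 4 := by ring
  have hB : ∀ᶠ K : ℕ in atTop, Real.exp (-(2 * (K : ℝ))) / 2 ≤ E.p1 / (2 * ((K : ℝ) + 1) * ((K : ℝ) + 2)) := by
    have ht : Tendsto (fun K : ℕ => ((K : ℝ)) ^ 1 * Real.exp (-(K : ℝ))) atTop (𝓝 0) :=
      (Real.tendsto_pow_mul_exp_neg_atTop_nhds_zero 1).comp tendsto_natCast_atTop_atTop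
    have hpos : (0 : ℝ) < min (E.p1 / 9) 1 := lt_min (by have := E.p1_pos; positivity) one_pos
    filter_upwards [ht.eventually (gt_mem_nhds hpos), eventually_ge_atTop 1] with K hK hK1
    have hK1' : (1 : ℝ) ≤ K := by exact_mod_cast hK1
    rw [pow_one] at hK
    have hx : (K : ℝ) * Real.exp (-(K : ℝ)) < E.p1 / 9 := lt_of_lt_of_le hK (min_le_left _ _)
    have hy : (K : ℝ) * Real.exp (-(K : ℝ)) < 1 := lt_of_lt_of_le hK (min_le_right _ _)
    have e2 : Real.exp (-(2 * (K : ℝ))) = Real.exp (-(K : ℝ)) * Real.exp (-(K : ℝ)) := by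
      rw [← Real.exp_add]; ring_nf
    rw [div_le_div_iff₀ (by norm_num) (by positivity), e2]
    have hp : 0 < Real.exp (-(K : ℝ)) := Real.exp_pos _
    have h3 : ((K : ℝ) * Real.exp (-(K : ℝ))) * ((K : ℝ) * Real.exp (-(K : ℝ))) ≤ E.p1 / 9 * 1 :=
      mul_le_mul hx.le hy.le (by positivity) (by have := E.p1_pos; positivity)
    have h4 : ((K : ℝ) + 1) * ((K : ℝ) + 2) ≤ 9 * (K * K) := by nlinarith
    have h5 : Real.exp (-(K : ℝ)) * Real.exp (-(K : ℝ)) * (((K : ℝ) + 1) * ((K : ℝ) + 2)) ≤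
        Real.exp (-(K : ℝ)) * Real.exp (-(K : ℝ)) * (9 * (K * K)) :=
      mul_le_mul_of_nonneg_left h4 (by positivity)
    nlinarith
  obtain ⟨K1, hK1⟩ := (hA.and hB).exists_forall_of_atTop
  set Q : ℝ := 8 * Real.sqrt d * 4 ^ d with hQ
  have hd1 : (1 : ℝ) ≤ d := by
    have := E.hd
    have h1 : 1 ≤ d := by omega
    exact_mod_cast h1
  have hsd : 1 ≤ Real.sqrt d := by rw [Real.one_le_sqrt]; exact hd1
  have hQ1 : 1 ≤ Q := by
    have h4 : (1 : ℝ) ≤ 4 ^ d := one_le_pow₀ (by norm_num)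
    rw [hQ]
    nlinarith
  have hlQ : 0 ≤ Real.log Q := Real.log_nonneg hQ1
  refine ⟨2 * C0 + Real.log Q + 1, max (max l0 K1) 4, by positivity, ?_⟩
  intro K hK m hm
  have hKl : l0 ≤ K := le_trans (le_trans (le_max_left _ _) (le_max_left _ _)) hK
  have hKK : K1 ≤ K := le_trans (le_trans (le_max_right _ _) (le_max_left _ _)) hK
  have hK4 : 4 ≤ K := le_trans (le_max_right _ _) hK
  have hK4' : (4 : ℝ) ≤ K := by exact_mod_cast hK4
  obtain ⟨hAK, hBK⟩ := hK1 K hKK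
  have hoscK := hosc K hKl
  set W : ℝ := C0 * Real.sqrt K * Real.log ((K : ℝ) + 2) with hW
  have hlog1 : 1 ≤ Real.log ((K : ℝ) + 2) := by
    rw [Real.le_log_iff_exp_le (by positivity)]
    have := Real.exp_one_lt_d9
    linarith
  have hsK : 1 ≤ Real.sqrt K := by rw [Real.one_le_sqrt]; linarith
  have hW0 : 0 ≤ W := by rw [hW]; positivity
  set a := E.aq m with ha
  have ha0 : 0 < a := E.aq_pos m
  have haK : 0 < E.aq K := E.aq_pos K
  set t1 : ℝ := a * Real.exp (-(2 * W)) / (8 * Real.sqrt d * 4 ^ d * ((K : ℝ) + 2)) with ht1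
  have ht1pos : 0 < t1 := by rw [ht1]; positivity
  -- main event inclusion
  set V0 := Fintype.piFinset (fun _ : Fin d => Finset.Icc (-(2 ^ (K + 1)) : ℤ) (2 ^ (K + 1))) with hV0
  have hincl : {ω | E.Zm (K + m) ω < ENNReal.ofReal (t1 * E.aq K)} ⊆
      ({ω | ∃ g : ℕ → (Fin d → ℤ), StarPath (K + 1) g ∧ g 0 ∈ V0 ∧ ∀ j < K + 1, ¬ GoodCell (E.hf K (K + m) ω) K (E.aq m) (g j)} ∪
       {ω | ∃ v : Fin d → ℤ, (∀ i, |v i| ≤ 2 ^ (K + 1)) ∧ ∃ x ∈ CBox (latt K v) (((K : ℝ) + 4) * dy K), ∃ y ∈ CBox (latt K v) (((K : ℝ) + 4) * dy K),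
      C0 * Real.sqrt K * Real.log ((K : ℝ) + 2) < |E.hf 0 K ω x - E.hf 0 K ω y|}) ∪
       {ω | E.Zm K ω < ENNReal.ofReal (E.aq K)} := by
    intro ω hω
    by_contra hnot
    simp only [mem_union, not_or] at hnot
    obtain ⟨⟨hn1, hn2⟩, hn3⟩ := hnot
    have h3 : ENNReal.ofReal (E.aq K) ≤ E.Zm K ω := not_lt.mp hn3
    have hdet := f1_det (d := d) hK4 ha0 hW0 (E.hf 0 K ω) (E.hf K (K + m) ω) (by
        intro p hp hreg
        by_contra hc
        push Not at hc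
        refine hn1 ⟨p, hp, ?_, ?_⟩
        · rw [hV0, Fintype.mem_piFinset]
          intro i
          rw [Finset.mem_Icc]
          exact abs_le.mp (hreg 0 (Nat.succ_pos K) i)
        · intro j hj hg
          exact hc j hj hg) (by
        intro v hv x hx y hy
        by_contra hc
        push Not at hc
        exact hn2 ⟨v, hv, x, hx, y, hy, hc⟩)
    have hfun : (fun x => E.hf 0 K ω x + E.hf K (K + m) ω x) = E.hf 0 (K + m) ω := by
      funext x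
      rw [E.hf_add (Nat.zero_le K) (Nat.le_add_right K m)]
    rw [hfun] at hdet
    have hfin : ENNReal.ofReal (t1 * E.aq K) ≤ E.Zm (K + m) ω := by
      rw [ENNReal.ofReal_mul ht1pos.le]
      calc ENNReal.ofReal t1 * ENNReal.ofReal (E.aq K) ≤ ENNReal.ofReal t1 * E.Zm K ω := by gcongr
        _ ≤ E.Zm (K + m) ω := hdet
    exact absurd hω (not_lt.mpr hfin)
  have hprob : E.P.real {ω | E.Zm (K + m) ω < ENNReal.ofReal (t1 * E.aq K)} ≤ E.qq (K + m) := by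
    have hb1 := E.bad_path_prob K m V0 (K + 1)
    have hb1' : (V0.card : ℝ) * (3 ^ d) ^ (K + 1) * (Real.exp (-3) / 6 ^ d) ^ (K + 1) ≤ Real.exp (-(2 * K)) / 4 := by
      refine le_trans ?_ hAK
      rw [← C5c_bound (d := d) K]
      have hc := C5c_card (d := d) K
      have hpp : (0 : ℝ) ≤ (3 ^ d) ^ (K + 1) * (Real.exp (-3) / 6 ^ d) ^ (K + 1) := by positivity
      have := mul_le_mul_of_nonneg_right hc hpp
      rw [mul_assoc, mul_assoc]
      exact this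
    have hb3 := E.prob_lt_aq K
    calc E.P.real {ω | E.Zm (K + m) ω < ENNReal.ofReal (t1 * E.aq K)}
        ≤ _ := measureReal_mono hincl
      _ ≤ _ := measureReal_union_le _ _
      _ ≤ _ := add_le_add (measureReal_union_le _ _) le_rfl
      _ ≤ (Real.exp (-(2 * K)) / 4 + Real.exp (-(2 * K)) / 4) + E.qq K :=
          add_le_add (add_le_add (hb1.trans hb1') hoscK) hb3
      _ = E.qq K + Real.exp (-(2 * K)) / 2 := by ring
      _ ≤ E.qq K + E.p1 / (2 * ((K : ℝ) + 1) * ((K : ℝ) + 2)) := by linarith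
      _ ≤ E.qq (K + m) := E.qq_add_le m K hm
  have hfin := E.le_aq (by positivity) hprob
  refine le_trans ?_ hfin
  -- compare constants
  have hkey : Real.exp (-((2 * C0 + Real.log Q + 1) * Real.sqrt K * Real.log ((K : ℝ) + 2))) ≤
      Real.exp (-(2 * W)) / (Q * ((K : ℝ) + 2)) := by
    have hQK : 0 < Q * ((K : ℝ) + 2) := by positivity
    have e3 : Real.exp (-(2 * W)) / (Q * ((K : ℝ) + 2)) = Real.exp (-(2 * W) - Real.log Q - Real.log ((K : ℝ) + 2)) := by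
      rw [Real.exp_sub, Real.exp_sub, Real.exp_log (by positivity), Real.exp_log (by positivity), div_div]
    rw [e3, Real.exp_le_exp, hW]
    have hsl : 1 ≤ Real.sqrt K * Real.log ((K : ℝ) + 2) := by nlinarith
    have hsl2 : Real.log ((K : ℝ) + 2) ≤ Real.sqrt K * Real.log ((K : ℝ) + 2) := by nlinarith
    have := mul_le_mul_of_nonneg_left hsl hlQ
    nlinarith
  calc Real.exp (-((2 * C0 + Real.log Q + 1) * Real.sqrt K * Real.log ((K : ℝ) + 2))) * a * E.aq K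
      ≤ Real.exp (-(2 * W)) / (Q * ((K : ℝ) + 2)) * a * E.aq K := by gcongr
    _ = t1 * E.aq K := by rw [ht1, hQ]; ring

end Env
end MP_d19698_pr
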