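import Pool.Agent.Lib.MP_d19698_pr.C5c

/-! # C5d -/

open MeasureTheory ProbabilityTheory Filter Topology Set
open scoped ENNReal NNReal

namespace MP_d19698_pr
namespace Env
variable {d : ℕ} [NeZero d] (E : Env d)

/-- the combinatorial bound tends to `0` -/
private theorem C5d_small (d : ℕ) {R c ε : ℝ} (hR : 0 < R) (hc : 0 < c) (hε : 0 < ε) :
    ∃ J : ℕ, 6 ≤ c * 2 ^ J ∧ ∀ k : ℕ, c * 2 ^ J / 2 - 3 ≤ k →
      (2 * (R * 2 ^ J) + 1) ^ d * (3 ^ d) ^ k * (Real.exp (-3) / 6 ^ d) ^ k ≤ ε := by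
  have hlim := Real.tendsto_pow_mul_exp_neg_atTop_nhds_zero d
  have h2 : Tendsto (fun J : ℕ => (3 * c / 2) * (2 : ℝ) ^ J) atTop atTop :=
    (tendsto_pow_atTop_atTop_of_one_lt one_lt_two).const_mul_atTop (by positivity)
  have h3 := (hlim.comp h2).const_mul (((2 * R + 1) / (3 * c / 2)) ^ d * Real.exp 9)
  rw [mul_zero] at h3
  have h4 := h3.eventually (gt_mem_nhds hε)
  have h5 : Tendsto (fun J : ℕ => c * (2 : ℝ) ^ J) atTop atTop :=
    (tendsto_pow_atTop_atTop_of_one_lt one_lt_two).const_mul_atTop hc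
  obtain ⟨J, hJ1, hJ2⟩ := (h4.and (h5.eventually (eventually_ge_atTop 6))).exists
  refine ⟨J, hJ2, ?_⟩
  intro k hk
  refine le_trans ?_ hJ1.le
  have hy : (1 : ℝ) ≤ 2 ^ J := one_le_pow₀ one_le_two
  have h6 : (2 * (R * 2 ^ J) + 1) ^ d ≤ ((2 * R + 1) * 2 ^ J) ^ d := by
    apply pow_le_pow_left₀ (by positivity)
    nlinarith
  have h7 : ((3 : ℝ) ^ d) ^ k * (Real.exp (-3) / 6 ^ d) ^ k ≤ Real.exp (-3) ^ k := by
    rw [← mul_pow]
    apply pow_le_pow_left₀ (by positivity)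
    rw [mul_div_assoc']
    rw [div_le_iff₀ (by positivity)]
    have : (3 : ℝ) ^ d ≤ 6 ^ d := pow_le_pow_left₀ (by norm_num) (by norm_num) d
    nlinarith [Real.exp_pos (-3)]
  have h8 : Real.exp (-3) ^ k ≤ Real.exp 9 * Real.exp (-(3 * c / 2 * 2 ^ J)) := by
    rw [← Real.exp_nat_mul, ← Real.exp_add]
    apply Real.exp_le_exp.2
    nlinarith
  have h9 : ((2 * R + 1) * (2 : ℝ) ^ J) ^ d = ((2 * R + 1) / (3 * c / 2)) ^ d * (3 * c / 2 * 2 ^ J) ^ d := by
    rw [← mul_pow]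
    congr 1
    field_simp
  calc (2 * (R * 2 ^ J) + 1) ^ d * (3 ^ d) ^ k * (Real.exp (-3) / 6 ^ d) ^ k
      = (2 * (R * 2 ^ J) + 1) ^ d * ((3 ^ d) ^ k * (Real.exp (-3) / 6 ^ d) ^ k) := by ring
    _ ≤ ((2 * R + 1) * 2 ^ J) ^ d * (Real.exp 9 * Real.exp (-(3 * c / 2 * 2 ^ J))) :=
        mul_le_mul h6 (h7.trans h8) (by positivity) (by positivity)
    _ = _ := by
        rw [h9, Function.comp_apply]
        ring

/-- **(CrossLow)** for `ε > 0`, `0 < r < r'` there are `J` and `c > 0` with `P[Cr(ξh_{l,l+m}; x, r 2^{-l}, r' 2^{-l}) < c 2^{-l} a_{m-J}] ≤ ε` for all `m ≥ J` and all `l, x`.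
By `cr_law` it suffices to treat `l = 0`, `x = 0`. Choose `k = ⌊(r'-r) 2^J/2⌋ - 2`; `bad_path_prob` at level `J` with fine levels `[J, m)`, `V0 = {|v|_∞ ≤ (r'+1)2^J}`: the bound
`(2(r'+1)2^J+1)^d (3^d e^{-3}/6^d)^k` tends to `0` as `J → ∞` (double exponentially). `abs_bound J (r'+2)` gives `M`; `cross_det`, `c = e^{-M} 2^{-J}`. -/
theorem cross_low {ε r r' : ℝ} (hε : 0 < ε) (hr : 0 < r) (hrr : r < r') : ∃ (J : ℕ) (c : ℝ), 0 < c ∧ ∀ (l m : ℕ), J ≤ m → ∀ x : Rd d,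
    E.P.real {ω | Cr (E.hf l (l + m) ω) x (dy l * r) (dy l * r') < ENNReal.ofReal (c * (dy l * E.aq (m - J)))} ≤ ε := by
  obtain ⟨J, hJ6, hJ⟩ := C5d_small d (R := r' + 1) (c := r' - r) (ε := ε / 2) (by linarith) (by linarith)
    (by linarith)
  obtain ⟨M, hM0, hM⟩ := E.abs_bound J (r' + 2) (ε := ε / 2) (by linarith)
  have hdJ : 0 < dy J := dy_pos J
  refine ⟨J, Real.exp (-M) * dy J, by positivity, ?_⟩
  intro l m hm x
  have e1 : Real.exp (-M) * dy J * (dy l * E.aq (m - J)) = dy l * (Real.exp (-M) * (dy J * E.aq (m - J))) := by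
    ring
  rw [e1, E.cr_law l m x r r']
  -- the number of cells of a path
  obtain ⟨k, hk⟩ : ∃ k : ℕ, k = ⌊(r' - r) * 2 ^ J / 2⌋₊ - 2 := ⟨_, rfl⟩
  have hfl3 : 3 ≤ ⌊(r' - r) * 2 ^ J / 2⌋₊ := by
    apply Nat.le_floor
    push_cast
    linarith
  have hk1 : 1 ≤ k := by omega
  have hkle : (2 * k + 4 : ℝ) ≤ (r' - r) * 2 ^ J := by
    have h1 : (⌊(r' - r) * 2 ^ J / 2⌋₊ : ℝ) ≤ (r' - r) * 2 ^ J / 2 := by
      apply Nat.floor_le
      have : 0 < r' - r := by linarith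
      positivity
    have h2 : ((k + 2 : ℕ) : ℝ) = (⌊(r' - r) * 2 ^ J / 2⌋₊ : ℝ) := by
      congr 1
      omega
    push_cast at h2
    linarith
  have hkge : (r' - r) * 2 ^ J / 2 - 3 ≤ k := by
    have h1 := Nat.lt_floor_add_one ((r' - r) * 2 ^ J / 2)
    have h2 : ((k + 2 : ℕ) : ℝ) = (⌊(r' - r) * 2 ^ J / 2⌋₊ : ℝ) := by
      congr 1
      omega
    push_cast at h2
    linarith
  -- starting cells
  obtain ⟨N, hN⟩ : ∃ N : ℕ, N = ⌊(r' + 1) * 2 ^ J⌋₊ := ⟨_, rfl⟩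
  obtain ⟨V0, hV0⟩ : ∃ V0 : Finset (Fin d → ℤ), V0 = Fintype.piFinset fun _ => Finset.Icc (-(N : ℤ)) N := ⟨_, rfl⟩
  have hVcard : (V0.card : ℝ) ≤ (2 * ((r' + 1) * 2 ^ J) + 1) ^ d := by
    rw [hV0, Fintype.card_piFinset, Finset.prod_const, Finset.card_univ, Fintype.card_fin, Int.card_Icc]
    have h1 : ((N : ℤ) + 1 - -(N : ℤ)).toNat = 2 * N + 1 := by omega
    rw [h1]
    push_cast
    apply pow_le_pow_left₀ (by positivity)
    have h2 : (N : ℝ) ≤ (r' + 1) * 2 ^ J := by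
      rw [hN]
      apply Nat.floor_le
      have : 0 < r' + 1 := by linarith
      positivity
    linarith
  have hbad := E.bad_path_prob J (m - J) V0 k
  rw [show J + (m - J) = m by omega] at hbad
  have hbad' : E.P.real {ω | ∃ g : ℕ → (Fin d → ℤ), StarPath k g ∧ g 0 ∈ V0 ∧
      ∀ j < k, ¬ GoodCell (E.hf J m ω) J (E.aq (m - J)) (g j)} ≤ ε / 2 := by
    refine hbad.trans (le_trans ?_ (hJ k hkge))
    have h1 : (0 : ℝ) ≤ (3 ^ d) ^ k * (Real.exp (-3) / 6 ^ d) ^ k := by positivity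
    nlinarith
  have hsub : {ω | Cr (E.hf 0 m ω) 0 r r' < ENNReal.ofReal (Real.exp (-M) * (dy J * E.aq (m - J)))} ⊆
      {ω | ∃ g : ℕ → (Fin d → ℤ), StarPath k g ∧ g 0 ∈ V0 ∧
        ∀ j < k, ¬ GoodCell (E.hf J m ω) J (E.aq (m - J)) (g j)} ∪
      {ω | ∃ x ∈ CBox (0 : Rd d) (r' + 2), M < |E.hf 0 J ω x|} := by
    intro ω hω
    by_contra hcon
    rw [Set.mem_union, not_or] at hcon
    obtain ⟨h1, h2⟩ := hcon
    simp only [Set.mem_ofPred_eq, not_exists, not_and] at h1 h2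
    have h3 := cross_det (k := k) hk1 (a := E.aq (m - J)) (M := M) (E.aq_pos (m - J)).le hr hkle
      (E.hf 0 J ω) (E.hf J m ω) (by
        intro p hp hreg
        have h4 : p 0 ∈ V0 := by
          rw [hV0, Fintype.mem_piFinset]
          intro i
          have h5 := hreg 0 (by omega) i
          have h6 : |p 0 i| ≤ (N : ℤ) := by
            rw [hN]
            have h7 : (|p 0 i|.toNat : ℝ) ≤ (r' + 1) * 2 ^ J := by
              have h8 : ((|p 0 i|.toNat : ℤ) : ℝ) = ((|p 0 i| : ℤ) : ℝ) := by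
                rw [Int.toNat_of_nonneg (abs_nonneg _)]
              rw [Int.cast_natCast] at h8
              rw [h8]
              exact_mod_cast h5
            have h9 := Nat.le_floor h7
            have h10 : (|p 0 i|.toNat : ℤ) = |p 0 i| := Int.toNat_of_nonneg (abs_nonneg _)
            omega
          rw [Finset.mem_Icc]
          exact abs_le.1 h6
        by_contra hno
        push Not at hno
        exact h1 p hp h4 hno)
      (by
        intro y hy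
        have := h2 y hy
        push Not at this
        linarith [neg_abs_le (E.hf 0 J ω y)])
    have hsplit : (fun y => E.hf 0 J ω y + E.hf J m ω y) = E.hf 0 m ω := by
      funext y
      unfold hf hh
      rw [← mul_add, Finset.sum_Ico_consecutive _ (Nat.zero_le J) hm]
    rw [hsplit] at h3
    exact absurd hω (not_lt.2 h3)
  calc E.P.real {ω | Cr (E.hf 0 m ω) 0 r r' < ENNReal.ofReal (Real.exp (-M) * (dy J * E.aq (m - J)))}
      ≤ E.P.real ({ω | ∃ g : ℕ → (Fin d → ℤ), StarPath k g ∧ g 0 ∈ V0 ∧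
        ∀ j < k, ¬ GoodCell (E.hf J m ω) J (E.aq (m - J)) (g j)} ∪
      {ω | ∃ x ∈ CBox (0 : Rd d) (r' + 2), M < |E.hf 0 J ω x|}) := measureReal_mono hsub
    _ ≤ _ := measureReal_union_le _ _
    _ ≤ ε / 2 + ε / 2 := add_le_add hbad' hM
    _ = ε := by ring

/-- `a_m ≥ e^{-C(m+1)}`: from `aq_supermul` with `K = K0`, and positivity of `a_1, ..., a_{K0}`, `a_0`. -/
theorem aq_lower : ∃ C : ℝ, 0 < C ∧ ∀ m : ℕ, Real.exp (-(C * ((m : ℝ) + 1))) ≤ E.aq m := by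
  obtain ⟨C0, K0, hC0, hsup⟩ := E.aq_supermul
  obtain ⟨K, hK⟩ : ∃ K : ℕ, K = max K0 1 := ⟨_, rfl⟩
  have hKK : K0 ≤ K := hK ▸ le_max_left _ _
  have hK1 : 1 ≤ K := hK ▸ le_max_right _ _
  obtain ⟨b, hb⟩ : ∃ b : ℝ, b = min 1 (Real.exp (-(C0 * Real.sqrt K * Real.log ((K : ℝ) + 2))) * E.aq K) :=
    ⟨_, rfl⟩
  have hb0 : 0 < b := by
    rw [hb]
    exact lt_min one_pos (mul_pos (Real.exp_pos _) (E.aq_pos K))
  have hb1 : b ≤ 1 := hb ▸ min_le_left _ _
  obtain ⟨s, hs0, hs⟩ : ∃ s : ℝ, 0 < s ∧ ∀ m ≤ K, s ≤ E.aq m := by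
    have hne : (Finset.range (K + 1)).Nonempty := ⟨0, by simp⟩
    refine ⟨(Finset.range (K + 1)).inf' hne E.aq, ?_, ?_⟩
    · rw [Finset.lt_inf'_iff]
      intro m _
      exact E.aq_pos m
    · intro m hm
      exact Finset.inf'_le _ (Finset.mem_range.2 (by omega))
  have key : ∀ m : ℕ, b ^ m * s ≤ E.aq m := by
    intro m
    induction m using Nat.strong_induction_on with
    | _ m ih =>
      by_cases hm : m ≤ K
      · calc b ^ m * s ≤ 1 * s := mul_le_mul_of_nonneg_right (pow_le_one₀ hb0.le hb1) hs0.le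
          _ = s := one_mul _
          _ ≤ _ := hs m hm
      · push Not at hm
        obtain ⟨m', rfl⟩ : ∃ m', m = K + m' := ⟨m - K, by omega⟩
        have hm' : 1 ≤ m' := by omega
        have h1 := hsup K hKK m' hm'
        have h2 := ih m' (by omega)
        have h3 : b * E.aq m' ≤ E.aq (K + m') := by
          calc b * E.aq m' ≤ (Real.exp (-(C0 * Real.sqrt K * Real.log ((K : ℝ) + 2))) * E.aq K) * E.aq m' :=
                mul_le_mul_of_nonneg_right (hb ▸ min_le_right _ _) (E.aq_pos m').le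
            _ = Real.exp (-(C0 * Real.sqrt K * Real.log ((K : ℝ) + 2))) * E.aq m' * E.aq K := by ring
            _ ≤ _ := h1
        refine le_trans ?_ h3
        calc b ^ (K + m') * s ≤ b ^ (1 + m') * s :=
              mul_le_mul_of_nonneg_right (pow_le_pow_of_le_one hb0.le hb1 (by omega)) hs0.le
          _ = b * (b ^ m' * s) := by rw [pow_add, pow_one]; ring
          _ ≤ b * E.aq m' := mul_le_mul_of_nonneg_left h2 hb0.le
  refine ⟨max 1 (max (-Real.log b) (-Real.log s)), lt_of_lt_of_le one_pos (le_max_left _ _), ?_⟩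
  intro m
  refine le_trans ?_ (key m)
  obtain ⟨C, hC⟩ : ∃ C : ℝ, C = max 1 (max (-Real.log b) (-Real.log s)) := ⟨_, rfl⟩
  rw [← hC]
  have h1 : -Real.log b ≤ C := hC ▸ le_trans (le_max_left _ _) (le_max_right _ _)
  have h2 : -Real.log s ≤ C := hC ▸ le_trans (le_max_right _ _) (le_max_right _ _)
  have h3 : b ^ m * s = Real.exp (m * Real.log b + Real.log s) := by
    rw [Real.exp_add, Real.exp_log hs0, Real.exp_nat_mul, Real.exp_log hb0]
  rw [h3]
  apply Real.exp_le_exp.2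
  have h4 : (m : ℝ) * (-Real.log b) ≤ m * C := mul_le_mul_of_nonneg_left h1 (Nat.cast_nonneg m)
  nlinarith

end Env

end MP_d19698_pr
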