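import Pool.Agent.Lib.MP_d19698_pr.CubeB

/-! # CubeC -/

open Finset

namespace MP_d19698_pr
variable {I : Type*} [Fintype I] [DecidableEq I]

private theorem cubeC_cE_nonneg {F : (I → Bool) → ℝ} (hF : ∀ x, 0 ≤ F x) : 0 ≤ cE F := by
  unfold cE
  exact div_nonneg (Finset.sum_nonneg fun x _ => hF x) (by positivity)

private theorem cubeC_cE_mono {F G : (I → Bool) → ℝ} (h : ∀ x, F x ≤ G x) : cE F ≤ cE G := by
  unfold cE
  exact div_le_div_of_nonneg_right (Finset.sum_le_sum fun x _ => h x) (by positivity)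

private theorem cubeC_cE_eq_zero {F : (I → Bool) → ℝ} (hF : ∀ x, 0 ≤ F x) (h : cE F = 0) (x : I → Bool) : F x = 0 := by
  unfold cE at h
  rw [div_eq_zero_iff] at h
  rcases h with h | h
  · exact (Finset.sum_eq_zero_iff_of_nonneg fun x _ => hF x).mp h x (Finset.mem_univ x)
  · exact absurd h (by positivity)

/-- `E g^(1+ρ) ≤ (E g)^(1-ρ) (E g^2)^ρ` -/
private theorem cubeC_interp {ρ : ℝ} (h0 : 0 ≤ ρ) (h1 : ρ ≤ 1) (g : (I → Bool) → ℝ) (hg : ∀ x, 0 ≤ g x) :
    (cE fun x => g x ^ (1 + ρ)) ≤ (cE g) ^ (1 - ρ) * (cE fun x => g x ^ 2) ^ ρ := by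
  have hA0 : 0 ≤ cE g := cubeC_cE_nonneg hg
  have hB0 : 0 ≤ cE fun x => g x ^ 2 := cubeC_cE_nonneg fun x => sq_nonneg _
  rcases hA0.eq_or_lt with hA | hA
  · have hz : ∀ x, g x = 0 := cubeC_cE_eq_zero hg hA.symm
    have : (cE fun x => g x ^ (1 + ρ)) = 0 := by
      unfold cE
      rw [Finset.sum_eq_zero, zero_div]
      intro x _
      rw [hz x, Real.zero_rpow (by linarith)]
    rw [this]
    exact mul_nonneg (Real.rpow_nonneg hA0 _) (Real.rpow_nonneg hB0 _)
  · rcases hB0.eq_or_lt with hB | hB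
    · exfalso
      have hz : ∀ x, g x = 0 := fun x => by
        have := cubeC_cE_eq_zero (fun x => sq_nonneg (g x)) hB.symm x
        exact pow_eq_zero_iff two_ne_zero |>.mp this
      have : cE g = 0 := by
        unfold cE
        rw [Finset.sum_eq_zero (fun x _ => hz x), zero_div]
      linarith
    · set A := cE g with hAdef
      set B := cE fun x => g x ^ 2 with hBdef
      have hpt : ∀ x, g x ^ (1 + ρ) ≤ A ^ (1 - ρ) * B ^ ρ * ((1 - ρ) * (g x / A) + ρ * (g x ^ 2 / B)) := by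
        intro x
        have h2 := Real.geom_mean_le_arith_mean2_weighted (show 0 ≤ 1 - ρ by linarith) h0
          (div_nonneg (hg x) hA.le) (div_nonneg (sq_nonneg (g x)) hB.le) (by ring)
        rw [Real.div_rpow (hg x) hA.le, Real.div_rpow (sq_nonneg _) hB.le] at h2
        have hAp : 0 < A ^ (1 - ρ) := Real.rpow_pos_of_pos hA _
        have hBp : 0 < B ^ ρ := Real.rpow_pos_of_pos hB _
        have e : g x ^ (1 + ρ) = g x ^ (1 - ρ) * (g x ^ 2) ^ ρ := by
          rcases (hg x).eq_or_lt with hz | hz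
          · rw [← hz, Real.zero_rpow (by linarith)]
            rcases h0.eq_or_lt with hr | hr
            · rw [← hr]; simp
            · rw [zero_pow two_ne_zero, Real.zero_rpow hr.ne', mul_zero]
          · rw [← Real.rpow_natCast, ← Real.rpow_mul hz.le, ← Real.rpow_add hz]
            congr 1
            push_cast
            ring
        rw [e]
        calc g x ^ (1 - ρ) * (g x ^ 2) ^ ρ
            = A ^ (1 - ρ) * B ^ ρ * (g x ^ (1 - ρ) / A ^ (1 - ρ) * ((g x ^ 2) ^ ρ / B ^ ρ)) := by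
              field_simp
          _ ≤ _ := mul_le_mul_of_nonneg_left h2 (mul_pos hAp hBp).le
      refine (cubeC_cE_mono hpt).trans (le_of_eq ?_)
      have e2 : (cE fun x => A ^ (1 - ρ) * B ^ ρ * ((1 - ρ) * (g x / A) + ρ * (g x ^ 2 / B))) =
          A ^ (1 - ρ) * B ^ ρ * ((1 - ρ) * (A / A) + ρ * (B / B)) := by
        rw [hAdef, hBdef]
        unfold cE
        rw [← Finset.mul_sum, Finset.sum_add_distrib, ← Finset.mul_sum, ← Finset.mul_sum,
          ← Finset.sum_div, ← Finset.sum_div]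
        ring
      rw [e2, div_self hA.ne', div_self hB.ne']
      ring

/-- log-convexity: `‖g‖_{1+ρ}^2 ≤ ‖g‖_1^{2(1-ρ)/(1+ρ)} ‖g‖_2^{4ρ/(1+ρ)}` for `0 ≤ ρ ≤ 1`. -/
theorem norm_interp {ρ : ℝ} (h0 : 0 ≤ ρ) (h1 : ρ ≤ 1) (g : (I → Bool) → ℝ) (hg : ∀ x, 0 ≤ g x) :
    (cE fun x => g x ^ (1 + ρ)) ^ (2 / (1 + ρ)) ≤
      (cE g) ^ (2 * (1 - ρ) / (1 + ρ)) * (cE fun x => g x ^ 2) ^ (2 * ρ / (1 + ρ)) := by
  have hA0 : 0 ≤ cE g := cubeC_cE_nonneg hg
  have hB0 : 0 ≤ cE fun x => g x ^ 2 := cubeC_cE_nonneg fun x => sq_nonneg _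
  have h2 := Real.rpow_le_rpow (cubeC_cE_nonneg fun x => Real.rpow_nonneg (hg x) _)
    (cubeC_interp h0 h1 g hg) (show 0 ≤ 2 / (1 + ρ) by positivity)
  refine h2.trans (le_of_eq ?_)
  rw [Real.mul_rpow (Real.rpow_nonneg hA0 _) (Real.rpow_nonneg hB0 _), ← Real.rpow_mul hA0,
    ← Real.rpow_mul hB0]
  congr 2 <;> ring

/-- the norms increase -/
private theorem cubeC_le_two {ρ : ℝ} (h0 : 0 ≤ ρ) (h1 : ρ ≤ 1) (g : (I → Bool) → ℝ) (hg : ∀ x, 0 ≤ g x) :
    (cE fun x => g x ^ (1 + ρ)) ^ (2 / (1 + ρ)) ≤ cE fun x => g x ^ 2 := by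
  have hA0 : 0 ≤ cE g := cubeC_cE_nonneg hg
  have hB0 : 0 ≤ cE fun x => g x ^ 2 := cubeC_cE_nonneg fun x => sq_nonneg _
  have hAB : (cE g) ^ 2 ≤ cE fun x => g x ^ 2 := by
    have hc : (∑ x : I → Bool, g x) ^ 2 ≤ (2 : ℝ) ^ Fintype.card I * ∑ x : I → Bool, g x ^ 2 := by
      have := sq_sum_le_card_mul_sum_sq (s := (Finset.univ : Finset (I → Bool))) (f := g)
      rw [Finset.card_univ, Fintype.card_fun, Fintype.card_bool] at this
      push_cast at this
      exact this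
    unfold cE
    rw [div_pow, div_le_div_iff₀ (by positivity) (by positivity)]
    have h2 : (0 : ℝ) < 2 ^ Fintype.card I := by positivity
    nlinarith [mul_le_mul_of_nonneg_right hc h2.le]
  refine (norm_interp h0 h1 g hg).trans ?_
  have hp : 0 < 1 + ρ := by linarith
  have e1 : (cE g) ^ (2 * (1 - ρ) / (1 + ρ)) ≤ (cE fun x => g x ^ 2) ^ ((1 - ρ) / (1 + ρ)) := by
    have e : (cE g) ^ (2 * (1 - ρ) / (1 + ρ)) = ((cE g) ^ 2) ^ ((1 - ρ) / (1 + ρ)) := by
      rw [← Real.rpow_natCast, ← Real.rpow_mul hA0]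
      congr 1
      push_cast
      ring
    rw [e]
    exact Real.rpow_le_rpow (sq_nonneg _) hAB (div_nonneg (by linarith) hp.le)
  refine (mul_le_mul_of_nonneg_right e1 (Real.rpow_nonneg hB0 _)).trans (le_of_eq ?_)
  rcases hB0.eq_or_lt with hB | hB
  · rw [← hB]
    rcases h0.eq_or_lt with hr | hr
    · rw [← hr]; norm_num
    · rw [Real.zero_rpow (x := 2 * ρ / (1 + ρ)) (by positivity), mul_zero]
  · rw [← Real.rpow_add hB]
    have : (1 - ρ) / (1 + ρ) + 2 * ρ / (1 + ρ) = 1 := by field_simp; ring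
    rw [this, Real.rpow_one]

private theorem cubeC_cont (g : (I → Bool) → ℝ) (_hg : ∀ x, 0 ≤ g x) :
    ContinuousOn (fun ρ : ℝ => (cE fun x => g x ^ (1 + ρ)) ^ (2 / (1 + ρ))) (Set.Icc 0 1) := by
  have h1 : ContinuousOn (fun ρ : ℝ => cE fun x => g x ^ (1 + ρ)) (Set.Icc 0 1) := by
    unfold cE
    apply ContinuousOn.div_const
    apply continuousOn_finsetSum
    intro x _
    apply ContinuousOn.rpow continuousOn_const (continuousOn_const.add continuousOn_id)
    intro ρ hρ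
    right
    have : 0 < 1 + ρ := by linarith [hρ.1]
    exact this
  apply ContinuousOn.rpow h1
  · apply ContinuousOn.div continuousOn_const (continuousOn_const.add continuousOn_id)
    intro ρ hρ
    have : 0 < 1 + ρ := by linarith [hρ.1]
    exact this.ne'
  · intro ρ hρ
    right
    have : 0 < 1 + ρ := by linarith [hρ.1]
    positivity

/-- one coordinate: `∫_0^1 ‖g‖_{1+ρ}^2 dρ ≤ s² τ^{3/2} + min(1, 4/log(1/τ)) E g²` if `E g ≤ s τ`, `0 < τ < 1`.
(If `‖g‖_2 ≤ s τ^{3/4}` use `‖g‖_{1+ρ} ≤ ‖g‖_2`. Otherwise `(sτ)^e ≤ ‖g‖_2^e τ^{e/4}`, `e = 2(1-ρ)/(1+ρ) ≥ 1-ρ`, and `∫ τ^{(1-ρ)/4} dρ ≤ 4/log(1/τ)`.) -/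
theorem integral_norm_le {g : (I → Bool) → ℝ} (hg : ∀ x, 0 ≤ g x) {s τ : ℝ} (hs : 0 ≤ s) (hτ : 0 < τ) (hτ1 : τ < 1) (h : cE g ≤ s * τ) :
    ∫ ρ in (0 : ℝ)..1, (cE fun x => g x ^ (1 + ρ)) ^ (2 / (1 + ρ)) ≤
      s ^ 2 * τ ^ (3 / 2 : ℝ) + min 1 (4 / Real.log (1 / τ)) * cE (fun x => g x ^ 2) := by
  set B := cE (fun x => g x ^ 2) with hBdef
  have hB0 : 0 ≤ B := cubeC_cE_nonneg fun x => sq_nonneg _
  have hA0 : 0 ≤ cE g := cubeC_cE_nonneg hg
  have hint : IntervalIntegrable (fun ρ : ℝ => (cE fun x => g x ^ (1 + ρ)) ^ (2 / (1 + ρ)))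
      MeasureTheory.volume 0 1 := by
    apply ContinuousOn.intervalIntegrable
    rw [Set.uIcc_of_le zero_le_one]
    exact cubeC_cont g hg
  have htriv : ∫ ρ in (0 : ℝ)..1, (cE fun x => g x ^ (1 + ρ)) ^ (2 / (1 + ρ)) ≤ B := by
    have h2 : ∫ ρ in (0 : ℝ)..1, (cE fun x => g x ^ (1 + ρ)) ^ (2 / (1 + ρ)) ≤ ∫ _ in (0 : ℝ)..1, B := by
      apply intervalIntegral.integral_mono_on zero_le_one hint intervalIntegrable_const
      intro ρ hρ
      exact cubeC_le_two hρ.1 hρ.2 g hg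
    simpa using h2
  have hlog : 0 < Real.log (1 / τ) := Real.log_pos (by rw [lt_div_iff₀ hτ]; linarith)
  have hmin0 : 0 ≤ min 1 (4 / Real.log (1 / τ)) := le_min zero_le_one (by positivity)
  by_cases hcase : B ≤ s ^ 2 * τ ^ (3 / 2 : ℝ)
  · exact htriv.trans (hcase.trans (le_add_of_nonneg_right (mul_nonneg hmin0 hB0)))
  · push Not at hcase
    have hst : 0 ≤ s ^ 2 * τ ^ (3 / 2 : ℝ) := mul_nonneg (sq_nonneg _) (Real.rpow_nonneg hτ.le _)
    have hBpos : 0 < B := lt_of_le_of_lt hst hcase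
    -- the second bound
    have hpt : ∀ ρ ∈ Set.Icc (0 : ℝ) 1, (cE fun x => g x ^ (1 + ρ)) ^ (2 / (1 + ρ)) ≤
        B * τ ^ ((1 - ρ) / 4) := by
      intro ρ hρ
      have hp : 0 < 1 + ρ := by linarith [hρ.1]
      set e := 2 * (1 - ρ) / (1 + ρ) with he
      have he0 : 0 ≤ e := div_nonneg (by linarith [hρ.2]) hp.le
      have he1 : 1 - ρ ≤ e := by
        rw [he, le_div_iff₀ hp]
        nlinarith [hρ.1, hρ.2]
      have hsq : (cE g) ^ 2 ≤ B * τ ^ (1 / 2 : ℝ) := by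
        have h3 : (cE g) ^ 2 ≤ (s * τ) ^ 2 := pow_le_pow_left₀ hA0 h 2
        have h4 : (s * τ) ^ 2 = s ^ 2 * τ ^ (3 / 2 : ℝ) * τ ^ (1 / 2 : ℝ) := by
          rw [mul_assoc, ← Real.rpow_add hτ]
          norm_num
          ring
        rw [h4] at h3
        exact h3.trans (mul_le_mul_of_nonneg_right hcase.le (Real.rpow_nonneg hτ.le _))
      have h5 : (cE g) ^ e ≤ B ^ (e / 2) * τ ^ (e / 4) := by
        have e5 : (cE g) ^ e = ((cE g) ^ 2) ^ (e / 2) := by
          rw [← Real.rpow_natCast, ← Real.rpow_mul hA0]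
          congr 1
          push_cast
          ring
        have e6 : (B * τ ^ (1 / 2 : ℝ)) ^ (e / 2) = B ^ (e / 2) * τ ^ (e / 4) := by
          rw [Real.mul_rpow hB0 (Real.rpow_nonneg hτ.le _), ← Real.rpow_mul hτ.le]
          congr 2
          ring
        rw [e5, ← e6]
        exact Real.rpow_le_rpow (sq_nonneg _) hsq (by linarith)
      refine (norm_interp hρ.1 hρ.2 g hg).trans ?_
      have h7 : (cE g) ^ e * B ^ (2 * ρ / (1 + ρ)) ≤ (B ^ (e / 2) * τ ^ (e / 4)) * B ^ (2 * ρ / (1 + ρ)) :=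
        mul_le_mul_of_nonneg_right h5 (Real.rpow_nonneg hB0 _)
      refine h7.trans ?_
      have h8 : (B ^ (e / 2) * τ ^ (e / 4)) * B ^ (2 * ρ / (1 + ρ)) = B * τ ^ (e / 4) := by
        have h9 : B ^ (e / 2) * B ^ (2 * ρ / (1 + ρ)) = B := by
          rw [← Real.rpow_add hBpos]
          have : e / 2 + 2 * ρ / (1 + ρ) = 1 := by rw [he]; field_simp; ring
          rw [this, Real.rpow_one]
        calc (B ^ (e / 2) * τ ^ (e / 4)) * B ^ (2 * ρ / (1 + ρ))
            = (B ^ (e / 2) * B ^ (2 * ρ / (1 + ρ))) * τ ^ (e / 4) := by ring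
          _ = _ := by rw [h9]
      rw [h8]
      apply mul_le_mul_of_nonneg_left _ hB0
      apply Real.rpow_le_rpow_of_exponent_ge hτ hτ1.le
      linarith
    have hsec : ∫ ρ in (0 : ℝ)..1, (cE fun x => g x ^ (1 + ρ)) ^ (2 / (1 + ρ)) ≤
        4 / Real.log (1 / τ) * B := by
      have hc2 : Continuous fun ρ : ℝ => B * τ ^ ((1 - ρ) / 4) := by
        apply Continuous.mul continuous_const
        exact Continuous.rpow continuous_const ((continuous_const.sub continuous_id).div_const 4)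
          fun _ => Or.inl hτ.ne'
      have h2 := intervalIntegral.integral_mono_on zero_le_one hint (hc2.intervalIntegrable 0 1) hpt
      refine h2.trans ?_
      have hF : ∀ ρ ∈ Set.uIcc (0 : ℝ) 1, HasDerivAt (fun ρ : ℝ => B * (4 / Real.log (1 / τ)) * τ ^ ((1 - ρ) / 4))
          (B * τ ^ ((1 - ρ) / 4)) ρ := by
        intro ρ _
        have h10 : HasDerivAt (fun ρ : ℝ => (1 - ρ) / 4) (-1 / 4) ρ :=
          ((hasDerivAt_id ρ).const_sub 1).div_const 4
        have h11 := (HasDerivAt.const_rpow (a := τ) hτ h10).const_mul (B * (4 / Real.log (1 / τ)))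
        have hl : Real.log τ ≠ 0 := by
          rw [one_div, Real.log_inv] at hlog
          linarith
        have e14 : B * τ ^ ((1 - ρ) / 4) =
            B * (4 / Real.log (1 / τ)) * (Real.log τ * (-1 / 4) * τ ^ ((1 - ρ) / 4)) := by
          rw [one_div, Real.log_inv]
          field_simp
        rw [e14]
        exact h11
      rw [intervalIntegral.integral_eq_sub_of_hasDerivAt hF (hc2.intervalIntegrable 0 1)]
      have h12 : 0 ≤ B * (4 / Real.log (1 / τ)) * τ ^ ((1 - (0 : ℝ)) / 4) := by positivity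
      have h13 : τ ^ ((1 - (1 : ℝ)) / 4) = 1 := by norm_num
      rw [h13]
      linarith
    have : ∫ ρ in (0 : ℝ)..1, (cE fun x => g x ^ (1 + ρ)) ^ (2 / (1 + ρ)) ≤
        min 1 (4 / Real.log (1 / τ)) * B := by
      rw [min_mul_of_nonneg _ _ hB0, one_mul]
      exact le_min htriv hsec
    linarith

/-- **Cube inequality.** -/
theorem cVar_le (f : (I → Bool) → ℝ) (s τ : I → ℝ) (hs : ∀ i, 0 ≤ s i) (hτ : ∀ i, 0 < τ i) (hτ1 : ∀ i, τ i < 1)
    (h : ∀ i, cE (fun x => |cD i f x|) ≤ s i * τ i) :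
    cVar f ≤ ∑ i, (s i ^ 2 * τ i ^ (3 / 2 : ℝ) + min 1 (4 / Real.log (1 / τ i)) * cE (fun x => cD i f x ^ 2)) := by
  have hvar : cVar f = (cE fun x => f x ^ 2) - (cE f) ^ 2 := by
    unfold cVar
    set m := cE f with hm
    have e1 : (cE fun x => (f x - m) ^ 2) = (cE fun x => f x ^ 2) - 2 * m * cE f + m ^ 2 := by
      unfold cE
      have : ∑ x : I → Bool, (f x - m) ^ 2 = ∑ x : I → Bool, f x ^ 2 - 2 * m * ∑ x : I → Bool, f x +
          2 ^ Fintype.card I * m ^ 2 := by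
        have e2 : ∀ x : I → Bool, (f x - m) ^ 2 = f x ^ 2 - 2 * m * f x + m ^ 2 := fun x => by ring
        simp_rw [e2]
        rw [Finset.sum_add_distrib, Finset.sum_sub_distrib, ← Finset.mul_sum, Finset.sum_const,
          Finset.card_univ, Fintype.card_fun, Fintype.card_bool, nsmul_eq_mul]
        push_cast
        ring
      rw [this]
      field_simp
    rw [e1, ← hm]
    ring
  have hcont : ∀ i, Continuous fun ρ : ℝ => cPair ρ (cD i f) (cD i f) := by
    intro i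
    exact continuous_iff_continuousAt.mpr fun ρ => (hasDerivAt_cPair (cD i f) ρ).continuousAt
  have hcs : Continuous fun ρ : ℝ => ∑ i, cPair ρ (cD i f) (cD i f) :=
    continuous_finsetSum _ fun i _ => hcont i
  have hint : cVar f = ∫ ρ in (0 : ℝ)..1, ∑ i, cPair ρ (cD i f) (cD i f) := by
    rw [intervalIntegral.integral_eq_sub_of_hasDerivAt (fun ρ _ => hasDerivAt_cPair f ρ)
      (hcs.intervalIntegrable 0 1), cPair_one, cPair_zero, hvar]
  rw [hint, intervalIntegral.integral_finsetSum fun i _ => (hcont i).intervalIntegrable 0 1]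
  refine Finset.sum_le_sum fun i _ => ?_
  have hgi : ∀ x, 0 ≤ |cD i f x| := fun x => abs_nonneg _
  have h1 := integral_norm_le (g := fun x => |cD i f x|) hgi (hs i) (hτ i) (hτ1 i) (h i)
  simp only [sq_abs] at h1
  refine le_trans ?_ h1
  apply intervalIntegral.integral_mono_on zero_le_one ((hcont i).intervalIntegrable 0 1)
  · apply ContinuousOn.intervalIntegrable
    rw [Set.uIcc_of_le zero_le_one]
    exact cubeC_cont (fun x => |cD i f x|) hgi
  · intro ρ hρ
    have hp : 0 < 1 + ρ := by linarith [hρ.1]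
    have h2 : cPair ρ (cD i f) (cD i f) ≤ cPair ρ (fun x => |cD i f x|) (fun x => |cD i f x|) := by
      unfold cPair
      refine Finset.sum_le_sum fun x _ => Finset.sum_le_sum fun y _ => ?_
      apply mul_le_mul_of_nonneg_right
      · rw [← abs_mul]
        exact le_abs_self _
      · apply Finset.prod_nonneg
        intro j _
        have : -1 ≤ sg (x j) * sg (y j) := by
          cases x j <;> cases y j <;> norm_num [sg]
        have h3 : -1 ≤ ρ * (sg (x j) * sg (y j)) := by nlinarith [hρ.1, hρ.2]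
        rw [mul_assoc]
        linarith
    refine h2.trans ((cPair_le hρ.1 hρ.2 _ _ hgi hgi).trans (le_of_eq ?_))
    have hE0 : 0 ≤ cE fun x => |cD i f x| ^ (1 + ρ) := cubeC_cE_nonneg fun x => Real.rpow_nonneg (hgi x) _
    rw [← sq, ← Real.rpow_natCast, ← Real.rpow_mul hE0]
    congr 1
    push_cast
    ring

end MP_d19698_pr
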