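import Pool.Agent.Lib.MP_d19698_pr.Curve

/-!
# V8: numerical sums
-/

open Finset

namespace MP_d19698_pr

private theorem V8_dy_pos (k : ℕ) : 0 < dy k := by unfold dy; positivity

private theorem V8_mono {f : ℕ → ℝ} (hf : ∀ k, 0 ≤ f k) {n m : ℕ} (h : n ≤ m) :
    ∑ k ∈ range n, f k ≤ ∑ k ∈ range m, f k :=
  sum_le_sum_of_subset_of_nonneg (range_subset_range.2 h) fun k _ _ => hf k

/-- `∑_k 2^{-⌈k/2⌉} ≤ 3` -/
theorem sum_dy_half (n : ℕ) : ∑ k ∈ range n, dy ((k + 1) / 2) / ((k : ℝ) + 1) ≤ 3 := by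
  have h1 : ∑ k ∈ range n, dy ((k + 1) / 2) / ((k : ℝ) + 1) ≤ ∑ k ∈ range n, dy ((k + 1) / 2) := by
    refine sum_le_sum fun k _ => ?_
    have hk : (0 : ℝ) ≤ k := Nat.cast_nonneg k
    rw [div_le_iff₀ (by linarith)]
    have := mul_nonneg (V8_dy_pos ((k + 1) / 2)).le hk
    linarith
  refine h1.trans ?_
  refine (V8_mono (fun k => (V8_dy_pos ((k + 1) / 2)).le) (show n ≤ 2 * n + 1 by omega)).trans ?_
  have h2 : ∀ m : ℕ, ∑ k ∈ range (2 * m + 1), dy ((k + 1) / 2) = 3 - 2 * dy m := by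
    intro m
    induction m with
    | zero =>
      have : dy 0 = 1 := by unfold dy; norm_num
      simp [this]
      norm_num
    | succ m ih =>
      have e : 2 * (m + 1) + 1 = (2 * m + 1) + 1 + 1 := by ring
      rw [e, sum_range_succ, sum_range_succ, ih]
      have e1 : (2 * m + 1 + 1) / 2 = m + 1 := by omega
      have e2 : (2 * m + 1 + 1 + 1) / 2 = m + 1 := by omega
      rw [e1, e2]
      have e3 : dy (m + 1) = dy m / 2 := by unfold dy; rw [pow_succ]; ring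
      rw [e3]
      ring
  rw [h2]
  have := V8_dy_pos n
  linarith

/-- `∑_{k<n} q^{⌊(k-1)/8⌋}/(k+1) ≤ 3 + 8 ∑_{j≥1} q^j/j = 3 + 8 log Rt` for `q = 1 - 1/Rt`. (Terms `k ≤ 8` contribute at most `∑_{k ≤ 8} 1/(k+1) < 3`; for `8j+1 ≤ k ≤ 8j+8`, `j ≥ 1`, the exponent is
`j` and `1/(k+1) ≤ 1/j`. Mathlib: `Real.hasSum_pow_div_log_of_abs_lt_one`.) -/
theorem sum_geom_log (n : ℕ) {Rt : ℝ} (hRt : 1 ≤ Rt) :
    ∑ k ∈ range n, (1 - 1 / Rt) ^ ((k - 1) / 8) / ((k : ℝ) + 1) ≤ 3 + 8 * Real.log Rt := by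
  have hR0 : 0 < Rt := by linarith
  obtain ⟨q, hq⟩ : ∃ q : ℝ, q = 1 - 1 / Rt := ⟨_, rfl⟩
  have hq0 : 0 ≤ q := by
    rw [hq, sub_nonneg, div_le_one hR0]
    exact hRt
  have hq1 : q < 1 := by
    have : 0 < 1 / Rt := by positivity
    linarith
  rw [← hq]
  refine (V8_mono (fun k => by positivity) (show n ≤ 8 * n + 9 by omega)).trans ?_
  have h2 : ∀ m : ℕ, ∑ k ∈ range (8 * m + 9), q ^ ((k - 1) / 8) / ((k : ℝ) + 1) ≤
      3 + ∑ j ∈ range m, q ^ (j + 1) / ((j : ℝ) + 1) := by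
    intro m
    induction m with
    | zero =>
      simp only [sum_range_succ, mul_zero, zero_add, range_zero, sum_empty]
      norm_num
    | succ m ih =>
      have e : 8 * (m + 1) + 9 = (8 * m + 9) + 8 := by ring
      rw [e, sum_range_add, sum_range_succ (fun j : ℕ => q ^ (j + 1) / ((j : ℝ) + 1))]
      have h3 : ∑ i ∈ range 8, q ^ ((8 * m + 9 + i - 1) / 8) / (((8 * m + 9 + i : ℕ) : ℝ) + 1) ≤
          ∑ _i ∈ range 8, q ^ (m + 1) / (8 * ((m : ℝ) + 1)) := by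
        refine sum_le_sum fun i hi => ?_
        rw [mem_range] at hi
        have e1 : (8 * m + 9 + i - 1) / 8 = m + 1 := by omega
        rw [e1]
        apply div_le_div_of_nonneg_left (by positivity) (by positivity)
        push_cast
        have : (0 : ℝ) ≤ i := Nat.cast_nonneg i
        linarith
      rw [sum_const, card_range, nsmul_eq_mul] at h3
      have e2 : ((8 : ℕ) : ℝ) * (q ^ (m + 1) / (8 * ((m : ℝ) + 1))) = q ^ (m + 1) / ((m : ℝ) + 1) := by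
        push_cast
        field_simp
      rw [e2] at h3
      linarith
  refine (h2 n).trans ?_
  have h4 : ∑ j ∈ range n, q ^ (j + 1) / ((j : ℝ) + 1) ≤ Real.log Rt := by
    have hs := Real.hasSum_pow_div_log_of_abs_lt_one (x := q) (by rw [abs_of_nonneg hq0]; exact hq1)
    have h5 := sum_le_hasSum (range n) (fun j _ => by positivity) hs
    refine h5.trans (le_of_eq ?_)
    rw [hq, sub_sub_cancel, one_div, Real.log_inv, neg_neg]
  have h6 : 0 ≤ Real.log Rt := Real.log_nonneg hRt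
  linarith

/-- `∑_k 2^{dk} 2^{-3dk} ≤ 2` for `d ≥ 1` -/
theorem sum_grid {d : ℕ} (hd : 1 ≤ d) (n : ℕ) : ∑ k ∈ range n, (2 : ℝ) ^ (d * k) * dy k ^ (3 * d) ≤ 2 := by
  refine le_trans (sum_le_sum fun k _ => ?_) (sum_geometric_two_le n)
  have e : (2 : ℝ) ^ (d * k) * dy k ^ (3 * d) = (1 / 2) ^ (2 * (d * k)) := by
    unfold dy
    rw [← pow_mul]
    have e1 : k * (3 * d) = d * k + 2 * (d * k) := by ring
    rw [e1, pow_add, ← mul_assoc, ← mul_pow]
    norm_num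
  rw [e]
  apply pow_le_pow_of_le_one (by norm_num) (by norm_num)
  have := Nat.mul_le_mul_right k hd
  omega

/-- `∑_k 2^{dk} (2^{-dk-1})^{3/2} ≤ 4` for `d ≥ 1` -/
theorem sum_pow_three_half {d : ℕ} (hd : 1 ≤ d) (n : ℕ) : ∑ k ∈ range n, (2 : ℝ) ^ (d * k) * ((1 / 2 : ℝ) ^ (d * k + 1)) ^ (3 / 2 : ℝ) ≤ 4 := by
  have hterm : ∀ k ∈ range n, (2 : ℝ) ^ (d * k) * ((1 / 2 : ℝ) ^ (d * k + 1)) ^ (3 / 2 : ℝ) ≤
      (3 / 4 : ℝ) ^ k := by
    intro k _
    obtain ⟨y, hy⟩ : ∃ y : ℝ, y = (1 / 2 : ℝ) ^ (d * k + 1) := ⟨_, rfl⟩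
    have hy0 : 0 < y := by rw [hy]; positivity
    rw [← hy]
    have e1 : y ^ (3 / 2 : ℝ) = y * Real.sqrt y := by
      rw [Real.sqrt_eq_rpow, show (3 / 2 : ℝ) = 1 + 1 / 2 by norm_num, Real.rpow_add hy0, Real.rpow_one]
    have e2 : (2 : ℝ) ^ (d * k) * y = 1 / 2 := by
      rw [hy, pow_succ, ← mul_assoc, ← mul_pow]
      norm_num
    rw [e1, ← mul_assoc, e2]
    have h1 : Real.sqrt y ≤ (3 / 4 : ℝ) ^ k := by
      rw [Real.sqrt_le_left (by positivity), ← pow_mul, mul_comm k 2, pow_mul]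
      have h2 : y ≤ (1 / 2 : ℝ) ^ k := by
        rw [hy]
        apply pow_le_pow_of_le_one (by norm_num) (by norm_num)
        have := Nat.mul_le_mul_right k hd
        omega
      refine h2.trans ?_
      exact pow_le_pow_left₀ (by norm_num) (by norm_num) k
    have h2 := Real.sqrt_nonneg y
    linarith
  refine (sum_le_sum hterm).trans ?_
  have h3 : ∀ m : ℕ, ∑ k ∈ range m, (3 / 4 : ℝ) ^ k = 4 - 4 * (3 / 4) ^ m := by
    intro m
    induction m with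
    | zero => norm_num
    | succ m ih => rw [sum_range_succ, ih, pow_succ]; ring
  rw [h3]
  have : (0 : ℝ) < (3 / 4) ^ n := by positivity
  linarith

/-- `4 / log (1/τ) ≤ 8/(k+1)` for `τ = 2^{-dk-1}`, `d ≥ 1` (`log 2 ≥ 1/2`) -/
theorem four_div_log {d : ℕ} (hd : 1 ≤ d) (k : ℕ) : 4 / Real.log (1 / (1 / 2 : ℝ) ^ (d * k + 1)) ≤ 8 / ((k : ℝ) + 1) := by
  have e : (1 : ℝ) / (1 / 2 : ℝ) ^ (d * k + 1) = 2 ^ (d * k + 1) := by
    rw [one_div, ← inv_pow]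
    norm_num
  rw [e, Real.log_pow]
  have h1 : (1 / 2 : ℝ) ≤ Real.log 2 := by
    have := Real.log_two_gt_d9
    linarith
  have h2 : (k : ℝ) + 1 ≤ ((d * k + 1 : ℕ) : ℝ) := by
    push_cast
    have hd' : (1 : ℝ) ≤ d := by exact_mod_cast hd
    have := mul_le_mul_of_nonneg_right hd' (Nat.cast_nonneg (α := ℝ) k)
    linarith
  have hk : (0 : ℝ) ≤ k := Nat.cast_nonneg k
  have h3 : ((k : ℝ) + 1) * (1 / 2) ≤ ((d * k + 1 : ℕ) : ℝ) * Real.log 2 :=
    mul_le_mul h2 h1 (by norm_num) (by positivity)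
  rw [div_le_div_iff₀ (by linarith) (by linarith)]
  linarith

/-- `dy k ^ d = 2 τ`, `τ = 2^{-dk-1}` -/
theorem dy_pow_eq (d k : ℕ) : dy k ^ d = 2 * (1 / 2 : ℝ) ^ (d * k + 1) := by
  unfold dy
  rw [← pow_mul, pow_succ, mul_comm k d]
  ring

end MP_d19698_pr
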