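import Pool.Agent.Lib.MP_d19698_pr.V7
import Pool.Agent.Lib.MP_d19698_pr.V8

/-!
# V9: the variance bound on the cube
-/

open MeasureTheory ProbabilityTheory Filter Topology Set
open scoped ENNReal NNReal

namespace MP_d19698_pr

variable {d : ℕ}

namespace RM

/-- choice of the tolerance -/
private lemma V9_tol (a : ℝ) (ha : 0 < a) (n m : ℕ) :
    ∃ tol : ℝ, 0 < tol ∧ tol ≤ 1 ∧ tol ≤ a ∧ tol * ((n : ℝ) + 1) ≤ 1 ∧ tol * (m : ℝ) ≤ 1 := by
  have hm : (0 : ℝ) < ((n : ℝ) + 1) * ((m : ℝ) + 1) := by positivity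
  have hn1 : (1 : ℝ) ≤ (n : ℝ) + 1 := by
    have : (0 : ℝ) ≤ (n : ℝ) := Nat.cast_nonneg n
    linarith
  have hm1 : (1 : ℝ) ≤ (m : ℝ) + 1 := by
    have : (0 : ℝ) ≤ (m : ℝ) := Nat.cast_nonneg m
    linarith
  refine ⟨min (min 1 a) (1 / (((n : ℝ) + 1) * ((m : ℝ) + 1))), ?_, ?_, ?_, ?_, ?_⟩
  · exact lt_min (lt_min one_pos ha) (by positivity)
  · exact (min_le_left _ _).trans (min_le_left _ _)
  · exact (min_le_left _ _).trans (min_le_right _ _)
  · calc _ ≤ 1 / (((n : ℝ) + 1) * ((m : ℝ) + 1)) * ((n : ℝ) + 1) := by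
          gcongr
          exact min_le_right _ _
      _ = 1 / ((m : ℝ) + 1) := by field_simp
      _ ≤ 1 := by
          rw [div_le_one (by linarith)]
          exact hm1
  · calc _ ≤ 1 / (((n : ℝ) + 1) * ((m : ℝ) + 1)) * (m : ℝ) := by
          gcongr
          exact min_le_right _ _
      _ ≤ 1 / (((n : ℝ) + 1) * ((m : ℝ) + 1)) * ((m : ℝ) + 1) := by
          gcongr
          linarith
      _ = 1 / ((n : ℝ) + 1) := by field_simp
      _ ≤ 1 := by
          rw [div_le_one (by linarith)]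
          exact hn1

private lemma V9_few (k0 n : ℕ) (c : ℝ) (hc : 0 ≤ c) :
    ∑ k ∈ Finset.range n, (if k < k0 + 1 then c else 0) ≤ c * ((k0 : ℝ) + 1) := by
  rw [← Finset.sum_filter, Finset.sum_const, nsmul_eq_mul, mul_comm]
  apply mul_le_mul_of_nonneg_left _ hc
  have h : ((Finset.range n).filter (fun k => k < k0 + 1)).card ≤ k0 + 1 := by
    calc _ ≤ (Finset.range (k0 + 1)).card := by
          apply Finset.card_le_card
          intro k hk
          rw [Finset.mem_filter] at hk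
          exact Finset.mem_range.mpr hk.2
      _ = k0 + 1 := Finset.card_range _
  exact_mod_cast h

/-- the numerical sum of the second part -/
private lemma V9_num (hd : 1 ≤ d) (n : ℕ) {a V c tol Rt : ℝ} (ha : 0 ≤ a) (hV : 0 ≤ V) (hc : 0 ≤ c)
    (htol : 0 < tol) (htn : tol * ((n : ℝ) + 1) ≤ 1) (hRt : 1 ≤ Rt) :
    ∑ k ∈ Finset.range n, 1 / ((k : ℝ) + 1) *
      (c * ((a * dy ((k + 1) / 2) + 2 * (1 - 1 / Rt) ^ ((k - 1) / 8) + k * tol) +
        2 * (V * (2 ^ (d * k) * dy k ^ (3 * d))))) ≤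
      c * (a * 3 + 2 * (3 + 8 * Real.log Rt) + 1 + 2 * (V * 2)) := by
  have h1 := sum_dy_half n
  have h2 := sum_geom_log n hRt
  have h3 := sum_grid hd n
  have h4 : ∑ k ∈ Finset.range n, tol ≤ 1 := by
    rw [Finset.sum_const, nsmul_eq_mul, Finset.card_range]
    linarith
  have hk : ∀ k ∈ Finset.range n, 1 / ((k : ℝ) + 1) *
      (c * ((a * dy ((k + 1) / 2) + 2 * (1 - 1 / Rt) ^ ((k - 1) / 8) + k * tol) +
        2 * (V * (2 ^ (d * k) * dy k ^ (3 * d))))) ≤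
      c * (a * (dy ((k + 1) / 2) / ((k : ℝ) + 1)) +
        2 * ((1 - 1 / Rt) ^ ((k - 1) / 8) / ((k : ℝ) + 1)) + tol +
        2 * (V * ((2 : ℝ) ^ (d * k) * dy k ^ (3 * d)))) := by
    intro k _
    have hk0 : (0 : ℝ) ≤ (k : ℝ) := Nat.cast_nonneg k
    have hk1 : (0 : ℝ) < (k : ℝ) + 1 := by linarith
    have e1 : (k : ℝ) * tol / ((k : ℝ) + 1) ≤ tol := by
      rw [div_le_iff₀ hk1]
      have := htol.le
      linarith
    have hp : (0 : ℝ) ≤ 2 * (V * ((2 : ℝ) ^ (d * k) * dy k ^ (3 * d))) := by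
      unfold dy
      positivity
    have e2 : 2 * (V * ((2 : ℝ) ^ (d * k) * dy k ^ (3 * d))) / ((k : ℝ) + 1) ≤
        2 * (V * ((2 : ℝ) ^ (d * k) * dy k ^ (3 * d))) :=
      div_le_self hp (by linarith)
    have e3 : 1 / ((k : ℝ) + 1) *
      (c * ((a * dy ((k + 1) / 2) + 2 * (1 - 1 / Rt) ^ ((k - 1) / 8) + k * tol) +
        2 * (V * (2 ^ (d * k) * dy k ^ (3 * d))))) =
        c * (a * (dy ((k + 1) / 2) / ((k : ℝ) + 1)) +
        2 * ((1 - 1 / Rt) ^ ((k - 1) / 8) / ((k : ℝ) + 1)) + (k : ℝ) * tol / ((k : ℝ) + 1) +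
        2 * (V * ((2 : ℝ) ^ (d * k) * dy k ^ (3 * d))) / ((k : ℝ) + 1)) := by
      field_simp
    rw [e3]
    apply mul_le_mul_of_nonneg_left _ hc
    linarith
  refine (Finset.sum_le_sum hk).trans ?_
  rw [← Finset.mul_sum]
  apply mul_le_mul_of_nonneg_left _ hc
  rw [Finset.sum_add_distrib, Finset.sum_add_distrib, Finset.sum_add_distrib, ← Finset.mul_sum,
    ← Finset.mul_sum, ← Finset.mul_sum, ← Finset.mul_sum]
  have g1 := mul_le_mul_of_nonneg_left h1 ha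
  have g3 := mul_le_mul_of_nonneg_left h3 hV
  linarith

/-- **The sum of the cube inequality.** Let `F = Fav(field)`, `s' = 4 ξ s (4 C3 + 2)`, `C3 = ((2 r0 + 1)/r)^d`, `τ_k = 2^{-dk-1}`. Choose `tol` so small that `tol ≤ 1`, `tol ≤ 4 ξ s τ_n`,
`tol (n+1)(|I|+1) ≤ 1`. For relevant `i` of level `k`: `cE |D_i F| ≤ tol + 4 ξ s C3 2^{-dk} (1+tol) ≤ s' τ_k` (`cD_one`, `cE_Mav_le`, `dy_pow_eq`); for irrelevant `i` take `s_i = 0` (`cD_irrelevant`).
`cVar_le` gives `cVar F ≤ ∑_{i relevant} s'^2 τ_k^{3/2} + ∑_i min(1, 4/log(1/τ_k)) E(D_i F)²`.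
First sum: `total`, `sum_pow_three_half`: `≤ (4ξ(4C3+2))² C1 * 4`.
Second sum: `four_div_log`, `cD_two`: `≤ ∑_k 8/(k+1) (|I| tol² + 16 ξ² s² ∑_{lev i = k} E M_i²)`, with `level_sum` for `k ≥ max(k0,1)` and `level_sum_triv` for smaller `k`, then
`sum_dy_half`, `sum_geom_log`, `sum_grid`. -/
theorem variance_le [NeZero d] {r0 L C1 ξ r : ℝ} {R k0 b : ℕ} (hR1 : 1 ≤ R) (hr0 : 0 < r0) (hR : r0 + 1 / 2 ≤ R) (hL : 0 ≤ L) (hC1 : 0 ≤ C1) (hξ : 0 < ξ) (hr : 0 < r)
    (C0 : ℝ) {xA xB xU : Rd d} {rA ρ : ℝ} (h : GoodPos (CBox xA rA) (CBox xB rA) (Box xU ρ)) (hU : Box xU ρ ⊆ CBox 0 L)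
    (hK : ∀ z : Rd d, (∀ i, |z i| ≤ r) → ∀ p ∈ Box xU ρ, p + z ∈ CBox (0 : Rd d) L) :
    ∃ C : ℝ, 0 < C ∧ ∀ (n : ℕ) (M : RM d n r0 L C1) (Rt : ℝ), 1 ≤ Rt → 2 * ξ * M.s ≤ 1 →
      (∀ k, k0 ≤ k → k ≤ n → ∀ p ∈ Gk d k (L + r0 + 1), cP (M.FewT ξ R k b p Rt) ≤ C0 * dy k ^ (3 * d)) →
      ∀ lam u : ℝ, 0 < lam → 0 ≤ u →
        cVar (fun x => Fav (Zg d n r) (CBox xA rA) (CBox xB rA) (Box xU ρ) lam u (M.fld ξ x)) ≤ C * (1 + Real.log Rt) := by
  classical
  obtain ⟨C3, hC3⟩ : ∃ C3 : ℝ, C3 = ((2 * r0 + 1) / r) ^ d := ⟨_, rfl⟩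
  have hC3n : 0 ≤ C3 := by rw [hC3]; positivity
  have hd : 1 ≤ d := Nat.one_le_iff_ne_zero.mpr (NeZero.ne d)
  obtain ⟨a, ha⟩ : ∃ a : ℝ, a = 12 * d * (2 * R + 3) / r := ⟨_, rfl⟩
  have han : 0 ≤ a := by rw [ha]; positivity
  obtain ⟨V, hV⟩ : ∃ V : ℝ, V = (2 * (L + r0 + 1) + 1) ^ d * |C0| := ⟨_, rfl⟩
  have hVn : 0 ≤ V := by rw [hV]; positivity
  obtain ⟨K1, hK1⟩ : ∃ K1 : ℝ, K1 = (4 * ξ * (4 * C3 + 2)) ^ 2 * C1 * 4 := ⟨_, rfl⟩
  obtain ⟨K3, hK3⟩ : ∃ K3 : ℝ, K3 = 128 * ξ ^ 2 * (4 * C1 * ((k0 : ℝ) + 1)) := ⟨_, rfl⟩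
  obtain ⟨K4, hK4⟩ : ∃ K4 : ℝ, K4 = 128 * ξ ^ 2 * (2 * C1 * (a * 3 + 6 + 1 + 2 * (V * 2))) := ⟨_, rfl⟩
  obtain ⟨K5, hK5⟩ : ∃ K5 : ℝ, K5 = 128 * ξ ^ 2 * (2 * C1 * 16) := ⟨_, rfl⟩
  have hK1n : 0 ≤ K1 := by rw [hK1]; positivity
  have hK3n : 0 ≤ K3 := by rw [hK3]; positivity
  have hK4n : 0 ≤ K4 := by rw [hK4]; positivity
  have hK5n : 0 ≤ K5 := by rw [hK5]; positivity
  refine ⟨K1 + 8 + K3 + K4 + K5, by linarith, ?_⟩
  intro n M Rt hRt hs hfew lam u hlam hu
  have hZ : (Zg d n r).Nonempty := Zg_nonempty n hr.le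
  have hK' : ∀ z ∈ Zg d n r, ∀ p ∈ Box xU ρ, p + z ∈ CBox (0 : Rd d) L :=
    fun z hz p hp => hK z (mem_Zg hz).1 p hp
  have hs0 := M.s_pos
  -- the tolerance
  obtain ⟨tol, htol, htol1, htola, htoln, htolm⟩ :=
    V9_tol (4 * ξ * M.s * (1 / 2 : ℝ) ^ (d * n + 1)) (by positivity) n (Fintype.card M.I)
  obtain ⟨EM, hEM⟩ : ∃ EM : M.I → ℝ, EM = fun i => cE (fun x => Mav (Zg d n r) tol (CBox xA rA)
    (CBox xB rA) (Box xU ρ) (M.fld ξ x) (M.bx i) ^ 2) := ⟨_, rfl⟩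
  have hEMn : ∀ i, 0 ≤ EM i := by
    intro i
    rw [hEM]
    exact cE_nonneg (fun x => sq_nonneg _)
  obtain ⟨F, hF⟩ : ∃ F : (M.I → Bool) → ℝ, F = fun x => Fav (Zg d n r) (CBox xA rA) (CBox xB rA)
    (Box xU ρ) lam u (M.fld ξ x) := ⟨_, rfl⟩
  rw [← hF]
  obtain ⟨s', hs'⟩ : ∃ s' : ℝ, s' = 4 * ξ * M.s * (4 * C3 + 2) := ⟨_, rfl⟩
  have hs'n : 0 ≤ s' := by rw [hs']; positivity
  obtain ⟨sI, hsI⟩ : ∃ sI : M.I → ℝ, sI = fun i =>
    if (M.bx i ∩ CBox 0 L).Nonempty then s' else 0 := ⟨_, rfl⟩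
  obtain ⟨τ, hτ⟩ : ∃ τ : ℕ → ℝ, τ = fun k => (1 / 2 : ℝ) ^ (d * k + 1) := ⟨_, rfl⟩
  have hτ0 : ∀ k, 0 < τ k := by
    intro k
    rw [hτ]
    positivity
  have hτ1 : ∀ k, τ k < 1 := by
    intro k
    rw [hτ]
    exact pow_lt_one₀ (by norm_num) (by norm_num) (by omega)
  have hτn : ∀ i, τ n ≤ τ (M.lev i) := by
    intro i
    rw [hτ]
    apply pow_le_pow_of_le_one (by norm_num) (by norm_num)
    have := M.lev_lt i
    have : d * M.lev i ≤ d * n := Nat.mul_le_mul_left d this.le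
    omega
  have htola' : tol ≤ 4 * ξ * M.s * τ n := by rw [hτ]; exact htola
  have hcD : ∀ i, cE (fun x => |cD i F x|) ≤ sI i * τ (M.lev i) := by
    intro i
    by_cases hi : (M.bx i ∩ CBox 0 L).Nonempty
    · have e : sI i = s' := by rw [hsI]; exact if_pos hi
      rw [e]
      have h1 := M.cD_one hξ.le hs h hZ lam u htol i
      have h2 := M.cE_Mav_le (ξ := ξ) hr0 h hr hU hK' htol i
      rw [← hC3, dy_pow_eq] at h2
      have e2 : (1 / 2 : ℝ) ^ (d * M.lev i + 1) = τ (M.lev i) := by rw [hτ]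
      rw [e2] at h2
      rw [hF]
      refine h1.trans ?_
      have h3 : C3 * (2 * τ (M.lev i)) * (1 + tol) ≤ C3 * (2 * τ (M.lev i)) * 2 := by
        have := hτ0 (M.lev i)
        have : 0 ≤ C3 * (2 * τ (M.lev i)) := by positivity
        apply mul_le_mul_of_nonneg_left _ this
        linarith
      have h4 : 4 * ξ * M.s * cE (fun x => Mav (Zg d n r) tol (CBox xA rA) (CBox xB rA) (Box xU ρ)
          (M.fld ξ x) (M.bx i)) ≤ 4 * ξ * M.s * (C3 * (2 * τ (M.lev i)) * 2) :=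
        mul_le_mul_of_nonneg_left (h2.trans h3) (by positivity)
      have h5 : 4 * ξ * M.s * τ n ≤ 4 * ξ * M.s * τ (M.lev i) :=
        mul_le_mul_of_nonneg_left (hτn i) (by positivity)
      have h6 : 0 ≤ 4 * ξ * M.s * τ (M.lev i) := by
        have := (hτ0 (M.lev i)).le
        positivity
      have e3 : s' * τ (M.lev i) = 4 * ξ * M.s * (C3 * (2 * τ (M.lev i)) * 2) +
          2 * (4 * ξ * M.s * τ (M.lev i)) := by rw [hs']; ring
      rw [e3]
      linarith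
    · have e : sI i = 0 := by rw [hsI]; exact if_neg hi
      rw [e, zero_mul]
      have h0 : ∀ x, cD i F x = 0 := by
        intro x
        rw [hF]
        exact M.cD_irrelevant ξ hK' lam u i hi x
      have : (fun x => |cD i F x|) = fun _ : M.I → Bool => (0 : ℝ) := by
        funext x
        rw [h0 x, abs_zero]
      rw [this, cE_const]
  have hsIn : ∀ i, 0 ≤ sI i := by
    intro i
    rw [hsI]
    dsimp only
    split_ifs
    · exact hs'n
    · exact le_refl _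
  have hmain := cVar_le F sI (fun i => τ (M.lev i)) hsIn (fun i => hτ0 _) (fun i => hτ1 _) hcD
  rw [Finset.sum_add_distrib] at hmain
  have hmaps : ∀ i ∈ (Finset.univ : Finset M.I), M.lev i ∈ Finset.range n :=
    fun i _ => Finset.mem_range.mpr (M.lev_lt i)
  -- first sum
  have hfirst : ∑ i, sI i ^ 2 * τ (M.lev i) ^ (3 / 2 : ℝ) ≤ K1 := by
    rw [← Finset.sum_fiberwise_of_maps_to hmaps]
    have hk : ∀ k ∈ Finset.range n,
        ∑ i ∈ Finset.univ.filter (fun i => M.lev i = k), sI i ^ 2 * τ (M.lev i) ^ (3 / 2 : ℝ) ≤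
          ((4 * ξ * (4 * C3 + 2)) ^ 2 * C1) * ((2 : ℝ) ^ (d * k) * τ k ^ (3 / 2 : ℝ)) := by
      intro k _
      have hτk : 0 ≤ τ k ^ (3 / 2 : ℝ) := Real.rpow_nonneg (hτ0 k).le _
      have htot := M.total k
      obtain ⟨Sk, hSk⟩ : ∃ Sk : Finset M.I, Sk = Finset.univ.filter
        (fun i => M.lev i = k ∧ (CBox (M.ctr i) (r0 * dy k) ∩ CBox 0 L).Nonempty) := ⟨_, rfl⟩
      have hcoe : ({i | M.lev i = k ∧ (CBox (M.ctr i) (r0 * dy k) ∩ CBox 0 L).Nonempty} :
          Set M.I) = (Sk : Set M.I) := by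
        ext i
        rw [hSk]
        simp
      rw [hcoe, Set.ncard_coe_finset] at htot
      have hsub : Sk ⊆ Finset.univ.filter (fun i => M.lev i = k) := by
        intro i hi
        rw [hSk, Finset.mem_filter] at hi
        exact Finset.mem_filter.mpr ⟨hi.1, hi.2.1⟩
      have hz : ∀ i ∈ Finset.univ.filter (fun i => M.lev i = k), i ∉ Sk →
          sI i ^ 2 * τ (M.lev i) ^ (3 / 2 : ℝ) = 0 := by
        intro i hi hi2
        rw [Finset.mem_filter] at hi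
        have hn : ¬ (M.bx i ∩ CBox 0 L).Nonempty := by
          intro hne
          apply hi2
          rw [hSk, Finset.mem_filter]
          refine ⟨hi.1, hi.2, ?_⟩
          unfold bx at hne
          rw [hi.2] at hne
          exact hne
        have e : sI i = 0 := by rw [hsI]; exact if_neg hn
        rw [e]
        ring
      rw [← Finset.sum_subset hsub hz]
      have hc : ∀ i ∈ Sk, sI i ^ 2 * τ (M.lev i) ^ (3 / 2 : ℝ) ≤ s' ^ 2 * τ k ^ (3 / 2 : ℝ) := by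
        intro i hi
        have hl := (Finset.mem_filter.mp (hsub hi)).2
        rw [hl]
        apply mul_le_mul_of_nonneg_right _ hτk
        rw [hsI]
        dsimp only
        split_ifs
        · exact le_refl _
        · calc (0 : ℝ) ^ 2 = 0 := by norm_num
            _ ≤ s' ^ 2 := sq_nonneg _
      refine (Finset.sum_le_sum hc).trans ?_
      rw [Finset.sum_const, nsmul_eq_mul]
      have e : (Sk.card : ℝ) * (s' ^ 2 * τ k ^ (3 / 2 : ℝ)) =
          ((4 * ξ * (4 * C3 + 2)) ^ 2 * τ k ^ (3 / 2 : ℝ)) * (M.s ^ 2 * Sk.card) := by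
        rw [hs']; ring
      have e2 : ((4 * ξ * (4 * C3 + 2)) ^ 2 * C1) * ((2 : ℝ) ^ (d * k) * τ k ^ (3 / 2 : ℝ)) =
          ((4 * ξ * (4 * C3 + 2)) ^ 2 * τ k ^ (3 / 2 : ℝ)) * (C1 * 2 ^ (d * k)) := by ring
      rw [e, e2]
      exact mul_le_mul_of_nonneg_left htot (by positivity)
    refine (Finset.sum_le_sum hk).trans ?_
    rw [← Finset.mul_sum, hK1]
    apply mul_le_mul_of_nonneg_left _ (by positivity)
    have := sum_pow_three_half hd n
    rw [hτ]
    exact this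
  -- second sum
  have hsecond : ∑ i, min 1 (4 / Real.log (1 / τ (M.lev i))) * cE (fun x => cD i F x ^ 2) ≤
      8 + ∑ i, (128 * ξ ^ 2) * (1 / ((M.lev i : ℝ) + 1) * (M.s ^ 2 * EM i)) := by
    have hi : ∀ i ∈ (Finset.univ : Finset M.I),
        min 1 (4 / Real.log (1 / τ (M.lev i))) * cE (fun x => cD i F x ^ 2) ≤
          8 * tol ^ 2 + (128 * ξ ^ 2) * (1 / ((M.lev i : ℝ) + 1) * (M.s ^ 2 * EM i)) := by
      intro i _
      have h1 := M.cD_two hξ.le hs h hZ lam u htol i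
      have h2 := four_div_log hd (M.lev i)
      have h3 : min 1 (4 / Real.log (1 / τ (M.lev i))) ≤ 8 / ((M.lev i : ℝ) + 1) := by
        refine (min_le_right _ _).trans ?_
        rw [hτ]
        exact h2
      have hk0 : (0 : ℝ) ≤ (M.lev i : ℝ) := Nat.cast_nonneg _
      have hk1 : (0 : ℝ) < (M.lev i : ℝ) + 1 := by linarith
      have h4 : cE (fun x => cD i F x ^ 2) ≤ tol ^ 2 + (4 * ξ * M.s) ^ 2 * EM i := by
        rw [hF, hEM]
        exact h1
      have h5 : 0 ≤ cE (fun x => cD i F x ^ 2) := cE_nonneg (fun x => sq_nonneg _)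
      calc _ ≤ 8 / ((M.lev i : ℝ) + 1) * cE (fun x => cD i F x ^ 2) :=
            mul_le_mul_of_nonneg_right h3 h5
        _ ≤ 8 / ((M.lev i : ℝ) + 1) * (tol ^ 2 + (4 * ξ * M.s) ^ 2 * EM i) :=
            mul_le_mul_of_nonneg_left h4 (by positivity)
        _ = 8 / ((M.lev i : ℝ) + 1) * tol ^ 2 +
            (128 * ξ ^ 2) * (1 / ((M.lev i : ℝ) + 1) * (M.s ^ 2 * EM i)) := by
            field_simp
            ring
        _ ≤ _ := by
            have : 8 / ((M.lev i : ℝ) + 1) ≤ 8 := div_le_self (by norm_num) (by linarith)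
            have := mul_le_mul_of_nonneg_right this (sq_nonneg tol)
            linarith
    refine (Finset.sum_le_sum hi).trans ?_
    rw [Finset.sum_add_distrib, Finset.sum_const, nsmul_eq_mul, Finset.card_univ]
    have e : (Fintype.card M.I : ℝ) * (8 * tol ^ 2) = 8 * (tol * (tol * (Fintype.card M.I : ℝ))) := by
      ring
    have h7 : tol * (tol * (Fintype.card M.I : ℝ)) ≤ 1 := by
      calc _ ≤ 1 * (tol * (Fintype.card M.I : ℝ)) := by
            apply mul_le_mul_of_nonneg_right htol1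
            positivity
        _ ≤ 1 := by linarith
    rw [e]
    linarith
  -- the levels
  have hthird : ∑ i, (128 * ξ ^ 2) * (1 / ((M.lev i : ℝ) + 1) * (M.s ^ 2 * EM i)) ≤
      K3 + K4 + K5 * Real.log Rt := by
    rw [← Finset.mul_sum, ← Finset.sum_fiberwise_of_maps_to hmaps]
    have hk : ∀ k ∈ Finset.range n,
        ∑ i ∈ Finset.univ.filter (fun i => M.lev i = k),
          (1 / ((M.lev i : ℝ) + 1) * (M.s ^ 2 * EM i)) ≤
          (if k < k0 + 1 then 4 * C1 else 0) + 1 / ((k : ℝ) + 1) *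
            (2 * C1 * ((a * dy ((k + 1) / 2) + 2 * (1 - 1 / Rt) ^ ((k - 1) / 8) + k * tol) +
              2 * (V * (2 ^ (d * k) * dy k ^ (3 * d))))) := by
      intro k hkn
      rw [Finset.mem_range] at hkn
      have hk0 : (0 : ℝ) ≤ (k : ℝ) := Nat.cast_nonneg _
      have hk1 : (0 : ℝ) < (k : ℝ) + 1 := by linarith
      have e : ∑ i ∈ Finset.univ.filter (fun i => M.lev i = k),
          (1 / ((M.lev i : ℝ) + 1) * (M.s ^ 2 * EM i)) =
          1 / ((k : ℝ) + 1) * (M.s ^ 2 *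
            ∑ i ∈ Finset.univ.filter (fun i => M.lev i = k), EM i) := by
        rw [Finset.mul_sum, Finset.mul_sum]
        apply Finset.sum_congr rfl
        intro i hi
        rw [(Finset.mem_filter.mp hi).2]
      rw [e]
      have hq : 0 ≤ 1 - 1 / Rt := by
        have : 1 / Rt ≤ 1 := by
          rw [div_le_one (by linarith)]
          exact hRt
        linarith
      have hdy : ∀ j, 0 ≤ dy j := by
        intro j
        unfold dy
        positivity
      have hmn : 0 ≤ 1 / ((k : ℝ) + 1) *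
            (2 * C1 * ((a * dy ((k + 1) / 2) + 2 * (1 - 1 / Rt) ^ ((k - 1) / 8) + k * tol) +
              2 * (V * (2 ^ (d * k) * dy k ^ (3 * d))))) := by
        have h1 := hdy ((k + 1) / 2)
        have h2 := hdy k
        have h3 := pow_nonneg hq ((k - 1) / 8)
        positivity
      by_cases hkk : k < k0 + 1
      · rw [if_pos hkk]
        have h1 := M.level_sum_triv ξ h hZ htol htol1 hC1 k
        have h2 : M.s ^ 2 * ∑ i ∈ Finset.univ.filter (fun i => M.lev i = k), EM i ≤ 4 * C1 := by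
          rw [hEM]
          exact h1
        have h3 : 0 ≤ M.s ^ 2 * ∑ i ∈ Finset.univ.filter (fun i => M.lev i = k), EM i := by
          have := Finset.sum_nonneg (s := Finset.univ.filter (fun i => M.lev i = k))
            (fun i _ => hEMn i)
          positivity
        have h4 : 1 / ((k : ℝ) + 1) ≤ 1 := by
          rw [div_le_one hk1]
          linarith
        have h5 := mul_le_mul_of_nonneg_right h4 h3
        linarith
      · rw [if_neg hkk, zero_add]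
        apply mul_le_mul_of_nonneg_left _ (by positivity)
        have hfk := hfew k (by omega) hkn.le
        have h1 := M.level_sum hR1 hr0 hR hL hC1 h hr hK' htol htol1 (k := k) (b := b) (by omega)
          hkn.le hRt hfk
        rw [← ha] at h1
        have h2 : M.s ^ 2 * ∑ i ∈ Finset.univ.filter (fun i => M.lev i = k), EM i ≤ 2 * C1 *
          ((a * dy ((k + 1) / 2) + 2 * (1 - 1 / Rt) ^ ((k - 1) / 8) + k * tol) +
            2 * ((2 * (L + r0 + 1) + 1) ^ d * 2 ^ (d * k) * (C0 * dy k ^ (3 * d)))) := by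
          rw [hEM]
          exact h1
        refine h2.trans ?_
        apply mul_le_mul_of_nonneg_left _ (by positivity)
        have h3 : C0 * dy k ^ (3 * d) ≤ |C0| * dy k ^ (3 * d) := by
          apply mul_le_mul_of_nonneg_right (le_abs_self _)
          exact pow_nonneg (hdy k) _
        have h4 : (2 * (L + r0 + 1) + 1) ^ d * 2 ^ (d * k) * (C0 * dy k ^ (3 * d)) ≤
            (2 * (L + r0 + 1) + 1) ^ d * 2 ^ (d * k) * (|C0| * dy k ^ (3 * d)) :=
          mul_le_mul_of_nonneg_left h3 (by positivity)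
        have h5 : V * (2 ^ (d * k) * dy k ^ (3 * d)) =
            (2 * (L + r0 + 1) + 1) ^ d * 2 ^ (d * k) * (|C0| * dy k ^ (3 * d)) := by
          rw [hV]; ring
        rw [h5]
        linarith
    have hsum := Finset.sum_le_sum hk
    rw [Finset.sum_add_distrib] at hsum
    have h1 := V9_few k0 n (4 * C1) (by positivity)
    have h2 := V9_num (d := d) hd n han hVn (c := 2 * C1) (by positivity) htol htoln hRt
    have h3 : ∑ k ∈ Finset.range n, ∑ i ∈ Finset.univ.filter (fun i => M.lev i = k),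
          (1 / ((M.lev i : ℝ) + 1) * (M.s ^ 2 * EM i)) ≤ 4 * C1 * ((k0 : ℝ) + 1) +
          2 * C1 * (a * 3 + 2 * (3 + 8 * Real.log Rt) + 1 + 2 * (V * 2)) := by
      linarith
    have h4 := mul_le_mul_of_nonneg_left h3 (show (0 : ℝ) ≤ 128 * ξ ^ 2 by positivity)
    refine h4.trans (le_of_eq ?_)
    rw [hK3, hK4, hK5]
    ring
  have hlog : 0 ≤ Real.log Rt := Real.log_nonneg hRt
  have hend : K1 + 8 + K3 + K4 + K5 * Real.log Rt ≤
      (K1 + 8 + K3 + K4 + K5) * (1 + Real.log Rt) := by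
    have e : (K1 + 8 + K3 + K4 + K5) * (1 + Real.log Rt) = K1 + 8 + K3 + K4 + K5 * Real.log Rt +
        (K5 + (K1 + 8 + K3 + K4) * Real.log Rt) := by ring
    rw [e]
    have : 0 ≤ (K1 + 8 + K3 + K4) * Real.log Rt := by positivity
    linarith
  linarith

end RM

end MP_d19698_pr
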