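import Pool.Agent.Lib.MP_d19698_pr.V16
import Pool.Agent.Lib.MP_d19698_pr.V9

/-!
# V17: the variance bound for the Gaussian field
-/

open MeasureTheory ProbabilityTheory Filter Topology Set
open scoped ENNReal NNReal

namespace MP_d19698_pr

variable {d : ℕ}

/-- `Fav` and `Fav²` are bounded Lipschitz functionals (`Fav_mem`, `Fav_lip`). -/
theorem blip_Fav {A B U K : Set (Rd d)} (h : GoodPos A B U) {Z : Finset (Rd d)} (hK : ∀ z ∈ Z, ∀ p ∈ U, p + z ∈ K) (lam : ℝ) {u : ℝ} (hu : 0 ≤ u) :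
    BLip K (fun f => Fav Z A B U lam u f) ∧ BLip K (fun f => Fav Z A B U lam u f ^ 2) := by
  have hbd : ∀ f, |Fav Z A B U lam u f| ≤ u := by
    intro f
    obtain ⟨h1, h2⟩ := Fav_mem hu Z A B U lam f
    rw [abs_le]
    exact ⟨h1, h2.trans hu⟩
  refine ⟨⟨⟨u, hbd⟩, 1, zero_le_one, ?_⟩, ⟨⟨u ^ 2, ?_⟩, 2 * u, by positivity, ?_⟩⟩
  · intro f g M ε hf hg hε hfg
    rw [one_mul]
    exact Fav_lip h hK hf hg hfg hε lam u
  · intro f
    rw [abs_pow]
    exact pow_le_pow_left₀ (abs_nonneg _) (hbd f) 2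
  · intro f g M ε hf hg hε hfg
    have h1 := Fav_lip h hK hf hg hfg hε lam u
    have e : Fav Z A B U lam u f ^ 2 - Fav Z A B U lam u g ^ 2 =
        (Fav Z A B U lam u f + Fav Z A B U lam u g) * (Fav Z A B U lam u f - Fav Z A B U lam u g) := by ring
    show |Fav Z A B U lam u f ^ 2 - Fav Z A B U lam u g ^ 2| ≤ 2 * u * ε
    rw [e, abs_mul]
    refine mul_le_mul ?_ h1 (abs_nonneg _) (by positivity)
    refine (abs_add_le _ _).trans ?_
    linarith [hbd f, hbd g]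

namespace Env

variable [NeZero d] (E : Env d)

/-- **The variance bound for the Gaussian field.** Choose a natural number `L ≥ |xU|_∞ + ρ + r` and `C` from `RM.variance_le` (`R = R0`, `r0 + 1/2 ≤ R0`, `C0 + 1` in place of `C0`). Fix `n`, `Rt`.
For `N0` large: `2 ξ s ≤ 1` (`rm_s_tendsto`) and `cP (FewT (2Rt)) ≤ (C0 + 1) 2^{-3dk}` for the finitely many pairs `k0 ≤ k ≤ n`, `p ∈ Gk d k (L + r0 + 1)` (`few_transfer`, `mem_Zg`;
strict inequality since `2^{-3dk} > 0`). So `cVar (Fav fld) ≤ C (1 + log (2 Rt)) ≤ 2 C (1 + log Rt)` for `N0` large, and `cVar = cE Fav² - (cE Fav)²` (`cVar_eq`) converges (`lip_tendsto`, `blip_Fav`). -/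
theorem variance_gauss (xA xB xU : Rd d) {rA ρ r : ℝ} (hr : 0 < r) (h : GoodPos (CBox xA rA) (CBox xB rA) (Box xU ρ)) (C0 : ℝ) (k0 b : ℕ) :
    ∃ C : ℝ, 0 < C ∧ ∀ n : ℕ, ∀ Rt : ℝ, 1 ≤ Rt →
      (∀ k, k0 ≤ k → k ≤ n → ∀ x : Rd d, E.P.real (E.FewTyp n k b x Rt) ≤ C0 * dy k ^ (3 * d)) →
      ∀ lam : ℝ, 0 < lam → ∀ u : ℝ, 0 ≤ u →
        Measurable (fun ω => Fav (Zg d n r) (CBox xA rA) (CBox xB rA) (Box xU ρ) lam u (E.hf 0 n ω)) ∧
        ∫ ω, Fav (Zg d n r) (CBox xA rA) (CBox xB rA) (Box xU ρ) lam u (E.hf 0 n ω) ^ 2 ∂E.P -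
          (∫ ω, Fav (Zg d n r) (CBox xA rA) (CBox xB rA) (Box xU ρ) lam u (E.hf 0 n ω) ∂E.P) ^ 2 ≤ C * (1 + Real.log Rt) := by
  set L : ℕ := ⌈(∑ i, |xU i|) + |ρ| + r⌉₊ with hL
  have hLle : (∑ i, |xU i|) + |ρ| + r ≤ (L : ℝ) := Nat.le_ceil _
  have hxU : ∀ i, |xU i| ≤ ∑ i, |xU i| := fun i =>
    Finset.single_le_sum (f := fun i => |xU i|) (fun _ _ => abs_nonneg _) (Finset.mem_univ i)
  have hp1 : ∀ p ∈ Box xU ρ, ∀ i, |p i| ≤ (∑ i, |xU i|) + |ρ| := by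
    intro p hp i
    have h1 : |p i - xU i| < ρ := hp i
    have h2 : |p i| ≤ |p i - xU i| + |xU i| := by
      calc |p i| = |(p i - xU i) + xU i| := by rw [sub_add_cancel]
        _ ≤ _ := abs_add_le _ _
    have h3 := le_abs_self ρ
    linarith [hxU i]
  have hU : Box xU ρ ⊆ CBox (0 : Rd d) (L : ℝ) := by
    intro p hp i
    have h1 := hp1 p hp i
    rw [show (0 : Rd d) i = 0 from rfl, sub_zero]
    linarith
  have hK : ∀ z : Rd d, (∀ i, |z i| ≤ r) → ∀ p ∈ Box xU ρ, p + z ∈ CBox (0 : Rd d) (L : ℝ) := by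
    intro z hz p hp i
    have h1 := hp1 p hp i
    have h2 := hz i
    rw [show (0 : Rd d) i = 0 from rfl, sub_zero, show (p + z) i = p i + z i from rfl]
    refine (abs_add_le _ _).trans ?_
    linarith
  have hLb : ∀ y : Rd d, y ∈ CBox (0 : Rd d) (L : ℝ) → y ∈ CBox (0 : Rd d) (E.Lb L : ℝ) := by
    intro y hy i
    refine (hy i).trans ?_
    unfold Lb
    push_cast
    have : (0 : ℝ) ≤ (⌈E.r0⌉₊ : ℝ) := Nat.cast_nonneg _
    have : (0 : ℝ) ≤ (E.R0 : ℝ) := Nat.cast_nonneg _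
    linarith
  have hR1 : 1 ≤ E.R0 := by
    unfold R0
    omega
  have hR : E.r0 + 1 / 2 ≤ (E.R0 : ℝ) := by
    unfold R0
    push_cast
    have := Nat.le_ceil (2 * E.r0)
    have := E.hr0
    linarith
  have hC1 : 0 ≤ E.C1 L := by
    have := E.hr0
    unfold C1
    positivity
  obtain ⟨C, hC0, hC⟩ := RM.variance_le (r0 := E.r0) (L := (L : ℝ)) (C1 := E.C1 L) (ξ := E.ξ) (r := r)
    (R := E.R0) (k0 := k0) (b := b) hR1 E.hr0 hR (Nat.cast_nonneg L) hC1 E.hξ hr (C0 + 1) h hU hK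
  refine ⟨2 * C, by linarith, ?_⟩
  intro n Rt hRt hfew lam hlam u hu
  have hKZ : ∀ z ∈ Zg d n r, ∀ p ∈ Box xU ρ, p + z ∈ CBox (0 : Rd d) (E.Lb L : ℝ) := fun z hz p hp =>
    hLb _ (hK z (mem_Zg hz).1 p hp)
  obtain ⟨hb1, hb2⟩ := blip_Fav h hKZ lam hu
  refine ⟨E.measurable_blip (isCompact_CBox _ _) hb1 n, ?_⟩
  have ht1 := E.lip_tendsto L n hb1
  have ht2 := E.lip_tendsto L n hb2
  have hlim := ht2.sub (ht1.pow 2)
  have hlog : Real.log (2 * Rt) = Real.log 2 + Real.log Rt :=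
    Real.log_mul (by norm_num) (by linarith)
  have hlog2 : Real.log 2 ≤ 1 := by
    have := Real.log_two_lt_d9
    linarith
  have hlogR : 0 ≤ Real.log Rt := Real.log_nonneg hRt
  refine le_trans (le_of_tendsto hlim ?_) (show C * (1 + Real.log (2 * Rt)) ≤ _ by
    rw [hlog]
    nlinarith)
  -- the eventual inequalities
  have hev1 : ∀ᶠ N0 in atTop, 2 * E.ξ * (E.rm L n N0).s ≤ 1 := by
    have h1 : Tendsto (fun N0 => 2 * E.ξ * (E.rm L n N0).s) atTop (𝓝 (2 * E.ξ * 0)) :=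
      (E.rm_s_tendsto L n).const_mul _
    rw [mul_zero] at h1
    exact (h1.eventually_lt_const zero_lt_one).mono fun _ h => h.le
  have hev2 : ∀ᶠ N0 in atTop, ∀ k ∈ Finset.range (n + 1), k0 ≤ k → ∀ p ∈ RM.Gk d k ((L : ℝ) + E.r0 + 1),
      cP ((E.rm L n N0).FewT E.ξ E.R0 k b p (2 * Rt)) ≤ (C0 + 1) * dy k ^ (3 * d) := by
    rw [Filter.eventually_all_finset]
    intro k hk
    by_cases hk0 : k0 ≤ k
    · simp only [hk0, true_imp_iff]
      rw [Filter.eventually_all_finset]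
      intro p hp
      refine E.few_transfer L n (fun i => ?_) hRt ?_
      · exact (mem_Zg hp).1 i
      · refine lt_of_le_of_lt (hfew k hk0 (Nat.lt_succ_iff.1 (Finset.mem_range.1 hk)) p) ?_
        have : (0 : ℝ) < dy k ^ (3 * d) := by
          unfold dy
          positivity
        nlinarith
    · exact Eventually.of_forall fun _ h => absurd h hk0
  filter_upwards [hev1, hev2] with N0 h1 h2
  have h3 := hC n (E.rm L n N0) (2 * Rt) (by linarith) h1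
    (fun k hk hkn p hp => h2 k (Finset.mem_range.2 (Nat.lt_succ_of_le hkn)) hk p hp) lam u hlam hu
  rw [cVar_eq] at h3
  exact h3

end Env

end MP_d19698_pr
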