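import Pool.Agent.Lib.MP_d19698_pr.A3b
import Pool.Agent.Lib.MP_d19698_pr.B10
import Pool.Agent.Lib.MP_d19698_pr.B11
import Pool.Agent.Lib.MP_d19698_pr.CubeC
import Pool.Agent.Lib.MP_d19698_pr.V17

/-!
# V: the variance bound and its consequence (section 8)
-/

open MeasureTheory ProbabilityTheory Filter Topology Set
open scoped ENNReal NNReal

namespace MP_d19698_pr

variable {d : ℕ}

/-- **Chebyshev, twice.** `X` takes values in `[-u, 0]`, `Var X ≤ V`, `P(X = -u) ≥ p`, `u ≥ 2 √(V/p) + 2 √(V/η)`, `u > 0`: then `P(X ≤ -u/2) ≥ 1 - η`.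
If `E X > -u + t` with `t = √(V/p)` then `{X = -u} ⊆ {|X - E X| ≥ s}` for some `s > t` and `p ≤ V/s² < p` (if `V = 0`, `X` is a.s. constant, `= -u`). So `E X ≤ -u + √(V/p)` and
`{X > -u/2} ⊆ {X - E X ≥ √(V/η)}`-type event of probability `≤ η`. -/
theorem chebyshev_two {Ω : Type*} [MeasurableSpace Ω] (P : Measure Ω) [IsProbabilityMeasure P] {X : Ω → ℝ} (hX : Measurable X) {u V p η : ℝ}
    (hu : 0 < u) (hp : 0 < p) (hη : 0 < η) (hV : 0 ≤ V) (hmem : ∀ ω, -u ≤ X ω ∧ X ω ≤ 0) (hvar : ∫ ω, X ω ^ 2 ∂P - (∫ ω, X ω ∂P) ^ 2 ≤ V)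
    (hpX : p ≤ P.real {ω | X ω = -u}) (hbig : 2 * Real.sqrt (V / p) + 2 * Real.sqrt (V / η) ≤ u) :
    1 - η ≤ P.real {ω | X ω ≤ -(u / 2)} := by
  have hLp : MemLp X 2 P := by
    refine MemLp.of_bound hX.aestronglyMeasurable u (Eventually.of_forall fun ω => ?_)
    rw [Real.norm_eq_abs, abs_le]
    exact ⟨(hmem ω).1, (hmem ω).2.trans hu.le⟩
  have hvar' : variance X P ≤ V := by
    rw [variance_eq_sub hLp]
    exact hvar
  set m : ℝ := ∫ ω, X ω ∂P with hm
  have cheb : ∀ t : ℝ, 0 < t → P.real {ω | t ≤ |X ω - m|} ≤ V / t ^ 2 := by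
    intro t ht
    have h1 := meas_ge_le_variance_div_sq hLp ht
    have h2 : P.real {ω | t ≤ |X ω - m|} ≤ variance X P / t ^ 2 := by
      have h3 := ENNReal.toReal_mono ENNReal.ofReal_ne_top h1
      rw [ENNReal.toReal_ofReal (by have := variance_nonneg X P; positivity)] at h3
      exact h3
    exact h2.trans (by gcongr)
  -- step 1
  have s1 : m ≤ -u + Real.sqrt (V / p) := by
    by_contra hcon
    push Not at hcon
    have hs0 : 0 ≤ Real.sqrt (V / p) := Real.sqrt_nonneg _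
    have hs : 0 < m + u := by linarith
    have h1 : p ≤ V / (m + u) ^ 2 := by
      refine hpX.trans (le_trans (measureReal_mono ?_ (measure_ne_top _ _)) (cheb _ hs))
      intro ω hω
      have hω' : X ω = -u := hω
      change m + u ≤ |X ω - m|
      rw [hω', abs_sub_comm]
      exact (by linarith : m + u ≤ m - -u).trans (le_abs_self _)
    have h2 : (m + u) ^ 2 ≤ V / p := by
      rw [le_div_iff₀ (by positivity)] at h1
      rw [le_div_iff₀ hp]
      linarith
    have h3 : m + u ≤ Real.sqrt (V / p) := Real.le_sqrt_of_sq_le h2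
    linarith
  -- step 2
  have ht0 : Real.sqrt (V / η) ≤ u / 2 - Real.sqrt (V / p) := by linarith
  have ht1 : 0 < u / 2 - Real.sqrt (V / p) := by
    rcases hV.eq_or_lt with h | h
    · rw [← h]
      simp only [zero_div, Real.sqrt_zero, sub_zero]
      positivity
    · exact lt_of_lt_of_le (Real.sqrt_pos.mpr (by positivity)) ht0
  have h3 : V / (u / 2 - Real.sqrt (V / p)) ^ 2 ≤ η := by
    rw [div_le_iff₀ (by positivity)]
    have h4 : V / η ≤ (u / 2 - Real.sqrt (V / p)) ^ 2 := (Real.sqrt_le_left ht1.le).mp ht0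
    rw [div_le_iff₀ hη] at h4
    linarith
  have h5 : P.real {ω | X ω ≤ -(u / 2)}ᶜ ≤ η := by
    refine le_trans (measureReal_mono ?_ (measure_ne_top _ _)) ((cheb _ ht1).trans h3)
    intro ω hω
    have hω' : -(u / 2) < X ω := not_le.mp hω
    change u / 2 - Real.sqrt (V / p) ≤ |X ω - m|
    exact (by linarith : u / 2 - Real.sqrt (V / p) ≤ X ω - m).trans (le_abs_self _)
  have h6 : P.real {ω | X ω ≤ -(u / 2)}ᶜ = 1 - P.real {ω | X ω ≤ -(u / 2)} :=
    probReal_compl_eq_one_sub (hX measurableSet_Iic)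
  linarith

private theorem VThm_cbox {x z : Rd d} {r r' ρ : ℝ} (hz : ∀ i, |z i| ≤ ρ) (h : r + ρ ≤ r') :
    CBox x r ⊆ CBox (x + z) r' ∧ CBox (x + z) r ⊆ CBox x r' := by
  constructor
  · intro y hy i
    have h1 := hy i
    have h2 := hz i
    have h3 : (x + z) i = x i + z i := rfl
    rw [h3]
    rw [abs_le] at *
    constructor <;> linarith [h1.1, h1.2, h2.1, h2.2]
  · intro y hy i
    have h1 := hy i
    have h2 := hz i
    have h3 : (x + z) i = x i + z i := rfl
    rw [h3] at h1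
    rw [abs_le] at *
    constructor <;> linarith [h1.1, h1.2, h2.1, h2.2]

private theorem VThm_box {x z : Rd d} {r r' ρ : ℝ} (hz : ∀ i, |z i| ≤ ρ) (h : r + ρ ≤ r') :
    Box x r ⊆ Box (x + z) r' ∧ Box (x + z) r ⊆ Box x r' := by
  constructor
  · intro y hy i
    have h1 := hy i
    have h2 := hz i
    have h3 : (x + z) i = x i + z i := rfl
    rw [h3]
    rw [abs_lt] at *
    rw [abs_le] at h2
    constructor <;> linarith [h1.1, h1.2, h2.1, h2.2]
  · intro y hy i
    have h1 := hy i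
    have h2 := hz i
    have h3 : (x + z) i = x i + z i := rfl
    rw [h3] at h1
    rw [abs_lt] at *
    rw [abs_le] at h2
    constructor <;> linarith [h1.1, h1.2, h2.1, h2.2]

namespace Env

variable [NeZero d] (E : Env d)

/-- **Theorem V** (section 8 of the notes). Apply `variance_gauss` with `A = CBox xA (2 r1)`, `B = CBox xB (2 r1)`, `U = Box xU (ρU + r1)`, `r = r1` (`GoodPos` from `hA`, `hB`, `hAB`; `ρU > 0` by `hA`), constant `C'`;
`X = Fav (hf)`, `V = C' (1 + log Rt)`, `C = 2 √(C'/p) + 2 √(C'/η) + 1` (`√(V/p) = √(C'/p) √(1 + log Rt)`), `u > 0`.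
* On `{D(hf; CBox xA r1, CBox xB r1; Box xU ρU) < e^{-u} lam}` all `z ∈ Zg` satisfy `D (shf z hf) A B U = D hf (CBox (xA+z) (2r1)) .. ≤ D hf (CBox xA r1) ..` (`D_translate`, `D_mono`, `mem_Zg`), so
`Fc = -u` and `Fav = -u` (`avz` of a constant, `Zg_nonempty`; `D` is positive and finite, `GoodPos.D_pos`, `hf ω` is bounded on bounded sets by continuity).
* If `Fav ≤ -u/2` then `Fc (shf z hf) ≤ -u/2` for some `z ∈ Zg` (average), so `log D ≤ log lam - u/2`, and `D hf (CBox xA (3r1)) (CBox xB (3r1)) (Box xU (ρU+2r1)) ≤ D (shf z hf) A B U ≤ e^{-u/2} lam`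
(`D_translate`, `D_mono`).
Conclude by `chebyshev_two` and monotonicity of `P.real`. -/
theorem variance_transfer (xA xB xU : Rd d) {r1 ρU : ℝ} (hr1 : 0 < r1)
    (hA : CBox xA (3 * r1) ⊆ Box xU ρU) (hB : CBox xB (3 * r1) ⊆ Box xU ρU) (hAB : Disjoint (CBox xA (3 * r1)) (CBox xB (3 * r1)))
    {p η : ℝ} (hp : 0 < p) (hη : 0 < η) (C0 : ℝ) (k0 b : ℕ) :
    ∃ C : ℝ, 0 < C ∧ ∀ n : ℕ, ∀ Rt : ℝ, 1 ≤ Rt →
      (∀ k, k0 ≤ k → k ≤ n → ∀ x : Rd d, E.P.real (E.FewTyp n k b x Rt) ≤ C0 * dy k ^ (3 * d)) →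
      ∀ lam : ℝ, 0 < lam → ∀ u : ℝ, C * Real.sqrt (1 + Real.log Rt) ≤ u →
        p ≤ E.P.real {ω | D (E.hf 0 n ω) (CBox xA r1) (CBox xB r1) (Box xU ρU) < ENNReal.ofReal (Real.exp (-u) * lam)} →
        1 - η ≤ E.P.real {ω | D (E.hf 0 n ω) (CBox xA (3 * r1)) (CBox xB (3 * r1)) (Box xU (ρU + 2 * r1)) ≤
          ENNReal.ofReal (Real.exp (-(u / 2)) * lam)} := by
  have h0 : 0 < ρU := by
    have h1 : xA ∈ CBox xA (3 * r1) := by
      intro i
      rw [sub_self, abs_zero]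
      positivity
    exact lt_of_le_of_lt (abs_nonneg _) (hA h1 0)
  have hsub : ∀ (x : Rd d) {r r' : ℝ}, r ≤ r' → CBox x r ⊆ CBox x r' := fun x r r' h y hy i => (hy i).trans h
  have hsubB : Box xU ρU ⊆ Box xU (ρU + r1) := fun y hy i => (hy i).trans_le (by linarith)
  have good : GoodPos (CBox xA (2 * r1)) (CBox xB (2 * r1)) (Box xU (ρU + r1)) :=
    { exA := ⟨xA, 2 * r1, by positivity, rfl⟩
      exB := ⟨xB, 2 * r1, by positivity, rfl⟩
      exU := ⟨xU, ρU + r1, by positivity, rfl⟩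
      hAU := ((hsub xA (by linarith)).trans hA).trans hsubB
      hBU := ((hsub xB (by linarith)).trans hB).trans hsubB
      disj := hAB.mono (hsub xA (by linarith)) (hsub xB (by linarith)) }
  obtain ⟨C', hC', H⟩ := E.variance_gauss xA xB xU hr1 good C0 k0 b
  refine ⟨2 * Real.sqrt (C' / p) + 2 * Real.sqrt (C' / η) + 1, by positivity, ?_⟩
  intro n Rt hRt hfew lam hlam u hu hprob
  have hlog : 0 ≤ Real.log Rt := Real.log_nonneg hRt
  have hL1 : 1 ≤ Real.sqrt (1 + Real.log Rt) := by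
    rw [Real.one_le_sqrt]
    linarith
  have hu0 : 0 < u := by
    have h1 : 0 ≤ Real.sqrt (C' / p) := Real.sqrt_nonneg _
    have h2 : 0 ≤ Real.sqrt (C' / η) := Real.sqrt_nonneg _
    have h3 : (1 : ℝ) ≤ (2 * Real.sqrt (C' / p) + 2 * Real.sqrt (C' / η) + 1) * Real.sqrt (1 + Real.log Rt) := by
      nlinarith
    linarith
  obtain ⟨hmeas, hvar⟩ := H n Rt hRt hfew lam hlam u hu0.le
  have hV : 0 ≤ C' * (1 + Real.log Rt) := by positivity
  have hbig : 2 * Real.sqrt (C' * (1 + Real.log Rt) / p) + 2 * Real.sqrt (C' * (1 + Real.log Rt) / η) ≤ u := by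
    have e1 : Real.sqrt (C' * (1 + Real.log Rt) / p) = Real.sqrt (C' / p) * Real.sqrt (1 + Real.log Rt) := by
      rw [← Real.sqrt_mul (by positivity)]
      congr 1
      ring
    have e2 : Real.sqrt (C' * (1 + Real.log Rt) / η) = Real.sqrt (C' / η) * Real.sqrt (1 + Real.log Rt) := by
      rw [← Real.sqrt_mul (by positivity)]
      congr 1
      ring
    rw [e1, e2]
    nlinarith
  have hbd : ∀ (ω : E.Ω) (z : Rd d), ∃ M : ℝ, ∀ x ∈ Box xU (ρU + r1), |shf z (E.hf 0 n ω) x| ≤ M := by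
    intro ω z
    have hc : Continuous (shf z (E.hf 0 n ω)) := (E.continuous_hf 0 n ω).comp (continuous_id.add continuous_const)
    obtain ⟨M, hM⟩ := (isCompact_CBox xU (ρU + r1)).exists_bound_of_continuousOn hc.continuousOn
    exact ⟨M, fun x hx => by
      rw [← Real.norm_eq_abs]
      exact hM x (fun i => (hx i).le)⟩
  have key := chebyshev_two E.P hmeas hu0 hp hη hV
    (fun ω => Fav_mem hu0.le (Zg d n r1) (CBox xA (2 * r1)) (CBox xB (2 * r1)) (Box xU (ρU + r1)) lam (E.hf 0 n ω))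
    hvar ?_ hbig
  · refine key.trans (measureReal_mono ?_ (measure_ne_top _ _))
    intro ω hω
    have hω' : Fav (Zg d n r1) (CBox xA (2 * r1)) (CBox xB (2 * r1)) (Box xU (ρU + r1)) lam u (E.hf 0 n ω) ≤ -(u / 2) := hω
    have hne := Zg_nonempty (d := d) n hr1.le
    have hcard : (0 : ℝ) < ((Zg d n r1).card : ℝ) := by exact_mod_cast Finset.card_pos.mpr hne
    unfold Fav avz at hω'
    rw [div_le_iff₀ hcard] at hω'
    obtain ⟨z, hz, hzle⟩ := Finset.exists_le_of_sum_le (s := Zg d n r1)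
        (f := fun z => Fc (CBox xA (2 * r1)) (CBox xB (2 * r1)) (Box xU (ρU + r1)) lam u (shf z (E.hf 0 n ω)))
        (g := fun _ => -(u / 2)) hne (by
      rw [Finset.sum_const, nsmul_eq_mul]
      linarith)
    have hz1 := (mem_Zg hz).1
    obtain ⟨M, hM⟩ := hbd ω z
    obtain ⟨hpos, hfin⟩ := good.D_pos hM
    have hle : Real.log (D (shf z (E.hf 0 n ω)) (CBox xA (2 * r1)) (CBox xB (2 * r1)) (Box xU (ρU + r1))).toReal - Real.log lam ≤ -(u / 2) := by
      unfold Fc at hzle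
      have h1 := (le_max_right _ _).trans hzle
      rcases min_le_iff.mp h1 with h2 | h2
      · linarith
      · exact h2
    have htp : 0 < (D (shf z (E.hf 0 n ω)) (CBox xA (2 * r1)) (CBox xB (2 * r1)) (Box xU (ρU + r1))).toReal :=
      ENNReal.toReal_pos hpos.ne' hfin.ne
    have h2 : (D (shf z (E.hf 0 n ω)) (CBox xA (2 * r1)) (CBox xB (2 * r1)) (Box xU (ρU + r1))).toReal ≤ Real.exp (-(u / 2)) * lam := by
      rw [← Real.log_le_log_iff htp (by positivity), Real.log_mul (Real.exp_pos _).ne' hlam.ne', Real.log_exp]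
      linarith
    have h3 : D (shf z (E.hf 0 n ω)) (CBox xA (2 * r1)) (CBox xB (2 * r1)) (Box xU (ρU + r1)) ≤ ENNReal.ofReal (Real.exp (-(u / 2)) * lam) := by
      rw [← ENNReal.ofReal_toReal hfin.ne]
      exact ENNReal.ofReal_le_ofReal h2
    refine le_trans ?_ h3
    have h4 := D_translate (E.hf 0 n ω) xA xB xU z (2 * r1) (2 * r1) (ρU + r1)
    change D (E.hf 0 n ω) (CBox xA (3 * r1)) (CBox xB (3 * r1)) (Box xU (ρU + 2 * r1)) ≤
      D (fun y => E.hf 0 n ω (y + z)) (CBox xA (2 * r1)) (CBox xB (2 * r1)) (Box xU (ρU + r1))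
    rw [← h4]
    exact D_mono _ (VThm_cbox hz1 (by linarith)).2 (VThm_cbox hz1 (by linarith)).2 (VThm_box hz1 (by linarith)).2
  · refine hprob.trans (measureReal_mono ?_ (measure_ne_top _ _))
    intro ω hω
    have hω' : D (E.hf 0 n ω) (CBox xA r1) (CBox xB r1) (Box xU ρU) < ENNReal.ofReal (Real.exp (-u) * lam) := hω
    change Fav (Zg d n r1) (CBox xA (2 * r1)) (CBox xB (2 * r1)) (Box xU (ρU + r1)) lam u (E.hf 0 n ω) = -u
    have hall : ∀ z ∈ Zg d n r1, Fc (CBox xA (2 * r1)) (CBox xB (2 * r1)) (Box xU (ρU + r1)) lam u (shf z (E.hf 0 n ω)) = -u := by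
      intro z hz
      have hz1 := (mem_Zg hz).1
      obtain ⟨M, hM⟩ := hbd ω z
      obtain ⟨hpos, hfin⟩ := good.D_pos hM
      have h4 := D_translate (E.hf 0 n ω) xA xB xU z (2 * r1) (2 * r1) (ρU + r1)
      have h5 : D (shf z (E.hf 0 n ω)) (CBox xA (2 * r1)) (CBox xB (2 * r1)) (Box xU (ρU + r1)) < ENNReal.ofReal (Real.exp (-u) * lam) := by
        refine lt_of_le_of_lt ?_ hω'
        change D (fun y => E.hf 0 n ω (y + z)) (CBox xA (2 * r1)) (CBox xB (2 * r1)) (Box xU (ρU + r1)) ≤ _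
        rw [← h4]
        exact D_mono _ (VThm_cbox hz1 (by linarith)).1 (VThm_cbox hz1 (by linarith)).1 (VThm_box hz1 (by linarith)).1
      have htp : 0 < (D (shf z (E.hf 0 n ω)) (CBox xA (2 * r1)) (CBox xB (2 * r1)) (Box xU (ρU + r1))).toReal :=
        ENNReal.toReal_pos hpos.ne' hfin.ne
      have h6 : (D (shf z (E.hf 0 n ω)) (CBox xA (2 * r1)) (CBox xB (2 * r1)) (Box xU (ρU + r1))).toReal < Real.exp (-u) * lam := by
        rw [← ENNReal.toReal_ofReal (by positivity : 0 ≤ Real.exp (-u) * lam)]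
        exact (ENNReal.toReal_lt_toReal hfin.ne ENNReal.ofReal_ne_top).mpr h5
      have h7 : Real.log (D (shf z (E.hf 0 n ω)) (CBox xA (2 * r1)) (CBox xB (2 * r1)) (Box xU (ρU + r1))).toReal < -u + Real.log lam := by
        rw [← Real.log_exp (-u), ← Real.log_mul (Real.exp_pos _).ne' hlam.ne']
        exact Real.log_lt_log htp h6
      unfold Fc
      rw [max_eq_left]
      exact (min_le_right _ _).trans (by linarith)
    unfold Fav
    have hcong : avz (Zg d n r1) (fun z => Fc (CBox xA (2 * r1)) (CBox xB (2 * r1)) (Box xU (ρU + r1)) lam u (shf z (E.hf 0 n ω))) =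
        avz (Zg d n r1) (fun _ => -u) := by
      unfold avz
      rw [Finset.sum_congr rfl hall]
    rw [hcong, avz_const (Zg_nonempty n hr1.le)]

end Env

end MP_d19698_pr
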