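import Pool.Agent.Lib.MP_d19698_pr.C4c
import Pool.Agent.Lib.MP_d19698_pr.C5d
import Pool.Agent.Lib.MP_d19698_pr.VThm

/-!
# C6: typical scales (section 7)
-/

open MeasureTheory ProbabilityTheory Filter Topology Set
open scoped ENNReal NNReal

namespace MP_d19698_pr

/-- Independent rare events: `P[at least q of the n independent events occur] ≤ 2^n p^q` if each has probability `≤ p`. -/
theorem indep_count {Ω : Type*} [MeasurableSpace Ω] (P : Measure Ω) [IsProbabilityMeasure P] {ι : Type*} [DecidableEq ι] (S : Finset ι) (B : ι → Set Ω) {p : ℝ}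
    (hp : 0 ≤ p) (hp1 : p ≤ 1) (h : ∀ T ⊆ S, P.real (⋂ i ∈ T, B i) ≤ p ^ T.card) (q : ℕ) :
    P.real {ω | ∃ T ⊆ S, q ≤ T.card ∧ ∀ i ∈ T, ω ∈ B i} ≤ 2 ^ S.card * p ^ q := by
  classical
  have hsub : {ω | ∃ T ⊆ S, q ≤ T.card ∧ ∀ i ∈ T, ω ∈ B i} ⊆
      ⋃ T ∈ S.powerset.filter (fun T => q ≤ T.card), ⋂ i ∈ T, B i := by
    rintro ω ⟨T, hT, hq, hB⟩
    simp only [mem_iUnion, mem_iInter, exists_prop]
    exact ⟨T, Finset.mem_filter.mpr ⟨Finset.mem_powerset.mpr hT, hq⟩, hB⟩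
  calc P.real {ω | ∃ T ⊆ S, q ≤ T.card ∧ ∀ i ∈ T, ω ∈ B i} ≤ P.real (⋃ T ∈ S.powerset.filter (fun T => q ≤ T.card), ⋂ i ∈ T, B i) :=
        measureReal_mono hsub (measure_ne_top _ _)
    _ ≤ ∑ T ∈ S.powerset.filter (fun T => q ≤ T.card), P.real (⋂ i ∈ T, B i) := measureReal_biUnion_finset_le _ _
    _ ≤ ∑ T ∈ S.powerset.filter (fun T => q ≤ T.card), p ^ q := by
        refine Finset.sum_le_sum fun T hT => ?_
        rw [Finset.mem_filter, Finset.mem_powerset] at hT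
        exact (h T hT.1).trans (pow_le_pow_of_le_one hp hp1 hT.2)
    _ = (S.powerset.filter (fun T => q ≤ T.card)).card * p ^ q := by rw [Finset.sum_const, nsmul_eq_mul]
    _ ≤ 2 ^ S.card * p ^ q := by
        refine mul_le_mul_of_nonneg_right ?_ (pow_nonneg hp q)
        have h1 : (S.powerset.filter (fun T => q ≤ T.card)).card ≤ 2 ^ S.card := by
          rw [← Finset.card_powerset]; exact Finset.card_filter_le _ _
        exact_mod_cast h1

/-- `μ_m ≤ e^{C(m+1)}`. -/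
theorem Par.mu_upper {d : ℕ} [NeZero d] {E : Env d} (A : Par E) : ∃ C : ℝ, 0 < C ∧ ∀ m : ℕ, A.mu m ≤ Real.exp (C * ((m : ℝ) + 1)) := by
  obtain ⟨C, hC, h⟩ := A.mu_add_le 1
  refine ⟨max (max C (A.mu 0)) 1, lt_of_lt_of_le one_pos (le_max_right _ _), ?_⟩
  set C' := max (max C (A.mu 0)) 1 with hC'
  have hC1 : C ≤ C' := le_trans (le_max_left _ _) (le_max_left _ _)
  have hC2 : A.mu 0 ≤ C' := le_trans (le_max_right _ _) (le_max_left _ _)
  have he : C' ≤ Real.exp C' := by linarith [Real.add_one_le_exp C']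
  intro m
  induction m with
  | zero => simpa using hC2.trans he
  | succ m ih =>
    calc A.mu (m + 1) ≤ C * A.mu m := h m
      _ ≤ C * Real.exp (C' * ((m : ℝ) + 1)) := mul_le_mul_of_nonneg_left ih hC.le
      _ ≤ Real.exp C' * Real.exp (C' * ((m : ℝ) + 1)) :=
          mul_le_mul_of_nonneg_right (hC1.trans he) (Real.exp_pos _).le
      _ = Real.exp (C' * (((m + 1 : ℕ) : ℝ) + 1)) := by
          rw [← Real.exp_add]; congr 1; push_cast; ring

namespace Par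

variable {d : ℕ} [NeZero d] {E : Env d} (A : Par E)

/-- a typical scale, deterministic part: if `ξh_{0,j}` oscillates by at most `K` on `CBox x ((R0+1) 2^{-j})`, `sig(h_{j,n}) ≤ s` and `Cr(h_{j,n}) ≥ t` with `s ≤ Rt e^{-K} t`..., then `Typ`. -/
theorem typ_of {n j : ℕ} (hj : j ≤ n) (ω : E.Ω) (x : Rd d) {K s t Rt : ℝ} (hs : 0 ≤ s) (ht : 0 ≤ t) (hRt : 0 ≤ Rt)
    (hosc : ∀ y ∈ CBox x (((E.R0 : ℝ) + 1) * dy j), ∀ z ∈ CBox x (((E.R0 : ℝ) + 1) * dy j), |E.hf 0 j ω y - E.hf 0 j ω z| ≤ K)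
    (hsig : sig E.R0 (E.hf j n ω) x j ≤ ENNReal.ofReal s) (hcr : ENNReal.ofReal t ≤ Cr (E.hf j n ω) x ((E.R0 : ℝ) * dy (j + 1)) ((E.R0 : ℝ) * dy j))
    (h : Real.exp (2 * K) * s ≤ Rt * t) : Typ E.R0 (E.hf 0 n ω) x Rt j := by
  have hdy := dy_pos j
  have hR0 : (0 : ℝ) ≤ E.R0 := Nat.cast_nonneg _
  have hxm : x ∈ CBox x (((E.R0 : ℝ) + 1) * dy j) := by
    intro i
    rw [sub_self, abs_zero]
    positivity
  set h0 := E.hf 0 j ω x with hh0
  have hadd : ∀ y, E.hf 0 n ω y = E.hf 0 j ω y + E.hf j n ω y := fun y => E.hf_add (Nat.zero_le j) hj ω y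
  have hb : ∀ y ∈ CBox x (((E.R0 : ℝ) + 1) * dy j), |E.hf 0 j ω y - h0| ≤ K := fun y hy => hosc y hy x hxm
  have hSh : Shell E.R0 x j ⊆ CBox x (((E.R0 : ℝ) + 1) * dy j) := by
    intro y hy i
    have h1 := hy.1 i
    have h2 : ((E.R0 : ℝ) + 1 / 4) * dy j ≤ ((E.R0 : ℝ) + 1) * dy j := by nlinarith
    linarith
  have hAn : Ann x ((E.R0 : ℝ) * dy (j + 1)) ((E.R0 : ℝ) * dy j) ⊆ CBox x (((E.R0 : ℝ) + 1) * dy j) := by
    intro y hy i
    have h1 := hy.1 i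
    have h2 : (E.R0 : ℝ) * dy j ≤ ((E.R0 : ℝ) + 1) * dy j := by nlinarith
    linarith
  have e1 : sig E.R0 (E.hf 0 n ω) x j ≤ ENNReal.ofReal (Real.exp (h0 + K)) * ENNReal.ofReal s := by
    refine le_trans (sig_le_exp E.R0 (f := E.hf 0 n ω) (g := E.hf j n ω) (M := h0 + K) x j ?_) ?_
    · intro y hy
      have h1 := (abs_le.mp (hb y (hSh hy))).2
      rw [hadd y]; linarith
    · gcongr
  have e2 : ENNReal.ofReal t ≤ ENNReal.ofReal (Real.exp (K - h0)) * Cr (E.hf 0 n ω) x ((E.R0 : ℝ) * dy (j + 1)) ((E.R0 : ℝ) * dy j) := by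
    refine le_trans hcr (D_le_exp (f := E.hf j n ω) (g := E.hf 0 n ω) (M := K - h0) _ _ ?_)
    intro y hy
    have h1 := (abs_le.mp (hb y (hAn hy))).1
    rw [hadd y]; linarith
  unfold Typ
  calc sig E.R0 (E.hf 0 n ω) x j ≤ ENNReal.ofReal (Real.exp (h0 + K)) * ENNReal.ofReal s := e1
    _ = ENNReal.ofReal (Real.exp (h0 + K) * s) := (ENNReal.ofReal_mul (Real.exp_pos _).le).symm
    _ ≤ ENNReal.ofReal (Rt * (Real.exp (h0 - K) * t)) := by
        apply ENNReal.ofReal_le_ofReal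
        have e3 : Real.exp (h0 + K) * s = Real.exp (h0 - K) * (Real.exp (2 * K) * s) := by
          rw [← mul_assoc, ← Real.exp_add]; ring_nf
        rw [e3]
        have := mul_le_mul_of_nonneg_left h (Real.exp_pos (h0 - K)).le
        linarith
    _ = ENNReal.ofReal Rt * (ENNReal.ofReal (Real.exp (h0 - K)) * ENNReal.ofReal t) := by
        rw [ENNReal.ofReal_mul hRt, ENNReal.ofReal_mul (Real.exp_pos _).le]
    _ ≤ ENNReal.ofReal Rt * (ENNReal.ofReal (Real.exp (h0 - K)) *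
          (ENNReal.ofReal (Real.exp (K - h0)) * Cr (E.hf 0 n ω) x ((E.R0 : ℝ) * dy (j + 1)) ((E.R0 : ℝ) * dy j))) := by
        gcongr
    _ = ENNReal.ofReal Rt * Cr (E.hf 0 n ω) x ((E.R0 : ℝ) * dy (j + 1)) ((E.R0 : ℝ) * dy j) := by
        rw [← mul_assoc (ENNReal.ofReal (Real.exp (h0 - K))), ← ENNReal.ofReal_mul (Real.exp_pos _).le, ← Real.exp_add]
        have : h0 - K + (K - h0) = 0 := by ring
        rw [this, Real.exp_zero, ENNReal.ofReal_one, one_mul]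

end Par
end MP_d19698_pr
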