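import Pool.Agent.Lib.MP_d19698_pr.C6a

/-! # C6b -/

open MeasureTheory ProbabilityTheory Filter Topology Set
open scoped ENNReal NNReal

namespace MP_d19698_pr

private theorem C6b_dy_pos (l : ℕ) : 0 < dy l := by
  unfold dy; positivity

private theorem C6b_dy_succ (l : ℕ) : dy (l + 1) = dy l / 2 := by
  unfold dy; rw [pow_succ]; ring

private theorem C6b_card (k b : ℕ) (hk : 8 * b + 16 ≤ k) : 3 * k ≤ 16 * (Env.Jset k b).card := by
  set a := ((k + 1) / 2 + 1) / 2 with ha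
  set N := (k - b) / 2 + 1 - a with hN
  have h1 : N ≤ (Env.Jset k b).card := by
    rw [← Finset.card_range N]
    refine Finset.card_le_card_of_injOn (fun i => 2 * (i + a)) ?_ ?_
    · intro i hi
      have hi' : i < N := by simpa using hi
      simp only [Env.Jset, Finset.coe_filter, Finset.mem_Icc, Set.mem_ofPred_eq]
      refine ⟨⟨by omega, by omega⟩, even_two_mul _⟩
    · intro i _ j _ hij
      simp only at hij
      omega
  omega

private theorem C6b_card_le (k b : ℕ) (hk : 1 ≤ k) : (Env.Jset k b).card ≤ k := by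
  unfold Env.Jset
  refine (Finset.card_filter_le _ _).trans ?_
  rw [Nat.card_Icc]
  omega

private theorem C6b_mem {k b j : ℕ} (h : j ∈ Env.Jset k b) :
    (k + 1) / 2 ≤ j ∧ j ≤ k - b ∧ Even j := by
  simp only [Env.Jset, Finset.mem_filter, Finset.mem_Icc] at h
  exact ⟨h.1.1, h.1.2, h.2⟩

private theorem C6b_num (d k q : ℕ) (hq : k ≤ 32 * q) {c : ℕ} (hc : c ≤ k) :
    (2 : ℝ) ^ c * (((1 : ℝ) / 2) ^ (32 * (4 * d + 1))) ^ q ≤ dy k ^ (4 * d) := by
  have h1 : (((1 : ℝ) / 2) ^ (32 * (4 * d + 1))) ^ q ≤ (1 / 2 : ℝ) ^ (k * (4 * d) + k) := by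
    rw [← pow_mul]
    refine pow_le_pow_of_le_one (by norm_num) (by norm_num) ?_
    nlinarith
  have h2 : (2 : ℝ) ^ c ≤ 2 ^ k := pow_le_pow_right₀ (by norm_num) hc
  calc (2 : ℝ) ^ c * (((1 : ℝ) / 2) ^ (32 * (4 * d + 1))) ^ q
      ≤ 2 ^ k * (1 / 2 : ℝ) ^ (k * (4 * d) + k) :=
        mul_le_mul h2 h1 (by positivity) (by positivity)
    _ = (1 / 2 : ℝ) ^ (k * (4 * d)) * ((2 : ℝ) * (1 / 2)) ^ k := by
        rw [pow_add, mul_pow]; ring
    _ = dy k ^ (4 * d) := by
        unfold dy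
        rw [← pow_mul]
        norm_num

namespace Env
variable {d : ℕ} [NeZero d] (E : Env d)

private theorem C6b_be_pos : 0 < E.be := by
  unfold Env.be
  have h1 := E.hξ
  have h2 := E.hd
  have h3 : (0 : ℝ) < 2 * d := by positivity
  exact div_pos (Real.sqrt_pos.2 h3) h1

private theorem C6b_R0 : (2 : ℝ) ≤ E.R0 := by
  unfold Env.R0
  push_cast
  have : (0 : ℝ) ≤ (⌈2 * E.r0⌉₊ : ℝ) := Nat.cast_nonneg _
  linarith

private theorem C6b_shell (x : Rd d) (j : ℕ) :
    Shell E.R0 x j ⊆ Ann x ((E.R0 : ℝ) * dy (j + 1)) (((E.R0 : ℝ) + 1) * dy j) := by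
  have hR := E.C6b_R0
  have hd := C6b_dy_pos j
  intro y hy
  obtain ⟨h1, h2⟩ := hy
  refine ⟨fun i => ?_, fun h3 => h2 fun i => ?_⟩
  · have := h1 i
    nlinarith
  · have := h3 i
    rw [C6b_dy_succ] at this
    nlinarith

private theorem C6b_ann (x : Rd d) (j : ℕ) :
    Ann x ((E.R0 : ℝ) * dy (j + 1)) ((E.R0 : ℝ) * dy j) ⊆
      Ann x ((E.R0 : ℝ) * dy (j + 1)) (((E.R0 : ℝ) + 1) * dy j) := by
  have hd := C6b_dy_pos j
  intro y hy
  obtain ⟨h1, h2⟩ := hy
  refine ⟨fun i => ?_, h2⟩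
  have := h1 i
  nlinarith

/-- products of probabilities of annulus events at even scales -/
private theorem C6b_indep (n k b : ℕ) (x : Rd d) (B : ℕ → Set E.Ω) {p : ℝ}
    (hB : ∀ j ∈ Jset k b, MeasurableSet[E.FF j n
      (Ann x ((E.R0 : ℝ) * dy (j + 1)) (((E.R0 : ℝ) + 1) * dy j))] (B j))
    (hP : ∀ j ∈ Jset k b, E.P.real (B j) ≤ p) (T : Finset ℕ) (hT : T ⊆ Jset k b) :
    E.P.real (⋂ i ∈ T, B i) ≤ p ^ T.card := by
  classical
  have hind := E.iIndep_typ n x
  let T' : Finset {j : ℕ // Even j} := T.subtype fun j => Even j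
  have hcard : T'.card = T.card := by
    rw [Finset.card_subtype, Finset.filter_true_of_mem]
    intro j hj
    exact (C6b_mem (hT hj)).2.2
  have hI : (⋂ i ∈ T, B i) = ⋂ i ∈ T', B i.1 := by
    ext ω
    simp only [Set.mem_iInter, T', Finset.mem_subtype]
    constructor
    · intro h i hi
      exact h _ hi
    · intro h i hi
      exact h ⟨i, (C6b_mem (hT hi)).2.2⟩ hi
  have h1 : E.P (⋂ i ∈ T', B i.1) = ∏ i ∈ T', E.P (B i.1) := by
    refine hind.meas_biInter fun i hi => ?_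
    exact hB i.1 (hT (Finset.mem_subtype.1 hi))
  rw [hI, measureReal_def, h1, ENNReal.toReal_prod, ← hcard]
  calc ∏ i ∈ T', (E.P (B i.1)).toReal ≤ ∏ _i ∈ T', p := by
        refine Finset.prod_le_prod (fun i _ => ENNReal.toReal_nonneg) fun i hi => ?_
        exact hP i.1 (hT (Finset.mem_subtype.1 hi))
    _ = p ^ T'.card := by rw [Finset.prod_const]

end Env

namespace Par
variable {d : ℕ} [NeZero d] {E : Env d} (A : Par E)

/-- **(7.1)** There are `b, k0, CT` such that if `μ_m ≤ R a_m` for all `m < n` then `P[FewTyp n k b x (CT R)] ≤ 2 · 2^{-3dk}` for `k0 ≤ k ≤ n` and all `x`.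
Proof: choose `K, k0` by `osc_count` (`R = R0+1`): at most `k/32` scales `j ≤ k` violate (t1) with `K` except with probability `≤ 2^{-4dk}`. Let `p3` be so small that `2^k p3^{k/32} ≤ 2^{-4dk}`, i.e. `p3 = 2^{-32(4d+1)}`.
(t2) `sig(h_{j,n},x,j) ≤ K3 2^{-j} μ_{n-j}` fails with probability `≤ p3/2` (`sphere_tail` with `i = j`, `K3` large). (t3) `Cr(h_{j,n}; x, R0 2^{-j-1}, R0 2^{-j}) ≥ c3 2^{-j} a_{n-j-b}` fails with probability `≤ p3/2`
(`cross_low`, `r = R0/2`, `r' = R0`, `J = b`; needs `j ≤ n-b`). For even `j` the events (t2)&(t3) are independent (`iIndep_typ`; `sig` and `Cr` are measurable with respect to the annulus: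
`measurable_of_mlip`, `sig_mlip`, `MLip_Cr`), so by `indep_count` at least `k/32` failures among the even `j ∈ Jset k b` have probability `≤ 2^k p3^{k/32}`. There are at least `k/4 - b/2 - 1` scales in `Jset k b`, so
for `k ≥ k0` at least `k/8` are fine. For these `typ_of` applies: `e^{2K} K3 2^{-j} μ_{n-j} ≤ e^{2K} K3 C_b R 2^{-j} a_{n-j-b}` (`mu_add_le`), `CT = e^{2K} K3 C_b/c3`. -/
theorem few_typ : ∃ (b k0 : ℕ) (CT : ℝ), 1 ≤ CT ∧ ∀ (n : ℕ) (R : ℝ), 1 ≤ R → (∀ m < n, A.mu m ≤ R * E.aq m) →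
    ∀ k, k0 ≤ k → k ≤ n → ∀ x : Rd d, E.P.real (E.FewTyp n k b x (CT * R)) ≤ 2 * dy k ^ (3 * d) := by
  classical
  have hR0 := E.C6b_R0
  have hbe := E.C6b_be_pos
  obtain ⟨K, k1, hK0, hK⟩ := E.osc_count (R := (E.R0 : ℝ) + 1) (by linarith)
  set p3 : ℝ := ((1 : ℝ) / 2) ^ (32 * (4 * d + 1)) with hp3
  have hp3pos : 0 < p3 := by positivity
  have hp31 : p3 ≤ 1 := pow_le_one₀ (by norm_num) (by norm_num)
  obtain ⟨b, c3, hc3, hcl⟩ := E.cross_low (ε := p3 / 2) (r := (E.R0 : ℝ) / 2) (r' := E.R0)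
    (by positivity) (by linarith) (by linarith)
  obtain ⟨CS, hCS, hst⟩ := A.sphere_tail
  obtain ⟨K3, hK3pos, hK3⟩ : ∃ K3 : ℝ, 0 < K3 ∧ CS * K3 ^ (-E.be) ≤ p3 / 2 := by
    have h1 : Tendsto (fun x : ℝ => CS * x ^ (-E.be)) atTop (𝓝 (CS * 0)) :=
      (tendsto_rpow_neg_atTop hbe).const_mul CS
    rw [mul_zero] at h1
    have h2 := h1.eventually (gt_mem_nhds (show (0 : ℝ) < p3 / 2 by positivity))
    obtain ⟨K3, h3, h4⟩ := (h2.and (eventually_gt_atTop 0)).exists
    exact ⟨K3, h4, h3.le⟩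
  obtain ⟨Cb, hCb, hmu⟩ := A.mu_add_le b
  refine ⟨b, max k1 (8 * b + 16), max 1 (Real.exp (2 * K) * K3 * Cb / c3), le_max_left _ _, ?_⟩
  intro n R hR hmua k hk hkn x
  have hk1 : k1 ≤ k := (le_max_left _ _).trans hk
  have hk2 : 8 * b + 16 ≤ k := (le_max_right _ _).trans hk
  set CT : ℝ := max 1 (Real.exp (2 * K) * K3 * Cb / c3) with hCT
  -- the events
  let B2 : ℕ → Set E.Ω := fun j =>
    {ω | ENNReal.ofReal (K3 * (dy j * A.mu (n - j))) < sig E.R0 (E.hf j n ω) x j}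
  let B3 : ℕ → Set E.Ω := fun j =>
    {ω | Cr (E.hf j n ω) x ((E.R0 : ℝ) * dy (j + 1)) ((E.R0 : ℝ) * dy j) <
      ENNReal.ofReal (c3 * (dy j * E.aq (n - j - b)))}
  let B : ℕ → Set E.Ω := fun j => B2 j ∪ B3 j
  have hBm : ∀ j ∈ Env.Jset k b, MeasurableSet[E.FF j n
      (Ann x ((E.R0 : ℝ) * dy (j + 1)) (((E.R0 : ℝ) + 1) * dy j))] (B j) := by
    intro j _
    refine MeasurableSet.union ?_ ?_
    · have h1 := E.measurable_of_mlip j n (isCompact_Ann x ((E.R0 : ℝ) * dy (j + 1))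
        (((E.R0 : ℝ) + 1) * dy j)) Subset.rfl (sig_mlip E.R0 x j (E.C6b_shell x j))
      exact h1 measurableSet_Ioi
    · have h1 := E.measurable_Cr j n x ((E.R0 : ℝ) * dy (j + 1)) ((E.R0 : ℝ) * dy j)
        (E.C6b_ann x j)
      exact h1 measurableSet_Iio
  have hBP : ∀ j ∈ Env.Jset k b, E.P.real (B j) ≤ p3 := by
    intro j hj
    obtain ⟨hj1, hj2, -⟩ := C6b_mem hj
    have hjn : j ≤ n := by omega
    have h2 : E.P.real (B2 j) ≤ p3 / 2 := by
      have h := hst j j n le_rfl hjn x K3 hK3pos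
      simp only [Nat.sub_self, Nat.cast_zero, mul_zero, neg_zero, Real.rpow_zero, mul_one,
        Real.exp_zero] at h
      exact h.trans hK3
    have h3 : E.P.real (B3 j) ≤ p3 / 2 := by
      have h := hcl j (n - j) (by omega) x
      have e1 : j + (n - j) = n := by omega
      have e2 : dy j * ((E.R0 : ℝ) / 2) = (E.R0 : ℝ) * dy (j + 1) := by
        rw [C6b_dy_succ]; ring
      rw [e1, e2, mul_comm (dy j) (E.R0 : ℝ)] at h
      exact h
    calc E.P.real (B j) ≤ E.P.real (B2 j) + E.P.real (B3 j) := measureReal_union_le _ _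
      _ ≤ p3 := by linarith
  have hind := indep_count E.P (Env.Jset k b) B hp3pos.le hp31
    (E.C6b_indep n k b x B hBm hBP) ((k + 31) / 32)
  have hbad2 : E.P.real {ω | ∃ T ⊆ Env.Jset k b, (k + 31) / 32 ≤ T.card ∧ ∀ i ∈ T, ω ∈ B i} ≤
      dy k ^ (4 * d) :=
    hind.trans (C6b_num d k ((k + 31) / 32) (by omega) (C6b_card_le k b (by omega)))
  have hbad1 := hK k hk1 x
  -- inclusion
  have hincl : E.FewTyp n k b x (CT * R) ⊆
      {ω | ∃ S : Finset ℕ, (∀ j ∈ S, j ≤ k ∧ ∃ y ∈ CBox x (((E.R0 : ℝ) + 1) * dy j),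
        ∃ z ∈ CBox x (((E.R0 : ℝ) + 1) * dy j), K < |E.hf 0 j ω y - E.hf 0 j ω z|) ∧
        k ≤ 32 * S.card} ∪
      {ω | ∃ T ⊆ Env.Jset k b, (k + 31) / 32 ≤ T.card ∧ ∀ i ∈ T, ω ∈ B i} := by
    intro ω hω
    by_contra hcon
    rw [Set.mem_union, not_or] at hcon
    obtain ⟨hn1, hn2⟩ := hcon
    simp only [Set.mem_ofPred_eq, not_exists, not_and] at hn1 hn2
    let F1 : Finset ℕ := (Env.Jset k b).filter fun j => ∃ y ∈ CBox x (((E.R0 : ℝ) + 1) * dy j),
        ∃ z ∈ CBox x (((E.R0 : ℝ) + 1) * dy j), K < |E.hf 0 j ω y - E.hf 0 j ω z|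
    let F2 : Finset ℕ := (Env.Jset k b).filter fun j => ω ∈ B j
    have hF1 : 32 * F1.card < k := by
      rw [← not_le]
      refine hn1 F1 fun j hj => ?_
      have hj' := Finset.mem_filter.1 hj
      obtain ⟨hj1, hj2, -⟩ := C6b_mem hj'.1
      exact ⟨by omega, hj'.2⟩
    have hF2 : 32 * F2.card < k := by
      by_contra hge
      rw [not_lt] at hge
      exact hn2 F2 (Finset.filter_subset _ _) (by omega) fun i hi => (Finset.mem_filter.1 hi).2
    have hω' : 8 * (((Env.Jset k b).filter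
        (fun j => Typ E.R0 (E.hf 0 n ω) x (CT * R) j)).card) < k := by
      have h := hω
      unfold Env.FewTyp at h
      simp only [Set.mem_ofPred_eq] at h
      convert h
    have hsub : (Env.Jset k b) \ (F1 ∪ F2) ⊆
        (Env.Jset k b).filter (fun j => Typ E.R0 (E.hf 0 n ω) x (CT * R) j) := by
      intro j hj
      rw [Finset.mem_sdiff, Finset.mem_union, not_or] at hj
      obtain ⟨hjJ, hjF1, hjF2⟩ := hj
      obtain ⟨hj1, hj2, -⟩ := C6b_mem hjJ
      rw [Finset.mem_filter]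
      refine ⟨hjJ, ?_⟩
      have hosc : ∀ y ∈ CBox x (((E.R0 : ℝ) + 1) * dy j),
          ∀ z ∈ CBox x (((E.R0 : ℝ) + 1) * dy j), |E.hf 0 j ω y - E.hf 0 j ω z| ≤ K := by
        intro y hy z hz
        by_contra hlt
        rw [not_le] at hlt
        exact hjF1 (Finset.mem_filter.2 ⟨hjJ, y, hy, z, hz, hlt⟩)
      have hnB : ω ∉ B j := fun h => hjF2 (Finset.mem_filter.2 ⟨hjJ, h⟩)
      have hsig : sig E.R0 (E.hf j n ω) x j ≤ ENNReal.ofReal (K3 * (dy j * A.mu (n - j))) := by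
        by_contra hlt
        rw [not_le] at hlt
        exact hnB (Or.inl hlt)
      have hcr : ENNReal.ofReal (c3 * (dy j * E.aq (n - j - b))) ≤
          Cr (E.hf j n ω) x ((E.R0 : ℝ) * dy (j + 1)) ((E.R0 : ℝ) * dy j) := by
        by_contra hlt
        rw [not_le] at hlt
        exact hnB (Or.inr hlt)
      have hdj := C6b_dy_pos j
      have haq := E.aq_pos (n - j - b)
      have hmp := A.mu_pos (n - j)
      have hCT0 : 0 < CT := lt_of_lt_of_le one_pos (le_max_left _ _)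
      refine Par.typ_of (by omega) ω x (K := K) (by positivity) (by positivity) (by positivity)
        hosc hsig hcr ?_
      have h1 : A.mu (n - j) ≤ Cb * (R * E.aq (n - j - b)) := by
        have e : n - j = (n - j - b) + b := by omega
        have h2 := hmu (n - j - b)
        rw [← e] at h2
        refine h2.trans (mul_le_mul_of_nonneg_left (hmua _ ?_) hCb.le)
        omega
      have h2 : Real.exp (2 * K) * K3 * Cb ≤ CT * c3 := by
        rw [← div_le_iff₀ hc3]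
        exact le_max_right _ _
      calc Real.exp (2 * K) * (K3 * (dy j * A.mu (n - j)))
          ≤ Real.exp (2 * K) * (K3 * (dy j * (Cb * (R * E.aq (n - j - b))))) := by
            gcongr
        _ = (Real.exp (2 * K) * K3 * Cb) * (dy j * R * E.aq (n - j - b)) := by ring
        _ ≤ (CT * c3) * (dy j * R * E.aq (n - j - b)) := by
            refine mul_le_mul_of_nonneg_right h2 ?_
            positivity
        _ = CT * R * (c3 * (dy j * E.aq (n - j - b))) := by ring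
    have hc1 := Finset.card_le_card hsub
    have hc2 := Finset.le_card_sdiff (F1 ∪ F2) (Env.Jset k b)
    have hc3' := Finset.card_union_le F1 F2
    have hc4 := C6b_card k b hk2
    omega
  have h4d : dy k ^ (4 * d) ≤ dy k ^ (3 * d) := by
    refine pow_le_pow_of_le_one (C6b_dy_pos k).le ?_ (by omega)
    unfold dy
    exact pow_le_one₀ (by norm_num) (by norm_num)
  calc E.P.real (E.FewTyp n k b x (CT * R)) ≤ _ := measureReal_mono hincl
    _ ≤ _ := measureReal_union_le _ _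
    _ ≤ dy k ^ (4 * d) + dy k ^ (4 * d) := add_le_add hbad1 hbad2
    _ ≤ 2 * dy k ^ (3 * d) := by linarith

end Par

end MP_d19698_pr
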