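import Pool.Agent.Lib.MP_d19698_pr.C6b

/-!
# C7: good times (section 9)
-/

open MeasureTheory ProbabilityTheory Filter Topology Set
open scoped ENNReal NNReal

namespace MP_d19698_pr

private theorem C7a_norm {d : ℕ} [NeZero d] (i : Fin d) (hi : i ≠ 0) (a b : ℝ) :
    ‖a • (ee 0 : Rd d) + b • ee i‖ = Real.sqrt (a ^ 2 + b ^ 2) := by
  have h0 : inner ℝ (a • (ee 0 : Rd d)) (b • (ee i : Rd d)) = 0 := by
    rw [inner_smul_left, inner_smul_right]
    have : inner ℝ (ee 0 : Rd d) (ee i : Rd d) = 0 := by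
      unfold ee
      rw [EuclideanSpace.inner_single_left]
      simp [hi.symm]
    rw [this]
    simp
  have h1 := norm_add_sq_eq_norm_sq_add_norm_sq_real h0
  have h2 : ∀ (c : ℝ) (j : Fin d), ‖c • (ee j : Rd d)‖ = |c| := by
    intro c j
    rw [norm_smul]
    unfold ee
    simp
  rw [h2, h2] at h1
  rw [eq_comm, Real.sqrt_eq_iff_mul_self_eq (by positivity) (norm_nonneg _), h1, abs_mul_abs_self, abs_mul_abs_self]
  ring

private theorem C7a_norm0 {d : ℕ} [NeZero d] (c : ℝ) : ‖c • (ee 0 : Rd d)‖ = |c| := by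
  rw [norm_smul]
  unfold ee
  simp

private theorem C7a_isom {d : ℕ} (u v : Rd d) (h : ‖u‖ = ‖v‖) : ∃ O : Rd d ≃ₗᵢ[ℝ] Rd d, O u = v :=
  ⟨(Submodule.span ℝ {u - v})ᗮ.reflection, Submodule.reflection_sub h⟩

namespace Env

variable {d : ℕ} [NeZero d] (E : Env d)

/-- zigzag: points `y 0 = 0, ..., y M = e_1` with steps of length exactly `s`, `M = ⌊1/s⌋ + 1`, within `1/4` of the segment. (`⌊1/s⌋ - 1` steps along `e_1`, then an isosceles triangle
in the plane of `e_1, e_2`.) -/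
theorem exists_zigzag (hd : 2 ≤ d) {s : ℝ} (hs : 0 < s) (hs4 : s ≤ 1 / 4) : ∃ y : ℕ → Rd d, y 0 = 0 ∧ y (⌊1 / s⌋₊ + 1) = ee 0 ∧
    (∀ k < ⌊1 / s⌋₊ + 1, ‖y (k + 1) - y k‖ = s) ∧ ∀ k ≤ ⌊1 / s⌋₊ + 1, y k ∈ Box (0 : Rd d) (5 / 4) := by
  set N : ℕ := ⌊1 / s⌋₊ with hN
  have h1s : 0 < 1 / s := by positivity
  have hNle : (N : ℝ) ≤ 1 / s := Nat.floor_le h1s.le
  have hNlt : 1 / s < (N : ℝ) + 1 := Nat.lt_floor_add_one _
  have hNs : (N : ℝ) * s ≤ 1 := by
    rwa [le_div_iff₀ hs] at hNle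
  have hNs' : 1 < ((N : ℝ) + 1) * s := by
    rwa [div_lt_iff₀ hs] at hNlt
  have hN1 : 1 ≤ N := by
    rw [hN]
    apply Nat.le_floor
    rw [le_div_iff₀ hs]
    push_cast
    linarith
  obtain ⟨m, hm⟩ : ∃ m, N = m + 1 := ⟨N - 1, by omega⟩
  have hmc : (N : ℝ) = m + 1 := by rw [hm]; push_cast; ring
  rw [hmc] at hNs hNs'
  have hi : (⟨1, by omega⟩ : Fin d) ≠ 0 := by
    intro h
    have := congrArg Fin.val h
    simp at this
  set i1 : Fin d := ⟨1, by omega⟩ with hi1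
  set L : ℝ := 1 - m * s with hL
  have hLs : s ≤ L := by rw [hL]; linarith
  have hL2 : L < 2 * s := by rw [hL]; linarith
  set q : ℝ := Real.sqrt (s ^ 2 - (L / 2) ^ 2) with hq
  have hq2 : q ^ 2 = s ^ 2 - (L / 2) ^ 2 := by
    rw [hq]
    apply Real.sq_sqrt
    have : (L / 2) ^ 2 ≤ s ^ 2 := by
      apply pow_le_pow_left₀ (by linarith)
      linarith
    linarith
  have hsq : Real.sqrt (s ^ 2) = s := Real.sqrt_sq hs.le
  set y : ℕ → Rd d := fun k => if k ≤ m then ((k : ℝ) * s) • ee 0 else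
    if k = m + 1 then ((m : ℝ) * s + L / 2) • ee 0 + q • ee i1 else ee 0 with hy
  have y0 : ∀ k ≤ m, y k = ((k : ℝ) * s) • ee 0 := by
    intro k hk
    rw [hy]
    simp only [if_pos hk]
  have y1 : y (m + 1) = ((m : ℝ) * s + L / 2) • ee 0 + q • ee i1 := by
    rw [hy]
    have : ¬ (m + 1 ≤ m) := by omega
    simp only [if_neg this, if_true]
  have y2 : y (m + 2) = ee 0 := by
    rw [hy]
    have h1 : ¬ (m + 2 ≤ m) := by omega
    have h2 : ¬ (m + 2 = m + 1) := by omega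
    simp only [if_neg h1, if_neg h2]
  have hstep : ∀ k < N + 1, ‖y (k + 1) - y k‖ = s := by
    intro k hk
    rcases lt_trichotomy k m with h | h | h
    · rw [y0 k h.le, y0 (k + 1) (by omega)]
      have e : (((k + 1 : ℕ) : ℝ) * s) • (ee 0 : Rd d) - ((k : ℝ) * s) • ee 0 = s • ee 0 := by
        rw [← sub_smul]
        congr 1
        push_cast
        ring
      rw [e, C7a_norm0, abs_of_pos hs]
    · rw [h, y1, y0 m le_rfl]
      have e : ((m : ℝ) * s + L / 2) • (ee 0 : Rd d) + q • ee i1 - ((m : ℝ) * s) • ee 0 = (L / 2) • ee 0 + q • ee i1 := by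
        module
      rw [e, C7a_norm i1 hi, hq2]
      rw [← hsq]
      congr 1
      rw [hsq]
      ring
    · have hk' : k = m + 1 := by omega
      rw [hk', y1, show m + 1 + 1 = m + 2 by rfl, y2]
      have e : (ee 0 : Rd d) - (((m : ℝ) * s + L / 2) • ee 0 + q • ee i1) = (L / 2) • ee 0 + (-q) • ee i1 := by
        have e1 : (L / 2) = 1 - ((m : ℝ) * s + L / 2) := by rw [hL]; ring
        have e2 : (L / 2) • (ee 0 : Rd d) = ee 0 - ((m : ℝ) * s + L / 2) • ee 0 := by
          conv_lhs => rw [e1]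
          rw [sub_smul, one_smul]
        rw [e2]
        module
      rw [e, C7a_norm i1 hi, neg_sq, hq2]
      rw [← hsq]
      congr 1
      rw [hsq]
      ring
  have hnorm : ∀ k ≤ N, ‖y k‖ ≤ k * s := by
    intro k
    induction k with
    | zero =>
      intro _
      rw [y0 0 (Nat.zero_le _)]
      simp
    | succ k ih =>
      intro hk
      have h1 := ih (by omega)
      have h2 := hstep k (by omega)
      calc ‖y (k + 1)‖ = ‖(y (k + 1) - y k) + y k‖ := by rw [sub_add_cancel]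
        _ ≤ ‖y (k + 1) - y k‖ + ‖y k‖ := norm_add_le _ _
        _ ≤ s + k * s := by rw [h2]; linarith
        _ = ((k + 1 : ℕ) : ℝ) * s := by push_cast; ring
  refine ⟨y, ?_, ?_, hstep, ?_⟩
  · rw [y0 0 (Nat.zero_le _)]
    simp
  · rw [hm, show m + 1 + 1 = m + 2 by rfl, y2]
  · intro k hk i
    have hle : ‖y k‖ ≤ 1 := by
      rcases Nat.lt_or_ge k (N + 1) with h | h
      · have h1 := hnorm k (by omega)
        have h2 : (k : ℝ) ≤ m + 1 := by
          have : k ≤ m + 1 := by omega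
          exact_mod_cast this
        have h3 : (k : ℝ) * s ≤ (m + 1) * s := mul_le_mul_of_nonneg_right h2 hs.le
        linarith
      · have h1 : k = m + 2 := by omega
        rw [h1, y2]
        unfold ee
        simp
    have h1 : |y k i| ≤ ‖y k‖ := abs_le_norm _ _
    have h2 : (0 : Rd d) i = 0 := rfl
    rw [h2, sub_zero]
    linarith

/-- an isometry taking one vector to another of the same norm -/
theorem exists_isometry (u v : Rd d) (h : ‖u‖ = ‖v‖) : ∃ O : Rd d ≃ₗᵢ[ℝ] Rd d, O u = v := by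
  exact C7a_isom u v h

/-- **Zigzag.** If `D_n(xA,xB;Box xA ρ') ≤ t` has probability `≥ 1 - ε`, `0 < ‖xA - xB‖ ≤ 1/4`, `√d ρ' ≤ 1/4`, then `P[X_n > M t] ≤ M ε`, `M = ⌊1/‖xA-xB‖⌋ + 1`. -/
theorem zigzag {n : ℕ} {xA xB : Rd d} {ρ' t ε : ℝ} (h0 : 0 < ‖xA - xB‖) (h1 : ‖xA - xB‖ ≤ 1 / 4) (hρ : 0 < ρ') (hρ' : Real.sqrt d * ρ' ≤ 1 / 4) (ht : 0 ≤ t)
    (h : 1 - ε ≤ E.P.real {ω | D (E.hf 0 n ω) {xA} {xB} (Box xA ρ') ≤ ENNReal.ofReal t}) :
    E.Gt 2 n (((⌊1 / ‖xA - xB‖⌋₊ + 1 : ℕ) : ℝ) * t) ≤ ((⌊1 / ‖xA - xB‖⌋₊ + 1 : ℕ) : ℝ) * ε := by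
  obtain ⟨y, hy0, hyM, hstep, hyB⟩ := exists_zigzag (d := d) E.hd h0 h1
  set M : ℕ := ⌊1 / ‖xA - xB‖⌋₊ + 1 with hM
  have hO : ∀ k : ℕ, ∃ O : Rd d ≃ₗᵢ[ℝ] Rd d, k < M → O (xB - xA) = y (k + 1) - y k := by
    intro k
    by_cases hk : k < M
    · obtain ⟨O, hO⟩ := C7a_isom (xB - xA) (y (k + 1) - y k) (by rw [hstep k hk, norm_sub_rev])
      exact ⟨O, fun _ => hO⟩
    · exact ⟨LinearIsometryEquiv.refl ℝ _, fun h => absurd h hk⟩
  choose O hO using hO
  set T : ℕ → Rd d → Rd d := fun k z => (y k - O k xA) + O k z with hT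
  have hTA : ∀ k, T k xA = y k := by
    intro k
    simp only [hT]
    abel
  have hTB : ∀ k < M, T k xB = y (k + 1) := by
    intro k hk
    have h2 := hO k hk
    rw [map_sub] at h2
    have h3 : y (k + 1) = y k + (O k xB - O k xA) := by rw [h2]; abel
    simp only [hT]
    rw [h3]
    abel
  have hTU : ∀ k < M, T k '' Box xA ρ' ⊆ Box (0 : Rd d) 2 := by
    rintro k hk _ ⟨z, hz, rfl⟩ i
    have h2 : T k z = y k + O k (z - xA) := by
      simp only [hT]
      rw [map_sub]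
      abel
    have h3 : |(O k (z - xA)) i| ≤ 1 / 4 := by
      calc |(O k (z - xA)) i| ≤ ‖O k (z - xA)‖ := abs_le_norm _ _
        _ = ‖z - xA‖ := (O k).norm_map _
        _ ≤ Real.sqrt d * ρ' := norm_le_of_mem_CBox hρ.le (Box_subset_CBox _ _ hz)
        _ ≤ 1 / 4 := hρ'
    have h4 := hyB k (by omega) i
    have h5 : (0 : Rd d) i = 0 := rfl
    rw [h5, sub_zero] at h4 ⊢
    rw [h2]
    have h6 : (y k + O k (z - xA)) i = y k i + (O k (z - xA)) i := rfl
    rw [h6]
    have := abs_add_le (y k i) ((O k (z - xA)) i)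
    linarith
  have hbd : Bornology.IsBounded (Box xA ρ') :=
    (isCompact_CBox xA ρ').isBounded.subset (Box_subset_CBox _ _)
  have hbdT : ∀ k, Bornology.IsBounded (T k '' Box xA ρ') := by
    intro k
    have hl : LipschitzWith 1 (T k) := by
      apply LipschitzWith.of_dist_le_mul
      intro a b
      simp only [hT]
      rw [dist_add_left, (O k).dist_map]
      simp
    exact hl.isBounded_image hbd
  have hmeas : ∀ {A B U : Set (Rd d)}, Bornology.IsBounded U → Measurable (fun ω => D (E.hf 0 n ω) A B U) := by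
    intro A B U hU
    exact (E.measurable_D 0 n hU (subset_univ _)).mono (E.FF_le 0 n univ) le_rfl
  have hP : ∀ k < M, E.P.real {ω | ENNReal.ofReal t < D (E.hf 0 n ω) {y k} {y (k + 1)} (T k '' Box xA ρ')} ≤ ε := by
    intro k hk
    have h2 := E.map_D_isom n (y k - O k xA) (O k) (A := {xA}) (B := {xB}) hbd
    have h3 : (fun z => (y k - O k xA) + O k z) = T k := rfl
    rw [h3, image_singleton, image_singleton, hTA, hTB k hk] at h2
    have h4 : E.P.real {ω | D (E.hf 0 n ω) {y k} {y (k + 1)} (T k '' Box xA ρ') ≤ ENNReal.ofReal t} =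
        E.P.real {ω | D (E.hf 0 n ω) {xA} {xB} (Box xA ρ') ≤ ENNReal.ofReal t} := by
      have h5 := congrArg (fun μ => μ.real (Iic (ENNReal.ofReal t))) h2
      rw [map_measureReal_apply (hmeas (hbdT k)) measurableSet_Iic,
        map_measureReal_apply (hmeas hbd) measurableSet_Iic] at h5
      exact h5
    have h6 : {ω | ENNReal.ofReal t < D (E.hf 0 n ω) {y k} {y (k + 1)} (T k '' Box xA ρ')} =
        {ω | D (E.hf 0 n ω) {y k} {y (k + 1)} (T k '' Box xA ρ') ≤ ENNReal.ofReal t}ᶜ := by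
      ext ω
      simp only [mem_ofPred_eq, mem_compl_iff, not_le]
    have h7 : MeasurableSet {ω | D (E.hf 0 n ω) {y k} {y (k + 1)} (T k '' Box xA ρ') ≤ ENNReal.ofReal t} :=
      (hmeas (hbdT k)) measurableSet_Iic
    rw [h6, probReal_compl_eq_one_sub h7, h4]
    linarith
  have hsub : {ω | ENNReal.ofReal ((M : ℝ) * t) < E.Edg 0 n 0 ω 0 0 2} ⊆
      ⋃ k ∈ Finset.range M, {ω | ENNReal.ofReal t < D (E.hf 0 n ω) {y k} {y (k + 1)} (T k '' Box xA ρ')} := by
    intro ω hω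
    by_contra hcon
    simp only [mem_iUnion, Finset.mem_range, mem_ofPred_eq, not_exists, not_lt] at hcon
    have h2 : E.Edg 0 n 0 ω 0 0 2 ≤ ENNReal.ofReal ((M : ℝ) * t) := by
      unfold Edg
      have e1 : dy 0 = 1 := by unfold dy; simp
      rw [e1, one_smul, zero_add, mul_one]
      have h3 : (0 : Rd d) ∈ Box (0 : Rd d) 2 := by
        intro i
        simp
      have h4 := D_chain (E.hf 0 n ω) (Box (0 : Rd d) 2) y M (by rw [hy0]; exact h3)
      rw [hy0, hyM] at h4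
      refine h4.trans ?_
      calc ∑ i ∈ Finset.range M, D (E.hf 0 n ω) {y i} {y (i + 1)} (Box 0 2)
          ≤ ∑ _i ∈ Finset.range M, ENNReal.ofReal t := by
            refine Finset.sum_le_sum fun i hi => ?_
            rw [Finset.mem_range] at hi
            exact (D_mono _ subset_rfl subset_rfl (hTU i hi)).trans (hcon i hi)
        _ = ENNReal.ofReal ((M : ℝ) * t) := by
            rw [Finset.sum_const, Finset.card_range, nsmul_eq_mul, ENNReal.ofReal_mul (Nat.cast_nonneg _),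
              ENNReal.ofReal_natCast]
    exact absurd (lt_of_lt_of_le hω h2) (lt_irrefl _)
  unfold Gt
  calc E.P.real {ω | ENNReal.ofReal ((M : ℝ) * t) < E.Edg 0 n 0 ω 0 0 2}
      ≤ E.P.real (⋃ k ∈ Finset.range M, {ω | ENNReal.ofReal t < D (E.hf 0 n ω) {y k} {y (k + 1)} (T k '' Box xA ρ')}) :=
        measureReal_mono hsub (measure_ne_top _ _)
    _ ≤ ∑ k ∈ Finset.range M, E.P.real {ω | ENNReal.ofReal t < D (E.hf 0 n ω) {y k} {y (k + 1)} (T k '' Box xA ρ')} :=
        measureReal_biUnion_finset_le _ _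
    _ ≤ ∑ _k ∈ Finset.range M, ε := by
        refine Finset.sum_le_sum fun k hk => ?_
        rw [Finset.mem_range] at hk
        exact hP k hk
    _ = (M : ℝ) * ε := by rw [Finset.sum_const, Finset.card_range, nsmul_eq_mul]


end Env
end MP_d19698_pr
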