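import Pool.Agent.Lib.MP_d19698_pr.C7a

/-! # C7b -/

open MeasureTheory ProbabilityTheory Filter Topology Set
open scoped ENNReal NNReal

namespace MP_d19698_pr
namespace Env
variable {d : ℕ} [NeZero d] (E : Env d)

/-- scaling down: a lower bound for the crossing of a small annulus gives a lower bound for `a_{n-k}`. There is `c > 0` (depending on `k`) with: if
`P[Cr(ξh_{0,n}; 0, 2^{-k}/2, 3·2^{-k}/2) < t] ≤ p1/8` then `c t ≤ a_{n-k}` (`n ≥ k`, `t > 0`).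
(`Cr(ξh_{0,n}) ≤ e^{sup ξh_{0,k}} Cr(ξh_{k,n})`, independence, `P[sup ≤ M] ≥ 1/2`, `cell_law`.) -/
theorem aq_of_small (k : ℕ) : ∃ c : ℝ, 0 < c ∧ ∀ n : ℕ, k ≤ n → ∀ t : ℝ, 0 < t →
    E.P.real {ω | Cr (E.hf 0 n ω) 0 (1 / 2 * dy k) (3 / 2 * dy k) < ENNReal.ofReal t} ≤ E.p1 / 8 → c * t ≤ E.aq (n - k) := by
  obtain ⟨M, hM0, hM⟩ := E.abs_bound k 2 (ε := 1 / 2) (by norm_num)
  have hdy := dy_pos k
  refine ⟨Real.exp (-M) / dy k, by positivity, ?_⟩
  intro n hkn t ht hprob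
  obtain ⟨m, rfl⟩ := Nat.exists_eq_add_of_le hkn
  rw [Nat.add_sub_cancel_left]
  set K : Set (Rd d) := CBox (0 : Rd d) 2 with hK
  have hKc : IsCompact K := isCompact_CBox _ _
  have hKne : K.Nonempty := ⟨0, fun i => by simp⟩
  -- the coarse event
  set G : Set E.Ω := {ω | sSup ((fun x => E.hf 0 k ω x) '' K) ≤ M} with hG
  have hbdd : ∀ ω, BddAbove ((fun x => E.hf 0 k ω x) '' K) := fun ω =>
    (hKc.image (E.continuous_hf 0 k ω)).bddAbove
  have hGm : MeasurableSet[E.LL k] G := by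
    have h1 := E.measurable_sup 0 k hKc hKne (K' := K) (subset_refl _)
    have h2 : MeasurableSet[E.FF 0 k K] G := h1 (measurableSet_Iic (a := M))
    exact E.FF_le_LL 0 k K _ h2
  have hGhalf : 1 / 2 ≤ E.P.real G := by
    have hsub : Gᶜ ⊆ {ω | ∃ x ∈ CBox (0 : Rd d) 2, M < |E.hf 0 k ω x|} := by
      intro ω hω
      by_contra hc
      apply hω
      show sSup ((fun x => E.hf 0 k ω x) '' K) ≤ M
      refine csSup_le (hKne.image _) ?_
      rintro _ ⟨x, hx, rfl⟩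
      by_contra hlt
      exact hc ⟨x, hx, lt_of_lt_of_le (not_le.mp hlt) (le_abs_self _)⟩
    have h1 : E.P.real Gᶜ ≤ 1 / 2 := (measureReal_mono hsub).trans hM
    have h2 : E.P.real Gᶜ = 1 - E.P.real G := by
      rw [measureReal_compl (E.LL_le k _ hGm)]
      simp
    linarith
  -- the fine event
  set t' : ℝ := Real.exp (-M) / dy k * t with ht'
  have ht'0 : 0 < t' := by rw [ht']; positivity
  set F : Set E.Ω := {ω | Cr (E.hf k (k + m) ω) 0 (1 / 2 * dy k) (3 / 2 * dy k) < ENNReal.ofReal (dy k * t')} with hF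
  have hFm : MeasurableSet[E.FF k (k + m) (CBox (0 : Rd d) (3 / 2 * dy k))] F := by
    have h1 := E.measurable_Cr k (k + m) (0 : Rd d) (1 / 2 * dy k) (3 / 2 * dy k)
      (K := CBox (0 : Rd d) (3 / 2 * dy k)) (fun y hy => hy.1)
    exact h1 (measurableSet_Iio (a := ENNReal.ofReal (dy k * t')))
  have hind := E.indep_LL_FF k (k + m) (CBox (0 : Rd d) (3 / 2 * dy k))
  have hprodE : E.P (G ∩ F) = E.P G * E.P F := (Indep_iff _ _ _).mp hind G F hGm hFm
  have hprod : E.P.real (G ∩ F) = E.P.real G * E.P.real F := by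
    unfold Measure.real
    rw [hprodE, ENNReal.toReal_mul]
  have hincl : G ∩ F ⊆ {ω | Cr (E.hf 0 (k + m) ω) 0 (1 / 2 * dy k) (3 / 2 * dy k) < ENNReal.ofReal t} := by
    rintro ω ⟨hg, hf⟩
    have h1 : Cr (E.hf 0 (k + m) ω) 0 (1 / 2 * dy k) (3 / 2 * dy k) ≤
        ENNReal.ofReal (Real.exp M) * Cr (E.hf k (k + m) ω) 0 (1 / 2 * dy k) (3 / 2 * dy k) := by
      refine D_le_exp _ _ ?_
      intro y hy
      have hyK : y ∈ K := by
        intro i
        have h2 := hy.1 i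
        have h3 := dy_le_one k
        linarith
      have h4 : E.hf 0 k ω y ≤ M := (le_csSup (hbdd ω) ⟨y, hyK, rfl⟩).trans hg
      rw [E.hf_add (Nat.zero_le k) (Nat.le_add_right k m)]
      linarith
    refine lt_of_le_of_lt h1 ?_
    have h5 : ENNReal.ofReal (Real.exp M) * ENNReal.ofReal (dy k * t') = ENNReal.ofReal t := by
      rw [← ENNReal.ofReal_mul (Real.exp_pos _).le]
      congr 1
      rw [ht']
      have : dy k ≠ 0 := hdy.ne'
      field_simp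
      rw [← Real.exp_add]
      simp
    rw [← h5]
    refine (ENNReal.mul_lt_mul_iff_right ?_ ENNReal.ofReal_ne_top).mpr hf
    simp [Real.exp_pos]
  have hF4 : E.P.real F ≤ E.p1 / 4 := by
    have h1 : E.P.real (G ∩ F) ≤ E.p1 / 8 := (measureReal_mono hincl).trans hprob
    rw [hprod] at h1
    have h2 : 0 ≤ E.P.real F := measureReal_nonneg
    nlinarith
  have hlaw := E.cell_law k m (0 : Rd d) t'
  have hfin : E.P.real {ω | E.Zm m ω < ENNReal.ofReal t'} ≤ E.qq m := by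
    rw [← hlaw]
    have h1 := (E.qq_bounds m).1
    have h2 := E.p1_pos
    have h3 : E.P.real F ≤ E.qq m := by linarith
    exact h3
  exact E.le_aq ht'0.le hfin

omit [NeZero d] in
private theorem C7b_cover {r r1 : ℝ} (hr1 : 0 < r1) : ∃ S : Finset (Rd d),
    (∀ x ∈ S, x ∈ SBox (0 : Rd d) r) ∧ SBox (0 : Rd d) r ⊆ ⋃ x : S, CBox (x : Rd d) r1 := by
  have hcomp : IsCompact (SBox (0 : Rd d) r) := by
    have := isCompact_Ann (0 : Rd d) r r
    exact this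
  obtain ⟨S, hS, hcov⟩ := hcomp.elim_nhds_subcover (fun x => Box x r1) (fun x _ =>
    (isOpen_Box x r1).mem_nhds (fun i => by simpa using hr1))
  refine ⟨S, hS, ?_⟩
  intro y hy
  obtain ⟨x, hx⟩ := mem_iUnion.mp (hcov hy)
  obtain ⟨hxS, hyx⟩ := mem_iUnion.mp hx
  exact mem_iUnion.mpr ⟨⟨x, hxS⟩, Box_subset_CBox _ _ hyx⟩

/-- Covering: if `Cr f 0 (ρ/2) (3ρ/2) < t` then some pair of boxes of radius `r1` with centres in the grid `r1 ℤ^d` has `D f (CBox xA r1) (CBox xB r1) (Box 0 (2ρ)) < t`;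
the centres can be taken from fixed finite sets `SA, SB` with `ρ/2 - r1 ≤ |xA|_∞ ≤ ρ/2 + r1`, `3ρ/2 - r1 ≤ |xB|_∞ ≤ 3ρ/2 + r1`. -/
theorem exists_cover {ρ r1 : ℝ} (hr1 : 0 < r1) (hr : r1 < ρ / 8) : ∃ SA SB : Finset (Rd d),
    (∀ x ∈ SA, x ∈ CBox (0 : Rd d) (ρ / 2 + r1) ∧ x ∉ Box (0 : Rd d) (ρ / 2 - r1)) ∧
    (∀ x ∈ SB, x ∈ CBox (0 : Rd d) (3 * ρ / 2 + r1) ∧ x ∉ Box (0 : Rd d) (3 * ρ / 2 - r1)) ∧
    ∀ (f : Rd d → ℝ) (t : ℝ≥0∞), Cr f 0 (1 / 2 * ρ) (3 / 2 * ρ) < t →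
      ∃ xA ∈ SA, ∃ xB ∈ SB, D f (CBox xA r1) (CBox xB r1) (Box 0 (2 * ρ)) < t := by
  have hρ : 0 < ρ := by linarith
  obtain ⟨SA, hSA, hcA⟩ := C7b_cover (d := d) (r := 1 / 2 * ρ) hr1
  obtain ⟨SB, hSB, hcB⟩ := C7b_cover (d := d) (r := 3 / 2 * ρ) hr1
  refine ⟨SA, SB, ?_, ?_, ?_⟩
  · intro x hx
    obtain ⟨h1, h2⟩ := hSA x hx
    refine ⟨fun i => by have := h1 i; linarith, fun h3 => h2 fun i => by have := h3 i; linarith⟩
  · intro x hx
    obtain ⟨h1, h2⟩ := hSB x hx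
    refine ⟨fun i => by have := h1 i; linarith, fun h3 => h2 fun i => by have := h3 i; linarith⟩
  · intro f t ht
    obtain ⟨a, b, hab⟩ := D_iUnion_lt (fun x : SA => CBox (x : Rd d) r1) (fun x : SB => CBox (x : Rd d) r1) hcA hcB ht
    refine ⟨a, a.2, b, b.2, lt_of_le_of_lt (D_mono f (subset_refl _) (subset_refl _) ?_) hab⟩
    intro y hy i
    have h1 := hy.1 i
    linarith

end Env


end MP_d19698_pr
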