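import Pool.Agent.Lib.MP_d19698_pr.C7b

/-! # C7c -/

open MeasureTheory ProbabilityTheory Filter Topology Set
open scoped ENNReal NNReal

namespace MP_d19698_pr

private theorem C7c_coord {d : ℕ} [NeZero d] (x : Rd d) (c : ℝ) (i : Fin d) :
    (x + c • (ee 0 : Rd d)) i - x i = if i = 0 then c else 0 := by
  unfold ee
  rw [PiLp.add_apply, PiLp.smul_apply, PiLp.single_apply]
  split_ifs <;> simp

private theorem C7c_dy_pos (j : ℕ) : 0 < dy j := by unfold dy; positivity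

/-- the chain of edges along a ray -/
private theorem C7c_ray {d : ℕ} [NeZero d] {R : ℕ} (hR : 1 ≤ R) (f : Rd d → ℝ) (x : Rd d) (j : ℕ)
    (V : Set (Rd d)) (s : ℝ) (hs : 0 ≤ s) (hV : CBox x (((R : ℝ) + 2) * dy j) ⊆ V)
    (he : ∀ k < R, D f {x + ((k : ℝ) * dy j) • ee 0} {x + ((k : ℝ) * dy j) • ee 0 + dy j • ee 0}
      (Box (x + ((k : ℝ) * dy j) • ee 0) (2 * dy j)) ≤ ENNReal.ofReal (s / R)) :
    D f {x} {x + ((R : ℝ) * dy j) • ee 0} V ≤ ENNReal.ofReal s := by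
  have hj := C7c_dy_pos j
  have hR' : (1 : ℝ) ≤ R := by exact_mod_cast hR
  have hp0 : x + (((0 : ℕ) : ℝ) * dy j) • (ee 0 : Rd d) = x := by simp
  have h1 := D_chain f V (fun k : ℕ => x + ((k : ℝ) * dy j) • ee 0) R (by
    show x + (((0 : ℕ) : ℝ) * dy j) • (ee 0 : Rd d) ∈ V
    rw [hp0]
    apply hV
    intro i
    rw [sub_self, abs_zero]
    positivity)
  have h1' : D f {x + (((0 : ℕ) : ℝ) * dy j) • (ee 0 : Rd d)} {x + ((R : ℝ) * dy j) • ee 0} V ≤
      ∑ k ∈ Finset.range R, D f {x + ((k : ℝ) * dy j) • ee 0}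
        {x + (((k + 1 : ℕ) : ℝ) * dy j) • ee 0} V := h1
  rw [hp0] at h1'
  refine h1'.trans ?_
  have h2 : ∀ k ∈ Finset.range R, D f {x + ((k : ℝ) * dy j) • ee 0}
      {x + (((k + 1 : ℕ) : ℝ) * dy j) • ee 0} V ≤ ENNReal.ofReal (s / R) := by
    intro k hk
    rw [Finset.mem_range] at hk
    have e1 : x + (((k + 1 : ℕ) : ℝ) * dy j) • (ee 0 : Rd d) =
        x + ((k : ℝ) * dy j) • ee 0 + dy j • ee 0 := by
      rw [add_assoc, ← add_smul]
      congr 2
      push_cast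
      ring
    rw [e1]
    refine le_trans (D_mono f subset_rfl subset_rfl ?_) (he k hk)
    refine subset_trans ?_ hV
    intro y hy i
    have h3 := hy i
    have h4 := C7c_coord x ((k : ℝ) * dy j) i
    have hk' : (k : ℝ) ≤ R := by exact_mod_cast hk.le
    have hk0 : (0 : ℝ) ≤ k := Nat.cast_nonneg k
    have h5 : |(x + ((k : ℝ) * dy j) • (ee 0 : Rd d)) i - x i| ≤ R * dy j := by
      rw [h4]
      split_ifs
      · rw [abs_of_nonneg (by positivity)]
        exact mul_le_mul_of_nonneg_right hk' hj.le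
      · rw [abs_zero]
        positivity
    have h6 : y i - x i = (y i - (x + ((k : ℝ) * dy j) • (ee 0 : Rd d)) i) +
        ((x + ((k : ℝ) * dy j) • (ee 0 : Rd d)) i - x i) := by ring
    rw [h6]
    refine (abs_add_le _ _).trans ?_
    linarith
  refine (Finset.sum_le_sum h2).trans ?_
  rw [Finset.sum_const, Finset.card_range, nsmul_eq_mul, ← ENNReal.ofReal_natCast,
    ← ENNReal.ofReal_mul (by positivity)]
  apply ENNReal.ofReal_le_ofReal
  have hne : (R : ℝ) ≠ 0 := by positivity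
  rw [mul_div_cancel₀ _ hne]

private theorem C7c_sphere {d : ℕ} [NeZero d] {R : ℕ} (hR : 1 ≤ R) (x : Rd d) (j : ℕ) :
    x + ((R : ℝ) * dy j) • (ee 0 : Rd d) ∈ SBox x ((R : ℝ) * dy j) := by
  have hj := C7c_dy_pos j
  have hR' : (1 : ℝ) ≤ R := by exact_mod_cast hR
  constructor
  · intro i
    rw [C7c_coord]
    split_ifs
    · rw [abs_of_nonneg (by positivity)]
    · rw [abs_zero]
      positivity
  · intro h
    have := h 0
    rw [C7c_coord, if_pos rfl, abs_of_nonneg (by positivity)] at this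
    exact lt_irrefl _ this

private theorem C7c_shell {d : ℕ} {R : ℕ} (x : Rd d) (j : ℕ) :
    Shell R x j ⊆ CBox x (((R : ℝ) + 2) * dy j) := by
  have hj := C7c_dy_pos j
  intro y hy i
  have := hy.1 i
  have h2 : ((R : ℝ) + 1 / 4) * dy j ≤ ((R : ℝ) + 2) * dy j :=
    mul_le_mul_of_nonneg_right (by linarith) hj.le
  linarith

/-- deterministic part -/
private theorem C7c_det {d : ℕ} [NeZero d] {R : ℕ} (hR : 2 ≤ R) (f : Rd d → ℝ) (xA xB : Rd d) (j : ℕ)
    (U V : Set (Rd d)) (s t : ℝ) (hs : 0 ≤ s) (ht : 0 < t)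
    (hdis : Disjoint (CBox xA ((R : ℝ) * dy j)) (CBox xB ((R : ℝ) * dy j))) (hUV : U ⊆ V)
    (hA : CBox xA (((R : ℝ) + 2) * dy j) ⊆ U) (hB : CBox xB (((R : ℝ) + 2) * dy j) ⊆ U)
    (h0 : D f (CBox xA (3 * (dy j / 2))) (CBox xB (3 * (dy j / 2))) U ≤ ENNReal.ofReal t)
    (sA : sig R f xA j ≤ ENNReal.ofReal s) (sB : sig R f xB j ≤ ENNReal.ofReal s)
    (eA : ∀ k < R, D f {xA + ((k : ℝ) * dy j) • ee 0} {xA + ((k : ℝ) * dy j) • ee 0 + dy j • ee 0}
      (Box (xA + ((k : ℝ) * dy j) • ee 0) (2 * dy j)) ≤ ENNReal.ofReal (s / R))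
    (eB : ∀ k < R, D f {xB + ((k : ℝ) * dy j) • ee 0} {xB + ((k : ℝ) * dy j) • ee 0 + dy j • ee 0}
      (Box (xB + ((k : ℝ) * dy j) • ee 0) (2 * dy j)) ≤ ENNReal.ofReal (s / R)) :
    D f {xA} {xB} V ≤ ENNReal.ofReal (2 * t + 4 * s) := by
  have hj := C7c_dy_pos j
  have hR1 : 1 ≤ R := by omega
  have hR' : (2 : ℝ) ≤ R := by exact_mod_cast hR
  have hlt : D f (CBox xA (3 * (dy j / 2))) (CBox xB (3 * (dy j / 2))) U < ENNReal.ofReal (2 * t) :=
    lt_of_le_of_lt h0 ((ENNReal.ofReal_lt_ofReal_iff (by positivity)).2 (by linarith))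
  have hsub : ∀ x : Rd d, CBox x (3 * (dy j / 2)) ⊆ Box x ((R : ℝ) * dy j) := by
    intro x y hy i
    have := hy i
    have h3 : 2 * dy j ≤ (R : ℝ) * dy j := mul_le_mul_of_nonneg_right hR' hj.le
    linarith
  obtain ⟨p, hp, q, hq, -, -, hpq⟩ := exists_sphere_points f (hsub xA) (hsub xB) hdis hlt
  have hAV := hA.trans hUV
  have hBV := hB.trans hUV
  -- spheres
  have k1 : D f {xA + ((R : ℝ) * dy j) • ee 0} {p} V ≤ ENNReal.ofReal s := by
    refine le_trans (D_mono f subset_rfl subset_rfl ((C7c_shell xA j).trans hAV)) (le_trans ?_ sA)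
    exact le_iSup₂_of_le (xA + ((R : ℝ) * dy j) • ee 0) (C7c_sphere hR1 xA j)
      (le_iSup₂_of_le p hp le_rfl)
  have k2 : D f {q} {xB + ((R : ℝ) * dy j) • ee 0} V ≤ ENNReal.ofReal s := by
    refine le_trans (D_mono f subset_rfl subset_rfl ((C7c_shell xB j).trans hBV)) (le_trans ?_ sB)
    exact le_iSup₂_of_le q hq (le_iSup₂_of_le (xB + ((R : ℝ) * dy j) • ee 0)
      (C7c_sphere hR1 xB j) le_rfl)
  have k3 := C7c_ray hR1 f xA j V s hs hAV eA
  have k4 := C7c_ray hR1 f xB j V s hs hBV eB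
  rw [D_symm] at k4
  have k5 : D f {p} {q} V ≤ ENNReal.ofReal (2 * t) :=
    le_trans (D_mono f subset_rfl subset_rfl hUV) hpq.le
  have t1 := D_tri f {xA} {xB} (xA + ((R : ℝ) * dy j) • ee 0) V
  have t2 := D_tri f {xA + ((R : ℝ) * dy j) • ee 0} {xB} p V
  have t3 := D_tri f {p} {xB} q V
  have t4 := D_tri f {q} {xB} (xB + ((R : ℝ) * dy j) • ee 0) V
  have hfin : ENNReal.ofReal s + (ENNReal.ofReal s + (ENNReal.ofReal (2 * t) +
      (ENNReal.ofReal s + ENNReal.ofReal s))) = ENNReal.ofReal (2 * t + 4 * s) := by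
    rw [← ENNReal.ofReal_add hs hs, ← ENNReal.ofReal_add (by positivity) (by positivity),
      ← ENNReal.ofReal_add hs (by positivity), ← ENNReal.ofReal_add hs (by positivity)]
    congr 1
    ring
  rw [← hfin]
  refine t1.trans (add_le_add k3 (t2.trans (add_le_add k1 (t3.trans (add_le_add k5
    (t4.trans (add_le_add k2 k4)))))))

namespace Par

variable {d : ℕ} [NeZero d] {E : Env d} (A : Par E)

/-- decay of the error -/
private theorem C7c_small (C η : ℝ) (hC : 0 ≤ C) (hη : 0 < η) : ∃ j0 : ℕ, ∀ j : ℕ, j0 ≤ j →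
    C * ((2 : ℝ) ^ (-((d : ℝ) * j)) * Real.exp (A.κ * E.be * j)) ≤ η := by
  have hq : Tendsto (fun j : ℕ => C * (Real.exp (-(3 / 4 * Real.log 2))) ^ j) atTop (𝓝 (C * 0)) := by
    apply Tendsto.const_mul
    apply tendsto_pow_atTop_nhds_zero_of_lt_one (Real.exp_pos _).le
    rw [Real.exp_lt_one_iff]
    have := Real.log_pos (by norm_num : (1 : ℝ) < 2)
    linarith
  rw [mul_zero] at hq
  have h1 := hq.eventually (gt_mem_nhds hη)
  rw [eventually_atTop] at h1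
  obtain ⟨j0, hj0⟩ := h1
  refine ⟨j0, fun j hj => le_trans ?_ (hj0 j hj).le⟩
  apply mul_le_mul_of_nonneg_left _ hC
  rw [Real.rpow_def_of_pos (by norm_num), ← Real.exp_add, ← Real.exp_nat_mul]
  apply Real.exp_le_exp.2
  have hlog := Real.log_pos (by norm_num : (1 : ℝ) < 2)
  have hd1 : (1 : ℝ) ≤ d := by exact_mod_cast NeZero.one_le
  have hj' : (0 : ℝ) ≤ j := Nat.cast_nonneg j
  have h2 := mul_le_mul_of_nonneg_right A.κβ hj'
  have h3 := mul_le_mul_of_nonneg_right hd1 (mul_nonneg hj' hlog.le)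
  nlinarith

/-- **From the enlarged boxes to the centres.** `n` good (`μ_n = λ*_n`), boxes of radius `3 r1 = 3 · 2^{-j}/2 < R0 2^{-j}`. Five further events, each of probability `≥ 1 - η` for `j ≥ j0`:
* `sig E.R0 (ξh_{0,n}) xA j ≤ δ λ*_n` and the same for `xB`: `sphere_tail` with `i = 0` gives failure probability `≤ C δ^{-β} 2^{-dj} e^{κβj} ≤ C δ^{-β} 2^{-3j/4}`;
* the `R0` edges `[xA + k 2^{-j} e_1, xA + (k+1) 2^{-j} e_1]`, `k < R0`, cost at most `(δ/R0) λ*_n` each (`edge_tail` with `i = 0`, `m = n`, `l = j`), and the same for `xB`.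
On the intersection: let `D_n(CBox xA (3r1), CBox xB (3r1); U) ≤ t < 2t`; by `exists_sphere_points` (`r = R0 2^{-j}`) there are `p, q ∈ U` on the two spheres with `D_n(p,q;U) < 2t`; the point
`pA = xA + R0 2^{-j} e_1` is on the sphere of `xA`, so (`D_tri`, `D_mono`, everything inside `U ⊆ Box xA ρ'`)
`D_n(xA,xB) ≤ D_n(xA,pA) + sig(xA) + 2t + sig(xB) + D_n(pB,xB) ≤ 2t + 4δ λ*_n`. (Shells and edge domains `Box (·) (2·2^{-j})` are in `CBox xA ((R0+2)2^{-j})`.) -/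
theorem centre_bound {δ η : ℝ} (hδ : 0 < δ) (hη : 0 < η) : ∃ j0 : ℕ, ∀ j : ℕ, j0 ≤ j → ∀ n : ℕ, j ≤ n → A.mu n = A.lam n →
    ∀ (xA xB : Rd d) (U : Set (Rd d)) (ρ' t : ℝ), 0 < t →
      Disjoint (CBox xA ((E.R0 : ℝ) * dy j)) (CBox xB ((E.R0 : ℝ) * dy j)) → U ⊆ Box xA ρ' →
      CBox xA (((E.R0 : ℝ) + 2) * dy j) ⊆ U → CBox xB (((E.R0 : ℝ) + 2) * dy j) ⊆ U →
      1 - η ≤ E.P.real {ω | D (E.hf 0 n ω) (CBox xA (3 * (dy j / 2))) (CBox xB (3 * (dy j / 2))) U ≤ ENNReal.ofReal t} →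
      1 - 6 * η ≤ E.P.real {ω | D (E.hf 0 n ω) {xA} {xB} (Box xA ρ') ≤ ENNReal.ofReal (2 * t + 5 * δ * A.lam n)} := by
  obtain ⟨C1, hC1, hS⟩ := A.sphere_tail
  obtain ⟨C2, hC2, hE⟩ := A.edge_tail
  have hR2 : 2 ≤ E.R0 := by unfold Env.R0; omega
  have hR0 : (0 : ℝ) < E.R0 := by
    have : (2 : ℝ) ≤ E.R0 := by exact_mod_cast hR2
    linarith
  obtain ⟨C3, hC3⟩ : ∃ C3 : ℝ, C3 = C1 * δ ^ (-E.be) + C1 * δ ^ (-E.be) +
      (E.R0 * (C2 * (δ / E.R0) ^ (-E.be)) + E.R0 * (C2 * (δ / E.R0) ^ (-E.be))) := ⟨_, rfl⟩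
  have hC30 : 0 ≤ C3 := by rw [hC3]; positivity
  obtain ⟨j0, hj0⟩ := C7c_small A C3 (5 * η) hC30 (by positivity)
  refine ⟨j0, fun j hj n hjn hgood xA xB U ρ' t ht hdis hUV hA hB hG => ?_⟩
  have hlam := A.lam_pos n
  set q : ℝ := (2 : ℝ) ^ (-((d : ℝ) * j)) * Real.exp (A.κ * E.be * j) with hq
  have hsm := hj0 j hj
  -- the bad events
  set SA : Set E.Ω := {ω | ENNReal.ofReal (δ * A.lam n) < sig E.R0 (E.hf 0 n ω) xA j} with hSA
  set SB : Set E.Ω := {ω | ENNReal.ofReal (δ * A.lam n) < sig E.R0 (E.hf 0 n ω) xB j} with hSB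
  set EA : Set E.Ω := ⋃ k ∈ Finset.range E.R0, {ω | ENNReal.ofReal (δ * A.lam n / E.R0) <
    E.Edg 0 n j ω (xA + ((k : ℝ) * dy j) • ee 0) 0 2} with hEA
  set EB : Set E.Ω := ⋃ k ∈ Finset.range E.R0, {ω | ENNReal.ofReal (δ * A.lam n / E.R0) <
    E.Edg 0 n j ω (xB + ((k : ℝ) * dy j) • ee 0) 0 2} with hEB
  have dy0 : dy 0 = 1 := by unfold dy; norm_num
  have pS : ∀ x : Rd d, E.P.real {ω | ENNReal.ofReal (δ * A.lam n) < sig E.R0 (E.hf 0 n ω) x j} ≤
      C1 * δ ^ (-E.be) * q := by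
    intro x
    have h := hS 0 j n (Nat.zero_le _) hjn x δ hδ
    rw [dy0, one_mul, Nat.sub_zero, Nat.sub_zero, hgood] at h
    refine h.trans (le_of_eq ?_)
    rw [hq]
    ring
  have pE1 : ∀ x : Rd d, E.P.real {ω | ENNReal.ofReal (δ * A.lam n / E.R0) <
      E.Edg 0 n j ω x 0 2} ≤ C2 * (δ / E.R0) ^ (-E.be) * q := by
    intro x
    have h := hE 0 n j hjn x 0 (δ / E.R0) (by positivity)
    rw [dy0, one_mul, zero_add, zero_add, hgood] at h
    have e1 : δ / E.R0 * A.lam n = δ * A.lam n / E.R0 := by ring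
    rw [e1] at h
    refine h.trans (le_of_eq ?_)
    rw [hq]
    ring
  have pE : ∀ x : Rd d, E.P.real (⋃ k ∈ Finset.range E.R0, {ω | ENNReal.ofReal (δ * A.lam n / E.R0) <
      E.Edg 0 n j ω (x + ((k : ℝ) * dy j) • ee 0) 0 2}) ≤ E.R0 * (C2 * (δ / E.R0) ^ (-E.be)) * q := by
    intro x
    refine (measureReal_biUnion_finset_le _ _).trans ?_
    refine (Finset.sum_le_sum fun k _ => pE1 _).trans (le_of_eq ?_)
    rw [Finset.sum_const, Finset.card_range, nsmul_eq_mul]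
    ring
  have hbad : E.P.real ((SA ∪ SB) ∪ (EA ∪ EB)) ≤ 5 * η := by
    refine (measureReal_union_le _ _).trans ?_
    refine (add_le_add (measureReal_union_le _ _) (measureReal_union_le _ _)).trans ?_
    refine (add_le_add (add_le_add (pS xA) (pS xB)) (add_le_add (pE xA) (pE xB))).trans ?_
    refine le_trans (le_of_eq ?_) hsm
    rw [hC3]
    ring
  have hsub : {ω | D (E.hf 0 n ω) (CBox xA (3 * (dy j / 2))) (CBox xB (3 * (dy j / 2))) U ≤
      ENNReal.ofReal t} ⊆ {ω | D (E.hf 0 n ω) {xA} {xB} (Box xA ρ') ≤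
      ENNReal.ofReal (2 * t + 5 * δ * A.lam n)} ∪ ((SA ∪ SB) ∪ (EA ∪ EB)) := by
    intro ω hω
    by_cases hb : ω ∈ ((SA ∪ SB) ∪ (EA ∪ EB))
    · exact Or.inr hb
    · left
      simp only [mem_union, not_or] at hb
      obtain ⟨⟨b1, b2⟩, b3, b4⟩ := hb
      have u1 : sig E.R0 (E.hf 0 n ω) xA j ≤ ENNReal.ofReal (δ * A.lam n) := not_lt.1 b1
      have u2 : sig E.R0 (E.hf 0 n ω) xB j ≤ ENNReal.ofReal (δ * A.lam n) := not_lt.1 b2
      have u3 : ∀ k < E.R0, E.Edg 0 n j ω (xA + ((k : ℝ) * dy j) • ee 0) 0 2 ≤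
          ENNReal.ofReal (δ * A.lam n / E.R0) := by
        intro k hk
        by_contra hcon
        apply b3
        rw [hEA, mem_iUnion₂]
        exact ⟨k, Finset.mem_range.2 hk, not_le.1 hcon⟩
      have u4 : ∀ k < E.R0, E.Edg 0 n j ω (xB + ((k : ℝ) * dy j) • ee 0) 0 2 ≤
          ENNReal.ofReal (δ * A.lam n / E.R0) := by
        intro k hk
        by_contra hcon
        apply b4
        rw [hEB, mem_iUnion₂]
        exact ⟨k, Finset.mem_range.2 hk, not_le.1 hcon⟩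
      have hdet := C7c_det hR2 (E.hf 0 n ω) xA xB j U (Box xA ρ') (δ * A.lam n) t (by positivity) ht
        hdis hUV hA hB hω u1 u2 u3 u4
      refine le_trans hdet (ENNReal.ofReal_le_ofReal ?_)
      have : 0 < δ * A.lam n := by positivity
      linarith
  have hfin := (measureReal_mono (μ := E.P) hsub).trans (measureReal_union_le _ _)
  linarith

end Par
end MP_d19698_pr
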