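import Pool.Agent.Lib.MP_d19698_pr.C7c

/-! # C7d -/

open MeasureTheory ProbabilityTheory Filter Topology Set
open scoped ENNReal NNReal

namespace MP_d19698_pr

private theorem C7d_dy_pos (j : ℕ) : 0 < dy j := by unfold dy; positivity

/-- small dyadic numbers -/
private theorem C7d_small (K : ℕ) {ε : ℝ} (hε : 0 < ε) : ∃ k : ℕ, K ≤ k ∧ dy k < ε := by
  obtain ⟨N, hN⟩ := exists_pow_lt_of_lt_one hε (by norm_num : (1 / 2 : ℝ) < 1)
  refine ⟨max N K, le_max_right _ _, lt_of_le_of_lt ?_ hN⟩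
  unfold dy
  exact pow_le_pow_of_le_one (by norm_num) (by norm_num) (le_max_left _ _)

/-- uniform constant over a finite set -/
private theorem C7d_unif {α : Type*} (S : Finset α) (Q : α → ℝ → Prop)
    (hmono : ∀ x C C', C ≤ C' → Q x C → Q x C') (h : ∀ x ∈ S, ∃ C : ℝ, 0 < C ∧ Q x C) :
    ∃ C : ℝ, 0 < C ∧ ∀ x ∈ S, Q x C := by
  classical
  induction S using Finset.induction_on with
  | empty => exact ⟨1, one_pos, fun x hx => absurd hx (Finset.notMem_empty x)⟩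
  | insert a S _ ih =>
    obtain ⟨C, hC, hQ⟩ := ih fun x hx => h x (Finset.mem_insert_of_mem hx)
    obtain ⟨C', hC', hQ'⟩ := h a (Finset.mem_insert_self a S)
    refine ⟨C + C', by positivity, fun x hx => ?_⟩
    rcases Finset.mem_insert.1 hx with rfl | hx
    · exact hmono _ C' _ (by linarith) hQ'
    · exact hmono _ C _ (by linarith) (hQ x hx)

/-- geometry of a pair of centres -/
private theorem C7d_geo {d : ℕ} {xA xB : Rd d} {ρ r : ℝ}
    (hA : xA ∈ CBox (0 : Rd d) (ρ / 2 + r)) (hB' : xB ∉ Box (0 : Rd d) (3 * ρ / 2 - r)) :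
    ∃ i : Fin d, ρ - 2 * r ≤ |xA i - xB i| := by
  unfold Box at hB'
  simp only [mem_ofPred_eq, not_forall, not_lt] at hB'
  obtain ⟨i, hi⟩ := hB'
  refine ⟨i, ?_⟩
  have h1 := hA i
  have e1 : xA i - (0 : Rd d) i = xA i := by simp
  have e2 : xB i - (0 : Rd d) i = xB i := by simp
  rw [e1] at h1
  rw [e2] at hi
  have h2 := abs_sub_abs_le_abs_sub (xB i) (xA i)
  rw [abs_sub_comm] at h2
  linarith

private theorem C7d_disj {d : ℕ} {xA xB : Rd d} {ρ r s : ℝ}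
    (hA : xA ∈ CBox (0 : Rd d) (ρ / 2 + r)) (hB' : xB ∉ Box (0 : Rd d) (3 * ρ / 2 - r))
    (h : 2 * s + 2 * r < ρ) : Disjoint (CBox xA s) (CBox xB s) := by
  rw [Set.disjoint_left]
  intro y hy hy'
  obtain ⟨i, hi⟩ := C7d_geo hA hB'
  have h1 := hy i
  have h2 := hy' i
  have e : xA i - xB i = -(y i - xA i) + (y i - xB i) := by ring
  rw [e] at hi
  have h3 := abs_add_le (-(y i - xA i)) (y i - xB i)
  rw [abs_neg] at h3
  linarith

private theorem C7d_norm {d : ℕ} {xA xB : Rd d} {ρ r : ℝ}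
    (hA : xA ∈ CBox (0 : Rd d) (ρ / 2 + r)) (hB' : xB ∉ Box (0 : Rd d) (3 * ρ / 2 - r)) :
    ρ - 2 * r ≤ ‖xA - xB‖ := by
  obtain ⟨i, hi⟩ := C7d_geo hA hB'
  refine hi.trans ?_
  have := abs_le_norm (xA - xB) i
  simpa using this

private theorem C7d_sub {d : ℕ} {x : Rd d} {a s b : ℝ} (hx : x ∈ CBox (0 : Rd d) a) (h : a + s < b) :
    CBox x s ⊆ Box (0 : Rd d) b := by
  intro y hy i
  have h1 := hx i
  have h2 := hy i
  have e : y i - (0 : Rd d) i = (y i - x i) + (x i - (0 : Rd d) i) := by ring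
  rw [e]
  refine lt_of_le_of_lt (abs_add_le _ _) ?_
  linarith

private theorem C7d_sub' {d : ℕ} {x : Rd d} {a s b : ℝ} (hx : x ∈ CBox (0 : Rd d) a) (h : a + s ≤ b) :
    Box (0 : Rd d) s ⊆ Box x b := by
  intro y hy i
  have h1 := hx i
  have h2 := hy i
  have e : y i - x i = (y i - (0 : Rd d) i) + -(x i - (0 : Rd d) i) := by ring
  rw [e]
  refine lt_of_le_of_lt (abs_add_le _ _) ?_
  rw [abs_neg]
  linarith

private theorem C7d_dist {d : ℕ} {xA xB : Rd d} {a b : ℝ} (ha : 0 ≤ a) (hb : 0 ≤ b)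
    (hA : xA ∈ CBox (0 : Rd d) a) (hB : xB ∈ CBox (0 : Rd d) b) :
    ‖xA - xB‖ ≤ Real.sqrt d * (a + b) := by
  have : xA ∈ CBox xB (a + b) := by
    intro i
    have h1 := hA i
    have h2 := hB i
    have e : xA i - xB i = (xA i - (0 : Rd d) i) + -(xB i - (0 : Rd d) i) := by ring
    rw [e]
    refine le_trans (abs_add_le _ _) ?_
    rw [abs_neg]
    linarith
  exact norm_le_of_mem_CBox (by positivity) this

/-- final calculus -/
private theorem C7d_calc {CV L0 CT R c lam a : ℝ} (hCV : 0 < CV) (hCT : 1 ≤ CT) (hR : 1 ≤ R)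
    (hc : 0 < c) (hlam : 0 < lam)
    (h : c * (Real.exp (-(CV * Real.sqrt (1 + Real.log (CT * R)) + L0)) * lam) ≤ a) :
    lam ≤ (c⁻¹ * Real.exp (CV * Real.sqrt (Real.log CT) + L0) + CV) *
      Real.exp ((c⁻¹ * Real.exp (CV * Real.sqrt (Real.log CT) + L0) + CV) *
        Real.sqrt (1 + Real.log R)) * a := by
  have hlR : 0 ≤ Real.log R := Real.log_nonneg hR
  have hlC : 0 ≤ Real.log CT := Real.log_nonneg hCT
  have ha : 0 < a := lt_of_lt_of_le (by positivity) h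
  obtain ⟨B, hB⟩ : ∃ B : ℝ, B = c⁻¹ * Real.exp (CV * Real.sqrt (Real.log CT) + L0) := ⟨_, rfl⟩
  have hB0 : 0 < B := by rw [hB]; positivity
  rw [← hB]
  set u : ℝ := CV * Real.sqrt (1 + Real.log (CT * R)) + L0 with hu
  have h1 : lam ≤ c⁻¹ * Real.exp u * a := by
    have e1 : lam = c⁻¹ * Real.exp u * (c * (Real.exp (-u) * lam)) := by
      have e2 : Real.exp u * Real.exp (-u) = 1 := by rw [← Real.exp_add, add_neg_cancel, Real.exp_zero]
      have e3 : c⁻¹ * c = 1 := inv_mul_cancel₀ hc.ne'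
      calc lam = (c⁻¹ * c) * (Real.exp u * Real.exp (-u)) * lam := by rw [e2, e3]; ring
        _ = _ := by ring
    rw [e1]
    exact mul_le_mul_of_nonneg_left h (by positivity)
  have h2 : Real.sqrt (1 + Real.log (CT * R)) ≤ Real.sqrt (Real.log CT) + Real.sqrt (1 + Real.log R) := by
    have e1 : 1 + Real.log (CT * R) = Real.log CT + (1 + Real.log R) := by
      rw [Real.log_mul (by linarith) (by linarith)]
      ring
    rw [e1]
    have q1 := Real.sq_sqrt hlC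
    have q2 := Real.sq_sqrt (show 0 ≤ 1 + Real.log R by linarith)
    have q3 := Real.sqrt_nonneg (Real.log CT)
    have q4 := Real.sqrt_nonneg (1 + Real.log R)
    refine Real.sqrt_le_iff.2 ⟨add_nonneg q3 q4, ?_⟩
    rw [add_sq, q1, q2]
    have := mul_nonneg q3 q4
    linarith
  have h3 : c⁻¹ * Real.exp u ≤ B * Real.exp (CV * Real.sqrt (1 + Real.log R)) := by
    rw [hB, mul_assoc, ← Real.exp_add]
    apply mul_le_mul_of_nonneg_left _ (by positivity)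
    apply Real.exp_le_exp.2
    have := mul_le_mul_of_nonneg_left h2 hCV.le
    rw [hu]
    linarith
  have h4 : B * Real.exp (CV * Real.sqrt (1 + Real.log R)) ≤
      (B + CV) * Real.exp ((B + CV) * Real.sqrt (1 + Real.log R)) := by
    apply mul_le_mul (by linarith) _ (Real.exp_pos _).le (by positivity)
    apply Real.exp_le_exp.2
    exact mul_le_mul_of_nonneg_right (by linarith) (Real.sqrt_nonneg _)
  refine h1.trans (mul_le_mul_of_nonneg_right (h3.trans h4) ha.le)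

namespace Par
variable {d : ℕ} [NeZero d] {E : Env d} (A : Par E)

/-- the contradiction for one pair of centres -/
private theorem C7d_pair {xA xB : Rd d} {ρ' Mx lam δ η e : ℝ} {n : ℕ} (hlam : 0 < A.lam n)
    (hl : lam = A.lam n)
    (h0 : 0 < ‖xA - xB‖) (h1 : ‖xA - xB‖ ≤ 1 / 4) (hρ : 0 < ρ') (hρ' : Real.sqrt d * ρ' ≤ 1 / 4)
    (hM : ((⌊1 / ‖xA - xB‖⌋₊ + 1 : ℕ) : ℝ) ≤ Mx) (hδ : 5 * δ * Mx ≤ 1 / 8) (hδ0 : 0 ≤ δ)
    (he0 : 0 ≤ e) (he : 2 * e * Mx ≤ 1 / 20) (hη0 : 0 ≤ η) (hη : Mx * (6 * η) ≤ A.p2)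
    (h : 1 - 6 * η ≤ E.P.real {ω | D (E.hf 0 n ω) {xA} {xB} (Box xA ρ') ≤
      ENNReal.ofReal (2 * (e * lam) + 5 * δ * lam)}) : False := by
  have hlam' : 0 < lam := by rw [hl]; exact hlam
  have ht : 0 ≤ 2 * (e * lam) + 5 * δ * lam := by positivity
  have hz := E.zigzag h0 h1 hρ hρ' ht h
  set M : ℝ := ((⌊1 / ‖xA - xB‖⌋₊ + 1 : ℕ) : ℝ) with hMdef
  have hM0 : 0 ≤ M := Nat.cast_nonneg _
  have hz2 : E.Gt 2 n (M * (2 * (e * lam) + 5 * δ * lam)) ≤ A.p2 := by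
    refine hz.trans (le_trans ?_ hη)
    exact mul_le_mul_of_nonneg_right hM (by positivity)
  have hz3 := E.lamQ_le n (mul_nonneg hM0 ht) hz2
  have hz4 : lam ≤ M * (2 * (e * lam) + 5 * δ * lam) := by
    rw [hl]
    unfold Par.lam at hl ⊢
    rw [hl] at hz3
    exact hz3
  have hz5 : M * (2 * (e * lam) + 5 * δ * lam) ≤ Mx * (2 * (e * lam) + 5 * δ * lam) :=
    mul_le_mul_of_nonneg_right hM ht
  have hz6 : Mx * (2 * (e * lam) + 5 * δ * lam) = (2 * e * Mx + 5 * δ * Mx) * lam := by ring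
  have hz7 : (2 * e * Mx + 5 * δ * Mx) * lam ≤ (1 / 20 + 1 / 8) * lam :=
    mul_le_mul_of_nonneg_right (by linarith) hlam'.le
  linarith

/-- **(9.1)** For `n` good and `μ_m ≤ R a_m` for all `m < n`: `λ*_n ≤ C e^{C√(1+log R)} a_{n-kρ}`.

Constants in this order (all independent of `n` and `R`): `b0, k00, CT` from `few_typ`; `kρ ≥ K0` so large that with `ρ = 2^{-kρ}`: `3√d ρ ≤ 1/4`, `5 √d ρ ≤ 1/4`; `Mx = ⌊2/ρ⌋ + 1`-ish upper bound for the number of zigzag steps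
(`‖xA - xB‖ ≥ ρ/2`, so `⌊1/‖xA-xB‖⌋ + 1 ≤ 2/ρ + 1 =: Mx`); `δ = 1/(40 Mx)`, `η = p2/(24 Mx)`; `j` from `centre_bound δ η` (`j ≥ j0`) and so large that `(R0+3) 2^{-j} < ρ/8`; `r1 = 2^{-j}/2`; `SA, SB` from `exists_cover` (with this `ρ, r1`);
`p' = p1/(8 |SA| |SB|)` (if one of the sets is empty the crossing event is empty and we are done); for every pair `(xA,xB) ∈ SA × SB` apply `variance_transfer` with `xU = 0`, `ρU = 2ρ`, `p = p'`, `η`, `C0 = 2`, `k0 = k00`, `b = b0`; `CV` = the maximum of the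
finitely many constants. Let `n ≥ n1 = j`, `n` good, `R ≥ 1`, `u = CV √(1 + log(CT R)) + 2 log(40 Mx) + 1`. CLAIM `P[Cr(ξh_{0,n}; 0, ρ/2, 3ρ/2) < e^{-u} λ*_n] < p1/8`. Otherwise (`exists_cover`, union bound) some pair has
`P[D_n(CBox xA r1, CBox xB r1; Box 0 (2ρ)) < e^{-u} λ*_n] ≥ p'`; `variance_transfer` (hypothesis from `few_typ`) gives `P[D_n(CBox xA (3r1), CBox xB (3r1); Box 0 (2ρ+2r1)) ≤ e^{-u/2} λ*_n] ≥ 1-η`;
`centre_bound` with `U = Box 0 (2ρ+2r1)`, `ρ' = 5ρ`, `t = e^{-u/2}λ*_n`: `P[D_n(xA,xB;Box xA (5ρ)) ≤ (2e^{-u/2}+5δ)λ*_n] ≥ 1-6η`; `zigzag`: `P[X_n > Mx (2e^{-u/2}+5δ) λ*_n] ≤ 6 Mx η < p2` (monotone in the number of steps), and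
`Mx(2e^{-u/2}+5δ) < 1/2`; so `lamQ_le` gives `λ*_n ≤ λ*_n/2`, a contradiction. `aq_of_small kρ` (with `t = e^{-u}λ*_n`) gives `c e^{-u} λ*_n ≤ a_{n-kρ}`; finally `e^u ≤ C e^{C√(1+log R)}` since `log CT` is a constant. -/
theorem good_bound (K0 : ℕ) : ∃ (kρ n1 : ℕ) (C : ℝ), K0 ≤ kρ ∧ 0 < C ∧ ∀ n : ℕ, n1 ≤ n → kρ ≤ n → ∀ R : ℝ, 1 ≤ R →
    (∀ m < n, A.mu m ≤ R * E.aq m) → A.mu n = A.lam n → A.lam n ≤ C * Real.exp (C * Real.sqrt (1 + Real.log R)) * E.aq (n - kρ) := by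
  classical
  obtain ⟨b0, k00, CT, hCT, few⟩ := A.few_typ
  have hd1 : (1 : ℝ) ≤ d := by exact_mod_cast NeZero.one_le
  have hsd : (1 : ℝ) ≤ Real.sqrt d := by
    rw [Real.one_le_sqrt]
    exact hd1
  obtain ⟨kρ, hK0, hkρ⟩ := C7d_small K0 (ε := 1 / (20 * Real.sqrt d)) (by positivity)
  obtain ⟨ρ, hρdef⟩ : ∃ ρ : ℝ, ρ = dy kρ := ⟨_, rfl⟩
  have hρ : 0 < ρ := by rw [hρdef]; exact C7d_dy_pos _
  have hρs : 20 * (Real.sqrt d * ρ) ≤ 1 := by
    rw [← hρdef, lt_div_iff₀ (by positivity)] at hkρ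
    linarith
  obtain ⟨Mx, hMx⟩ : ∃ Mx : ℝ, Mx = 2 / ρ + 1 := ⟨_, rfl⟩
  have hMx1 : 1 ≤ Mx := by
    rw [hMx]
    have : 0 < 2 / ρ := by positivity
    linarith
  have hMx0 : 0 < Mx := by linarith
  obtain ⟨δ, hδdef⟩ : ∃ δ : ℝ, δ = 1 / (40 * Mx) := ⟨_, rfl⟩
  obtain ⟨η, hηdef⟩ : ∃ η : ℝ, η = A.p2 / (24 * Mx) := ⟨_, rfl⟩
  have hp2 := A.p2_pos
  have hδ : 0 < δ := by rw [hδdef]; positivity
  have hη : 0 < η := by rw [hηdef]; positivity
  obtain ⟨j0, hcb⟩ := A.centre_bound hδ hη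
  have hR0 : (0 : ℝ) ≤ E.R0 := Nat.cast_nonneg _
  obtain ⟨j, hj0, hj⟩ := C7d_small j0 (ε := ρ / 8 / ((E.R0 : ℝ) + 3)) (by positivity)
  have hjp := C7d_dy_pos j
  have hjr : ((E.R0 : ℝ) + 3) * dy j < ρ / 8 := by
    rw [lt_div_iff₀ (by positivity)] at hj
    linarith
  have hjs : 3 * dy j < ρ / 8 := by
    have := mul_nonneg hR0 hjp.le
    linarith
  obtain ⟨SA, SB, hSA, hSB, hcov⟩ := Env.exists_cover (d := d) (ρ := ρ) (r1 := dy j / 2) (by positivity)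
    (by linarith)
  have hp1 : 0 < E.p1 := by unfold Env.p1; positivity
  obtain ⟨p', hp'def⟩ : ∃ p' : ℝ, p' = E.p1 / (8 * ((SA.card * SB.card : ℕ) + 1)) := ⟨_, rfl⟩
  have hp' : 0 < p' := by rw [hp'def]; positivity
  -- variance transfer, uniformly over the pairs
  obtain ⟨CV, hCV, hV⟩ := C7d_unif (SA ×ˢ SB) (fun x C => ∀ n : ℕ, ∀ Rt : ℝ, 1 ≤ Rt →
      (∀ k, k00 ≤ k → k ≤ n → ∀ y : Rd d, E.P.real (E.FewTyp n k b0 y Rt) ≤ 2 * dy k ^ (3 * d)) →
      ∀ lam : ℝ, 0 < lam → ∀ u : ℝ, C * Real.sqrt (1 + Real.log Rt) ≤ u →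
        p' ≤ E.P.real {ω | D (E.hf 0 n ω) (CBox x.1 (dy j / 2)) (CBox x.2 (dy j / 2)) (Box 0 (2 * ρ)) <
          ENNReal.ofReal (Real.exp (-u) * lam)} →
        1 - η ≤ E.P.real {ω | D (E.hf 0 n ω) (CBox x.1 (3 * (dy j / 2))) (CBox x.2 (3 * (dy j / 2)))
          (Box 0 (2 * ρ + 2 * (dy j / 2))) ≤ ENNReal.ofReal (Real.exp (-(u / 2)) * lam)})
    (by
      intro x C C' hCC hQ n Rt hRt hfew lam hlam u hu
      exact hQ n Rt hRt hfew lam hlam u
        (le_trans (mul_le_mul_of_nonneg_right hCC (Real.sqrt_nonneg _)) hu))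
    (by
      rintro ⟨xA, xB⟩ hx
      rw [Finset.mem_product] at hx
      have hxA := hSA xA hx.1
      have hxB := hSB xB hx.2
      exact E.variance_transfer xA xB 0 (r1 := dy j / 2) (ρU := 2 * ρ) (by positivity)
        (C7d_sub hxA.1 (by linarith)) (C7d_sub hxB.1 (by linarith))
        (C7d_disj hxA.1 hxB.2 (by linarith)) hp' hη 2 k00 b0)
  obtain ⟨c, hc, haq⟩ := E.aq_of_small kρ
  obtain ⟨L0, hL0⟩ : ∃ L0 : ℝ, L0 = 2 * Real.log (40 * Mx) + 1 := ⟨_, rfl⟩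
  have hlog40 : 0 ≤ Real.log (40 * Mx) := Real.log_nonneg (by linarith)
  refine ⟨kρ, j, c⁻¹ * Real.exp (CV * Real.sqrt (Real.log CT) + L0) + CV, hK0, by positivity, ?_⟩
  intro n hn hkn R hR hmu hgood
  have hlam := A.lam_pos n
  apply C7d_calc hCV hCT hR hc hlam
  have hCTR : 1 ≤ CT * R := by
    calc (1 : ℝ) = 1 * 1 := by ring
      _ ≤ CT * R := mul_le_mul hCT hR (by norm_num) (by linarith)
  obtain ⟨u, hu⟩ : ∃ u : ℝ, u = CV * Real.sqrt (1 + Real.log (CT * R)) + L0 := ⟨_, rfl⟩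
  rw [← hu]
  have hu1 : CV * Real.sqrt (1 + Real.log (CT * R)) ≤ u := by rw [hu, hL0]; linarith
  have hu2 : 2 * Real.log (40 * Mx) ≤ u := by
    have : 0 ≤ CV * Real.sqrt (1 + Real.log (CT * R)) := by positivity
    rw [hu, hL0]
    linarith
  apply haq n hkn _ (by positivity)
  by_contra hcon
  rw [not_le] at hcon
  -- union bound
  have hex : ∃ x ∈ SA ×ˢ SB, p' ≤ E.P.real {ω | D (E.hf 0 n ω) (CBox x.1 (dy j / 2))
      (CBox x.2 (dy j / 2)) (Box 0 (2 * ρ)) < ENNReal.ofReal (Real.exp (-u) * A.lam n)} := by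
    by_contra hno
    push Not at hno
    have hsub : {ω | Cr (E.hf 0 n ω) 0 (1 / 2 * dy kρ) (3 / 2 * dy kρ) <
        ENNReal.ofReal (Real.exp (-u) * A.lam n)} ⊆ ⋃ x ∈ SA ×ˢ SB,
        {ω | D (E.hf 0 n ω) (CBox x.1 (dy j / 2)) (CBox x.2 (dy j / 2)) (Box 0 (2 * ρ)) <
          ENNReal.ofReal (Real.exp (-u) * A.lam n)} := by
      intro ω hω
      rw [mem_ofPred_eq, ← hρdef] at hω
      obtain ⟨xA, hxA, xB, hxB, hD⟩ := hcov _ _ hω
      rw [mem_iUnion₂]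
      exact ⟨(xA, xB), Finset.mem_product.2 ⟨hxA, hxB⟩, hD⟩
    have h1 := (measureReal_mono (μ := E.P) hsub (measure_ne_top _ _)).trans
      (measureReal_biUnion_finset_le _ _)
    have h2 : ∑ x ∈ SA ×ˢ SB, E.P.real {ω | D (E.hf 0 n ω) (CBox x.1 (dy j / 2))
        (CBox x.2 (dy j / 2)) (Box 0 (2 * ρ)) < ENNReal.ofReal (Real.exp (-u) * A.lam n)} ≤
        ((SA.card * SB.card : ℕ) : ℝ) * p' := by
      refine (Finset.sum_le_sum fun x hx => (hno x hx).le).trans (le_of_eq ?_)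
      rw [Finset.sum_const, Finset.card_product, nsmul_eq_mul]
    have h3 : ((SA.card * SB.card : ℕ) : ℝ) * p' ≤ E.p1 / 8 := by
      have h4 : (((SA.card * SB.card : ℕ) : ℝ) + 1) * p' = E.p1 / 8 := by
        rw [hp'def]
        field_simp
      linarith
    linarith
  obtain ⟨⟨xA, xB⟩, hx, hpx⟩ := hex
  have hx' := Finset.mem_product.1 hx
  have hxA := hSA xA hx'.1
  have hxB := hSB xB hx'.2
  have hV1 := hV (xA, xB) hx n (CT * R) hCTR (few n R hR hmu) (A.lam n) hlam u hu1 hpx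
  have hexp : 0 < Real.exp (-(u / 2)) * A.lam n := by positivity
  have hcb1 := hcb j hj0 n hn hgood xA xB (Box 0 (2 * ρ + 2 * (dy j / 2))) (5 * ρ)
    (Real.exp (-(u / 2)) * A.lam n) hexp (C7d_disj hxA.1 hxB.2 (by linarith))
    (C7d_sub' hxA.1 (by linarith)) (C7d_sub hxA.1 (by linarith)) (C7d_sub hxB.1 (by linarith)) hV1
  have hnorm := C7d_norm hxA.1 hxB.2
  have hnorm' : ρ / 2 ≤ ‖xA - xB‖ := by linarith
  have hn0 : 0 < ‖xA - xB‖ := by linarith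
  have hup := C7d_dist (by positivity) (by positivity) hxA.1 hxB.1
  have hsρ : 0 < Real.sqrt d * ρ := by positivity
  refine C7d_pair A (xA := xA) (xB := xB) (ρ' := 5 * ρ) (Mx := Mx) (δ := δ) (η := η)
    (e := Real.exp (-(u / 2))) (n := n) hlam rfl hn0 ?_ (by positivity) ?_ ?_ ?_ hδ.le (Real.exp_pos _).le
    ?_ hη.le ?_ hcb1
  · refine hup.trans ?_
    have : Real.sqrt d * (ρ / 2 + dy j / 2 + (3 * ρ / 2 + dy j / 2)) ≤ Real.sqrt d * (5 * ρ) :=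
      mul_le_mul_of_nonneg_left (by linarith) (Real.sqrt_nonneg _)
    linarith
  · linarith
  · push_cast
    rw [hMx]
    have h1 : (⌊1 / ‖xA - xB‖⌋₊ : ℝ) ≤ 1 / ‖xA - xB‖ := Nat.floor_le (by positivity)
    have h2 : 1 / ‖xA - xB‖ ≤ 2 / ρ := by
      rw [div_le_div_iff₀ hn0 hρ]
      linarith
    linarith
  · rw [hδdef]
    have : 5 * (1 / (40 * Mx)) * Mx = 1 / 8 := by
      field_simp
      norm_num
    linarith
  · have h1 : Real.exp (-(u / 2)) ≤ 1 / (40 * Mx) := by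
      rw [one_div, ← Real.exp_log (show (0 : ℝ) < 40 * Mx by positivity), ← Real.exp_neg]
      apply Real.exp_le_exp.2
      linarith
    have h2 : 2 * Real.exp (-(u / 2)) * Mx ≤ 2 * (1 / (40 * Mx)) * Mx :=
      mul_le_mul_of_nonneg_right (by linarith) hMx0.le
    have h3 : 2 * (1 / (40 * Mx)) * Mx = 1 / 20 := by
      field_simp
      norm_num
    linarith
  · rw [hηdef]
    have : Mx * (6 * (A.p2 / (24 * Mx))) = A.p2 / 4 := by
      field_simp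
      norm_num
    linarith

end Par

end MP_d19698_pr
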