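import Pool.Agent.Lib.MP_d19698_pr.C7d

/-!
# C8: closing the recursion (sections 10, 11)
-/

open MeasureTheory ProbabilityTheory Filter Topology Set
open scoped ENNReal NNReal

namespace MP_d19698_pr

theorem C8a_log (C κ : ℝ) (hC : 0 ≤ C) (hκ : 0 < κ) :
    ∃ C5 : ℝ, 0 ≤ C5 ∧ ∀ K : ℕ,
      C * Real.sqrt K * (Real.log ((K : ℝ) + 2) + 1) ≤ κ / 2 * K + C5 := by
  refine ⟨4 * C * (8 * C / κ) ^ 3 + κ, by positivity, ?_⟩
  intro K
  have hK0 : (0 : ℝ) ≤ (K : ℝ) := Nat.cast_nonneg K
  have hK2 : (0 : ℝ) < (K : ℝ) + 2 := by positivity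
  obtain ⟨y, hypos, hy4⟩ : ∃ y : ℝ, 0 < y ∧ y ^ 4 = (K : ℝ) + 2 := by
    refine ⟨((K : ℝ) + 2) ^ (1 / 4 : ℝ), Real.rpow_pos_of_pos hK2 _, ?_⟩
    rw [← Real.rpow_natCast, ← Real.rpow_mul hK2.le]
    norm_num
  have hlog : Real.log ((K : ℝ) + 2) = 4 * Real.log y := by
    rw [← hy4, Real.log_pow]; norm_num
  have hlogy : Real.log y ≤ y - 1 := Real.log_le_sub_one_of_pos hypos
  have hsq : Real.sqrt K ≤ y ^ 2 := by
    apply Real.sqrt_le_iff.mpr
    constructor
    · positivity
    · nlinarith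
  have h1 : Real.log ((K : ℝ) + 2) + 1 ≤ 4 * y := by rw [hlog]; linarith
  have h0 : 0 ≤ Real.log ((K : ℝ) + 2) + 1 := by
    have := Real.log_nonneg (show (1 : ℝ) ≤ (K : ℝ) + 2 by linarith)
    linarith
  calc C * Real.sqrt K * (Real.log ((K : ℝ) + 2) + 1) ≤ C * y ^ 2 * (4 * y) := by
        gcongr
    _ = 4 * C * y ^ 3 := by ring
    _ ≤ κ / 2 * y ^ 4 + 4 * C * (8 * C / κ) ^ 3 := by
        rcases le_total (8 * C / κ) y with h | h
        · have h2 : 8 * C ≤ y * κ := (div_le_iff₀ hκ).mp h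
          have h3 : 4 * C * y ^ 3 ≤ κ / 2 * y ^ 4 := by
            have h4 : 0 < y ^ 3 := pow_pos hypos 3
            nlinarith
          have h5 : 0 ≤ 4 * C * (8 * C / κ) ^ 3 := by positivity
          linarith
        · have h2 : 4 * C * y ^ 3 ≤ 4 * C * (8 * C / κ) ^ 3 := by gcongr
          have h3 : 0 ≤ κ / 2 * y ^ 4 := by positivity
          linarith
    _ = κ / 2 * K + (4 * C * (8 * C / κ) ^ 3 + κ) := by rw [hy4]; ring

/-- **Closing, numerical form** (section 10). `mu, a, lam : ℕ → ℝ` positive. -/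
theorem closing_numeric (al κ : ℝ) (hκ : 0 < κ) (mu a lam : ℕ → ℝ) (hmu : ∀ n, 0 < mu n) (ha : ∀ n, 0 < a n) (hlam : ∀ n, 0 < lam n) (C : ℝ) (K0 kρ n1 : ℕ) (hC : 1 ≤ C)
    (hK : K0 ≤ kρ)
    -- the maximum defining `mu n` is attained, at a good time
    (hmax : ∀ n, ∃ l ≤ n, mu n = (2 : ℝ) ^ (-(al * l)) * Real.exp (-(κ * l)) * lam (n - l) ∧ mu (n - l) = lam (n - l))
    -- (5.1)
    (htheta : ∀ m : ℕ, C⁻¹ * Real.exp (-(C * Real.sqrt m)) ≤ (2 : ℝ) ^ (al * m) * mu m)
    -- (F1)
    (hF1 : ∀ K : ℕ, K0 ≤ K → ∀ m : ℕ, 1 ≤ m → Real.exp (-(C * Real.sqrt K * Real.log ((K : ℝ) + 2))) * a m * a K ≤ a (K + m))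
    -- trivial bounds
    (htriv : ∀ m : ℕ, mu m ≤ Real.exp (C * ((m : ℝ) + 1)) * a m)
    -- (9.1)
    (hgood : ∀ n : ℕ, n1 ≤ n → kρ ≤ n → ∀ R : ℝ, 1 ≤ R → (∀ m < n, mu m ≤ R * a m) → mu n = lam n →
      lam n ≤ C * Real.exp (C * Real.sqrt (1 + Real.log R)) * a (n - kρ)) :
    ∃ R : ℝ, 1 ≤ R ∧ ∀ n, mu n ≤ R * a n := by
  have hC0 : 0 < C := by linarith
  obtain ⟨C5, hC5, hlog5⟩ := C8a_log C κ hC0.le hκ
  choose l hl hl2 using hmax
  have hmu_eq : ∀ n, mu n = (2 : ℝ) ^ (-(al * l n)) * Real.exp (-(κ * l n)) * lam (n - l n) :=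
    fun n => (hl2 n).1
  have hgd : ∀ n, mu (n - l n) = lam (n - l n) := fun n => (hl2 n).2
  -- step A
  have hA : ∃ n0 : ℕ, ∀ n, n0 < n → max kρ n1 < n - l n := by
    set N1 : ℕ := max kρ n1 with hN1
    set Cp : ℝ := ∑ j ∈ Finset.range (N1 + 1), (2 : ℝ) ^ (al * j) * lam j with hCp
    have hterm : ∀ j : ℕ, 0 < (2 : ℝ) ^ (al * j) * lam j := fun j =>
      mul_pos (Real.rpow_pos_of_pos two_pos _) (hlam j)
    have hCp_ge : ∀ j ≤ N1, (2 : ℝ) ^ (al * j) * lam j ≤ Cp := by
      intro j hj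
      rw [hCp]
      exact Finset.single_le_sum (f := fun j : ℕ => (2 : ℝ) ^ (al * j) * lam j)
        (fun i _ => (hterm i).le) (Finset.mem_range.mpr (by omega))
    have hCp_pos : 0 < Cp := lt_of_lt_of_le (hterm 0) (hCp_ge 0 (Nat.zero_le _))
    set B : ℝ := 2 / κ * (C ^ 2 / (2 * κ) + Real.log Cp + Real.log C + κ * N1) with hB
    refine ⟨⌈B⌉₊, fun n hn => ?_⟩
    by_contra hcon
    rw [not_lt] at hcon
    have hcast : ((n - l n : ℕ) : ℝ) = (n : ℝ) - (l n : ℝ) := Nat.cast_sub (hl n)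
    have h1 : (2 : ℝ) ^ (al * n) * mu n =
        ((2 : ℝ) ^ (al * ((n - l n : ℕ) : ℝ)) * lam (n - l n)) * Real.exp (-(κ * l n)) := by
      have e1 : (2 : ℝ) ^ (al * n) = (2 : ℝ) ^ (al * ((n - l n : ℕ) : ℝ)) * (2 : ℝ) ^ (al * l n) := by
        rw [← Real.rpow_add two_pos, hcast]
        congr 1
        ring
      have e2 : (2 : ℝ) ^ (al * (l n : ℝ)) * (2 : ℝ) ^ (-(al * (l n : ℝ))) = 1 := by
        rw [← Real.rpow_add two_pos]
        simp
      rw [hmu_eq n, e1]
      calc (2 : ℝ) ^ (al * ((n - l n : ℕ) : ℝ)) * (2 : ℝ) ^ (al * (l n : ℝ)) *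
            ((2 : ℝ) ^ (-(al * (l n : ℝ))) * Real.exp (-(κ * l n)) * lam (n - l n))
          = (2 : ℝ) ^ (al * ((n - l n : ℕ) : ℝ)) *
            ((2 : ℝ) ^ (al * (l n : ℝ)) * (2 : ℝ) ^ (-(al * (l n : ℝ)))) * Real.exp (-(κ * l n)) *
              lam (n - l n) := by ring
        _ = _ := by rw [e2]; ring
    have h2 : C⁻¹ * Real.exp (-(C * Real.sqrt n)) ≤ Cp * Real.exp (-(κ * l n)) := by
      refine (htheta n).trans ?_
      rw [h1]
      exact mul_le_mul_of_nonneg_right (hCp_ge _ hcon) (Real.exp_pos _).le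
    have h3 := Real.log_le_log (by positivity) h2
    rw [Real.log_mul (by positivity) (Real.exp_pos _).ne', Real.log_mul hCp_pos.ne' (Real.exp_pos _).ne',
      Real.log_exp, Real.log_exp, Real.log_inv] at h3
    have h4 : (n : ℝ) - N1 ≤ l n := by
      have : ((n - l n : ℕ) : ℝ) ≤ (N1 : ℝ) := by exact_mod_cast hcon
      rw [hcast] at this
      linarith
    have h5 : C * Real.sqrt n ≤ κ / 2 * n + C ^ 2 / (2 * κ) := by
      have hs : Real.sqrt n ^ 2 = (n : ℝ) := Real.sq_sqrt (Nat.cast_nonneg n)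
      have h6 : 0 ≤ (κ * Real.sqrt n - C) ^ 2 / (2 * κ) := by positivity
      have h7 : (κ * Real.sqrt n - C) ^ 2 / (2 * κ) =
          κ / 2 * (Real.sqrt n ^ 2) + C ^ 2 / (2 * κ) - C * Real.sqrt n := by
        field_simp
        ring
      rw [h7, hs] at h6
      linarith
    have h6 : κ * ((n : ℝ) - N1) ≤ κ * l n := mul_le_mul_of_nonneg_left h4 hκ.le
    have h8 : (n : ℝ) ≤ B := by
      rw [hB]
      rw [div_mul_eq_mul_div, le_div_iff₀ hκ]
      linarith
    have h9 : B < n := lt_of_le_of_lt (Nat.le_ceil B) (by exact_mod_cast hn)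
    linarith
  obtain ⟨n0, hn0⟩ := hA
  -- constants
  set D3 : ℝ := |al| * kρ * Real.log 2 + 2 * Real.log C + κ / 2 * kρ + C5 with hD3
  have hlogC : 0 ≤ Real.log C := Real.log_nonneg hC
  have hlog2 : 0 < Real.log 2 := Real.log_pos one_lt_two
  have hD3nn : 0 ≤ D3 := by positivity
  set C4 : ℝ := C + C * (2 / κ) * C with hC4
  set C4' : ℝ := D3 + C * (2 / κ) * D3 + C * (kρ + 1) with hC4'
  have hC4nn : 0 ≤ C4 := by positivity
  have hC4'nn : 0 ≤ C4' := by positivity
  set R1 : ℝ := 1 + ∑ i ∈ Finset.range (n0 + 1), mu i / a i with hR1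
  have hratio : ∀ i, 0 < mu i / a i := fun i => div_pos (hmu i) (ha i)
  have hR1_ge1 : 1 ≤ R1 := by
    rw [hR1]
    have := Finset.sum_nonneg (s := Finset.range (n0 + 1)) (f := fun i => mu i / a i)
      (fun i _ => (hratio i).le)
    linarith
  have hR1_ge : ∀ i ≤ n0, mu i / a i ≤ R1 := by
    intro i hi
    have := Finset.single_le_sum (f := fun i : ℕ => mu i / a i) (s := Finset.range (n0 + 1))
        (fun i _ => (hratio i).le) (Finset.mem_range.mpr (show i < n0 + 1 by omega))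
    rw [hR1]
    linarith
  have hlogR1 : 0 ≤ Real.log R1 := Real.log_nonneg hR1_ge1
  set S : ℝ := C4 + C4' + 1 + Real.log R1 with hS
  have hS1 : 1 ≤ S := by linarith
  set R : ℝ := Real.exp (S ^ 2 - 1) with hR
  have hlogR : Real.log R = S ^ 2 - 1 := Real.log_exp _
  have hRge1 : 1 ≤ R := by
    rw [hR]
    apply Real.one_le_exp
    have := one_le_pow₀ (n := 2) hS1
    linarith
  have hRS : Real.sqrt (1 + Real.log R) = S := by
    rw [hlogR]
    have : 1 + (S ^ 2 - 1) = S ^ 2 := by ring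
    rw [this, Real.sqrt_sq (by linarith)]
  have hR1R : R1 ≤ R := by
    rw [hR, ← Real.exp_log (show 0 < R1 by linarith)]
    apply Real.exp_le_exp.mpr
    have := le_self_pow₀ hS1 (two_ne_zero)
    linarith
  have hC4R : Real.exp (C4 * S + C4') ≤ R := by
    rw [hR]
    apply Real.exp_le_exp.mpr
    have h1 : C4 + C4' + 1 ≤ S := by linarith
    have h2 : (C4 + C4' + 1) * S ≤ S * S := mul_le_mul_of_nonneg_right h1 (by linarith)
    have h3 : C4' * 1 ≤ C4' * S := mul_le_mul_of_nonneg_left hS1 hC4'nn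
    linarith
  refine ⟨R, hRge1, ?_⟩
  intro n
  induction n using Nat.strong_induction_on with
  | _ n ih =>
  rcases le_or_gt n n0 with hn | hn
  · have h1 := (hR1_ge n hn).trans hR1R
    rwa [div_le_iff₀ (ha n)] at h1
  · have h1 := hn0 n hn
    have hkn' : kρ < n - l n := lt_of_le_of_lt (le_max_left _ _) h1
    have hn1' : n1 < n - l n := lt_of_le_of_lt (le_max_right _ _) h1
    have hln := hl n
    set n' : ℕ := n - l n with hn'
    set m : ℕ := n' - kρ with hm
    set K : ℕ := l n + kρ with hKdef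
    have hm1 : 1 ≤ m := by omega
    have hKm : K + m = n := by omega
    have hKn : K < n := by omega
    have hK0K : K0 ≤ K := by omega
    have f1 := hF1 K hK0K m hm1
    rw [hKm] at f1
    have f2 := hgood n' hn1'.le hkn'.le R hRge1 (fun i hi => ih i (by omega)) (hgd n)
    rw [hRS] at f2
    have f3 := htheta K
    have f3' : 1 ≤ C * Real.exp (C * Real.sqrt K) * ((2 : ℝ) ^ (al * K) * mu K) := by
      have h2 : C * Real.exp (C * Real.sqrt K) * (C⁻¹ * Real.exp (-(C * Real.sqrt K))) = 1 := by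
        rw [Real.exp_neg]
        field_simp
      rw [← h2]
      exact mul_le_mul_of_nonneg_left f3 (by positivity)
    have hcastK : (K : ℝ) = (l n : ℝ) + kρ := by rw [hKdef]; push_cast; ring
    -- a m ≤ exp(C √K log(K+2)) a n / a K
    have f4 : a m ≤ Real.exp (C * Real.sqrt K * Real.log ((K : ℝ) + 2)) * a n / a K := by
      rw [le_div_iff₀ (ha K)]
      have h2 : Real.exp (C * Real.sqrt K * Real.log ((K : ℝ) + 2)) *
          (Real.exp (-(C * Real.sqrt K * Real.log ((K : ℝ) + 2))) * a m * a K) = a m * a K := by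
        rw [Real.exp_neg]
        field_simp
      rw [← h2]
      exact mul_le_mul_of_nonneg_left f1 (Real.exp_pos _).le
    -- main chain
    have f5 : mu n ≤ Real.exp (D3 + C * S - κ / 2 * l n) * (mu K / a K) * a n := by
      have g0 : (2 : ℝ) ^ (-(al * (l n : ℝ))) * (2 : ℝ) ^ (al * (K : ℝ)) ≤
          Real.exp (|al| * kρ * Real.log 2) := by
        rw [← Real.rpow_add two_pos, Real.rpow_def_of_pos two_pos]
        apply Real.exp_le_exp.mpr
        have : -(al * (l n : ℝ)) + al * (K : ℝ) = al * kρ := by rw [hcastK]; ring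
        rw [this]
        have h2 : al * kρ ≤ |al| * kρ := mul_le_mul_of_nonneg_right (le_abs_self al) (Nat.cast_nonneg _)
        have h3 := mul_le_mul_of_nonneg_left h2 hlog2.le
        linarith
      have g1 : lam n' ≤ C * Real.exp (C * S) *
          (Real.exp (C * Real.sqrt K * Real.log ((K : ℝ) + 2)) * a n / a K) :=
        f2.trans (mul_le_mul_of_nonneg_left f4 (by positivity))
      have g2 : lam n' ≤ C * Real.exp (C * S) *
          (Real.exp (C * Real.sqrt K * Real.log ((K : ℝ) + 2)) * a n / a K) *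
            (C * Real.exp (C * Real.sqrt K) * ((2 : ℝ) ^ (al * K) * mu K)) := by
        refine g1.trans (le_mul_of_one_le_right ?_ f3')
        have := ha n
        have := ha K
        positivity
      have g3 : mu n ≤ (2 : ℝ) ^ (-(al * (l n : ℝ))) * Real.exp (-(κ * l n)) *
          (C * Real.exp (C * S) *
          (Real.exp (C * Real.sqrt K * Real.log ((K : ℝ) + 2)) * a n / a K) *
            (C * Real.exp (C * Real.sqrt K) * ((2 : ℝ) ^ (al * K) * mu K))) := by
        rw [hmu_eq n]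
        exact mul_le_mul_of_nonneg_left g2 (by positivity)
      have g4 : (2 : ℝ) ^ (-(al * (l n : ℝ))) * Real.exp (-(κ * l n)) *
          (C * Real.exp (C * S) *
          (Real.exp (C * Real.sqrt K * Real.log ((K : ℝ) + 2)) * a n / a K) *
            (C * Real.exp (C * Real.sqrt K) * ((2 : ℝ) ^ (al * K) * mu K))) =
          ((2 : ℝ) ^ (-(al * (l n : ℝ))) * (2 : ℝ) ^ (al * (K : ℝ))) *
            ((C * C) * (Real.exp (-(κ * l n)) * Real.exp (C * S) *
              Real.exp (C * Real.sqrt K * Real.log ((K : ℝ) + 2)) * Real.exp (C * Real.sqrt K))) *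
              (mu K / a K) * a n := by
        ring
      have g5 : (C * C) * (Real.exp (-(κ * l n)) * Real.exp (C * S) *
              Real.exp (C * Real.sqrt K * Real.log ((K : ℝ) + 2)) * Real.exp (C * Real.sqrt K)) =
          Real.exp (2 * Real.log C + (-(κ * l n) + C * S +
            C * Real.sqrt K * (Real.log ((K : ℝ) + 2) + 1))) := by
        rw [← Real.exp_add, ← Real.exp_add, ← Real.exp_add, Real.exp_add (2 * Real.log C)]
        have : Real.exp (2 * Real.log C) = C * C := by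
          rw [two_mul, Real.exp_add, Real.exp_log hC0]
        rw [this]
        congr 2
        ring
      have g6 : ((2 : ℝ) ^ (-(al * (l n : ℝ))) * (2 : ℝ) ^ (al * (K : ℝ))) *
            ((C * C) * (Real.exp (-(κ * l n)) * Real.exp (C * S) *
              Real.exp (C * Real.sqrt K * Real.log ((K : ℝ) + 2)) * Real.exp (C * Real.sqrt K))) ≤
          Real.exp (D3 + C * S - κ / 2 * l n) := by
        rw [g5]
        refine (mul_le_mul_of_nonneg_right g0 (Real.exp_pos _).le).trans ?_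
        rw [← Real.exp_add]
        apply Real.exp_le_exp.mpr
        have h5 := hlog5 K
        rw [hD3]
        have h6 : κ / 2 * (K : ℝ) = κ / 2 * l n + κ / 2 * kρ := by rw [hcastK]; ring
        linarith
      rw [g4] at g3
      refine g3.trans ?_
      have hq := hratio K
      have han := ha n
      gcongr
    rcases le_or_gt (C * S + D3) (κ / 2 * l n) with hcase | hcase
    · have h2 : Real.exp (D3 + C * S - κ / 2 * l n) ≤ 1 := by
        apply Real.exp_le_one_iff.mpr
        linarith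
      have h3 : mu K / a K ≤ R := by
        rw [div_le_iff₀ (ha K)]
        exact ih K hKn
      calc mu n ≤ Real.exp (D3 + C * S - κ / 2 * l n) * (mu K / a K) * a n := f5
        _ ≤ 1 * R * a n := by
            have := hratio K
            have := ha n
            gcongr
        _ = R * a n := by ring
    · have h2 : mu K / a K ≤ Real.exp (C * ((K : ℝ) + 1)) := by
        rw [div_le_iff₀ (ha K)]
        exact htriv K
      have h3 : (l n : ℝ) ≤ 2 / κ * (C * S + D3) := by
        rw [div_mul_eq_mul_div, le_div_iff₀ hκ]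
        linarith
      have h4 : D3 + C * S - κ / 2 * l n + C * ((K : ℝ) + 1) ≤ C4 * S + C4' := by
        have h5 : 0 ≤ κ / 2 * l n := by positivity
        have h6 : C * (l n : ℝ) ≤ C * (2 / κ * (C * S + D3)) := mul_le_mul_of_nonneg_left h3 hC0.le
        rw [hC4, hC4', hcastK]
        have h7 : C * (2 / κ * (C * S + D3)) = C * (2 / κ) * C * S + C * (2 / κ) * D3 := by ring
        linarith
      calc mu n ≤ Real.exp (D3 + C * S - κ / 2 * l n) * (mu K / a K) * a n := f5
        _ ≤ Real.exp (D3 + C * S - κ / 2 * l n) * Real.exp (C * ((K : ℝ) + 1)) * a n := by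
            have := ha n
            gcongr
        _ = Real.exp (D3 + C * S - κ / 2 * l n + C * ((K : ℝ) + 1)) * a n := by
            rw [← Real.exp_add]
        _ ≤ R * a n := by
            have h8 := (Real.exp_le_exp.mpr h4).trans hC4R
            exact mul_le_mul_of_nonneg_right h8 (ha n).le

end MP_d19698_pr
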