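import Pool.Agent.Lib.MP_d19698_pr.C8a

/-! # C8b -/

open MeasureTheory ProbabilityTheory Filter Topology Set
open scoped ENNReal NNReal

namespace MP_d19698_pr

namespace Par

variable {d : ℕ} [NeZero d] {E : Env d} (A : Par E)

private theorem C8b_p2_lt_one : A.p2 < 1 := lt_trans A.p2_lt (by norm_num)

private theorem C8b_lam_pos (n : ℕ) : 0 < A.lam n := E.lamQ_pos A.p2_pos A.C8b_p2_lt_one n

private theorem C8b_mu_pos (n : ℕ) : 0 < A.mu n := E.muQ_pos A.p2_pos A.C8b_p2_lt_one n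

/-- `sup_n μ_n/a_n < ∞`: `closing_numeric` with `al = E.al`, `κ = A.κ`, `mu = A.mu`, `a = E.aq`, `lam = A.lam`; `hmax` from `exists_muQ_eq`, `good_of_max`; `htheta` from `theta_lower`; `hF1` from `aq_supermul` (its constant may be enlarged,
the left side decreases); `htriv` from `mu_upper`, `aq_lower`; `hgood` from `good_bound K0`. Take `C` = the maximum of the constants and `1`. -/
theorem closing (hR : A.Rate) : ∃ R : ℝ, 1 ≤ R ∧ ∀ n, A.mu n ≤ R * E.aq n := by
  obtain ⟨C1, hC1, h1⟩ := A.theta_lower hR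
  obtain ⟨C2, K0, hC2, h2⟩ := E.aq_supermul
  obtain ⟨C3, hC3, h3⟩ := A.mu_upper
  obtain ⟨C4, hC4, h4⟩ := E.aq_lower
  obtain ⟨kρ, n1, C5, hK0, hC5, h5⟩ := A.good_bound K0
  have ha : ∀ n, 0 < E.aq n := fun n => lt_of_lt_of_le (Real.exp_pos _) (h4 n)
  refine closing_numeric E.al A.κ A.κ_pos A.mu E.aq A.lam A.C8b_mu_pos ha A.C8b_lam_pos
    (C1 + C2 + C3 + C4 + C5) K0 kρ n1 (by linarith) hK0 ?_ ?_ ?_ ?_ ?_
  · intro n
    obtain ⟨l, hl, h⟩ := E.exists_muQ_eq A.κ A.p2 n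
    exact ⟨l, hl, h, E.good_of_max hl h⟩
  · intro m
    refine le_trans ?_ (h1 m)
    have hs := Real.sqrt_nonneg (m : ℝ)
    apply mul_le_mul _ _ (Real.exp_pos _).le (inv_pos.2 (by linarith)).le
    · exact inv_anti₀ (by linarith) (by linarith)
    · apply Real.exp_le_exp.2
      nlinarith
  · intro K hK m hm
    refine le_trans ?_ (h2 K hK m hm)
    have hs : 0 ≤ Real.sqrt (K : ℝ) * Real.log ((K : ℝ) + 2) := by
      apply mul_nonneg (Real.sqrt_nonneg _)
      apply Real.log_nonneg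
      have : (0 : ℝ) ≤ K := Nat.cast_nonneg K
      linarith
    apply mul_le_mul_of_nonneg_right _ (ha K).le
    apply mul_le_mul_of_nonneg_right _ (ha m).le
    apply Real.exp_le_exp.2
    nlinarith
  · intro m
    have hm : (0 : ℝ) ≤ m := Nat.cast_nonneg m
    calc A.mu m ≤ Real.exp (C3 * ((m : ℝ) + 1)) := h3 m
      _ = Real.exp ((C3 + C4) * ((m : ℝ) + 1)) * Real.exp (-(C4 * ((m : ℝ) + 1))) := by
          rw [← Real.exp_add]; congr 1; ring
      _ ≤ Real.exp ((C1 + C2 + C3 + C4 + C5) * ((m : ℝ) + 1)) * E.aq m := by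
          apply mul_le_mul _ (h4 m) (Real.exp_pos _).le (Real.exp_pos _).le
          apply Real.exp_le_exp.2
          nlinarith
  · intro n hn hkn R hR1 hmu hgood
    refine (h5 n hn hkn R hR1 hmu hgood).trans ?_
    have hs := Real.sqrt_nonneg (1 + Real.log R)
    apply mul_le_mul_of_nonneg_right _ (ha _).le
    apply mul_le_mul _ _ (Real.exp_pos _).le (by linarith)
    · linarith
    · apply Real.exp_le_exp.2
      nlinarith

private theorem C8b_anti {n K : ℕ} {x : Rd d} {δ δ' ε : ℝ} (hδ : δ' ≤ δ)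
    (h : E.P.real {ω | Cr (E.hf 0 n ω) x (1 / 2 * dy K) (3 / 2 * dy K) <
      ENNReal.ofReal (δ * A.lam n)} ≤ ε) :
    E.P.real {ω | Cr (E.hf 0 n ω) x (1 / 2 * dy K) (3 / 2 * dy K) <
      ENNReal.ofReal (δ' * A.lam n)} ≤ ε := by
  refine le_trans (measureReal_mono ?_) h
  intro ω hω
  exact lt_of_lt_of_le hω (ENNReal.ofReal_le_ofReal
    (mul_le_mul_of_nonneg_right hδ (A.C8b_lam_pos n).le))

omit [NeZero d] in
private theorem C8b_Ann_sub {x : Rd d} {K : ℕ} {y : Rd d}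
    (hy : y ∈ Ann x (1 / 2 * dy K) (3 / 2 * dy K)) : y ∈ CBox (0 : Rd d) (‖x‖ + 3 / 2) := by
  intro i
  have h1 := hy.1 i
  have h2 := abs_le_norm x i
  have h3 : dy K ≤ 1 := pow_le_one₀ (by norm_num) (by norm_num)
  have h4 : |y i - (0 : Rd d) i| ≤ |y i - x i| + |x i| := by
    have : y i - (0 : Rd d) i = (y i - x i) + x i := by simp
    rw [this]
    exact abs_add_le _ _
  linarith

/-- for every single `n` -/
private theorem C8b_single {ε : ℝ} (hε : 0 < ε) (K : ℕ) (x : Rd d) (n : ℕ) :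
    ∃ δ : ℝ, 0 < δ ∧
    E.P.real {ω | Cr (E.hf 0 n ω) x (1 / 2 * dy K) (3 / 2 * dy K) <
      ENNReal.ofReal (δ * A.lam n)} ≤ ε := by
  obtain ⟨M, hM, h⟩ := E.abs_bound n (‖x‖ + 3 / 2) hε
  have hdy : 0 < dy K := pow_pos (by norm_num) K
  refine ⟨Real.exp (-M) * dy K / A.lam n, div_pos (mul_pos (Real.exp_pos _) hdy)
    (A.C8b_lam_pos n), le_trans (measureReal_mono ?_) h⟩
  intro ω hω
  by_contra hc
  simp only [mem_ofPred_eq, not_exists, not_and, not_lt] at hc
  have h1 : ∀ p ∈ Ann x (1 / 2 * dy K) (3 / 2 * dy K), -M ≤ E.hf 0 n ω p := by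
    intro p hp
    have := hc p (C8b_Ann_sub hp)
    exact (abs_le.1 this).1
  have h2 := Cr_pos (f := E.hf 0 n ω) (x := x) (r := 1 / 2 * dy K) (r' := 3 / 2 * dy K) (M := M)
    (by linarith) h1
  have e1 : Real.exp (-M) * dy K / A.lam n * A.lam n = Real.exp (-M) * dy K :=
    div_mul_cancel₀ _ (A.C8b_lam_pos n).ne'
  have e2 : 3 / 2 * dy K - 1 / 2 * dy K = dy K := by ring
  have h3 : Cr (E.hf 0 n ω) x (1 / 2 * dy K) (3 / 2 * dy K) <
      ENNReal.ofReal (Real.exp (-M) * dy K / A.lam n * A.lam n) := hω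
  rw [e1] at h3
  rw [e2] at h2
  exact absurd h3 (not_lt.2 h2)

private theorem C8b_finite {ε : ℝ} (hε : 0 < ε) (K : ℕ) (x : Rd d) (N : ℕ) :
    ∃ δ : ℝ, 0 < δ ∧ ∀ n < N,
    E.P.real {ω | Cr (E.hf 0 n ω) x (1 / 2 * dy K) (3 / 2 * dy K) <
      ENNReal.ofReal (δ * A.lam n)} ≤ ε := by
  induction N with
  | zero => exact ⟨1, one_pos, fun n hn => absurd hn (Nat.not_lt_zero _)⟩
  | succ N ih =>
    obtain ⟨δ1, hδ1, h1⟩ := ih
    obtain ⟨δ2, hδ2, h2⟩ := A.C8b_single hε K x N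
    refine ⟨min δ1 δ2, lt_min hδ1 hδ2, fun n hn => ?_⟩
    rcases Nat.lt_succ_iff_lt_or_eq.1 hn with h | rfl
    · exact A.C8b_anti (min_le_left _ _) (h1 n h)
    · exact A.C8b_anti (min_le_right _ _) h2

/-- **(MAIN)** Let `R` be from `closing`. `abs_bound K r (ε/2)` with `r` so large that `CBox x (3/2) ⊆ CBox 0 r` gives `M` with `P[∃ y ∈ CBox x (3/2), |ξh_{0,K}(y)| > M] ≤ ε/2`. `cross_low` with `ε/2`, `r = 1/2`, `r' = 3/2` gives `J, c`:
for `n ≥ K + J` the event `Cr(ξh_{K,n}; x, 2^{-K}/2, 3·2^{-K}/2) < c 2^{-K} a_{n-K-J}` has probability `≤ ε/2`. Off the two events `Cr(ξh_{0,n}) ≥ e^{-M} c 2^{-K} a_{n-K-J} ≥ e^{-M} c 2^{-K} μ_{n-K-J}/R ≥ δ μ_n ≥ δ λ*_n` by `mu_add_le (K+J)`.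
For the finitely many `n < K + J`: `Cr > 0` everywhere (`Cr_pos`, continuity), so `P[Cr < δ λ*_n] → 0` as `δ → 0` (continuity of the measure along `δ = 1/i`). Take the minimum of the `δ`'s. -/
theorem main_cross (hR : A.Rate) {ε : ℝ} (hε : 0 < ε) (K : ℕ) (x : Rd d) : ∃ δ : ℝ, 0 < δ ∧ ∀ n : ℕ,
    E.P.real {ω | Cr (E.hf 0 n ω) x (1 / 2 * dy K) (3 / 2 * dy K) < ENNReal.ofReal (δ * A.lam n)} ≤ ε := by
  obtain ⟨R, hR1, hRa⟩ := A.closing hR
  have hdy : 0 < dy K := pow_pos (by norm_num) K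
  obtain ⟨M, hM, hMP⟩ := E.abs_bound K (‖x‖ + 3 / 2) (half_pos hε)
  obtain ⟨J, c, hc, hcP⟩ := E.cross_low (half_pos hε) (r := 1 / 2) (r' := 3 / 2) (by norm_num)
    (by norm_num)
  obtain ⟨Cb, hCb, hCbm⟩ := A.mu_add_le (K + J)
  obtain ⟨δ2, hδ2, h2⟩ := A.C8b_finite hε K x (K + J)
  set δ1 : ℝ := Real.exp (-M) * (c * dy K) / (R * Cb) with hδ1
  have hδ1pos : 0 < δ1 := by positivity
  refine ⟨min δ1 δ2, lt_min hδ1pos hδ2, fun n => ?_⟩
  rcases lt_or_ge n (K + J) with hn | hn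
  · exact A.C8b_anti (min_le_right _ _) (h2 n hn)
  · apply A.C8b_anti (min_le_left _ _)
    obtain ⟨m, rfl⟩ : ∃ m, n = K + (m + J) := ⟨n - K - J, by omega⟩
    have hP2 := hcP K (m + J) (by omega) x
    rw [Nat.add_sub_cancel] at hP2
    have hsub : {ω | Cr (E.hf 0 (K + (m + J)) ω) x (1 / 2 * dy K) (3 / 2 * dy K) <
        ENNReal.ofReal (δ1 * A.lam (K + (m + J)))} ⊆
        {ω | ∃ y ∈ CBox (0 : Rd d) (‖x‖ + 3 / 2), M < |E.hf 0 K ω y|} ∪
        {ω | Cr (E.hf K (K + (m + J)) ω) x (dy K * (1 / 2)) (dy K * (3 / 2)) <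
          ENNReal.ofReal (c * (dy K * E.aq m))} := by
      intro ω hω
      by_contra hcon
      rw [mem_union, not_or] at hcon
      obtain ⟨hc1, hc2⟩ := hcon
      simp only [mem_ofPred_eq, not_exists, not_and, not_lt] at hc1 hc2
      have hml := MLip_Cr x (1 / 2 * dy K) (3 / 2 * dy K) (E.hf K (K + (m + J)) ω)
        (E.hf 0 (K + (m + J)) ω) M (by
          intro y hy
          have h1 := E.hf_add (Nat.zero_le K) (Nat.le_add_right K (m + J)) ω y
          rw [h1]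
          have h2 : E.hf K (K + (m + J)) ω y - (E.hf 0 K ω y + E.hf K (K + (m + J)) ω y) =
              -(E.hf 0 K ω y) := by ring
          rw [h2, abs_neg]
          exact hc1 y (C8b_Ann_sub hy))
      have e1 : dy K * (1 / 2) = 1 / 2 * dy K := mul_comm _ _
      have e2 : dy K * (3 / 2) = 3 / 2 * dy K := mul_comm _ _
      rw [e1, e2] at hc2
      have h3 : ENNReal.ofReal (c * (dy K * E.aq m)) ≤ ENNReal.ofReal (Real.exp M) *
          Cr (E.hf 0 (K + (m + J)) ω) x (1 / 2 * dy K) (3 / 2 * dy K) := hc2.trans hml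
      have hω' : Cr (E.hf 0 (K + (m + J)) ω) x (1 / 2 * dy K) (3 / 2 * dy K) <
        ENNReal.ofReal (δ1 * A.lam (K + (m + J))) := hω
      have h4 : ENNReal.ofReal (c * (dy K * E.aq m)) < ENNReal.ofReal (Real.exp M) *
          ENNReal.ofReal (δ1 * A.lam (K + (m + J))) := by
        refine lt_of_le_of_lt h3 ?_
        exact ENNReal.mul_lt_mul_right (by simp [Real.exp_pos]) ENNReal.ofReal_ne_top hω'
      rw [← ENNReal.ofReal_mul (Real.exp_pos M).le] at h4
      have hlam := A.C8b_lam_pos (K + (m + J))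
      have h5 : c * (dy K * E.aq m) < Real.exp M * (δ1 * A.lam (K + (m + J))) :=
        (ENNReal.ofReal_lt_ofReal_iff_of_nonneg (by
          have : 0 ≤ E.aq m := by
            have := hRa m
            have h0 := (A.C8b_mu_pos m).le
            nlinarith
          positivity)).1 h4
      have h6 : Real.exp M * (δ1 * A.lam (K + (m + J))) =
          c * dy K * (A.lam (K + (m + J)) / (R * Cb)) := by
        rw [hδ1]
        have : Real.exp M * Real.exp (-M) = 1 := by rw [← Real.exp_add]; simp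
        calc Real.exp M * (Real.exp (-M) * (c * dy K) / (R * Cb) * A.lam (K + (m + J)))
            = (Real.exp M * Real.exp (-M)) * (c * dy K * (A.lam (K + (m + J)) / (R * Cb))) := by
              ring
          _ = c * dy K * (A.lam (K + (m + J)) / (R * Cb)) := by rw [this, one_mul]
      have h7 : A.lam (K + (m + J)) ≤ R * Cb * E.aq m := by
        have g1 : A.lam (K + (m + J)) ≤ A.mu (K + (m + J)) := E.lamQ_le_muQ A.κ A.p2 _
        have g2 : A.mu (K + (m + J)) ≤ Cb * A.mu m := by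
          have := hCbm m
          have e : m + (K + J) = K + (m + J) := by omega
          rwa [e] at this
        have g3 := mul_le_mul_of_nonneg_left (hRa m) hCb.le
        linarith
      have h8 : A.lam (K + (m + J)) / (R * Cb) ≤ E.aq m := by
        rw [div_le_iff₀ (by positivity)]
        linarith
      rw [h6] at h5
      have h9 : c * dy K * (A.lam (K + (m + J)) / (R * Cb)) ≤ c * dy K * E.aq m :=
        mul_le_mul_of_nonneg_left h8 (by positivity)
      linarith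
    calc _ ≤ _ := measureReal_mono hsub
      _ ≤ _ := measureReal_union_le _ _
      _ ≤ ε / 2 + ε / 2 := add_le_add hMP hP2
      _ = ε := add_halves ε

end Par

end MP_d19698_pr
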