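import Pool.Agent.Lib.MP_d19698_pr.CubeDef

/-! # CubeA -/

open Finset

namespace MP_d19698_pr
variable {I : Type*} [Fintype I] [DecidableEq I]

private theorem cubeA_H {q y : ℝ} (hq0 : 0 ≤ q) (hq1 : q ≤ 1) (hy0 : 0 ≤ y) (hy1 : y ≤ 1) :
    2 * q * y ≤ (1 + y) ^ q - (1 - y) ^ q := by
  have hmono : MonotoneOn (fun t : ℝ => (1 + t) ^ q - (1 - t) ^ q - 2 * q * t) (Set.Icc 0 1) := by
    apply monotoneOn_of_deriv_nonneg (convex_Icc 0 1)
    · apply Continuous.continuousOn
      have h1 : Continuous fun t : ℝ => (1 + t) ^ q :=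
        (continuous_const.add continuous_id).rpow_const fun _ => Or.inr hq0
      have h2 : Continuous fun t : ℝ => (1 - t) ^ q :=
        (continuous_const.sub continuous_id).rpow_const fun _ => Or.inr hq0
      exact (h1.sub h2).sub (continuous_const.mul continuous_id)
    · intro t ht
      rw [interior_Icc] at ht
      have h1 : HasDerivAt (fun t : ℝ => (1 + t) ^ q) (1 * q * (1 + t) ^ (q - 1)) t :=
        ((hasDerivAt_id t).const_add 1).rpow_const (Or.inl (by simp only [id]; linarith [ht.1]))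
      have h2 : HasDerivAt (fun t : ℝ => (1 - t) ^ q) (-1 * q * (1 - t) ^ (q - 1)) t :=
        ((hasDerivAt_id t).const_sub 1).rpow_const (Or.inl (by simp only [id]; linarith [ht.2]))
      exact ((h1.sub h2).sub ((hasDerivAt_id t).const_mul (2 * q))).differentiableAt.differentiableWithinAt
    · intro t ht
      rw [interior_Icc] at ht
      have h1 : HasDerivAt (fun t : ℝ => (1 + t) ^ q) (1 * q * (1 + t) ^ (q - 1)) t :=
        ((hasDerivAt_id t).const_add 1).rpow_const (Or.inl (by simp only [id]; linarith [ht.1]))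
      have h2 : HasDerivAt (fun t : ℝ => (1 - t) ^ q) (-1 * q * (1 - t) ^ (q - 1)) t :=
        ((hasDerivAt_id t).const_sub 1).rpow_const (Or.inl (by simp only [id]; linarith [ht.2]))
      have h3 := (h1.sub h2).sub ((hasDerivAt_id t).const_mul (2 * q))
      have h4 : deriv (fun t : ℝ => (1 + t) ^ q - (1 - t) ^ q - 2 * q * t) t =
          1 * q * (1 + t) ^ (q - 1) - -1 * q * (1 - t) ^ (q - 1) - 2 * q * 1 := h3.deriv
      rw [h4]
      have ha : 0 < 1 + t := by linarith [ht.1]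
      have hb : 0 < 1 - t := by linarith [ht.2]
      have hA : 0 < (1 + t) ^ (q - 1) := Real.rpow_pos_of_pos ha _
      have hB : 0 < (1 - t) ^ (q - 1) := Real.rpow_pos_of_pos hb _
      have hAB : 1 ≤ (1 + t) ^ (q - 1) * (1 - t) ^ (q - 1) := by
        rw [← Real.mul_rpow ha.le hb.le]
        apply Real.one_le_rpow_of_pos_of_le_one_of_nonpos
        · exact mul_pos ha hb
        · nlinarith [ht.1]
        · linarith
      have hsum : 2 ≤ (1 + t) ^ (q - 1) + (1 - t) ^ (q - 1) := by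
        nlinarith [sq_nonneg ((1 + t) ^ (q - 1) - (1 - t) ^ (q - 1))]
      nlinarith [mul_nonneg hq0 (sub_nonneg.mpr hsum)]
  have := hmono (Set.left_mem_Icc.mpr zero_le_one) ⟨hy0, hy1⟩ hy0
  simp only [add_zero, Real.one_rpow, sub_zero, sub_self, mul_zero] at this
  linarith

private theorem cubeA_F {p y : ℝ} (hp1 : 1 ≤ p) (hp2 : p ≤ 2) (hy0 : 0 ≤ y) (hy1 : y ≤ 1) :
    1 + p * (p - 1) / 2 * y ^ 2 ≤ ((1 + y) ^ p + (1 - y) ^ p) / 2 := by
  have hmono : MonotoneOn (fun t : ℝ => ((1 + t) ^ p + (1 - t) ^ p) / 2 - p * (p - 1) / 2 * t ^ 2)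
      (Set.Icc 0 1) := by
    have hder : ∀ t ∈ Set.Ioo (0 : ℝ) 1,
        HasDerivAt (fun t : ℝ => ((1 + t) ^ p + (1 - t) ^ p) / 2 - p * (p - 1) / 2 * t ^ 2)
          ((1 * p * (1 + t) ^ (p - 1) + -1 * p * (1 - t) ^ (p - 1)) / 2 -
            p * (p - 1) / 2 * (((2 : ℕ) : ℝ) * t ^ (2 - 1))) t := by
      intro t ht
      have h1 : HasDerivAt (fun t : ℝ => (1 + t) ^ p) (1 * p * (1 + t) ^ (p - 1)) t :=
        ((hasDerivAt_id t).const_add 1).rpow_const (Or.inl (by simp only [id]; linarith [ht.1]))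
      have h2 : HasDerivAt (fun t : ℝ => (1 - t) ^ p) (-1 * p * (1 - t) ^ (p - 1)) t :=
        ((hasDerivAt_id t).const_sub 1).rpow_const (Or.inl (by simp only [id]; linarith [ht.2]))
      exact ((h1.add h2).div_const 2).sub ((hasDerivAt_pow 2 t).const_mul (p * (p - 1) / 2))
    apply monotoneOn_of_deriv_nonneg (convex_Icc 0 1)
    · apply Continuous.continuousOn
      have h1 : Continuous fun t : ℝ => (1 + t) ^ p :=
        (continuous_const.add continuous_id).rpow_const fun _ => Or.inr (by linarith)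
      have h2 : Continuous fun t : ℝ => (1 - t) ^ p :=
        (continuous_const.sub continuous_id).rpow_const fun _ => Or.inr (by linarith)
      exact ((h1.add h2).div_const 2).sub (continuous_const.mul (continuous_pow 2))
    · intro t ht
      rw [interior_Icc] at ht
      exact (hder t ht).differentiableAt.differentiableWithinAt
    · intro t ht
      rw [interior_Icc] at ht
      rw [(hder t ht).deriv]
      have h := cubeA_H (q := p - 1) (by linarith) (by linarith) ht.1.le ht.2.le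
      norm_num
      nlinarith
  have := hmono (Set.left_mem_Icc.mpr zero_le_one) ⟨hy0, hy1⟩ hy0
  simp only [add_zero, Real.one_rpow, sub_zero] at this
  norm_num at this
  linarith

private theorem cubeA_F' {p y : ℝ} (hp1 : 1 ≤ p) (hp2 : p ≤ 2) (hy : |y| ≤ 1) :
    1 + p * (p - 1) / 2 * y ^ 2 ≤ ((1 + y) ^ p + (1 - y) ^ p) / 2 := by
  rcases le_total 0 y with h | h
  · exact cubeA_F hp1 hp2 h (by rwa [abs_of_nonneg h] at hy)
  · have := cubeA_F hp1 hp2 (y := -y) (by linarith) (by rwa [abs_of_nonpos h] at hy)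
    have e : (1 : ℝ) - -y = 1 + y := by ring
    have e2 : (1 : ℝ) + -y = 1 - y := by ring
    rw [e, e2, neg_sq] at this
    linarith

/-- the one variable inequality -/
private theorem cubeA_one {ρ a b : ℝ} (h0 : 0 ≤ ρ) (h1 : ρ ≤ 1) (ha : 0 ≤ a) (hb : 0 ≤ b) :
    Real.sqrt (((a + b) / 2) ^ 2 + ρ * ((a - b) / 2) ^ 2) ≤
      ((a ^ (1 + ρ) + b ^ (1 + ρ)) / 2) ^ (1 / (1 + ρ)) := by
  set m := (a + b) / 2 with hm
  set u := (a - b) / 2 with hu
  have hp : 0 < 1 + ρ := by linarith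
  have ea : a = m + u := by rw [hm, hu]; ring
  have eb : b = m - u := by rw [hm, hu]; ring
  have hm0 : 0 ≤ m := by rw [hm]; linarith
  rcases hm0.eq_or_lt with hm0 | hm0
  · have ha0 : a = 0 := by linarith
    have hb0 : b = 0 := by linarith
    have hu0 : u = 0 := by rw [hu, ha0, hb0]; ring
    rw [← hm0, hu0]
    simp only [ne_eq, OfNat.ofNat_ne_zero, not_false_eq_true, zero_pow, mul_zero, add_zero,
      Real.sqrt_zero]
    exact Real.rpow_nonneg (by positivity) _
  · set y := u / m with hy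
    have hy1 : |y| ≤ 1 := by
      rw [hy, abs_div, abs_of_pos hm0, div_le_one hm0, abs_le]
      constructor <;> linarith
    have hF := cubeA_F' (p := 1 + ρ) (by linarith) (by linarith) hy1
    have hB : (1 + ρ * y ^ 2) ^ ((1 + ρ) / 2) ≤ 1 + (1 + ρ) / 2 * (ρ * y ^ 2) := by
      apply rpow_one_add_le_one_add_mul_self
      · nlinarith [sq_nonneg y]
      · linarith
      · linarith
    have e1 : a ^ (1 + ρ) = m ^ (1 + ρ) * (1 + y) ^ (1 + ρ) := by
      rw [← Real.mul_rpow hm0.le (by linarith [(abs_le.mp hy1).1])]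
      congr 1
      rw [ea, hy]; field_simp
    have e2 : b ^ (1 + ρ) = m ^ (1 + ρ) * (1 - y) ^ (1 + ρ) := by
      rw [← Real.mul_rpow hm0.le (by linarith [(abs_le.mp hy1).2])]
      congr 1
      rw [eb, hy]; field_simp
    have e3 : m ^ 2 + ρ * u ^ 2 = m ^ 2 * (1 + ρ * y ^ 2) := by
      rw [hy]; field_simp
    have hy2 : 0 ≤ 1 + ρ * y ^ 2 := by positivity
    have e4 : Real.sqrt (m ^ 2 + ρ * u ^ 2) = (m ^ (1 + ρ) * (1 + ρ * y ^ 2) ^ ((1 + ρ) / 2)) ^ (1 / (1 + ρ)) := by
      rw [e3, Real.sqrt_mul (sq_nonneg m), Real.sqrt_sq hm0.le,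
        Real.mul_rpow (Real.rpow_nonneg hm0.le _) (Real.rpow_nonneg hy2 _),
        ← Real.rpow_mul hm0.le, ← Real.rpow_mul hy2, Real.sqrt_eq_rpow]
      have f1 : (1 + ρ) * (1 / (1 + ρ)) = 1 := by field_simp
      have f2 : (1 + ρ) / 2 * (1 / (1 + ρ)) = 1 / 2 := by field_simp
      rw [f1, f2, Real.rpow_one]
    rw [e4, e1, e2]
    apply Real.rpow_le_rpow
    · exact mul_nonneg (Real.rpow_nonneg hm0.le _) (Real.rpow_nonneg hy2 _)
    · have hmp : 0 ≤ m ^ (1 + ρ) := Real.rpow_nonneg hm0.le _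
      have : (1 + ρ * y ^ 2) ^ ((1 + ρ) / 2) ≤ ((1 + y) ^ (1 + ρ) + (1 - y) ^ (1 + ρ)) / 2 := by
        refine hB.trans (le_trans (le_of_eq ?_) hF)
        ring
      calc m ^ (1 + ρ) * (1 + ρ * y ^ 2) ^ ((1 + ρ) / 2)
          ≤ m ^ (1 + ρ) * (((1 + y) ^ (1 + ρ) + (1 - y) ^ (1 + ρ)) / 2) :=
            mul_le_mul_of_nonneg_left this hmp
        _ = _ := by ring
    · positivity

/-- **two-point inequality**: for `0 ≤ ρ ≤ 1`, `p = 1+ρ` and `a,b,c,e ≥ 0`,
`(1+ρ)/4 (a c + b e) + (1-ρ)/4 (a e + b c) ≤ ((a^p+b^p)/2)^{1/p} ((c^p+e^p)/2)^{1/p}`.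
Proof. With `a = m+u, b = m-u, c = n+v, e = n-v` the left side is `m n + ρ u v ≤ √(m²+ρu²) √(n²+ρv²)`, and `√(m²+ρu²) ≤ ((a^p+b^p)/2)^{1/p}`:
for `m > 0`, `y = |u|/m ∈ [0,1]`, `F(y) = ((1+y)^p+(1-y)^p)/2` has `F(0)=1, F'(0)=0, F'' = p(p-1)((1+y)^{p-2}+(1-y)^{p-2})/2 ≥ p(p-1)` on `[0,1)`, so
`F(y) ≥ 1 + p(p-1)y²/2 = 1 + (p/2) ρ y² ≥ (1+ρy²)^{p/2}` (Bernoulli, `p/2 ≤ 1`). -/
theorem two_point {ρ a b c e : ℝ} (h0 : 0 ≤ ρ) (h1 : ρ ≤ 1) (ha : 0 ≤ a) (hb : 0 ≤ b) (hc : 0 ≤ c) (he : 0 ≤ e) :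
    (1 + ρ) / 4 * (a * c + b * e) + (1 - ρ) / 4 * (a * e + b * c) ≤
      ((a ^ (1 + ρ) + b ^ (1 + ρ)) / 2) ^ (1 / (1 + ρ)) * ((c ^ (1 + ρ) + e ^ (1 + ρ)) / 2) ^ (1 / (1 + ρ)) := by
  refine le_trans ?_ (mul_le_mul (cubeA_one h0 h1 ha hb) (cubeA_one h0 h1 hc he)
    (Real.sqrt_nonneg _) (Real.rpow_nonneg (by positivity) _))
  rw [← Real.sqrt_mul (by positivity)]
  apply Real.le_sqrt_of_sq_le
  have key : ((a + b) / 2 * ((c + e) / 2) + ρ * ((a - b) / 2 * ((c - e) / 2))) ^ 2 ≤
      (((a + b) / 2) ^ 2 + ρ * ((a - b) / 2) ^ 2) * (((c + e) / 2) ^ 2 + ρ * ((c - e) / 2) ^ 2) := by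
    nlinarith [mul_nonneg h0 (sq_nonneg ((a + b) / 2 * ((c - e) / 2) - (a - b) / 2 * ((c + e) / 2)))]
  refine le_trans (le_of_eq ?_) key
  ring

private theorem cubeA_cPair_option {α : Type*} [Fintype α] [DecidableEq α] [DecidableEq (Option α)] (ρ : ℝ)
    (f g : (Option α → Bool) → ℝ) :
    cPair ρ f g = ∑ b : Bool, ∑ b' : Bool, (1 + ρ * sg b * sg b') / 4 *
      cPair ρ (fun x : α → Bool => f (fun o => o.elim b x)) (fun x : α → Bool => g (fun o => o.elim b' x)) := by
  have key : ∀ F : (Option α → Bool) → ℝ, ∑ x, F x = ∑ b : Bool, ∑ x : α → Bool, F (fun o => o.elim b x) := by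
    intro F
    rw [← Fintype.sum_prod_type']
    symm
    apply Fintype.sum_equiv
      ({ toFun := fun q o => o.elim q.1 q.2
         invFun := fun h => (h none, fun a => h (some a))
         left_inv := fun q => by simp
         right_inv := fun h => by funext o; cases o <;> rfl } : Bool × (α → Bool) ≃ (Option α → Bool))
    intro q
    rfl
  unfold cPair
  rw [key]
  refine Finset.sum_congr rfl fun b _ => ?_
  have : ∀ x : α → Bool, (∑ y : Option α → Bool, f (fun o => o.elim b x) * g y *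
      ∏ i, ((1 + ρ * sg ((fun o : Option α => o.elim b x) i) * sg (y i)) / 4)) =
      ∑ b' : Bool, ∑ y : α → Bool, f (fun o => o.elim b x) * g (fun o => o.elim b' y) *
        ((1 + ρ * sg b * sg b') / 4 * ∏ i, ((1 + ρ * sg (x i) * sg (y i)) / 4)) := by
    intro x
    rw [key]
    refine Finset.sum_congr rfl fun b' _ => Finset.sum_congr rfl fun y _ => ?_
    rw [Fintype.prod_option]
    rfl
  simp_rw [this]
  rw [Finset.sum_comm]
  refine Finset.sum_congr rfl fun b' _ => ?_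
  rw [Finset.mul_sum]
  refine Finset.sum_congr rfl fun x _ => ?_
  rw [Finset.mul_sum]
  refine Finset.sum_congr rfl fun y _ => ?_
  ring

private theorem cubeA_cE_option {α : Type*} [Fintype α] [DecidableEq α] [DecidableEq (Option α)] (F : (Option α → Bool) → ℝ) :
    cE F = (cE (fun x : α → Bool => F (fun o => o.elim true x)) +
      cE (fun x : α → Bool => F (fun o => o.elim false x))) / 2 := by
  have key : ∀ F : (Option α → Bool) → ℝ, ∑ x, F x = ∑ b : Bool, ∑ x : α → Bool, F (fun o => o.elim b x) := by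
    intro F
    rw [← Fintype.sum_prod_type']
    symm
    apply Fintype.sum_equiv
      ({ toFun := fun q o => o.elim q.1 q.2
         invFun := fun h => (h none, fun a => h (some a))
         left_inv := fun q => by simp
         right_inv := fun h => by funext o; cases o <;> rfl } : Bool × (α → Bool) ≃ (Option α → Bool))
    intro q
    rfl
  unfold cE
  rw [key, Fintype.card_option, Fintype.sum_bool, pow_succ]
  field_simp

private theorem cubeA_cE_nonneg {F : (I → Bool) → ℝ} (hF : ∀ x, 0 ≤ F x) : 0 ≤ cE F := by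
  unfold cE
  exact div_nonneg (Finset.sum_nonneg fun x _ => hF x) (by positivity)

private theorem cubeA_all (ρ : ℝ) (h0 : 0 ≤ ρ) (h1 : ρ ≤ 1) : ∀ (I : Type _) [Fintype I],
    ∀ (_ : DecidableEq I) (f g : (I → Bool) → ℝ), (∀ x, 0 ≤ f x) → (∀ x, 0 ≤ g x) →
    cPair ρ f g ≤ (cE fun x => f x ^ (1 + ρ)) ^ (1 / (1 + ρ)) * (cE fun x => g x ^ (1 + ρ)) ^ (1 / (1 + ρ)) := by
  have hp : 0 < 1 + ρ := by linarith
  apply Fintype.induction_empty_option
  · intro α β _ e ih _ f g hf hg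
    classical
    let _ : Fintype α := Fintype.ofEquiv β e.symm
    have key : ∀ F : (β → Bool) → ℝ, ∑ x, F x = ∑ x : α → Bool, F (fun b => x (e.symm b)) := by
      intro F
      symm
      apply Fintype.sum_equiv (Equiv.arrowCongr e (Equiv.refl Bool))
      intro x
      rfl
    have hcard : Fintype.card β = Fintype.card α := (Fintype.card_congr e).symm
    have h := ih (Classical.decEq α) (fun x => f (fun b => x (e.symm b))) (fun x => g (fun b => x (e.symm b)))
      (fun x => hf _) (fun x => hg _)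
    have e1 : ∀ F : (β → Bool) → ℝ, cE F = cE (fun x : α → Bool => F (fun b => x (e.symm b))) := by
      intro F
      unfold cE
      rw [key, hcard]
    have e2 : cPair ρ f g = cPair ρ (fun x : α → Bool => f (fun b => x (e.symm b)))
        (fun x : α → Bool => g (fun b => x (e.symm b))) := by
      unfold cPair
      rw [key]
      simp_rw [key]
      congr! 6 with x _ y _
      apply Fintype.prod_equiv e.symm
      intro b
      rfl
    rw [e1, e1, e2]
    convert h
  · intro _ f g hf hg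
    unfold cPair cE
    have h1 : (∑ x : PEmpty → Bool, ∑ y : PEmpty → Bool, f x * g y *
        ∏ i, ((1 + ρ * sg (x i) * sg (y i)) / 4)) = f default * g default := by
      rw [Fintype.sum_unique, Fintype.sum_unique, Fintype.prod_empty, mul_one]
      congr 1 <;> exact congrArg _ (Subsingleton.elim _ _)
    rw [h1]
    have h2 : ∀ F : (PEmpty → Bool) → ℝ, (∑ x, F x) / 2 ^ Fintype.card PEmpty = F default := by
      intro F
      rw [Fintype.sum_unique, Fintype.card_pempty, pow_zero, div_one]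
      exact congrArg _ (Subsingleton.elim _ _)
    rw [h2, h2, ← Real.rpow_mul (hf _), ← Real.rpow_mul (hg _)]
    have f1 : (1 + ρ) * (1 / (1 + ρ)) = 1 := by field_simp
    rw [f1, Real.rpow_one, Real.rpow_one]
  · intro α _ ih _ f g hf hg
    classical
    rw [cubeA_cPair_option, cubeA_cE_option, cubeA_cE_option]
    set A : Bool → ℝ := fun b => (cE fun x : α → Bool => f (fun o => o.elim b x) ^ (1 + ρ)) ^ (1 / (1 + ρ)) with hA
    set C : Bool → ℝ := fun b => (cE fun x : α → Bool => g (fun o => o.elim b x) ^ (1 + ρ)) ^ (1 / (1 + ρ)) with hC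
    have hAp : ∀ b, (cE fun x : α → Bool => f (fun o => o.elim b x) ^ (1 + ρ)) = A b ^ (1 + ρ) := by
      intro b
      rw [hA]
      simp only
      rw [← Real.rpow_mul (cubeA_cE_nonneg fun x => Real.rpow_nonneg (hf _) _)]
      have f1 : (1 / (1 + ρ)) * (1 + ρ) = 1 := by field_simp
      rw [f1, Real.rpow_one]
    have hCp : ∀ b, (cE fun x : α → Bool => g (fun o => o.elim b x) ^ (1 + ρ)) = C b ^ (1 + ρ) := by
      intro b
      rw [hC]
      simp only
      rw [← Real.rpow_mul (cubeA_cE_nonneg fun x => Real.rpow_nonneg (hg _) _)]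
      have f1 : (1 / (1 + ρ)) * (1 + ρ) = 1 := by field_simp
      rw [f1, Real.rpow_one]
    have hA0 : ∀ b, 0 ≤ A b := fun b => Real.rpow_nonneg (cubeA_cE_nonneg fun x => Real.rpow_nonneg (hf _) _) _
    have hC0 : ∀ b, 0 ≤ C b := fun b => Real.rpow_nonneg (cubeA_cE_nonneg fun x => Real.rpow_nonneg (hg _) _) _
    have h2 := two_point h0 h1 (hA0 true) (hA0 false) (hC0 true) (hC0 false)
    have hb : ∀ b b', cPair ρ (fun x : α → Bool => f (fun o => o.elim b x))
        (fun x : α → Bool => g (fun o => o.elim b' x)) ≤ A b * C b' := fun b b' =>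
      ih _ _ _ (fun x => hf _) (fun x => hg _)
    rw [hAp, hAp, hCp, hCp]
    refine le_trans ?_ h2
    rw [Fintype.sum_bool, Fintype.sum_bool, Fintype.sum_bool]
    simp only [sg, if_true, if_false, Bool.false_eq_true]
    have b1 := mul_le_mul_of_nonneg_left (hb true true) (show 0 ≤ (1 + ρ) / 4 by linarith)
    have b2 := mul_le_mul_of_nonneg_left (hb false false) (show 0 ≤ (1 + ρ) / 4 by linarith)
    have b3 := mul_le_mul_of_nonneg_left (hb true false) (show 0 ≤ (1 - ρ) / 4 by linarith)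
    have b4 := mul_le_mul_of_nonneg_left (hb false true) (show 0 ≤ (1 - ρ) / 4 by linarith)
    have e1 : (1 + ρ * 1 * 1) / 4 = (1 + ρ) / 4 := by ring
    have e2 : (1 + ρ * 1 * -1) / 4 = (1 - ρ) / 4 := by ring
    have e3 : (1 + ρ * -1 * 1) / 4 = (1 - ρ) / 4 := by ring
    have e4 : (1 + ρ * -1 * -1) / 4 = (1 + ρ) / 4 := by ring
    rw [e1, e2, e3, e4]
    linarith

/-- **hypercontractivity**, bilinear form; induction over the coordinates with `two_point`. -/
theorem cPair_le {ρ : ℝ} (h0 : 0 ≤ ρ) (h1 : ρ ≤ 1) (f g : (I → Bool) → ℝ) (hf : ∀ x, 0 ≤ f x) (hg : ∀ x, 0 ≤ g x) :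
    cPair ρ f g ≤ (cE fun x => f x ^ (1 + ρ)) ^ (1 / (1 + ρ)) * (cE fun x => g x ^ (1 + ρ)) ^ (1 / (1 + ρ)) :=
  cubeA_all ρ h0 h1 I inferInstance f g hf hg


end MP_d19698_pr
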