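import Pool.Agent.Lib.MP_d19698_pr.CubeA

/-! # CubeB -/

open Finset

namespace MP_d19698_pr
variable {I : Type*} [Fintype I] [DecidableEq I]

/-- symmetrisation of a sum over the cube in one coordinate -/
private theorem cubeB_sum (i : I) (F : (I → Bool) → ℝ) :
    ∑ x, F x = (∑ x, (F (Function.update x i true) + F (Function.update x i false))) / 2 := by
  have hflip : ∑ x : I → Bool, F x = ∑ x : I → Bool, F (Function.update x i (!(x i))) := by
    symm
    apply Fintype.sum_equiv
      ({ toFun := fun x => Function.update x i (!(x i))
         invFun := fun x => Function.update x i (!(x i))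
         left_inv := fun x => by
          funext j
          by_cases h : j = i
          · subst h; simp
          · simp [Function.update_of_ne h]
         right_inv := fun x => by
          funext j
          by_cases h : j = i
          · subst h; simp
          · simp [Function.update_of_ne h] } : (I → Bool) ≃ (I → Bool))
    intro x
    rfl
  have h2 : ∑ x : I → Bool, (F (Function.update x i true) + F (Function.update x i false)) =
      ∑ x : I → Bool, (F x + F (Function.update x i (!(x i)))) := by
    refine Finset.sum_congr rfl fun x _ => ?_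
    cases hx : x i
    · have e : Function.update x i false = x := by rw [← hx]; exact Function.update_eq_self i x
      rw [e, Bool.not_false]
      ring
    · have e : Function.update x i true = x := by rw [← hx]; exact Function.update_eq_self i x
      rw [e, Bool.not_true]
  rw [h2, Finset.sum_add_distrib, ← hflip]
  ring

private theorem cubeB_sum2 (i : I) (G : (I → Bool) → (I → Bool) → ℝ) :
    ∑ x, ∑ y, G x y = (∑ x, ∑ y,
      ((G (Function.update x i true) (Function.update y i true) +
        G (Function.update x i true) (Function.update y i false)) +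
      (G (Function.update x i false) (Function.update y i true) +
        G (Function.update x i false) (Function.update y i false)))) / 4 := by
  rw [cubeB_sum i (fun x => ∑ y, G x y)]
  have : ∀ x : I → Bool, (∑ y, G (Function.update x i true) y + ∑ y, G (Function.update x i false) y) =
      (∑ y, ((G (Function.update x i true) (Function.update y i true) +
        G (Function.update x i true) (Function.update y i false)) +
      (G (Function.update x i false) (Function.update y i true) +
        G (Function.update x i false) (Function.update y i false)))) / 2 := by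
    intro x
    rw [cubeB_sum i (fun y => G (Function.update x i true) y),
      cubeB_sum i (fun y => G (Function.update x i false) y), ← add_div, ← Finset.sum_add_distrib]
  simp_rw [this]
  rw [← Finset.sum_div]
  ring

omit [Fintype I] in
private theorem cubeB_cD_update (i : I) (f : (I → Bool) → ℝ) (x : I → Bool) (b : Bool) :
    cD i f (Function.update x i b) = cD i f x := by
  unfold cD
  simp only [Function.update_idem]

private theorem cubeB_prod (i : I) (ρ : ℝ) (x y : I → Bool) (b b' : Bool) :
    ∏ j ∈ Finset.univ.erase i, ((1 + ρ * sg (Function.update x i b j) * sg (Function.update y i b' j)) / 4) =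
      ∏ j ∈ Finset.univ.erase i, ((1 + ρ * sg (x j) * sg (y j)) / 4) := by
  refine Finset.prod_congr rfl fun j hj => ?_
  rw [Function.update_of_ne (Finset.ne_of_mem_erase hj), Function.update_of_ne (Finset.ne_of_mem_erase hj)]

/-- the term of the coordinate `i` -/
private theorem cubeB_term (i : I) (f : (I → Bool) → ℝ) (ρ : ℝ) :
    ∑ x : I → Bool, ∑ y : I → Bool, f x * f y * ((∏ j ∈ Finset.univ.erase i, ((1 + ρ * sg (x j) * sg (y j)) / 4)) *
      (sg (x i) * sg (y i) / 4)) = cPair ρ (cD i f) (cD i f) := by
  unfold cPair
  rw [cubeB_sum2 i, cubeB_sum2 i (fun x y => cD i f x * cD i f y * ∏ j, ((1 + ρ * sg (x j) * sg (y j)) / 4))]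
  congr 1
  refine Finset.sum_congr rfl fun x _ => Finset.sum_congr rfl fun y _ => ?_
  simp only [← Finset.prod_erase_mul _ _ (Finset.mem_univ i), cubeB_prod, cubeB_cD_update,
    Function.update_self]
  simp only [cD, sg, if_true, if_false, Bool.false_eq_true]
  ring

/-- the derivative in `ρ` of `cPair ρ f f` is `∑_i cPair ρ (cD i f) (cD i f)`. (Product rule; in the `i`-th term sum over `x i, y i` first; `cD i f` does not
depend on coordinate `i`, for which the weights sum to `1`.) -/
theorem hasDerivAt_cPair (f : (I → Bool) → ℝ) (ρ : ℝ) :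
    HasDerivAt (fun r => cPair r f f) (∑ i, cPair ρ (cD i f) (cD i f)) ρ := by
  have h1 : ∀ x y : I → Bool, HasDerivAt (fun r : ℝ => f x * f y * ∏ i, ((1 + r * sg (x i) * sg (y i)) / 4))
      (f x * f y * ∑ i, (∏ j ∈ Finset.univ.erase i, ((1 + ρ * sg (x j) * sg (y j)) / 4)) *
        (sg (x i) * sg (y i) / 4)) ρ := by
    intro x y
    apply HasDerivAt.const_mul
    have h2 : ∀ i ∈ (Finset.univ : Finset I), HasDerivAt (fun r : ℝ => (1 + r * sg (x i) * sg (y i)) / 4)
        (sg (x i) * sg (y i) / 4) ρ := by
      intro i _
      apply HasDerivAt.div_const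
      have := (((hasDerivAt_id ρ).mul_const (sg (x i))).mul_const (sg (y i))).const_add 1
      simpa using this
    have h3 := HasDerivAt.fun_finsetProd h2
    simpa only [smul_eq_mul] using h3
  have h2 : HasDerivAt (fun r : ℝ => ∑ x : I → Bool, ∑ y : I → Bool, f x * f y * ∏ i, ((1 + r * sg (x i) * sg (y i)) / 4))
      (∑ x : I → Bool, ∑ y : I → Bool, f x * f y *
        ∑ i, (∏ j ∈ Finset.univ.erase i, ((1 + ρ * sg (x j) * sg (y j)) / 4)) *
        (sg (x i) * sg (y i) / 4)) ρ :=
    HasDerivAt.fun_sum fun x _ => HasDerivAt.fun_sum fun y _ => h1 x y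
  have e : (∑ i, cPair ρ (cD i f) (cD i f)) = (∑ x : I → Bool, ∑ y : I → Bool, f x * f y *
        ∑ i, (∏ j ∈ Finset.univ.erase i, ((1 + ρ * sg (x j) * sg (y j)) / 4)) *
        (sg (x i) * sg (y i) / 4)) := by
    simp_rw [← cubeB_term, Finset.mul_sum]
    rw [Finset.sum_comm]
    refine Finset.sum_congr rfl fun x _ => ?_
    rw [Finset.sum_comm]
  rw [e]
  exact h2

theorem cPair_one (f : (I → Bool) → ℝ) : cPair 1 f f = cE fun x => f x ^ 2 := by
  unfold cPair cE
  rw [Finset.sum_div]
  refine Finset.sum_congr rfl fun x _ => ?_
  rw [Finset.sum_eq_single x]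
  · have : ∀ i, (1 + 1 * sg (x i) * sg (x i)) / 4 = (1 / 2 : ℝ) := by
      intro i
      cases x i <;> norm_num [sg]
    simp_rw [this]
    rw [Finset.prod_const, Finset.card_univ, div_pow, one_pow]
    ring
  · intro y _ hy
    obtain ⟨i, hi⟩ := Function.ne_iff.mp hy
    have : ∏ i, ((1 + 1 * sg (x i) * sg (y i)) / 4) = 0 := by
      apply Finset.prod_eq_zero (Finset.mem_univ i)
      cases hx : x i <;> cases hy' : y i <;> simp_all [sg]
    rw [this, mul_zero]
  · intro h
    exact absurd (Finset.mem_univ x) h

theorem cPair_zero (f : (I → Bool) → ℝ) : cPair 0 f f = (cE f) ^ 2 := by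
  unfold cPair cE
  simp only [zero_mul, add_zero, Finset.prod_const, Finset.card_univ]
  have e : ((∑ x, f x) / 2 ^ Fintype.card I) ^ 2 = ∑ x, ∑ y, f x * f y * (1 / 4) ^ Fintype.card I := by
    have e4 : ((2 : ℝ) ^ Fintype.card I) ^ 2 = 4 ^ Fintype.card I := by
      rw [← pow_mul, mul_comm (Fintype.card I) 2, pow_mul]
      norm_num
    simp_rw [← Finset.sum_mul]
    rw [← Finset.sum_mul_sum, div_pow, e4, one_div, inv_pow]
    ring
  rw [e]


end MP_d19698_pr
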