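import Mathlib

/-!
# D: the cube inequality (hypercontractive `L¹`-`L²` variance bound on `{0,1}^I`)
-/

open Finset

namespace MP_d19698_pr

variable {I : Type*} [Fintype I] [DecidableEq I]

/-- uniform average over the cube -/
noncomputable def cE (f : (I → Bool) → ℝ) : ℝ := (∑ x, f x) / 2 ^ Fintype.card I

/-- half of the discrete derivative -/
noncomputable def cD (i : I) (f : (I → Bool) → ℝ) (x : I → Bool) : ℝ :=
  (f (Function.update x i true) - f (Function.update x i false)) / 2

/-- variance -/
noncomputable def cVar (f : (I → Bool) → ℝ) : ℝ := cE (fun x => (f x - cE f) ^ 2)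

/-- `+1` or `-1` -/
def sg (b : Bool) : ℝ := if b then 1 else -1

/-- expectation over `ρ`-correlated pairs -/
noncomputable def cPair (ρ : ℝ) (f g : (I → Bool) → ℝ) : ℝ :=
  ∑ x, ∑ y, f x * g y * ∏ i, ((1 + ρ * sg (x i) * sg (y i)) / 4)


end MP_d19698_pr
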