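import Pool.Agent.Lib.MP_d19698_pr.Defs

/-!
# Curves, weighted lengths, the extended-real-valued metric `D f A B U`, annulus crossings, spheres
-/

open MeasureTheory ProbabilityTheory Filter Topology Set
open scoped ENNReal NNReal

namespace MP_d19698_pr

variable {d : ℕ}

/-- closed box of radius `r` (sup norm). -/
def CBox (x : Rd d) (r : ℝ) : Set (Rd d) := {y | ∀ i, |y i - x i| ≤ r}

/-- boundary of the box. -/
def SBox (x : Rd d) (r : ℝ) : Set (Rd d) := CBox x r \ Box x r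

/-- closed annulus. -/
def Ann (x : Rd d) (r r' : ℝ) : Set (Rd d) := CBox x r' \ Box x r

/-- A piecewise `C¹` curve on a compact interval. -/
structure Curve (d : ℕ) where
  fn : ℝ → Rd d
  a : ℝ
  b : ℝ
  hab : a ≤ b
  pc1 : PC1On fn a b

namespace Curve

variable (c : Curve d)

/-- starting point -/
def src : Rd d := c.fn c.a
/-- end point -/
def tgt : Rd d := c.fn c.b
/-- image -/
def img : Set (Rd d) := c.fn '' Icc c.a c.b

/-- The `e^f`-length of the part of the curve inside `S`. -/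
noncomputable def len (f : Rd d → ℝ) (S : Set (Rd d)) : ℝ≥0∞ :=
  ∫⁻ t in Icc c.a c.b ∩ c.fn ⁻¹' S, ENNReal.ofReal (Real.exp (f (c.fn t))) * ‖deriv c.fn t‖ₑ

end Curve

/-- `D f A B U`: infimum of the `e^f`-length over the curves from `A` to `B` inside `U`. -/
noncomputable def D (f : Rd d → ℝ) (A B U : Set (Rd d)) : ℝ≥0∞ :=
  ⨅ (c : Curve d) (_ : c.src ∈ A) (_ : c.tgt ∈ B) (_ : c.img ⊆ U), c.len f univ

/-- crossing distance of the annulus `r ≤ |y-x| ≤ r'`. -/
noncomputable def Cr (f : Rd d → ℝ) (x : Rd d) (r r' : ℝ) : ℝ≥0∞ :=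
  D f (SBox x r) (SBox x r') (Ann x r r')

/-- `F` is multiplicatively Lipschitz (constant `1`) for the sup norm on `K`. -/
def MLip (K : Set (Rd d)) (F : (Rd d → ℝ) → ℝ≥0∞) : Prop :=
  ∀ (f g : Rd d → ℝ) (ε : ℝ), (∀ x ∈ K, |f x - g x| ≤ ε) → F f ≤ ENNReal.ofReal (Real.exp ε) * F g

/-- dyadic number `2^{-l}`. -/
noncomputable def dy (l : ℕ) : ℝ := (1 / 2 : ℝ) ^ l

/-- the lattice point `2^{-l} v`. -/
noncomputable def latt (l : ℕ) (v : Fin d → ℤ) : Rd d := WithLp.toLp 2 fun i => dy l * (v i : ℝ)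

end MP_d19698_pr
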