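import Mathlib

/-!
# MP_d19698_pr: definitions used in the final statement

`Rd d` is `ℝ^d`, `Box x r = x + (-r,r)^d`, `PC1On` is piecewise `C¹`, `expDist ξ h U z w` is the least
`e^{ξ h}`-length of a path from `z` to `w` inside `U`, `kern 𝔎 n x` is the kernel of `h_n(x)` against the space-time white noise.
-/

open MeasureTheory ProbabilityTheory Filter Topology Set
open scoped ENNReal NNReal

namespace MP_d19698_pr

/-- `ℝ^d` with the Euclidean norm. -/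
abbrev Rd (d : ℕ) := EuclideanSpace ℝ (Fin d)

variable {d : ℕ}

/-- `B_r(x) = x + (-r,r)^d`. -/
def Box (x : Rd d) (r : ℝ) : Set (Rd d) := {y | ∀ i, |y i - x i| < r}

/-- The unit vector `e_{i+1}` (so `ee 0 = e_1`). -/
noncomputable def ee (i : Fin d) : Rd d := EuclideanSpace.single i (1 : ℝ)

/-- `γ` is piecewise `C¹` on `[a,b]`: there is a finite subdivision `a = t_0 ≤ ... ≤ t_m = b` such that
`γ` is `C¹` on every closed interval `[t_i, t_{i+1}]`. -/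
def PC1On (γ : ℝ → Rd d) (a b : ℝ) : Prop :=
  ∃ (m : ℕ) (t : ℕ → ℝ), Monotone t ∧ t 0 = a ∧ t m = b ∧
    ∀ i < m, ContDiffOn ℝ 1 γ (Icc (t i) (t (i + 1)))

/-- The length `∫_0^1 e^{ξ h(P(t))} |P'(t)| dt`. -/
noncomputable def pathLen (ξ : ℝ) (h : Rd d → ℝ) (P : ℝ → Rd d) : ℝ :=
  ∫ t in (0 : ℝ)..1, Real.exp (ξ * h (P t)) * ‖deriv P t‖

/-- `D(z,w;U)`: the infimum of `∫_0^1 e^{ξ h(P(t))} |P'(t)| dt` over the piecewise `C¹` paths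
`P : [0,1] → U` from `z` to `w`. -/
noncomputable def expDist (ξ : ℝ) (h : Rd d → ℝ) (U : Set (Rd d)) (z w : Rd d) : ℝ :=
  sInf {L | ∃ P : ℝ → Rd d, PC1On P 0 1 ∧ P 0 = z ∧ P 1 = w ∧
    (∀ t ∈ Icc (0 : ℝ) 1, P t ∈ U) ∧ L = pathLen ξ h P}

/-- Space-time measure on `ℝ^d × (0,∞)`. -/
noncomputable def stVol (d : ℕ) : Measure (Rd d × ℝ) :=
  (volume : Measure (Rd d × ℝ)).restrict {p | 0 < p.2}

/-- The kernel `(y,t) ↦ 𝔎((y-x)/t) t^{-(d+1)/2} 1_{2^{-n} < t ≤ 1}`. -/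
noncomputable def kern (𝔎 : Rd d → ℝ) (n : ℕ) (x : Rd d) (p : Rd d × ℝ) : ℝ :=
  if (1 / 2 : ℝ) ^ n < p.2 ∧ p.2 ≤ 1 then 𝔎 (p.2⁻¹ • (p.1 - x)) * p.2 ^ (-((d : ℝ) + 1) / 2) else 0

/-- The hypotheses on `𝔎`: smooth, radially symmetric, nonnegative, supported in `B_{r0}(0)`, `∫ 𝔎² = 1`. -/
structure IsKernel {d : ℕ} (𝔎 : Rd d → ℝ) (r0 : ℝ) : Prop where
  r0_pos : 0 < r0
  smooth : ContDiff ℝ (⊤ : ℕ∞) 𝔎
  radial : ∀ x y, ‖x‖ = ‖y‖ → 𝔎 x = 𝔎 y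
  nonneg : ∀ x, 0 ≤ 𝔎 x
  supp : Function.support 𝔎 ⊆ Box 0 r0
  norm : ∫ x, 𝔎 x ^ 2 = 1

/-- `W` is a white noise on `ℝ^d × (0,∞)`: a centred Gaussian process indexed by the square integrable functions
`f` on `ℝ^d × (0,∞)` (`W f = ∫ f dW`) with covariance `E[W(f) W(g)] = ∫ f g`. -/
structure IsWhiteNoise {Ω : Type*} [MeasurableSpace Ω] (P : Measure Ω) (W : (Rd d × ℝ → ℝ) → Ω → ℝ) : Prop where
  gauss : IsGaussianProcess (fun (f : {f : Rd d × ℝ → ℝ // MemLp f 2 (stVol d)}) ω => W f ω) P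
  mean : ∀ f, MemLp f 2 (stVol d) → ∫ ω, W f ω ∂P = 0
  cov : ∀ f g, MemLp f 2 (stVol d) → MemLp g 2 (stVol d) → ∫ ω, W f ω * W g ω ∂P = ∫ p, f p * g p ∂(stVol d)

/-- `h` is (a smooth modification of) the family of fields of the problem: for `n ≥ 1` every `h n ω` is smooth,
every `h n · x` is a random variable and it is almost surely the white noise integral of `kern 𝔎 n x`. -/
structure IsFieldOf {Ω : Type*} [MeasurableSpace Ω] (P : Measure Ω) (W : (Rd d × ℝ → ℝ) → Ω → ℝ) (𝔎 : Rd d → ℝ)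
    (h : ℕ → Ω → Rd d → ℝ) : Prop where
  smooth : ∀ n, 1 ≤ n → ∀ ω, ContDiff ℝ (⊤ : ℕ∞) (h n ω)
  meas : ∀ n, 1 ≤ n → ∀ x, Measurable fun ω => h n ω x
  ae_eq : ∀ n, 1 ≤ n → ∀ x, (fun ω => h n ω x) =ᵐ[P] W (kern 𝔎 n x)

/-- `m` is a median of `X`. -/
def IsMedian {Ω : Type*} [MeasurableSpace Ω] (P : Measure Ω) (X : Ω → ℝ) (m : ℝ) : Prop :=
  1 / 2 ≤ P.real {ω | X ω ≤ m} ∧ 1 / 2 ≤ P.real {ω | m ≤ X ω}

/-- For `n ≥ 1`, `lam n` is a median of `D_n(0,e_1;B_2(0))`. -/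
def IsMedianSeq [NeZero d] {Ω : Type*} [MeasurableSpace Ω] (P : Measure Ω) (ξ : ℝ) (h : ℕ → Ω → Rd d → ℝ) (lam : ℕ → ℝ) : Prop :=
  ∀ n, 1 ≤ n → IsMedian P (fun ω => expDist ξ (h n ω) (Box 0 2) 0 (ee 0)) (lam n)

/-- `lam n = 2^{-(1-ξQ)n + o(n)}`. -/
def HasExponent (ξ : ℝ) (lam : ℕ → ℝ) (Q : ℝ) : Prop :=
  Tendsto (fun n : ℕ => Real.logb 2 (lam n) / n) atTop (𝓝 (-(1 - ξ * Q)))

/-- For `n ≥ 1`, `Dn n ω` is the metric `D_n`, as an element of `C(ℝ^d × ℝ^d, ℝ)`. -/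
def IsMetricSeq {Ω : Type*} (ξ : ℝ) (h : ℕ → Ω → Rd d → ℝ) (Dn : ℕ → Ω → C(Rd d × Rd d, ℝ)) : Prop :=
  ∀ n, 1 ≤ n → ∀ ω x y, Dn n ω (x, y) = expDist ξ (h n ω) univ x y

/-- `Y` is a subsequential limit of the sequence `X`: along some `n_k → ∞`, `X (n_k)` converges to `Y` in distribution,
in `C(ℝ^d × ℝ^d, ℝ)` with the topology of uniform convergence on compact sets (the compact-open topology). -/
def IsSubseqLimit {Ω Ω' : Type*} [MeasurableSpace Ω] (P : Measure Ω) [IsProbabilityMeasure P] [MeasurableSpace Ω'] (P' : Measure Ω')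
    [IsProbabilityMeasure P'] [MeasurableSpace C(Rd d × Rd d, ℝ)] [BorelSpace C(Rd d × Rd d, ℝ)]
    (X : ℕ → Ω → C(Rd d × Rd d, ℝ)) (Y : Ω' → C(Rd d × Rd d, ℝ)) : Prop :=
  ∃ nk : ℕ → ℕ, (∀ k, 1 ≤ nk k) ∧ Tendsto nk atTop atTop ∧
    TendstoInDistribution (fun k => X (nk k)) atTop Y (fun _ => P) P'

/-- `D` is a metric on `ℝ^d` which induces the Euclidean topology. -/
structure IsMetricInducingTop (D : Rd d × Rd d → ℝ) : Prop where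
  nonneg : ∀ x y, 0 ≤ D (x, y)
  eq_zero_iff : ∀ x y, D (x, y) = 0 ↔ x = y
  symm : ∀ x y, D (x, y) = D (y, x)
  tri : ∀ x y z, D (x, z) ≤ D (x, y) + D (y, z)
  /-- the neighbourhoods of `x` in the Euclidean topology are the sets which contain a `D`-ball about `x` -/
  nhds : ∀ (x : Rd d) (U : Set (Rd d)), U ∈ 𝓝 x ↔ ∃ ε > 0, {y | D (x, y) < ε} ⊆ U

end MP_d19698_pr
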