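import Pool.Agent.Lib.MP_d19698_pr.Curve

/-!
# The environment: a family of independent stationary isotropic Gaussian fields `η_k` with
# `Cov(η_k(x), η_k(y)) = c(2^k (x-y))`, and all quantities derived from it
-/

open MeasureTheory ProbabilityTheory Filter Topology Set
open scoped ENNReal NNReal

namespace MP_d19698_pr

/-- The covariance function `c(x) = ∫_{1/2}^1 ∫ 𝔎(y/t) 𝔎((y-x)/t) t^{-(d+1)} dy dt` of the level `0` field. -/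
noncomputable def covK {d : ℕ} (𝔎 : Rd d → ℝ) (x : Rd d) : ℝ :=
  ∫ p in (univ ×ˢ Ioc (1 / 2 : ℝ) 1 : Set (Rd d × ℝ)),
    𝔎 (p.2⁻¹ • p.1) * 𝔎 (p.2⁻¹ • (p.1 - x)) * (p.2 ^ (d + 1))⁻¹

/-- The environment. -/
structure Env (d : ℕ) [NeZero d] where
  Ω : Type*
  mΩ : MeasurableSpace Ω
  P : Measure Ω
  hP : IsProbabilityMeasure P
  /-- the level `k` field is `η k ω : ℝ^d → ℝ`. -/
  η : ℕ → Ω → Rd d → ℝ
  𝔎 : Rd d → ℝ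
  r0 : ℝ
  Λ : ℝ
  hr0 : 0 < r0
  hΛ : 0 ≤ Λ
  hKcont : Continuous 𝔎
  hKsupp : ∀ x, r0 ≤ ‖x‖ → 𝔎 x = 0
  hKlip : ∃ C : ℝ, 0 ≤ C ∧ ∀ x y, |𝔎 x - 𝔎 y| ≤ C * ‖x - y‖
  meas : ∀ k x, Measurable (fun ω => η k ω x)
  cont : ∀ k ω, Continuous (η k ω)
  gauss : IsGaussianProcess (fun (p : ℕ × Rd d) ω => η p.1 ω p.2) P
  mean : ∀ k x, ∫ ω, η k ω x ∂P = 0
  cov : ∀ k k' x y, ∫ ω, η k ω x * η k' ω y ∂P = if k = k' then covK 𝔎 ((2 : ℝ) ^ k • (x - y)) else 0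
  c_zero : covK 𝔎 0 = Real.log 2
  c_supp : ∀ x, 2 * r0 ≤ ‖x‖ → covK 𝔎 x = 0
  c_rot : ∀ (O : Rd d ≃ₗᵢ[ℝ] Rd d) (x : Rd d), covK 𝔎 (O x) = covK 𝔎 x
  c_reg : ∀ x, 2 * (covK 𝔎 0 - covK 𝔎 x) ≤ Λ ^ 2 * ‖x‖ ^ 2
  hd : 2 ≤ d
  ξ : ℝ
  hξ : 0 < ξ
  hβ : ξ < Real.sqrt (2 * d)

attribute [instance] Env.mΩ Env.hP

namespace Env

variable {d : ℕ} [NeZero d] (E : Env d)

/-- `h_{l,m}(x) = ∑_{l ≤ k < m} η_k(x)`. -/
def hh (l m : ℕ) (ω : E.Ω) (x : Rd d) : ℝ := ∑ k ∈ Finset.Ico l m, E.η k ω x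

/-- the log-weight `ξ h_{l,m}`. -/
def hf (l m : ℕ) (ω : E.Ω) (x : Rd d) : ℝ := E.ξ * E.hh l m ω x

/-- σ-algebra generated by `h_{l,m}(x)`, `x ∈ K`. -/
@[reducible]
def FF (l m : ℕ) (K : Set (Rd d)) : MeasurableSpace E.Ω :=
  ⨆ x ∈ K, MeasurableSpace.comap (fun ω => E.hh l m ω x) inferInstance

/-- σ-algebra generated by the level `k` field. -/
@[reducible]
def EE (k : ℕ) : MeasurableSpace E.Ω :=
  ⨆ x : Rd d, MeasurableSpace.comap (fun ω => E.η k ω x) inferInstance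

/-- σ-algebra generated by the levels `< l`. -/
@[reducible]
def LL (l : ℕ) : MeasurableSpace E.Ω := ⨆ k, ⨆ (_ : k < l), E.EE k

/-- `α = 1 - ξ √(2d)`. -/
noncomputable def al : ℝ := 1 - E.ξ * Real.sqrt (2 * d)

/-- `β = √(2d)/ξ`. -/
noncomputable def be : ℝ := Real.sqrt (2 * d) / E.ξ

/-- `R_0 = ⌈2 r_0⌉ + 2`. -/
noncomputable def R0 : ℕ := ⌈2 * E.r0⌉₊ + 2

/-- `s_0 = ⌈2 r_0⌉ + 4`, the separation of independent cells. -/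
noncomputable def s0 : ℕ := ⌈2 * E.r0⌉₊ + 4

/-- distance of the end points of the level `l` edge `[x, x + 2^{-l} e_i]` in the metric of `h_{j,m}`,
inside `Box x (ρ 2^{-l})`. -/
noncomputable def Edg (j m l : ℕ) (ω : E.Ω) (x : Rd d) (i : Fin d) (ρ : ℝ) : ℝ≥0∞ :=
  D (E.hf j m ω) {x} {x + dy l • ee i} (Box x (ρ * dy l))

/-- tail function `P[X_m > x]` of the unit edge with domain `Box 0 ρ`. -/
noncomputable def Gt (ρ : ℝ) (m : ℕ) (x : ℝ) : ℝ :=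
  E.P.real {ω | ENNReal.ofReal x < E.Edg 0 m 0 ω 0 0 ρ}

/-- upper `p`-quantile of `X_m = D_m(0,e_1;Box 0 2)`. -/
noncomputable def lamQ (p : ℝ) (m : ℕ) : ℝ := sInf {t : ℝ | 0 ≤ t ∧ E.Gt 2 m t ≤ p}

/-- `μ_m = max_{0 ≤ l ≤ m} 2^{-α l} e^{-κ l} λ*_{m-l}`. -/
noncomputable def muQ (κ p : ℝ) (m : ℕ) : ℝ :=
  (Finset.range (m + 1)).sup' ⟨0, by simp⟩
    fun l => (2 : ℝ) ^ (-(E.al * l)) * Real.exp (-(κ * l)) * E.lamQ p (m - l)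

/-- `Z_m`, the crossing distance of the annulus `1/2 ≤ |y| ≤ 3/2`. -/
noncomputable def Zm (m : ℕ) (ω : E.Ω) : ℝ≥0∞ := Cr (E.hf 0 m ω) 0 (1 / 2) (3 / 2)

/-- the Peierls constant. -/
noncomputable def p1 : ℝ := (Real.exp (-3) / 6 ^ d) ^ (E.s0 ^ d)

/-- the quantile levels `q_m = p_1 (1 - 1/(2(m+1)))`. -/
noncomputable def qq (m : ℕ) : ℝ := E.p1 * (1 - 1 / (2 * ((m : ℝ) + 1)))

/-- `a_m`, the lower `q_m`-quantile of `Z_m`. -/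
noncomputable def aq (m : ℕ) : ℝ := sSup {t : ℝ | 0 ≤ t ∧ E.P.real {ω | E.Zm m ω < ENNReal.ofReal t} ≤ E.qq m}

end Env

/-- The parameters `κ, p_2, A_2` together with the tail estimate (T). -/
structure Par {d : ℕ} [NeZero d] (E : Env d) where
  κ : ℝ
  p2 : ℝ
  A2 : ℝ
  κ_pos : 0 < κ
  κ_le : κ ≤ 1
  κβ : κ * E.be ≤ Real.log 2 / 4
  p2_pos : 0 < p2
  p2_lt : p2 < 1 / 2
  A2_one : 1 ≤ A2
  tail : ∀ m : ℕ, ∀ x : ℝ, 0 < x → E.Gt (5 / 4) m x ≤ (A2 * E.muQ κ p2 m / x) ^ E.be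

namespace Par

variable {d : ℕ} [NeZero d] {E : Env d} (A : Par E)

/-- `λ*_m` -/
noncomputable def lam (m : ℕ) : ℝ := E.lamQ A.p2 m

/-- `μ_m` -/
noncomputable def mu (m : ℕ) : ℝ := E.muQ A.κ A.p2 m

/-- the rate hypothesis (only the lower bound is used): `2^{-(α+ε) n} ≤ λ*_n` eventually. -/
def Rate : Prop := ∀ ε : ℝ, 0 < ε → ∀ᶠ n : ℕ in atTop, (2 : ℝ) ^ (-((E.al + ε) * n)) ≤ A.lam n

end Par

end MP_d19698_pr
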