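import Pool.Agent.Lib.MP_d19698_pr.Curve
import Pool.Agent.Lib.MP_d19698_pr.B2b

/-!
# G4: from uniform crossing bounds to the topology of the limit
-/

open MeasureTheory ProbabilityTheory Filter Topology Set
open scoped ENNReal NNReal

namespace MP_d19698_pr

variable {d : ℕ}

/-- continuous functions with the axioms of a pseudometric form a closed set -/
def IsPseudo (D : C(Rd d × Rd d, ℝ)) : Prop :=
  (∀ x y, 0 ≤ D (x, y)) ∧ (∀ x, D (x, x) = 0) ∧ (∀ x y, D (x, y) = D (y, x)) ∧ ∀ x y z, D (x, z) ≤ D (x, y) + D (y, z)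

private lemma G4_cont (p : Rd d × Rd d) : Continuous fun D : C(Rd d × Rd d, ℝ) => D p :=
  ContinuousEvalConst.continuous_eval_const p

theorem isClosed_isPseudo : IsClosed {D : C(Rd d × Rd d, ℝ) | IsPseudo D} := by
  have h : {D : C(Rd d × Rd d, ℝ) | IsPseudo D} =
      (⋂ x : Rd d, ⋂ y : Rd d, {D : C(Rd d × Rd d, ℝ) | 0 ≤ D (x, y)}) ∩
      ((⋂ x : Rd d, {D : C(Rd d × Rd d, ℝ) | D (x, x) = 0}) ∩
      ((⋂ x : Rd d, ⋂ y : Rd d, {D : C(Rd d × Rd d, ℝ) | D (x, y) = D (y, x)}) ∩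
      (⋂ x : Rd d, ⋂ y : Rd d, ⋂ z : Rd d,
        {D : C(Rd d × Rd d, ℝ) | D (x, z) ≤ D (x, y) + D (y, z)}))) := by
    ext D
    simp only [IsPseudo, mem_inter_iff, mem_iInter, Set.mem_ofPred_eq]
  rw [h]
  refine IsClosed.inter ?_ (IsClosed.inter ?_ (IsClosed.inter ?_ ?_))
  · exact isClosed_iInter fun x => isClosed_iInter fun y => isClosed_le continuous_const (G4_cont _)
  · exact isClosed_iInter fun x => isClosed_eq (G4_cont _) continuous_const
  · exact isClosed_iInter fun x => isClosed_iInter fun y => isClosed_eq (G4_cont _) (G4_cont _)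
  · exact isClosed_iInter fun x => isClosed_iInter fun y => isClosed_iInter fun z =>
      isClosed_le (G4_cont _) ((G4_cont _).add (G4_cont _))

private lemma G4_dy_pos (K : ℕ) : 0 < dy K := by
  unfold dy
  positivity

private lemma G4_exists_dy {s : ℝ} (hs : 0 < s) : ∃ K : ℕ, 2 * dy K ≤ s := by
  obtain ⟨K, hK⟩ := exists_pow_lt_of_lt_one (show 0 < s / 2 by linarith) (show (1 / 2 : ℝ) < 1 by norm_num)
  refine ⟨K, ?_⟩
  unfold dy
  linarith

private lemma G4_exists_q (x : Rd d) {r : ℝ} (hr : 0 < r) :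
    ∃ q : Fin d → ℚ, x ∈ CBox (WithLp.toLp 2 fun i => (q i : ℝ) : Rd d) r := by
  have h : ∀ i : Fin d, ∃ q : ℚ, x i - r < q ∧ (q : ℝ) < x i := fun i =>
    exists_rat_btwn (by linarith)
  choose q hq using h
  refine ⟨q, fun i => ?_⟩
  change |x i - (q i : ℝ)| ≤ r
  have := hq i
  rw [abs_le]
  constructor <;> linarith

/-- deterministic criterion -/
theorem isMetric_of {D : C(Rd d × Rd d, ℝ)} (h : IsPseudo D)
    (hcr : ∀ (q : Fin d → ℚ) (K : ℕ), ∃ δ > 0, ∀ x ∈ CBox (WithLp.toLp 2 fun i => (q i : ℝ) : Rd d) (1 / 2 * dy K),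
      ∀ y ∉ Box (WithLp.toLp 2 fun i => (q i : ℝ) : Rd d) (3 / 2 * dy K), δ ≤ D (x, y)) : IsMetricInducingTop D := by
  obtain ⟨h1, h2, h3, h4⟩ := h
  -- the key estimate
  have key : ∀ (x : Rd d) (s : ℝ), 0 < s → ∃ δ > 0, ∀ y, D (x, y) < δ → ∀ i, |y i - x i| < s := by
    intro x s hs
    obtain ⟨K, hK⟩ := G4_exists_dy hs
    have hd := G4_dy_pos K
    obtain ⟨q, hq⟩ := G4_exists_q x (show 0 < 1 / 2 * dy K by linarith)
    obtain ⟨δ, hδ, hb⟩ := hcr q K
    refine ⟨δ, hδ, fun y hy i => ?_⟩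
    have hy1 : y ∈ Box (WithLp.toLp 2 fun i => (q i : ℝ) : Rd d) (3 / 2 * dy K) := by
      by_contra hn
      exact absurd (hb x hq y hn) (not_le.2 hy)
    have a1 : |y i - (q i : ℝ)| < 3 / 2 * dy K := hy1 i
    have a2 : |x i - (q i : ℝ)| ≤ 1 / 2 * dy K := hq i
    have a3 : |y i - x i| ≤ |y i - (q i : ℝ)| + |x i - (q i : ℝ)| := by
      calc |y i - x i| = |(y i - (q i : ℝ)) - (x i - (q i : ℝ))| := by ring_nf
        _ ≤ _ := abs_sub _ _
    linarith
  refine ⟨h1, ?_, h3, h4, ?_⟩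
  · intro x y
    constructor
    · intro hxy
      by_contra hne
      have hi : ∃ i, x i ≠ y i := by
        by_contra hcon
        push Not at hcon
        exact hne (by ext i; exact hcon i)
      obtain ⟨i, hi⟩ := hi
      have hs : 0 < |y i - x i| := abs_pos.2 (sub_ne_zero.2 (Ne.symm hi))
      obtain ⟨δ, hδ, hb⟩ := key x _ hs
      have := hb y (by rw [hxy]; exact hδ) i
      exact lt_irrefl _ this
    · rintro rfl
      exact h2 x
  · intro x U
    constructor
    · intro hU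
      obtain ⟨r, hr, hrU⟩ := Metric.mem_nhds_iff.1 hU
      set s : ℝ := r / (2 * (Real.sqrt d + 1)) with hs
      have hsq : 0 ≤ Real.sqrt d := Real.sqrt_nonneg _
      have hs0 : 0 < s := by positivity
      obtain ⟨δ, hδ, hb⟩ := key x s hs0
      refine ⟨δ, hδ, fun y hy => hrU ?_⟩
      have hy1 : y ∈ CBox x s := fun i => (hb y hy i).le
      have hy2 := norm_le_of_mem_CBox hs0.le hy1
      rw [Metric.mem_ball, dist_eq_norm]
      refine lt_of_le_of_lt hy2 ?_
      have hs2 : s * (2 * (Real.sqrt d + 1)) = r := by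
        rw [hs]
        field_simp
      nlinarith
    · rintro ⟨ε, hε, hU⟩
      have hc : Continuous fun y : Rd d => D (x, y) :=
        D.continuous.comp (continuous_const.prodMk continuous_id)
      have hop : IsOpen {y : Rd d | D (x, y) < ε} := isOpen_lt hc continuous_const
      refine Filter.mem_of_superset (hop.mem_nhds ?_) hU
      change D (x, x) < ε
      rw [h2]
      exact hε

private lemma G4_portmanteau {Ω Ω' : Type*} [MeasurableSpace Ω] [MeasurableSpace Ω'] {P : Measure Ω} [IsProbabilityMeasure P] {P' : Measure Ω'} [IsProbabilityMeasure P']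
    [MeasurableSpace C(Rd d × Rd d, ℝ)] [BorelSpace C(Rd d × Rd d, ℝ)]
    (X : ℕ → Ω → C(Rd d × Rd d, ℝ)) (Z : Ω' → C(Rd d × Rd d, ℝ))
    (hconv : TendstoInDistribution X atTop Z (fun _ => P) P')
    (G : Set C(Rd d × Rd d, ℝ)) (hG : IsOpen G) (c : ℝ≥0∞)
    (hc : ∀ᶠ k in atTop, P {ω | X k ω ∈ G} ≤ c) : P' {ω | Z ω ∈ G} ≤ c := by
  by_contra hlt
  push Not at hlt
  have h1 := ProbabilityMeasure.le_liminf_measure_open_of_tendsto hconv.tendsto hG
  have h2 : c < liminf (fun k => (P.map (X k)) G) atTop := by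
    refine lt_of_lt_of_le ?_ h1
    change c < (P'.map Z) G
    rw [Measure.map_apply_of_aemeasurable hconv.aemeasurable_limit hG.measurableSet]
    exact hlt
  have h3 := Filter.eventually_lt_of_lt_liminf h2
  obtain ⟨k, hk1, hk2⟩ := (h3.and hc).exists
  rw [Measure.map_apply_of_aemeasurable (hconv.forall_aemeasurable k) hG.measurableSet] at hk1
  exact absurd hk2 (not_le.2 hk1)

/-- **Limit argument.** Random continuous pseudometrics `X k` converging in distribution to `Z`. If for every box the infimum of `X k` over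
`{|x-q| ≤ r} × {|y-q| ≥ 3r}` is bounded below in probability, uniformly in `k`, then `Z` is a.s. a metric inducing the Euclidean topology. (For all large `k` is enough.) -/
theorem limit_metric {Ω Ω' : Type*} [MeasurableSpace Ω] [MeasurableSpace Ω'] {P : Measure Ω} [IsProbabilityMeasure P] {P' : Measure Ω'} [IsProbabilityMeasure P']
    [MeasurableSpace C(Rd d × Rd d, ℝ)] [BorelSpace C(Rd d × Rd d, ℝ)]
    (X : ℕ → Ω → C(Rd d × Rd d, ℝ)) (Z : Ω' → C(Rd d × Rd d, ℝ)) (hconv : TendstoInDistribution X atTop Z (fun _ => P) P')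
    (hps : ∀ k ω, IsPseudo (X k ω))
    (hcr : ∀ (x : Rd d) (K : ℕ) (ε : ℝ), 0 < ε → ∃ δ > 0, ∀ᶠ k in atTop,
      P.real {ω | ∃ u ∈ CBox x (1 / 2 * dy K), ∃ v, v ∉ Box x (3 / 2 * dy K) ∧ X k ω (u, v) < δ} ≤ ε) :
    ∀ᵐ ω ∂P', IsMetricInducingTop (Z ω) := by
  -- pseudometric
  have hZp : ∀ᵐ ω ∂P', IsPseudo (Z ω) := by
    have h1 := G4_portmanteau X Z hconv {D | IsPseudo D}ᶜ isClosed_isPseudo.isOpen_compl 0
      (Filter.Eventually.of_forall fun k => by
        have : {ω | X k ω ∈ {D | IsPseudo D}ᶜ} = ∅ := by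
          ext ω
          simp only [Set.mem_ofPred_eq, Set.mem_compl_iff, Set.mem_empty_iff_false, iff_false, not_not]
          exact hps k ω
        rw [this, measure_empty])
    rw [ae_iff]
    exact nonpos_iff_eq_zero.1 h1
  -- crossing
  have hB : ∀ (x : Rd d) (K : ℕ), ∀ᵐ ω ∂P', ∃ δ > 0, ∀ u ∈ CBox x (1 / 2 * dy K),
      ∀ v ∉ Box x (3 / 2 * dy K), δ ≤ Z ω (u, v) := by
    intro x K
    rw [ae_iff]
    apply nonpos_iff_eq_zero.1
    apply le_of_forall_pos_le_add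
    intro ε hε
    rw [zero_add]
    by_cases hεt : ε = ⊤
    · rw [hεt]
      exact le_top
    have hε' : 0 < ε.toReal := ENNReal.toReal_pos hε.ne' hεt
    obtain ⟨δ, hδ, hk⟩ := hcr x K ε.toReal hε'
    have hopen : IsOpen {D : C(Rd d × Rd d, ℝ) | ∃ u ∈ CBox x (1 / 2 * dy K),
        ∃ v, v ∉ Box x (3 / 2 * dy K) ∧ D (u, v) < δ} := by
      have : {D : C(Rd d × Rd d, ℝ) | ∃ u ∈ CBox x (1 / 2 * dy K),
        ∃ v, v ∉ Box x (3 / 2 * dy K) ∧ D (u, v) < δ} =
        ⋃ u ∈ CBox x (1 / 2 * dy K), ⋃ v ∈ (Box x (3 / 2 * dy K))ᶜ,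
          {D : C(Rd d × Rd d, ℝ) | D (u, v) < δ} := by
        ext D
        simp only [Set.mem_ofPred_eq, mem_iUnion, exists_prop, Set.mem_compl_iff]
      rw [this]
      exact isOpen_biUnion fun u _ => isOpen_biUnion fun v _ =>
        isOpen_lt (G4_cont _) continuous_const
    have h2 := G4_portmanteau X Z hconv _ hopen ε (by
      filter_upwards [hk] with k hk1
      rw [← ENNReal.toReal_le_toReal (measure_ne_top _ _) hεt]
      exact hk1)
    refine le_trans (measure_mono ?_) h2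
    intro ω hω
    by_contra hcon
    apply hω
    refine ⟨δ, hδ, fun u hu v hv => ?_⟩
    by_contra hlt
    exact hcon ⟨u, hu, v, hv, not_le.1 hlt⟩
  have hB' : ∀ᵐ ω ∂P', ∀ (q : Fin d → ℚ) (K : ℕ), ∃ δ > 0,
      ∀ u ∈ CBox (WithLp.toLp 2 fun i => (q i : ℝ) : Rd d) (1 / 2 * dy K),
      ∀ v ∉ Box (WithLp.toLp 2 fun i => (q i : ℝ) : Rd d) (3 / 2 * dy K), δ ≤ Z ω (u, v) :=
    ae_all_iff.2 fun q => ae_all_iff.2 fun K => hB _ K
  filter_upwards [hZp, hB'] with ω h1 h2
  exact isMetric_of h1 h2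

end MP_d19698_pr
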