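import Pool.Agent.Lib.MP_d19698_pr.G3c
import Pool.Agent.Lib.MP_d19698_pr.G4
import Pool.Agent.Lib.MP_d19698_pr.C8b

/-!
# The final theorem
-/

open MeasureTheory ProbabilityTheory Filter Topology Set
open scoped ENNReal NNReal

namespace MP_d19698_pr

variable {d : ℕ} [NeZero d]

private theorem Final_segbound (ξ : ℝ) {h : Rd d → ℝ} (hh : Continuous h) {K : Set (Rd d)}
    (hK : IsCompact K) : ∃ M : ℝ, ∀ p ∈ K, |ξ * h p| ≤ M := by
  have h1 : ContinuousOn (fun p => ξ * h p) K := (continuous_const.mul hh).continuousOn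
  obtain ⟨M, hM⟩ := hK.exists_bound_of_continuousOn h1
  exact ⟨M, fun p hp => by
    have := hM p hp
    rwa [Real.norm_eq_abs] at this⟩

private theorem Final_compact_segment (x y : Rd d) : IsCompact (segment ℝ x y) := by
  rw [segment_eq_image']
  exact isCompact_Icc.image (by fun_prop)

private theorem Final_D_lt_top (ξ : ℝ) {h : Rd d → ℝ} (hh : Continuous h) (x y : Rd d)
    {U : Set (Rd d)} (hU : segment ℝ x y ⊆ U) : D (fun p => ξ * h p) {x} {y} U < ∞ := by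
  obtain ⟨M, hM⟩ := Final_segbound ξ hh (Final_compact_segment x y)
  exact (D_seg (fun p => ξ * h p) hU (M := M) fun p hp => (abs_le.1 (hM p hp)).2).trans_lt
    ENNReal.ofReal_lt_top

private theorem Final_norm_ee : ‖(ee 0 : Rd d)‖ = 1 := by
  unfold ee
  rw [EuclideanSpace.norm_single, norm_one]

private theorem Final_expDist_pos (ξ : ℝ) {h : Rd d → ℝ} (hh : Continuous h) :
    0 < expDist ξ h (Box 0 2) 0 (ee 0) := by
  rw [expDist_eq ξ hh]
  have h0 : (0 : Rd d) ∈ Box (0 : Rd d) 2 := by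
    intro i
    rw [sub_self, abs_zero]
    norm_num
  have h1 : (ee 0 : Rd d) ∈ Box (0 : Rd d) 2 := by
    intro i
    have h3 : |(ee 0 : Rd d) i| ≤ ‖(ee 0 : Rd d)‖ := abs_le_norm _ _
    rw [Final_norm_ee] at h3
    have h4 : (0 : Rd d) i = 0 := rfl
    rw [h4, sub_zero]
    linarith
  have hseg : segment ℝ (0 : Rd d) (ee 0) ⊆ Box (0 : Rd d) 2 :=
    (convex_Box (0 : Rd d) 2).segment_subset h0 h1
  have hfin := Final_D_lt_top ξ hh (0 : Rd d) (ee 0) hseg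
  obtain ⟨M, hM⟩ := Final_segbound ξ hh (isCompact_CBox (0 : Rd d) 2)
  have hlow := le_D_of_bdd (f := fun p => ξ * h p) (A := {(0 : Rd d)}) (B := {(ee 0 : Rd d)})
    (U := Box (0 : Rd d) 2) (M := M) (δ := 1)
    (fun p hp => (abs_le.1 (hM p (Box_subset_CBox _ _ hp))).1)
    (by
      rintro a ⟨ha, -⟩ b ⟨hb, -⟩
      rw [mem_singleton_iff] at ha hb
      rw [ha, hb, zero_sub, norm_neg, Final_norm_ee])
  have hpos : 0 < D (fun p => ξ * h p) {(0 : Rd d)} {(ee 0 : Rd d)} (Box 0 2) := by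
    refine lt_of_lt_of_le ?_ hlow
    rw [ENNReal.ofReal_pos]
    positivity
  exact ENNReal.toReal_pos hpos.ne' hfin.ne

/-- positivity of medians -/
theorem lam_pos_of_median {Ω : Type*} [MeasurableSpace Ω] {P : Measure Ω} [IsProbabilityMeasure P] {ξ : ℝ} {h : ℕ → Ω → Rd d → ℝ}
    (hc : ∀ n, 1 ≤ n → ∀ ω, Continuous (h n ω)) {lam : ℕ → ℝ} {n : ℕ} (hn : 1 ≤ n)
    (hlam : IsMedian P (fun ω => expDist ξ (h n ω) (Box 0 2) 0 (ee 0)) (lam n)) : 0 < lam n := by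
  by_contra hcon
  have h1 : {ω | expDist ξ (h n ω) (Box 0 2) 0 (ee 0) ≤ lam n} = ∅ := by
    rw [Set.eq_empty_iff_forall_notMem]
    intro ω hω
    have h2 := Final_expDist_pos ξ (hc n hn ω)
    have h3 : expDist ξ (h n ω) (Box 0 2) 0 (ee 0) ≤ lam n := hω
    linarith
  have h4 := hlam.1
  rw [h1, measureReal_empty] at h4
  norm_num at h4

/-- `expDist` on the whole space is a pseudometric -/
theorem expDist_pseudo {ξ : ℝ} {h : Rd d → ℝ} (hh : Continuous h) : (∀ x y, 0 ≤ expDist ξ h univ x y) ∧ (∀ x, expDist ξ h univ x x = 0) ∧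
    (∀ x y, expDist ξ h univ x y = expDist ξ h univ y x) ∧ ∀ x y z, expDist ξ h univ x z ≤ expDist ξ h univ x y + expDist ξ h univ y z := by
  refine ⟨fun x y => ?_, fun x => ?_, fun x y => ?_, fun x y z => ?_⟩
  · rw [expDist_eq ξ hh]
    exact ENNReal.toReal_nonneg
  · rw [expDist_eq ξ hh, D_self _ (mem_univ x), ENNReal.toReal_zero]
  · rw [expDist_eq ξ hh, expDist_eq ξ hh, D_symm]
  · rw [expDist_eq ξ hh, expDist_eq ξ hh, expDist_eq ξ hh]
    have h1 := (Final_D_lt_top ξ hh x y (subset_univ (segment ℝ x y))).ne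
    have h2 := (Final_D_lt_top ξ hh y z (subset_univ (segment ℝ y z))).ne
    rw [← ENNReal.toReal_add h1 h2]
    exact ENNReal.toReal_mono (ENNReal.add_ne_top.2 ⟨h1, h2⟩) (D_tri _ _ _ y _)

/-- annulus crossing distances bound `expDist` from below -/
theorem cr_le_expDist {ξ : ℝ} {h : Rd d → ℝ} (hh : Continuous h) {x u v : Rd d} {r r' : ℝ} (hr : r < r') (hu : u ∈ CBox x r) (hv : v ∉ Box x r') :
    Cr (fun y => ξ * h y) x r r' ≤ ENNReal.ofReal (expDist ξ h univ u v) := by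
  rw [expDist_eq ξ hh, ENNReal.ofReal_toReal
    (Final_D_lt_top ξ hh u v (subset_univ (segment ℝ u v))).ne]
  refine le_D fun c hA hB _ => ?_
  rw [mem_singleton_iff] at hA hB
  refine (Cr_le_len _ c hr ⟨u, hA ▸ c.src_mem_img, hu⟩ ⟨v, hB ▸ c.tgt_mem_img, hv⟩).trans ?_
  exact c.len_mono _ (subset_univ _)

/-- **The theorem for an environment.** -/
theorem main_env (E : Env d) (h : ℕ → E.Ω → Rd d → ℝ) (hh : ∀ n, 1 ≤ n → ∀ ω x, E.hh 0 n ω x = h n ω x)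
    (lam : ℕ → ℝ) (hlam : ∀ n, 1 ≤ n → IsMedian E.P (fun ω => expDist E.ξ (h n ω) (Box 0 2) 0 (ee 0)) (lam n))
    (hQ : Tendsto (fun n : ℕ => Real.logb 2 (lam n) / n) atTop (𝓝 (-(1 - E.ξ * Real.sqrt (2 * d)))))
    (Dn : ℕ → E.Ω → C(Rd d × Rd d, ℝ)) (hDn : ∀ n, 1 ≤ n → ∀ ω x y, Dn n ω (x, y) = expDist E.ξ (h n ω) univ x y)
    (nk : ℕ → ℕ) (hnk1 : ∀ k, 1 ≤ nk k)
    [MeasurableSpace C(Rd d × Rd d, ℝ)] [BorelSpace C(Rd d × Rd d, ℝ)]
    {Ω' : Type*} [MeasurableSpace Ω'] {P' : Measure Ω'} [IsProbabilityMeasure P'] (Z : Ω' → C(Rd d × Rd d, ℝ))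
    (hconv : TendstoInDistribution (fun k ω => (lam (nk k))⁻¹ • Dn (nk k) ω) atTop Z (fun _ => E.P) P') :
    ∀ᵐ ω ∂P', IsMetricInducingTop (Z ω) := by
  have hc : ∀ n, 1 ≤ n → ∀ ω, Continuous (h n ω) := fun n hn ω => by
    have h1 : h n ω = E.hh 0 n ω := funext fun x => (hh n hn ω x).symm
    rw [h1]; exact E.continuous_hh 0 n ω
  have hpos : ∀ n, 1 ≤ n → 0 < lam n := fun n hn => lam_pos_of_median hc hn (hlam n hn)
  obtain ⟨A⟩ := E.exists_par
  have hhf : ∀ n, 1 ≤ n → ∀ ω, E.hf 0 n ω = fun x => E.ξ * h n ω x := fun n hn ω =>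
    funext fun x => by rw [← hh n hn ω x]; rfl
  have hle : ∀ n, 1 ≤ n → lam n ≤ A.lam n := by
    intro n hn
    refine median_le_lamQ E A.p2_pos A.p2_lt n ?_
    have h2 := (hlam n hn).2
    have h3 : {ω | lam n ≤ expDist E.ξ (h n ω) (Box 0 2) 0 (ee 0)} = {ω | lam n ≤ (E.Edg 0 n 0 ω 0 0 2).toReal} := by
      ext ω
      simp only [mem_setOf_eq]
      rw [expDist_eq E.ξ (hc n hn ω)]
      have : E.Edg 0 n 0 ω 0 0 2 = D (fun x => E.ξ * h n ω x) {0} {ee 0} (Box 0 2) := by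
        unfold Env.Edg
        rw [hhf n hn ω]
        simp [dy]
      rw [this]
    rw [← h3]; exact h2
  have hrate : A.Rate := rate A lam hpos hle hQ
  refine limit_metric _ Z hconv ?_ ?_
  · intro k ω
    obtain ⟨h1, h2, h3, h4⟩ := expDist_pseudo (ξ := E.ξ) (hc (nk k) (hnk1 k) ω)
    have hl : 0 ≤ (lam (nk k))⁻¹ := (inv_pos.2 (hpos _ (hnk1 k))).le
    refine ⟨fun x y => ?_, fun x => ?_, fun x y => ?_, fun x y z => ?_⟩ <;>
      simp only [ContinuousMap.coe_smul, Pi.smul_apply, smul_eq_mul, hDn _ (hnk1 k)]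
    · exact mul_nonneg hl (h1 x y)
    · rw [h2 x, mul_zero]
    · rw [h3 x y]
    · rw [← mul_add]; exact mul_le_mul_of_nonneg_left (h4 x y z) hl
  · intro x K ε hε
    obtain ⟨δ, hδ, hmain⟩ := A.main_cross hrate hε K x
    refine ⟨δ, hδ, Eventually.of_forall fun k => ?_⟩
    refine le_trans ?_ (hmain (nk k))
    refine measureReal_mono ?_ (measure_ne_top _ _)
    intro ω hω
    obtain ⟨u, hu, v, hv, hlt⟩ := hω
    simp only [ContinuousMap.coe_smul, Pi.smul_apply, smul_eq_mul, hDn _ (hnk1 k)] at hlt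
    have hn := hnk1 k
    have hlampos := hpos _ hn
    show Cr (E.hf 0 (nk k) ω) x (1 / 2 * dy K) (3 / 2 * dy K) < ENNReal.ofReal (δ * A.lam (nk k))
    rw [hhf _ hn ω]
    have hdy : 0 < dy K := by unfold dy; positivity
    refine lt_of_le_of_lt (cr_le_expDist (hc _ hn ω) (by linarith) hu hv) ?_
    have h5 : expDist E.ξ (h (nk k) ω) univ u v < δ * lam (nk k) := by
      rw [inv_mul_lt_iff₀ hlampos] at hlt
      linarith [mul_comm δ (lam (nk k))]
    have h6 : δ * lam (nk k) ≤ δ * A.lam (nk k) := mul_le_mul_of_nonneg_left (hle _ hn) hδ.le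
    exact (ENNReal.ofReal_lt_ofReal_iff (lt_of_lt_of_le (mul_pos hδ hlampos) h6)).2 (lt_of_lt_of_le h5 h6)

/-- **The critical exponential metric induces the Euclidean topology** (all `d ≥ 2`). -/
theorem main (hd : 2 ≤ d) {Ω : Type*} [MeasurableSpace Ω] {P : Measure Ω} [IsProbabilityMeasure P] {W : (Rd d × ℝ → ℝ) → Ω → ℝ}
    {𝔎 : Rd d → ℝ} {r0 : ℝ} {h : ℕ → Ω → Rd d → ℝ} (hK : IsKernel 𝔎 r0) (hW : IsWhiteNoise P W) (hh : IsFieldOf P W 𝔎 h) {ξ : ℝ} (hξ : 0 < ξ)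
    {lam : ℕ → ℝ} (hlam : IsMedianSeq P ξ h lam) (hQ : HasExponent ξ lam (Real.sqrt (2 * d)))
    {Dn : ℕ → Ω → C(Rd d × Rd d, ℝ)} (hDn : IsMetricSeq ξ h Dn)
    [MeasurableSpace C(Rd d × Rd d, ℝ)] [BorelSpace C(Rd d × Rd d, ℝ)]
    {Ω' : Type*} [MeasurableSpace Ω'] {P' : Measure Ω'} [IsProbabilityMeasure P'] {Z : Ω' → C(Rd d × Rd d, ℝ)}
    (hconv : IsSubseqLimit P P' (fun n ω => (lam n)⁻¹ • Dn n ω) Z) :
    ∀ᵐ ω ∂P', IsMetricInducingTop (Z ω) := by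
  have hξ' : ξ < Real.sqrt (2 * d) := xi_lt hd hK hW hh hξ lam hlam hQ
  obtain ⟨nk, hnk1, -, hc⟩ := hconv
  exact main_env (mkEnv hd hK hW hh ξ hξ hξ') h
    (fun n hn ω x => by
      show ∑ k ∈ Finset.Ico 0 n, levels h k ω x = _
      rw [← Finset.range_eq_Ico, sum_levels h n hn]) lam hlam hQ Dn hDn nk hnk1 Z hc

end MP_d19698_pr
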