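import Pool.Agent.Lib.MP_d19698_pr.Env

/-!
# G1: the covariance function of the kernel
-/

open MeasureTheory ProbabilityTheory Filter Topology Set
open scoped ENNReal NNReal

namespace MP_d19698_pr

namespace IsKernel

variable {d : ℕ} [NeZero d] {𝔎 : Rd d → ℝ} {r0 : ℝ} (h : IsKernel 𝔎 r0)

include h

/-- radial and supported in the cube, hence supported in the Euclidean ball: `𝔎 x = 𝔎 (‖x‖ e_1) = 0` if `‖x‖ ≥ r0`. -/
theorem eq_zero {x : Rd d} (hx : r0 ≤ ‖x‖) : 𝔎 x = 0 := by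
  have h1 : ‖(‖x‖ • ee (0 : Fin d) : Rd d)‖ = ‖x‖ := by
    rw [norm_smul, ee, EuclideanSpace.norm_single]
    simp
  rw [h.radial x (‖x‖ • ee (0 : Fin d)) h1.symm]
  by_contra hne
  have h2 := h.supp (Function.mem_support.mpr hne) (0 : Fin d)
  have h3 : (‖x‖ • ee (0 : Fin d) : Rd d) 0 = ‖x‖ := by
    simp [ee]
  rw [h3] at h2
  simp only [PiLp.zero_apply, sub_zero, abs_norm] at h2
  linarith

theorem hasCompactSupport : HasCompactSupport 𝔎 := by
  apply HasCompactSupport.intro (isCompact_closedBall (0 : Rd d) r0)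
  intro x hx
  apply h.eq_zero
  rw [Metric.mem_closedBall, dist_zero_right, not_le] at hx
  exact hx.le

theorem lipschitz : ∃ C : ℝ, 0 ≤ C ∧ ∀ x y, |𝔎 x - 𝔎 y| ≤ C * ‖x - y‖ := by
  obtain ⟨C, hC⟩ := ContDiff.lipschitzWith_of_hasCompactSupport h.hasCompactSupport h.smooth
    (by simp)
  refine ⟨C, C.2, fun x y => ?_⟩
  have h1 := hC.dist_le_mul x y
  rwa [Real.dist_eq, dist_eq_norm] at h1


end IsKernel
end MP_d19698_pr
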