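import Pool.Agent.Lib.MP_d19698_pr.G1a

/-! # G1b -/

open MeasureTheory ProbabilityTheory Filter Topology Set
open scoped ENNReal NNReal

namespace MP_d19698_pr

/-- the autocorrelation `ρ(u) = ∫ 𝔎(z) 𝔎(z-u) dz` -/
noncomputable def G1b_rho {d : ℕ} (𝔎 : Rd d → ℝ) (u : Rd d) : ℝ := ∫ z, 𝔎 z * 𝔎 (z - u)

namespace IsKernel
variable {d : ℕ} [NeZero d] {𝔎 : Rd d → ℝ} {r0 : ℝ} (h : IsKernel 𝔎 r0)
include h

theorem G1b_bdd : ∃ M : ℝ, 0 ≤ M ∧ ∀ x, |𝔎 x| ≤ M := by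
  obtain ⟨M, hM⟩ := h.hasCompactSupport.exists_bound_of_continuous h.smooth.continuous
  refine ⟨M, (norm_nonneg _).trans (hM 0), fun x => ?_⟩
  have := hM x
  rwa [Real.norm_eq_abs] at this

theorem G1b_integrable (x : Rd d) :
    Integrable (fun p : Rd d × ℝ => 𝔎 (p.2⁻¹ • p.1) * 𝔎 (p.2⁻¹ • (p.1 - x)) * (p.2 ^ (d + 1))⁻¹)
      ((volume : Measure (Rd d)).prod ((volume : Measure ℝ).restrict (Ioc (1 / 2 : ℝ) 1))) := by
  have hK := h.smooth.continuous
  obtain ⟨M, hM0, hM⟩ := h.G1b_bdd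
  have hmeas : Measurable (fun p : Rd d × ℝ =>
      𝔎 (p.2⁻¹ • p.1) * 𝔎 (p.2⁻¹ • (p.1 - x)) * (p.2 ^ (d + 1))⁻¹) := by
    have hKm := hK.measurable
    fun_prop
  have hfull : IntegrableOn (fun p : Rd d × ℝ =>
      𝔎 (p.2⁻¹ • p.1) * 𝔎 (p.2⁻¹ • (p.1 - x)) * (p.2 ^ (d + 1))⁻¹)
      (univ ×ˢ Ioc (1 / 2 : ℝ) 1) ((volume : Measure (Rd d)).prod (volume : Measure ℝ)) := by
    have hS : IntegrableOn (fun p : Rd d × ℝ =>
        𝔎 (p.2⁻¹ • p.1) * 𝔎 (p.2⁻¹ • (p.1 - x)) * (p.2 ^ (d + 1))⁻¹)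
        (Metric.closedBall (0 : Rd d) r0 ×ˢ Ioc (1 / 2 : ℝ) 1)
        ((volume : Measure (Rd d)).prod (volume : Measure ℝ)) := by
      apply Measure.integrableOn_of_bounded (M := M * M * 2 ^ (d + 1)) _ hmeas.aestronglyMeasurable
      · rw [ae_restrict_iff' ((Metric.isClosed_closedBall.measurableSet).prod measurableSet_Ioc)]
        filter_upwards with p hp
        have h1 : (1 / 2 : ℝ) < p.2 := hp.2.1
        have h2 : (p.2 ^ (d + 1))⁻¹ ≤ 2 ^ (d + 1) := by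
          rw [← inv_pow]
          apply pow_le_pow_left₀ (by positivity)
          rw [inv_le_comm₀ (by linarith) (by norm_num)]
          linarith
        rw [norm_mul, norm_mul, Real.norm_eq_abs, Real.norm_eq_abs, Real.norm_eq_abs]
        have h3 : |(p.2 ^ (d + 1))⁻¹| ≤ 2 ^ (d + 1) := by
          rw [abs_of_nonneg (by positivity)]
          exact h2
        have h4 := hM (p.2⁻¹ • p.1)
        have h5 := hM (p.2⁻¹ • (p.1 - x))
        gcongr
      · rw [Measure.prod_prod]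
        apply ENNReal.mul_ne_top
        · exact (measure_closedBall_lt_top).ne
        · rw [Real.volume_Ioc]
          exact ENNReal.ofReal_ne_top
    apply hS.of_forall_sdiff_eq_zero (MeasurableSet.univ.prod measurableSet_Ioc)
    intro p hp
    have h1 : (1 / 2 : ℝ) < p.2 := hp.1.2.1
    have h2 : p.2 ≤ 1 := hp.1.2.2
    have h3 : p.1 ∉ Metric.closedBall (0 : Rd d) r0 := fun hc => hp.2 ⟨hc, hp.1.2⟩
    rw [Metric.mem_closedBall, dist_zero_right, not_le] at h3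
    have h4 : 𝔎 (p.2⁻¹ • p.1) = 0 := by
      apply h.eq_zero
      rw [norm_smul, norm_inv, Real.norm_eq_abs, abs_of_pos (by linarith)]
      have h5 : 1 ≤ p.2⁻¹ := (one_le_inv₀ (by linarith)).mpr h2
      nlinarith [norm_nonneg p.1]
    simp only [h4, zero_mul]
  rw [IntegrableOn, ← Measure.prod_restrict, Measure.restrict_univ] at hfull
  exact hfull

theorem G1b_inner (x : Rd d) {t : ℝ} (ht : 0 < t) :
    ∫ y : Rd d, 𝔎 (t⁻¹ • y) * 𝔎 (t⁻¹ • (y - x)) * (t ^ (d + 1))⁻¹ =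
      t⁻¹ * G1b_rho 𝔎 (t⁻¹ • x) := by
  rw [integral_mul_const]
  have h1 : ∀ y : Rd d, 𝔎 (t⁻¹ • y) * 𝔎 (t⁻¹ • (y - x)) =
      (fun z => 𝔎 z * 𝔎 (z - t⁻¹ • x)) (t⁻¹ • y) := by
    intro y
    simp only [smul_sub]
  rw [integral_congr_ae (Filter.Eventually.of_forall h1)]
  rw [Measure.integral_comp_inv_smul volume (fun z => 𝔎 z * 𝔎 (z - t⁻¹ • x)) t]
  rw [finrank_euclideanSpace_fin, abs_of_pos (by positivity), G1b_rho, smul_eq_mul, pow_succ]
  field_simp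

theorem G1b_covK (x : Rd d) :
    covK 𝔎 x = ∫ t in Ioc (1 / 2 : ℝ) 1, t⁻¹ * G1b_rho 𝔎 (t⁻¹ • x) := by
  rw [covK, Measure.volume_eq_prod, ← Measure.prod_restrict, Measure.restrict_univ,
    integral_prod_symm _ (h.G1b_integrable x)]
  apply setIntegral_congr_fun measurableSet_Ioc
  intro t ht
  exact h.G1b_inner x (by linarith [ht.1])

theorem G1b_intOn (x : Rd d) :
    IntegrableOn (fun t : ℝ => t⁻¹ * G1b_rho 𝔎 (t⁻¹ • x)) (Ioc (1 / 2 : ℝ) 1) := by
  have h1 := (h.G1b_integrable x).integral_prod_right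
  apply h1.congr
  filter_upwards [ae_restrict_mem measurableSet_Ioc] with t ht
  exact h.G1b_inner x (by linarith [ht.1])

theorem G1b_rho_zero : G1b_rho 𝔎 0 = 1 := by
  rw [G1b_rho, ← h.norm]
  apply integral_congr_ae
  filter_upwards with z
  rw [sub_zero, sq]

/-- `∫_{1/2}^1 ∫ 𝔎(y/t)² t^{-(d+1)} dy dt = ∫_{1/2}^1 dt/t = log 2`. -/
theorem covK_zero : covK 𝔎 0 = Real.log 2 := by
  rw [h.G1b_covK]
  simp only [smul_zero, h.G1b_rho_zero, mul_one]
  rw [← intervalIntegral.integral_of_le (by norm_num), integral_inv_of_pos (by norm_num) (by norm_num)]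
  norm_num

theorem covK_supp {x : Rd d} (hx : 2 * r0 ≤ ‖x‖) : covK 𝔎 x = 0 := by
  rw [h.G1b_covK]
  apply setIntegral_eq_zero_of_forall_eq_zero
  intro t ht
  have ht0 : 0 < t := by linarith [ht.1]
  have h1 : 2 * r0 ≤ ‖t⁻¹ • x‖ := by
    rw [norm_smul, norm_inv, Real.norm_eq_abs, abs_of_pos ht0]
    have h5 : 1 ≤ t⁻¹ := (one_le_inv₀ ht0).mpr ht.2
    nlinarith [norm_nonneg x]
  have h2 : G1b_rho 𝔎 (t⁻¹ • x) = 0 := by
    rw [G1b_rho]
    apply integral_eq_zero_of_ae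
    filter_upwards with z
    by_cases hz : r0 ≤ ‖z‖
    · rw [h.eq_zero hz, zero_mul]
      rfl
    · rw [not_le] at hz
      have h3 : r0 ≤ ‖z - t⁻¹ • x‖ := by
        have := norm_sub_norm_le (t⁻¹ • x) z
        rw [norm_sub_rev] at this
        linarith
      rw [h.eq_zero h3, mul_zero]
      rfl
  rw [h2, mul_zero]

theorem G1b_rho_rot (O : Rd d ≃ₗᵢ[ℝ] Rd d) (u : Rd d) : G1b_rho 𝔎 (O u) = G1b_rho 𝔎 u := by
  rw [G1b_rho, G1b_rho, ← (O.measurePreserving).integral_comp O.toHomeomorph.measurableEmbedding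
    (fun z => 𝔎 z * 𝔎 (z - O u))]
  apply integral_congr_ae
  filter_upwards with z
  rw [← map_sub, h.radial (O z) z (O.norm_map z), h.radial (O (z - u)) (z - u) (O.norm_map _)]

theorem covK_rot (O : Rd d ≃ₗᵢ[ℝ] Rd d) (x : Rd d) : covK 𝔎 (O x) = covK 𝔎 x := by
  rw [h.G1b_covK, h.G1b_covK]
  apply setIntegral_congr_fun measurableSet_Ioc
  intro t _
  simp only
  rw [← map_smul, h.G1b_rho_rot]

theorem G1b_rho_reg : ∃ Γ : ℝ, 0 ≤ Γ ∧ ∀ u, 2 * (G1b_rho 𝔎 0 - G1b_rho 𝔎 u) ≤ Γ * ‖u‖ ^ 2 := by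
  obtain ⟨C, hC0, hC⟩ := h.lipschitz
  have hK := h.smooth.continuous
  refine ⟨C ^ 2 * (2 * volume.real (Metric.closedBall (0 : Rd d) r0)), by positivity, fun u => ?_⟩
  have hcs := h.hasCompactSupport
  have hKu : Continuous fun z : Rd d => 𝔎 (z - u) := hK.comp (continuous_id.sub continuous_const)
  have i1 : Integrable (fun z => 𝔎 z * 𝔎 z) :=
    (hK.mul hK).integrable_of_hasCompactSupport hcs.mul_right
  have i2 : Integrable (fun z => 𝔎 z * 𝔎 (z - u)) :=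
    (hK.mul hKu).integrable_of_hasCompactSupport hcs.mul_right
  have i3 : Integrable (fun z => 𝔎 (z - u) * 𝔎 (z - u)) := i1.comp_sub_right u
  have e3 : ∫ z, 𝔎 (z - u) * 𝔎 (z - u) = ∫ z, 𝔎 z * 𝔎 z :=
    integral_sub_right_eq_self (fun z => 𝔎 z * 𝔎 z) u
  have e1 : 2 * (G1b_rho 𝔎 0 - G1b_rho 𝔎 u) = ∫ z, (𝔎 z - 𝔎 (z - u)) ^ 2 := by
    have e2 : ∀ z, (𝔎 z - 𝔎 (z - u)) ^ 2 =
        (𝔎 z * 𝔎 z + 𝔎 (z - u) * 𝔎 (z - u)) - 2 * (𝔎 z * 𝔎 (z - u)) := fun z => by ring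
    have i4 : Integrable (fun z => 𝔎 z * 𝔎 z + 𝔎 (z - u) * 𝔎 (z - u)) := i1.add i3
    have i5 : Integrable (fun z => 2 * (𝔎 z * 𝔎 (z - u))) := i2.const_mul 2
    simp only [e2]
    rw [integral_sub i4 i5, integral_add i1 i3, e3, integral_const_mul,
      G1b_rho, G1b_rho]
    simp only [sub_zero]
    ring
  rw [e1]
  have m1 : MeasurableSet (Metric.closedBall (0 : Rd d) r0) := Metric.isClosed_closedBall.measurableSet
  have m2 : MeasurableSet (Metric.closedBall u r0) := Metric.isClosed_closedBall.measurableSet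
  have f1 : volume (Metric.closedBall (0 : Rd d) r0) ≠ ⊤ := measure_closedBall_lt_top.ne
  have f2 : volume (Metric.closedBall u r0) ≠ ⊤ := measure_closedBall_lt_top.ne
  have hbound : ∀ z, (𝔎 z - 𝔎 (z - u)) ^ 2 ≤
      (Metric.closedBall (0 : Rd d) r0).indicator (fun _ => C ^ 2 * ‖u‖ ^ 2) z +
      (Metric.closedBall u r0).indicator (fun _ => C ^ 2 * ‖u‖ ^ 2) z := by
    intro z
    have hl : (𝔎 z - 𝔎 (z - u)) ^ 2 ≤ C ^ 2 * ‖u‖ ^ 2 := by
      have h1 := hC z (z - u)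
      rw [sub_sub_cancel] at h1
      rw [← sq_abs, ← mul_pow]
      exact pow_le_pow_left₀ (abs_nonneg _) h1 2
    have hn : (0 : ℝ) ≤ C ^ 2 * ‖u‖ ^ 2 := by positivity
    have g1 : 0 ≤ (Metric.closedBall (0 : Rd d) r0).indicator (fun _ => C ^ 2 * ‖u‖ ^ 2) z :=
      indicator_nonneg (fun _ _ => hn) z
    have g2 : 0 ≤ (Metric.closedBall u r0).indicator (fun _ => C ^ 2 * ‖u‖ ^ 2) z :=
      indicator_nonneg (fun _ _ => hn) z
    by_cases hz : z ∈ Metric.closedBall (0 : Rd d) r0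
    · rw [indicator_of_mem hz] at g1 ⊢
      linarith
    · by_cases hz2 : z ∈ Metric.closedBall u r0
      · rw [indicator_of_mem hz2] at g2 ⊢
        linarith
      · have hz' : r0 ≤ ‖z‖ := by
          rw [Metric.mem_closedBall, dist_zero_right, not_le] at hz
          exact hz.le
        have hz2' : r0 ≤ ‖z - u‖ := by
          rw [Metric.mem_closedBall, dist_eq_norm, not_le] at hz2
          exact hz2.le
        rw [h.eq_zero hz', h.eq_zero hz2']
        simp only [sub_self, ne_eq, OfNat.ofNat_ne_zero, not_false_eq_true, zero_pow]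
        linarith
  have j1 : Integrable ((Metric.closedBall (0 : Rd d) r0).indicator
      (fun _ => C ^ 2 * ‖u‖ ^ 2)) := (integrable_indicator_iff m1).mpr (integrableOn_const f1)
  have j2 : Integrable ((Metric.closedBall u r0).indicator
      (fun _ => C ^ 2 * ‖u‖ ^ 2)) := (integrable_indicator_iff m2).mpr (integrableOn_const f2)
  calc ∫ z, (𝔎 z - 𝔎 (z - u)) ^ 2 ≤
      ∫ z, ((Metric.closedBall (0 : Rd d) r0).indicator (fun _ => C ^ 2 * ‖u‖ ^ 2) z +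
      (Metric.closedBall u r0).indicator (fun _ => C ^ 2 * ‖u‖ ^ 2) z) := by
        apply integral_mono_of_nonneg
        · filter_upwards with z
          exact sq_nonneg _
        · exact j1.add j2
        · filter_upwards with z
          exact hbound z
    _ = C ^ 2 * (2 * volume.real (Metric.closedBall (0 : Rd d) r0)) * ‖u‖ ^ 2 := by
        rw [integral_add j1 j2, integral_indicator m1, integral_indicator m2, setIntegral_const,
          setIntegral_const]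
        have hv : volume.real (Metric.closedBall u r0) =
            volume.real (Metric.closedBall (0 : Rd d) r0) := by
          rw [Measure.real, Measure.real, Measure.addHaar_closedBall_center]
        rw [hv, smul_eq_mul]
        ring

/-- `2(c(0)-c(x)) = ∫∫ (𝔎(y/t) - 𝔎((y-x)/t))² t^{-(d+1)} ≤ Λ²‖x‖²`. -/
theorem covK_reg : ∃ Λ : ℝ, 0 ≤ Λ ∧ ∀ x, 2 * (covK 𝔎 0 - covK 𝔎 x) ≤ Λ ^ 2 * ‖x‖ ^ 2 := by
  obtain ⟨Γ, hΓ0, hΓ⟩ := h.G1b_rho_reg
  refine ⟨Real.sqrt (4 * Γ), Real.sqrt_nonneg _, fun x => ?_⟩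
  rw [Real.sq_sqrt (by positivity), h.G1b_covK, h.G1b_covK,
    ← integral_sub (h.G1b_intOn 0) (h.G1b_intOn x), ← integral_const_mul]
  calc ∫ t in Ioc (1 / 2 : ℝ) 1, 2 * (t⁻¹ * G1b_rho 𝔎 (t⁻¹ • 0) - t⁻¹ * G1b_rho 𝔎 (t⁻¹ • x)) ≤
      ∫ t in Ioc (1 / 2 : ℝ) 1, 8 * Γ * ‖x‖ ^ 2 := by
        apply setIntegral_mono_on (((h.G1b_intOn 0).sub (h.G1b_intOn x)).const_mul 2)
          (integrableOn_const (by rw [Real.volume_Ioc]; exact ENNReal.ofReal_ne_top))
          measurableSet_Ioc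
        intro t ht
        have ht0 : 0 < t := by linarith [ht.1]
        have h1 := hΓ (t⁻¹ • x)
        have h2 : t⁻¹ ≤ 2 := by
          rw [inv_le_comm₀ ht0 (by norm_num)]
          linarith [ht.1]
        have h3 : 0 < t⁻¹ := by positivity
        rw [norm_smul, Real.norm_eq_abs, abs_of_pos h3] at h1
        have h4 : 2 * (t⁻¹ * G1b_rho 𝔎 (t⁻¹ • 0) - t⁻¹ * G1b_rho 𝔎 (t⁻¹ • x)) =
            t⁻¹ * (2 * (G1b_rho 𝔎 0 - G1b_rho 𝔎 (t⁻¹ • x))) := by
          rw [smul_zero]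
          ring
        simp only [Pi.sub_apply]
        rw [h4]
        calc t⁻¹ * (2 * (G1b_rho 𝔎 0 - G1b_rho 𝔎 (t⁻¹ • x))) ≤ t⁻¹ * (Γ * (t⁻¹ * ‖x‖) ^ 2) := by
              gcongr
          _ ≤ 2 * (Γ * (2 * ‖x‖) ^ 2) := by gcongr
          _ = 8 * Γ * ‖x‖ ^ 2 := by ring
    _ = 4 * Γ * ‖x‖ ^ 2 := by
        rw [setIntegral_const, Measure.real, Real.volume_Ioc, ENNReal.toReal_ofReal (by norm_num)]
        simp only [smul_eq_mul]
        ring


end IsKernel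
end MP_d19698_pr
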