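import Pool.Agent.Lib.MP_d19698_pr.G1b

/-! # G1c -/

open MeasureTheory ProbabilityTheory Filter Topology Set
open scoped ENNReal NNReal

namespace MP_d19698_pr
namespace IsKernel
variable {d : ℕ} [NeZero d] {𝔎 : Rd d → ℝ} {r0 : ℝ} (h : IsKernel 𝔎 r0)
include h

theorem G1c_measurable (n : ℕ) (x : Rd d) : Measurable (kern 𝔎 n x) := by
  have hKm := h.smooth.continuous.measurable
  unfold kern
  apply Measurable.ite
  · exact (measurableSet_lt measurable_const measurable_snd).inter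
      (measurableSet_le measurable_snd measurable_const)
  · fun_prop
  · exact measurable_const

/-- the kernel of `h_n(x)` is in `L²` -/
theorem memLp_kern (n : ℕ) (x : Rd d) : MemLp (kern 𝔎 n x) 2 (stVol d) := by
  obtain ⟨M, hM0, hM⟩ := h.G1b_bdd
  have hmS : MeasurableSet (Metric.closedBall x r0 ×ˢ Ioc ((1 / 2 : ℝ) ^ n) 1) :=
    (Metric.isClosed_closedBall.measurableSet).prod measurableSet_Ioc
  have hind : kern 𝔎 n x =
      (Metric.closedBall x r0 ×ˢ Ioc ((1 / 2 : ℝ) ^ n) 1).indicator (kern 𝔎 n x) := by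
    ext p
    by_cases hp : p ∈ Metric.closedBall x r0 ×ˢ Ioc ((1 / 2 : ℝ) ^ n) 1
    · rw [indicator_of_mem hp]
    · rw [indicator_of_notMem hp]
      unfold kern
      split_ifs with hc
      · have h3 : p.1 ∉ Metric.closedBall x r0 := fun hcc => hp ⟨hcc, hc⟩
        rw [Metric.mem_closedBall, dist_eq_norm, not_le] at h3
        have ht : 0 < p.2 := lt_trans (by positivity) hc.1
        have h4 : 𝔎 (p.2⁻¹ • (p.1 - x)) = 0 := by
          apply h.eq_zero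
          rw [norm_smul, norm_inv, Real.norm_eq_abs, abs_of_pos ht]
          have h5 : 1 ≤ p.2⁻¹ := (one_le_inv₀ ht).mpr hc.2
          nlinarith [norm_nonneg (p.1 - x)]
        rw [h4, zero_mul]
      · rfl
  rw [hind, memLp_indicator_iff_restrict hmS]
  have hfin : (stVol d) (Metric.closedBall x r0 ×ˢ Ioc ((1 / 2 : ℝ) ^ n) 1) < ⊤ := by
    refine lt_of_le_of_lt (Measure.restrict_apply_le _ _) ?_
    rw [Measure.volume_eq_prod, Measure.prod_prod]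
    apply ENNReal.mul_lt_top
    · exact measure_closedBall_lt_top
    · rw [Real.volume_Ioc]
      exact ENNReal.ofReal_lt_top
  haveI : IsFiniteMeasure ((stVol d).restrict
      (Metric.closedBall x r0 ×ˢ Ioc ((1 / 2 : ℝ) ^ n) 1)) := ⟨by
    rw [Measure.restrict_apply_univ]
    exact hfin⟩
  apply MemLp.of_bound (h.G1c_measurable n x).aestronglyMeasurable
    (M * (((1 / 2 : ℝ) ^ n)) ^ (-((d : ℝ) + 1) / 2))
  rw [ae_restrict_iff' hmS]
  filter_upwards with p hp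
  have ha : (0 : ℝ) < (1 / 2 : ℝ) ^ n := by positivity
  have h1 : (1 / 2 : ℝ) ^ n < p.2 := hp.2.1
  have ht : 0 < p.2 := lt_trans ha h1
  unfold kern
  rw [if_pos ⟨hp.2.1, hp.2.2⟩, norm_mul, Real.norm_eq_abs, Real.norm_eq_abs]
  have h2 : |p.2 ^ (-((d : ℝ) + 1) / 2)| ≤ ((1 / 2 : ℝ) ^ n) ^ (-((d : ℝ) + 1) / 2) := by
    rw [abs_of_pos (Real.rpow_pos_of_pos ht _)]
    apply Real.rpow_le_rpow_of_nonpos ha h1.le
    have : (0 : ℝ) ≤ d := Nat.cast_nonneg d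
    linarith
  exact mul_le_mul (hM _) h2 (abs_nonneg _) hM0

omit [NeZero d] h in
theorem G1c_level (k : ℕ) (x : Rd d) (p : Rd d × ℝ) :
    kern 𝔎 (k + 1) x p - kern 𝔎 k x p =
      if p.2 ∈ Ioc ((1 / 2 : ℝ) ^ (k + 1)) ((1 / 2 : ℝ) ^ k) then
        𝔎 (p.2⁻¹ • (p.1 - x)) * p.2 ^ (-((d : ℝ) + 1) / 2) else 0 := by
  have h1 : (1 / 2 : ℝ) ^ (k + 1) < (1 / 2 : ℝ) ^ k :=
    pow_lt_pow_right_of_lt_one₀ (by norm_num) (by norm_num) (Nat.lt_succ_self k)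
  have h2 : (1 / 2 : ℝ) ^ k ≤ 1 := pow_le_one₀ (by norm_num) (by norm_num)
  unfold kern
  simp only [mem_Ioc]
  by_cases c1 : (1 / 2 : ℝ) ^ (k + 1) < p.2
  · by_cases c2 : p.2 ≤ 1
    · by_cases c3 : (1 / 2 : ℝ) ^ k < p.2
      · rw [if_pos ⟨c1, c2⟩, if_pos ⟨c3, c2⟩, if_neg (fun hc => absurd hc.2 (not_le.mpr c3)), sub_self]
      · rw [if_pos ⟨c1, c2⟩, if_neg (fun hc => c3 hc.1), if_pos ⟨c1, not_lt.mp c3⟩, sub_zero]
    · rw [if_neg (fun hc => c2 hc.2), if_neg (fun hc => c2 hc.2),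
        if_neg (fun hc => c2 (hc.2.trans h2)), sub_self]
  · rw [if_neg (fun hc => c1 hc.1), if_neg (fun hc => c1 (h1.trans hc.1)),
      if_neg (fun hc => c1 hc.1), sub_self]

theorem G1c_inner (x y : Rd d) {t : ℝ} (ht : 0 < t) :
    ∫ w : Rd d, (𝔎 (t⁻¹ • (w - x)) * t ^ (-((d : ℝ) + 1) / 2)) *
      (𝔎 (t⁻¹ • (w - y)) * t ^ (-((d : ℝ) + 1) / 2)) = t⁻¹ * G1b_rho 𝔎 (t⁻¹ • (y - x)) := by
  have hpow : t ^ (-((d : ℝ) + 1) / 2) * t ^ (-((d : ℝ) + 1) / 2) = (t ^ (d + 1))⁻¹ := by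
    rw [← Real.rpow_add ht]
    have : -((d : ℝ) + 1) / 2 + -((d : ℝ) + 1) / 2 = -((d + 1 : ℕ) : ℝ) := by
      push_cast
      ring
    rw [this, Real.rpow_neg ht.le, Real.rpow_natCast]
  have h1 : ∀ w : Rd d, (𝔎 (t⁻¹ • (w - x)) * t ^ (-((d : ℝ) + 1) / 2)) *
      (𝔎 (t⁻¹ • (w - y)) * t ^ (-((d : ℝ) + 1) / 2)) =
      (fun v : Rd d => 𝔎 (t⁻¹ • v) * 𝔎 (t⁻¹ • (v - (y - x))) * (t ^ (d + 1))⁻¹) (w - x) := by
    intro w
    simp only
    rw [← hpow, show w - x - (y - x) = w - y by abel]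
    ring
  rw [integral_congr_ae (Filter.Eventually.of_forall h1),
    integral_sub_right_eq_self
      (fun v : Rd d => 𝔎 (t⁻¹ • v) * 𝔎 (t⁻¹ • (v - (y - x))) * (t ^ (d + 1))⁻¹) x]
  exact h.G1b_inner (y - x) ht

theorem G1c_even (u : Rd d) : G1b_rho 𝔎 (-u) = G1b_rho 𝔎 u := by
  have := h.G1b_rho_rot (LinearIsometryEquiv.neg ℝ) u
  rwa [LinearIsometryEquiv.coe_neg] at this

/-- covariance of the levels: with `κ_{k,x} = kern (k+1) x - kern k x` (supported in `2^{-k-1} < t ≤ 2^{-k}`),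
`∫ κ_{k,x} κ_{k',y} = 0` for `k ≠ k'` and `c(2^k(x-y))` for `k = k'` (substitute `t = 2^{-k} t'`, `y = 2^{-k} y' + x`). -/
theorem integral_kern (k k' : ℕ) (x y : Rd d) :
    ∫ p, (kern 𝔎 (k + 1) x p - kern 𝔎 k x p) * (kern 𝔎 (k' + 1) y p - kern 𝔎 k' y p) ∂(stVol d) =
      if k = k' then covK 𝔎 ((2 : ℝ) ^ k • (x - y)) else 0 := by
  have hanti : ∀ {i j : ℕ}, i ≤ j → (1 / 2 : ℝ) ^ j ≤ (1 / 2 : ℝ) ^ i := fun hij =>
    pow_le_pow_of_le_one (by norm_num) (by norm_num) hij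
  by_cases hk : k = k'
  · subst hk
    rw [if_pos rfl]
    have hint : Integrable (fun p => (kern 𝔎 (k + 1) x p - kern 𝔎 k x p) *
        (kern 𝔎 (k + 1) y p - kern 𝔎 k y p)) (stVol d) :=
      ((h.memLp_kern (k + 1) x).sub (h.memLp_kern k x)).integrable_mul
        ((h.memLp_kern (k + 1) y).sub (h.memLp_kern k y))
    have hst : stVol d = (volume : Measure (Rd d)).prod ((volume : Measure ℝ).restrict (Ioi 0)) := by
      have hset : {p : Rd d × ℝ | 0 < p.2} = univ ×ˢ Ioi (0 : ℝ) := by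
        ext p
        simp
      rw [stVol, hset, Measure.volume_eq_prod, ← Measure.prod_restrict, Measure.restrict_univ]
    rw [hst] at hint ⊢
    rw [integral_prod_symm _ hint]
    have hin : ∀ t ∈ Ioi (0 : ℝ), ∫ w : Rd d, (kern 𝔎 (k + 1) x (w, t) - kern 𝔎 k x (w, t)) *
        (kern 𝔎 (k + 1) y (w, t) - kern 𝔎 k y (w, t)) =
        (Ioc ((1 / 2 : ℝ) ^ (k + 1)) ((1 / 2 : ℝ) ^ k)).indicator
          (fun t => t⁻¹ * G1b_rho 𝔎 (t⁻¹ • (y - x))) t := by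
      intro t ht
      simp only [G1c_level]
      by_cases hc : t ∈ Ioc ((1 / 2 : ℝ) ^ (k + 1)) ((1 / 2 : ℝ) ^ k)
      · rw [indicator_of_mem hc]
        simp only [if_pos hc]
        exact h.G1c_inner x y ht
      · rw [indicator_of_notMem hc]
        simp only [if_neg hc, mul_zero, integral_zero]
    rw [setIntegral_congr_fun measurableSet_Ioi hin, setIntegral_indicator measurableSet_Ioc]
    have hss : Ioi (0 : ℝ) ∩ Ioc ((1 / 2 : ℝ) ^ (k + 1)) ((1 / 2 : ℝ) ^ k) =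
        Ioc ((1 / 2 : ℝ) ^ (k + 1)) ((1 / 2 : ℝ) ^ k) := by
      apply inter_eq_right.mpr
      intro t ht
      exact lt_trans (by positivity) ht.1
    rw [hss, ← intervalIntegral.integral_of_le (hanti (Nat.le_succ k)), h.G1b_covK,
      ← intervalIntegral.integral_of_le (by norm_num)]
    have hc0 : (1 / 2 : ℝ) ^ k ≠ 0 := by positivity
    have hsc := intervalIntegral.integral_comp_mul_left (a := 1 / 2) (b := 1)
      (fun t : ℝ => t⁻¹ * G1b_rho 𝔎 (t⁻¹ • (y - x))) hc0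
    rw [mul_one, show (1 / 2 : ℝ) ^ k * (1 / 2) = (1 / 2 : ℝ) ^ (k + 1) by rw [pow_succ]] at hsc
    have hsc2 : ∫ t in ((1 / 2 : ℝ) ^ (k + 1))..((1 / 2 : ℝ) ^ k), t⁻¹ * G1b_rho 𝔎 (t⁻¹ • (y - x)) =
        (1 / 2 : ℝ) ^ k * ∫ s in (1 / 2 : ℝ)..1, ((1 / 2 : ℝ) ^ k * s)⁻¹ *
          G1b_rho 𝔎 (((1 / 2 : ℝ) ^ k * s)⁻¹ • (y - x)) := by
      rw [hsc, smul_eq_mul, ← mul_assoc, mul_inv_cancel₀ hc0, one_mul]
    rw [hsc2, ← intervalIntegral.integral_const_mul]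
    congr 1
    ext s
    have hinv : ((1 / 2 : ℝ) ^ k)⁻¹ = (2 : ℝ) ^ k := by
      rw [one_div, inv_pow, inv_inv]
    have hvec : ((1 / 2 : ℝ) ^ k * s)⁻¹ • (y - x) = -(s⁻¹ • (2 : ℝ) ^ k • (x - y)) := by
      rw [mul_inv, hinv, smul_smul, ← smul_neg, neg_sub, mul_comm]
    rw [hvec, h.G1c_even, mul_inv, ← mul_assoc, ← mul_assoc, mul_inv_cancel₀ hc0, one_mul]
  · rw [if_neg hk]
    apply integral_eq_zero_of_ae
    filter_upwards with p
    simp only [G1c_level, Pi.zero_apply, mem_Ioc]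
    rcases lt_or_gt_of_ne hk with hlt | hlt
    · have h1 := hanti (Nat.succ_le_of_lt hlt)
      by_cases c1 : (1 / 2 : ℝ) ^ (k + 1) < p.2 ∧ p.2 ≤ (1 / 2 : ℝ) ^ k
      · rw [if_neg (fun hc : (1 / 2 : ℝ) ^ (k' + 1) < p.2 ∧ p.2 ≤ (1 / 2 : ℝ) ^ k' => ?_), mul_zero]
        exact absurd (hc.2.trans h1) (not_le.mpr c1.1)
      · rw [if_neg c1, zero_mul]
    · have h1 := hanti (Nat.succ_le_of_lt hlt)
      by_cases c1 : (1 / 2 : ℝ) ^ (k' + 1) < p.2 ∧ p.2 ≤ (1 / 2 : ℝ) ^ k'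
      · rw [if_neg (fun hc : (1 / 2 : ℝ) ^ (k + 1) < p.2 ∧ p.2 ≤ (1 / 2 : ℝ) ^ k => ?_), zero_mul]
        exact absurd (hc.2.trans h1) (not_le.mpr c1.1)
      · rw [if_neg c1, mul_zero]

end IsKernel

end MP_d19698_pr
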