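import Pool.Agent.Lib.MP_d19698_pr.G1c

/-!
# G2: from the white noise to the environment
-/

open MeasureTheory ProbabilityTheory Filter Topology Set
open scoped ENNReal NNReal

namespace MP_d19698_pr

/-- the level fields: `η 0 = h 1`, `η k = h (k+1) - h k`. -/
def levels {d : ℕ} {Ω : Type*} (h : ℕ → Ω → Rd d → ℝ) (k : ℕ) (ω : Ω) (x : Rd d) : ℝ :=
  if k = 0 then h 1 ω x else h (k + 1) ω x - h k ω x

theorem sum_levels {d : ℕ} {Ω : Type*} (h : ℕ → Ω → Rd d → ℝ) (n : ℕ) (hn : 1 ≤ n) (ω : Ω) (x : Rd d) :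
    ∑ k ∈ Finset.range n, levels h k ω x = h n ω x := by
  induction n with
  | zero => omega
  | succ n ih =>
    rcases Nat.eq_zero_or_pos n with h0 | h0
    · subst h0
      simp [levels]
    · rw [Finset.sum_range_succ, ih h0]
      unfold levels
      rw [if_neg h0.ne']
      ring

variable {d : ℕ} [NeZero d] {Ω : Type*} [MeasurableSpace Ω] {P : Measure Ω} [IsProbabilityMeasure P]
  {W : (Rd d × ℝ → ℝ) → Ω → ℝ} {𝔎 : Rd d → ℝ} {r0 : ℝ} {h : ℕ → Ω → Rd d → ℝ}

omit [NeZero d] in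
private lemma G2_kern_zero (x : Rd d) : kern 𝔎 0 x = fun _ => 0 := by
  funext p
  unfold kern
  rw [if_neg]
  rintro ⟨h1, h2⟩
  rw [pow_zero] at h1
  linarith

omit [NeZero d] [IsProbabilityMeasure P] in
private lemma G2_law (hW : IsWhiteNoise P W) {f : Rd d × ℝ → ℝ} (hf : MemLp f 2 (stVol d)) : HasGaussianLaw (W f) P :=
  hW.gauss.hasGaussianLaw_eval ⟨f, hf⟩

omit [NeZero d] [IsProbabilityMeasure P] in
private lemma G2_zero (hW : IsWhiteNoise P W) : W (fun _ => 0) =ᵐ[P] fun _ => 0 := by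
  have h0 : MemLp (fun _ : Rd d × ℝ => (0 : ℝ)) 2 (stVol d) := MemLp.zero'
  have h1 := hW.cov _ _ h0 h0
  simp only [mul_zero, integral_zero] at h1
  have hL := (G2_law hW h0).memLp_two
  have h2 : Integrable (fun ω => W (fun _ => 0) ω * W (fun _ => 0) ω) P := hL.integrable_mul hL
  have h3 := (integral_eq_zero_iff_of_nonneg (fun ω => mul_self_nonneg _) h2).mp h1
  filter_upwards [h3] with ω hω
  exact mul_self_eq_zero.mp hω

private lemma G2_expand {α : Type*} [MeasurableSpace α] (μ : Measure α) {a b a' b' : α → ℝ} (ha : MemLp a 2 μ) (hb : MemLp b 2 μ)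
    (ha' : MemLp a' 2 μ) (hb' : MemLp b' 2 μ) :
    ∫ p, (a p - b p) * (a' p - b' p) ∂μ =
      ∫ p, a p * a' p ∂μ - ∫ p, a p * b' p ∂μ - (∫ p, b p * a' p ∂μ - ∫ p, b p * b' p ∂μ) := by
  have i1 : Integrable (fun p => a p * a' p) μ := ha.integrable_mul ha'
  have i2 : Integrable (fun p => a p * b' p) μ := ha.integrable_mul hb'
  have i3 : Integrable (fun p => b p * a' p) μ := hb.integrable_mul ha'
  have i4 : Integrable (fun p => b p * b' p) μ := hb.integrable_mul hb'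
  have e : ∀ p, (a p - b p) * (a' p - b' p) = (a p * a' p - a p * b' p) - (b p * a' p - b p * b' p) := fun p => by ring
  simp_rw [e]
  rw [integral_sub (f := fun p => a p * a' p - a p * b' p) (g := fun p => b p * a' p - b p * b' p) (i1.sub i2) (i3.sub i4),
    integral_sub i1 i2, integral_sub i3 i4]

omit [NeZero d] [IsProbabilityMeasure P] in
private lemma G2_cov (hW : IsWhiteNoise P W) {f g f' g' : Rd d × ℝ → ℝ} (hf : MemLp f 2 (stVol d)) (hg : MemLp g 2 (stVol d))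
    (hf' : MemLp f' 2 (stVol d)) (hg' : MemLp g' 2 (stVol d)) :
    ∫ ω, (W f ω - W g ω) * (W f' ω - W g' ω) ∂P = ∫ p, (f p - g p) * (f' p - g' p) ∂(stVol d) := by
  rw [G2_expand P (G2_law hW hf).memLp_two (G2_law hW hg).memLp_two (G2_law hW hf').memLp_two (G2_law hW hg').memLp_two,
    G2_expand (stVol d) hf hg hf' hg', hW.cov _ _ hf hf', hW.cov _ _ hf hg', hW.cov _ _ hg hf', hW.cov _ _ hg hg']

/-- every level is a.s. the difference of the white noise integrals of `kern (k+1) x` and `kern k x` -/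
theorem levels_ae (hW : IsWhiteNoise P W) (hh : IsFieldOf P W 𝔎 h) (k : ℕ) (x : Rd d) :
    (fun ω => levels h k ω x) =ᵐ[P] fun ω => W (kern 𝔎 (k + 1) x) ω - W (kern 𝔎 k x) ω := by
  have h1 := hh.ae_eq (k + 1) (by omega) x
  rcases Nat.eq_zero_or_pos k with h0 | h0
  · subst h0
    filter_upwards [h1, G2_zero hW] with ω hω h2
    rw [G2_kern_zero x, h2, sub_zero, ← hω]
    simp [levels]
  · filter_upwards [h1, hh.ae_eq k h0 x] with ω e1 e2
    rw [← e1, ← e2]
    unfold levels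
    rw [if_neg h0.ne']

theorem isGaussianProcess_levels (hK : IsKernel 𝔎 r0) (hW : IsWhiteNoise P W) (hh : IsFieldOf P W 𝔎 h) :
    IsGaussianProcess (fun (p : ℕ × Rd d) ω => levels h p.1 ω p.2) P := by
  classical
  have hY : IsGaussianProcess (fun (p : ℕ × Rd d) ω => W (kern 𝔎 (p.1 + 1) p.2) ω - W (kern 𝔎 p.1 p.2) ω) P := by
    refine hW.gauss.of_isGaussianProcess fun p => ?_
    refine ⟨{⟨kern 𝔎 (p.1 + 1) p.2, hK.memLp_kern (p.1 + 1) p.2⟩, ⟨kern 𝔎 p.1 p.2, hK.memLp_kern p.1 p.2⟩},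
      ContinuousLinearMap.proj ⟨⟨kern 𝔎 (p.1 + 1) p.2, hK.memLp_kern (p.1 + 1) p.2⟩, by simp⟩ -
        ContinuousLinearMap.proj ⟨⟨kern 𝔎 p.1 p.2, hK.memLp_kern p.1 p.2⟩, by simp⟩, fun ω => ?_⟩
    simp
  exact hY.congr fun p => (levels_ae hW hh p.1 p.2).symm

theorem mean_levels (hK : IsKernel 𝔎 r0) (hW : IsWhiteNoise P W) (hh : IsFieldOf P W 𝔎 h) (k : ℕ) (x : Rd d) :
    ∫ ω, levels h k ω x ∂P = 0 := by
  rw [integral_congr_ae (levels_ae hW hh k x),
    integral_sub (G2_law hW (hK.memLp_kern (k + 1) x)).integrable (G2_law hW (hK.memLp_kern k x)).integrable,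
    hW.mean _ (hK.memLp_kern (k + 1) x), hW.mean _ (hK.memLp_kern k x), sub_zero]

theorem cov_levels (hK : IsKernel 𝔎 r0) (hW : IsWhiteNoise P W) (hh : IsFieldOf P W 𝔎 h) (k k' : ℕ) (x y : Rd d) :
    ∫ ω, levels h k ω x * levels h k' ω y ∂P = if k = k' then covK 𝔎 ((2 : ℝ) ^ k • (x - y)) else 0 := by
  have h1 : ∫ ω, levels h k ω x * levels h k' ω y ∂P =
      ∫ ω, (W (kern 𝔎 (k + 1) x) ω - W (kern 𝔎 k x) ω) * (W (kern 𝔎 (k' + 1) y) ω - W (kern 𝔎 k' y) ω) ∂P := by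
    apply integral_congr_ae
    filter_upwards [levels_ae hW hh k x, levels_ae hW hh k' y] with ω e1 e2
    rw [e1, e2]
  rw [h1, G2_cov hW (hK.memLp_kern (k + 1) x) (hK.memLp_kern k x) (hK.memLp_kern (k' + 1) y) (hK.memLp_kern k' y),
    ← hK.integral_kern k k' x y]

/-- **The environment of the problem.** -/
noncomputable def mkEnv (hd : 2 ≤ d) (hK : IsKernel 𝔎 r0) (hW : IsWhiteNoise P W) (hh : IsFieldOf P W 𝔎 h) (ξ : ℝ) (hξ : 0 < ξ)
    (hξ' : ξ < Real.sqrt (2 * d)) : Env d where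
  Ω := Ω
  mΩ := inferInstance
  P := P
  hP := inferInstance
  η := levels h
  𝔎 := 𝔎
  r0 := r0
  Λ := Classical.choose hK.covK_reg
  hr0 := hK.r0_pos
  hΛ := (Classical.choose_spec hK.covK_reg).1
  hKcont := hK.smooth.continuous
  hKsupp := fun _ hx => hK.eq_zero hx
  hKlip := hK.lipschitz
  meas := by
    intro k x
    unfold levels
    split_ifs with hk
    · exact hh.meas 1 le_rfl x
    · exact (hh.meas (k + 1) (by omega) x).sub (hh.meas k (by omega) x)
  cont := by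
    intro k ω
    unfold levels
    split_ifs with hk
    · exact (hh.smooth 1 le_rfl ω).continuous
    · exact (hh.smooth (k + 1) (by omega) ω).continuous.sub (hh.smooth k (by omega) ω).continuous
  gauss := isGaussianProcess_levels hK hW hh
  mean := mean_levels hK hW hh
  cov := cov_levels hK hW hh
  c_zero := hK.covK_zero
  c_supp := fun _ hx => hK.covK_supp hx
  c_rot := hK.covK_rot
  c_reg := (Classical.choose_spec hK.covK_reg).2
  hd := hd
  ξ := ξ
  hξ := hξ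
  hβ := hξ'

theorem mkEnv_hf (hd : 2 ≤ d) (hK : IsKernel 𝔎 r0) (hW : IsWhiteNoise P W) (hh : IsFieldOf P W 𝔎 h) (ξ : ℝ) (hξ : 0 < ξ)
    (hξ' : ξ < Real.sqrt (2 * d)) (n : ℕ) (hn : 1 ≤ n) (ω : Ω) (x : Rd d) :
    (mkEnv hd hK hW hh ξ hξ hξ').hf 0 n ω x = ξ * h n ω x := by
  show ξ * ∑ k ∈ Finset.Ico 0 n, levels h k ω x = _
  rw [← Finset.range_eq_Ico, sum_levels h n hn]

end MP_d19698_pr
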