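import Pool.Agent.Lib.MP_d19698_pr.G2
import Pool.Agent.Lib.MP_d19698_pr.A5b
import Pool.Agent.Lib.MP_d19698_pr.C2c

/-!
# G3: bridge to the real-valued distance of the problem; `ξ < √(2d)`; the rate hypothesis
-/

open MeasureTheory ProbabilityTheory Filter Topology Set
open scoped ENNReal NNReal

namespace MP_d19698_pr

variable {d : ℕ}

/-- finiteness of the length of a curve for a continuous weight -/
private theorem G3a_len_lt_top {f : Rd d → ℝ} (hf : Continuous f) (c : Curve d) : c.len f univ < ∞ := by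
  obtain ⟨M, hM⟩ := c.isCompact_img.exists_bound_of_continuousOn hf.continuousOn
  exact c.len_lt_top f univ fun x hx => (le_abs_self _).trans (hM x hx)

/-- the length of a piecewise `C¹` path on `[0,1]` -/
private theorem G3a_len_eq (ξ : ℝ) {h : Rd d → ℝ} (hh : Continuous h) (c : Curve d) (ha : c.a = 0)
    (hb : c.b = 1) : c.len (fun x => ξ * h x) univ = ENNReal.ofReal (pathLen ξ h c.fn) := by
  have hcont : ContinuousOn c.fn (Icc 0 1) := by
    have := c.pc1.continuousOn
    rwa [ha, hb] at this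
  have hnn : ∀ t, 0 ≤ Real.exp (ξ * h (c.fn t)) * ‖deriv c.fn t‖ := fun t => by positivity
  have hmeas : AEStronglyMeasurable (fun t => Real.exp (ξ * h (c.fn t)) * ‖deriv c.fn t‖)
      (volume.restrict (Icc (0 : ℝ) 1)) := by
    apply AEStronglyMeasurable.mul
    · apply ContinuousOn.aestronglyMeasurable _ measurableSet_Icc
      exact Real.continuous_exp.comp_continuousOn
        (continuousOn_const.mul (hh.comp_continuousOn hcont))
    · exact (stronglyMeasurable_deriv c.fn).norm.aestronglyMeasurable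
  have h1 : c.len (fun x => ξ * h x) univ =
      ∫⁻ t in Icc (0 : ℝ) 1, ENNReal.ofReal (Real.exp (ξ * h (c.fn t)) * ‖deriv c.fn t‖) := by
    unfold Curve.len
    rw [preimage_univ, inter_univ, ha, hb]
    refine lintegral_congr fun t => ?_
    rw [ENNReal.ofReal_mul (Real.exp_pos _).le, ofReal_norm]
  have h2 : pathLen ξ h c.fn = ∫ t in Icc (0 : ℝ) 1, Real.exp (ξ * h (c.fn t)) * ‖deriv c.fn t‖ := by
    unfold pathLen
    rw [intervalIntegral.integral_of_le zero_le_one, integral_Icc_eq_integral_Ioc]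
  rw [h2, integral_eq_lintegral_of_nonneg_ae (Eventually.of_forall hnn) hmeas, ← h1,
    ENNReal.ofReal_toReal]
  apply ne_of_lt
  apply G3a_len_lt_top
  exact continuous_const.mul hh

/-- The distance of the problem is the real part of `D`. For continuous `h`. (If there is no path both sides are `0`. Otherwise every `pathLen` is `(len).toReal`, and all lengths are
finite; `Curve.exists_unit` reduces to curves on `[0,1]`.) -/
theorem expDist_eq (ξ : ℝ) {h : Rd d → ℝ} (hh : Continuous h) (U : Set (Rd d)) (z w : Rd d) :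
    expDist ξ h U z w = (D (fun x => ξ * h x) {z} {w} U).toReal := by
  obtain ⟨S, hS⟩ : ∃ S : Set ℝ, S = {L | ∃ P : ℝ → Rd d, PC1On P 0 1 ∧ P 0 = z ∧ P 1 = w ∧
    (∀ t ∈ Icc (0 : ℝ) 1, P t ∈ U) ∧ L = pathLen ξ h P} := ⟨_, rfl⟩
  have hSe : expDist ξ h U z w = sInf S := by rw [hS]; rfl
  rw [hSe]
  -- paths give curves
  have h1 : ∀ L ∈ S, 0 ≤ L ∧ D (fun x => ξ * h x) {z} {w} U ≤ ENNReal.ofReal L := by
    intro L hL
    rw [hS] at hL
    obtain ⟨P, hP, hP0, hP1, hPU, rfl⟩ := hL
    refine ⟨?_, ?_⟩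
    · unfold pathLen
      rw [intervalIntegral.integral_of_le zero_le_one]
      exact integral_nonneg fun t => by positivity
    · have h2 := D_le_len (fun x => ξ * h x) (A := {z}) (B := {w}) (U := U)
        ⟨P, 0, 1, zero_le_one, hP⟩ hP0 hP1 (by
          rintro _ ⟨t, ht, rfl⟩
          exact hPU t ht)
      rwa [G3a_len_eq ξ hh ⟨P, 0, 1, zero_le_one, hP⟩ rfl rfl] at h2
  -- curves give paths
  have h2 : ∀ t : ℝ≥0∞, D (fun x => ξ * h x) {z} {w} U < t → ∃ L ∈ S, ENNReal.ofReal L < t := by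
    intro t ht
    obtain ⟨c, hc1, hc2, hc3, hc4⟩ := exists_curve_lt ht
    obtain ⟨c', ha, hb, hs, htg, himg, hlen⟩ := c.exists_unit
    refine ⟨pathLen ξ h c'.fn, ?_, ?_⟩
    · rw [hS]
      refine ⟨c'.fn, ?_, ?_, ?_, ?_, rfl⟩
      · have := c'.pc1
        rwa [ha, hb] at this
      · have h3 : c'.fn c'.a = c.src := hs
        rw [ha] at h3
        rw [h3]
        exact hc1
      · have h3 : c'.fn c'.b = c.tgt := htg
        rw [hb] at h3
        rw [h3]
        exact hc2
      · intro t ht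
        apply hc3
        rw [← himg]
        exact ⟨t, by rwa [ha, hb], rfl⟩
    · rw [← G3a_len_eq ξ hh c' ha hb, hlen]
      exact hc4
  have hbdd : BddBelow S := ⟨0, fun L hL => (h1 L hL).1⟩
  by_cases htop : D (fun x => ξ * h x) {z} {w} U = ⊤
  · have hSe : S = ∅ := by
      rw [Set.eq_empty_iff_forall_notMem]
      intro L hL
      have := (h1 L hL).2
      rw [htop, top_le_iff] at this
      exact ENNReal.ofReal_ne_top this
    rw [hSe, htop, Real.sInf_empty, ENNReal.toReal_top]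
  · apply le_antisymm
    · apply le_of_forall_pos_le_add
      intro ε hε
      have h3 : D (fun x => ξ * h x) {z} {w} U < D (fun x => ξ * h x) {z} {w} U + ENNReal.ofReal ε :=
        ENNReal.lt_add_right htop (by rw [Ne, ENNReal.ofReal_eq_zero, not_le]; exact hε)
      obtain ⟨L, hL, hLt⟩ := h2 _ h3
      have h4 : L ≤ (D (fun x => ξ * h x) {z} {w} U).toReal + ε := by
        have h5 : (ENNReal.ofReal L).toReal ≤
            (D (fun x => ξ * h x) {z} {w} U + ENNReal.ofReal ε).toReal :=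
          ENNReal.toReal_mono (ENNReal.add_ne_top.2 ⟨htop, ENNReal.ofReal_ne_top⟩) hLt.le
        rw [ENNReal.toReal_ofReal (h1 L hL).1, ENNReal.toReal_add htop ENNReal.ofReal_ne_top,
          ENNReal.toReal_ofReal hε.le] at h5
        exact h5
      exact (csInf_le hbdd hL).trans h4
    · obtain ⟨L0, hL0, _⟩ := h2 ⊤ (lt_top_iff_ne_top.2 htop)
      apply le_csInf ⟨L0, hL0⟩
      intro L hL
      have h5 := ENNReal.toReal_mono ENNReal.ofReal_ne_top (h1 L hL).2
      rwa [ENNReal.toReal_ofReal (h1 L hL).1] at h5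

/-- continuity of `D_n` (so the hypothesis ``Dn n ω : C(ℝ^d × ℝ^d, ℝ)`` of the final theorem is satisfiable) -/
theorem continuous_expDist [NeZero d] {ξ : ℝ} {h : Rd d → ℝ} (hh : Continuous h) :
    Continuous fun p : Rd d × Rd d => expDist ξ h univ p.1 p.2 := by
  obtain ⟨f, hf⟩ : ∃ f : Rd d → ℝ, f = fun x => ξ * h x := ⟨_, rfl⟩
  have hfc : Continuous f := hf ▸ continuous_const.mul hh
  simp only [expDist_eq ξ hh univ, ← hf]
  -- local bounds
  have hseg : ∀ x : Rd d, ∃ M : ℝ, ∀ y z : Rd d, ‖y - x‖ ≤ 1 → ‖z - x‖ ≤ 1 →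
      D f {y} {z} univ ≤ ENNReal.ofReal (Real.exp M * ‖y - z‖) := by
    intro x
    obtain ⟨M, hM⟩ := (isCompact_closedBall x 1).exists_bound_of_continuousOn hfc.continuousOn
    refine ⟨M, fun y z hy hz => D_seg f (subset_univ _) ?_⟩
    intro p hp
    have h1 : segment ℝ y z ⊆ Metric.closedBall x 1 :=
      (convex_closedBall x 1).segment_subset (mem_closedBall_iff_norm.2 hy) (mem_closedBall_iff_norm.2 hz)
    exact (le_abs_self _).trans (hM p (h1 hp))
  have hfin : ∀ y z : Rd d, D f {y} {z} univ ≠ ⊤ := by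
    intro y z
    obtain ⟨M, hM⟩ := (isCompact_closedBall y ‖z - y‖).exists_bound_of_continuousOn hfc.continuousOn
    have h0 : segment ℝ y z ⊆ Metric.closedBall y ‖z - y‖ :=
      (convex_closedBall y ‖z - y‖).segment_subset (Metric.mem_closedBall_self (norm_nonneg _))
        (mem_closedBall_iff_norm.2 le_rfl)
    have h1 := D_seg f (x := y) (y := z) (U := univ) (M := M) (subset_univ _)
      (fun p hp => (le_abs_self _).trans (hM p (h0 hp)))
    exact ne_top_of_le_ne_top ENNReal.ofReal_ne_top h1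
  have htri : ∀ x y z : Rd d, (D f {x} {z} univ).toReal ≤
      (D f {x} {y} univ).toReal + (D f {y} {z} univ).toReal := by
    intro x y z
    rw [← ENNReal.toReal_add (hfin _ _) (hfin _ _)]
    exact ENNReal.toReal_mono (ENNReal.add_ne_top.2 ⟨hfin _ _, hfin _ _⟩) (D_tri f _ _ y _)
  rw [continuous_iff_continuousAt]
  rintro ⟨x0, y0⟩
  obtain ⟨M1, hM1⟩ := hseg x0
  obtain ⟨M2, hM2⟩ := hseg y0
  rw [ContinuousAt, tendsto_iff_norm_sub_tendsto_zero]
  have hlim : Tendsto (fun p : Rd d × Rd d => Real.exp M1 * ‖p.1 - x0‖ + Real.exp M2 * ‖p.2 - y0‖)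
      (𝓝 (x0, y0)) (𝓝 0) := by
    have h1 : Continuous (fun p : Rd d × Rd d =>
        Real.exp M1 * ‖p.1 - x0‖ + Real.exp M2 * ‖p.2 - y0‖) := by fun_prop
    have h2 := h1.tendsto (x0, y0)
    simpa using h2
  refine squeeze_zero' (Eventually.of_forall fun p => norm_nonneg _) ?_ hlim
  have hev1 : ∀ᶠ p : Rd d × Rd d in 𝓝 (x0, y0), ‖p.1 - x0‖ ≤ 1 := by
    have h1 : Continuous (fun p : Rd d × Rd d => ‖p.1 - x0‖) := by fun_prop
    have h2 := h1.tendsto (x0, y0)
    simp only [sub_self, norm_zero] at h2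
    exact h2.eventually (eventually_le_nhds one_pos)
  have hev2 : ∀ᶠ p : Rd d × Rd d in 𝓝 (x0, y0), ‖p.2 - y0‖ ≤ 1 := by
    have h1 : Continuous (fun p : Rd d × Rd d => ‖p.2 - y0‖) := by fun_prop
    have h2 := h1.tendsto (x0, y0)
    simp only [sub_self, norm_zero] at h2
    exact h2.eventually (eventually_le_nhds one_pos)
  filter_upwards [hev1, hev2] with p hp1 hp2
  have hx : (D f {p.1} {x0} univ).toReal ≤ Real.exp M1 * ‖p.1 - x0‖ := by
    have h1 := ENNReal.toReal_mono ENNReal.ofReal_ne_top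
      (hM1 p.1 x0 hp1 (by rw [sub_self, norm_zero]; exact zero_le_one))
    rwa [ENNReal.toReal_ofReal (by positivity)] at h1
  have hy : (D f {y0} {p.2} univ).toReal ≤ Real.exp M2 * ‖p.2 - y0‖ := by
    have h1 := ENNReal.toReal_mono ENNReal.ofReal_ne_top
      (hM2 y0 p.2 (by rw [sub_self, norm_zero]; exact zero_le_one) hp2)
    rw [ENNReal.toReal_ofReal (by positivity), norm_sub_rev] at h1
    exact h1
  have hx' : (D f {x0} {p.1} univ).toReal ≤ Real.exp M1 * ‖p.1 - x0‖ := by
    rw [D_symm]; exact hx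
  have hy' : (D f {p.2} {y0} univ).toReal ≤ Real.exp M2 * ‖p.2 - y0‖ := by
    rw [D_symm]; exact hy
  have t1 := htri p.1 x0 p.2
  have t2 := htri x0 y0 p.2
  have t3 := htri x0 p.1 y0
  have t4 := htri p.1 p.2 y0
  rw [Real.norm_eq_abs, abs_le]
  constructor <;> linarith

variable [NeZero d]


end MP_d19698_pr
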