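import Pool.Agent.Lib.MP_d19698_pr.G3a

/-! # G3b -/

open MeasureTheory ProbabilityTheory Filter Topology Set
open scoped ENNReal NNReal

namespace MP_d19698_pr
variable {d : ℕ}
variable [NeZero d]

private theorem G3b_rpow_sum {ι : Type*} (s : Finset ι) (f : ι → ℝ≥0∞) {p : ℝ} (hp : 0 < p) (hp1 : p ≤ 1) :
    (∑ i ∈ s, f i) ^ p ≤ ∑ i ∈ s, f i ^ p := by
  classical
  induction s using Finset.induction_on with
  | empty => simp [ENNReal.zero_rpow_of_pos hp]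
  | insert a s ha ih =>
    rw [Finset.sum_insert ha, Finset.sum_insert ha]
    exact (ENNReal.rpow_add_le_add_rpow _ _ hp.le hp1).trans (add_le_add le_rfl ih)

private theorem G3b_ee_abs (i : Fin d) : |(ee (0 : Fin d) : Rd d) i| ≤ 1 := by
  unfold ee
  rw [PiLp.single_apply]
  split_ifs <;> simp

/-- **Fractional moments.** For any environment `E` (its own `ξ` is irrelevant) and any `ξ ≥ √2`: a number `m` with `P[X_n ≥ m] ≥ 1/2`, `X_n` the distance of `0` and `e_1` in `Box 0 2` for `ξ h_n`, satisfies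
`m ≤ C 2^{(√2 ξ - 1) n}`. Proof: `s = √2/ξ ≤ 1`, `X_n ≤ ∑_{k < 2^n} 2^{-n} e^{ξ U_k}`, `U_k ≥ h_{0,n}` on the `k`-th edge (`osc_moment`), `E X_n^s ≤ 2^n 2^{-ns} C 2^{(ξ s)² n/2} = C 2^{(2-s) n}`; Markov:
`m^s ≤ 2C 2^{(2-s)n}`, `2/s = √2 ξ`. -/
theorem frac_moment (E : Env d) {ξ : ℝ} (hξ : Real.sqrt 2 ≤ ξ) : ∃ C : ℝ, 0 < C ∧ ∀ (n : ℕ) (m : ℝ),
    1 / 2 ≤ E.P.real {ω | m ≤ (D (fun x => ξ * E.hh 0 n ω x) {0} {ee 0} (Box 0 2)).toReal} → m ≤ C * (2 : ℝ) ^ ((Real.sqrt 2 * ξ - 1) * n) := by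
  obtain ⟨C0, Cs, hC0, hCs, hosc⟩ := E.osc_moment (R := 1) one_pos
  have h2 : (0 : ℝ) < Real.sqrt 2 := Real.sqrt_pos.2 two_pos
  have hξ0 : 0 < ξ := lt_of_lt_of_le h2 hξ
  obtain ⟨K, hK⟩ : ∃ K : ℝ, K = Cs (Real.sqrt 2) := ⟨_, rfl⟩
  have hK0 : 0 < K := hK ▸ hCs _
  obtain ⟨s, hs⟩ : ∃ s : ℝ, s = Real.sqrt 2 / ξ := ⟨_, rfl⟩
  have hs0 : 0 < s := hs ▸ div_pos h2 hξ0
  have hs1 : s ≤ 1 := by rw [hs, div_le_one hξ0]; exact hξ
  have hξs : ξ * s = Real.sqrt 2 := by rw [hs]; field_simp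
  refine ⟨(2 * K) ^ (1 / s), by positivity, ?_⟩
  intro n m hm
  by_cases hm0 : m ≤ 0
  · exact hm0.trans (by positivity)
  push Not at hm0
  have hdy : 0 < dy n := dy_pos n
  -- the points
  obtain ⟨p, hp⟩ : ∃ p : ℕ → Rd d, p = fun k : ℕ => ((k : ℝ) * dy n) • ee 0 := ⟨_, rfl⟩
  have hp0 : p 0 = 0 := by rw [hp]; simp
  have hpN : p (2 ^ n) = ee 0 := by
    rw [hp]
    simp only [Nat.cast_pow, Nat.cast_ofNat, two_pow_mul_dy, one_smul]
  have hstep : ∀ k, p (k + 1) - p k = dy n • ee 0 := by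
    intro k
    rw [hp]
    simp only [Nat.cast_add, Nat.cast_one]
    rw [← sub_smul]
    congr 1
    ring
  have hseg : ∀ k, ∀ q ∈ segment ℝ (p k) (p (k + 1)), ∃ t : ℝ, 0 ≤ t ∧ t ≤ 1 ∧
      q = p k + (t * dy n) • ee 0 := by
    intro k q hq
    rw [segment_eq_image'] at hq
    obtain ⟨t, ⟨ht0, ht1⟩, rfl⟩ := hq
    refine ⟨t, ht0, ht1, ?_⟩
    simp only [hstep, smul_smul]
  have hsegC : ∀ k, ∀ q ∈ segment ℝ (p k) (p (k + 1)), q ∈ CBox (p k) (1 * dy n) := by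
    intro k q hq i
    obtain ⟨t, ht0, ht1, rfl⟩ := hseg k q hq
    have h3 := G3b_ee_abs (d := d) i
    have h4 : (p k + (t * dy n) • ee (0 : Fin d) : Rd d) i - p k i = (t * dy n) * (ee (0 : Fin d) : Rd d) i := by
      simp
    rw [h4, abs_mul, abs_of_nonneg (by positivity : 0 ≤ t * dy n), one_mul]
    calc t * dy n * |(ee (0 : Fin d) : Rd d) i| ≤ 1 * dy n * 1 := by
          apply mul_le_mul _ h3 (abs_nonneg _) (by positivity)
          exact mul_le_mul_of_nonneg_right ht1 hdy.le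
      _ = dy n := by ring
  have hsegB : ∀ k < 2 ^ n, segment ℝ (p k) (p (k + 1)) ⊆ Box 0 2 := by
    intro k hk q hq i
    obtain ⟨t, ht0, ht1, rfl⟩ := hseg k q hq
    have h3 := G3b_ee_abs (d := d) i
    have h4 : (p k + (t * dy n) • ee (0 : Fin d) : Rd d) i - (0 : Rd d) i =
        (((k : ℝ) + t) * dy n) * (ee (0 : Fin d) : Rd d) i := by
      rw [hp]
      simp
      ring
    rw [h4, abs_mul, abs_of_nonneg (by positivity : 0 ≤ ((k : ℝ) + t) * dy n)]
    have h5 : ((k : ℝ) + t) ≤ 2 ^ n := by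
      have : ((k + 1 : ℕ) : ℝ) ≤ ((2 ^ n : ℕ) : ℝ) := by exact_mod_cast hk
      push_cast at this
      linarith
    have h6 : ((k : ℝ) + t) * dy n ≤ 1 := by
      calc ((k : ℝ) + t) * dy n ≤ 2 ^ n * dy n := mul_le_mul_of_nonneg_right h5 hdy.le
        _ = 1 := two_pow_mul_dy n
    nlinarith [abs_nonneg ((ee (0 : Fin d) : Rd d) i),
      (by positivity : 0 ≤ ((k : ℝ) + t) * dy n)]
  have hnorm : ∀ k, ‖p k - p (k + 1)‖ = dy n := by
    intro k
    rw [norm_sub_rev, hstep, norm_smul, Real.norm_of_nonneg hdy.le]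
    unfold ee
    rw [PiLp.norm_single]
    simp
  -- the random variables
  choose om hom1 hom2 hom3 hom4 hom5 using fun k : ℕ => hosc n (p k)
  obtain ⟨V, hV⟩ : ∃ V : ℕ → E.Ω → ℝ, V = fun k ω => E.hh 0 n ω (p k) + om k ω := ⟨_, rfl⟩
  have hVm : ∀ k, Measurable (V k) := by
    intro k
    rw [hV]
    exact (E.measurable_hh 0 n (p k)).add ((hom1 k).mono (E.LL_le n) le_rfl)
  have hVle : ∀ k ω, ∀ q ∈ segment ℝ (p k) (p (k + 1)), ξ * E.hh 0 n ω q ≤ ξ * V k ω := by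
    intro k ω q hq
    apply mul_le_mul_of_nonneg_left _ hξ0.le
    rw [hV]
    have h3 := hom3 k ω q (hsegC k q hq) (p k) (by
      intro i
      rw [sub_self, abs_zero]
      positivity)
    have := le_abs_self (E.hh 0 n ω q - E.hh 0 n ω (p k))
    simp only
    linarith
  obtain ⟨Y, hY⟩ : ∃ Y : E.Ω → ℝ≥0∞, Y = fun ω =>
    ∑ k ∈ Finset.range (2 ^ n), ENNReal.ofReal (Real.exp (ξ * V k ω) * dy n) := ⟨_, rfl⟩
  have hXY : ∀ ω, D (fun x => ξ * E.hh 0 n ω x) {0} {ee 0} (Box 0 2) ≤ Y ω := by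
    intro ω
    have h3 := D_chain (fun x => ξ * E.hh 0 n ω x) (Box 0 2) p (2 ^ n) (by
      rw [hp0]
      intro i
      simp)
    rw [hp0, hpN] at h3
    refine h3.trans ?_
    rw [hY]
    apply Finset.sum_le_sum
    intro k hk
    have h4 := D_seg (fun x => ξ * E.hh 0 n ω x) (x := p k) (y := p (k + 1)) (U := Box 0 2)
      (M := ξ * V k ω) (hsegB k (Finset.mem_range.1 hk)) (hVle k ω)
    rwa [hnorm] at h4
  -- the moment bound
  have hYs : ∀ ω, Y ω ^ s ≤ ∑ k ∈ Finset.range (2 ^ n),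
      ENNReal.ofReal (Real.exp (Real.sqrt 2 * V k ω)) * ENNReal.ofReal (dy n ^ s) := by
    intro ω
    rw [hY]
    refine (G3b_rpow_sum _ _ hs0 hs1).trans (le_of_eq ?_)
    refine Finset.sum_congr rfl fun k _ => ?_
    rw [ENNReal.ofReal_rpow_of_nonneg (by positivity) hs0.le,
      Real.mul_rpow (Real.exp_pos _).le hdy.le, ← Real.exp_mul,
      ENNReal.ofReal_mul (Real.exp_pos _).le]
    congr 3
    rw [← hξs]
    ring
  have hYm : Measurable (fun ω => Y ω ^ s) := by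
    apply Measurable.pow_const
    rw [hY]
    apply Finset.measurable_fun_sum
    intro k _
    exact ((Real.measurable_exp.comp ((hVm k).const_mul ξ)).mul_const (dy n)).ennreal_ofReal
  have hmom : ∀ k, ∫⁻ ω, ENNReal.ofReal (Real.exp (Real.sqrt 2 * V k ω)) ∂E.P ≤
      ENNReal.ofReal (K * (2 : ℝ) ^ (n : ℝ)) := by
    intro k
    have h3 := hom5 k (Real.sqrt 2) h2.le
    rw [Real.sq_sqrt (by norm_num : (0 : ℝ) ≤ 2), mul_div_assoc, mul_div_cancel₀ _ two_ne_zero,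
      ← hK] at h3
    rw [hV]
    exact h3
  have hint : ∫⁻ ω, Y ω ^ s ∂E.P ≤ ENNReal.ofReal (K * (2 : ℝ) ^ ((2 - s) * n)) := by
    calc ∫⁻ ω, Y ω ^ s ∂E.P ≤ ∫⁻ ω, ∑ k ∈ Finset.range (2 ^ n),
          ENNReal.ofReal (Real.exp (Real.sqrt 2 * V k ω)) * ENNReal.ofReal (dy n ^ s) ∂E.P :=
          lintegral_mono hYs
      _ = ∑ k ∈ Finset.range (2 ^ n), (∫⁻ ω, ENNReal.ofReal (Real.exp (Real.sqrt 2 * V k ω)) ∂E.P) *
          ENNReal.ofReal (dy n ^ s) := by
          rw [lintegral_finsetSum]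
          · refine Finset.sum_congr rfl fun k _ => ?_
            rw [lintegral_mul_const]
            exact (Real.measurable_exp.comp ((hVm k).const_mul _)).ennreal_ofReal
          · intro k _
            exact ((Real.measurable_exp.comp ((hVm k).const_mul _)).ennreal_ofReal).mul_const _
      _ ≤ ∑ k ∈ Finset.range (2 ^ n), ENNReal.ofReal (K * (2 : ℝ) ^ (n : ℝ)) *
          ENNReal.ofReal (dy n ^ s) :=
          Finset.sum_le_sum fun k _ => mul_le_mul_left (hmom k) _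
      _ = ENNReal.ofReal (K * (2 : ℝ) ^ ((2 - s) * n)) := by
          rw [Finset.sum_const, Finset.card_range, nsmul_eq_mul, ← ENNReal.ofReal_mul (by positivity),
            ← ENNReal.ofReal_natCast, ← ENNReal.ofReal_mul (by positivity)]
          congr 1
          rw [dy_eq_rpow, ← Real.rpow_mul (by norm_num)]
          have e1 : (((2 ^ n : ℕ) : ℝ)) = (2 : ℝ) ^ (n : ℝ) := by
            rw [Real.rpow_natCast]
            push_cast
            rfl
          rw [e1]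
          have e2 : (2 : ℝ) ^ ((2 - s) * n) = (2 : ℝ) ^ (n : ℝ) * (2 : ℝ) ^ (n : ℝ) * (2 : ℝ) ^ (-(n : ℝ) * s) := by
            rw [← Real.rpow_add (by norm_num), ← Real.rpow_add (by norm_num)]
            congr 1
            ring
          rw [e2]
          ring
  -- Markov
  have hmarkov := mul_meas_ge_le_lintegral hYm (μ := E.P) (ENNReal.ofReal (m ^ s))
  have hsub : {ω | m ≤ (D (fun x => ξ * E.hh 0 n ω x) {0} {ee 0} (Box 0 2)).toReal} ⊆
      {ω | ENNReal.ofReal (m ^ s) ≤ Y ω ^ s} := by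
    intro ω hω
    have hω' : m ≤ (D (fun x => ξ * E.hh 0 n ω x) {0} {ee 0} (Box 0 2)).toReal := hω
    show ENNReal.ofReal (m ^ s) ≤ Y ω ^ s
    rw [← ENNReal.ofReal_rpow_of_nonneg hm0.le hs0.le]
    apply ENNReal.rpow_le_rpow _ hs0.le
    exact ((ENNReal.ofReal_le_ofReal hω').trans ENNReal.ofReal_toReal_le).trans (hXY ω)
  have hprob : ENNReal.ofReal (1 / 2) ≤ E.P {ω | ENNReal.ofReal (m ^ s) ≤ Y ω ^ s} := by
    refine le_trans ?_ (measure_mono hsub)
    rw [ENNReal.ofReal_le_iff_le_toReal (measure_ne_top _ _)]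
    exact hm
  have h3 : ENNReal.ofReal (m ^ s * (1 / 2)) ≤ ENNReal.ofReal (K * (2 : ℝ) ^ ((2 - s) * n)) := by
    rw [ENNReal.ofReal_mul (by positivity)]
    exact (mul_le_mul_right hprob _).trans (hmarkov.trans hint)
  rw [ENNReal.ofReal_le_ofReal_iff (by positivity)] at h3
  have h4 : m ^ s ≤ 2 * K * (2 : ℝ) ^ ((2 - s) * n) := by linarith
  have h5 : m = (m ^ s) ^ (1 / s) := by
    rw [← Real.rpow_mul hm0.le, mul_one_div_cancel hs0.ne', Real.rpow_one]
  rw [h5]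
  calc (m ^ s) ^ (1 / s) ≤ (2 * K * (2 : ℝ) ^ ((2 - s) * n)) ^ (1 / s) :=
        Real.rpow_le_rpow (by positivity) h4 (by positivity)
    _ = (2 * K) ^ (1 / s) * (2 : ℝ) ^ ((Real.sqrt 2 * ξ - 1) * n) := by
        rw [Real.mul_rpow (by positivity) (by positivity), ← Real.rpow_mul (by norm_num)]
        congr 2
        have e1 : 2 / s = Real.sqrt 2 * ξ := by
          rw [hs]
          field_simp
          rw [Real.sq_sqrt (by norm_num)]
        have e2 : (2 - s) * n * (1 / s) = (2 / s - 1) * n := by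
          field_simp
        rw [e2, e1]

end MP_d19698_pr
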