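import Pool.Agent.Lib.MP_d19698_pr.G3b

/-! # G3c -/

open MeasureTheory ProbabilityTheory Filter Topology Set
open scoped ENNReal NNReal

namespace MP_d19698_pr
variable {d : ℕ}
variable [NeZero d]

/-- medians are below the upper quantile -/
theorem median_le_lamQ (E : Env d) {p : ℝ} (hp : 0 < p) (hp2 : p < 1 / 2) (n : ℕ) {m : ℝ}
    (h : 1 / 2 ≤ E.P.real {ω | m ≤ (E.Edg 0 n 0 ω 0 0 2).toReal}) : m ≤ E.lamQ p n := by
  by_contra hcon
  push Not at hcon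
  have hp1 : p < 1 := by linarith
  have h0 := E.lamQ_pos hp hp1 n
  have h1 := E.Gt_lamQ hp hp1 n
  have h2 : E.P.real {ω | m ≤ (E.Edg 0 n 0 ω 0 0 2).toReal} ≤ E.Gt 2 n (E.lamQ p n) := by
    unfold Env.Gt
    refine measureReal_mono ?_ (measure_ne_top _ _)
    intro ω hω
    have h3 : m ≤ (E.Edg 0 n 0 ω 0 0 2).toReal := hω
    show ENNReal.ofReal (E.lamQ p n) < E.Edg 0 n 0 ω 0 0 2
    by_cases htop : E.Edg 0 n 0 ω 0 0 2 = ⊤
    · rw [htop]; exact ENNReal.ofReal_lt_top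
    · rw [ENNReal.ofReal_lt_iff_lt_toReal h0.le htop]
      exact lt_of_lt_of_le hcon h3
  linarith

/-- the exponent: `λ_n = 2^{-(1-ξ√(2d)) n + o(n)}` forces `ξ < √(2d)` (`d ≥ 2`) -/
theorem xi_lt {Ω : Type*} [MeasurableSpace Ω] {P : Measure Ω} [IsProbabilityMeasure P] {W : (Rd d × ℝ → ℝ) → Ω → ℝ} {𝔎 : Rd d → ℝ} {r0 : ℝ}
    {h : ℕ → Ω → Rd d → ℝ} (hd : 2 ≤ d) (hK : IsKernel 𝔎 r0) (hW : IsWhiteNoise P W) (hh : IsFieldOf P W 𝔎 h) {ξ : ℝ} (hξ : 0 < ξ) (lam : ℕ → ℝ)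
    (hlam : ∀ n, 1 ≤ n → IsMedian P (fun ω => expDist ξ (h n ω) (Box 0 2) 0 (ee 0)) (lam n))
    (hQ : Tendsto (fun n : ℕ => Real.logb 2 (lam n) / n) atTop (𝓝 (-(1 - ξ * Real.sqrt (2 * d))))) : ξ < Real.sqrt (2 * d) := by
  by_contra hcon
  push Not at hcon
  have hd2 : (2 : ℝ) ≤ d := by exact_mod_cast hd
  have hs2 : (2 : ℝ) ≤ Real.sqrt (2 * d) := by
    apply Real.le_sqrt_of_sq_le
    nlinarith
  have hs22 : Real.sqrt 2 < 2 := by
    rw [Real.sqrt_lt' (by norm_num)]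
    norm_num
  have hsq : Real.sqrt 2 < Real.sqrt (2 * d) := lt_of_lt_of_le hs22 hs2
  have hs1 : (1 : ℝ) < Real.sqrt 2 := by
    rw [Real.lt_sqrt (by norm_num)]
    norm_num
  have hξ2 : Real.sqrt 2 ≤ ξ := by linarith
  have h1lt : (1 : ℝ) < Real.sqrt (2 * d) := by linarith
  obtain ⟨C, hC, hmom⟩ := frac_moment (mkEnv hd hK hW hh 1 one_pos h1lt) hξ2
  have hcont : ∀ n, 1 ≤ n → ∀ ω, Continuous (h n ω) := fun n hn ω => (hh.smooth n hn ω).continuous
  have hup : ∀ n : ℕ, 1 ≤ n → lam n ≤ C * (2 : ℝ) ^ ((Real.sqrt 2 * ξ - 1) * n) := by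
    intro n hn
    refine hmom n (lam n) ?_
    have h2 := (hlam n hn).2
    have h4 : ∀ ω : Ω, D (fun x => ξ * (mkEnv hd hK hW hh 1 one_pos h1lt).hh 0 n ω x) {0} {ee 0} (Box 0 2) =
        D (fun x => ξ * h n ω x) {0} {ee 0} (Box 0 2) := by
      intro ω
      have h5 : (fun x => ξ * (mkEnv hd hK hW hh 1 one_pos h1lt).hh 0 n ω x) = fun x => ξ * h n ω x := by
        funext x
        have h6 : (mkEnv hd hK hW hh 1 one_pos h1lt).hh 0 n ω x = h n ω x := by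
          show ∑ k ∈ Finset.Ico 0 n, levels h k ω x = _
          rw [← Finset.range_eq_Ico, sum_levels h n hn]
        exact congrArg (fun y => ξ * y) h6
      exact congrArg (fun f => D f {0} {ee 0} (Box 0 2)) h5
    refine le_trans h2 (le_of_eq (congrArg P.real (Set.ext fun ω => ?_)))
    show lam n ≤ expDist ξ (h n ω) (Box 0 2) 0 (ee 0) ↔
      lam n ≤ (D (fun x => ξ * (mkEnv hd hK hW hh 1 one_pos h1lt).hh 0 n ω x) {0} {ee 0} (Box 0 2)).toReal
    rw [expDist_eq ξ (hcont n hn ω)]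
    exact iff_of_eq (congrArg (fun y : ℝ≥0∞ => lam n ≤ y.toReal) (h4 ω).symm)
  have hnn : ∀ n, 1 ≤ n → 0 ≤ lam n := by
    intro n hn
    by_contra hneg
    push Not at hneg
    have h2 := (hlam n hn).1
    have h3 : {ω | expDist ξ (h n ω) (Box 0 2) 0 (ee 0) ≤ lam n} = ∅ := by
      ext ω
      rw [Set.mem_empty_iff_false, iff_false]
      show ¬ (expDist ξ (h n ω) (Box 0 2) 0 (ee 0) ≤ lam n)
      rw [not_le, expDist_eq ξ (hcont n hn ω)]
      exact lt_of_lt_of_le hneg ENNReal.toReal_nonneg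
    rw [h3] at h2
    simp at h2
    norm_num at h2
  have hL : (0 : ℝ) < -(1 - ξ * Real.sqrt (2 * d)) := by nlinarith
  have hev : ∀ᶠ n : ℕ in atTop, 0 < Real.logb 2 (lam n) / n := hQ.eventually (lt_mem_nhds hL)
  have hlim : Tendsto (fun n : ℕ => Real.logb 2 C / (n : ℝ) + (Real.sqrt 2 * ξ - 1)) atTop
      (𝓝 (0 + (Real.sqrt 2 * ξ - 1))) :=
    (tendsto_const_div_atTop_nhds_zero_nat _).add tendsto_const_nhds
  have hle : -(1 - ξ * Real.sqrt (2 * d)) ≤ 0 + (Real.sqrt 2 * ξ - 1) := by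
    refine le_of_tendsto_of_tendsto hQ hlim ?_
    filter_upwards [hev, eventually_ge_atTop 1] with n hn1 hn2
    have hnpos : (0 : ℝ) < n := by exact_mod_cast hn2
    have hpos : 0 < lam n := by
      rcases (hnn n hn2).lt_or_eq with h5 | h5
      · exact h5
      · rw [← h5] at hn1
        simp at hn1
    have h6 : Real.logb 2 (lam n) ≤ Real.logb 2 C + (Real.sqrt 2 * ξ - 1) * n := by
      calc Real.logb 2 (lam n) ≤ Real.logb 2 (C * (2 : ℝ) ^ ((Real.sqrt 2 * ξ - 1) * n)) :=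
            Real.logb_le_logb_of_le (by norm_num) hpos (hup n hn2)
        _ = Real.logb 2 C + (Real.sqrt 2 * ξ - 1) * n := by
            rw [Real.logb_mul hC.ne' (Real.rpow_pos_of_pos (by norm_num) _).ne',
              Real.logb_rpow (by norm_num) (by norm_num)]
    calc Real.logb 2 (lam n) / n ≤ (Real.logb 2 C + (Real.sqrt 2 * ξ - 1) * n) / n :=
          div_le_div_of_nonneg_right h6 hnpos.le
      _ = Real.logb 2 C / (n : ℝ) + (Real.sqrt 2 * ξ - 1) := by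
          field_simp
  nlinarith

/-- the rate hypothesis holds -/
theorem rate {E : Env d} (A : Par E) (lam : ℕ → ℝ) (hpos : ∀ n, 1 ≤ n → 0 < lam n) (hle : ∀ n, 1 ≤ n → lam n ≤ A.lam n)
    (hQ : Tendsto (fun n : ℕ => Real.logb 2 (lam n) / n) atTop (𝓝 (-E.al))) : A.Rate := by
  intro ε hε
  have hlt : -(E.al + ε) < -E.al := by linarith
  filter_upwards [hQ.eventually (lt_mem_nhds hlt), eventually_ge_atTop 1] with n hn1 hn2
  have hnpos : (0 : ℝ) < n := by exact_mod_cast hn2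
  have h1 : -((E.al + ε) * n) < Real.logb 2 (lam n) := by
    rw [lt_div_iff₀ hnpos] at hn1
    linarith
  have h2 : (2 : ℝ) ^ (-((E.al + ε) * n)) < lam n := by
    rw [Real.lt_logb_iff_rpow_lt (by norm_num) (hpos n hn2)] at h1
    exact h1
  exact h2.le.trans (hle n hn2)

end MP_d19698_pr
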