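import Pool.Agent.Lib.MP_d19698_pr.CubeDef

/-!
# V1: expectation and probability on the cube, flips, restriction to a subset of the coordinates
-/

open Finset

namespace MP_d19698_pr

variable {I : Type*} [Fintype I] [DecidableEq I]

/-- flip one coordinate -/
def fl (i : I) (x : I → Bool) : I → Bool := Function.update x i (!(x i))

/-- probability of an event on the cube -/
noncomputable def cP (S : Set (I → Bool)) : ℝ := cE (S.indicator fun _ => (1 : ℝ))

theorem cE_add (f g : (I → Bool) → ℝ) : cE (fun x => f x + g x) = cE f + cE g := by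
  unfold cE
  rw [Finset.sum_add_distrib, add_div]

theorem cE_sub (f g : (I → Bool) → ℝ) : cE (fun x => f x - g x) = cE f - cE g := by
  unfold cE
  rw [Finset.sum_sub_distrib, sub_div]

theorem cE_const_mul (c : ℝ) (f : (I → Bool) → ℝ) : cE (fun x => c * f x) = c * cE f := by
  unfold cE
  rw [← Finset.mul_sum, mul_div_assoc]

theorem cE_const (c : ℝ) : cE (fun _ : I → Bool => c) = c := by
  unfold cE
  have h : (Finset.univ : Finset (I → Bool)).card = 2 ^ Fintype.card I := by
    rw [Finset.card_univ, Fintype.card_fun, Fintype.card_bool]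
  rw [Finset.sum_const, h, nsmul_eq_mul]
  push_cast
  field_simp

theorem cE_mono {f g : (I → Bool) → ℝ} (h : ∀ x, f x ≤ g x) : cE f ≤ cE g := by
  unfold cE
  apply div_le_div_of_nonneg_right _ (by positivity)
  exact Finset.sum_le_sum fun x _ => h x

theorem cE_nonneg {f : (I → Bool) → ℝ} (h : ∀ x, 0 ≤ f x) : 0 ≤ cE f := by
  unfold cE
  exact div_nonneg (Finset.sum_nonneg fun x _ => h x) (by positivity)

theorem cE_sum {κ : Type*} (s : Finset κ) (F : κ → (I → Bool) → ℝ) :
    cE (fun x => ∑ i ∈ s, F i x) = ∑ i ∈ s, cE (F i) := by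
  unfold cE
  rw [Finset.sum_comm, Finset.sum_div]

theorem abs_cE_le {f : (I → Bool) → ℝ} {B : ℝ} (h : ∀ x, |f x| ≤ B) : |cE f| ≤ B := by
  have h1 : cE f ≤ cE (fun _ : I → Bool => B) := cE_mono fun x => (abs_le.1 (h x)).2
  have h2 : cE (fun _ : I → Bool => -B) ≤ cE f := cE_mono fun x => (abs_le.1 (h x)).1
  rw [cE_const] at h1 h2
  exact abs_le.2 ⟨h2, h1⟩

theorem cP_nonneg (S : Set (I → Bool)) : 0 ≤ cP S := by
  unfold cP
  exact cE_nonneg fun x => Set.indicator_nonneg (fun _ _ => zero_le_one) x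

theorem cP_le_one (S : Set (I → Bool)) : cP S ≤ 1 := by
  unfold cP
  have h : cE (S.indicator fun _ => (1 : ℝ)) ≤ cE (fun _ : I → Bool => (1 : ℝ)) := by
    apply cE_mono
    intro x
    exact Set.indicator_le_self' (fun _ _ => zero_le_one) x
  rwa [cE_const] at h

theorem cP_mono {S T : Set (I → Bool)} (h : S ⊆ T) : cP S ≤ cP T := by
  unfold cP
  apply cE_mono
  intro x
  exact Set.indicator_le_indicator_of_subset h (fun _ => zero_le_one) x

/-- union bound -/
theorem cP_biUnion_le {κ : Type*} (s : Finset κ) (S : κ → Set (I → Bool)) :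
    cP {x | ∃ i ∈ s, x ∈ S i} ≤ ∑ i ∈ s, cP (S i) := by
  classical
  unfold cP
  rw [← cE_sum]
  apply cE_mono
  intro x
  have hnn : ∀ i ∈ s, 0 ≤ (S i).indicator (fun _ => (1 : ℝ)) x := fun i _ =>
    Set.indicator_nonneg (fun _ _ => zero_le_one) x
  by_cases hx : ∃ i ∈ s, x ∈ S i
  · obtain ⟨i, hi, hxi⟩ := hx
    have h1 : Set.indicator {x | ∃ i ∈ s, x ∈ S i} (fun _ => (1 : ℝ)) x = 1 :=
      Set.indicator_of_mem (show x ∈ {x | ∃ i ∈ s, x ∈ S i} from ⟨i, hi, hxi⟩) _
    have h2 : (S i).indicator (fun _ => (1 : ℝ)) x = 1 := Set.indicator_of_mem hxi _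
    rw [h1]
    exact h2.symm.le.trans
      (Finset.single_le_sum (f := fun i => (S i).indicator (fun _ => (1 : ℝ)) x) hnn hi)
  · have h1 : Set.indicator {x | ∃ i ∈ s, x ∈ S i} (fun _ => (1 : ℝ)) x = 0 :=
      Set.indicator_of_notMem (show x ∉ {x | ∃ i ∈ s, x ∈ S i} from hx) _
    rw [h1]
    exact Finset.sum_nonneg hnn

/-- splitting according to an event -/
theorem cE_le_of_event {f : (I → Bool) → ℝ} {θ B : ℝ} (S : Set (I → Bool)) (hθ : 0 ≤ θ) (hB : 0 ≤ B)
    (h1 : ∀ x, x ∉ S → f x ≤ θ) (h2 : ∀ x, f x ≤ B) : cE f ≤ θ + B * cP S := by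
  classical
  have h : cE f ≤ cE (fun x => θ + B * S.indicator (fun _ => (1 : ℝ)) x) := by
    apply cE_mono
    intro x
    by_cases hx : x ∈ S
    · rw [Set.indicator_of_mem hx]
      linarith [h2 x]
    · rw [Set.indicator_of_notMem hx]
      linarith [h1 x hx]
  refine h.trans (le_of_eq ?_)
  rw [cE_add (fun _ => θ) (fun x => B * S.indicator (fun _ => (1 : ℝ)) x), cE_const, cE_const_mul]
  rfl

/-- an event contained in `{θ = 1}` for a function `0 ≤ θ` -/
theorem cP_le_cE {S : Set (I → Bool)} {θ : (I → Bool) → ℝ} (h0 : ∀ x, 0 ≤ θ x) (h1 : ∀ x ∈ S, 1 ≤ θ x) : cP S ≤ cE θ := by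
  classical
  unfold cP
  apply cE_mono
  intro x
  by_cases hx : x ∈ S
  · rw [Set.indicator_of_mem hx]
    exact h1 x hx
  · rw [Set.indicator_of_notMem hx]
    exact h0 x

theorem fl_fl (i : I) (x : I → Bool) : fl i (fl i x) = x := by
  unfold fl
  rw [Function.update_self, Function.update_idem, Bool.not_not, Function.update_eq_self]

/-- `x ↦ fl i x` is a bijection. -/
theorem cE_flip (i : I) (g : (I → Bool) → ℝ) : cE (fun x => g (fl i x)) = cE g := by
  unfold cE
  congr 1
  have hinv : Function.Involutive (fl (I := I) i) := fl_fl i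
  exact Equiv.sum_comp hinv.toPerm g

private theorem V1_cD (i : I) (f : (I → Bool) → ℝ) (x : I → Bool) :
    cD i f x = (if x i then -1 else 1) * (f (fl i x) - f x) / 2 := by
  unfold cD fl
  rcases hx : x i with _ | _
  · have h1 : Function.update x i false = x := by
      rw [← hx, Function.update_eq_self]
    rw [h1]
    simp
  · have h1 : Function.update x i true = x := by
      rw [← hx, Function.update_eq_self]
    rw [h1]
    simp

private theorem V1_abs (i : I) (f : (I → Bool) → ℝ) (x : I → Bool) :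
    |cD i f x| = |f (fl i x) - f x| / 2 := by
  rw [V1_cD]
  split_ifs
  · rw [neg_one_mul, abs_div, abs_neg, abs_of_pos (show (0 : ℝ) < 2 by norm_num)]
  · rw [one_mul, abs_div, abs_of_pos (show (0 : ℝ) < 2 by norm_num)]

private theorem V1_sq (i : I) (f : (I → Bool) → ℝ) (x : I → Bool) :
    cD i f x ^ 2 = (f (fl i x) - f x) ^ 2 / 4 := by
  rw [V1_cD]
  split_ifs <;> ring

private theorem V1_pos_neg (i : I) (f : (I → Bool) → ℝ) (φ : ℝ → ℝ) :
    cE (fun x => φ (-(f (fl i x) - f x))) = cE (fun x => φ (f (fl i x) - f x)) := by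
  rw [← cE_flip i (fun x => φ (f (fl i x) - f x))]
  congr 1
  funext x
  rw [fl_fl, neg_sub]

/-- `|cD i f x| = |f (fl i x) - f x|/2`, and `E g_- = E g_+` for `g x = f (fl i x) - f x` by the flip symmetry (`g (fl i x) = - g x`). -/
theorem cE_abs_cD (i : I) (f : (I → Bool) → ℝ) :
    cE (fun x => |cD i f x|) = cE (fun x => max 0 (f (fl i x) - f x)) := by
  have h1 : (fun x => |cD i f x|) = fun x => 1 / 2 * (max 0 (f (fl i x) - f x) +
      max 0 (-(f (fl i x) - f x))) := by
    funext x
    rw [V1_abs]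
    rcases le_total 0 (f (fl i x) - f x) with h | h
    · rw [abs_of_nonneg h, max_eq_right h, max_eq_left (by linarith)]
      ring
    · rw [abs_of_nonpos h, max_eq_left h, max_eq_right (by linarith)]
      ring
  rw [h1, cE_const_mul, cE_add (fun x => max 0 (f (fl i x) - f x))
    (fun x => max 0 (-(f (fl i x) - f x))), V1_pos_neg i f (fun t => max 0 t)]
  ring

/-- `E (cD i f)² = E g²/4 = E (g_+)²/2`, `g x = f (fl i x) - f x`. -/
theorem cE_sq_cD (i : I) (f : (I → Bool) → ℝ) :
    cE (fun x => cD i f x ^ 2) = 1 / 2 * cE (fun x => (max 0 (f (fl i x) - f x)) ^ 2) := by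
  have h1 : (fun x => cD i f x ^ 2) = fun x => 1 / 4 * ((max 0 (f (fl i x) - f x)) ^ 2 +
      (max 0 (-(f (fl i x) - f x))) ^ 2) := by
    funext x
    rw [V1_sq]
    rcases le_total 0 (f (fl i x) - f x) with h | h
    · rw [max_eq_right h, max_eq_left (by linarith)]
      ring
    · rw [max_eq_left h, max_eq_right (by linarith)]
      ring
  rw [h1, cE_const_mul, cE_add (fun x => (max 0 (f (fl i x) - f x)) ^ 2)
    (fun x => (max 0 (-(f (fl i x) - f x))) ^ 2), V1_pos_neg i f (fun t => (max 0 t) ^ 2)]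
  ring

theorem cVar_eq (f : (I → Bool) → ℝ) : cVar f = cE (fun x => f x ^ 2) - (cE f) ^ 2 := by
  unfold cVar
  have h1 : (fun x => (f x - cE f) ^ 2) = fun x => (f x ^ 2 - (2 * cE f) * f x) + (cE f) ^ 2 := by
    funext x
    ring
  rw [h1, cE_add (fun x => f x ^ 2 - (2 * cE f) * f x) (fun _ => (cE f) ^ 2),
    cE_sub (fun x => f x ^ 2) (fun x => (2 * cE f) * f x), cE_const_mul, cE_const]
  ring

/-- **Restriction to an injected set of coordinates.** `(I → Bool) ≃ (J → Bool) × (rest → Bool)` (e.g. count the fibres of `x ↦ x ∘ ι`: each has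
`2 ^ (|I| - |J|)` elements). -/
theorem cE_comp_injective {J : Type*} [Fintype J] [DecidableEq J] (ι : J → I) (hι : Function.Injective ι) (G : (J → Bool) → ℝ) :
    cE (fun x : I → Bool => G (fun j => x (ι j))) = cE G := by
  classical
  set p : I → Prop := fun i => i ∈ Set.range ι with hp
  set e1 := Equiv.piEquivPiSubtypeProd p (fun _ => Bool) with he1
  set e2 : J ≃ {i // p i} := Equiv.ofInjective ι hι with he2
  have h1 : ∑ x : I → Bool, G (fun j => x (ι j)) =
      ∑ q : ({i // p i} → Bool) × ({i // ¬ p i} → Bool), G (fun j => q.1 (e2 j)) := by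
    rw [← Equiv.sum_comp e1]
    rfl
  have h2 : ∑ a : {i // p i} → Bool, G (fun j => a (e2 j)) = ∑ a : J → Bool, G a := by
    rw [← Equiv.sum_comp (Equiv.arrowCongr e2.symm (Equiv.refl Bool))]
    rfl
  have hcard : Fintype.card I = Fintype.card J + Fintype.card {i // ¬ p i} := by
    rw [Fintype.card_congr e2, ← Fintype.card_sum]
    exact Fintype.card_congr (Equiv.sumCompl p).symm
  unfold cE
  rw [h1, Fintype.sum_prod_type]
  simp only [Finset.sum_const, Finset.card_univ, Fintype.card_fun, Fintype.card_bool,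
    nsmul_eq_mul]
  rw [← Finset.mul_sum, h2, hcard, pow_add]
  push_cast
  field_simp

end MP_d19698_pr
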