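import Pool.Agent.Lib.MP_d19698_pr.B2b

/-!
# V4: the grid of translations, counting
-/

open MeasureTheory ProbabilityTheory Filter Topology Set
open scoped ENNReal NNReal

namespace MP_d19698_pr

variable {d : ℕ}

/-- the translations `2^{-n} v` with `|v i| ≤ ⌊r 2^n⌋` -/
noncomputable def Zg (d n : ℕ) (r : ℝ) : Finset (Rd d) := by
  classical exact (Fintype.piFinset fun _ : Fin d => Finset.Icc (-⌊r * 2 ^ n⌋) ⌊r * 2 ^ n⌋).image (latt n)

private theorem dy_posV (n : ℕ) : 0 < dy n := by rw [dy]; positivity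

private theorem dy_mul_pow (n : ℕ) : dy n * 2 ^ n = 1 := by rw [dy, ← mul_pow]; norm_num

private theorem latt_applyV (n : ℕ) (v : Fin d → ℤ) (i : Fin d) : latt n v i = dy n * (v i : ℝ) := rfl

theorem latt_injective (n : ℕ) : Function.Injective (latt n : (Fin d → ℤ) → Rd d) := by
  intro v w h
  funext i
  have h1 : latt n v i = latt n w i := by rw [h]
  rw [latt_applyV, latt_applyV] at h1
  have h2 := mul_left_cancel₀ (dy_posV n).ne' h1
  exact_mod_cast h2

theorem Zg_nonempty (n : ℕ) {r : ℝ} (hr : 0 ≤ r) : (Zg d n r).Nonempty := by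
  classical
  have h0 : (0 : ℤ) ≤ ⌊r * 2 ^ n⌋ := Int.floor_nonneg.mpr (by positivity)
  unfold Zg
  rw [Finset.image_nonempty, Fintype.piFinset_nonempty]
  intro i
  exact ⟨0, by rw [Finset.mem_Icc]; omega⟩

theorem mem_Zg {n : ℕ} {r : ℝ} {z : Rd d} (h : z ∈ Zg d n r) : (∀ i, |z i| ≤ r) ∧ ∃ v : Fin d → ℤ, z = latt n v := by
  classical
  unfold Zg at h
  rw [Finset.mem_image] at h
  obtain ⟨v, hv, rfl⟩ := h
  refine ⟨fun i => ?_, v, rfl⟩
  rw [Fintype.mem_piFinset] at hv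
  have h1 := hv i
  rw [Finset.mem_Icc, ← abs_le] at h1
  rw [latt_applyV, abs_mul, abs_of_pos (dy_posV n)]
  have h2 : |(v i : ℝ)| ≤ r * 2 ^ n := by
    have h3 : (|v i| : ℤ) ≤ ⌊r * 2 ^ n⌋ := h1
    have h4 := Int.floor_le (r * 2 ^ n)
    have h5 : ((|v i| : ℤ) : ℝ) ≤ (⌊r * 2 ^ n⌋ : ℝ) := by exact_mod_cast h3
    rw [Int.cast_abs] at h5
    linarith
  calc dy n * |(v i : ℝ)| ≤ dy n * (r * 2 ^ n) := mul_le_mul_of_nonneg_left h2 (dy_posV n).le
    _ = r * (dy n * 2 ^ n) := by ring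
    _ = r := by rw [dy_mul_pow, mul_one]

/-- `|Zg| = (2⌊r 2^n⌋ + 1)^d ≥ (r 2^n)^d` -/
theorem card_Zg (n : ℕ) {r : ℝ} (hr : 0 ≤ r) : ((Zg d n r).card : ℝ) = (2 * (⌊r * 2 ^ n⌋ : ℝ) + 1) ^ d := by
  classical
  have h0 : (0 : ℤ) ≤ ⌊r * 2 ^ n⌋ := Int.floor_nonneg.mpr (by positivity)
  unfold Zg
  rw [Finset.card_image_of_injective _ (latt_injective n), Fintype.card_piFinset]
  simp only [Int.card_Icc, Finset.prod_const, Finset.card_univ, Fintype.card_fin]
  push_cast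
  congr 1
  have h1 : (((⌊r * 2 ^ n⌋ + 1 - -⌊r * 2 ^ n⌋).toNat : ℤ) : ℝ) = 2 * (⌊r * 2 ^ n⌋ : ℝ) + 1 := by
    rw [Int.toNat_of_nonneg (by omega)]
    push_cast
    ring
  rw [← h1, Int.cast_natCast]

private theorem two_floor (n : ℕ) {r : ℝ} (hr : 0 < r) : r * 2 ^ n ≤ 2 * (⌊r * 2 ^ n⌋ : ℝ) + 1 := by
  have h0 : (0 : ℤ) ≤ ⌊r * 2 ^ n⌋ := Int.floor_nonneg.mpr (by positivity)
  have h0' : (0 : ℝ) ≤ (⌊r * 2 ^ n⌋ : ℝ) := by exact_mod_cast h0
  have h1 := Int.lt_floor_add_one (r * 2 ^ n)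
  linarith

open Classical in
/-- number of integers `k` with `|2^{-n} k - c| ≤ w` in an interval -/
private theorem count_one (n : ℕ) {w : ℝ} (hw : 0 ≤ w) (c : ℝ) (T : Finset ℤ) :
    ((T.filter (fun k : ℤ => |dy n * (k : ℝ) - c| ≤ w)).card : ℝ) ≤ 2 * w * 2 ^ n + 1 := by
  have hsub : T.filter (fun k : ℤ => |dy n * (k : ℝ) - c| ≤ w) ⊆ Finset.Icc ⌈(c - w) * 2 ^ n⌉ ⌊(c + w) * 2 ^ n⌋ := by
    intro k hk
    rw [Finset.mem_filter] at hk
    have h1 := abs_le.mp hk.2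
    rw [Finset.mem_Icc, Int.ceil_le, Int.le_floor]
    have h2 : (dy n * (k : ℝ)) * 2 ^ n = k := by
      calc (dy n * (k : ℝ)) * 2 ^ n = (dy n * 2 ^ n) * k := by ring
        _ = k := by rw [dy_mul_pow, one_mul]
    have hp : (0 : ℝ) < 2 ^ n := by positivity
    constructor
    · rw [← h2]
      exact mul_le_mul_of_nonneg_right (by linarith) hp.le
    · rw [← h2]
      exact mul_le_mul_of_nonneg_right (by linarith) hp.le
  have h1 : ((T.filter (fun k : ℤ => |dy n * (k : ℝ) - c| ≤ w)).card : ℝ) ≤ ((Finset.Icc ⌈(c - w) * 2 ^ n⌉ ⌊(c + w) * 2 ^ n⌋).card : ℝ) := by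
    exact_mod_cast Finset.card_le_card hsub
  refine h1.trans ?_
  rw [Int.card_Icc]
  have h2 := Int.floor_le ((c + w) * 2 ^ n)
  have h3 := Int.le_ceil ((c - w) * 2 ^ n)
  have hp : (0 : ℝ) ≤ 2 ^ n := by positivity
  rcases le_total 0 (⌊(c + w) * 2 ^ n⌋ + 1 - ⌈(c - w) * 2 ^ n⌉) with h | h
  · have h4 : (((⌊(c + w) * 2 ^ n⌋ + 1 - ⌈(c - w) * 2 ^ n⌉).toNat : ℤ) : ℝ) = (⌊(c + w) * 2 ^ n⌋ : ℝ) + 1 - (⌈(c - w) * 2 ^ n⌉ : ℝ) := by
      rw [Int.toNat_of_nonneg h]
      push_cast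
      ring
    have h5 : ((⌊(c + w) * 2 ^ n⌋ + 1 - ⌈(c - w) * 2 ^ n⌉).toNat : ℝ) = (⌊(c + w) * 2 ^ n⌋ : ℝ) + 1 - (⌈(c - w) * 2 ^ n⌉ : ℝ) := by
      rw [← h4, Int.cast_natCast]
    rw [h5]
    nlinarith
  · rw [Int.toNat_eq_zero.mpr h]
    have : 0 ≤ 2 * w * 2 ^ n := by positivity
    simpa using by linarith

open Classical in
/-- number of translations in a box of radius `w`: at most `(2 w 2^n + 1)^d`, and `2⌊r 2^n⌋ + 1 ≥ r 2^n`. -/
theorem count_box (n : ℕ) {r w : ℝ} (hr : 0 < r) (hw : 0 ≤ w) (c : Rd d) :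
    (((Zg d n r).filter (fun z => z ∈ CBox c w)).card : ℝ) ≤ ((2 * w + dy n) / r) ^ d * (Zg d n r).card := by
  have hsub : (Zg d n r).filter (fun z => z ∈ CBox c w) ⊆
      (Fintype.piFinset fun i : Fin d => (Finset.Icc (-⌊r * 2 ^ n⌋) ⌊r * 2 ^ n⌋).filter (fun k : ℤ => |dy n * (k : ℝ) - c i| ≤ w)).image (latt n) := by
    intro z hz
    rw [Finset.mem_filter] at hz
    obtain ⟨hz1, hz2⟩ := hz
    unfold Zg at hz1
    rw [Finset.mem_image] at hz1
    obtain ⟨v, hv, rfl⟩ := hz1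
    rw [Fintype.mem_piFinset] at hv
    refine Finset.mem_image.mpr ⟨v, ?_, rfl⟩
    rw [Fintype.mem_piFinset]
    intro i
    rw [Finset.mem_filter]
    exact ⟨by convert hv i, hz2 i⟩
  have h1 : (((Zg d n r).filter (fun z => z ∈ CBox c w)).card : ℝ) ≤ (2 * w * 2 ^ n + 1) ^ d := by
    have h2 : (((Zg d n r).filter (fun z => z ∈ CBox c w)).card : ℝ) ≤
        ((Fintype.piFinset fun i : Fin d => (Finset.Icc (-⌊r * 2 ^ n⌋) ⌊r * 2 ^ n⌋).filter (fun k : ℤ => |dy n * (k : ℝ) - c i| ≤ w)).card : ℝ) := by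
      exact_mod_cast (Finset.card_le_card hsub).trans Finset.card_image_le
    refine h2.trans ?_
    rw [Fintype.card_piFinset]
    push_cast
    calc (∏ i : Fin d, (((Finset.Icc (-⌊r * 2 ^ n⌋) ⌊r * 2 ^ n⌋).filter (fun k : ℤ => |dy n * (k : ℝ) - c i| ≤ w)).card : ℝ))
        ≤ ∏ _i : Fin d, (2 * w * 2 ^ n + 1) :=
          Finset.prod_le_prod (fun i _ => Nat.cast_nonneg _) fun i _ => count_one n hw (c i) _
      _ = (2 * w * 2 ^ n + 1) ^ d := by simp
  refine h1.trans ?_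
  rw [card_Zg n hr.le, ← mul_pow]
  have hdy := dy_posV n
  refine pow_le_pow_left₀ (by positivity) ?_ d
  calc 2 * w * 2 ^ n + 1 = (2 * w + dy n) / r * (r * 2 ^ n) := by
        have := dy_mul_pow n
        field_simp
        nlinarith
    _ ≤ (2 * w + dy n) / r * (2 * (⌊r * 2 ^ n⌋ : ℝ) + 1) :=
        mul_le_mul_of_nonneg_left (two_floor n hr) (by positivity)

open Classical in
/-- number of translations whose `l`-th coordinate is within `w` of `c` -/
theorem count_coord (n : ℕ) {r w : ℝ} (hr : 0 < r) (hw : 0 ≤ w) (l : Fin d) (c : ℝ) :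
    (((Zg d n r).filter (fun z => |z l - c| ≤ w)).card : ℝ) ≤ (2 * w + dy n) / r * (Zg d n r).card := by
  have hdy := dy_posV n
  set N : ℝ := 2 * (⌊r * 2 ^ n⌋ : ℝ) + 1 with hN
  have hN0 : 0 < N := lt_of_lt_of_le (by positivity) (two_floor n hr)
  have h0 : (0 : ℤ) ≤ ⌊r * 2 ^ n⌋ := Int.floor_nonneg.mpr (by positivity)
  have hIcc : ((Finset.Icc (-⌊r * 2 ^ n⌋) ⌊r * 2 ^ n⌋).card : ℝ) = N := by
    rw [Int.card_Icc]
    have h1 : (((⌊r * 2 ^ n⌋ + 1 - -⌊r * 2 ^ n⌋).toNat : ℤ) : ℝ) = 2 * (⌊r * 2 ^ n⌋ : ℝ) + 1 := by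
      rw [Int.toNat_of_nonneg (by omega)]
      push_cast
      ring
    rw [hN, ← h1, Int.cast_natCast]
  set T : Fin d → Finset ℤ := fun i => if i = l then (Finset.Icc (-⌊r * 2 ^ n⌋) ⌊r * 2 ^ n⌋).filter (fun k : ℤ => |dy n * (k : ℝ) - c| ≤ w)
    else Finset.Icc (-⌊r * 2 ^ n⌋) ⌊r * 2 ^ n⌋ with hT
  have hsub : (Zg d n r).filter (fun z => |z l - c| ≤ w) ⊆ (Fintype.piFinset T).image (latt n) := by
    intro z hz
    rw [Finset.mem_filter] at hz
    obtain ⟨hz1, hz2⟩ := hz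
    unfold Zg at hz1
    rw [Finset.mem_image] at hz1
    obtain ⟨v, hv, rfl⟩ := hz1
    rw [Fintype.mem_piFinset] at hv
    refine Finset.mem_image.mpr ⟨v, ?_, rfl⟩
    rw [Fintype.mem_piFinset]
    intro i
    rw [hT]
    by_cases hi : i = l
    · subst hi
      simp only [if_true]
      rw [Finset.mem_filter]
      exact ⟨by convert hv i, hz2⟩
    · simp only [if_neg hi]
      convert hv i
  have h2 : (((Zg d n r).filter (fun z => |z l - c| ≤ w)).card : ℝ) ≤ ((Fintype.piFinset T).card : ℝ) := by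
    exact_mod_cast (Finset.card_le_card hsub).trans Finset.card_image_le
  refine h2.trans ?_
  rw [Fintype.card_piFinset, card_Zg n hr.le]
  push_cast
  rw [← Finset.mul_prod_erase Finset.univ (fun i => ((T i).card : ℝ)) (Finset.mem_univ l)]
  have h3 : ∏ i ∈ Finset.univ.erase l, ((T i).card : ℝ) = N ^ (d - 1) := by
    rw [Finset.prod_congr rfl (g := fun _ => N)]
    · rw [Finset.prod_const, Finset.card_erase_of_mem (Finset.mem_univ l), Finset.card_univ, Fintype.card_fin]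
    · intro i hi
      rw [hT]
      simp only [if_neg (Finset.ne_of_mem_erase hi)]
      exact hIcc
  have h4 : ((T l).card : ℝ) ≤ 2 * w * 2 ^ n + 1 := by
    rw [hT]
    simp only [if_true]
    exact count_one n hw c _
  have hd1 : d = (d - 1) + 1 := by
    have := l.2
    omega
  rw [h3]
  calc ((T l).card : ℝ) * N ^ (d - 1) ≤ (2 * w * 2 ^ n + 1) * N ^ (d - 1) :=
        mul_le_mul_of_nonneg_right h4 (by positivity)
    _ ≤ ((2 * w + dy n) / r * N) * N ^ (d - 1) := by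
        refine mul_le_mul_of_nonneg_right ?_ (by positivity)
        calc 2 * w * 2 ^ n + 1 = (2 * w + dy n) / r * (r * 2 ^ n) := by
              have := dy_mul_pow n
              field_simp
              nlinarith
          _ ≤ (2 * w + dy n) / r * N :=
              mul_le_mul_of_nonneg_left (two_floor n hr) (by positivity)
    _ = (2 * w + dy n) / r * N ^ ((d - 1) + 1) := by rw [pow_succ]; ring
    _ = (2 * w + dy n) / r * N ^ d := by rw [← hd1]

/-- `p - z` is within `w` of one of the boundary hyperplanes of the three boxes -/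
def NearB (xA xB xU : Rd d) (rA ρ w : ℝ) (q : Rd d) : Prop :=
  ∃ l : Fin d, |q l - (xA l + rA)| ≤ w ∨ |q l - (xA l - rA)| ≤ w ∨ |q l - (xB l + rA)| ≤ w ∨ |q l - (xB l - rA)| ≤ w ∨
    |q l - (xU l + ρ)| ≤ w ∨ |q l - (xU l - ρ)| ≤ w

/-- **Trichotomy.** If `q` is not near the boundary hyperplanes and `CBox q w` meets `CBox xA rA` then `|q l - xA l| ≤ rA + w` for all `l`, hence `< rA - w` for all `l`, hence
`CBox q v ⊆ CBox xA rA`. If `CBox q w ⊄ Box xU ρ` then `|q l - xU l| ≥ ρ - w` for some `l`, hence `> ρ + w`, hence `CBox q v` does not meet `Box xU ρ`. -/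
theorem tricho [NeZero d] (xA xB xU : Rd d) {rA ρ w v : ℝ} (hv : 0 ≤ v) (hvw : v ≤ w) (q : Rd d) :
    NearB xA xB xU rA ρ w q ∨ CBox q v ⊆ CBox xA rA ∨ CBox q v ⊆ CBox xB rA ∨ Disjoint (CBox q v) (Box xU ρ) ∨
      (CBox q w ⊆ Box xU ρ ∧ Disjoint (CBox q w) (CBox xA rA) ∧ Disjoint (CBox q w) (CBox xB rA)) := by
  by_cases hn : NearB xA xB xU rA ρ w q
  · exact Or.inl hn
  refine Or.inr ?_
  unfold NearB at hn
  push Not at hn
  -- boxes A and B
  have hbox : ∀ x : Rd d, (∀ l, w < |q l - (x l + rA)| ∧ w < |q l - (x l - rA)|) → ¬ Disjoint (CBox q w) (CBox x rA) → CBox q v ⊆ CBox x rA := by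
    intro x hx hnd p hp l
    rw [Set.not_disjoint_iff] at hnd
    obtain ⟨p', hp1, hp2⟩ := hnd
    have h1 := abs_le.mp (hp1 l)
    have h2 := abs_le.mp (hp2 l)
    obtain ⟨h3, h4⟩ := hx l
    have h5 := abs_le.mp (hp l)
    rw [abs_le]
    rcases lt_abs.mp h3 with h3 | h3 <;> rcases lt_abs.mp h4 with h4 | h4 <;> constructor <;> linarith
  by_cases hA : Disjoint (CBox q w) (CBox xA rA)
  · by_cases hB : Disjoint (CBox q w) (CBox xB rA)
    · by_cases hU : CBox q w ⊆ Box xU ρ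
      · exact Or.inr (Or.inr (Or.inr ⟨hU, hA, hB⟩))
      · refine Or.inr (Or.inr (Or.inl ?_))
        rw [Set.not_subset] at hU
        obtain ⟨p, hp, hpU⟩ := hU
        have hpU' : ∃ l, ρ ≤ |p l - xU l| := by
          by_contra hcon
          push Not at hcon
          exact hpU hcon
        obtain ⟨l, hl⟩ := hpU'
        rw [Set.disjoint_left]
        intro p' hp' hp'U
        have h1 := abs_le.mp (hp l)
        have h2 := abs_le.mp (hp' l)
        have h3 := abs_lt.mp (hp'U l)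
        obtain ⟨_, _, _, _, h4, h5⟩ := hn l
        rcases le_abs.mp hl with hl | hl <;> rcases lt_abs.mp h4 with h4 | h4 <;> rcases lt_abs.mp h5 with h5 | h5 <;> linarith
    · exact Or.inr (Or.inl (hbox xB (fun l => ⟨(hn l).2.2.1, (hn l).2.2.2.1⟩) hB))
  · exact Or.inl (hbox xA (fun l => ⟨(hn l).1, (hn l).2.1⟩) hA)

open Classical in
/-- number of translations `z` with `p - z` near a boundary hyperplane: `6 d` applications of `count_coord`. -/
theorem count_near (n : ℕ) {r w : ℝ} (hr : 0 < r) (hw : 0 ≤ w) (xA xB xU : Rd d) (rA ρ : ℝ) (p : Rd d) :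
    (((Zg d n r).filter (fun z => NearB xA xB xU rA ρ w (p - z))).card : ℝ) ≤ 6 * d * ((2 * w + dy n) / r) * (Zg d n r).card := by
  set B : ℝ := (2 * w + dy n) / r * (Zg d n r).card with hB
  set F : Fin d → ℝ → Finset (Rd d) := fun l c => (Zg d n r).filter (fun z => |z l - c| ≤ w) with hF
  have hFB : ∀ l c, ((F l c).card : ℝ) ≤ B := fun l c => count_coord n hr hw l c
  have hsub : (Zg d n r).filter (fun z => NearB xA xB xU rA ρ w (p - z)) ⊆ Finset.univ.biUnion (fun l : Fin d =>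
      F l (p l - (xA l + rA)) ∪ F l (p l - (xA l - rA)) ∪ F l (p l - (xB l + rA)) ∪ F l (p l - (xB l - rA)) ∪
        F l (p l - (xU l + ρ)) ∪ F l (p l - (xU l - ρ))) := by
    intro z hz
    rw [Finset.mem_filter] at hz
    obtain ⟨hz1, l, hl⟩ := hz
    rw [Finset.mem_biUnion]
    refine ⟨l, Finset.mem_univ _, ?_⟩
    have hflip : ∀ a : ℝ, |(p - z) l - a| ≤ w → |z l - (p l - a)| ≤ w := by
      intro a ha
      have h1 : (p - z) l = p l - z l := rfl
      rw [h1] at ha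
      rw [abs_sub_comm]
      have h2 : p l - a - z l = p l - z l - a := by ring
      rw [h2]
      exact ha
    simp only [Finset.mem_union, hF, Finset.mem_filter]
    rcases hl with h | h | h | h | h | h
    · exact Or.inl (Or.inl (Or.inl (Or.inl (Or.inl ⟨hz1, hflip _ h⟩))))
    · exact Or.inl (Or.inl (Or.inl (Or.inl (Or.inr ⟨hz1, hflip _ h⟩))))
    · exact Or.inl (Or.inl (Or.inl (Or.inr ⟨hz1, hflip _ h⟩)))
    · exact Or.inl (Or.inl (Or.inr ⟨hz1, hflip _ h⟩))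
    · exact Or.inl (Or.inr ⟨hz1, hflip _ h⟩)
    · exact Or.inr ⟨hz1, hflip _ h⟩
  have h1 : (((Zg d n r).filter (fun z => NearB xA xB xU rA ρ w (p - z))).card : ℝ) ≤ ∑ l : Fin d, 6 * B := by
    have h2 : (((Zg d n r).filter (fun z => NearB xA xB xU rA ρ w (p - z))).card : ℝ) ≤ ((∑ l : Fin d,
        (F l (p l - (xA l + rA)) ∪ F l (p l - (xA l - rA)) ∪ F l (p l - (xB l + rA)) ∪ F l (p l - (xB l - rA)) ∪
        F l (p l - (xU l + ρ)) ∪ F l (p l - (xU l - ρ))).card : ℕ) : ℝ) := by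
      exact_mod_cast (Finset.card_le_card hsub).trans Finset.card_biUnion_le
    refine h2.trans ?_
    push_cast
    refine Finset.sum_le_sum fun l _ => ?_
    have hun : ∀ (a b c e f g : Finset (Rd d)), ((a ∪ b ∪ c ∪ e ∪ f ∪ g).card : ℝ) ≤ a.card + b.card + c.card + e.card + f.card + g.card := by
      intro a b c e f g
      have i1 := Finset.card_union_le (a ∪ b ∪ c ∪ e ∪ f) g
      have i2 := Finset.card_union_le (a ∪ b ∪ c ∪ e) f
      have i3 := Finset.card_union_le (a ∪ b ∪ c) e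
      have i4 := Finset.card_union_le (a ∪ b) c
      have i5 := Finset.card_union_le a b
      have i6 : (a ∪ b ∪ c ∪ e ∪ f ∪ g).card ≤ a.card + b.card + c.card + e.card + f.card + g.card := by omega
      exact_mod_cast i6
    refine (hun _ _ _ _ _ _).trans ?_
    have j1 := hFB l (p l - (xA l + rA))
    have j2 := hFB l (p l - (xA l - rA))
    have j3 := hFB l (p l - (xB l + rA))
    have j4 := hFB l (p l - (xB l - rA))
    have j5 := hFB l (p l - (xU l + ρ))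
    have j6 := hFB l (p l - (xU l - ρ))
    linarith
  refine h1.trans (le_of_eq ?_)
  rw [Finset.sum_const, Finset.card_univ, Fintype.card_fin, nsmul_eq_mul, hB]
  ring

/-- rounding to the grid of level `k`: for every point `c` there is `v` with `|c - 2^{-k} v|_∞ ≤ 2^{-k}/2` (`round`) -/
theorem exists_latt_near (k : ℕ) (c : Rd d) : ∃ v : Fin d → ℤ, ∀ i, |c i - latt k v i| ≤ dy k / 2 := by
  refine ⟨fun i => round (c i * 2 ^ k), fun i => ?_⟩
  rw [latt_applyV]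
  have h1 := abs_sub_round (c i * 2 ^ k)
  have h2 : c i - dy k * (round (c i * 2 ^ k) : ℝ) = dy k * (c i * 2 ^ k - (round (c i * 2 ^ k) : ℝ)) := by
    have h3 := dy_mul_pow k
    calc c i - dy k * (round (c i * 2 ^ k) : ℝ) = c i * (dy k * 2 ^ k) - dy k * (round (c i * 2 ^ k) : ℝ) := by rw [h3, mul_one]
      _ = dy k * (c i * 2 ^ k - (round (c i * 2 ^ k) : ℝ)) := by ring
  rw [h2, abs_mul, abs_of_pos (dy_posV k)]
  calc dy k * |c i * 2 ^ k - (round (c i * 2 ^ k) : ℝ)| ≤ dy k * (1 / 2) := mul_le_mul_of_nonneg_left h1 (dy_posV k).le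
    _ = dy k / 2 := by ring

end MP_d19698_pr
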