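import Pool.Agent.Lib.MP_d19698_pr.V3
import Pool.Agent.Lib.MP_d19698_pr.V4

/-!
# V5: the averaged proportion at a point with many typical scales
-/

open MeasureTheory ProbabilityTheory Filter Topology Set
open scoped ENNReal NNReal

namespace MP_d19698_pr

variable {d : ℕ}

/-- the scales `(k+1)/2 ≤ j ≤ k - b`, `j` even (same set as `Env.Jset`) -/
def Jst (k b : ℕ) : Finset ℕ := (Finset.Icc ((k + 1) / 2) (k - b)).filter (fun j => Even j)

theorem V5_dy_pos (j : ℕ) : 0 < dy j := by unfold dy; positivity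

theorem V5_dy_anti {i j : ℕ} (h : i ≤ j) : dy j ≤ dy i := by
  unfold dy
  exact pow_le_pow_of_le_one (by norm_num) (by norm_num) h

theorem V5_CBox_mono (x : Rd d) {r r' : ℝ} (h : r ≤ r') : CBox x r ⊆ CBox x r' :=
  fun _ hy i => (hy i).trans h

/-- **Averaged proportion.** -/
theorem Mav_typ [NeZero d] {R : ℕ} (hR : 1 ≤ R) {xA xB xU : Rd d} {rA ρ : ℝ} (h : GoodPos (CBox xA rA) (CBox xB rA) (Box xU ρ)) {g : Rd d → ℝ} {M : ℝ}
    (hg : ∀ x, |g x| ≤ M) {tol : ℝ} (htol : 0 < tol) {n k b : ℕ} (hk : 1 ≤ k) (hkn : k ≤ n) {r Rt : ℝ} (hr : 0 < r) (hRt : 1 ≤ Rt)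
    {p : Rd d} {S : Set (Rd d)} (hS : S ⊆ CBox p ((R : ℝ) * dy k))
    (htyp : ∃ T : Finset ℕ, T ⊆ Jst k b ∧ (∀ j ∈ T, Typ R g p Rt j) ∧ k ≤ 8 * T.card) :
    Mav (Zg d n r) tol (CBox xA rA) (CBox xB rA) (Box xU ρ) g S ≤
      6 * d * (2 * R + 3) / r * dy ((k + 1) / 2) * (1 + tol) + (1 - 1 / Rt) ^ ((k - 1) / 8) * (1 + tol) + k * tol := by
  classical
  obtain ⟨T, hTJ, hTyp, hTcard⟩ := htyp
  have hR1 : (1 : ℝ) ≤ R := by exact_mod_cast hR
  have hkk : (k + 1) / 2 ≤ k := by omega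
  obtain ⟨w, hw⟩ : ∃ w : ℝ, w = ((R : ℝ) + 1) * dy ((k + 1) / 2) := ⟨_, rfl⟩
  obtain ⟨v, hv⟩ : ∃ v : ℝ, v = (R : ℝ) * dy k := ⟨_, rfl⟩
  have hdk := V5_dy_pos k
  have hdk2 := V5_dy_pos ((k + 1) / 2)
  have hv0 : 0 ≤ v := by rw [hv]; positivity
  have hw0 : 0 ≤ w := by rw [hw]; positivity
  have hvw : v ≤ w := by
    rw [hv, hw]
    have h1 : dy k ≤ dy ((k + 1) / 2) := V5_dy_anti hkk
    calc (R : ℝ) * dy k ≤ (R : ℝ) * dy ((k + 1) / 2) := mul_le_mul_of_nonneg_left h1 (by linarith)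
      _ ≤ ((R : ℝ) + 1) * dy ((k + 1) / 2) := mul_le_mul_of_nonneg_right (by linarith) hdk2.le
  have hq0 : 0 ≤ 1 - 1 / Rt := by
    have : 1 / Rt ≤ 1 := by rw [div_le_one (by linarith)]; exact hRt
    linarith
  have hq1 : 1 - 1 / Rt ≤ 1 := by
    have : 0 ≤ 1 / Rt := by positivity
    linarith
  obtain ⟨K0, hK0⟩ : ∃ K0 : ℝ, K0 = (1 - 1 / Rt) ^ ((k - 1) / 8) * (1 + tol) + k * tol := ⟨_, rfl⟩
  have hK0nn : 0 ≤ K0 := by
    rw [hK0]
    have : 0 ≤ (1 - 1 / Rt) ^ ((k - 1) / 8) := pow_nonneg hq0 _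
    positivity
  have hz : ∀ z ∈ Zg d n r,
      mm tol (CBox xA rA) (CBox xB rA) (Box xU ρ) (shf z g) {x | x + z ∈ S} ≤
        (if NearB xA xB xU rA ρ w (p - z) then (1 + tol) else 0) + K0 := by
    intro z _
    have hgz : ∀ x ∈ Box xU ρ, |shf z g x| ≤ M := fun x _ => hg (x + z)
    have hSz : {x | x + z ∈ S} ⊆ CBox (p - z) v := by
      intro x hx i
      have h1 := hS hx i
      have h2 : x i - (p - z) i = (x + z) i - p i := by
        simp only [PiLp.sub_apply, PiLp.add_apply]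
        ring
      rw [h2, hv]
      exact h1
    rcases tricho xA xB xU hv0 hvw (p - z) (rA := rA) (ρ := ρ) with hc | hc | hc | hc | hc
    · rw [if_pos hc]
      have := mm_le h hgz htol {x | x + z ∈ S}
      linarith
    · have h0 : mm tol (CBox xA rA) (CBox xB rA) (Box xU ρ) (shf z g) {x | x + z ∈ S} = 0 :=
        mm_of_subset h hgz htol ((hSz.trans hc).trans subset_union_left)
      rw [h0]
      split_ifs <;> positivity
    · have h0 : mm tol (CBox xA rA) (CBox xB rA) (Box xU ρ) (shf z g) {x | x + z ∈ S} = 0 :=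
        mm_of_subset h hgz htol ((hSz.trans hc).trans subset_union_right)
      rw [h0]
      split_ifs <;> positivity
    · have h0 : mm tol (CBox xA rA) (CBox xB rA) (Box xU ρ) (shf z g) {x | x + z ∈ S} = 0 :=
        mm_of_disjoint h hgz htol (hc.mono_left hSz)
      rw [h0]
      split_ifs <;> positivity
    · obtain ⟨hcU, hcA, hcB⟩ := hc
      have hbox : ∀ j, (k + 1) / 2 ≤ j → j ≤ k →
          CBox (p - z) (((R : ℝ) + 1) * dy j) ⊆ Box xU ρ ∧
          Disjoint (CBox (p - z) (((R : ℝ) + 1) * dy j)) (CBox xA rA) ∧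
          Disjoint (CBox (p - z) (((R : ℝ) + 1) * dy j)) (CBox xB rA) := by
        intro j hj1 _
        have h1 : CBox (p - z) (((R : ℝ) + 1) * dy j) ⊆ CBox (p - z) w := by
          apply V5_CBox_mono
          rw [hw]
          exact mul_le_mul_of_nonneg_left (V5_dy_anti hj1) (by linarith)
        exact ⟨h1.trans hcU, hcA.mono_left h1, hcB.mono_left h1⟩
      have hN : ∀ j ∈ T.filter (fun j => j < k), (k + 1) / 2 ≤ j ∧ j < k ∧ Typ R (shf z g) (p - z) Rt j := by
        intro j hj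
        rw [Finset.mem_filter] at hj
        have h1 := hTJ hj.1
        rw [Jst, Finset.mem_filter, Finset.mem_Icc] at h1
        exact ⟨h1.1.1, hj.2, (Typ_shf R g p z Rt j).mpr (hTyp j hj.1)⟩
      have hdec := mm_decay hR h hgz htol hkk hRt hbox (T.filter (fun j => j < k)) hN
        (S := {x | x + z ∈ S}) (by rw [← hv]; exact hSz)
      have hcard : (k - 1) / 8 ≤ (T.filter (fun j => j < k)).card := by
        have h1 : T ⊆ insert k (T.filter (fun j => j < k)) := by
          intro j hj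
          rw [Finset.mem_insert, Finset.mem_filter]
          have h2 := hTJ hj
          rw [Jst, Finset.mem_filter, Finset.mem_Icc] at h2
          have h3 := h2.1.2
          rcases Nat.lt_or_ge j k with h4 | h4
          · exact Or.inr ⟨hj, h4⟩
          · left; omega
        have h2 := (Finset.card_le_card h1).trans (Finset.card_insert_le _ _)
        omega
      have hpow : (1 - 1 / Rt) ^ (T.filter (fun j => j < k)).card ≤ (1 - 1 / Rt) ^ ((k - 1) / 8) :=
        pow_le_pow_of_le_one hq0 hq1 hcard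
      have h1 : (1 - 1 / Rt) ^ (T.filter (fun j => j < k)).card * (1 + tol) ≤
          (1 - 1 / Rt) ^ ((k - 1) / 8) * (1 + tol) := mul_le_mul_of_nonneg_right hpow (by linarith)
      have h2 : 0 ≤ (if NearB xA xB xU rA ρ w (p - z) then (1 + tol) else 0) := by
        split_ifs <;> linarith
      rw [hK0]
      linarith
  have hZ : (Zg d n r).Nonempty := Zg_nonempty n hr.le
  have hZc : 0 < ((Zg d n r).card : ℝ) := by exact_mod_cast hZ.card_pos
  have hcount := count_near n hr hw0 xA xB xU rA ρ p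
  have hsum : avz (Zg d n r) (fun z => (if NearB xA xB xU rA ρ w (p - z) then (1 + tol) else 0) + K0) =
      (((Zg d n r).filter (fun z => NearB xA xB xU rA ρ w (p - z))).card : ℝ) * (1 + tol) / ((Zg d n r).card : ℝ) + K0 := by
    unfold avz
    rw [Finset.sum_add_distrib, Finset.sum_ite, Finset.sum_const_zero, add_zero, Finset.sum_const,
      Finset.sum_const, nsmul_eq_mul, nsmul_eq_mul]
    field_simp
  have hmain : Mav (Zg d n r) tol (CBox xA rA) (CBox xB rA) (Box xU ρ) g S ≤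
      avz (Zg d n r) (fun z => (if NearB xA xB xU rA ρ w (p - z) then (1 + tol) else 0) + K0) :=
    avz_mono hz
  rw [hsum] at hmain
  refine hmain.trans ?_
  have h1 : (((Zg d n r).filter (fun z => NearB xA xB xU rA ρ w (p - z))).card : ℝ) * (1 + tol) / ((Zg d n r).card : ℝ) ≤
      6 * d * ((2 * w + dy n) / r) * (1 + tol) := by
    rw [div_le_iff₀ hZc]
    calc (((Zg d n r).filter (fun z => NearB xA xB xU rA ρ w (p - z))).card : ℝ) * (1 + tol)
        ≤ (6 * d * ((2 * w + dy n) / r) * (Zg d n r).card) * (1 + tol) :=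
          mul_le_mul_of_nonneg_right hcount (by linarith)
      _ = _ := by ring
  have h2 : 2 * w + dy n ≤ (2 * R + 3) * dy ((k + 1) / 2) := by
    have h3 : dy n ≤ dy ((k + 1) / 2) := V5_dy_anti (by omega)
    rw [hw]
    linarith
  have h3 : 6 * d * ((2 * w + dy n) / r) * (1 + tol) ≤ 6 * d * (2 * R + 3) / r * dy ((k + 1) / 2) * (1 + tol) := by
    refine mul_le_mul_of_nonneg_right ?_ (by linarith)
    calc 6 * d * ((2 * w + dy n) / r) ≤ 6 * d * (((2 * R + 3) * dy ((k + 1) / 2)) / r) := by gcongr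
      _ = _ := by ring
  rw [hK0]
  linarith

end MP_d19698_pr
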