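import Pool.Agent.Lib.MP_d19698_pr.V1
import Pool.Agent.Lib.MP_d19698_pr.V5
import Pool.Agent.Lib.MP_d19698_pr.CubeC

/-!
# V6: abstract Rademacher field models
-/

open MeasureTheory ProbabilityTheory Filter Topology Set
open scoped ENNReal NNReal

namespace MP_d19698_pr

variable {d : ℕ}

/-- A Rademacher field `H x = ∑ i, ± φ_i` with `n` levels: `φ_i` is supported in the box `CBox (ctr i) (r0 2^{-lev i})` and bounded by `s`; the boxes of one level cover each point at most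
`C1 / s²` times; at most `C1 2^{dk} / s²` boxes of level `k` meet `CBox 0 L`; inside `CBox 0 L` the law is invariant under the translations of the grid `2^{-n} ℤ^d`. -/
structure RM (d n : ℕ) (r0 L C1 : ℝ) where
  I : Type
  fI : Fintype I
  dI : DecidableEq I
  lev : I → ℕ
  φ : I → Rd d → ℝ
  ctr : I → Rd d
  s : ℝ
  s_pos : 0 < s
  lev_lt : ∀ i, lev i < n
  bd : ∀ i p, |φ i p| ≤ s
  supp : ∀ i p, φ i p ≠ 0 → p ∈ CBox (ctr i) (r0 * dy (lev i))
  overlap : ∀ (k : ℕ) (p : Rd d), s ^ 2 * ({i | lev i = k ∧ p ∈ CBox (ctr i) (r0 * dy k)} : Set I).ncard ≤ C1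
  total : ∀ k : ℕ, s ^ 2 * ({i | lev i = k ∧ (CBox (ctr i) (r0 * dy k) ∩ CBox 0 L).Nonempty} : Set I).ncard ≤ C1 * 2 ^ (d * k)
  trans : ∀ (v : Fin d → ℤ) (U : Set (Rd d)), U ⊆ CBox 0 L → (∀ p ∈ U, p + latt n v ∈ CBox 0 L) → ∀ G : (Rd d → ℝ) → ℝ,
    (∀ g g' : Rd d → ℝ, (∀ p ∈ U, g p = g' p) → G g = G g') →
      cE (fun x : I → Bool => G (fun p => ∑ i, sg (x i) * φ i (p + latt n v))) = cE (fun x : I → Bool => G (fun p => ∑ i, sg (x i) * φ i p))

attribute [instance] RM.fI RM.dI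

namespace RM

variable {n : ℕ} {r0 L C1 : ℝ} (M : RM d n r0 L C1)

/-- the weighted field `ξ H x` -/
def fld (ξ : ℝ) (x : M.I → Bool) (p : Rd d) : ℝ := ξ * ∑ i, sg (x i) * M.φ i p

/-- the box of the index `i` -/
def bx (i : M.I) : Set (Rd d) := CBox (M.ctr i) (r0 * dy (M.lev i))

private theorem abs_sg (b : Bool) : |sg b| = 1 := by
  cases b <;> simp [sg]

theorem fld_bdd (ξ : ℝ) : ∃ B : ℝ, ∀ x p, |M.fld ξ x p| ≤ B := by
  refine ⟨|ξ| * ∑ _i : M.I, M.s, fun x p => ?_⟩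
  unfold fld
  rw [abs_mul]
  refine mul_le_mul_of_nonneg_left ?_ (abs_nonneg _)
  refine (Finset.abs_sum_le_sum_abs _ _).trans (Finset.sum_le_sum fun i _ => ?_)
  rw [abs_mul, abs_sg, one_mul]
  exact M.bd i p

private theorem sum_update (i : M.I) (x : M.I → Bool) (b : Bool) (p : Rd d) :
    ∑ j, sg (Function.update x i b j) * M.φ j p
      = ∑ j, sg (x j) * M.φ j p + (sg b - sg (x i)) * M.φ i p := by
  have h : ∀ j ∈ Finset.univ.erase i, sg (Function.update x i b j) * M.φ j p = sg (x j) * M.φ j p := by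
    intro j hj
    rw [Function.update_of_ne (Finset.ne_of_mem_erase hj)]
  rw [← Finset.add_sum_erase _ _ (Finset.mem_univ i), ← Finset.add_sum_erase _ (fun j => sg (x j) * M.φ j p) (Finset.mem_univ i),
    Finset.sum_congr rfl h, Function.update_self]
  ring

private theorem phi_zero (i : M.I) {p : Rd d} (hp : p ∉ M.bx i) : M.φ i p = 0 := by
  by_contra h
  exact hp (M.supp i p h)

/-- flipping the coordinate `i` changes the field only on the box of `i`, by at most `2 ξ s`. -/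
theorem fld_flip {ξ : ℝ} (hξ : 0 ≤ ξ) (i : M.I) (x : M.I → Bool) :
    (∀ p, p ∉ M.bx i → M.fld ξ (fl i x) p = M.fld ξ x p) ∧ ∀ p, |M.fld ξ (fl i x) p - M.fld ξ x p| ≤ 2 * ξ * M.s := by
  have key : ∀ p, M.fld ξ (fl i x) p - M.fld ξ x p = ξ * ((sg (!(x i)) - sg (x i)) * M.φ i p) := by
    intro p
    unfold fld fl
    rw [M.sum_update i x (!(x i)) p]
    ring
  refine ⟨fun p hp => ?_, fun p => ?_⟩
  · have := key p
    rw [M.phi_zero i hp, mul_zero, mul_zero] at this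
    linarith
  · rw [key p, abs_mul, abs_mul, abs_of_nonneg hξ]
    have h1 : |sg (!(x i)) - sg (x i)| ≤ 2 := by
      cases x i <;> norm_num [sg]
    have h2 := M.bd i p
    calc ξ * (|sg (!(x i)) - sg (x i)| * |M.φ i p|) ≤ ξ * (2 * M.s) := by
          refine mul_le_mul_of_nonneg_left ?_ hξ
          exact mul_le_mul h1 h2 (abs_nonneg _) (by norm_num)
      _ = 2 * ξ * M.s := by ring

private theorem measurableSet_bx (i : M.I) : MeasurableSet (M.bx i) :=
  (isClosed_CBox _ _).measurableSet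

private theorem diff_one {ξ : ℝ} (hξ : 0 ≤ ξ) (hs : 2 * ξ * M.s ≤ 1) {A B U : Set (Rd d)} (h : GoodPos A B U) {Z : Finset (Rd d)} (hZ : Z.Nonempty) (lam u : ℝ) {tol : ℝ}
    (htol : 0 < tol) (i : M.I) (x : M.I → Bool) :
    max 0 (Fav Z A B U lam u (M.fld ξ (fl i x)) - Fav Z A B U lam u (M.fld ξ x)) ≤
      tol + 4 * ξ * M.s * Mav Z tol A B U (M.fld ξ x) (M.bx i) := by
  obtain ⟨Bd, hBd⟩ := M.fld_bdd ξ
  obtain ⟨h1, h2⟩ := M.fld_flip hξ i x
  have h0 : 0 ≤ 2 * ξ * M.s := by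
    have := M.s_pos
    positivity
  have := Fav_diff_le h (M.measurableSet_bx i) hZ (f := M.fld ξ x) (g := M.fld ξ (fl i x)) (M := Bd) (s := 2 * ξ * M.s) (tol := tol)
    (fun p => hBd x p) (fun p => hBd _ p) h0 hs htol (fun p hp => le_of_eq (h1 p hp))
    (fun p _ => by have := abs_le.mp (h2 p); linarith) lam u
  refine this.trans (le_of_eq ?_)
  ring

/-- `E |D_i F| ≤ tol + 4 ξ s E M_i` for `F = Fav(field)`, `M_i = Mav(field)(box i)` (`cE_abs_cD`, `Fav_diff_le` with `s := 2 ξ s ≤ 1`). -/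
theorem cD_one {ξ : ℝ} (hξ : 0 ≤ ξ) (hs : 2 * ξ * M.s ≤ 1) {A B U : Set (Rd d)} (h : GoodPos A B U) {Z : Finset (Rd d)} (hZ : Z.Nonempty) (lam u : ℝ) {tol : ℝ}
    (htol : 0 < tol) (i : M.I) :
    cE (fun x => |cD i (fun x => Fav Z A B U lam u (M.fld ξ x)) x|) ≤ tol + 4 * ξ * M.s * cE (fun x => Mav Z tol A B U (M.fld ξ x) (M.bx i)) := by
  rw [cE_abs_cD i (fun x => Fav Z A B U lam u (M.fld ξ x))]
  refine (cE_mono (fun x => M.diff_one hξ hs h hZ lam u htol i x)).trans (le_of_eq ?_)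
  rw [cE_add, cE_const, cE_const_mul]

/-- `E (D_i F)² ≤ tol² + (4 ξ s)² E M_i²` (`cE_sq_cD`, `(a+b)² ≤ 2a² + 2b²`). -/
theorem cD_two {ξ : ℝ} (hξ : 0 ≤ ξ) (hs : 2 * ξ * M.s ≤ 1) {A B U : Set (Rd d)} (h : GoodPos A B U) {Z : Finset (Rd d)} (hZ : Z.Nonempty) (lam u : ℝ) {tol : ℝ}
    (htol : 0 < tol) (i : M.I) :
    cE (fun x => cD i (fun x => Fav Z A B U lam u (M.fld ξ x)) x ^ 2) ≤
      tol ^ 2 + (4 * ξ * M.s) ^ 2 * cE (fun x => Mav Z tol A B U (M.fld ξ x) (M.bx i) ^ 2) := by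
  rw [cE_sq_cD i (fun x => Fav Z A B U lam u (M.fld ξ x))]
  have h1 : ∀ x : M.I → Bool, (max 0 (Fav Z A B U lam u (M.fld ξ (fl i x)) - Fav Z A B U lam u (M.fld ξ x))) ^ 2 ≤
      2 * tol ^ 2 + 2 * (4 * ξ * M.s) ^ 2 * Mav Z tol A B U (M.fld ξ x) (M.bx i) ^ 2 := by
    intro x
    have h2 := M.diff_one hξ hs h hZ lam u htol i x
    have h3 : (0 : ℝ) ≤ max 0 (Fav Z A B U lam u (M.fld ξ (fl i x)) - Fav Z A B U lam u (M.fld ξ x)) := le_max_left _ _
    calc (max 0 (Fav Z A B U lam u (M.fld ξ (fl i x)) - Fav Z A B U lam u (M.fld ξ x))) ^ 2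
        ≤ (tol + 4 * ξ * M.s * Mav Z tol A B U (M.fld ξ x) (M.bx i)) ^ 2 := pow_le_pow_left₀ h3 h2 2
      _ ≤ _ := by nlinarith [sq_nonneg (tol - 4 * ξ * M.s * Mav Z tol A B U (M.fld ξ x) (M.bx i))]
  have h4 := cE_mono h1
  rw [cE_add, cE_const, cE_const_mul] at h4
  linarith

/-- irrelevant coordinates: the box of `i` does not meet `K = CBox 0 L ⊇ U + Z` (`Fav_congr`). -/
theorem cD_irrelevant (ξ : ℝ) {A B U : Set (Rd d)} {Z : Finset (Rd d)} (hK : ∀ z ∈ Z, ∀ p ∈ U, p + z ∈ CBox (0 : Rd d) L) (lam u : ℝ) (i : M.I)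
    (hi : ¬ (M.bx i ∩ CBox 0 L).Nonempty) (x : M.I → Bool) : cD i (fun x => Fav Z A B U lam u (M.fld ξ x)) x = 0 := by
  have h : Fav Z A B U lam u (M.fld ξ (Function.update x i true)) = Fav Z A B U lam u (M.fld ξ (Function.update x i false)) := by
    refine Fav_congr hK (fun p hp => ?_) lam u
    have hp2 : p ∉ M.bx i := fun hb => hi ⟨p, hb, hp⟩
    unfold fld
    rw [M.sum_update i x true p, M.sum_update i x false p, M.phi_zero i hp2, mul_zero, mul_zero]
  unfold cD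
  beta_reduce
  rw [h, sub_self, zero_div]

/-- **(P2)** sum over one level: `Mav_sum_le` with `N = C1 / s²` (`overlap`). -/
theorem sum_Mav_le (ξ : ℝ) {A B U : Set (Rd d)} (h : GoodPos A B U) {Z : Finset (Rd d)} (hZ : Z.Nonempty) {tol : ℝ} (htol : 0 < tol) (k : ℕ)
    (x : M.I → Bool) :
    M.s ^ 2 * ∑ i ∈ Finset.univ.filter (fun i => M.lev i = k), Mav Z tol A B U (M.fld ξ x) (M.bx i) ≤ C1 * (1 + tol) := by
  obtain ⟨Bd, hBd⟩ := M.fld_bdd ξ
  have hs2 : 0 < M.s ^ 2 := pow_pos M.s_pos 2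
  have h1 : ∑ i ∈ Finset.univ.filter (fun i => M.lev i = k), Mav Z tol A B U (M.fld ξ x) (M.bx i) ≤ C1 / M.s ^ 2 * (1 + tol) := by
    refine Mav_sum_le h hZ (fun p => hBd x p) htol _ (fun i => M.bx i) (fun i _ => M.measurableSet_bx i) (fun p => ?_)
    rw [le_div_iff₀ hs2, mul_comm]
    refine le_trans (le_of_eq ?_) (M.overlap k p)
    congr 1
    classical
    have h2 : ({i | M.lev i = k ∧ p ∈ CBox (M.ctr i) (r0 * dy k)} : Set M.I)
        = (((Finset.univ.filter (fun i => M.lev i = k)).filter (fun i => p ∈ M.bx i) : Finset M.I) : Set M.I) := by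
      ext i
      simp only [Set.mem_ofPred_eq, Finset.coe_filter, Finset.mem_filter, Finset.mem_univ, true_and]
      constructor
      · rintro ⟨a, b⟩
        refine ⟨a, ?_⟩
        unfold bx
        rw [a]
        exact b
      · rintro ⟨a, b⟩
        refine ⟨a, ?_⟩
        unfold bx at b
        rw [a] at b
        exact b
    rw [h2, Set.ncard_coe_finset, Finset.card_filter, Nat.cast_sum]
    refine Finset.sum_congr rfl fun i _ => ?_
    simp only [Set.indicator_apply, Nat.cast_ite, Nat.cast_one, Nat.cast_zero]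
  calc M.s ^ 2 * ∑ i ∈ Finset.univ.filter (fun i => M.lev i = k), Mav Z tol A B U (M.fld ξ x) (M.bx i)
      ≤ M.s ^ 2 * (C1 / M.s ^ 2 * (1 + tol)) := mul_le_mul_of_nonneg_left h1 hs2.le
    _ = C1 * (1 + tol) := by
      rw [← mul_assoc, mul_div_cancel₀ _ hs2.ne']

/-- **(P3)** expectation of one proportion. `cE M_i = avz_z cE (mm(shf z field){p | p+z ∈ bx i}) = avz_z cE (mm(field){p | p+z ∈ bx i})` by `trans` with
`G g = mm tol A B U (ξ g) {p | p + z ∈ bx i}` (`mm_congr`; `z = latt n v` by `mem_Zg`), and `avz_z mm(field){p | p+z ∈ bx i} ≤ (1+tol) max_p #{z : p + z ∈ bx i}/|Z|`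
(`mm_sum_le` with the sets indexed by `z`), `count_box` with `w = r0 2^{-k}`. -/
theorem cE_Mav_le {ξ : ℝ} (hr0 : 0 < r0) {A B U : Set (Rd d)} (h : GoodPos A B U) {r : ℝ} (hr : 0 < r) (hU : U ⊆ CBox 0 L)
    (hK : ∀ z ∈ Zg d n r, ∀ p ∈ U, p + z ∈ CBox (0 : Rd d) L) {tol : ℝ} (htol : 0 < tol) (i : M.I) :
    cE (fun x => Mav (Zg d n r) tol A B U (M.fld ξ x) (M.bx i)) ≤ ((2 * r0 + 1) / r) ^ d * dy (M.lev i) ^ d * (1 + tol) := by
  classical
  obtain ⟨Bd, hBd⟩ := M.fld_bdd ξ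
  set Z := Zg d n r with hZdef
  have hZ : Z.Nonempty := Zg_nonempty n hr.le
  have hcard : (0 : ℝ) < (Z.card : ℝ) := by exact_mod_cast hZ.card_pos
  have hdy : ∀ k, (0 : ℝ) < dy k := fun k => by unfold dy; positivity
  -- translation invariance
  have h1 : ∀ z ∈ Z, cE (fun x => mm tol A B U (shf z (M.fld ξ x)) {p | p + z ∈ M.bx i})
      = cE (fun x => mm tol A B U (M.fld ξ x) {p | p + z ∈ M.bx i}) := by
    intro z hz
    obtain ⟨_, v, rfl⟩ := mem_Zg hz
    have := M.trans v U hU (fun p hp => hK _ hz p hp)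
      (fun g => mm tol A B U (fun p => ξ * g p) {p | p + latt n v ∈ M.bx i})
      (fun g g' hgg => mm_congr tol (fun p hp => by rw [hgg p hp]) _)
    exact this
  have h2 : cE (fun x => Mav Z tol A B U (M.fld ξ x) (M.bx i))
      = cE (fun x => (∑ z ∈ Z, mm tol A B U (M.fld ξ x) {p | p + z ∈ M.bx i}) / (Z.card : ℝ)) := by
    have e1 : ∀ F : Rd d → (M.I → Bool) → ℝ, cE (fun x => (∑ z ∈ Z, F z x) / (Z.card : ℝ)) = (∑ z ∈ Z, cE (F z)) / (Z.card : ℝ) := by
      intro F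
      have : (fun x => (∑ z ∈ Z, F z x) / (Z.card : ℝ)) = fun x => (Z.card : ℝ)⁻¹ * ∑ z ∈ Z, F z x := by
        funext x
        rw [div_eq_inv_mul]
      rw [this, cE_const_mul, cE_sum, div_eq_inv_mul]
    unfold Mav avz
    rw [e1 (fun z x => mm tol A B U (shf z (M.fld ξ x)) {p | p + z ∈ M.bx i}),
      e1 (fun z x => mm tol A B U (M.fld ξ x) {p | p + z ∈ M.bx i}), Finset.sum_congr rfl h1]
  rw [h2]
  have hw : 0 ≤ r0 * dy (M.lev i) := (mul_pos hr0 (hdy _)).le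
  have hdn : dy n ≤ dy (M.lev i) := by
    unfold dy
    exact pow_le_pow_of_le_one (by norm_num) (by norm_num) (M.lev_lt i).le
  -- pointwise bound
  have h3 : ∀ x : M.I → Bool, (∑ z ∈ Z, mm tol A B U (M.fld ξ x) {p | p + z ∈ M.bx i}) / (Z.card : ℝ)
      ≤ ((2 * r0 + 1) / r) ^ d * dy (M.lev i) ^ d * (1 + tol) := by
    intro x
    have h4 : ∑ z ∈ Z, mm tol A B U (M.fld ξ x) {p | p + z ∈ M.bx i}
        ≤ (((2 * r0 + 1) / r) ^ d * dy (M.lev i) ^ d * (Z.card : ℝ)) * (1 + tol) := by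
      refine mm_sum_le h (fun p _ => hBd x p) htol Z (fun z => {p | p + z ∈ M.bx i}) (fun z _ => ?_) (fun p => ?_)
      · exact (measurable_add_const z) (M.measurableSet_bx i)
      · have h5 := count_box n hr hw (M.ctr i - p)
        have h6 : (∑ z ∈ Z, ({q | q + z ∈ M.bx i} : Set (Rd d)).indicator (fun _ => (1 : ℝ)) p)
            = ((Z.filter (fun z => z ∈ CBox (M.ctr i - p) (r0 * dy (M.lev i)))).card : ℝ) := by
          rw [Finset.card_filter, Nat.cast_sum]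
          refine Finset.sum_congr rfl fun z _ => ?_
          have h7 : p ∈ ({q | q + z ∈ M.bx i} : Set (Rd d)) ↔ z ∈ CBox (M.ctr i - p) (r0 * dy (M.lev i)) := by
            simp only [Set.mem_ofPred_eq, bx, CBox]
            refine forall_congr' fun l => ?_
            simp only [PiLp.add_apply, PiLp.sub_apply]
            rw [show p l + z l - (M.ctr i) l = z l - ((M.ctr i) l - p l) by ring]
          by_cases hm : z ∈ CBox (M.ctr i - p) (r0 * dy (M.lev i))
          · rw [Set.indicator_of_mem (h7.mpr hm)]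
            simp [hm]
          · rw [Set.indicator_of_notMem (fun hh => hm (h7.mp hh))]
            simp [hm]
        rw [h6]
        refine h5.trans ?_
        refine mul_le_mul_of_nonneg_right ?_ hcard.le
        rw [← mul_pow]
        refine pow_le_pow_left₀ ?_ ?_ d
        · have := hdy n
          positivity
        · rw [div_mul_eq_mul_div]
          refine div_le_div_of_nonneg_right ?_ hr.le
          nlinarith
    rw [div_le_iff₀ hcard]
    refine h4.trans (le_of_eq ?_)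
    ring
  refine (cE_mono h3).trans (le_of_eq ?_)
  rw [cE_const]

end RM

end MP_d19698_pr
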