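import Pool.Agent.Lib.MP_d19698_pr.Env
import Pool.Agent.Lib.MP_d19698_pr.V6

/-!
# V10: the concrete Rademacher model of the field: discretised kernels, supports, bounds, counting
-/

open MeasureTheory ProbabilityTheory Filter Topology Set
open scoped ENNReal NNReal

namespace MP_d19698_pr

variable {d : ℕ}

/-- the time grid `τ_j = (2^(N-1) + 1 + j)/2^N ∈ (1/2, 1]`, `j < 2^(N-1)` -/
noncomputable def tau (N j : ℕ) : ℝ := ((2 : ℝ) ^ (N - 1) + 1 + j) / 2 ^ N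

theorem tau_gt {N : ℕ} (hN : 1 ≤ N) (j : ℕ) : 1 / 2 < tau N j := by
  obtain ⟨M, rfl⟩ : ∃ M, N = M + 1 := ⟨N - 1, by omega⟩
  unfold tau
  have h2 : (0 : ℝ) < 2 ^ M := by positivity
  have hj : (0 : ℝ) ≤ j := Nat.cast_nonneg j
  rw [Nat.add_sub_cancel, pow_succ, lt_div_iff₀ (by positivity)]
  linarith

theorem tau_le {N j : ℕ} (hN : 1 ≤ N) (hj : j < 2 ^ (N - 1)) : tau N j ≤ 1 := by
  obtain ⟨M, rfl⟩ : ∃ M, N = M + 1 := ⟨N - 1, by omega⟩
  unfold tau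
  rw [Nat.add_sub_cancel] at hj ⊢
  have h2 : (0 : ℝ) < 2 ^ M := by positivity
  have hj' : (j : ℝ) + 1 ≤ 2 ^ M := by exact_mod_cast hj
  rw [pow_succ, div_le_one (by positivity)]
  linarith

private theorem V10_tau_pos {N : ℕ} (hN : 1 ≤ N) (j : ℕ) : 0 < tau N j :=
  lt_trans (by norm_num) (tau_gt hN j)

private theorem V10_dy_pos (N : ℕ) : 0 < dy N := by unfold dy; positivity

private theorem V10_dy_mul (N : ℕ) : dy N * 2 ^ N = 1 := by
  unfold dy; rw [← mul_pow]; norm_num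

private theorem V10_dy_add (N k : ℕ) : dy (N + k) = dy N * dy k := by
  unfold dy; rw [pow_add]

private theorem V10_dy_le (N : ℕ) : dy N ≤ 1 := by
  unfold dy; exact pow_le_one₀ (by norm_num) (by norm_num)

private theorem V10_latt (l : ℕ) (v : Fin d → ℤ) (i : Fin d) : latt l v i = dy l * (v i : ℝ) := rfl

/-- discretised kernel: the cell at `(2^{-N} y, τ_j)` -/
noncomputable def nk (𝔎 : Rd d → ℝ) (N : ℕ) (y : Fin d → ℤ) (j : ℕ) (x : Rd d) : ℝ :=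
  Real.sqrt ((dy N / tau N j) ^ (d + 1)) * 𝔎 ((tau N j)⁻¹ • (latt N y - x))

/-- index set: level `k < n`, position in a window, time -/
abbrev Idx (d n Y N : ℕ) : Type := Fin n × (Fin d → Fin (2 * Y + 1)) × Fin (2 ^ (N - 1))

/-- the integer position -/
def yv {Y : ℕ} (a : Fin d → Fin (2 * Y + 1)) : Fin d → ℤ := fun l => ((a l : ℕ) : ℤ) - (Y : ℤ)

theorem yv_injective {Y : ℕ} : Function.Injective (yv : (Fin d → Fin (2 * Y + 1)) → Fin d → ℤ) := by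
  intro a b h
  funext l
  have h1 := congrFun h l
  unfold yv at h1
  apply Fin.ext
  omega

theorem abs_yv_le {Y : ℕ} (a : Fin d → Fin (2 * Y + 1)) (l : Fin d) : |yv a l| ≤ Y := by
  unfold yv
  have := (a l).2
  rw [abs_le]
  constructor <;> omega

theorem exists_yv {Y : ℕ} {y : Fin d → ℤ} (h : ∀ l, |y l| ≤ Y) : ∃ a : Fin d → Fin (2 * Y + 1), yv a = y := by
  refine ⟨fun l => ⟨(y l + Y).toNat, ?_⟩, ?_⟩
  · have := abs_le.1 (h l)
    omega
  · funext l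
    have := abs_le.1 (h l)
    unfold yv
    simp only
    omega

/-- the number of integer vectors in a box of radius `w` is at most `(2w+1)^d`: injectivity of `yv` and one integer interval per coordinate. Here `c` is any real centre. -/
theorem count_yv {Y : ℕ} (c : Fin d → ℝ) {w : ℝ} (hw : 0 ≤ w) :
    (({a : Fin d → Fin (2 * Y + 1) | ∀ l, |(yv a l : ℝ) - c l| ≤ w} : Set (Fin d → Fin (2 * Y + 1))).ncard : ℝ) ≤ (2 * w + 1) ^ d := by
  classical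
  set S : Set (Fin d → Fin (2 * Y + 1)) := {a | ∀ l, |(yv a l : ℝ) - c l| ≤ w} with hS
  set T : Finset (Fin d → ℤ) := Fintype.piFinset (fun l => Finset.Icc ⌈c l - w⌉ ⌊c l + w⌋) with hT
  have h1 : S.ncard ≤ T.card := by
    rw [← Set.ncard_coe_finset T]
    apply Set.ncard_le_ncard_of_injOn yv _ (yv_injective.injOn) (Finset.finite_toSet T)
    intro a ha
    rw [hS, Set.mem_ofPred_eq] at ha
    rw [Finset.mem_coe, hT, Fintype.mem_piFinset]
    intro l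
    have := abs_le.1 (ha l)
    rw [Finset.mem_Icc, Int.ceil_le, Int.le_floor]
    constructor <;> linarith [this.1, this.2]
  have h2 : (T.card : ℝ) ≤ (2 * w + 1) ^ d := by
    rw [hT, Fintype.card_piFinset]
    push_cast
    calc ∏ l : Fin d, ((Finset.Icc ⌈c l - w⌉ ⌊c l + w⌋).card : ℝ) ≤ ∏ _l : Fin d, (2 * w + 1) := by
          apply Finset.prod_le_prod
          · intro l _; positivity
          · intro l _
            rw [Int.card_Icc]
            have a1 := Int.floor_le (c l + w)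
            have a2 := Int.le_ceil (c l - w)
            rcases le_total 0 (⌊c l + w⌋ + 1 - ⌈c l - w⌉) with h | h
            · have a3 : (((⌊c l + w⌋ + 1 - ⌈c l - w⌉).toNat : ℕ) : ℝ) = ((⌊c l + w⌋ + 1 - ⌈c l - w⌉ : ℤ) : ℝ) := by
                exact_mod_cast congrArg (Int.cast : ℤ → ℝ) (Int.toNat_of_nonneg h)
              rw [a3]
              push_cast
              linarith
            · rw [Int.toNat_of_nonpos h]
              push_cast
              linarith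
      _ = (2 * w + 1) ^ d := by simp
  exact le_trans (by exact_mod_cast h1) h2

namespace Env

variable [NeZero d] (E : Env d)

/-- a continuous function with support in a ball is bounded (`hKcont`, `hKsupp`) -/
theorem exists_Km : ∃ Km : ℝ, 1 ≤ Km ∧ ∀ x, |E.𝔎 x| ≤ Km := by
  have hcs : HasCompactSupport E.𝔎 := by
    apply HasCompactSupport.intro (isCompact_closedBall (0 : Rd d) E.r0)
    intro x hx
    apply E.hKsupp
    rw [Metric.mem_closedBall, dist_zero_right, not_le] at hx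
    exact hx.le
  obtain ⟨C, hC⟩ := hcs.exists_bound_of_continuous E.hKcont
  refine ⟨max C 1, le_max_right _ _, fun x => ?_⟩
  exact (by simpa using hC x : |E.𝔎 x| ≤ C).trans (le_max_left _ _)

/-- a bound for the kernel -/
noncomputable def Km : ℝ := E.exists_Km.choose

theorem one_le_Km : 1 ≤ E.Km := E.exists_Km.choose_spec.1

theorem abs_K_le (x : Rd d) : |E.𝔎 x| ≤ E.Km := E.exists_Km.choose_spec.2 x

/-- the function of the index `i` -/
noncomputable def phi (n Y N : ℕ) (i : Idx d n Y N) (p : Rd d) : ℝ :=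
  nk E.𝔎 N (yv i.2.1) i.2.2 ((2 : ℝ) ^ (i.1 : ℕ) • p)

theorem phi_continuous {n Y N : ℕ} (i : Idx d n Y N) : Continuous (E.phi n Y N i) := by
  unfold phi nk
  apply continuous_const.mul
  apply E.hKcont.comp
  fun_prop

/-- `𝔎(τ⁻¹ (2^{-N} y - x)) ≠ 0` implies `‖2^{-N} y - x‖ < r0 τ ≤ r0` -/
theorem nk_supp {N j : ℕ} (hN : 1 ≤ N) (hj : j < 2 ^ (N - 1)) {y : Fin d → ℤ} {x : Rd d} (h : nk E.𝔎 N y j x ≠ 0) :
    ∀ l, |latt N y l - x l| ≤ E.r0 := by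
  intro l
  have ht := V10_tau_pos hN j
  have h1 : E.𝔎 ((tau N j)⁻¹ • (latt N y - x)) ≠ 0 := fun h0 => h (by unfold nk; rw [h0, mul_zero])
  have h2 : ‖(tau N j)⁻¹ • (latt N y - x)‖ < E.r0 := by
    by_contra hc
    exact h1 (E.hKsupp _ (not_lt.1 hc))
  rw [norm_smul, Real.norm_eq_abs, abs_of_pos (inv_pos.2 ht), inv_mul_lt_iff₀ ht] at h2
  have h3 : |latt N y l - x l| ≤ ‖latt N y - x‖ := by
    have := PiLp.norm_apply_le (latt N y - x) l
    simpa using this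
  have h4 : tau N j * E.r0 ≤ 1 * E.r0 := mul_le_mul_of_nonneg_right (tau_le hN hj) E.hr0.le
  linarith

/-- multiply by `2^{-k}`: `2^{-k} 2^{-N} y = latt (N+k) y` -/
theorem phi_supp {n Y N : ℕ} (hN : 1 ≤ N) (i : Idx d n Y N) {p : Rd d} (h : E.phi n Y N i p ≠ 0) :
    p ∈ CBox (latt (N + i.1) (yv i.2.1)) (E.r0 * dy i.1) := by
  have h1 := E.nk_supp hN i.2.2.2 h
  intro l
  have h2 := h1 l
  rw [V10_latt] at h2 ⊢
  rw [V10_dy_add]
  have h3 : ((2 : ℝ) ^ (i.1 : ℕ) • p) l = 2 ^ (i.1 : ℕ) * p l := rfl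
  rw [h3] at h2
  have hd := V10_dy_pos (i.1 : ℕ)
  have hm := V10_dy_mul (i.1 : ℕ)
  have h4 : p l - dy N * dy (i.1 : ℕ) * (yv i.2.1 l : ℝ) =
      -(dy (i.1 : ℕ) * (dy N * (yv i.2.1 l : ℝ) - 2 ^ (i.1 : ℕ) * p l)) := by
    have : dy (i.1 : ℕ) * (2 ^ (i.1 : ℕ) * p l) = p l := by rw [← mul_assoc, hm, one_mul]
    rw [mul_sub, this]
    ring
  rw [h4, abs_neg, abs_mul, abs_of_pos hd, mul_comm E.r0]
  exact mul_le_mul_of_nonneg_left h2 hd.le

/-- `dy N / τ ≤ 2 dy N` -/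
theorem nk_bd {N : ℕ} (hN : 1 ≤ N) (y : Fin d → ℤ) (j : ℕ) (x : Rd d) : |nk E.𝔎 N y j x| ≤ Real.sqrt ((2 * dy N) ^ (d + 1)) * E.Km := by
  unfold nk
  rw [abs_mul, abs_of_nonneg (Real.sqrt_nonneg _)]
  have ht := tau_gt hN j
  have htp := V10_tau_pos hN j
  have hdp := V10_dy_pos N
  apply mul_le_mul _ (E.abs_K_le _) (abs_nonneg _) (Real.sqrt_nonneg _)
  apply Real.sqrt_le_sqrt
  apply pow_le_pow_left₀ (by positivity)
  rw [div_le_iff₀ htp]
  nlinarith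

theorem phi_bd {n Y N : ℕ} (hN : 1 ≤ N) (i : Idx d n Y N) (p : Rd d) : |E.phi n Y N i p| ≤ Real.sqrt ((2 * dy N) ^ (d + 1)) * E.Km := by
  exact E.nk_bd hN _ _ _

/-- counting of indices of one level -/
theorem V10_card_le {n Y N k : ℕ} (hN : 1 ≤ N) (c : Fin d → ℝ) {w : ℝ} (hw : 0 ≤ w) (S : Set (Idx d n Y N))
    (hS : ∀ i ∈ S, (i.1 : ℕ) = k ∧ ∀ l, |(yv i.2.1 l : ℝ) - c l| ≤ w) :
    (Real.sqrt ((2 * dy N) ^ (d + 1)) * E.Km) ^ 2 * S.ncard ≤ 2 ^ d * E.Km ^ 2 * (dy N * (2 * w + 1)) ^ d := by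
  classical
  set A : Set (Fin d → Fin (2 * Y + 1)) := {a | ∀ l, |(yv a l : ℝ) - c l| ≤ w} with hA
  have hdp := V10_dy_pos N
  have hK := E.one_le_Km
  have h1 : S.ncard ≤ A.ncard * 2 ^ (N - 1) := by
    have h2 : S.ncard ≤ (A ×ˢ (univ : Set (Fin (2 ^ (N - 1))))).ncard := by
      apply Set.ncard_le_ncard_of_injOn (fun i => i.2) _ _ (Set.toFinite _)
      · intro i hi
        exact ⟨(hS i hi).2, mem_univ _⟩
      · intro i hi j hj hij
        have e1 : i.1 = j.1 := Fin.ext (by rw [(hS i hi).1, (hS j hj).1])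
        exact Prod.ext e1 hij
    rw [Set.ncard_prod] at h2
    simpa using h2
  have h2 := count_yv (Y := Y) c hw
  rw [← hA] at h2
  have h3 : (S.ncard : ℝ) ≤ (2 * w + 1) ^ d * 2 ^ (N - 1) := by
    calc (S.ncard : ℝ) ≤ (A.ncard : ℝ) * 2 ^ (N - 1) := by exact_mod_cast h1
      _ ≤ _ := by gcongr
  rw [mul_pow, Real.sq_sqrt (by positivity)]
  have h4 : dy N * (2 * 2 ^ (N - 1)) = 1 := by
    obtain ⟨M, rfl⟩ : ∃ M, N = M + 1 := ⟨N - 1, by omega⟩
    have := V10_dy_mul (M + 1)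
    rw [Nat.add_sub_cancel]
    rw [pow_succ] at this
    linarith
  calc (2 * dy N) ^ (d + 1) * E.Km ^ 2 * (S.ncard : ℝ) ≤
      (2 * dy N) ^ (d + 1) * E.Km ^ 2 * ((2 * w + 1) ^ d * 2 ^ (N - 1)) := by gcongr
    _ = 2 ^ d * E.Km ^ 2 * (dy N ^ d * (2 * w + 1) ^ d) * (dy N * (2 * 2 ^ (N - 1))) := by
        rw [mul_pow, pow_succ, pow_succ]; ring
    _ = _ := by rw [h4, mul_one, mul_pow]

/-- `#{y : |2^{-(N+k)} y - p|_∞ ≤ r0 2^{-k}} ≤ (2 r0 2^N + 1)^d` (`count_yv` with `c = 2^{N+k} p`, `w = r0 2^N`), times the number `2^{N-1}` of times;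
`s² (2 r0 2^N + 1)^d 2^{N-1} = 2^d Km² (2 r0 + 2^{-N})^d`. -/
theorem count_overlap {n Y N : ℕ} (hN : 1 ≤ N) (k : ℕ) (p : Rd d) :
    (Real.sqrt ((2 * dy N) ^ (d + 1)) * E.Km) ^ 2 *
      ({i | (i.1 : ℕ) = k ∧ p ∈ CBox (latt (N + k) (yv i.2.1)) (E.r0 * dy k)} : Set (Idx d n Y N)).ncard ≤ 2 ^ d * E.Km ^ 2 * (2 * E.r0 + 1) ^ d := by
  have h1 := E.V10_card_le (n := n) (Y := Y) (N := N) (k := k) hN
    (fun l => 2 ^ (N + k) * p l) (w := E.r0 * 2 ^ N) (by have := E.hr0; positivity)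
    {i | (i.1 : ℕ) = k ∧ p ∈ CBox (latt (N + k) (yv i.2.1)) (E.r0 * dy k)} (by
      intro i hi
      refine ⟨hi.1, fun l => ?_⟩
      have h2 := hi.2 l
      rw [V10_latt] at h2
      have h3 : (yv i.2.1 l : ℝ) - 2 ^ (N + k) * p l = -(2 ^ (N + k) * (p l - dy (N + k) * (yv i.2.1 l : ℝ))) := by
        have : (2 : ℝ) ^ (N + k) * (dy (N + k) * (yv i.2.1 l : ℝ)) = (yv i.2.1 l : ℝ) := by
          rw [← mul_assoc, mul_comm ((2 : ℝ) ^ (N + k)), V10_dy_mul, one_mul]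
        rw [mul_sub, this]
        ring
      rw [h3, abs_neg, abs_mul, abs_of_pos (by positivity : (0 : ℝ) < 2 ^ (N + k))]
      calc (2 : ℝ) ^ (N + k) * |p l - dy (N + k) * (yv i.2.1 l : ℝ)| ≤ 2 ^ (N + k) * (E.r0 * dy k) :=
            mul_le_mul_of_nonneg_left h2 (by positivity)
        _ = E.r0 * 2 ^ N * (dy k * 2 ^ k) := by rw [pow_add]; ring
        _ = E.r0 * 2 ^ N := by rw [V10_dy_mul, mul_one])
  refine h1.trans ?_
  have hr := E.hr0
  have hm := V10_dy_mul N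
  have hdp := V10_dy_pos N
  have hle := V10_dy_le N
  have h5 : dy N * (2 * (E.r0 * 2 ^ N) + 1) = 2 * E.r0 + dy N := by
    calc dy N * (2 * (E.r0 * 2 ^ N) + 1) = 2 * E.r0 * (dy N * 2 ^ N) + dy N := by ring
      _ = _ := by rw [hm, mul_one]
  rw [h5]
  have hK := E.one_le_Km
  gcongr

/-- `|2^{-(N+k)} y|_∞ ≤ L + r0 2^{-k}`, hence `|y|_∞ ≤ 2^N (2^k L + r0)`, at most `(2^{N+1} (2^k L + r0) + 1)^d ≤ 2^{Nd} 2^{kd} (2L + 2 r0 + 1)^d` positions. -/
theorem count_total {n Y N : ℕ} (hN : 1 ≤ N) (k : ℕ) {L : ℝ} (hL : 0 ≤ L) :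
    (Real.sqrt ((2 * dy N) ^ (d + 1)) * E.Km) ^ 2 *
      ({i | (i.1 : ℕ) = k ∧ (CBox (latt (N + k) (yv i.2.1)) (E.r0 * dy k) ∩ CBox 0 L).Nonempty} : Set (Idx d n Y N)).ncard ≤
        2 ^ d * E.Km ^ 2 * (2 * L + 2 * E.r0 + 1) ^ d * 2 ^ (d * k) := by
  have hr := E.hr0
  have h1 := E.V10_card_le (n := n) (Y := Y) (N := N) (k := k) hN
    (fun _ => 0) (w := 2 ^ N * (2 ^ k * L + E.r0)) (by positivity)
    {i | (i.1 : ℕ) = k ∧ (CBox (latt (N + k) (yv i.2.1)) (E.r0 * dy k) ∩ CBox 0 L).Nonempty} (by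
      intro i hi
      refine ⟨hi.1, fun l => ?_⟩
      obtain ⟨p, hp1, hp2⟩ := hi.2
      have h2 := hp1 l
      have h2' := hp2 l
      rw [V10_latt] at h2
      have h00 : (0 : Rd d) l = 0 := rfl
      rw [h00, sub_zero] at h2'
      have h3 : (yv i.2.1 l : ℝ) - 0 = 2 ^ (N + k) * (dy (N + k) * (yv i.2.1 l : ℝ)) := by
        rw [← mul_assoc, mul_comm ((2 : ℝ) ^ (N + k)), V10_dy_mul, one_mul, sub_zero]
      have h4 : |dy (N + k) * (yv i.2.1 l : ℝ)| ≤ L + E.r0 * dy k := by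
        rw [abs_le] at h2 h2' ⊢
        constructor <;> linarith [h2.1, h2.2, h2'.1, h2'.2]
      rw [h3, abs_mul, abs_of_pos (by positivity : (0 : ℝ) < 2 ^ (N + k))]
      calc (2 : ℝ) ^ (N + k) * |dy (N + k) * (yv i.2.1 l : ℝ)| ≤ 2 ^ (N + k) * (L + E.r0 * dy k) :=
            mul_le_mul_of_nonneg_left h4 (by positivity)
        _ = 2 ^ N * (2 ^ k * L + E.r0 * (dy k * 2 ^ k)) := by rw [pow_add]; ring
        _ = 2 ^ N * (2 ^ k * L + E.r0) := by rw [V10_dy_mul, mul_one])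
  refine h1.trans ?_
  have hm := V10_dy_mul N
  have hdp := V10_dy_pos N
  have hle := V10_dy_le N
  have h2k : (1 : ℝ) ≤ 2 ^ k := one_le_pow₀ (by norm_num)
  have h5 : dy N * (2 * (2 ^ N * (2 ^ k * L + E.r0)) + 1) = 2 * (2 ^ k * L + E.r0) + dy N := by
    calc dy N * (2 * (2 ^ N * (2 ^ k * L + E.r0)) + 1) = 2 * (2 ^ k * L + E.r0) * (dy N * 2 ^ N) + dy N := by ring
      _ = _ := by rw [hm, mul_one]
  rw [h5]
  have hK := E.one_le_Km
  have h6 : 2 * (2 ^ k * L + E.r0) + dy N ≤ (2 * L + 2 * E.r0 + 1) * 2 ^ k := by nlinarith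
  calc 2 ^ d * E.Km ^ 2 * (2 * (2 ^ k * L + E.r0) + dy N) ^ d ≤
      2 ^ d * E.Km ^ 2 * ((2 * L + 2 * E.r0 + 1) * 2 ^ k) ^ d := by gcongr
    _ = _ := by rw [mul_pow, ← pow_mul, mul_comm k d]; ring

end Env

end MP_d19698_pr
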