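import Pool.Agent.Lib.MP_d19698_pr.V10

/-!
# V11: translations of the window; the concrete model `E.rm`
-/

open MeasureTheory ProbabilityTheory Filter Topology Set
open scoped ENNReal NNReal

namespace MP_d19698_pr

variable {d : ℕ}

/-- shift of the positions of level `k` by `2^{N+k-n} v` (`|2^{N+k-n} v l| ≤ 2^N |v l|` since `k < n`; `exists_yv`) -/
theorem exists_shift {n Y YJ N : ℕ} (v : Fin d → ℤ) (hn : n ≤ N) (h : ∀ l, (YJ : ℤ) + 2 ^ N * |v l| ≤ Y) :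
    ∃ ι : Idx d n YJ N → Idx d n Y N, Function.Injective ι ∧
      ∀ j, (ι j).1 = j.1 ∧ (ι j).2.2 = j.2.2 ∧ ∀ l, yv (ι j).2.1 l = yv j.2.1 l + 2 ^ (N + (j.1 : ℕ) - n) * v l := by
  have key : ∀ j : Idx d n YJ N, ∃ a : Fin d → Fin (2 * Y + 1), yv a = fun l => yv j.2.1 l + 2 ^ (N + (j.1 : ℕ) - n) * v l := by
    intro j
    apply exists_yv
    intro l
    have h1 := abs_yv_le j.2.1 l
    have hj := j.1.2
    have h2 : (2 : ℤ) ^ (N + (j.1 : ℕ) - n) ≤ 2 ^ N := pow_le_pow_right₀ (by norm_num) (by omega)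
    calc |yv j.2.1 l + 2 ^ (N + (j.1 : ℕ) - n) * v l| ≤ |yv j.2.1 l| + |2 ^ (N + (j.1 : ℕ) - n) * v l| := abs_add_le _ _
      _ = |yv j.2.1 l| + 2 ^ (N + (j.1 : ℕ) - n) * |v l| := by
          rw [abs_mul, abs_of_pos (by positivity : (0 : ℤ) < 2 ^ (N + (j.1 : ℕ) - n))]
      _ ≤ YJ + 2 ^ N * |v l| := add_le_add h1 (mul_le_mul_of_nonneg_right h2 (abs_nonneg _))
      _ ≤ Y := h l
  choose f hf using key
  refine ⟨fun j => (j.1, f j, j.2.2), ?_, fun j => ⟨rfl, rfl, fun l => congrFun (hf j) l⟩⟩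
  intro j j' hjj
  have e1 : j.1 = j'.1 := congrArg (fun z => z.1) hjj
  have e2 : f j = f j' := congrArg (fun z => z.2.1) hjj
  have e3 : j.2.2 = j'.2.2 := congrArg (fun z => z.2.2) hjj
  have e4 : j.2.1 = j'.2.1 := by
    apply yv_injective
    funext l
    have a1 := congrFun (hf j) l
    have a2 := congrFun (hf j') l
    rw [e2, e1] at a1
    linarith
  exact Prod.ext e1 (Prod.ext e4 e3)

/-- the kernel depends only on `2^{-N} y - x` -/
theorem nk_shift (𝔎 : Rd d → ℝ) (N : ℕ) (y w : Fin d → ℤ) (j : ℕ) (x : Rd d) : nk 𝔎 N (fun l => y l + w l) j (x + latt N w) = nk 𝔎 N y j x := by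
  unfold nk
  have h : latt N (fun l => y l + w l) - (x + latt N w) = latt N y - x := by
    ext l
    change dy N * (((y l + w l : ℤ)) : ℝ) - (x l + dy N * (w l : ℝ)) = dy N * (y l : ℝ) - x l
    push_cast
    ring
  rw [h]

/-- `2^k • latt n v = latt N (2^{N+k-n} v)` -/
theorem smul_latt {n N k : ℕ} (hn : n ≤ N) (v : Fin d → ℤ) : (2 : ℝ) ^ k • (latt n v : Rd d) = latt N (fun l => 2 ^ (N + k - n) * v l) := by
  ext l
  have h1 : ((2 : ℝ) ^ k • (latt n v : Rd d)) l = 2 ^ k * (dy n * (v l : ℝ)) := rfl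
  have h2 : (latt N (fun l => 2 ^ (N + k - n) * v l) : Rd d) l = dy N * (((2 ^ (N + k - n) * v l : ℤ)) : ℝ) := rfl
  rw [h1, h2]
  obtain ⟨M, rfl⟩ := Nat.exists_eq_add_of_le hn
  have h3 : n + M + k - n = M + k := by omega
  rw [h3]
  push_cast
  unfold dy
  have h4 : (1 / 2 : ℝ) ^ M * 2 ^ M = 1 := by rw [← mul_pow]; norm_num
  rw [pow_add, pow_add]
  calc (2 : ℝ) ^ k * ((1 / 2) ^ n * (v l : ℝ)) = (2 : ℝ) ^ k * ((1 / 2) ^ n * (v l : ℝ)) * 1 := by ring
    _ = (2 : ℝ) ^ k * ((1 / 2) ^ n * (v l : ℝ)) * ((1 / 2 : ℝ) ^ M * 2 ^ M) := by rw [h4]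
    _ = _ := by ring

namespace Env

variable [NeZero d] (E : Env d)

/-- `smul_latt` and `nk_shift` -/
theorem phi_shift {n Y YJ N : ℕ} {v : Fin d → ℤ} (hn : n ≤ N) {i : Idx d n Y N} {j : Idx d n YJ N} (h1 : i.1 = j.1) (h2 : i.2.2 = j.2.2)
    (h3 : ∀ l, yv i.2.1 l = yv j.2.1 l + 2 ^ (N + (j.1 : ℕ) - n) * v l) (p : Rd d) :
    E.phi n Y N i (p + latt n v) = E.phi n YJ N j p := by
  unfold phi
  rw [h1, h2, smul_add, smul_latt hn]
  have h4 : (yv i.2.1 : Fin d → ℤ) = fun l => yv j.2.1 l + 2 ^ (N + (j.1 : ℕ) - n) * v l := by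
    funext l; exact h3 l
  rw [h4]
  exact nk_shift E.𝔎 N (yv j.2.1) (fun l => 2 ^ (N + (j.1 : ℕ) - n) * v l) _ _

/-- **Reindexing.** By `phi_shift` the right side is the sum over the image of `ι` of the left side. If `i` is not in the image then `φ_i (p + z) = 0`: otherwise (`nk_supp`)
`|2^{-N} y - 2^k (p + z)|_∞ ≤ r0`, so `y' = y - 2^{N+k-n} v` satisfies `|2^{-N} y' - 2^k p|_∞ ≤ r0`, `|y'|_∞ ≤ 2^N (2^k K + r0) ≤ 2^{N+n} (K + r0) ≤ YJ`, and `i = ι (k, y', t)` (`exists_yv`, `yv_injective`). -/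
theorem sum_phi_shift {n Y YJ N : ℕ} (hN : 1 ≤ N) (hn : n ≤ N) {v : Fin d → ℤ} {ι : Idx d n YJ N → Idx d n Y N} (hι : Function.Injective ι)
    (h : ∀ j, (ι j).1 = j.1 ∧ (ι j).2.2 = j.2.2 ∧ ∀ l, yv (ι j).2.1 l = yv j.2.1 l + 2 ^ (N + (j.1 : ℕ) - n) * v l) {p : Rd d} {K : ℝ}
    (hp : p ∈ CBox 0 K) (hYJ : 2 ^ (N + n) * (K + E.r0) ≤ YJ) (x : Idx d n Y N → Bool) :
    ∑ i, sg (x i) * E.phi n Y N i (p + latt n v) = ∑ j, sg (x (ι j)) * E.phi n YJ N j p := by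
  symm
  apply Finset.sum_of_injOn ι hι.injOn (fun _ _ => Finset.mem_coe.2 (Finset.mem_univ _))
  · intro i _ hi
    by_contra hne
    have hne' : E.phi n Y N i (p + latt n v) ≠ 0 := fun h0 => hne (by rw [h0, mul_zero])
    apply hi
    have h1 := E.nk_supp hN i.2.2.2 hne'
    set k : ℕ := (i.1 : ℕ) with hk
    have hkn : k < n := i.1.2
    set y' : Fin d → ℤ := fun l => yv i.2.1 l - 2 ^ (N + k - n) * v l with hy'
    have h2 : ∀ l, |y' l| ≤ (YJ : ℤ) := by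
      intro l
      have a1 := h1 l
      have a2 := hp l
      have a3 : ((2 : ℝ) ^ k • (p + latt n v)) l = 2 ^ k * p l + latt N (fun l => 2 ^ (N + k - n) * v l) l := by
        rw [smul_add, smul_latt hn]
        rfl
      rw [a3] at a1
      have a4 : latt N (yv i.2.1) l - (2 ^ k * p l + latt N (fun l => 2 ^ (N + k - n) * v l) l) =
          dy N * (y' l : ℝ) - 2 ^ k * p l := by
        simp only [latt, hy']
        push_cast
        ring
      rw [a4] at a1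
      have a5 : (0 : Rd d) l = 0 := rfl
      rw [a5, sub_zero] at a2
      have h2k : (1 : ℝ) ≤ 2 ^ k := one_le_pow₀ (by norm_num)
      have hkn2 : (2 : ℝ) ^ k ≤ 2 ^ n := pow_le_pow_right₀ (by norm_num) hkn.le
      have hK0 : 0 ≤ K := (abs_nonneg _).trans a2
      have a6 : |dy N * (y' l : ℝ)| ≤ 2 ^ n * (K + E.r0) := by
        have b1 : |dy N * (y' l : ℝ)| ≤ |dy N * (y' l : ℝ) - 2 ^ k * p l| + |2 ^ k * p l| := by
          have := abs_add_le (dy N * (y' l : ℝ) - 2 ^ k * p l) (2 ^ k * p l)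
          rwa [sub_add_cancel] at this
        have b2 : |(2 : ℝ) ^ k * p l| = 2 ^ k * |p l| := by
          rw [abs_mul, abs_of_pos (by positivity : (0 : ℝ) < 2 ^ k)]
        have b3 : (2 : ℝ) ^ k * |p l| ≤ 2 ^ n * K := by gcongr
        have b4 : E.r0 ≤ 2 ^ n * E.r0 := by
          have : (1 : ℝ) ≤ 2 ^ n := h2k.trans hkn2
          nlinarith [E.hr0]
        rw [b2] at b1
        linarith
      have hm : dy N * 2 ^ N = 1 := by unfold dy; rw [← mul_pow]; norm_num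
      have hdp : 0 < dy N := by unfold dy; positivity
      have a7 : |(y' l : ℝ)| ≤ 2 ^ (N + n) * (K + E.r0) := by
        have b1 : |(y' l : ℝ)| = 2 ^ N * |dy N * (y' l : ℝ)| := by
          rw [abs_mul, abs_of_pos hdp, ← mul_assoc, mul_comm ((2 : ℝ) ^ N), hm, one_mul]
        rw [b1, pow_add, mul_assoc]
        gcongr
      have a8 : |(y' l : ℝ)| ≤ (YJ : ℝ) := a7.trans hYJ
      have a9 : ((|y' l| : ℤ) : ℝ) ≤ ((YJ : ℤ) : ℝ) := by
        rw [Int.cast_abs]; exact_mod_cast a8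
      exact_mod_cast a9
    obtain ⟨a, ha⟩ := exists_yv h2
    refine ⟨(i.1, a, i.2.2), Finset.mem_coe.2 (Finset.mem_univ _), ?_⟩
    obtain ⟨e1, e2, e3⟩ := h (i.1, a, i.2.2)
    simp only at e1 e2 e3
    have e4 : (ι (i.1, a, i.2.2)).2.1 = i.2.1 := by
      apply yv_injective
      funext l
      rw [e3 l, ha]
      simp only [hy', hk]
      ring
    exact Prod.ext e1 (Prod.ext e4 e2)
  · intro j _
    obtain ⟨e1, e2, e3⟩ := h j
    rw [E.phi_shift hn e1 e2 e3]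

/-- the field of the model is complete on `CBox 0 (Lb L)` -/
noncomputable def Lb (L : ℕ) : ℕ := L + ⌈E.r0⌉₊ + E.R0 + 3

/-- size of the inner window -/
noncomputable def Wn (L : ℕ) : ℕ := E.Lb L + ⌈E.r0⌉₊ + 1

/-- inner window -/
noncomputable def YJ (L n N0 : ℕ) : ℕ := E.Wn L * 2 ^ (N0 + n + 1 + n)

/-- window -/
noncomputable def YY (L n N0 : ℕ) : ℕ := 3 * E.Wn L * 2 ^ (N0 + n + 1 + n)

/-- the constant of the model -/
noncomputable def C1 (L : ℕ) : ℝ := 2 ^ d * E.Km ^ 2 * (2 * (L : ℝ) + 2 * E.r0 + 1) ^ d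

/-- **Invariance.** If `U` is empty then `G` is constant. Otherwise `|2^{-n} v l| ≤ 2 L`, so `YJ + 2^N |v l| ≤ YY` and there are shifts `ι` for `v` and `ι'` for `0` (`exists_shift`). By `sum_phi_shift`
(`K = L`, `2^{N+n} (L + r0) ≤ YJ`) and the locality of `G` both sides are `cE` over the inner window of `G (∑_j sg (x j) φ_j)` (`cE_comp_injective`; `latt n 0 = 0`). -/
theorem trans_aux (L n N0 : ℕ) (v : Fin d → ℤ) (U : Set (Rd d)) (hU : U ⊆ CBox 0 (L : ℝ)) (hUv : ∀ p ∈ U, p + latt n v ∈ CBox (0 : Rd d) (L : ℝ))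
    (G : (Rd d → ℝ) → ℝ) (hG : ∀ g g' : Rd d → ℝ, (∀ p ∈ U, g p = g' p) → G g = G g') :
    cE (fun x : Idx d n (E.YY L n N0) (N0 + n + 1) → Bool => G (fun p => ∑ i, sg (x i) * E.phi n (E.YY L n N0) (N0 + n + 1) i (p + latt n v))) =
      cE (fun x : Idx d n (E.YY L n N0) (N0 + n + 1) → Bool => G (fun p => ∑ i, sg (x i) * E.phi n (E.YY L n N0) (N0 + n + 1) i p)) := by
  rcases U.eq_empty_or_nonempty with hE | ⟨p0, hp0⟩
  · congr 1
    funext x
    apply hG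
    intro p hp
    rw [hE] at hp
    exact absurd hp (Set.notMem_empty p)
  · have hN : 1 ≤ N0 + n + 1 := by omega
    have hn : n ≤ N0 + n + 1 := by omega
    have hLW : (L : ℝ) + E.r0 ≤ E.Wn L := by
      unfold Wn Lb
      push_cast
      have := Nat.le_ceil E.r0
      have h0 : (0 : ℝ) ≤ (E.R0 : ℝ) := Nat.cast_nonneg _
      have h1 : (0 : ℝ) ≤ (⌈E.r0⌉₊ : ℝ) := Nat.cast_nonneg _
      linarith
    have hLW' : L ≤ E.Wn L := by unfold Wn Lb; omega
    have hYJ : (2 : ℝ) ^ (N0 + n + 1 + n) * ((L : ℝ) + E.r0) ≤ (E.YJ L n N0 : ℝ) := by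
      unfold YJ
      push_cast
      rw [mul_comm]
      gcongr
    have hv : ∀ l, |v l| ≤ 2 * L * 2 ^ n := by
      intro l
      have a1 := hU hp0 l
      have a2 := hUv p0 hp0 l
      have a5 : (0 : Rd d) l = 0 := rfl
      rw [a5, sub_zero] at a1 a2
      have a3 : (p0 + latt n v) l = p0 l + dy n * (v l : ℝ) := rfl
      rw [a3] at a2
      have hm : dy n * 2 ^ n = 1 := by unfold dy; rw [← mul_pow]; norm_num
      have hdp : 0 < dy n := by unfold dy; positivity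
      have a4 : |dy n * (v l : ℝ)| ≤ 2 * L := by
        rw [abs_le] at a1 a2 ⊢
        constructor <;> linarith [a1.1, a1.2, a2.1, a2.2]
      have a6 : |(v l : ℝ)| ≤ 2 * L * 2 ^ n := by
        have b1 : |(v l : ℝ)| = |dy n * (v l : ℝ)| * 2 ^ n := by
          rw [abs_mul, abs_of_pos hdp, mul_comm (dy n), mul_assoc, hm, mul_one]
        rw [b1]
        gcongr
      have a7 : ((|v l| : ℤ) : ℝ) ≤ ((2 * L * 2 ^ n : ℤ) : ℝ) := by
        rw [Int.cast_abs]; push_cast; exact a6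
      exact_mod_cast a7
    have hsh : ∀ l, ((E.YJ L n N0 : ℕ) : ℤ) + 2 ^ (N0 + n + 1) * |v l| ≤ (E.YY L n N0 : ℕ) := by
      intro l
      have a1 := hv l
      have a2 : (2 : ℤ) ^ (N0 + n + 1) * |v l| ≤ 2 * (E.Wn L) * 2 ^ (N0 + n + 1 + n) := by
        calc (2 : ℤ) ^ (N0 + n + 1) * |v l| ≤ 2 ^ (N0 + n + 1) * (2 * L * 2 ^ n) :=
              mul_le_mul_of_nonneg_left a1 (by positivity)
          _ = 2 * L * 2 ^ (N0 + n + 1 + n) := by rw [pow_add (2 : ℤ) (N0 + n + 1) n]; ring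
          _ ≤ 2 * (E.Wn L) * 2 ^ (N0 + n + 1 + n) := by
              have : (L : ℤ) ≤ (E.Wn L : ℤ) := by exact_mod_cast hLW'
              gcongr
      unfold YJ YY
      push_cast
      linarith
    have hsh0 : ∀ l, ((E.YJ L n N0 : ℕ) : ℤ) + 2 ^ (N0 + n + 1) * |(fun _ => 0 : Fin d → ℤ) l| ≤ (E.YY L n N0 : ℕ) := by
      intro l
      simp only [abs_zero, mul_zero, add_zero]
      unfold YJ YY
      push_cast
      have : (0 : ℤ) ≤ (E.Wn L : ℤ) * 2 ^ (N0 + n + 1 + n) := by positivity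
      nlinarith
    obtain ⟨ι, hι, hιp⟩ := exists_shift (n := n) (Y := E.YY L n N0) (YJ := E.YJ L n N0) (N := N0 + n + 1) v hn hsh
    obtain ⟨ι', hι', hιp'⟩ := exists_shift (n := n) (Y := E.YY L n N0) (YJ := E.YJ L n N0) (N := N0 + n + 1) (fun _ => 0) hn hsh0
    set G' : (Idx d n (E.YJ L n N0) (N0 + n + 1) → Bool) → ℝ := fun y => G (fun p => ∑ j, sg (y j) * E.phi n (E.YJ L n N0) (N0 + n + 1) j p) with hG'
    have e1 : (fun x : Idx d n (E.YY L n N0) (N0 + n + 1) → Bool => G (fun p => ∑ i, sg (x i) * E.phi n (E.YY L n N0) (N0 + n + 1) i (p + latt n v))) =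
        fun x => G' (fun j => x (ι j)) := by
      funext x
      simp only [hG']
      apply hG
      intro p hp
      exact E.sum_phi_shift hN hn hι hιp (hU hp) hYJ x
    have e2 : (fun x : Idx d n (E.YY L n N0) (N0 + n + 1) → Bool => G (fun p => ∑ i, sg (x i) * E.phi n (E.YY L n N0) (N0 + n + 1) i p)) =
        fun x => G' (fun j => x (ι' j)) := by
      funext x
      simp only [hG']
      apply hG
      intro p hp
      have h3 := E.sum_phi_shift hN hn hι' hιp' (hU hp) hYJ x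
      have h4 : (latt n (fun _ => 0) : Rd d) = 0 := by
        ext l
        simp [latt]
      rw [h4, add_zero] at h3
      exact h3
    rw [e1, e2, cE_comp_injective ι hι, cE_comp_injective ι' hι']

theorem overlap_aux (L n N0 k : ℕ) (p : Rd d) :
    (Real.sqrt ((2 * dy (N0 + n + 1)) ^ (d + 1)) * E.Km) ^ 2 *
      ({i | (i.1 : ℕ) = k ∧ p ∈ CBox (latt (N0 + n + 1 + (i.1 : ℕ)) (yv i.2.1)) (E.r0 * dy k)} : Set (Idx d n (E.YY L n N0) (N0 + n + 1))).ncard ≤ E.C1 L := by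
  have h1 := E.count_overlap (n := n) (Y := E.YY L n N0) (N := N0 + n + 1) (by omega) k p
  have h2 : ({i | (i.1 : ℕ) = k ∧ p ∈ CBox (latt (N0 + n + 1 + (i.1 : ℕ)) (yv i.2.1)) (E.r0 * dy k)} : Set (Idx d n (E.YY L n N0) (N0 + n + 1))) =
      {i | (i.1 : ℕ) = k ∧ p ∈ CBox (latt (N0 + n + 1 + k) (yv i.2.1)) (E.r0 * dy k)} := by
    ext i
    constructor
    · rintro ⟨a, b⟩
      refine ⟨a, ?_⟩
      rwa [a] at b
    · rintro ⟨a, b⟩
      refine ⟨a, ?_⟩
      rwa [a]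
  rw [h2]
  refine h1.trans ?_
  unfold C1
  have hr := E.hr0
  have hK := E.one_le_Km
  have hL : (0 : ℝ) ≤ (L : ℝ) := Nat.cast_nonneg L
  gcongr
  linarith

theorem total_aux (L n N0 k : ℕ) :
    (Real.sqrt ((2 * dy (N0 + n + 1)) ^ (d + 1)) * E.Km) ^ 2 *
      ({i | (i.1 : ℕ) = k ∧ (CBox (latt (N0 + n + 1 + (i.1 : ℕ)) (yv i.2.1)) (E.r0 * dy k) ∩ CBox 0 (L : ℝ)).Nonempty} :
        Set (Idx d n (E.YY L n N0) (N0 + n + 1))).ncard ≤ E.C1 L * 2 ^ (d * k) := by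
  have h1 := E.count_total (n := n) (Y := E.YY L n N0) (N := N0 + n + 1) (by omega) k (Nat.cast_nonneg L)
  have h2 : ({i | (i.1 : ℕ) = k ∧ (CBox (latt (N0 + n + 1 + (i.1 : ℕ)) (yv i.2.1)) (E.r0 * dy k) ∩ CBox 0 (L : ℝ)).Nonempty} :
        Set (Idx d n (E.YY L n N0) (N0 + n + 1))) =
      {i | (i.1 : ℕ) = k ∧ (CBox (latt (N0 + n + 1 + k) (yv i.2.1)) (E.r0 * dy k) ∩ CBox 0 (L : ℝ)).Nonempty} := by
    ext i
    constructor
    · rintro ⟨a, b⟩
      refine ⟨a, ?_⟩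
      rwa [a] at b
    · rintro ⟨a, b⟩
      refine ⟨a, ?_⟩
      rwa [a]
  rw [h2]
  exact h1

/-- the concrete model -/
noncomputable def rm (L n N0 : ℕ) : RM d n E.r0 (L : ℝ) (E.C1 L) where
  I := Idx d n (E.YY L n N0) (N0 + n + 1)
  fI := inferInstance
  dI := inferInstance
  lev := fun i => (i.1 : ℕ)
  φ := fun i => E.phi n (E.YY L n N0) (N0 + n + 1) i
  ctr := fun i => latt (N0 + n + 1 + (i.1 : ℕ)) (yv i.2.1)
  s := Real.sqrt ((2 * dy (N0 + n + 1)) ^ (d + 1)) * E.Km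
  s_pos := mul_pos (Real.sqrt_pos.2 (pow_pos (mul_pos two_pos (pow_pos (by norm_num) _)) _)) (lt_of_lt_of_le one_pos E.one_le_Km)
  lev_lt := fun i => i.1.2
  bd := fun i p => E.phi_bd (by omega) i p
  supp := fun i p h => E.phi_supp (by omega) i h
  overlap := fun k p => E.overlap_aux L n N0 k p
  total := fun k => E.total_aux L n N0 k
  trans := fun v U hU hUv G hG => E.trans_aux L n N0 v U hU hUv G hG

theorem rm_s_tendsto (L n : ℕ) : Tendsto (fun N0 => (E.rm L n N0).s) atTop (𝓝 0) := by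
  have h1 : Tendsto (fun N0 : ℕ => dy (N0 + n + 1)) atTop (𝓝 0) := by
    unfold dy
    have h2 := tendsto_pow_atTop_nhds_zero_of_lt_one (r := (1 / 2 : ℝ)) (by norm_num) (by norm_num)
    have h3 : Tendsto (fun N0 : ℕ => N0 + n + 1) atTop atTop :=
      tendsto_atTop_mono (fun N0 => (by omega : N0 ≤ N0 + n + 1)) tendsto_id
    exact h2.comp h3
  have h2 : Continuous (fun t : ℝ => Real.sqrt ((2 * t) ^ (d + 1)) * E.Km) := by fun_prop
  have h3 := (h2.tendsto 0).comp h1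
  have h4 : Real.sqrt ((2 * (0 : ℝ)) ^ (d + 1)) * E.Km = 0 := by simp
  rw [h4] at h3
  exact h3

end Env

end MP_d19698_pr
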