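import Pool.Agent.Lib.MP_d19698_pr.V1

/-!
# V1b: product formulas on the cube; the uniform measure
-/

open MeasureTheory Finset
open scoped ENNReal

namespace MP_d19698_pr

variable {I : Type*} [Fintype I] [DecidableEq I]

/-- product formula (`Finset.prod_univ_sum` / `Fintype.piFinset`) -/
theorem cE_prod (g : I → Bool → ℝ) : cE (fun x => ∏ i, g i (x i)) = ∏ i, ((g i true + g i false) / 2) := by
  unfold cE
  have h : ∏ i : I, ∑ b ∈ (Finset.univ : Finset Bool), g i b = ∑ x : I → Bool, ∏ i, g i (x i) := by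
    rw [Finset.prod_univ_sum]
    rw [Fintype.piFinset_univ]
  rw [← h, Finset.prod_div_distrib, Finset.prod_const, Finset.card_univ]
  congr 1
  refine Finset.prod_congr rfl fun i _ => ?_
  simp

/-- Rademacher sums are sub-Gaussian: product formula and `cosh a ≤ exp (a²/2)` (`Real.cosh_le_exp_half_sq`). -/
theorem cE_exp_le (a : I → ℝ) (t : ℝ) :
    cE (fun x => Real.exp (t * ∑ i, sg (x i) * a i)) ≤ Real.exp (t ^ 2 * (∑ i, a i ^ 2) / 2) := by
  have h1 : (fun x : I → Bool => Real.exp (t * ∑ i, sg (x i) * a i)) =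
      fun x => ∏ i, (fun (i : I) (b : Bool) => Real.exp (t * (sg b * a i))) i (x i) := by
    funext x
    rw [Finset.mul_sum, Real.exp_sum]
  rw [h1, cE_prod (fun (i : I) (b : Bool) => Real.exp (t * (sg b * a i)))]
  have h2 : Real.exp (t ^ 2 * (∑ i, a i ^ 2) / 2) = ∏ i, Real.exp ((t * a i) ^ 2 / 2) := by
    rw [← Real.exp_sum]
    congr 1
    rw [Finset.mul_sum, Finset.sum_div]
    refine Finset.sum_congr rfl fun i _ => ?_
    ring
  rw [h2]
  refine Finset.prod_le_prod (fun i _ => by positivity) fun i _ => ?_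
  have h3 : (Real.exp (t * (sg true * a i)) + Real.exp (t * (sg false * a i))) / 2 = Real.cosh (t * a i) := by
    rw [Real.cosh_eq]
    simp [sg]
  rw [h3]
  exact Real.cosh_le_exp_half_sq (t * a i)

/-- complex version of the product formula -/
private theorem V1b_cexp (a : I → ℝ) :
    ∑ x : I → Bool, Complex.exp ((∑ i, sg (x i) * a i : ℝ) * Complex.I) =
      2 ^ Fintype.card I * ∏ i, (Real.cos (a i) : ℂ) := by
  have h : ∏ i : I, ∑ b ∈ (Finset.univ : Finset Bool), Complex.exp ((sg b * a i : ℝ) * Complex.I) =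
      ∑ x : I → Bool, ∏ i, Complex.exp ((sg (x i) * a i : ℝ) * Complex.I) := by
    rw [Finset.prod_univ_sum]
    rw [Fintype.piFinset_univ]
  have h1 : ∀ x : I → Bool, Complex.exp ((∑ i, sg (x i) * a i : ℝ) * Complex.I) =
      ∏ i, Complex.exp ((sg (x i) * a i : ℝ) * Complex.I) := by
    intro x
    rw [← Complex.exp_sum]
    congr 1
    push_cast
    rw [Finset.sum_mul]
  simp_rw [h1]
  rw [← h]
  have h2 : ∀ i : I, ∑ b ∈ (Finset.univ : Finset Bool), Complex.exp ((sg b * a i : ℝ) * Complex.I) =
      2 * (Real.cos (a i) : ℂ) := by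
    intro i
    rw [Complex.ofReal_cos, Complex.cos]
    simp [sg]
    ring
  simp_rw [h2]
  rw [Finset.prod_mul_distrib, Finset.prod_const, Finset.card_univ]

/-- `E cos (∑ ε_i a_i) = ∏ cos a_i` and `E sin (∑ ε_i a_i) = 0` (complex product formula, or induction). -/
theorem cE_cos (a : I → ℝ) : cE (fun x => Real.cos (∑ i, sg (x i) * a i)) = ∏ i, Real.cos (a i) := by
  have h := congrArg Complex.re (V1b_cexp a)
  rw [Complex.re_sum] at h
  simp only [Complex.exp_ofReal_mul_I_re] at h
  unfold cE
  rw [h]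
  have h3 : ((2 : ℂ) ^ Fintype.card I * ∏ i, (Real.cos (a i) : ℂ)) =
      (((2 : ℝ) ^ Fintype.card I * ∏ i, Real.cos (a i) : ℝ) : ℂ) := by
    push_cast
    rfl
  rw [h3, Complex.ofReal_re]
  field_simp

theorem cE_sin (a : I → ℝ) : cE (fun x => Real.sin (∑ i, sg (x i) * a i)) = 0 := by
  have h := congrArg Complex.im (V1b_cexp a)
  rw [Complex.im_sum] at h
  simp only [Complex.exp_ofReal_mul_I_im] at h
  unfold cE
  rw [h]
  have h3 : ((2 : ℂ) ^ Fintype.card I * ∏ i, (Real.cos (a i) : ℂ)) =
      (((2 : ℝ) ^ Fintype.card I * ∏ i, Real.cos (a i) : ℝ) : ℂ) := by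
    push_cast
    rfl
  rw [h3, Complex.ofReal_im]
  simp

/-- the uniform probability measure on the cube -/
noncomputable def cM (I : Type*) [Fintype I] [DecidableEq I] : Measure (I → Bool) :=
  ENNReal.ofReal (1 / 2 ^ Fintype.card I) • ∑ x : I → Bool, Measure.dirac x

instance instProbCM : IsProbabilityMeasure (cM I) := by
  constructor
  unfold cM
  rw [Measure.smul_apply, Measure.finsetSum_apply]
  simp only [measure_univ, Finset.sum_const, Finset.card_univ, smul_eq_mul, nsmul_eq_mul, mul_one]
  rw [Fintype.card_fun, Fintype.card_bool]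
  rw [← ENNReal.ofReal_natCast, ← ENNReal.ofReal_mul (by positivity)]
  push_cast
  rw [one_div, inv_mul_cancel₀ (by positivity)]
  simp

/-- every function on the cube is measurable -/
theorem measurable_cube {E : Type*} [MeasurableSpace E] (f : (I → Bool) → E) : Measurable f := by
  exact measurable_of_finite f

theorem integral_cM (f : (I → Bool) → ℝ) : ∫ x, f x ∂(cM I) = cE f := by
  unfold cM cE
  rw [integral_smul_measure, integral_finsetSum_measure]
  · simp only [integral_dirac]
    rw [ENNReal.toReal_ofReal (by positivity), smul_eq_mul]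
    ring
  · intro i _
    exact (integrable_dirac (by simp [enorm]))

theorem lintegral_cM {f : (I → Bool) → ℝ} (hf : ∀ x, 0 ≤ f x) : ∫⁻ x, ENNReal.ofReal (f x) ∂(cM I) = ENNReal.ofReal (cE f) := by
  unfold cM cE
  rw [lintegral_smul_measure, lintegral_finsetSum_measure]
  simp only [lintegral_dirac]
  rw [← ENNReal.ofReal_sum_of_nonneg (fun i _ => hf i), smul_eq_mul, ← ENNReal.ofReal_mul (by positivity)]
  congr 1
  ring

theorem cM_real (S : Set (I → Bool)) : (cM I).real S = cP S := by
  have hS : MeasurableSet S := Set.Finite.measurableSet (Set.toFinite S)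
  rw [cP, ← integral_cM, integral_indicator hS]
  simp

/-- almost everywhere = everywhere -/
theorem ae_cM {p : (I → Bool) → Prop} (h : ∀ᵐ x ∂(cM I), p x) : ∀ x, p x := by
  intro x
  by_contra hx
  have h1 : (cM I) {x | ¬ p x} = 0 := h
  have h2 : (cM I) {x} = 0 := measure_mono_null (by
    intro y hy
    rw [Set.mem_singleton_iff] at hy
    rw [hy]
    exact hx) h1
  unfold cM at h2
  rw [Measure.smul_apply, Measure.finsetSum_apply, smul_eq_mul] at h2
  rw [mul_eq_zero] at h2
  rcases h2 with h2 | h2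
  · rw [ENNReal.ofReal_eq_zero] at h2
    have : (0 : ℝ) < 1 / 2 ^ Fintype.card I := by positivity
    linarith
  · rw [Finset.sum_eq_zero_iff] at h2
    have h3 := h2 x (Finset.mem_univ x)
    simp at h3

end MP_d19698_pr
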