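import Pool.Agent.Lib.MP_d19698_pr.V11
import Pool.Agent.Lib.MP_d19698_pr.V1b
import Pool.Agent.Lib.MP_d19698_pr.A4b

/-!
# V12: increments and Hölder constants of the models
-/

open MeasureTheory ProbabilityTheory Filter Topology Set
open scoped ENNReal NNReal

namespace MP_d19698_pr

namespace Env

variable {d : ℕ} [NeZero d] (E : Env d)

theorem rm_fld (L n N0 : ℕ) (ξ : ℝ) (x : (E.rm L n N0).I → Bool) (p : Rd d) :
    (E.rm L n N0).fld ξ x p =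
      ξ * ∑ i : Idx d n (E.YY L n N0) (N0 + n + 1), sg ((x : Idx d n (E.YY L n N0) (N0 + n + 1) → Bool) i) * E.phi n (E.YY L n N0) (N0 + n + 1) i p := rfl

theorem rm_fld_continuous (L n N0 : ℕ) (ξ : ℝ) (x : (E.rm L n N0).I → Bool) : Continuous ((E.rm L n N0).fld ξ x) := by
  have h : (E.rm L n N0).fld ξ x = fun p => ξ * ∑ i : Idx d n (E.YY L n N0) (N0 + n + 1),
      sg ((x : Idx d n (E.YY L n N0) (N0 + n + 1) → Bool) i) * E.phi n (E.YY L n N0) (N0 + n + 1) i p := by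
    funext p
    exact E.rm_fld L n N0 ξ x p
  rw [h]
  exact continuous_const.mul (continuous_finsetSum _ fun i _ => continuous_const.mul (E.phi_continuous i))

private theorem v12_count {n Y N : ℕ} (hN : 1 ≤ N) (p : Rd d) : by
    classical exact
    (Real.sqrt ((2 * dy N) ^ (d + 1))) ^ 2 *
      ∑ i : Idx d n Y N, (if p ∈ CBox (latt (N + (i.1 : ℕ)) (yv i.2.1)) (E.r0 * dy i.1) then (1 : ℝ) else 0) ≤
      n * (2 ^ d * E.Km ^ 2 * (2 * E.r0 + 1) ^ d) := by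
  classical
  rw [← Finset.sum_fiberwise Finset.univ (fun i : Idx d n Y N => i.1), Finset.mul_sum]
  have key : ∀ k : Fin n, (Real.sqrt ((2 * dy N) ^ (d + 1))) ^ 2 * ∑ i ∈ (Finset.univ : Finset (Idx d n Y N)) with i.1 = k,
      (if p ∈ CBox (latt (N + (i.1 : ℕ)) (yv i.2.1)) (E.r0 * dy i.1) then (1 : ℝ) else 0) ≤
      2 ^ d * E.Km ^ 2 * (2 * E.r0 + 1) ^ d := by
    intro k
    refine le_trans ?_ (E.count_overlap (n := n) (Y := Y) hN (k : ℕ) p)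
    have h1 : ∑ i ∈ (Finset.univ : Finset (Idx d n Y N)) with i.1 = k,
        (if p ∈ CBox (latt (N + (i.1 : ℕ)) (yv i.2.1)) (E.r0 * dy i.1) then (1 : ℝ) else 0) =
        ({i | (i.1 : ℕ) = k ∧ p ∈ CBox (latt (N + k) (yv i.2.1)) (E.r0 * dy k)} : Set (Idx d n Y N)).ncard := by
      rw [Finset.sum_boole, Finset.filter_filter, ← Set.ncard_coe_finset]
      congr 2
      ext i
      simp only [Finset.coe_filter, Finset.mem_univ, true_and, Set.mem_ofPred_eq]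
      constructor
      · rintro ⟨h, h'⟩
        rw [h] at h'
        exact ⟨congrArg Fin.val h, h'⟩
      · rintro ⟨h, h'⟩
        have h2 : i.1 = k := Fin.ext h
        refine ⟨h2, ?_⟩
        rw [h2]
        exact h'
    rw [h1]
    refine mul_le_mul_of_nonneg_right ?_ (Nat.cast_nonneg _)
    exact pow_le_pow_left₀ (Real.sqrt_nonneg _) (le_mul_of_one_le_right (Real.sqrt_nonneg _) E.one_le_Km) 2
  refine (Finset.sum_le_sum fun k _ => key k).trans ?_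
  rw [Finset.sum_const, Finset.card_univ, Fintype.card_fin, nsmul_eq_mul]

private theorem v12_phi {CK : ℝ} (hCK : 0 ≤ CK) (hlip : ∀ x y, |E.𝔎 x - E.𝔎 y| ≤ CK * ‖x - y‖) {n Y N : ℕ} (hN : 1 ≤ N) (i : Idx d n Y N)
    (p q : Rd d) : (E.phi n Y N i p - E.phi n Y N i q) ^ 2 ≤
      (Real.sqrt ((2 * dy N) ^ (d + 1))) ^ 2 * (CK ^ 2 * 4 * 4 ^ n * ‖p - q‖ ^ 2) := by
  have hτ1 : 1 / 2 < tau N (i.2.2 : ℕ) := tau_gt hN _
  have hτ0 : 0 < tau N (i.2.2 : ℕ) := by linarith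
  have hτi : (tau N (i.2.2 : ℕ))⁻¹ ≤ 2 := by
    rw [inv_le_comm₀ hτ0 two_pos]
    linarith
  have hdy : 0 ≤ dy N := by
    unfold dy
    positivity
  have h1 : |E.phi n Y N i p - E.phi n Y N i q| ≤ Real.sqrt ((2 * dy N) ^ (d + 1)) * (CK * 2 * 2 ^ n * ‖p - q‖) := by
    unfold phi nk
    rw [← mul_sub, abs_mul, abs_of_nonneg (Real.sqrt_nonneg _)]
    refine mul_le_mul (Real.sqrt_le_sqrt ?_) ?_ (abs_nonneg _) (Real.sqrt_nonneg _)
    · refine pow_le_pow_left₀ (div_nonneg hdy hτ0.le) ?_ _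
      rw [div_eq_mul_inv, mul_comm]
      exact mul_le_mul_of_nonneg_right hτi hdy
    · refine (hlip _ _).trans ?_
      rw [← smul_sub, norm_smul, Real.norm_eq_abs, abs_of_pos (inv_pos.2 hτ0)]
      have e : (latt N (yv i.2.1) - (2 : ℝ) ^ (i.1 : ℕ) • p) - (latt N (yv i.2.1) - (2 : ℝ) ^ (i.1 : ℕ) • q) =
          (2 : ℝ) ^ (i.1 : ℕ) • (q - p) := by
        rw [smul_sub]
        abel
      rw [e, norm_smul, Real.norm_eq_abs, abs_of_pos (by positivity), norm_sub_rev q p]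
      have h2 : (2 : ℝ) ^ (i.1 : ℕ) ≤ 2 ^ n := pow_le_pow_right₀ one_le_two i.1.2.le
      calc CK * ((tau N (i.2.2 : ℕ))⁻¹ * (2 ^ (i.1 : ℕ) * ‖p - q‖)) ≤ CK * (2 * (2 ^ n * ‖p - q‖)) := by
            refine mul_le_mul_of_nonneg_left ?_ hCK
            refine mul_le_mul hτi ?_ (by positivity) zero_le_two
            exact mul_le_mul_of_nonneg_right h2 (norm_nonneg _)
        _ = _ := by ring
  calc (E.phi n Y N i p - E.phi n Y N i q) ^ 2 = |E.phi n Y N i p - E.phi n Y N i q| ^ 2 := (sq_abs _).symm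
    _ ≤ (Real.sqrt ((2 * dy N) ^ (d + 1)) * (CK * 2 * 2 ^ n * ‖p - q‖)) ^ 2 := pow_le_pow_left₀ (abs_nonneg _) h1 2
    _ = _ := by
      rw [show (4 : ℝ) ^ n = (2 ^ n) ^ 2 by rw [← pow_mul, mul_comm, pow_mul]; norm_num]
      ring

/-- **Increments.** `|φ_i p - φ_i q| ≤ √((2 dy N)^(d+1)) C_K 2 2^k ‖p - q‖` for an index of level `k` (`hKlip`, `τ⁻¹ ≤ 2`), and it vanishes unless `p` or `q` is in the box of `i` (`phi_supp`). The sum over the level `k`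
is at most `(C_K/Km)² 4 4^k ‖p - q‖²` times `s² (#{i : p ∈ box i} + #{i : q ∈ box i}) ≤ 2 · 2^d Km² (2 r0 + 1)^d` (`count_overlap`). -/
theorem incr_sum (n : ℕ) : ∃ Λ : ℝ, 0 ≤ Λ ∧ ∀ Y N : ℕ, 1 ≤ N → ∀ p q : Rd d,
    ∑ i : Idx d n Y N, (E.phi n Y N i p - E.phi n Y N i q) ^ 2 ≤ Λ ^ 2 * ‖p - q‖ ^ 2 := by
  classical
  obtain ⟨CK, hCK, hlip⟩ := E.hKlip
  have hr0 := E.hr0
  refine ⟨Real.sqrt ((CK ^ 2 * 4 * 4 ^ n) * (2 * (n * (2 ^ d * E.Km ^ 2 * (2 * E.r0 + 1) ^ d)))), Real.sqrt_nonneg _, fun Y N hN p q => ?_⟩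
  rw [Real.sq_sqrt (by positivity)]
  have h1 : ∀ i : Idx d n Y N, (E.phi n Y N i p - E.phi n Y N i q) ^ 2 ≤
      (CK ^ 2 * 4 * 4 ^ n * ‖p - q‖ ^ 2) * ((Real.sqrt ((2 * dy N) ^ (d + 1))) ^ 2 *
        ((if p ∈ CBox (latt (N + (i.1 : ℕ)) (yv i.2.1)) (E.r0 * dy i.1) then (1 : ℝ) else 0) +
          (if q ∈ CBox (latt (N + (i.1 : ℕ)) (yv i.2.1)) (E.r0 * dy i.1) then (1 : ℝ) else 0))) := by
    intro i
    have h2 := E.v12_phi hCK hlip hN i p q
    by_cases hp : p ∈ CBox (latt (N + (i.1 : ℕ)) (yv i.2.1)) (E.r0 * dy i.1)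
    · rw [if_pos hp]
      refine h2.trans ?_
      rw [mul_comm]
      refine mul_le_mul_of_nonneg_left ?_ (by positivity)
      refine le_mul_of_one_le_right (sq_nonneg _) ?_
      split_ifs <;> norm_num
    · by_cases hq : q ∈ CBox (latt (N + (i.1 : ℕ)) (yv i.2.1)) (E.r0 * dy i.1)
      · rw [if_pos hq, if_neg hp]
        refine h2.trans ?_
        rw [mul_comm]
        refine mul_le_mul_of_nonneg_left ?_ (by positivity)
        rw [zero_add, mul_one]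
      · have hp0 : E.phi n Y N i p = 0 := by
          by_contra h
          exact hp (E.phi_supp hN i h)
        have hq0 : E.phi n Y N i q = 0 := by
          by_contra h
          exact hq (E.phi_supp hN i h)
        rw [hp0, hq0, if_neg hp, if_neg hq]
        norm_num
  refine (Finset.sum_le_sum fun i _ => h1 i).trans ?_
  rw [← Finset.mul_sum, ← Finset.mul_sum, Finset.sum_add_distrib, mul_add]
  have h3 := E.v12_count (n := n) (Y := Y) hN p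
  have h4 := E.v12_count (n := n) (Y := Y) hN q
  calc _ ≤ (CK ^ 2 * 4 * 4 ^ n * ‖p - q‖ ^ 2) * (n * (2 ^ d * E.Km ^ 2 * (2 * E.r0 + 1) ^ d) + n * (2 ^ d * E.Km ^ 2 * (2 * E.r0 + 1) ^ d)) :=
        mul_le_mul_of_nonneg_left (add_le_add h3 h4) (by positivity)
    _ = _ := by ring

/-- sub-Gaussian increments of the model (`lintegral_cM`, `cE_exp_le` with `t = s ξ`, `a_i = φ_i p - φ_i q`, `incr_sum`) -/
theorem rm_incr (L n : ℕ) : ∃ Λ : ℝ, 0 ≤ Λ ∧ ∀ (N0 : ℕ) (s : ℝ) (p q : Rd d),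
    ∫⁻ x, ENNReal.ofReal (Real.exp (s * ((E.rm L n N0).fld E.ξ x p - (E.rm L n N0).fld E.ξ x q))) ∂(cM (E.rm L n N0).I) ≤
      ENNReal.ofReal (Real.exp (s ^ 2 * Λ ^ 2 * ‖p - q‖ ^ 2 / 2)) := by
  obtain ⟨Λ, hΛ, h⟩ := E.incr_sum n
  refine ⟨E.ξ * Λ, mul_nonneg E.hξ.le hΛ, fun N0 s p q => ?_⟩
  rw [lintegral_cM fun x => (Real.exp_pos _).le]
  refine ENNReal.ofReal_le_ofReal ?_
  have e : (fun x : (E.rm L n N0).I → Bool => Real.exp (s * ((E.rm L n N0).fld E.ξ x p - (E.rm L n N0).fld E.ξ x q))) =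
      fun x : (E.rm L n N0).I → Bool => Real.exp ((s * E.ξ) * ∑ i, sg (x i) * ((E.rm L n N0).φ i p - (E.rm L n N0).φ i q)) := by
    funext x
    congr 1
    unfold RM.fld
    rw [← mul_sub, ← Finset.sum_sub_distrib, mul_assoc]
    congr 2
    refine Finset.sum_congr rfl fun i _ => ?_
    ring
  rw [e]
  refine (cE_exp_le (fun i => (E.rm L n N0).φ i p - (E.rm L n N0).φ i q) (s * E.ξ)).trans ?_
  refine Real.exp_le_exp.2 ?_
  have h1 := h (E.YY L n N0) (N0 + n + 1) (by omega) p q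
  have h2 : ∑ i, ((E.rm L n N0).φ i p - (E.rm L n N0).φ i q) ^ 2 ≤ Λ ^ 2 * ‖p - q‖ ^ 2 := h1
  calc (s * E.ξ) ^ 2 * (∑ i, ((E.rm L n N0).φ i p - (E.rm L n N0).φ i q) ^ 2) / 2 ≤ (s * E.ξ) ^ 2 * (Λ ^ 2 * ‖p - q‖ ^ 2) / 2 := by
        refine div_le_div_of_nonneg_right ?_ zero_le_two
        exact mul_le_mul_of_nonneg_left h2 (sq_nonneg _)
    _ = _ := by ring

/-- Hölder constants of the models with uniformly bounded expectation: `chaining` (`x0 = 0`, `R = Lb`, on `cM`), `ae_cM`, `H ≤ e^H`, `lintegral_cM`. -/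
theorem rm_holder (L n : ℕ) : ∃ C : ℝ, ∀ N0 : ℕ, ∃ H : ((E.rm L n N0).I → Bool) → ℝ, (∀ x, 0 ≤ H x) ∧ cE H ≤ C ∧
    ∀ x, ∀ p ∈ CBox (0 : Rd d) (E.Lb L), ∀ q ∈ CBox (0 : Rd d) (E.Lb L),
      |(E.rm L n N0).fld E.ξ x p - (E.rm L n N0).fld E.ξ x q| ≤ H x * Real.sqrt ‖p - q‖ := by
  obtain ⟨Λ, hΛ, h⟩ := E.rm_incr L n
  have hR : (0 : ℝ) < (E.Lb L : ℝ) := by
    have : 0 < E.Lb L := by
      unfold Lb
      omega
    exact_mod_cast this
  obtain ⟨C, hC, hch⟩ := chaining d Λ (E.Lb L) hΛ hR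
  refine ⟨Real.exp (C * (1 + 1 ^ 2)), fun N0 => ?_⟩
  obtain ⟨H, _, h0, h1, h2⟩ := hch (cM (E.rm L n N0).I) (fun x p => (E.rm L n N0).fld E.ξ x p) 0
    (fun x => E.rm_fld_continuous L n N0 E.ξ x) (fun p => measurable_cube _) (fun s p _ q _ => h N0 s p q)
  refine ⟨H, h0, ?_, ae_cM h1⟩
  have h3 := h2 1 zero_le_one
  rw [lintegral_cM fun x => (Real.exp_pos _).le] at h3
  have h4 := (ENNReal.ofReal_le_ofReal_iff (Real.exp_pos _).le).1 h3
  refine le_trans (cE_mono fun x => ?_) h4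
  rw [one_mul]
  exact (Real.add_one_le_exp (H x)).trans' (by linarith)

end Env

end MP_d19698_pr
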