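import Pool.Agent.Lib.MP_d19698_pr.V11
import Pool.Agent.Lib.MP_d19698_pr.A2a
import Pool.Agent.Lib.MP_d19698_pr.A4b

/-!
# V12b: Hölder constant of the Gaussian field
-/

open MeasureTheory ProbabilityTheory Filter Topology Set
open scoped ENNReal NNReal

namespace MP_d19698_pr

namespace Env

variable {d : ℕ} [NeZero d] (E : Env d)

private theorem V12b_var (n : ℕ) (x y : Rd d) :
    HasGaussianLaw (fun ω => E.hh 0 n ω x - E.hh 0 n ω y) E.P ∧ (∫ ω, (E.hh 0 n ω x - E.hh 0 n ω y) ∂E.P = 0) ∧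
      ProbabilityTheory.variance (fun ω => E.hh 0 n ω x - E.hh 0 n ω y) E.P ≤ E.Λ ^ 2 * 4 ^ n * ‖x - y‖ ^ 2 := by
  have hG := E.isGaussianProcess_hh
  have h1 : HasGaussianLaw (fun ω => E.hh 0 n ω x - E.hh 0 n ω y) E.P :=
    hG.hasGaussianLaw_fun_sub (s := ((0, n, x) : ℕ × ℕ × Rd d)) (t := ((0, n, y) : ℕ × ℕ × Rd d))
  have hx : HasGaussianLaw (fun ω => E.hh 0 n ω x) E.P := hG.hasGaussianLaw_eval ((0, n, x) : ℕ × ℕ × Rd d)
  have hy : HasGaussianLaw (fun ω => E.hh 0 n ω y) E.P := hG.hasGaussianLaw_eval ((0, n, y) : ℕ × ℕ × Rd d)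
  have h2 : ∫ ω, (E.hh 0 n ω x - E.hh 0 n ω y) ∂E.P = 0 := by
    rw [integral_sub hx.integrable hy.integrable, E.mean_hh, E.mean_hh, sub_zero]
  refine ⟨h1, h2, ?_⟩
  rw [variance_of_integral_eq_zero h1.aemeasurable h2]
  have i1 : Integrable (fun ω => E.hh 0 n ω x * E.hh 0 n ω x) E.P := hx.memLp_two.integrable_mul hx.memLp_two
  have i2 : Integrable (fun ω => E.hh 0 n ω x * E.hh 0 n ω y) E.P := hx.memLp_two.integrable_mul hy.memLp_two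
  have i3 : Integrable (fun ω => E.hh 0 n ω y * E.hh 0 n ω y) E.P := hy.memLp_two.integrable_mul hy.memLp_two
  have h3 : ∫ ω, (E.hh 0 n ω x - E.hh 0 n ω y) ^ 2 ∂E.P =
      (∫ ω, E.hh 0 n ω x * E.hh 0 n ω x ∂E.P) - 2 * (∫ ω, E.hh 0 n ω x * E.hh 0 n ω y ∂E.P) +
        ∫ ω, E.hh 0 n ω y * E.hh 0 n ω y ∂E.P := by
    have i4 : Integrable (fun ω => E.hh 0 n ω x * E.hh 0 n ω x - 2 * (E.hh 0 n ω x * E.hh 0 n ω y)) E.P :=
      i1.sub (i2.const_mul 2)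
    rw [← integral_const_mul, ← integral_sub i1 (i2.const_mul 2), ← integral_add i4 i3]
    congr 1
    funext ω
    ring
  rw [h3, E.cov_hh, E.cov_hh, E.cov_hh, Finset.inter_self, Finset.mul_sum, ← Finset.sum_sub_distrib, ← Finset.sum_add_distrib]
  have h4 : ∀ k ∈ Finset.Ico 0 n, covK E.𝔎 ((2 : ℝ) ^ k • (x - x)) - 2 * covK E.𝔎 ((2 : ℝ) ^ k • (x - y)) +
      covK E.𝔎 ((2 : ℝ) ^ k • (y - y)) ≤ E.Λ ^ 2 * ‖x - y‖ ^ 2 * 4 ^ k := by
    intro k _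
    rw [sub_self, sub_self, smul_zero]
    have h5 := E.c_reg ((2 : ℝ) ^ k • (x - y))
    rw [norm_smul, Real.norm_eq_abs, abs_of_pos (by positivity : (0 : ℝ) < 2 ^ k)] at h5
    have h6 : E.Λ ^ 2 * (2 ^ k * ‖x - y‖) ^ 2 = E.Λ ^ 2 * ‖x - y‖ ^ 2 * 4 ^ k := by
      rw [mul_pow, ← pow_mul, mul_comm k 2, pow_mul]
      norm_num
      ring
    linarith
  refine (Finset.sum_le_sum h4).trans ?_
  rw [← Finset.mul_sum]
  have h7 : ∑ k ∈ Finset.Ico 0 n, (4 : ℝ) ^ k ≤ 4 ^ n := by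
    rw [← Finset.range_eq_Ico, geom_sum_eq (by norm_num)]
    rw [div_le_iff₀ (by norm_num)]
    have : (1 : ℝ) ≤ 4 ^ n := one_le_pow₀ (by norm_num)
    linarith
  calc E.Λ ^ 2 * ‖x - y‖ ^ 2 * ∑ k ∈ Finset.Ico 0 n, (4 : ℝ) ^ k ≤ E.Λ ^ 2 * ‖x - y‖ ^ 2 * 4 ^ n := by gcongr
    _ = _ := by ring

private theorem V12b_mgf (n : ℕ) (s : ℝ) (x y : Rd d) :
    ∫⁻ ω, ENNReal.ofReal (Real.exp (s * (E.hf 0 n ω x - E.hf 0 n ω y))) ∂E.P ≤
      ENNReal.ofReal (Real.exp (s ^ 2 * (E.ξ * E.Λ * 2 ^ n) ^ 2 * ‖x - y‖ ^ 2 / 2)) := by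
  obtain ⟨h1, h2, h3⟩ := E.V12b_var n x y
  set X : E.Ω → ℝ := fun ω => E.hh 0 n ω x - E.hh 0 n ω y with hX
  have h4 := h1.map_eq_gaussianReal
  have h5 : ∀ ω, s * (E.hf 0 n ω x - E.hf 0 n ω y) = (s * E.ξ) * X ω := by
    intro ω
    simp only [hX, hf]
    ring
  simp_rw [h5]
  have h6 : Integrable (fun ω => Real.exp ((s * E.ξ) * X ω)) E.P := by
    have h7 := integrable_exp_mul_gaussianReal (μ := E.P[X]) (v := Var[X; E.P].toNNReal) (s * E.ξ)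
    rw [← h4] at h7
    exact (integrable_map_measure (by fun_prop) h1.aemeasurable).1 h7
  rw [← ofReal_integral_eq_lintegral_ofReal h6 (Eventually.of_forall fun ω => (Real.exp_pos _).le)]
  apply ENNReal.ofReal_le_ofReal
  have h8 := mgf_gaussianReal h4 (s * E.ξ)
  unfold mgf at h8
  rw [h8]
  apply Real.exp_le_exp.2
  have h9 : E.P[X] = 0 := h2
  rw [h9, zero_mul, zero_add, Real.coe_toNNReal _ (variance_nonneg _ _)]
  have h10 : Var[X; E.P] * (s * E.ξ) ^ 2 ≤ (E.Λ ^ 2 * 4 ^ n * ‖x - y‖ ^ 2) * (s * E.ξ) ^ 2 :=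
    mul_le_mul_of_nonneg_right h3 (sq_nonneg _)
  have h11 : s ^ 2 * (E.ξ * E.Λ * 2 ^ n) ^ 2 * ‖x - y‖ ^ 2 = (E.Λ ^ 2 * 4 ^ n * ‖x - y‖ ^ 2) * (s * E.ξ) ^ 2 := by
    rw [mul_pow (E.ξ * E.Λ), ← pow_mul, mul_comm n 2, pow_mul]
    norm_num
    ring
  rw [h11]
  linarith

/-- Hölder constant of the Gaussian field with finite expectation: `chaining`; `hf p - hf q` is centred Gaussian (`isGaussianProcess_hh`, `mean_hh`) with variance
`ξ² ∑_{k<n} 2 (c(0) - c(2^k (p - q))) ≤ ξ² Λ² ∑ 4^k ‖p - q‖²` (`cov_hh`, `c_reg`), `E e^{sX} = e^{s² Var/2}` (`mgf_gaussianReal`), `H ≤ e^H`. -/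
theorem hf_holder (L n : ℕ) : ∃ H : E.Ω → ℝ, Integrable H E.P ∧ (∀ ω, 0 ≤ H ω) ∧
    ∀ᵐ ω ∂E.P, ∀ p ∈ CBox (0 : Rd d) (E.Lb L), ∀ q ∈ CBox (0 : Rd d) (E.Lb L), |E.hf 0 n ω p - E.hf 0 n ω q| ≤ H ω * Real.sqrt ‖p - q‖ := by
  have hR : (0 : ℝ) < (E.Lb L : ℝ) := by
    have : 0 < E.Lb L := by unfold Lb; omega
    exact_mod_cast this
  obtain ⟨C, hC0, hC⟩ := chaining d (E.ξ * E.Λ * 2 ^ n) (E.Lb L : ℝ)
    (mul_nonneg (mul_nonneg E.hξ.le E.hΛ) (by positivity)) hR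
  have hmeas : ∀ x, Measurable (fun ω => E.hf 0 n ω x) := by
    intro x
    unfold hf hh
    exact measurable_const.mul (Finset.measurable_fun_sum _ (fun k _ => E.meas k x))
  have hcont : ∀ ω, Continuous (fun x => E.hf 0 n ω x) := by
    intro ω
    unfold hf hh
    exact continuous_const.mul (continuous_finsetSum _ (fun k _ => E.cont k ω))
  obtain ⟨H, hH1, hH2, hH3, hH4⟩ := hC E.P (fun ω x => E.hf 0 n ω x) (0 : Rd d) hcont hmeas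
    (fun s x _ y _ => E.V12b_mgf n s x y)
  refine ⟨H, ?_, hH2, hH3⟩
  have hHm : Measurable H := by
    refine hH1.mono ?_ le_rfl
    apply iSup_le
    intro x
    exact (hmeas x).comap_le
  have h1 := hH4 1 zero_le_one
  refine ⟨hHm.aestronglyMeasurable, ?_⟩
  rw [hasFiniteIntegral_iff_norm]
  refine lt_of_le_of_lt (lintegral_mono (fun ω => ?_)) (lt_of_le_of_lt h1 ENNReal.ofReal_lt_top)
  apply ENNReal.ofReal_le_ofReal
  rw [Real.norm_eq_abs, abs_of_nonneg (hH2 ω), one_mul]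
  have := Real.add_one_le_exp (H ω)
  linarith

end Env

end MP_d19698_pr
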