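import Pool.Agent.Lib.MP_d19698_pr.V10

/-!
# V13: Riemann sums for the covariance
-/

open MeasureTheory ProbabilityTheory Filter Topology Set
open scoped ENNReal NNReal Pointwise

namespace MP_d19698_pr

namespace Env

variable {d : ℕ} [NeZero d] (E : Env d)

/-- the Riemann sum `∑_y ∑_j nk(y,j;x) nk(y,j;x')` (all but finitely many terms vanish) -/
noncomputable def RS (N : ℕ) (x x' : Rd d) : ℝ :=
  ∑' y : Fin d → ℤ, ∑ j ∈ Finset.range (2 ^ (N - 1)), nk E.𝔎 N y j x * nk E.𝔎 N y j x'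

/-- the integrand on `ℝ^{d+1}`: coordinate `0` is the time, cut off below `1/2` to be continuous everywhere -/
noncomputable def Fint (x x' : Rd d) (w : Fin (d + 1) → ℝ) : ℝ :=
  E.𝔎 ((max (w 0) (1 / 2))⁻¹ • (WithLp.toLp 2 (fun l => w l.succ) - x)) * E.𝔎 ((max (w 0) (1 / 2))⁻¹ • (WithLp.toLp 2 (fun l => w l.succ) - x')) *
    ((max (w 0) (1 / 2)) ^ (d + 1))⁻¹

theorem Fint_continuous (x x' : Rd d) : Continuous (E.Fint x x') := by
  have hm : Continuous fun w : Fin (d + 1) → ℝ => max (w 0) (1 / 2 : ℝ) :=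
    (continuous_apply 0).max continuous_const
  have hpos : ∀ w : Fin (d + 1) → ℝ, max (w 0) (1 / 2 : ℝ) ≠ 0 := fun w =>
    (lt_of_lt_of_le (by norm_num) (le_max_right _ _)).ne'
  have hc : Continuous fun w : Fin (d + 1) → ℝ => (max (w 0) (1 / 2 : ℝ))⁻¹ := hm.inv₀ hpos
  have hy : Continuous fun w : Fin (d + 1) → ℝ => (WithLp.toLp 2 (fun l : Fin d => w l.succ) : Rd d) :=
    (PiLp.continuous_toLp 2 _).comp (continuous_pi fun l => continuous_apply _)
  have hp : Continuous fun w : Fin (d + 1) → ℝ => ((max (w 0) (1 / 2 : ℝ)) ^ (d + 1))⁻¹ :=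
    (hm.pow _).inv₀ fun w => pow_ne_zero _ (hpos w)
  unfold Fint
  exact ((E.hKcont.comp (hc.smul (hy.sub continuous_const))).mul
    (E.hKcont.comp (hc.smul (hy.sub continuous_const)))).mul hp

/-- the domain of integration: `|y|_∞ ≤ M`, `1/2 < t ≤ 1` -/
def Sint (d : ℕ) (M : ℝ) : Set (Fin (d + 1) → ℝ) := {w | 1 / 2 < w 0 ∧ w 0 ≤ 1 ∧ ∀ l : Fin d, |w l.succ| ≤ M}

theorem Sint_bounded (d : ℕ) (M : ℝ) : Bornology.IsBounded (Sint d M) := by
  apply (Metric.isBounded_closedBall (x := (0 : Fin (d + 1) → ℝ)) (r := max 1 M)).subset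
  intro w hw
  obtain ⟨h1, h2, h3⟩ := hw
  rw [mem_closedBall_zero_iff, pi_norm_le_iff_of_nonneg (le_trans zero_le_one (le_max_left _ _))]
  intro i
  rw [Real.norm_eq_abs]
  refine Fin.cases ?_ (fun l => ?_) i
  · rw [abs_of_pos (by linarith)]
    exact h2.trans (le_max_left _ _)
  · exact (h3 l).trans (le_max_right _ _)

theorem Sint_measurable (d : ℕ) (M : ℝ) : MeasurableSet (Sint d M) := by
  have h : Sint d M = {w : Fin (d + 1) → ℝ | 1 / 2 < w 0} ∩ ({w | w 0 ≤ 1} ∩ ⋂ l : Fin d, {w | |w l.succ| ≤ M}) := by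
    ext w
    simp only [Sint, mem_ofPred_eq, mem_inter_iff, mem_iInter]
  rw [h]
  refine (measurableSet_lt measurable_const (measurable_pi_apply 0)).inter
    ((measurableSet_le (measurable_pi_apply 0) measurable_const).inter (MeasurableSet.iInter fun l => ?_))
  exact measurableSet_le (measurable_pi_apply (Fin.succ l)).abs measurable_const

/-- convex sets have null frontier (`Convex.addHaar_frontier`) -/
theorem Sint_frontier (d : ℕ) (M : ℝ) : volume (frontier (Sint d M)) = 0 := by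
  apply Convex.addHaar_frontier
  intro u hu v hv a b ha hb hab
  obtain ⟨u1, u2, u3⟩ := hu
  obtain ⟨v1, v2, v3⟩ := hv
  have hb' : b = 1 - a := by linarith
  refine ⟨?_, ?_, fun l => ?_⟩
  · show 1 / 2 < a * u 0 + b * v 0
    rcases eq_or_lt_of_le ha with h | h
    · rw [← h] at hb' ⊢
      rw [hb']
      linarith
    · have h1 : 0 < a * (u 0 - 1 / 2) := mul_pos h (by linarith)
      have h2 : 0 ≤ b * (v 0 - 1 / 2) := mul_nonneg hb (by linarith)
      nlinarith
  · show a * u 0 + b * v 0 ≤ 1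
    have h1 : 0 ≤ a * (1 - u 0) := mul_nonneg ha (by linarith)
    have h2 : 0 ≤ b * (1 - v 0) := mul_nonneg hb (by linarith)
    nlinarith
  · show |a * u l.succ + b * v l.succ| ≤ M
    calc |a * u l.succ + b * v l.succ| ≤ |a * u l.succ| + |b * v l.succ| := abs_add_le _ _
      _ = a * |u l.succ| + b * |v l.succ| := by rw [abs_mul, abs_mul, abs_of_nonneg ha, abs_of_nonneg hb]
      _ ≤ a * M + b * M := add_le_add (mul_le_mul_of_nonneg_left (u3 l) ha) (mul_le_mul_of_nonneg_left (v3 l) hb)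
      _ = M := by rw [← add_mul, hab, one_mul]

/-- `∫_{Sint} Fint = covK (x - x')` if `M ≥ ‖x‖ + r0`: `volume_preserving_piFinSuccAbove` and the volume preserving map `WithLp.toLp 2` identify the left side with the integral over
`(t,y) ∈ (1/2,1] × {|y|_∞ ≤ M}` of `𝔎(t⁻¹(y-x)) 𝔎(t⁻¹(y-x')) t^{-(d+1)}`; the integrand vanishes for `|y|_∞ > M`; substitute `y ↦ y + x'`
(translation invariance in `y`): it is `∫ 𝔎(t⁻¹ (y - (x - x'))) 𝔎(t⁻¹ y) t^{-(d+1)} = covK (x - x')`. -/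
theorem integral_Fint (x x' : Rd d) {M : ℝ} (hM : ‖x‖ + E.r0 ≤ M) : ∫ w in Sint d M, E.Fint x x' w = covK E.𝔎 (x - x') := by
  -- the change of variables
  let Ψ : (Fin (d + 1) → ℝ) → Rd d × ℝ := fun w => (WithLp.toLp 2 (fun l : Fin d => w l.succ) - x', w 0)
  have e1 : MeasurePreserving (MeasurableEquiv.piFinSuccAbove (fun _ : Fin (d + 1) => ℝ) 0) volume volume :=
    volume_preserving_piFinSuccAbove (fun _ : Fin (d + 1) => ℝ) 0
  have e2 : MeasurePreserving (Prod.swap : ℝ × (Fin d → ℝ) → (Fin d → ℝ) × ℝ) volume volume :=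
    Measure.measurePreserving_swap
  have e3 : MeasurePreserving (fun y : Fin d → ℝ => (WithLp.toLp 2 y : Rd d) - x') volume volume :=
    (measurePreserving_sub_right volume x').comp (PiLp.volume_preserving_toLp (Fin d))
  have e4 : MeasurePreserving (Prod.map (fun y : Fin d → ℝ => (WithLp.toLp 2 y : Rd d) - x') (id : ℝ → ℝ)) volume volume :=
    e3.prod (MeasurePreserving.id volume)
  have hΨ : Ψ = (Prod.map (fun y : Fin d → ℝ => (WithLp.toLp 2 y : Rd d) - x') (id : ℝ → ℝ)) ∘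
      (Prod.swap : ℝ × (Fin d → ℝ) → (Fin d → ℝ) × ℝ) ∘ (MeasurableEquiv.piFinSuccAbove (fun _ : Fin (d + 1) => ℝ) 0) := by
    funext w
    rfl
  have hmp : MeasurePreserving Ψ volume volume := by
    rw [hΨ]
    exact e4.comp (e2.comp e1)
  have hemb : MeasurableEmbedding Ψ := by
    rw [hΨ]
    refine MeasurableEmbedding.comp ?_ (MeasurableEmbedding.comp MeasurableEquiv.prodComm.measurableEmbedding
      (MeasurableEquiv.measurableEmbedding _))
    refine MeasurableEmbedding.prodMap ?_ MeasurableEmbedding.id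
    exact (MeasurableEquiv.subRight x').measurableEmbedding.comp
      (MeasurableEquiv.toLp 2 (Fin d → ℝ)).measurableEmbedding
  unfold covK
  rw [← hmp.setIntegral_preimage_emb hemb]
  have hpre : Ψ ⁻¹' (univ ×ˢ Ioc (1 / 2 : ℝ) 1) = {w : Fin (d + 1) → ℝ | w 0 ∈ Ioc (1 / 2 : ℝ) 1} := by
    ext w
    simp only [mem_preimage, mem_prod, mem_univ, true_and, mem_ofPred_eq, Ψ]
  rw [hpre]
  have hmeas : MeasurableSet {w : Fin (d + 1) → ℝ | w 0 ∈ Ioc (1 / 2 : ℝ) 1} :=
    measurableSet_Ioc.preimage (measurable_pi_apply 0)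
  have hsub : Sint d M ⊆ {w : Fin (d + 1) → ℝ | w 0 ∈ Ioc (1 / 2 : ℝ) 1} := fun w hw => ⟨hw.1, hw.2.1⟩
  rw [setIntegral_eq_of_subset_of_forall_sdiff_eq_zero hmeas hsub]
  · apply setIntegral_congr_fun (Sint_measurable d M)
    intro w hw
    have hw0 : max (w 0) (1 / 2 : ℝ) = w 0 := max_eq_left hw.1.le
    simp only [Fint, Ψ, hw0]
    rw [mul_comm (E.𝔎 _) (E.𝔎 _)]
    congr 3
    congr 1
    abel
  · intro w hw
    obtain ⟨⟨h1, h2⟩, h3⟩ := hw
    have h4 : ∃ l : Fin d, M < |w l.succ| := by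
      by_contra hcon
      push Not at hcon
      exact h3 ⟨h1, h2, hcon⟩
    obtain ⟨l, hl⟩ := h4
    have hw0 : 0 < w 0 := by linarith
    have hz : E.𝔎 ((w 0)⁻¹ • (((WithLp.toLp 2 (fun l : Fin d => w l.succ) : Rd d) - x') - (x - x'))) = 0 := by
      apply E.hKsupp
      have h5 : ((WithLp.toLp 2 (fun l : Fin d => w l.succ) : Rd d) - x') - (x - x') =
          (WithLp.toLp 2 (fun l : Fin d => w l.succ) : Rd d) - x := by abel
      rw [h5, norm_smul, norm_inv, Real.norm_eq_abs, abs_of_pos hw0]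
      have h6 : |w l.succ| ≤ ‖(WithLp.toLp 2 (fun l : Fin d => w l.succ) : Rd d)‖ := by
        have := PiLp.norm_apply_le (WithLp.toLp 2 (fun l : Fin d => w l.succ) : Rd d) l
        rwa [Real.norm_eq_abs] at this
      have h7 : ‖(WithLp.toLp 2 (fun l : Fin d => w l.succ) : Rd d)‖ - ‖x‖ ≤
          ‖(WithLp.toLp 2 (fun l : Fin d => w l.succ) : Rd d) - x‖ := norm_sub_norm_le _ _
      have h8 : E.r0 ≤ ‖(WithLp.toLp 2 (fun l : Fin d => w l.succ) : Rd d) - x‖ := by linarith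
      have h9 : 1 ≤ (w 0)⁻¹ := (one_le_inv₀ hw0).2 h2
      calc E.r0 = 1 * E.r0 := (one_mul _).symm
        _ ≤ (w 0)⁻¹ * ‖(WithLp.toLp 2 (fun l : Fin d => w l.succ) : Rd d) - x‖ :=
          mul_le_mul h9 h8 E.hr0.le (by positivity)
    simp only [Ψ]
    rw [hz, mul_zero, zero_mul]

private theorem v13_finset (T : Set (Fin (d + 1) → ℝ)) (s : Finset (Fin (d + 1) → ℝ)) (hT : T = ↑s)
    (f : (Fin (d + 1) → ℝ) → ℝ) : ∑' w : ↑T, f w = ∑ w ∈ s, f w := by
  subst hT
  exact Finset.tsum_subtype' s f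

private noncomputable def v13psi (d N : ℕ) (p : (Fin d → ℤ) × ℕ) : Fin (d + 1) → ℝ :=
  Fin.cons (tau N p.2) (fun l => dy N * (p.1 l : ℝ))

private theorem v13_tau_inj {N j j' : ℕ} (h : tau N j = tau N j') : j = j' := by
  unfold tau at h
  have h2 : (0 : ℝ) < 2 ^ N := by positivity
  rw [div_left_inj' h2.ne'] at h
  have h3 : (j : ℝ) = j' := by linarith
  exact_mod_cast h3

private theorem v13_psi_inj (N : ℕ) : Function.Injective (v13psi d N) := by
  rintro ⟨y, j⟩ ⟨y', j'⟩ h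
  have h0 := congrFun h 0
  simp only [v13psi, Fin.cons_zero] at h0
  have hj := v13_tau_inj h0
  have hy : y = y' := by
    funext l
    have h1 := congrFun h l.succ
    simp only [v13psi, Fin.cons_succ] at h1
    have h2 := mul_left_cancel₀ (dy_pos N).ne' h1
    exact_mod_cast h2
  rw [hj, hy]

private theorem v13_mem_lattice {N : ℕ} (w : Fin (d + 1) → ℝ) :
    w ∈ (((2 ^ N : ℕ) : ℝ)⁻¹ • (Submodule.span ℤ (Set.range (Pi.basisFun ℝ (Fin (d + 1)))) : Set (Fin (d + 1) → ℝ))) ↔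
      ∀ i, ∃ k : ℤ, (k : ℝ) = 2 ^ N * w i := by
  have hne : NeZero (2 ^ N) := ⟨by positivity⟩
  have h := BoxIntegral.unitPartition.mem_smul_span_iff (n := 2 ^ N) (v := w)
  have h2 : (w ∈ (((2 ^ N : ℕ) : ℝ)⁻¹ • (Submodule.span ℤ (Set.range (Pi.basisFun ℝ (Fin (d + 1)))) : Set (Fin (d + 1) → ℝ)))) ↔
      (w ∈ (((2 ^ N : ℕ) : ℝ)⁻¹ • (Submodule.span ℤ (Set.range (Pi.basisFun ℝ (Fin (d + 1))))))) := Iff.rfl
  rw [h2, h]
  refine forall_congr' fun i => ?_
  rw [Set.mem_range]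
  push_cast
  rfl

/-- For `N ≥ 1`, `M ≥ ‖x‖ + r0`: the points of `Sint ∩ 2^{-N} ℤ^{d+1}` are exactly the `(τ_j, 2^{-N} y)` with `j < 2^{N-1}`, `|2^{-N} y|_∞ ≤ M`, and
`Fint (τ_j, 2^{-N} y) / 2^{N(d+1)} = nk(y,j;x) nk(y,j;x')` (`√· √· = ·`); `nk(y,j;x) = 0` if `|2^{-N} y|_∞ > M` (`nk_supp`). -/
theorem tsum_Fint {N : ℕ} (hN : 1 ≤ N) (x x' : Rd d) {M : ℝ} (hM : ‖x‖ + E.r0 ≤ M) :
    (∑' w : ↑(Sint d M ∩ (((2 ^ N : ℕ) : ℝ)⁻¹ • (Submodule.span ℤ (Set.range (Pi.basisFun ℝ (Fin (d + 1)))) : Set (Fin (d + 1) → ℝ)))), E.Fint x x' w) /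
      (((2 ^ N : ℕ) : ℝ)) ^ (d + 1) = E.RS N x x' := by
  classical
  set K : ℤ := ⌊(2 : ℝ) ^ N * M⌋ with hK
  set Y : Finset (Fin d → ℤ) := Fintype.piFinset (fun _ => Finset.Icc (-K) K) with hY
  have h2N : (0 : ℝ) < 2 ^ N := by positivity
  have hdy : (2 : ℝ) ^ N * dy N = 1 := two_pow_mul_dy N
  have hmemY : ∀ y : Fin d → ℤ, y ∈ Y ↔ ∀ l, |dy N * (y l : ℝ)| ≤ M := by
    intro y
    rw [hY, Fintype.mem_piFinset]
    refine forall_congr' fun l => ?_
    rw [Finset.mem_Icc, ← abs_le, hK, Int.le_floor, Int.cast_abs, abs_mul, abs_of_pos (dy_pos N)]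
    constructor
    · intro h
      calc dy N * |(y l : ℝ)| ≤ dy N * (2 ^ N * M) := mul_le_mul_of_nonneg_left h (dy_pos N).le
        _ = (2 ^ N * dy N) * M := by ring
        _ = M := by rw [hdy, one_mul]
    · intro h
      calc |(y l : ℝ)| = (2 ^ N * dy N) * |(y l : ℝ)| := by rw [hdy, one_mul]
        _ = 2 ^ N * (dy N * |(y l : ℝ)|) := by ring
        _ ≤ 2 ^ N * M := mul_le_mul_of_nonneg_left h h2N.le
  have hT : (Sint d M ∩ (((2 ^ N : ℕ) : ℝ)⁻¹ • (Submodule.span ℤ (Set.range (Pi.basisFun ℝ (Fin (d + 1)))) : Set (Fin (d + 1) → ℝ)))) =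
      ↑((Y ×ˢ Finset.range (2 ^ (N - 1))).image (v13psi d N)) := by
    ext w
    rw [Set.mem_inter_iff, v13_mem_lattice, Finset.mem_coe, Finset.mem_image]
    have hpow : (2 : ℤ) ^ N = 2 * 2 ^ (N - 1) := by
      rw [← pow_succ']
      congr 1
      omega
    have hpowr : (2 : ℝ) ^ N = 2 * 2 ^ (N - 1) := by exact_mod_cast hpow
    constructor
    · rintro ⟨⟨h1, h2, h3⟩, h4⟩
      choose k hk using h4
      have k1 : (2 : ℤ) ^ (N - 1) < k 0 := by
        have : ((2 : ℝ) ^ (N - 1)) < (k 0 : ℝ) := by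
          rw [hk 0, hpowr]
          nlinarith [show (0 : ℝ) < 2 ^ (N - 1) by positivity]
        exact_mod_cast this
      have k2 : k 0 ≤ 2 ^ N := by
        have : (k 0 : ℝ) ≤ (2 : ℝ) ^ N := by
          rw [hk 0]
          nlinarith
        exact_mod_cast this
      obtain ⟨j, hj⟩ : ∃ j : ℕ, (j : ℤ) = k 0 - 2 ^ (N - 1) - 1 :=
        ⟨(k 0 - 2 ^ (N - 1) - 1).toNat, Int.toNat_of_nonneg (by omega)⟩
      refine ⟨(fun l => k l.succ, j), ?_, ?_⟩
      · rw [Finset.mem_product, Finset.mem_range]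
        constructor
        · show (fun l => k (Fin.succ l)) ∈ Y
          rw [hmemY]
          intro l
          have h5 : dy N * ((k l.succ : ℤ) : ℝ) = w l.succ := by
            rw [hk l.succ]
            calc dy N * (2 ^ N * w l.succ) = (2 ^ N * dy N) * w l.succ := by ring
              _ = w l.succ := by rw [hdy, one_mul]
          rw [h5]
          exact h3 l
        · show j < 2 ^ (N - 1)
          have h6 : (j : ℤ) < ((2 ^ (N - 1) : ℕ) : ℤ) := by
            push_cast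
            rw [hpow] at k2
            omega
          exact_mod_cast h6
      · funext i
        refine Fin.cases ?_ (fun l => ?_) i
        · show tau N j = w 0
          unfold tau
          have h7 : (j : ℝ) = (k 0 : ℝ) - 2 ^ (N - 1) - 1 := by exact_mod_cast hj
          rw [h7, hk 0]
          field_simp
          ring
        · show dy N * ((k l.succ : ℤ) : ℝ) = w l.succ
          rw [hk l.succ]
          calc dy N * (2 ^ N * w l.succ) = (2 ^ N * dy N) * w l.succ := by ring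
            _ = w l.succ := by rw [hdy, one_mul]
    · rintro ⟨⟨y, j⟩, hyj, rfl⟩
      rw [Finset.mem_product, Finset.mem_range] at hyj
      obtain ⟨hy, hj⟩ := hyj
      have hy' := (hmemY y).1 hy
      refine ⟨⟨tau_gt hN j, tau_le hN hj, hy'⟩, fun i => ?_⟩
      refine Fin.cases ?_ (fun l => ?_) i
      · refine ⟨2 ^ (N - 1) + 1 + j, ?_⟩
        show (((2 : ℤ) ^ (N - 1) + 1 + j : ℤ) : ℝ) = 2 ^ N * tau N j
        unfold tau
        push_cast
        field_simp
      · refine ⟨y l, ?_⟩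
        show ((y l : ℤ) : ℝ) = 2 ^ N * (dy N * (y l : ℝ))
        rw [← mul_assoc, hdy, one_mul]
  rw [v13_finset _ _ hT, Finset.sum_image (fun a _ b _ h => v13_psi_inj N h), Finset.sum_product, Finset.sum_div]
  unfold RS
  rw [tsum_eq_sum (s := Y)]
  · refine Finset.sum_congr rfl fun y _ => ?_
    rw [Finset.sum_div]
    refine Finset.sum_congr rfl fun j hj => ?_
    rw [Finset.mem_range] at hj
    have ht := tau_gt hN j
    have ht0 : 0 < tau N j := by linarith
    have hmax : max (v13psi d N (y, j) 0) (1 / 2 : ℝ) = tau N j := max_eq_left ht.le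
    have hlat : (WithLp.toLp 2 (fun l : Fin d => v13psi d N (y, j) l.succ) : Rd d) = latt N y := rfl
    unfold Fint nk
    rw [hmax, hlat]
    have hs : Real.sqrt ((dy N / tau N j) ^ (d + 1)) * Real.sqrt ((dy N / tau N j) ^ (d + 1)) =
        (dy N / tau N j) ^ (d + 1) := Real.mul_self_sqrt (pow_nonneg (div_nonneg (dy_pos N).le ht0.le) _)
    have hd2 : dy N = ((2 : ℝ) ^ N)⁻¹ := eq_inv_of_mul_eq_one_right hdy
    calc E.𝔎 ((tau N j)⁻¹ • (latt N y - x)) * E.𝔎 ((tau N j)⁻¹ • (latt N y - x')) * (tau N j ^ (d + 1))⁻¹ /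
          ((2 ^ N : ℕ) : ℝ) ^ (d + 1) =
        (dy N / tau N j) ^ (d + 1) * (E.𝔎 ((tau N j)⁻¹ • (latt N y - x)) * E.𝔎 ((tau N j)⁻¹ • (latt N y - x'))) := by
          rw [hd2, div_pow, inv_pow]
          push_cast
          field_simp
      _ = (Real.sqrt ((dy N / tau N j) ^ (d + 1)) * Real.sqrt ((dy N / tau N j) ^ (d + 1))) *
          (E.𝔎 ((tau N j)⁻¹ • (latt N y - x)) * E.𝔎 ((tau N j)⁻¹ • (latt N y - x'))) := by rw [hs]
      _ = _ := by ring
  · intro y hy
    rw [hmemY] at hy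
    push Not at hy
    obtain ⟨l, hl⟩ := hy
    apply Finset.sum_eq_zero
    intro j hj
    rw [Finset.mem_range] at hj
    have hz : nk E.𝔎 N y j x = 0 := by
      by_contra hne
      have h1 := E.nk_supp hN hj hne l
      rw [latt_apply] at h1
      have h2 : |x l| ≤ ‖x‖ := by
        have := PiLp.norm_apply_le x l
        rwa [Real.norm_eq_abs] at this
      have h3 := abs_sub_abs_le_abs_sub (dy N * (y l : ℝ)) (x l)
      linarith
    rw [hz, zero_mul]

/-- **Riemann sum.** `tendsto_tsum_div_pow_atTop_integral` for `Sint d M` and `Fint`, along the subsequence `2^N`; `integral_Fint`, `tsum_Fint`. -/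
theorem RS_tendsto (x x' : Rd d) : Tendsto (fun N => E.RS N x x') atTop (𝓝 (covK E.𝔎 (x - x'))) := by
  have h := tendsto_tsum_div_pow_atTop_integral (Sint d (‖x‖ + E.r0)) (E.Fint x x') (E.Fint_continuous x x') (Sint_bounded d _)
    (Sint_measurable d _) (Sint_frontier d _)
  rw [E.integral_Fint x x' le_rfl] at h
  have h2 : Tendsto (fun N : ℕ => 2 ^ N) atTop (atTop : Filter ℕ) := tendsto_pow_atTop_atTop_of_one_lt (by norm_num)
  have h3 := h.comp h2
  refine h3.congr' ?_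
  filter_upwards [eventually_ge_atTop 1] with N hN
  have h4 := E.tsum_Fint hN x x' (M := ‖x‖ + E.r0) le_rfl
  simp only [Function.comp_apply, Fintype.card_fin]
  exact h4

end Env

end MP_d19698_pr
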