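import Pool.Agent.Lib.MP_d19698_pr.V11
import Pool.Agent.Lib.MP_d19698_pr.V13

/-!
# V13b: convergence of the covariances of the models
-/

open MeasureTheory ProbabilityTheory Filter Topology Set
open scoped ENNReal NNReal

namespace MP_d19698_pr

namespace Env

variable {d : ℕ} [NeZero d] (E : Env d)

/-- a relevant position is in the window -/
theorem V13b_window (L n N0 : ℕ) {p : Rd d} (hp : p ∈ CBox (0 : Rd d) (E.Lb L)) {k : ℕ} (hk : k < n) {j : ℕ}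
    (hj : j < 2 ^ (N0 + n + 1 - 1)) {y : Fin d → ℤ} (h : nk E.𝔎 (N0 + n + 1) y j ((2 : ℝ) ^ k • p) ≠ 0) :
    ∃ a : Fin d → Fin (2 * E.YY L n N0 + 1), yv a = y := by
  apply exists_yv
  intro l
  have h1 := E.nk_supp (show 1 ≤ N0 + n + 1 by omega) hj h l
  have h2 : latt (N0 + n + 1) y l = dy (N0 + n + 1) * (y l : ℝ) := rfl
  have h3 : ((2 : ℝ) ^ k • p) l = (2 : ℝ) ^ k * p l := rfl
  rw [h2, h3] at h1
  have h4 : |p l| ≤ (E.Lb L : ℝ) := by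
    have := hp l
    simpa using this
  have hr0 : E.r0 ≤ (⌈E.r0⌉₊ : ℝ) := Nat.le_ceil _
  have h2k : (2 : ℝ) ^ k ≤ 2 ^ n := pow_le_pow_right₀ one_le_two hk.le
  have h1n : (1 : ℝ) ≤ 2 ^ n := one_le_pow₀ one_le_two
  have h5 : |dy (N0 + n + 1) * (y l : ℝ)| ≤ 2 ^ n * (E.Wn L : ℝ) := by
    have h6 : |dy (N0 + n + 1) * (y l : ℝ)| ≤ |dy (N0 + n + 1) * (y l : ℝ) - 2 ^ k * p l| + |2 ^ k * p l| := by
      have := abs_add_le (dy (N0 + n + 1) * (y l : ℝ) - 2 ^ k * p l) (2 ^ k * p l)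
      rwa [sub_add_cancel] at this
    have h7 : |(2 : ℝ) ^ k * p l| ≤ 2 ^ n * (E.Lb L : ℝ) := by
      rw [abs_mul, abs_of_pos (by positivity : (0 : ℝ) < 2 ^ k)]
      exact mul_le_mul h2k h4 (abs_nonneg _) (by positivity)
    have h8 : E.r0 ≤ 2 ^ n * ((⌈E.r0⌉₊ : ℝ) + 1) := by
      have h9 : (0 : ℝ) ≤ (⌈E.r0⌉₊ : ℝ) + 1 := by positivity
      have h10 : 1 * ((⌈E.r0⌉₊ : ℝ) + 1) ≤ 2 ^ n * ((⌈E.r0⌉₊ : ℝ) + 1) :=
        mul_le_mul_of_nonneg_right h1n h9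
      linarith
    have h11 : (E.Wn L : ℝ) = (E.Lb L : ℝ) + ⌈E.r0⌉₊ + 1 := by
      unfold Wn
      push_cast
      ring
    rw [h11]
    linarith
  have hdy : (2 : ℝ) ^ (N0 + n + 1) * dy (N0 + n + 1) = 1 := by
    unfold dy
    rw [← mul_pow]
    norm_num
  have h12 : |(y l : ℝ)| ≤ (E.YY L n N0 : ℝ) := by
    have h13 : |(y l : ℝ)| = 2 ^ (N0 + n + 1) * |dy (N0 + n + 1) * (y l : ℝ)| := by
      have h14 : 0 < dy (N0 + n + 1) := by unfold dy; positivity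
      rw [abs_mul, abs_of_pos h14, ← mul_assoc, hdy, one_mul]
    have h15 : (E.YY L n N0 : ℝ) = 3 * (2 ^ (N0 + n + 1) * (2 ^ n * (E.Wn L : ℝ))) := by
      unfold YY
      push_cast
      rw [pow_add (2 : ℝ) (N0 + n + 1) n]
      ring
    rw [h13, h15]
    have h16 := mul_le_mul_of_nonneg_left h5 (show (0 : ℝ) ≤ 2 ^ (N0 + n + 1) by positivity)
    have h17 : (0 : ℝ) ≤ 2 ^ (N0 + n + 1) * (2 ^ n * (E.Wn L : ℝ)) := by positivity
    linarith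
  exact_mod_cast h12

/-- for points of `CBox 0 Lb` all relevant positions are in the window -/
theorem sum_phi_mul (L n N0 : ℕ) {p q : Rd d} (hp : p ∈ CBox (0 : Rd d) (E.Lb L)) :
    ∑ i : Idx d n (E.YY L n N0) (N0 + n + 1), E.phi n (E.YY L n N0) (N0 + n + 1) i p * E.phi n (E.YY L n N0) (N0 + n + 1) i q =
      ∑ k ∈ Finset.range n, E.RS (N0 + n + 1) ((2 : ℝ) ^ k • p) ((2 : ℝ) ^ k • q) := by
  classical
  rw [Fintype.sum_prod_type, Finset.sum_range]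
  refine Finset.sum_congr rfl fun k _ => ?_
  rw [Fintype.sum_prod_type]
  unfold RS
  have hzero : ∀ y : Fin d → ℤ, y ∉ ((Finset.univ : Finset (Fin d → Fin (2 * E.YY L n N0 + 1))).map ⟨yv, yv_injective⟩) →
      (∑ j ∈ Finset.range (2 ^ (N0 + n + 1 - 1)), nk E.𝔎 (N0 + n + 1) y j ((2 : ℝ) ^ (k : ℕ) • p) *
        nk E.𝔎 (N0 + n + 1) y j ((2 : ℝ) ^ (k : ℕ) • q)) = 0 := by
    intro y hy
    refine Finset.sum_eq_zero fun j hj => ?_
    rw [Finset.mem_range] at hj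
    by_contra hne
    have h1 : nk E.𝔎 (N0 + n + 1) y j ((2 : ℝ) ^ (k : ℕ) • p) ≠ 0 := left_ne_zero_of_mul hne
    obtain ⟨a, ha⟩ := E.V13b_window L n N0 hp k.2 hj h1
    apply hy
    rw [Finset.mem_map]
    exact ⟨a, Finset.mem_univ _, ha⟩
  rw [tsum_eq_sum (s := ((Finset.univ : Finset (Fin d → Fin (2 * E.YY L n N0 + 1))).map ⟨yv, yv_injective⟩)) hzero, Finset.sum_map]
  refine Finset.sum_congr rfl fun a _ => ?_
  rw [Finset.sum_range]
  rfl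

theorem rm_cov (L n : ℕ) {p q : Rd d} (hp : p ∈ CBox (0 : Rd d) (E.Lb L)) :
    Tendsto (fun N0 => ∑ i : Idx d n (E.YY L n N0) (N0 + n + 1), E.phi n (E.YY L n N0) (N0 + n + 1) i p * E.phi n (E.YY L n N0) (N0 + n + 1) i q) atTop
      (𝓝 (∑ k ∈ Finset.range n, covK E.𝔎 ((2 : ℝ) ^ k • (p - q)))) := by
  have h1 : (fun N0 => ∑ i : Idx d n (E.YY L n N0) (N0 + n + 1), E.phi n (E.YY L n N0) (N0 + n + 1) i p * E.phi n (E.YY L n N0) (N0 + n + 1) i q) =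
      fun N0 => ∑ k ∈ Finset.range n, E.RS (N0 + n + 1) ((2 : ℝ) ^ k • p) ((2 : ℝ) ^ k • q) := by
    funext N0
    exact E.sum_phi_mul L n N0 hp
  rw [h1]
  refine tendsto_finset_sum _ fun k _ => ?_
  have h2 := E.RS_tendsto ((2 : ℝ) ^ k • p) ((2 : ℝ) ^ k • q)
  rw [← smul_sub] at h2
  have h3 : Tendsto (fun N0 : ℕ => N0 + n + 1) atTop atTop := by
    have : (fun N0 : ℕ => N0 + n + 1) = fun N0 => N0 + (n + 1) := by
      funext N0
      omega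
    rw [this]
    exact tendsto_add_atTop_nat (n + 1)
  exact h2.comp h3

end Env

end MP_d19698_pr
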