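import Pool.Agent.Lib.MP_d19698_pr.V12
import Pool.Agent.Lib.MP_d19698_pr.V13b

/-!
# V14: characteristic functions of the models converge
-/

open MeasureTheory ProbabilityTheory Filter Topology Set
open scoped ENNReal NNReal

namespace MP_d19698_pr

theorem V14_prod {ι : Type*} (s : Finset ι) (u v : ι → ℝ) (hu : ∀ i, |u i| ≤ 1) (hv : ∀ i, |v i| ≤ 1) :
    |∏ i ∈ s, u i - ∏ i ∈ s, v i| ≤ ∑ i ∈ s, |u i - v i| := by
  classical
  induction s using Finset.induction_on with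
  | empty => simp
  | insert i s hi ih =>
    rw [Finset.prod_insert hi, Finset.prod_insert hi, Finset.sum_insert hi]
    have h1 : u i * ∏ j ∈ s, u j - v i * ∏ j ∈ s, v j =
        (u i - v i) * ∏ j ∈ s, u j + v i * (∏ j ∈ s, u j - ∏ j ∈ s, v j) := by ring
    have h2 : |∏ j ∈ s, u j| ≤ 1 := by
      rw [Finset.abs_prod]
      exact Finset.prod_le_one (fun j _ => abs_nonneg _) (fun j _ => hu j)
    rw [h1]
    refine (abs_add_le _ _).trans ?_
    rw [abs_mul, abs_mul]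
    refine add_le_add ?_ ?_
    · exact mul_le_of_le_one_right (abs_nonneg _) h2
    · calc |v i| * |∏ j ∈ s, u j - ∏ j ∈ s, v j| ≤ 1 * |∏ j ∈ s, u j - ∏ j ∈ s, v j| :=
            mul_le_mul_of_nonneg_right (hv i) (abs_nonneg _)
        _ ≤ _ := by rw [one_mul]; exact ih

theorem V14_cos (b : ℝ) : |Real.cos b - Real.exp (-(b ^ 2) / 2)| ≤ 2 * b ^ 4 := by
  rcases le_or_gt |b| 1 with hb | hb
  · have h1 := Real.cos_bound hb
    have h0 : |b| ^ 4 = b ^ 4 := by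
      have : |b| ^ 4 = (|b| ^ 2) ^ 2 := by ring
      rw [this, sq_abs]
      ring
    have hb2 : b ^ 2 ≤ 1 := by
      rw [← sq_abs]
      exact pow_le_one₀ (abs_nonneg _) hb
    have h2 : |-(b ^ 2) / 2| ≤ 1 := by
      rw [abs_le]
      constructor <;> nlinarith [sq_nonneg b]
    have h3 := Real.abs_exp_sub_one_sub_id_le h2
    have hb4 : 0 ≤ b ^ 4 := by positivity
    rw [h0] at h1
    rw [abs_le] at h1 h3 ⊢
    have h4 : (-(b ^ 2) / 2) ^ 2 = b ^ 4 / 4 := by ring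
    rw [h4] at h3
    constructor <;> linarith [h1.1, h1.2, h3.1, h3.2]
  · have h1 : |Real.cos b| ≤ 1 := Real.abs_cos_le_one b
    have h2 : |Real.exp (-(b ^ 2) / 2)| ≤ 1 := by
      rw [abs_of_pos (Real.exp_pos _), Real.exp_le_one_iff]
      have := sq_nonneg b
      linarith
    have h3 : 1 ≤ b ^ 4 := by
      have : b ^ 4 = |b| ^ 4 := by
        have h5 : |b| ^ 4 = (|b| ^ 2) ^ 2 := by ring
        rw [h5, sq_abs]
        ring
      rw [this]
      exact one_le_pow₀ hb.le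
    calc |Real.cos b - Real.exp (-(b ^ 2) / 2)| ≤ |Real.cos b| + |Real.exp (-(b ^ 2) / 2)| := abs_sub _ _
      _ ≤ 2 * b ^ 4 := by linarith

/-- product of cosines -/
theorem abs_prod_cos_sub_le {ι : Type*} [Fintype ι] (b : ι → ℝ) {m : ℝ} (hm : ∀ i, b i ^ 2 ≤ m) :
    |∏ i, Real.cos (b i) - Real.exp (-(∑ i, b i ^ 2) / 2)| ≤ 2 * m * ∑ i, b i ^ 2 := by
  have h1 : Real.exp (-(∑ i, b i ^ 2) / 2) = ∏ i, Real.exp (-(b i ^ 2) / 2) := by
    rw [← Real.exp_sum]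
    congr 1
    rw [← Finset.sum_div, Finset.sum_neg_distrib]
  rw [h1]
  refine (V14_prod Finset.univ _ _ (fun i => Real.abs_cos_le_one _) ?_).trans ?_
  · intro i
    rw [abs_of_pos (Real.exp_pos _), Real.exp_le_one_iff]
    have := sq_nonneg (b i)
    linarith
  · rw [Finset.mul_sum]
    refine Finset.sum_le_sum fun i _ => (V14_cos (b i)).trans ?_
    have h2 : 2 * b i ^ 4 = 2 * b i ^ 2 * b i ^ 2 := by ring
    rw [h2]
    exact mul_le_mul_of_nonneg_right (mul_le_mul_of_nonneg_left (hm i) (by norm_num)) (sq_nonneg _)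

theorem V14_fld {d n : ℕ} {r0 L C1 : ℝ} (M : RM d n r0 L C1) (ξ : ℝ) (T : Finset (Rd d)) (a : T → ℝ)
    (x : M.I → Bool) :
    ∑ y : T, a y * M.fld ξ x y = ∑ i, sg (x i) * (ξ * ∑ y : T, a y * M.φ i y) := by
  unfold RM.fld
  have h1 : ∀ y : T, a y * (ξ * ∑ i, sg (x i) * M.φ i y) = ∑ i, sg (x i) * (ξ * (a y * M.φ i y)) := by
    intro y
    rw [← mul_assoc, Finset.mul_sum]
    refine Finset.sum_congr rfl fun i _ => ?_
    ring
  rw [Finset.sum_congr rfl (fun y _ => h1 y), Finset.sum_comm]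
  refine Finset.sum_congr rfl fun i _ => ?_
  rw [Finset.mul_sum, Finset.mul_sum]

theorem V14_sq {d n : ℕ} {r0 L C1 : ℝ} (M : RM d n r0 L C1) (ξ : ℝ) (T : Finset (Rd d)) (a : T → ℝ) :
    ∑ i, (ξ * ∑ y : T, a y * M.φ i y) ^ 2 =
      ∑ y : T, ∑ y' : T, a y * a y' * (ξ ^ 2 * ∑ i, M.φ i y * M.φ i y') := by
  have h1 : ∀ i, (ξ * ∑ y : T, a y * M.φ i y) ^ 2 =
      ∑ y : T, ∑ y' : T, a y * a y' * (ξ ^ 2 * (M.φ i y * M.φ i y')) := by
    intro i
    rw [mul_pow, sq (∑ y : T, a y * M.φ i y), Finset.sum_mul_sum, Finset.mul_sum]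
    refine Finset.sum_congr rfl fun y _ => ?_
    rw [Finset.mul_sum]
    refine Finset.sum_congr rfl fun y' _ => ?_
    ring
  rw [Finset.sum_congr rfl (fun i _ => h1 i), Finset.sum_comm]
  refine Finset.sum_congr rfl fun y _ => ?_
  rw [Finset.sum_comm]
  refine Finset.sum_congr rfl fun y' _ => ?_
  rw [Finset.mul_sum, Finset.mul_sum]

theorem V14_bd {d n : ℕ} {r0 L C1 : ℝ} (M : RM d n r0 L C1) (ξ : ℝ) (T : Finset (Rd d)) (a : T → ℝ) (i : M.I) :
    (ξ * ∑ y : T, a y * M.φ i y) ^ 2 ≤ (|ξ| * (∑ y : T, |a y|) * M.s) ^ 2 := by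
  apply sq_le_sq'
  · have h1 := neg_abs_le (ξ * ∑ y : T, a y * M.φ i y)
    have h2 : |ξ * ∑ y : T, a y * M.φ i y| ≤ |ξ| * (∑ y : T, |a y|) * M.s := by
      rw [abs_mul, mul_assoc]
      refine mul_le_mul_of_nonneg_left ?_ (abs_nonneg _)
      refine (Finset.abs_sum_le_sum_abs _ _).trans ?_
      rw [Finset.sum_mul]
      refine Finset.sum_le_sum fun y _ => ?_
      rw [abs_mul]
      exact mul_le_mul_of_nonneg_left (M.bd i y) (abs_nonneg _)
    linarith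
  · refine (le_abs_self _).trans ?_
    rw [abs_mul, mul_assoc]
    refine mul_le_mul_of_nonneg_left ?_ (abs_nonneg _)
    refine (Finset.abs_sum_le_sum_abs _ _).trans ?_
    rw [Finset.sum_mul]
    refine Finset.sum_le_sum fun y _ => ?_
    rw [abs_mul]
    exact mul_le_mul_of_nonneg_left (M.bd i y) (abs_nonneg _)

theorem V14_main {d n : ℕ} {r0 L C1 : ℝ} (M : RM d n r0 L C1) (ξ : ℝ) (T : Finset (Rd d)) (a : T → ℝ) :
    |cE (fun x => Real.cos (∑ y : T, a y * M.fld ξ x y)) -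
        Real.exp (-(∑ y : T, ∑ y' : T, a y * a y' * (ξ ^ 2 * ∑ i, M.φ i y * M.φ i y')) / 2)| ≤
      2 * (|ξ| * (∑ y : T, |a y|) * M.s) ^ 2 *
        ∑ y : T, ∑ y' : T, a y * a y' * (ξ ^ 2 * ∑ i, M.φ i y * M.φ i y') := by
  have h1 : (fun x => Real.cos (∑ y : T, a y * M.fld ξ x y)) =
      fun x => Real.cos (∑ i, sg (x i) * (ξ * ∑ y : T, a y * M.φ i y)) := by
    funext x
    rw [V14_fld]
  rw [h1, cE_cos, ← V14_sq]
  exact abs_prod_cos_sub_le _ (fun i => V14_bd M ξ T a i)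

namespace Env

variable {d : ℕ} [NeZero d] (E : Env d)

/-- the limiting variance of `∑ a_y X_y` -/
noncomputable def VT (n : ℕ) (T : Finset (Rd d)) (a : T → ℝ) : ℝ :=
  ∑ y : T, ∑ y' : T, a y * a y' * (E.ξ ^ 2 * ∑ k ∈ Finset.range n, covK E.𝔎 ((2 : ℝ) ^ k • ((y : Rd d) - (y' : Rd d))))

/-- convergence of the real parts -/
theorem cE_cos_tendsto (L n : ℕ) (T : Finset (Rd d)) (hT : ∀ p ∈ T, p ∈ CBox (0 : Rd d) (E.Lb L)) (a : T → ℝ) :
    Tendsto (fun N0 => cE (fun x => Real.cos (∑ y : T, a y * (E.rm L n N0).fld E.ξ x y))) atTop (𝓝 (Real.exp (-(E.VT n T a) / 2))) := by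
  have hV : Tendsto (fun N0 => ∑ y : T, ∑ y' : T, a y * a y' * (E.ξ ^ 2 * ∑ i, (E.rm L n N0).φ i y * (E.rm L n N0).φ i y'))
      atTop (𝓝 (E.VT n T a)) := by
    unfold VT
    refine tendsto_finsetSum _ fun y _ => tendsto_finsetSum _ fun y' _ => ?_
    refine Tendsto.const_mul _ (Tendsto.const_mul _ ?_)
    exact E.rm_cov L n (hT y y.2)
  have hs := E.rm_s_tendsto L n
  have hexp : Tendsto (fun N0 => Real.exp (-(∑ y : T, ∑ y' : T, a y * a y' * (E.ξ ^ 2 * ∑ i, (E.rm L n N0).φ i y * (E.rm L n N0).φ i y')) / 2))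
      atTop (𝓝 (Real.exp (-(E.VT n T a) / 2))) :=
    (Real.continuous_exp.tendsto _).comp (hV.neg.div_const 2)
  have herr : Tendsto (fun N0 => 2 * (|E.ξ| * (∑ y : T, |a y|) * (E.rm L n N0).s) ^ 2 *
        ∑ y : T, ∑ y' : T, a y * a y' * (E.ξ ^ 2 * ∑ i, (E.rm L n N0).φ i y * (E.rm L n N0).φ i y')) atTop (𝓝 0) := by
    have h1 := (((hs.const_mul (|E.ξ| * ∑ y : T, |a y|)).pow 2).const_mul 2).mul hV
    have h2 : 2 * (|E.ξ| * (∑ y : T, |a y|) * 0) ^ 2 * E.VT n T a = 0 := by ring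
    rw [h2] at h1
    exact h1
  have hdiff : Tendsto (fun N0 => cE (fun x => Real.cos (∑ y : T, a y * (E.rm L n N0).fld E.ξ x y)) -
      Real.exp (-(∑ y : T, ∑ y' : T, a y * a y' * (E.ξ ^ 2 * ∑ i, (E.rm L n N0).φ i y * (E.rm L n N0).φ i y')) / 2)) atTop (𝓝 0) := by
    refine squeeze_zero_norm (fun N0 => ?_) herr
    rw [Real.norm_eq_abs]
    exact V14_main (E.rm L n N0) E.ξ T a
  have h3 := hdiff.add hexp
  simp only [sub_add_cancel, zero_add] at h3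
  exact h3

theorem cE_sin_fld (L n N0 : ℕ) (T : Finset (Rd d)) (a : T → ℝ) :
    cE (fun x => Real.sin (∑ y : T, a y * (E.rm L n N0).fld E.ξ x y)) = 0 := by
  have h1 : (fun x => Real.sin (∑ y : T, a y * (E.rm L n N0).fld E.ξ x y)) =
      fun x => Real.sin (∑ i, sg (x i) * (E.ξ * ∑ y : T, a y * (E.rm L n N0).φ i y)) := by
    funext x
    rw [V14_fld]
  rw [h1, cE_sin]

end Env

end MP_d19698_pr
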