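import Pool.Agent.Lib.MP_d19698_pr.V14
import Pool.Agent.Lib.MP_d19698_pr.A2a

/-!
# V14b: characteristic functions of the Gaussian field; convergence of the finite-dimensional distributions
-/

open MeasureTheory ProbabilityTheory Filter Topology Set
open scoped ENNReal NNReal

namespace MP_d19698_pr

/-- real and imaginary parts of `E e^{iX}` -/
private theorem V14b_cexp {Ω : Type*} [MeasurableSpace Ω] (P : Measure Ω) [IsProbabilityMeasure P] {X : Ω → ℝ} (hX : Measurable X) :
    ∫ ω, Complex.exp ((X ω : ℂ) * Complex.I) ∂P = ((∫ ω, Real.cos (X ω) ∂P : ℝ) : ℂ) + ((∫ ω, Real.sin (X ω) ∂P : ℝ) : ℂ) * Complex.I := by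
  have h1 : Integrable (fun ω => ((Real.cos (X ω) : ℝ) : ℂ)) P :=
    Integrable.of_bound (Complex.measurable_ofReal.comp (Real.measurable_cos.comp hX)).aestronglyMeasurable 1
      (Eventually.of_forall fun ω => by
        rw [Complex.norm_real, Real.norm_eq_abs]
        exact Real.abs_cos_le_one _)
  have h2 : Integrable (fun ω => ((Real.sin (X ω) : ℝ) : ℂ)) P :=
    Integrable.of_bound (Complex.measurable_ofReal.comp (Real.measurable_sin.comp hX)).aestronglyMeasurable 1
      (Eventually.of_forall fun ω => by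
        rw [Complex.norm_real, Real.norm_eq_abs]
        exact Real.abs_sin_le_one _)
  have h3 : ∀ ω, Complex.exp ((X ω : ℂ) * Complex.I) = ((Real.cos (X ω) : ℝ) : ℂ) + ((Real.sin (X ω) : ℝ) : ℂ) * Complex.I := by
    intro ω
    rw [Complex.exp_mul_I, Complex.ofReal_cos, Complex.ofReal_sin]
  simp_rw [h3]
  rw [integral_add h1 (h2.mul_const _), integral_mul_const, integral_complex_ofReal, integral_complex_ofReal]

namespace Env

variable {d : ℕ} [NeZero d] (E : Env d)

private theorem V14b_meas (n : ℕ) (y : Rd d) : Measurable (fun ω => E.hf 0 n ω y) :=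
  (E.measurable_hh 0 n y).const_mul E.ξ

private theorem V14b_gp (n : ℕ) : IsGaussianProcess (fun (y : Rd d) ω => E.hh 0 n ω y) E.P :=
  E.isGaussianProcess_hh.comp_right (fun y : Rd d => ((0 : ℕ), n, y))

private theorem V14b_gauss (n : ℕ) (T : Finset (Rd d)) (a : T → ℝ) :
    HasGaussianLaw (fun ω => ∑ y : T, a y * E.hf 0 n ω y) E.P := by
  have h1 := (E.V14b_gp n).hasGaussianLaw T
  let L : (T → ℝ) →L[ℝ] ℝ := ∑ y : T, (a y * E.ξ) • ContinuousLinearMap.proj (R := ℝ) (φ := fun _ : T => ℝ) y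
  have h2 := h1.map_fun L
  have h3 : (fun ω => L (T.restrict (fun y => E.hh 0 n ω y))) = fun ω => ∑ y : T, a y * E.hf 0 n ω y := by
    ext ω
    simp only [L, sum_apply, smul_apply, ContinuousLinearMap.proj_apply, Finset.restrict_def,
      smul_eq_mul, hf]
    exact Finset.sum_congr rfl fun y _ => by ring
  rw [← h3]
  exact h2

private theorem V14b_int (n : ℕ) (y : Rd d) : Integrable (fun ω => E.hh 0 n ω y) E.P :=
  ((E.V14b_gp n).hasGaussianLaw_eval y).integrable

private theorem V14b_int2 (n : ℕ) (y y' : Rd d) : Integrable (fun ω => E.hh 0 n ω y * E.hh 0 n ω y') E.P :=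
  MemLp.integrable_mul ((E.V14b_gp n).hasGaussianLaw_eval y).memLp_two ((E.V14b_gp n).hasGaussianLaw_eval y').memLp_two

private theorem V14b_mean (n : ℕ) (T : Finset (Rd d)) (a : T → ℝ) : ∫ ω, (∑ y : T, a y * E.hf 0 n ω y) ∂E.P = 0 := by
  have h1 : ∀ ω, (∑ y : T, a y * E.hf 0 n ω y) = ∑ y : T, (a y * E.ξ) * E.hh 0 n ω y := fun ω =>
    Finset.sum_congr rfl fun y _ => by simp only [hf]; ring
  simp_rw [h1]
  have hi : ∀ y ∈ (Finset.univ : Finset T), Integrable (fun ω => (a y * E.ξ) * E.hh 0 n ω y) E.P :=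
    fun y _ => (E.V14b_int n y).const_mul _
  rw [integral_finsetSum _ hi]
  refine Finset.sum_eq_zero fun y _ => ?_
  rw [integral_const_mul, E.mean_hh, mul_zero]

private theorem V14b_sq (n : ℕ) (T : Finset (Rd d)) (a : T → ℝ) : ∫ ω, (∑ y : T, a y * E.hf 0 n ω y) ^ 2 ∂E.P = E.VT n T a := by
  have h1 : ∀ ω, (∑ y : T, a y * E.hf 0 n ω y) ^ 2 = ∑ y : T, ∑ y' : T, (a y * a y' * E.ξ ^ 2) * (E.hh 0 n ω y * E.hh 0 n ω y') := by
    intro ω
    rw [sq, Finset.sum_mul_sum]
    refine Finset.sum_congr rfl fun y _ => Finset.sum_congr rfl fun y' _ => ?_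
    simp only [hf]
    ring
  simp_rw [h1]
  have hi : ∀ y : T, ∀ y' ∈ (Finset.univ : Finset T), Integrable (fun ω => (a y * a y' * E.ξ ^ 2) * (E.hh 0 n ω y * E.hh 0 n ω y')) E.P :=
    fun y y' _ => (E.V14b_int2 n y y').const_mul _
  have hi2 : ∀ y ∈ (Finset.univ : Finset T), Integrable (fun ω => ∑ y' : T, (a y * a y' * E.ξ ^ 2) * (E.hh 0 n ω y * E.hh 0 n ω y')) E.P :=
    fun y _ => integrable_finsetSum _ (hi y)
  rw [integral_finsetSum _ hi2]
  unfold VT
  refine Finset.sum_congr rfl fun y _ => ?_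
  rw [integral_finsetSum _ (hi y)]
  refine Finset.sum_congr rfl fun y' _ => ?_
  rw [integral_const_mul, E.cov_hh, Finset.inter_self, ← Finset.range_eq_Ico]
  ring

/-- `∑ a_y hf y` is a centred Gaussian variable with variance `VT` (`isGaussianProcess_hh`, `mean_hh`, `cov_hh`; `hf = ξ hh`); `charFun_gaussianReal` at `t = 1`, real and imaginary part. -/
theorem gauss_char (n : ℕ) (T : Finset (Rd d)) (a : T → ℝ) :
    ∫ ω, Real.cos (∑ y : T, a y * E.hf 0 n ω y) ∂E.P = Real.exp (-(E.VT n T a) / 2) ∧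
      ∫ ω, Real.sin (∑ y : T, a y * E.hf 0 n ω y) ∂E.P = 0 := by
  set X : E.Ω → ℝ := fun ω => ∑ y : T, a y * E.hf 0 n ω y with hX
  have hXm : Measurable X := Finset.measurable_sum _ fun y _ => (E.V14b_meas n y).const_mul _
  have hG : HasGaussianLaw X E.P := E.V14b_gauss n T a
  have hmap := hG.map_eq_gaussianReal
  have hmean : ∫ ω, X ω ∂E.P = 0 := E.V14b_mean n T a
  have hvar : Var[X; E.P] = E.VT n T a := by
    rw [variance_of_integral_eq_zero hXm.aemeasurable hmean]
    exact E.V14b_sq n T a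
  have hVT0 : 0 ≤ E.VT n T a := by
    rw [← hvar]
    exact variance_nonneg _ _
  have hchar : charFun (E.P.map X) 1 = Complex.exp (((-(E.VT n T a) / 2 : ℝ) : ℂ)) := by
    rw [hmap, charFun_gaussianReal, hmean, hvar]
    congr 1
    have h1 : (((E.VT n T a).toNNReal : ℝ) : ℂ) = ((E.VT n T a : ℝ) : ℂ) := by
      rw [Real.coe_toNNReal _ hVT0]
    push_cast
    rw [h1]
    ring
  have hchar2 : charFun (E.P.map X) 1 = ∫ ω, Complex.exp ((X ω : ℂ) * Complex.I) ∂E.P := by
    rw [charFun_apply_real, integral_map hXm.aemeasurable]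
    · refine integral_congr_ae (Eventually.of_forall fun ω => ?_)
      simp
    · exact (Complex.measurable_exp.comp ((Complex.measurable_ofReal.const_mul _).mul_const _)).aestronglyMeasurable
  rw [hchar2, V14b_cexp E.P hXm, ← Complex.ofReal_exp] at hchar
  have hre := congrArg Complex.re hchar
  have him := congrArg Complex.im hchar
  simp only [Complex.add_re, Complex.ofReal_re, Complex.mul_re, Complex.I_re, mul_zero, Complex.ofReal_im, Complex.I_im, mul_one, sub_self,
    add_zero] at hre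
  simp only [Complex.add_im, Complex.ofReal_im, Complex.mul_im, Complex.ofReal_re, Complex.I_re, mul_zero, Complex.I_im, mul_one, zero_add,
    add_zero] at him
  exact ⟨hre, him⟩

/-- **Convergence of the finite-dimensional distributions.** The laws of the vectors `(fld y)_{y ∈ T}` under `cM` and `(hf y)_{y ∈ T}` under `P`, as probability measures on `EuclideanSpace ℝ T`:
their characteristic functions `∫ exp(i ⟪v,t⟫) = ∫ cos + i ∫ sin` converge (`cE_cos_tendsto`, `cE_sin_fld`, `gauss_char`, `integral_cM`), so they converge weakly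
(`ProbabilityMeasure.tendsto_iff_tendsto_charFun`); test with the bounded continuous function `G` (`ProbabilityMeasure.tendsto_iff_forall_integral_tendsto`, `integral_map`). -/
theorem fdd_tendsto (L n : ℕ) (T : Finset (Rd d)) (hT : ∀ p ∈ T, p ∈ CBox (0 : Rd d) (E.Lb L)) (G : (T → ℝ) → ℝ) (hG : Continuous G) {B : ℝ}
    (hB : ∀ v, |G v| ≤ B) :
    Tendsto (fun N0 => cE (fun x => G (fun y : T => (E.rm L n N0).fld E.ξ x y))) atTop (𝓝 (∫ ω, G (fun y : T => E.hf 0 n ω y) ∂E.P)) := by
  -- the vectors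
  let g : ∀ N0 : ℕ, ((E.rm L n N0).I → Bool) → EuclideanSpace ℝ T := fun N0 x => WithLp.toLp 2 (fun y : T => (E.rm L n N0).fld E.ξ x y)
  let g0 : E.Ω → EuclideanSpace ℝ T := fun ω => WithLp.toLp 2 (fun y : T => E.hf 0 n ω y)
  have hgm : ∀ N0, Measurable (g N0) := fun N0 => measurable_cube _
  have hg0m : Measurable g0 := by
    refine (WithLp.measurable_toLp 2 (T → ℝ)).comp ?_
    exact measurable_pi_iff.2 fun y => E.V14b_meas n y
  let μ : ℕ → ProbabilityMeasure (EuclideanSpace ℝ T) := fun N0 =>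
    ⟨(cM (E.rm L n N0).I).map (g N0), Measure.isProbabilityMeasure_map (hgm N0).aemeasurable⟩
  let μ0 : ProbabilityMeasure (EuclideanSpace ℝ T) := ⟨E.P.map g0, Measure.isProbabilityMeasure_map hg0m.aemeasurable⟩
  have hinner : ∀ (v : T → ℝ) (t : EuclideanSpace ℝ T), inner ℝ (WithLp.toLp 2 v : EuclideanSpace ℝ T) t = ∑ y : T, t y * v y := by
    intro v t
    rw [PiLp.inner_apply]
    exact Finset.sum_congr rfl fun y _ => by simp [mul_comm]
  have hsm : ∀ t : EuclideanSpace ℝ T, Measurable (fun v : EuclideanSpace ℝ T => Complex.exp (((inner ℝ v t : ℝ) : ℂ) * Complex.I)) := by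
    intro t
    have hc : Continuous (fun v : EuclideanSpace ℝ T => Complex.exp (((inner ℝ v t : ℝ) : ℂ) * Complex.I)) := by fun_prop
    exact hc.measurable
  have hconv : Tendsto μ atTop (𝓝 μ0) := by
    rw [ProbabilityMeasure.tendsto_iff_tendsto_charFun]
    intro t
    have h1 : ∀ N0, charFun ((μ N0 : ProbabilityMeasure (EuclideanSpace ℝ T)) : Measure (EuclideanSpace ℝ T)) t =
        ((cE (fun x => Real.cos (∑ y : T, t y * (E.rm L n N0).fld E.ξ x y)) : ℝ) : ℂ) := by
      intro N0
      have h2 : charFun ((cM (E.rm L n N0).I).map (g N0)) t = ∫ x, Complex.exp (((∑ y : T, t y * (E.rm L n N0).fld E.ξ x y : ℝ) : ℂ) * Complex.I) ∂(cM (E.rm L n N0).I) := by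
        rw [charFun_apply, integral_map (hgm N0).aemeasurable (hsm t).aestronglyMeasurable]
        refine integral_congr_ae (Eventually.of_forall fun x => ?_)
        simp only [g]
        rw [hinner]
      have h3 := V14b_cexp (cM (E.rm L n N0).I) (X := fun x => ∑ y : T, t y * (E.rm L n N0).fld E.ξ x y) (measurable_cube _)
      have h4 : charFun ((μ N0 : ProbabilityMeasure (EuclideanSpace ℝ T)) : Measure (EuclideanSpace ℝ T)) t = charFun ((cM (E.rm L n N0).I).map (g N0)) t := rfl
      rw [h4, h2, h3, integral_cM, integral_cM, E.cE_sin_fld]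
      simp
    have h5 : charFun ((μ0 : ProbabilityMeasure (EuclideanSpace ℝ T)) : Measure (EuclideanSpace ℝ T)) t =
        ((Real.exp (-(E.VT n T t) / 2) : ℝ) : ℂ) := by
      have h2 : charFun (E.P.map g0) t = ∫ ω, Complex.exp (((∑ y : T, t y * E.hf 0 n ω y : ℝ) : ℂ) * Complex.I) ∂E.P := by
        rw [charFun_apply, integral_map hg0m.aemeasurable (hsm t).aestronglyMeasurable]
        refine integral_congr_ae (Eventually.of_forall fun ω => ?_)
        simp only [g0]
        rw [hinner]
      have h3 := V14b_cexp E.P (X := fun ω => ∑ y : T, t y * E.hf 0 n ω y) (Finset.measurable_sum _ fun y _ => (E.V14b_meas n y).const_mul _)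
      have h4 : charFun ((μ0 : ProbabilityMeasure (EuclideanSpace ℝ T)) : Measure (EuclideanSpace ℝ T)) t = charFun (E.P.map g0) t := rfl
      rw [h4, h2, h3, (E.gauss_char n T t).1, (E.gauss_char n T t).2]
      simp
    simp_rw [h1]
    rw [h5]
    exact (Complex.continuous_ofReal.tendsto _).comp (E.cE_cos_tendsto L n T hT t)
  -- the test function
  have hBf : ∀ v : EuclideanSpace ℝ T, ‖G (fun y => v y)‖ ≤ B := fun v => hB _
  have hGc : Continuous (fun v : EuclideanSpace ℝ T => G (fun y => v y)) := by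
    refine hG.comp ?_
    fun_prop
  let F : BoundedContinuousFunction (EuclideanSpace ℝ T) ℝ := BoundedContinuousFunction.ofNormedAddCommGroup _ hGc B hBf
  have h6 := (ProbabilityMeasure.tendsto_iff_forall_integral_tendsto.1 hconv) F
  have h7 : ∀ N0, ∫ v, F v ∂((μ N0 : ProbabilityMeasure (EuclideanSpace ℝ T)) : Measure (EuclideanSpace ℝ T)) = cE (fun x => G (fun y : T => (E.rm L n N0).fld E.ξ x y)) := by
    intro N0
    have h8 : ∫ v, F v ∂((μ N0 : ProbabilityMeasure (EuclideanSpace ℝ T)) : Measure (EuclideanSpace ℝ T)) = ∫ v, F v ∂((cM (E.rm L n N0).I).map (g N0)) := rfl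
    rw [h8, integral_map (hgm N0).aemeasurable F.continuous.measurable.aestronglyMeasurable, ← integral_cM]
    rfl
  have h9 : ∫ v, F v ∂((μ0 : ProbabilityMeasure (EuclideanSpace ℝ T)) : Measure (EuclideanSpace ℝ T)) = ∫ ω, G (fun y : T => E.hf 0 n ω y) ∂E.P := by
    have h8 : ∫ v, F v ∂((μ0 : ProbabilityMeasure (EuclideanSpace ℝ T)) : Measure (EuclideanSpace ℝ T)) = ∫ v, F v ∂(E.P.map g0) := rfl
    rw [h8, integral_map hg0m.aemeasurable F.continuous.measurable.aestronglyMeasurable]
    rfl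
  simp_rw [h7] at h6
  rw [h9] at h6
  exact h6

end Env

end MP_d19698_pr
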