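import Pool.Agent.Lib.MP_d19698_pr.V12
import Pool.Agent.Lib.MP_d19698_pr.V12b
import Pool.Agent.Lib.MP_d19698_pr.V14b

/-!
# V15: convergence for bounded Lipschitz functionals of the field
-/

open MeasureTheory ProbabilityTheory Filter Topology Set
open scoped ENNReal NNReal

namespace MP_d19698_pr

variable {d : ℕ}

/-- bounded functional, Lipschitz for the sup norm on `K` among the fields which are bounded on `K` -/
structure BLip (K : Set (Rd d)) (Ψ : (Rd d → ℝ) → ℝ) : Prop where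
  bdd : ∃ B : ℝ, ∀ f, |Ψ f| ≤ B
  lip : ∃ C : ℝ, 0 ≤ C ∧ ∀ (f g : Rd d → ℝ) (M ε : ℝ), (∀ x ∈ K, |f x| ≤ M) → (∀ x ∈ K, |g x| ≤ M) → 0 ≤ ε →
    (∀ x ∈ K, |f x - g x| ≤ ε) → |Ψ f - Ψ g| ≤ C * ε

/-- for a map `ρ` with finite range `F ⊆ K` the function `v ↦ Ψ (v ∘ ρ)` on `ℝ^F` is Lipschitz, hence continuous -/
theorem BLip.continuous_round {K : Set (Rd d)} {Ψ : (Rd d → ℝ) → ℝ} (h : BLip K Ψ) (F : Finset (Rd d)) (ρ : Rd d → Rd d) (hρ : ∀ x, ρ x ∈ F) :
    Continuous (fun v : F → ℝ => Ψ (fun p => v ⟨ρ p, hρ p⟩)) := by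
  obtain ⟨C, hC0, hC⟩ := h.lip
  have hL : LipschitzWith ⟨C, hC0⟩ (fun v : F → ℝ => Ψ (fun p => v ⟨ρ p, hρ p⟩)) := by
    apply LipschitzWith.of_dist_le_mul
    intro v w
    rw [Real.dist_eq, dist_eq_norm]
    change |Ψ _ - Ψ _| ≤ C * ‖v - w‖
    apply hC _ _ (max ‖v‖ ‖w‖) ‖v - w‖
    · intro x _
      exact (norm_le_pi_norm v _).trans (le_max_left _ _)
    · intro x _
      exact (norm_le_pi_norm w _).trans (le_max_right _ _)
    · exact norm_nonneg _
    · intro x _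
      exact norm_le_pi_norm (v - w) _
  exact hL.continuous

namespace Env

variable [NeZero d] (E : Env d)

theorem V15_measurable_round {K : Set (Rd d)} {Ψ : (Rd d → ℝ) → ℝ} (h : BLip K Ψ) (F : Finset (Rd d)) (ρ : Rd d → Rd d) (hρ : ∀ x, ρ x ∈ F) (n : ℕ) :
    Measurable (fun ω => Ψ (fun p => E.hf 0 n ω (ρ p))) := by
  have h1 := (h.continuous_round F ρ hρ).measurable
  have h2 : Measurable (fun ω => (fun y : F => E.hf 0 n ω y)) := by
    apply measurable_pi_lambda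
    intro y
    exact (E.measurable_hh 0 n y).const_mul _
  exact h1.comp h2

/-- `K` empty: `Ψ` is constant. Otherwise `Ψ (hf) = lim Ψ (hf ∘ ρ_m)` for rounding maps `ρ_m` (`exists_rounding`, uniform continuity of `hf ω` on the compact set `K`), and
`Ψ (hf ∘ ρ_m)` is a continuous function (`BLip.continuous_round`) of finitely many measurable variables. -/
theorem measurable_blip {K : Set (Rd d)} (hK : IsCompact K) {Ψ : (Rd d → ℝ) → ℝ} (h : BLip K Ψ) (n : ℕ) : Measurable (fun ω => Ψ (E.hf 0 n ω)) := by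
  obtain ⟨C, hC0, hC⟩ := h.lip
  rcases K.eq_empty_or_nonempty with rfl | hne
  · have hconst : ∀ f g, Ψ f = Ψ g := by
      intro f g
      have h0 := hC f g 0 0 (by simp) (by simp) le_rfl (by simp)
      rw [mul_zero] at h0
      exact sub_eq_zero.1 (abs_nonpos_iff.1 h0)
    have hc : (fun ω => Ψ (E.hf 0 n ω)) = fun _ => Ψ 0 := by
      funext ω
      exact hconst _ _
    rw [hc]
    exact measurable_const
  · choose F ρ hFK hρF hρ using fun m : ℕ => exists_rounding hK hne (ε := 1 / ((m : ℝ) + 1)) (by positivity)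
    refine measurable_of_tendsto_metrizable (f := fun m ω => Ψ (fun p => E.hf 0 n ω (ρ m p))) ?_ ?_
    · intro m
      exact E.V15_measurable_round h (F m) (ρ m) (hρF m) n
    · rw [tendsto_pi_nhds]
      intro ω
      have hcont : ContinuousOn (E.hf 0 n ω) K := (E.continuous_hf 0 n ω).continuousOn
      obtain ⟨M, hM⟩ := hK.exists_bound_of_continuousOn hcont
      have huc := hK.uniformContinuousOn_of_continuous hcont
      rw [Metric.uniformContinuousOn_iff] at huc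
      rw [Metric.tendsto_atTop]
      intro ε hε
      obtain ⟨δ, hδ, hδ'⟩ := huc (ε / (C + 1)) (by positivity)
      obtain ⟨m0, hm0⟩ := exists_nat_one_div_lt hδ
      refine ⟨m0, fun m hm => ?_⟩
      rw [Real.dist_eq]
      have hb : |Ψ (fun p => E.hf 0 n ω (ρ m p)) - Ψ (E.hf 0 n ω)| ≤ C * (ε / (C + 1)) := by
        apply hC _ _ M
        · intro x _
          exact hM _ (hFK m _ (hρF m x))
        · intro x hx
          exact hM _ hx
        · positivity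
        · intro x hx
          have hd1 : dist (ρ m x) x < δ := by
            rw [dist_eq_norm]
            refine lt_of_le_of_lt ((hρ m x hx).trans (one_div_le_one_div_of_le (by positivity) ?_)) hm0
            have : (m0 : ℝ) ≤ m := by exact_mod_cast hm
            linarith
          have h3 := hδ' (ρ m x) (hFK m _ (hρF m x)) x hx hd1
          rw [Real.dist_eq] at h3
          exact h3.le
      refine lt_of_le_of_lt hb ?_
      rw [mul_div_assoc', div_lt_iff₀ (by positivity)]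
      nlinarith

/-- **Convergence.** Let `K = CBox 0 Lb`, `δ > 0`, `ρ` a rounding map of `K` with `‖ρ x - x‖ ≤ δ` (`exists_rounding`). `|cE Ψ(fld) - cE Ψ(fld ∘ ρ)| ≤ C cE H √δ ≤ C C' √δ` (`rm_holder`, `RM.fld_bdd`),
`|∫ Ψ(hf) - ∫ Ψ(hf ∘ ρ)| ≤ C √δ ∫ H` (`hf_holder`; `hf ω` is bounded on the compact set `K`), and `cE Ψ(fld ∘ ρ) → ∫ Ψ(hf ∘ ρ)` by `fdd_tendsto` with `T = F`, `G v = Ψ (v ∘ ρ)`. -/
theorem lip_tendsto (L n : ℕ) {Ψ : (Rd d → ℝ) → ℝ} (h : BLip (CBox (0 : Rd d) (E.Lb L)) Ψ) :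
    Tendsto (fun N0 => cE (fun x => Ψ ((E.rm L n N0).fld E.ξ x))) atTop (𝓝 (∫ ω, Ψ (E.hf 0 n ω) ∂E.P)) := by
  have hK : IsCompact (CBox (0 : Rd d) (E.Lb L)) := isCompact_CBox _ _
  have hne : (CBox (0 : Rd d) (E.Lb L)).Nonempty := ⟨0, fun i => by simp⟩
  obtain ⟨B, hB⟩ := h.bdd
  obtain ⟨C, hC0, hC⟩ := h.lip
  obtain ⟨C', hC'⟩ := E.rm_holder L n
  obtain ⟨H, hHint, hH0, hH⟩ := E.hf_holder L n
  have hIH : 0 ≤ ∫ ω, H ω ∂E.P := integral_nonneg hH0
  rw [Metric.tendsto_atTop]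
  intro ε hε
  set A : ℝ := C * |C'| + C * ∫ ω, H ω ∂E.P + 1 with hA
  have hApos : 0 < A := by positivity
  set δ : ℝ := (ε / (4 * A)) ^ 2 with hδ
  have hδpos : 0 < δ := by positivity
  have hsq : Real.sqrt δ = ε / (4 * A) := Real.sqrt_sq (by positivity)
  obtain ⟨F, ρ, hFK, hρF, hρ⟩ := exists_rounding hK hne hδpos
  have hfdd := E.fdd_tendsto L n F hFK (fun v : F → ℝ => Ψ (fun p => v ⟨ρ p, hρF p⟩)) (h.continuous_round F ρ hρF) (B := B)
    (fun v => hB _)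
  have hfdd' : Tendsto (fun N0 => cE (fun x => Ψ (fun p => (E.rm L n N0).fld E.ξ x (ρ p)))) atTop
      (𝓝 (∫ ω, Ψ (fun p => E.hf 0 n ω (ρ p)) ∂E.P)) := hfdd
  rw [Metric.tendsto_atTop] at hfdd'
  obtain ⟨N1, hN1⟩ := hfdd' (ε / 2) (by positivity)
  refine ⟨N1, fun N0 hN0 => ?_⟩
  have h2 := hN1 N0 hN0
  rw [Real.dist_eq] at h2 ⊢
  -- the models
  have h1 : |cE (fun x => Ψ ((E.rm L n N0).fld E.ξ x)) - cE (fun x => Ψ (fun p => (E.rm L n N0).fld E.ξ x (ρ p)))| ≤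
      C * |C'| * Real.sqrt δ := by
    obtain ⟨H', hH'0, hH'C, hH'⟩ := hC' N0
    obtain ⟨B', hB'⟩ := (E.rm L n N0).fld_bdd E.ξ
    have hpt : ∀ x, |Ψ ((E.rm L n N0).fld E.ξ x) - Ψ (fun p => (E.rm L n N0).fld E.ξ x (ρ p))| ≤ C * Real.sqrt δ * H' x := by
      intro x
      have h3 := hC ((E.rm L n N0).fld E.ξ x) (fun p => (E.rm L n N0).fld E.ξ x (ρ p)) B' (H' x * Real.sqrt δ)
        (fun p _ => hB' x p) (fun p _ => hB' x _) (mul_nonneg (hH'0 x) (Real.sqrt_nonneg _)) (fun p hp => by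
          refine (hH' x p hp (ρ p) (hFK _ (hρF p))).trans ?_
          refine mul_le_mul_of_nonneg_left (Real.sqrt_le_sqrt ?_) (hH'0 x)
          rw [norm_sub_rev]
          exact hρ p hp)
      linarith [h3, mul_comm (H' x) (Real.sqrt δ), mul_assoc C (Real.sqrt δ) (H' x)]
    rw [← cE_sub]
    have hup : cE (fun x => Ψ ((E.rm L n N0).fld E.ξ x) - Ψ (fun p => (E.rm L n N0).fld E.ξ x (ρ p))) ≤
        C * Real.sqrt δ * cE H' := by
      rw [← cE_const_mul]
      exact cE_mono fun x => (abs_le.1 (hpt x)).2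
    have hlo : -(C * Real.sqrt δ * cE H') ≤
        cE (fun x => Ψ ((E.rm L n N0).fld E.ξ x) - Ψ (fun p => (E.rm L n N0).fld E.ξ x (ρ p))) := by
      rw [← neg_mul, ← cE_const_mul]
      exact cE_mono fun x => by
        have := (abs_le.1 (hpt x)).1
        linarith
    have hfin : C * Real.sqrt δ * cE H' ≤ C * |C'| * Real.sqrt δ := by
      have : cE H' ≤ |C'| := hH'C.trans (le_abs_self _)
      calc C * Real.sqrt δ * cE H' ≤ C * Real.sqrt δ * |C'| :=
            mul_le_mul_of_nonneg_left this (mul_nonneg hC0 (Real.sqrt_nonneg _))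
        _ = C * |C'| * Real.sqrt δ := by ring
    rw [abs_le]
    constructor <;> linarith
  -- the Gaussian field
  have h3 : |(∫ ω, Ψ (fun p => E.hf 0 n ω (ρ p)) ∂E.P) - ∫ ω, Ψ (E.hf 0 n ω) ∂E.P| ≤ C * (∫ ω, H ω ∂E.P) * Real.sqrt δ := by
    have hm1 := E.V15_measurable_round h F ρ hρF n
    have hm2 := E.measurable_blip hK h n
    have hi1 : Integrable (fun ω => Ψ (fun p => E.hf 0 n ω (ρ p))) E.P :=
      Integrable.of_bound hm1.aestronglyMeasurable B (Filter.Eventually.of_forall fun ω => hB _)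
    have hi2 : Integrable (fun ω => Ψ (E.hf 0 n ω)) E.P :=
      Integrable.of_bound hm2.aestronglyMeasurable B (Filter.Eventually.of_forall fun ω => hB _)
    rw [← integral_sub hi1 hi2]
    refine (abs_integral_le_integral_abs).trans ?_
    have h4 : ∫ ω, |Ψ (fun p => E.hf 0 n ω (ρ p)) - Ψ (E.hf 0 n ω)| ∂E.P ≤ ∫ ω, C * Real.sqrt δ * H ω ∂E.P := by
      refine integral_mono_ae (hi1.sub hi2).abs (hHint.const_mul _) ?_
      filter_upwards [hH] with ω hω
      obtain ⟨M, hM⟩ := hK.exists_bound_of_continuousOn (E.continuous_hf 0 n ω).continuousOn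
      have h5 := hC (fun p => E.hf 0 n ω (ρ p)) (E.hf 0 n ω) M (H ω * Real.sqrt δ)
        (fun p _ => hM _ (hFK _ (hρF p))) (fun p hp => hM _ hp) (mul_nonneg (hH0 ω) (Real.sqrt_nonneg _)) (fun p hp => by
          refine (hω (ρ p) (hFK _ (hρF p)) p hp).trans ?_
          exact mul_le_mul_of_nonneg_left (Real.sqrt_le_sqrt (hρ p hp)) (hH0 ω))
      change |Ψ (fun p => E.hf 0 n ω (ρ p)) - Ψ (E.hf 0 n ω)| ≤ C * Real.sqrt δ * H ω
      linarith [h5, mul_comm (H ω) (Real.sqrt δ), mul_assoc C (Real.sqrt δ) (H ω)]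
    refine h4.trans (le_of_eq ?_)
    rw [integral_const_mul]
    ring
  have hAs : C * |C'| * Real.sqrt δ + C * (∫ ω, H ω ∂E.P) * Real.sqrt δ ≤ ε / 4 := by
    have hle : C * |C'| + C * (∫ ω, H ω ∂E.P) ≤ A := by
      rw [hA]; linarith
    calc C * |C'| * Real.sqrt δ + C * (∫ ω, H ω ∂E.P) * Real.sqrt δ = (C * |C'| + C * (∫ ω, H ω ∂E.P)) * Real.sqrt δ := by ring
      _ ≤ A * Real.sqrt δ := mul_le_mul_of_nonneg_right hle (Real.sqrt_nonneg _)
      _ = ε / 4 := by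
        rw [hsq]
        field_simp
  have htri : |cE (fun x => Ψ ((E.rm L n N0).fld E.ξ x)) - ∫ ω, Ψ (E.hf 0 n ω) ∂E.P| ≤
      |cE (fun x => Ψ ((E.rm L n N0).fld E.ξ x)) - cE (fun x => Ψ (fun p => (E.rm L n N0).fld E.ξ x (ρ p)))| +
      |cE (fun x => Ψ (fun p => (E.rm L n N0).fld E.ξ x (ρ p))) - ∫ ω, Ψ (fun p => E.hf 0 n ω (ρ p)) ∂E.P| +
      |(∫ ω, Ψ (fun p => E.hf 0 n ω (ρ p)) ∂E.P) - ∫ ω, Ψ (E.hf 0 n ω) ∂E.P| := by
    refine (abs_sub_le _ (cE (fun x => Ψ (fun p => (E.rm L n N0).fld E.ξ x (ρ p)))) _).trans ?_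
    rw [add_assoc]
    gcongr
    exact abs_sub_le _ _ _
  linarith

end Env

end MP_d19698_pr
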