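import Pool.Agent.Lib.MP_d19698_pr.V6

/-!
# V7: the sum over one level of `s² E M_i²`
-/

open MeasureTheory ProbabilityTheory Filter Topology Set
open scoped ENNReal NNReal

namespace MP_d19698_pr

variable {d : ℕ}

namespace RM

variable {n : ℕ} {r0 L C1 : ℝ} (M : RM d n r0 L C1)

/-- the point `p` has few typical scales for the field of the configuration `x` -/
def FewT (ξ : ℝ) (R k b : ℕ) (p : Rd d) (Rt : ℝ) : Set (M.I → Bool) :=
  {x | ∀ T : Finset ℕ, T ⊆ Jst k b → (∀ j ∈ T, Typ R (M.fld ξ x) p Rt j) → 8 * T.card < k}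

/-- the finite grid of level `k` in the region `|p|_∞ ≤ L'` -/
noncomputable def Gk (d k : ℕ) (L' : ℝ) : Finset (Rd d) := Zg d k L'

theorem V7_dy_le_one (k : ℕ) : dy k ≤ 1 := by
  unfold dy
  exact pow_le_one₀ (by norm_num) (by norm_num)

theorem V7_two_pow_dy (k : ℕ) : (2 : ℝ) ^ k * dy k = 1 := by
  unfold dy
  rw [← mul_pow]
  norm_num

/-- Every relevant box is contained in `CBox p (R 2^{-k})` for a point `p` of the grid. -/
theorem exists_grid {R : ℕ} (hr0 : 0 < r0) (hR : r0 + 1 / 2 ≤ R) (hL : 0 ≤ L) (i : M.I) (hi : (M.bx i ∩ CBox 0 L).Nonempty) :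
    ∃ p ∈ Gk d (M.lev i) (L + r0 + 1), M.bx i ⊆ CBox p ((R : ℝ) * dy (M.lev i)) := by
  classical
  obtain ⟨v, hv⟩ := exists_latt_near (M.lev i) (M.ctr i)
  obtain ⟨y, hy1, hy2⟩ := hi
  have hdk := V5_dy_pos (M.lev i)
  have hdk1 := V7_dy_le_one (M.lev i)
  refine ⟨latt (M.lev i) v, ?_, ?_⟩
  · unfold Gk Zg
    rw [Finset.mem_image]
    refine ⟨v, ?_, rfl⟩
    rw [Fintype.mem_piFinset]
    intro l
    have h1 : |y l - M.ctr i l| ≤ r0 * dy (M.lev i) := hy1 l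
    have h2 : |y l| ≤ L := by
      have := hy2 l
      simpa using this
    have h3 := hv l
    have h4 : latt (M.lev i) v l = dy (M.lev i) * (v l : ℝ) := rfl
    rw [h4] at h3
    have h5 : |dy (M.lev i) * (v l : ℝ)| ≤ L + r0 + 1 := by
      have h6 : r0 * dy (M.lev i) ≤ r0 * 1 := mul_le_mul_of_nonneg_left hdk1 hr0.le
      rw [abs_le] at h1 h2 h3 ⊢
      constructor <;> linarith [h1.1, h1.2, h2.1, h2.2, h3.1, h3.2]
    have h6 : |(v l : ℝ)| ≤ (L + r0 + 1) * 2 ^ (M.lev i) := by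
      have h7 : |(v l : ℝ)| = |dy (M.lev i) * (v l : ℝ)| * 2 ^ (M.lev i) := by
        rw [abs_mul, abs_of_pos hdk]
        calc |(v l : ℝ)| = (2 ^ (M.lev i) * dy (M.lev i)) * |(v l : ℝ)| := by
              rw [V7_two_pow_dy, one_mul]
          _ = _ := by ring
      rw [h7]
      exact mul_le_mul_of_nonneg_right h5 (by positivity)
    rw [abs_le] at h6
    rw [Finset.mem_Icc]
    constructor
    · rw [neg_le]
      apply Int.le_floor.mpr
      push_cast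
      linarith [h6.1]
    · exact Int.le_floor.mpr h6.2
  · intro q hq l
    have h1 : |q l - M.ctr i l| ≤ r0 * dy (M.lev i) := hq l
    have h2 := hv l
    have h3 : (r0 + 1 / 2) * dy (M.lev i) ≤ (R : ℝ) * dy (M.lev i) :=
      mul_le_mul_of_nonneg_right hR hdk.le
    have h4 : q l - latt (M.lev i) v l = (q l - M.ctr i l) + (M.ctr i l - latt (M.lev i) v l) := by ring
    rw [h4]
    refine (abs_add_le _ _).trans ?_
    linarith

/-- number of grid points -/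
theorem card_Gk (k : ℕ) {L' : ℝ} (hL : 0 ≤ L') : ((Gk d k L').card : ℝ) ≤ (2 * L' + 1) ^ d * 2 ^ (d * k) := by
  unfold Gk
  rw [card_Zg k hL]
  have h1 : (⌊L' * 2 ^ k⌋ : ℝ) ≤ L' * 2 ^ k := Int.floor_le _
  have h0 : (0 : ℝ) ≤ (⌊L' * 2 ^ k⌋ : ℝ) := by
    have : 0 ≤ ⌊L' * 2 ^ k⌋ := Int.floor_nonneg.mpr (by positivity)
    exact_mod_cast this
  have h2 : (1 : ℝ) ≤ 2 ^ k := one_le_pow₀ one_le_two
  have h3 : 2 * (⌊L' * 2 ^ k⌋ : ℝ) + 1 ≤ (2 * L' + 1) * 2 ^ k := by nlinarith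
  have h4 : (2 * L' + 1) ^ d * (2 : ℝ) ^ (d * k) = ((2 * L' + 1) * 2 ^ k) ^ d := by
    rw [mul_pow, ← pow_mul, mul_comm k d]
  rw [h4]
  exact pow_le_pow_left₀ (by positivity) h3 d

/-- pointwise: the sum of squares is bounded by the maximum times the sum -/
theorem V7_sq_sum_le (ξ : ℝ) {A B U : Set (Rd d)} (h : GoodPos A B U) {Z : Finset (Rd d)} (hZ : Z.Nonempty) {tol : ℝ} (htol : 0 < tol) (htol1 : tol ≤ 1)
    (hC1 : 0 ≤ C1) (k : ℕ) (x : M.I → Bool) {Θ : ℝ} (hΘ : 0 ≤ Θ)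
    (hm : ∀ i, M.lev i = k → Mav Z tol A B U (M.fld ξ x) (M.bx i) ≤ Θ) :
    M.s ^ 2 * ∑ i ∈ Finset.univ.filter (fun i => M.lev i = k), Mav Z tol A B U (M.fld ξ x) (M.bx i) ^ 2 ≤
      2 * C1 * Θ := by
  have h1 : ∑ i ∈ Finset.univ.filter (fun i => M.lev i = k), Mav Z tol A B U (M.fld ξ x) (M.bx i) ^ 2 ≤
      Θ * ∑ i ∈ Finset.univ.filter (fun i => M.lev i = k), Mav Z tol A B U (M.fld ξ x) (M.bx i) := by
    rw [Finset.mul_sum]
    refine Finset.sum_le_sum fun i hi => ?_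
    rw [Finset.mem_filter] at hi
    rw [sq]
    exact mul_le_mul_of_nonneg_right (hm i hi.2) (Mav_nonneg _ _ _ _ _ _ _)
  have h2 := M.sum_Mav_le ξ h hZ htol k x
  have hs2 : 0 ≤ M.s ^ 2 := sq_nonneg _
  calc M.s ^ 2 * ∑ i ∈ Finset.univ.filter (fun i => M.lev i = k), Mav Z tol A B U (M.fld ξ x) (M.bx i) ^ 2
      ≤ M.s ^ 2 * (Θ * ∑ i ∈ Finset.univ.filter (fun i => M.lev i = k), Mav Z tol A B U (M.fld ξ x) (M.bx i)) :=
        mul_le_mul_of_nonneg_left h1 hs2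
    _ = Θ * (M.s ^ 2 * ∑ i ∈ Finset.univ.filter (fun i => M.lev i = k), Mav Z tol A B U (M.fld ξ x) (M.bx i)) := by ring
    _ ≤ Θ * (C1 * (1 + tol)) := mul_le_mul_of_nonneg_left h2 hΘ
    _ ≤ Θ * (C1 * 2) := by
        apply mul_le_mul_of_nonneg_left _ hΘ
        exact mul_le_mul_of_nonneg_left (by linarith) hC1
    _ = 2 * C1 * Θ := by ring

theorem V7_sum_eq (ξ : ℝ) (A B U : Set (Rd d)) (Z : Finset (Rd d)) (tol : ℝ) (k : ℕ) :
    M.s ^ 2 * ∑ i ∈ Finset.univ.filter (fun i => M.lev i = k),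
        cE (fun x => Mav Z tol A B U (M.fld ξ x) (M.bx i) ^ 2) =
      cE (fun x => M.s ^ 2 * ∑ i ∈ Finset.univ.filter (fun i => M.lev i = k),
        Mav Z tol A B U (M.fld ξ x) (M.bx i) ^ 2) := by
  rw [cE_const_mul, cE_sum]

/-- **One level.** -/
theorem level_sum [NeZero d] {ξ : ℝ} {R : ℕ} (hR1 : 1 ≤ R) (hr0 : 0 < r0) (hR : r0 + 1 / 2 ≤ R) (hL : 0 ≤ L) (hC1 : 0 ≤ C1) {xA xB xU : Rd d} {rA ρ : ℝ}
    (h : GoodPos (CBox xA rA) (CBox xB rA) (Box xU ρ)) {r : ℝ} (hr : 0 < r)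
    (hK : ∀ z ∈ Zg d n r, ∀ p ∈ Box xU ρ, p + z ∈ CBox (0 : Rd d) L) {tol : ℝ} (htol : 0 < tol) (htol1 : tol ≤ 1) {k b : ℕ} (hk : 1 ≤ k) (hkn : k ≤ n)
    {Rt C0 : ℝ} (hRt : 1 ≤ Rt) (hfew : ∀ p ∈ Gk d k (L + r0 + 1), cP (M.FewT ξ R k b p Rt) ≤ C0 * dy k ^ (3 * d)) :
    M.s ^ 2 * ∑ i ∈ Finset.univ.filter (fun i => M.lev i = k),
        cE (fun x => Mav (Zg d n r) tol (CBox xA rA) (CBox xB rA) (Box xU ρ) (M.fld ξ x) (M.bx i) ^ 2) ≤
      2 * C1 * ((12 * d * (2 * R + 3) / r * dy ((k + 1) / 2) + 2 * (1 - 1 / Rt) ^ ((k - 1) / 8) + k * tol) +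
        2 * ((2 * (L + r0 + 1) + 1) ^ d * 2 ^ (d * k) * (C0 * dy k ^ (3 * d)))) := by
  classical
  obtain ⟨Bd, hBd⟩ := M.fld_bdd ξ
  have hZ : (Zg d n r).Nonempty := Zg_nonempty n hr.le
  have hq0 : 0 ≤ 1 - 1 / Rt := by
    have : 1 / Rt ≤ 1 := by rw [div_le_one (by linarith)]; exact hRt
    linarith
  have hqp : 0 ≤ (1 - 1 / Rt) ^ ((k - 1) / 8) := pow_nonneg hq0 _
  have hdk2 := V5_dy_pos ((k + 1) / 2)
  obtain ⟨Θ, hΘ⟩ : ∃ Θ : ℝ, Θ = 12 * d * (2 * R + 3) / r * dy ((k + 1) / 2) + 2 * (1 - 1 / Rt) ^ ((k - 1) / 8) + k * tol := ⟨_, rfl⟩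
  have hΘ0 : 0 ≤ Θ := by rw [hΘ]; positivity
  rw [← hΘ, V7_sum_eq]
  obtain ⟨S, hS⟩ : ∃ S : Set (M.I → Bool), S = {x | ∃ p ∈ Gk d k (L + r0 + 1), x ∈ M.FewT ξ R k b p Rt} := ⟨_, rfl⟩
  have hev := cE_le_of_event (f := fun x => M.s ^ 2 * ∑ i ∈ Finset.univ.filter (fun i => M.lev i = k),
        Mav (Zg d n r) tol (CBox xA rA) (CBox xB rA) (Box xU ρ) (M.fld ξ x) (M.bx i) ^ 2)
      (θ := 2 * C1 * Θ) (B := 2 * C1 * 2) S (by positivity) (by positivity) ?_ ?_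
  · refine hev.trans ?_
    have hP : cP S ≤ (2 * (L + r0 + 1) + 1) ^ d * 2 ^ (d * k) * (C0 * dy k ^ (3 * d)) := by
      have hLr : 0 ≤ L + r0 + 1 := by positivity
      have h0 : 0 ≤ C0 * dy k ^ (3 * d) := by
        obtain ⟨p, hp⟩ : (Gk d k (L + r0 + 1)).Nonempty := Zg_nonempty k hLr
        exact (cP_nonneg _).trans (hfew p hp)
      rw [hS]
      refine (cP_biUnion_le (Gk d k (L + r0 + 1)) (fun p => M.FewT ξ R k b p Rt)).trans ?_
      calc ∑ p ∈ Gk d k (L + r0 + 1), cP (M.FewT ξ R k b p Rt)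
          ≤ ∑ _p ∈ Gk d k (L + r0 + 1), C0 * dy k ^ (3 * d) := Finset.sum_le_sum hfew
        _ = ((Gk d k (L + r0 + 1)).card : ℝ) * (C0 * dy k ^ (3 * d)) := by
            rw [Finset.sum_const, nsmul_eq_mul]
        _ ≤ _ := mul_le_mul_of_nonneg_right (card_Gk k hLr) h0
    have h2 : 2 * C1 * 2 * cP S ≤ 2 * C1 * 2 * ((2 * (L + r0 + 1) + 1) ^ d * 2 ^ (d * k) * (C0 * dy k ^ (3 * d))) :=
      mul_le_mul_of_nonneg_left hP (by positivity)
    linarith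
  · intro x hx
    apply M.V7_sq_sum_le ξ h hZ htol htol1 hC1 k x hΘ0
    intro i hi
    by_cases hrel : (M.bx i ∩ CBox 0 L).Nonempty
    · obtain ⟨p, hp, hsub⟩ := M.exists_grid hr0 hR hL i hrel
      rw [hi] at hp hsub
      have hnot : x ∉ M.FewT ξ R k b p Rt := by
        intro hcon
        apply hx
        rw [hS]
        exact ⟨p, hp, hcon⟩
      have hT : ∃ T : Finset ℕ, T ⊆ Jst k b ∧ (∀ j ∈ T, Typ R (M.fld ξ x) p Rt j) ∧ k ≤ 8 * T.card := by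
        unfold FewT at hnot
        rw [Set.mem_ofPred_eq] at hnot
        push Not at hnot
        exact hnot
      have hmt := Mav_typ hR1 h (fun q => hBd x q) htol hk hkn hr hRt hsub hT
      refine hmt.trans ?_
      rw [hΘ]
      have e1 : 6 * d * (2 * R + 3) / r * dy ((k + 1) / 2) * (1 + tol) ≤
          6 * d * (2 * R + 3) / r * dy ((k + 1) / 2) * 2 :=
        mul_le_mul_of_nonneg_left (by linarith) (by positivity)
      have e2 : (1 - 1 / Rt) ^ ((k - 1) / 8) * (1 + tol) ≤ (1 - 1 / Rt) ^ ((k - 1) / 8) * 2 :=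
        mul_le_mul_of_nonneg_left (by linarith) hqp
      have e3 : 12 * d * (2 * R + 3) / r * dy ((k + 1) / 2) = 6 * d * (2 * R + 3) / r * dy ((k + 1) / 2) * 2 := by
        ring
      rw [e3]
      linarith
    · have h0 : Mav (Zg d n r) tol (CBox xA rA) (CBox xB rA) (Box xU ρ) (M.fld ξ x) (M.bx i) = 0 := by
        apply Mav_of_disjoint h (fun q => hBd x q) htol
        intro z hz p hp hcon
        exact hrel ⟨p + z, hcon, hK z hz p hp⟩
      rw [h0]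
      exact hΘ0
  · intro x
    apply M.V7_sq_sum_le ξ h hZ htol htol1 hC1 k x (by norm_num)
    intro i _
    have := Mav_le h hZ (fun q => hBd x q) htol (M.bx i)
    linarith

/-- trivial bound for all levels: `M_i² ≤ 2 M_i`, `sum_Mav_le`. -/
theorem level_sum_triv (ξ : ℝ) {A B U : Set (Rd d)} (h : GoodPos A B U) {Z : Finset (Rd d)} (hZ : Z.Nonempty) {tol : ℝ} (htol : 0 < tol) (htol1 : tol ≤ 1)
    (hC1 : 0 ≤ C1) (k : ℕ) :
    M.s ^ 2 * ∑ i ∈ Finset.univ.filter (fun i => M.lev i = k), cE (fun x => Mav Z tol A B U (M.fld ξ x) (M.bx i) ^ 2) ≤ 4 * C1 := by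
  obtain ⟨Bd, hBd⟩ := M.fld_bdd ξ
  rw [V7_sum_eq]
  have h1 : cE (fun x => M.s ^ 2 * ∑ i ∈ Finset.univ.filter (fun i => M.lev i = k),
        Mav Z tol A B U (M.fld ξ x) (M.bx i) ^ 2) ≤ cE (fun _ : M.I → Bool => 2 * C1 * 2) := by
    apply cE_mono
    intro x
    apply M.V7_sq_sum_le ξ h hZ htol htol1 hC1 k x (by norm_num)
    intro i _
    have := Mav_le h hZ (fun q => hBd x q) htol (M.bx i)
    linarith
  rw [cE_const] at h1
  linarith

end RM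

end MP_d19698_pr
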