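import Pool.Agent.Lib.MP_d19698_pr.Env
import Pool.Agent.Lib.MP_d19698_pr.B10

/-!
# VDef: the event of few typical scales (section 8)
-/

open MeasureTheory ProbabilityTheory Filter Topology Set
open scoped ENNReal NNReal

namespace MP_d19698_pr

namespace Env

variable {d : ℕ} [NeZero d] (E : Env d)

/-- the scales `(k+1)/2 ≤ j ≤ k - b`, `j` even -/
def Jset (k b : ℕ) : Finset ℕ := (Finset.Icc ((k + 1) / 2) (k - b)).filter (fun j => Even j)

/-- `x` has few typical scales for `h_n` (constant `Rt`) -/
def FewTyp (n k b : ℕ) (x : Rd d) (Rt : ℝ) : Set E.Ω := by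
  classical exact {ω | 8 * (((Jset k b).filter (fun j => Typ E.R0 (E.hf 0 n ω) x Rt j)).card) < k}

end Env

end MP_d19698_pr
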