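import Pool.Agent.Lib.MP_d19698_pr.V15
import Pool.Agent.Lib.MP_d19698_pr.V7
import Pool.Agent.Lib.MP_d19698_pr.VDef

/-!
# V16: Lipschitz versions of the events; transfer of the hypothesis on typical scales to the models
-/

open MeasureTheory ProbabilityTheory Filter Topology Set
open scoped ENNReal NNReal

namespace MP_d19698_pr

variable {d : ℕ}

private lemma V16_clip_lip (a b : ℝ) : |max 0 (min 1 a) - max 0 (min 1 b)| ≤ |a - b| := by
  have h1 := abs_max_sub_max_le_max 0 (min 1 a) 0 (min 1 b)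
  have h2 := abs_min_sub_min_le_max 1 a 1 b
  rw [sub_self, abs_zero, max_eq_right (abs_nonneg (min 1 a - min 1 b))] at h1
  rw [sub_self, abs_zero, max_eq_right (abs_nonneg (a - b))] at h2
  exact h1.trans h2

private lemma V16_clip_mem (a : ℝ) : 0 ≤ max 0 (min 1 a) ∧ max 0 (min 1 a) ≤ 1 :=
  ⟨le_max_left _ _, max_le zero_le_one (min_le_left _ _)⟩

private lemma V16_exp {ε : ℝ} (h1 : ε ≤ 1) (h0 : 0 ≤ ε) : Real.exp (2 * ε) - 1 ≤ 16 * ε := by
  have h2 := Real.add_one_le_exp (-(2 * ε))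
  have h3 : Real.exp (2 * ε) * Real.exp (-(2 * ε)) = 1 := by
    rw [← Real.exp_add]
    simp
  have hp := Real.exp_pos (2 * ε)
  have h4 : Real.exp (2 * ε) * (-(2 * ε) + 1) ≤ 1 := by
    calc _ ≤ Real.exp (2 * ε) * Real.exp (-(2 * ε)) := mul_le_mul_of_nonneg_left h2 hp.le
      _ = 1 := h3
  have h5 : Real.exp (2 * ε) ≤ 8 := by
    have h6 : Real.exp (2 * ε) ≤ Real.exp 2 := Real.exp_le_exp.2 (by linarith)
    have h7 : Real.exp 2 = Real.exp 1 * Real.exp 1 := by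
      rw [← Real.exp_add]
      norm_num
    have h8 := Real.exp_one_lt_d9
    have h9 := Real.exp_pos 1
    nlinarith
  nlinarith

/-- the ratio, truncated -/
private noncomputable def V16_rho (R : ℕ) (x : Rd d) (j : ℕ) (Rt : ℝ) (f : Rd d → ℝ) : ℝ :=
  (min (sig R f x j / Cr f x ((R : ℝ) * dy (j + 1)) ((R : ℝ) * dy j)) (ENNReal.ofReal (4 * Rt))).toReal

private lemma V16_rho_nonneg (R : ℕ) (x : Rd d) (j : ℕ) (Rt : ℝ) (f : Rd d → ℝ) :
    0 ≤ V16_rho R x j Rt f := ENNReal.toReal_nonneg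

private lemma V16_rho_le (R : ℕ) (x : Rd d) (j : ℕ) {Rt : ℝ} (hRt : 1 ≤ Rt) (f : Rd d → ℝ) :
    V16_rho R x j Rt f ≤ 4 * Rt := by
  unfold V16_rho
  refine ENNReal.toReal_le_of_le_ofReal (by linarith) (min_le_right _ _)

private lemma V16_radii {R : ℕ} (hR : 1 ≤ R) (j : ℕ) :
    0 ≤ (R : ℝ) * dy (j + 1) ∧ (R : ℝ) * dy (j + 1) < (R : ℝ) * dy j := by
  have h1 := dy_pos j
  have h2 := dy_succ j
  have h3 : (0 : ℝ) < R := by exact_mod_cast hR
  constructor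
  · rw [h2]
    positivity
  · apply mul_lt_mul_of_pos_left _ h3
    rw [h2]
    linarith

private lemma V16_ann {R : ℕ} (x : Rd d) (j : ℕ) {K : Set (Rd d)}
    (hK : CBox x (((R : ℝ) + 1) * dy j) ⊆ K) :
    Ann x ((R : ℝ) * dy (j + 1)) ((R : ℝ) * dy j) ⊆ K := by
  intro y hy
  apply hK
  intro i
  have h1 := hy.1 i
  have h2 := dy_pos j
  nlinarith

private lemma V16_shell {R : ℕ} (x : Rd d) (j : ℕ) {K : Set (Rd d)}
    (hK : CBox x (((R : ℝ) + 1) * dy j) ⊆ K) : Shell R x j ⊆ K := by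
  intro y hy
  apply hK
  intro i
  have h1 := hy.1 i
  have h2 := dy_pos j
  nlinarith

private lemma V16_Cr [NeZero d] {R : ℕ} (hR : 1 ≤ R) (x : Rd d) (j : ℕ) {K : Set (Rd d)}
    (hK : CBox x (((R : ℝ) + 1) * dy j) ⊆ K) {f : Rd d → ℝ} {M : ℝ} (hf : ∀ p ∈ K, |f p| ≤ M) :
    Cr f x ((R : ℝ) * dy (j + 1)) ((R : ℝ) * dy j) ≠ 0 ∧
      Cr f x ((R : ℝ) * dy (j + 1)) ((R : ℝ) * dy j) ≠ ∞ := by
  obtain ⟨h0, h1⟩ := V16_radii hR j
  have ha := V16_ann x j hK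
  constructor
  · have h2 := Cr_pos (x := x) (M := M) h1 (fun p hp => (abs_le.1 (hf p (ha hp))).1)
    have h3 : 0 < ENNReal.ofReal (Real.exp (-M) * ((R : ℝ) * dy j - (R : ℝ) * dy (j + 1))) :=
      ENNReal.ofReal_pos.2 (mul_pos (Real.exp_pos _) (by linarith))
    exact (h3.trans_le h2).ne'
  · have h2 := Cr_le (x := x) (M := M) h0 h1 (fun p hp => (abs_le.1 (hf p (ha hp))).2)
    exact (h2.trans_lt ENNReal.ofReal_lt_top).ne

private lemma V16_rho_mlip [NeZero d] {R : ℕ} (hR : 1 ≤ R) (x : Rd d) (j : ℕ) {Rt : ℝ}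
    (hRt : 1 ≤ Rt) {K : Set (Rd d)} (hK : CBox x (((R : ℝ) + 1) * dy j) ⊆ K) {f g : Rd d → ℝ}
    {M ε : ℝ} (hf : ∀ p ∈ K, |f p| ≤ M) (hg : ∀ p ∈ K, |g p| ≤ M) (hε : 0 ≤ ε)
    (hfg : ∀ p ∈ K, |f p - g p| ≤ ε) :
    V16_rho R x j Rt f ≤ Real.exp (2 * ε) * V16_rho R x j Rt g := by
  obtain ⟨cf0, cf1⟩ := V16_Cr hR x j hK hf
  obtain ⟨cg0, cg1⟩ := V16_Cr hR x j hK hg
  have hs := sig_mlip R x j (V16_shell x j hK) f g ε hfg
  have hc := MLip_Cr x ((R : ℝ) * dy (j + 1)) ((R : ℝ) * dy j) g f ε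
    (fun p hp => by rw [abs_sub_comm]; exact hfg p (V16_ann x j hK hp))
  simp only at hs hc
  unfold V16_rho
  set Sf := sig R f x j
  set Sg := sig R g x j
  set Cf := Cr f x ((R : ℝ) * dy (j + 1)) ((R : ℝ) * dy j)
  set Cg := Cr g x ((R : ℝ) * dy (j + 1)) ((R : ℝ) * dy j)
  set e := ENNReal.ofReal (Real.exp ε) with he
  have he0 : e ≠ 0 := (ENNReal.ofReal_pos.2 (Real.exp_pos _)).ne'
  have he1 : e ≠ ∞ := ENNReal.ofReal_ne_top
  have hratio : Sf / Cf ≤ e * e * (Sg / Cg) := by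
    rw [ENNReal.div_le_iff cf0 cf1]
    calc Sf ≤ e * Sg := hs
      _ = e * (Sg / Cg * Cg) := by rw [ENNReal.div_mul_cancel cg0 cg1]
      _ ≤ e * (Sg / Cg * (e * Cf)) := by gcongr
      _ = e * e * (Sg / Cg) * Cf := by ring
  have hee : e * e = ENNReal.ofReal (Real.exp (2 * ε)) := by
    rw [he, ← ENNReal.ofReal_mul (Real.exp_pos _).le, ← Real.exp_add]
    congr 2
    ring
  have hone : 1 ≤ e * e := by
    rw [hee]
    have : (1 : ℝ) ≤ Real.exp (2 * ε) := Real.one_le_exp (by linarith)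
    rw [← ENNReal.ofReal_one]
    exact ENNReal.ofReal_le_ofReal this
  have hmin : min (Sf / Cf) (ENNReal.ofReal (4 * Rt)) ≤
      e * e * min (Sg / Cg) (ENNReal.ofReal (4 * Rt)) := by
    rcases le_total (Sg / Cg) (ENNReal.ofReal (4 * Rt)) with h | h
    · rw [min_eq_left h]
      exact (min_le_left _ _).trans hratio
    · rw [min_eq_right h]
      refine (min_le_right _ _).trans ?_
      calc ENNReal.ofReal (4 * Rt) = 1 * ENNReal.ofReal (4 * Rt) := (one_mul _).symm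
        _ ≤ _ := by gcongr
  have hfin : e * e * min (Sg / Cg) (ENNReal.ofReal (4 * Rt)) ≠ ∞ := by
    apply ENNReal.mul_ne_top (ENNReal.mul_ne_top he1 he1)
    exact ((min_le_right _ _).trans_lt ENNReal.ofReal_lt_top).ne
  have h := ENNReal.toReal_mono hfin hmin
  rw [ENNReal.toReal_mul, hee, ENNReal.toReal_ofReal (Real.exp_pos _).le] at h
  exact h

/-- **A Lipschitz version of the indicator of a typical scale.** For fields bounded on `K`: `0 < Cr < ∞` (`Cr_pos`, `Cr_le`). Put `ρ f = (min (sig/Cr) (ofReal (4 Rt))).toReal`,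
`χ f = max 0 (min 1 ((2 Rt - ρ f)/Rt))`. `Typ` with `Rt`: `ρ ≤ Rt`, `χ = 1`. Not `Typ` with `2 Rt`: `ρ ≥ 2 Rt`, `χ = 0`. Lipschitz: `sig` and `Cr` are `MLip` (`sig_mlip`, `MLip_Cr`), so `ρ f ≤ e^{2ε} ρ g`,
`|ρ f - ρ g| ≤ (e^{2ε} - 1) 4 Rt ≤ 64 Rt ε` for `ε ≤ 1`; for `ε > 1` use `|χ f - χ g| ≤ 1 ≤ ε`. -/
theorem exists_chi [NeZero d] {R : ℕ} (hR : 1 ≤ R) (x : Rd d) (j : ℕ) {Rt : ℝ} (hRt : 1 ≤ Rt) {K : Set (Rd d)} (hK : CBox x (((R : ℝ) + 1) * dy j) ⊆ K) :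
    ∃ χ : (Rd d → ℝ) → ℝ, (∀ f, 0 ≤ χ f ∧ χ f ≤ 1) ∧
      (∀ (f : Rd d → ℝ) (M : ℝ), (∀ p ∈ K, |f p| ≤ M) → Typ R f x Rt j → χ f = 1) ∧
      (∀ (f : Rd d → ℝ) (M : ℝ), (∀ p ∈ K, |f p| ≤ M) → ¬ Typ R f x (2 * Rt) j → χ f = 0) ∧
      ∃ C : ℝ, 0 ≤ C ∧ ∀ (f g : Rd d → ℝ) (M ε : ℝ), (∀ p ∈ K, |f p| ≤ M) → (∀ p ∈ K, |g p| ≤ M) → 0 ≤ ε → (∀ p ∈ K, |f p - g p| ≤ ε) →
        |χ f - χ g| ≤ C * ε := by
  have hRt0 : 0 < Rt := by linarith
  refine ⟨fun f => max 0 (min 1 ((2 * Rt - V16_rho R x j Rt f) / Rt)), fun f => V16_clip_mem _,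
    ?_, ?_, 64, by norm_num, ?_⟩
  · intro f M hf ht
    obtain ⟨c0, c1⟩ := V16_Cr hR x j hK hf
    have h1 : V16_rho R x j Rt f ≤ Rt := by
      unfold V16_rho
      refine ENNReal.toReal_le_of_le_ofReal hRt0.le ((min_le_left _ _).trans ?_)
      rw [ENNReal.div_le_iff c0 c1]
      exact ht
    have h2 : 1 ≤ (2 * Rt - V16_rho R x j Rt f) / Rt := by
      rw [le_div_iff₀ hRt0]
      linarith
    show max 0 (min 1 ((2 * Rt - V16_rho R x j Rt f) / Rt)) = 1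
    rw [min_eq_left h2]
    norm_num
  · intro f M hf ht
    obtain ⟨c0, c1⟩ := V16_Cr hR x j hK hf
    have h1 : 2 * Rt ≤ V16_rho R x j Rt f := by
      unfold V16_rho
      have h2 : ENNReal.ofReal (2 * Rt) ≤
          min (sig R f x j / Cr f x ((R : ℝ) * dy (j + 1)) ((R : ℝ) * dy j))
            (ENNReal.ofReal (4 * Rt)) := by
        apply le_min
        · rw [ENNReal.le_div_iff_mul_le (Or.inl c0) (Or.inl c1)]
          exact (not_le.1 ht).le
        · exact ENNReal.ofReal_le_ofReal (by linarith)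
      have h3 := ENNReal.toReal_mono
        (((min_le_right _ _).trans_lt (ENNReal.ofReal_lt_top (r := 4 * Rt))).ne) h2
      rwa [ENNReal.toReal_ofReal (by linarith)] at h3
    have h2 : (2 * Rt - V16_rho R x j Rt f) / Rt ≤ 0 := by
      apply div_nonpos_of_nonpos_of_nonneg _ hRt0.le
      linarith
    show max 0 (min 1 ((2 * Rt - V16_rho R x j Rt f) / Rt)) = 0
    exact max_eq_left ((min_le_right _ _).trans h2)
  · intro f g M ε hf hg hε hfg
    rcases le_or_gt ε 1 with h1 | h1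
    · have hfg' : ∀ p ∈ K, |g p - f p| ≤ ε := fun p hp => by
        rw [abs_sub_comm]
        exact hfg p hp
      have a1 := V16_rho_mlip hR x j hRt hK hf hg hε hfg
      have a2 := V16_rho_mlip hR x j hRt hK hg hf hε hfg'
      have b1 := V16_rho_le R x j hRt f
      have b2 := V16_rho_le R x j hRt g
      have c1 := V16_rho_nonneg R x j Rt f
      have c2 := V16_rho_nonneg R x j Rt g
      have he := V16_exp h1 hε
      have he1 : (1 : ℝ) ≤ Real.exp (2 * ε) := Real.one_le_exp (by linarith)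
      have hd : |V16_rho R x j Rt f - V16_rho R x j Rt g| ≤ 64 * Rt * ε := by
        rw [abs_le]
        constructor
        · nlinarith
        · nlinarith
      refine (V16_clip_lip _ _).trans ?_
      have h2 : (2 * Rt - V16_rho R x j Rt f) / Rt - (2 * Rt - V16_rho R x j Rt g) / Rt =
          -(V16_rho R x j Rt f - V16_rho R x j Rt g) / Rt := by ring
      rw [h2, abs_div, abs_neg, abs_of_pos hRt0, div_le_iff₀ hRt0]
      linarith
    · have m1 := V16_clip_mem ((2 * Rt - V16_rho R x j Rt f) / Rt)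
      have m2 := V16_clip_mem ((2 * Rt - V16_rho R x j Rt g) / Rt)
      show |max 0 (min 1 ((2 * Rt - V16_rho R x j Rt f) / Rt)) -
        max 0 (min 1 ((2 * Rt - V16_rho R x j Rt g) / Rt))| ≤ 64 * ε
      rw [abs_le]
      constructor <;> linarith [m1.1, m1.2, m2.1, m2.2]

/-- `θ f = max 0 (min 1 (k - 8 ∑_{j ∈ Jst k b} χ_j f))`. If `8 T.card < k` for all sets of `2Rt`-typical scales then `8 ∑ χ_j ≤ 8 #{2Rt-typical} ≤ k - 1`, `θ = 1`.
If `T` is a set of `Rt`-typical scales with `k ≤ 8 T.card` then `8 ∑ χ_j ≥ 8 T.card ≥ k`, `θ = 0`. -/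
theorem exists_theta [NeZero d] {R : ℕ} (hR : 1 ≤ R) (x : Rd d) (k b : ℕ) {Rt : ℝ} (hRt : 1 ≤ Rt) {K : Set (Rd d)} (hK : CBox x ((R : ℝ) + 1) ⊆ K) :
    ∃ θ : (Rd d → ℝ) → ℝ, BLip K θ ∧ (∀ f, 0 ≤ θ f ∧ θ f ≤ 1) ∧
      (∀ (f : Rd d → ℝ) (M : ℝ), (∀ p ∈ K, |f p| ≤ M) →
        (∀ T : Finset ℕ, T ⊆ Jst k b → (∀ j ∈ T, Typ R f x (2 * Rt) j) → 8 * T.card < k) → θ f = 1) ∧
      (∀ (f : Rd d → ℝ) (M : ℝ), (∀ p ∈ K, |f p| ≤ M) →
        (∃ T : Finset ℕ, T ⊆ Jst k b ∧ (∀ j ∈ T, Typ R f x Rt j) ∧ k ≤ 8 * T.card) → θ f = 0) := by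
  classical
  have hKj : ∀ j : ℕ, CBox x (((R : ℝ) + 1) * dy j) ⊆ K := by
    intro j y hy
    apply hK
    intro i
    have h1 := hy i
    have h2 := dy_le_one j
    have h3 : (0 : ℝ) ≤ (R : ℝ) + 1 := by positivity
    calc |y i - x i| ≤ ((R : ℝ) + 1) * dy j := h1
      _ ≤ ((R : ℝ) + 1) * 1 := mul_le_mul_of_nonneg_left h2 h3
      _ = (R : ℝ) + 1 := mul_one _
  choose χ hχ01 hχ1 hχ0 C hC0 hC using fun j => exists_chi hR x j hRt (hKj j)
  refine ⟨fun f => max 0 (min 1 ((k : ℝ) - 8 * ∑ j ∈ Jst k b, χ j f)), ⟨⟨1, ?_⟩, ?_⟩,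
    fun f => V16_clip_mem _, ?_, ?_⟩
  · intro f
    have := V16_clip_mem ((k : ℝ) - 8 * ∑ j ∈ Jst k b, χ j f)
    rw [abs_of_nonneg this.1]
    exact this.2
  · refine ⟨8 * ∑ j ∈ Jst k b, C j,
      mul_nonneg (by norm_num) (Finset.sum_nonneg fun j _ => hC0 j), ?_⟩
    intro f g M ε hf hg hε hfg
    refine (V16_clip_lip _ _).trans ?_
    have e1 : (k : ℝ) - 8 * ∑ j ∈ Jst k b, χ j f - ((k : ℝ) - 8 * ∑ j ∈ Jst k b, χ j g) =
        -(8 * ∑ j ∈ Jst k b, (χ j f - χ j g)) := by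
      rw [Finset.sum_sub_distrib]
      ring
    rw [e1, abs_neg, abs_mul, abs_of_pos (by norm_num : (0 : ℝ) < 8), mul_assoc]
    apply mul_le_mul_of_nonneg_left _ (by norm_num)
    rw [Finset.sum_mul]
    exact (Finset.abs_sum_le_sum_abs _ _).trans
      (Finset.sum_le_sum fun j _ => hC j f g M ε hf hg hε hfg)
  · intro f M hf hT
    have h1 := hT ((Jst k b).filter (fun j => Typ R f x (2 * Rt) j)) (Finset.filter_subset _ _)
      (fun j hj => (Finset.mem_filter.1 hj).2)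
    have h2 : ∑ j ∈ Jst k b, χ j f ≤
        (((Jst k b).filter (fun j => Typ R f x (2 * Rt) j)).card : ℝ) := by
      rw [Finset.card_filter]
      push_cast
      refine Finset.sum_le_sum fun j _ => ?_
      split_ifs with h
      · exact (hχ01 j f).2
      · rw [hχ0 j f M hf h]
    have h3 : (8 * (((Jst k b).filter (fun j => Typ R f x (2 * Rt) j)).card : ℝ)) + 1 ≤ k := by
      exact_mod_cast h1
    have h4 : 1 ≤ (k : ℝ) - 8 * ∑ j ∈ Jst k b, χ j f := by linarith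
    show max 0 (min 1 ((k : ℝ) - 8 * ∑ j ∈ Jst k b, χ j f)) = 1
    rw [min_eq_left h4]
    norm_num
  · rintro f M hf ⟨T, hTs, hTt, hTc⟩
    have h2 : (T.card : ℝ) ≤ ∑ j ∈ Jst k b, χ j f := by
      calc (T.card : ℝ) = ∑ j ∈ T, χ j f := by
            rw [Finset.sum_congr rfl fun j hj => hχ1 j f M hf (hTt j hj)]
            simp
        _ ≤ _ := Finset.sum_le_sum_of_subset_of_nonneg hTs fun j _ _ => (hχ01 j f).1
    have h3 : (k : ℝ) ≤ 8 * (T.card : ℝ) := by exact_mod_cast hTc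
    have h4 : (k : ℝ) - 8 * ∑ j ∈ Jst k b, χ j f ≤ 0 := by linarith
    show max 0 (min 1 ((k : ℝ) - 8 * ∑ j ∈ Jst k b, χ j f)) = 0
    exact max_eq_left ((min_le_right _ _).trans h4)

namespace Env

variable [NeZero d] (E : Env d)

/-- **Transfer.** `cP (FewT (2Rt)) ≤ cE θ(fld) → ∫ θ(hf) ≤ P(FewTyp Rt) < q` (`exists_theta` with `K = CBox 0 Lb`, `lip_tendsto`, `cP_le_cE`, `RM.fld_bdd`; `θ (hf ω) = 0` for `ω ∉ FewTyp`, `θ ≤ 1`, `measurable_blip`;
`|p|_∞ + R0 + 1 ≤ Lb`). -/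
theorem few_transfer (L n : ℕ) {k b : ℕ} {p : Rd d} (hp : ∀ i, |p i| ≤ (L : ℝ) + E.r0 + 1) {Rt q : ℝ} (hRt : 1 ≤ Rt)
    (hq : E.P.real (E.FewTyp n k b p Rt) < q) :
    ∀ᶠ N0 in atTop, cP ((E.rm L n N0).FewT E.ξ E.R0 k b p (2 * Rt)) ≤ q := by
  classical
  have hR0 : 1 ≤ E.R0 := by
    unfold Env.R0
    omega
  have hK : CBox p ((E.R0 : ℝ) + 1) ⊆ CBox (0 : Rd d) (E.Lb L) := by
    intro y hy i
    have h1 := hy i
    have h2 := hp i
    have h3 := Nat.le_ceil E.r0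
    have h4 : ((E.Lb L : ℕ) : ℝ) = (L : ℝ) + (⌈E.r0⌉₊ : ℝ) + (E.R0 : ℝ) + 3 := by
      unfold Env.Lb
      push_cast
      ring
    rw [h4]
    have h5 : |y i - (0 : Rd d) i| ≤ |y i - p i| + |p i| := by
      have : y i - (0 : Rd d) i = (y i - p i) + p i := by
        simp
      rw [this]
      exact abs_add_le _ _
    linarith
  obtain ⟨θ, hθ, hθ01, hθ1, hθ0⟩ := exists_theta hR0 p k b hRt hK
  have hlim := E.lip_tendsto L n hθ
  have hKc : IsCompact (CBox (0 : Rd d) (E.Lb L)) := isCompact_CBox _ _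
  have hmeas : Measurable (fun ω => θ (E.hf 0 n ω)) := E.measurable_blip hKc hθ n
  have hzero : ∀ ω, ω ∉ E.FewTyp n k b p Rt → θ (E.hf 0 n ω) = 0 := by
    intro ω hω
    obtain ⟨B, hB⟩ := hKc.exists_bound_of_continuousOn (E.continuous_hf 0 n ω).continuousOn
    refine hθ0 _ B (fun y hy => by simpa [Real.norm_eq_abs] using hB y hy) ?_
    refine ⟨(Jst k b).filter (fun j => Typ E.R0 (E.hf 0 n ω) p Rt j), Finset.filter_subset _ _,
      fun j hj => (Finset.mem_filter.1 hj).2, ?_⟩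
    have h1 : ¬ (8 * (((Env.Jset k b).filter
        (fun j => Typ E.R0 (E.hf 0 n ω) p Rt j)).card) < k) := by
      intro h
      apply hω
      unfold Env.FewTyp
      simp only [Set.mem_ofPred_eq]
      convert h
    have h2 : Env.Jset k b = Jst k b := rfl
    rw [h2] at h1
    exact not_lt.1 h1
  have hint : ∫ ω, θ (E.hf 0 n ω) ∂E.P ≤ E.P.real (E.FewTyp n k b p Rt) := by
    have hS : MeasurableSet {ω | θ (E.hf 0 n ω) ≠ 0} := hmeas (measurableSet_singleton 0).compl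
    calc ∫ ω, θ (E.hf 0 n ω) ∂E.P ≤
          ∫ ω, ({ω | θ (E.hf 0 n ω) ≠ 0} : Set E.Ω).indicator (fun _ => (1 : ℝ)) ω ∂E.P := by
          apply integral_mono_of_nonneg
          · exact Filter.Eventually.of_forall fun ω => (hθ01 _).1
          · exact (integrable_const (1 : ℝ)).indicator hS
          · refine Filter.Eventually.of_forall fun ω => ?_
            by_cases h : θ (E.hf 0 n ω) = 0
            · have : ω ∉ {ω | θ (E.hf 0 n ω) ≠ 0} := fun h' => h' h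
              simp only [Set.indicator_of_notMem this]
              exact h.le
            · have : ω ∈ {ω | θ (E.hf 0 n ω) ≠ 0} := h
              simp only [Set.indicator_of_mem this]
              exact (hθ01 _).2
      _ = E.P.real {ω | θ (E.hf 0 n ω) ≠ 0} := by
          rw [integral_indicator_const _ hS]
          simp
      _ ≤ _ := by
          apply measureReal_mono
          · intro ω hω
            by_contra hcon
            exact hω (hzero ω hcon)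
          · exact measure_ne_top _ _
  have hlt : ∀ᶠ N0 in atTop, cE (fun x => θ ((E.rm L n N0).fld E.ξ x)) < q :=
    hlim.eventually (gt_mem_nhds (hint.trans_lt hq))
  filter_upwards [hlt] with N0 hN0
  refine le_trans ?_ hN0.le
  apply cP_le_cE (fun x => (hθ01 _).1)
  intro x hx
  obtain ⟨B, hB⟩ := (E.rm L n N0).fld_bdd E.ξ
  rw [hθ1 _ B (fun y _ => hB x y) hx]

end Env

end MP_d19698_pr
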