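import Pool.Agent.Lib.MP_d19698_pr.B10
import Pool.Agent.Lib.MP_d19698_pr.B11

/-!
# V2: near-minimisers which do not spend time in `A ∪ B`, and the proportion `mm` of their length in a set
-/

open MeasureTheory ProbabilityTheory Filter Topology Set
open scoped ENNReal NNReal

namespace MP_d19698_pr

variable {d : ℕ}

/-- a good near-minimiser -/
def IsSel (tol : ℝ) (A B U : Set (Rd d)) (g : Rd d → ℝ) (c : Curve d) : Prop :=
  c.src ∈ A ∧ c.tgt ∈ B ∧ c.img ⊆ U ∧ c.len g univ ≤ ENNReal.ofReal (1 + tol) * D g A B U ∧ ∀ f : Rd d → ℝ, c.len f (A ∪ B) = 0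

/-- the times spent in a closed set form a compact set -/
private theorem V2_compact (c : Curve d) {S : Set (Rd d)} (hS : IsClosed S) {s : ℝ} (hs : c.a ≤ s) :
    IsCompact (Icc s c.b ∩ c.fn ⁻¹' S) := by
  have h1 : ContinuousOn c.fn (Icc s c.b) := c.pc1.continuousOn.mono (Icc_subset_Icc_left hs)
  exact isCompact_Icc.of_isClosed_subset (h1.preimage_isClosed_of_isClosed isClosed_Icc hS)
    inter_subset_left

/-- Existence. `0 < D < ∞` (`GoodPos.D_pos`), so there is a curve `c` with `len < (1+tol) D` (`exists_curve_lt`). Let `t1 = sup {t ∈ [a,b] : c t ∈ A}`,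
`t2 = inf {t ∈ [t1,b] : c t ∈ B}` (compact sets: `A`, `B` closed, `c` continuous, `PC1On.continuousOn`). The subcurve on `[t1,t2]` (`Curve.sub`, `Curve.sub_len_le` with `S = univ`)
meets `A ∪ B` only at the times `t1`, `t2`, a null set of times, so `len f (A ∪ B) = 0`. -/
theorem exists_sel {A B U : Set (Rd d)} (h : GoodPos A B U) {g : Rd d → ℝ} {M : ℝ} (hg : ∀ x ∈ U, |g x| ≤ M) {tol : ℝ} (htol : 0 < tol) :
    ∃ c : Curve d, IsSel tol A B U g c := by
  obtain ⟨hpos, hfin⟩ := h.D_pos hg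
  have hlt : D g A B U < ENNReal.ofReal (1 + tol) * D g A B U := by
    have h1 : (1 : ℝ≥0∞) < ENNReal.ofReal (1 + tol) := by
      rw [ENNReal.one_lt_ofReal]
      linarith
    calc D g A B U = 1 * D g A B U := (one_mul _).symm
      _ < ENNReal.ofReal (1 + tol) * D g A B U :=
        (ENNReal.mul_lt_mul_iff_left hpos.ne' hfin.ne).2 h1
  obtain ⟨c, hA, hB, hU, hlen⟩ := exists_curve_lt hlt
  obtain ⟨xa, ra, _, hAe⟩ := h.exA
  obtain ⟨xb, rb, _, hBe⟩ := h.exB
  have hAc : IsClosed A := by rw [hAe]; exact isClosed_CBox _ _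
  have hBc : IsClosed B := by rw [hBe]; exact isClosed_CBox _ _
  -- last time in A
  have k1 := V2_compact c hAc (le_refl c.a)
  have n1 : (Icc c.a c.b ∩ c.fn ⁻¹' A).Nonempty := ⟨c.a, left_mem_Icc.2 c.hab, hA⟩
  set t1 := sSup (Icc c.a c.b ∩ c.fn ⁻¹' A) with ht1
  have m1 : t1 ∈ Icc c.a c.b ∩ c.fn ⁻¹' A := k1.sSup_mem n1
  have k2 := V2_compact c hBc m1.1.1
  have n2 : (Icc t1 c.b ∩ c.fn ⁻¹' B).Nonempty := ⟨c.b, right_mem_Icc.2 m1.1.2, hB⟩
  set t2 := sInf (Icc t1 c.b ∩ c.fn ⁻¹' B) with ht2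
  have m2 : t2 ∈ Icc t1 c.b ∩ c.fn ⁻¹' B := k2.sInf_mem n2
  refine ⟨c.sub t1 t2 m1.1.1 m2.1.1 m2.1.2, m1.2, m2.2, ?_, ?_, ?_⟩
  · refine subset_trans ?_ hU
    rintro _ ⟨t, ht, rfl⟩
    exact ⟨t, ⟨m1.1.1.trans ht.1, ht.2.trans m2.1.2⟩, rfl⟩
  · exact (c.sub_len_le g m1.1.1 m2.1.1 m2.1.2 (fun _ _ => mem_univ _)).trans hlen.le
  · intro f
    have hsub : Icc t1 t2 ∩ c.fn ⁻¹' (A ∪ B) ⊆ {t1, t2} := by
      rintro t ⟨ht, htA | htB⟩
      · left
        apply le_antisymm _ ht.1
        exact le_csSup k1.bddAbove ⟨⟨m1.1.1.trans ht.1, ht.2.trans m2.1.2⟩, htA⟩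
      · right
        apply le_antisymm ht.2
        exact csInf_le k2.bddBelow ⟨⟨ht.1, ht.2.trans m2.1.2⟩, htB⟩
    have hnull : (volume : Measure ℝ) (Icc t1 t2 ∩ c.fn ⁻¹' (A ∪ B)) = 0 :=
      measure_mono_null hsub ((Set.toFinite _).measure_zero _)
    exact setLIntegral_measure_zero _ _ hnull

open Classical in
/-- the proportion of the length of a selected near-minimiser in `S`; it depends only on the restriction of `g` to `U` -/
noncomputable def mm (tol : ℝ) (A B U : Set (Rd d)) (g : Rd d → ℝ) (S : Set (Rd d)) : ℝ :=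
  if h : ∃ c, IsSel tol A B U (U.indicator g) c then
    (h.choose.len (U.indicator g) S).toReal / (D (U.indicator g) A B U).toReal else 0

theorem mm_congr (tol : ℝ) {A B U : Set (Rd d)} {g g' : Rd d → ℝ} (h : ∀ p ∈ U, g p = g' p) (S : Set (Rd d)) :
    mm tol A B U g S = mm tol A B U g' S := by
  have he : U.indicator g = U.indicator g' := Set.indicator_congr h
  unfold mm
  rw [he]

/-- lengths of curves in `U` and `D` are not changed when `g` is replaced by `U.indicator g` (the integrands agree on `[a,b]`; `S` need not be measurable: compare the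
integrands almost everywhere for `volume.restrict (Icc a b)` and restrict further). -/
theorem len_indicator {U : Set (Rd d)} (g : Rd d → ℝ) (c : Curve d) (hc : c.img ⊆ U) (S : Set (Rd d)) :
    c.len (U.indicator g) S = c.len g S := by
  unfold Curve.len
  apply lintegral_congr_ae
  apply ae_restrict_of_ae_restrict_of_subset (t := Icc c.a c.b) inter_subset_left
  apply ae_restrict_of_forall_mem measurableSet_Icc
  intro t ht
  simp only []
  rw [Set.indicator_of_mem (hc ⟨t, ht, rfl⟩)]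

theorem D_indicator (A B U : Set (Rd d)) (g : Rd d → ℝ) : D (U.indicator g) A B U = D g A B U := by
  unfold D
  exact iInf_congr fun c => iInf_congr fun _ => iInf_congr fun _ => iInf_congr fun hU =>
    len_indicator g c hU univ

theorem mm_spec {A B U : Set (Rd d)} (h : GoodPos A B U) {g : Rd d → ℝ} {M : ℝ} (hg : ∀ x ∈ U, |g x| ≤ M) {tol : ℝ} (htol : 0 < tol) :
    ∃ c : Curve d, IsSel tol A B U g c ∧ ∀ S, mm tol A B U g S = (c.len g S).toReal / (D g A B U).toReal := by
  have hg' : ∀ x ∈ U, |U.indicator g x| ≤ M := by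
    intro x hx
    rw [Set.indicator_of_mem hx]
    exact hg x hx
  have hex : ∃ c, IsSel tol A B U (U.indicator g) c := exists_sel h hg' htol
  obtain ⟨s1, s2, s3, s4, s5⟩ := hex.choose_spec
  refine ⟨hex.choose, ⟨s1, s2, s3, ?_, s5⟩, ?_⟩
  · rw [len_indicator g _ s3, D_indicator] at s4
    exact s4
  · intro S
    unfold mm
    rw [dif_pos hex, len_indicator g _ s3, D_indicator]

end MP_d19698_pr
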