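import Pool.Agent.Lib.MP_d19698_pr.V2

/-!
# V2b: properties of the proportion `mm`
-/

open MeasureTheory ProbabilityTheory Filter Topology Set
open scoped ENNReal NNReal

namespace MP_d19698_pr

variable {d : ℕ}

theorem mm_nonneg (tol : ℝ) (A B U : Set (Rd d)) (g : Rd d → ℝ) (S : Set (Rd d)) : 0 ≤ mm tol A B U g S := by
  unfold mm
  split_ifs
  · exact div_nonneg ENNReal.toReal_nonneg ENNReal.toReal_nonneg
  · exact le_rfl

/-- the total length in terms of `D` -/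
private theorem V2b_len {A B U : Set (Rd d)} (h : GoodPos A B U) {g : Rd d → ℝ} {M : ℝ}
    (hg : ∀ x ∈ U, |g x| ≤ M) {tol : ℝ} (htol : 0 < tol) {c : Curve d} (hc : IsSel tol A B U g c) :
    0 < (D g A B U).toReal ∧ c.len g univ ≠ ∞ ∧
      (c.len g univ).toReal ≤ (1 + tol) * (D g A B U).toReal := by
  obtain ⟨hpos, hfin⟩ := h.D_pos hg
  have hle := hc.2.2.2.1
  have hne : ENNReal.ofReal (1 + tol) * D g A B U ≠ ∞ := ENNReal.mul_ne_top ENNReal.ofReal_ne_top hfin.ne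
  refine ⟨ENNReal.toReal_pos hpos.ne' hfin.ne, ne_top_of_le_ne_top hne hle, ?_⟩
  have h1 := ENNReal.toReal_mono hne hle
  rw [ENNReal.toReal_mul, ENNReal.toReal_ofReal (by linarith)] at h1
  exact h1

theorem mm_le {A B U : Set (Rd d)} (h : GoodPos A B U) {g : Rd d → ℝ} {M : ℝ} (hg : ∀ x ∈ U, |g x| ≤ M) {tol : ℝ} (htol : 0 < tol)
    (S : Set (Rd d)) : mm tol A B U g S ≤ 1 + tol := by
  obtain ⟨c, hc, hmm⟩ := mm_spec h hg htol
  obtain ⟨hD, hfin, hlen⟩ := V2b_len h hg htol hc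
  rw [hmm, div_le_iff₀ hD]
  refine le_trans (ENNReal.toReal_mono hfin (c.len_mono g (subset_univ S))) hlen

/-- sum of the lengths in finitely many sets -/
private theorem V2b_sum (c : Curve d) (g : Rd d → ℝ) {κ : Type*} (F : Finset κ) (S : κ → Set (Rd d))
    (hS : ∀ i ∈ F, MeasurableSet (S i)) {N : ℝ}
    (hN : ∀ p : Rd d, (∑ i ∈ F, (S i).indicator (fun _ => (1 : ℝ)) p) ≤ N) :
    ∑ i ∈ F, c.len g (S i) ≤ ENNReal.ofReal N * c.len g univ := by
  set w : ℝ → ℝ≥0∞ := fun t => ENNReal.ofReal (Real.exp (g (c.fn t))) * ‖deriv c.fn t‖ₑ with hw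
  set ν : Measure ℝ := (volume : Measure ℝ).withDensity w with hν
  have hlen : ∀ T : Set (Rd d), MeasurableSet T → c.len g T = ν (Icc c.a c.b ∩ c.fn ⁻¹' T) := by
    intro T hT
    rw [hν, withDensity_apply _ (c.measurableSet_preimage hT)]
    rfl
  have hm : ∀ i ∈ F, MeasurableSet (Icc c.a c.b ∩ c.fn ⁻¹' (S i)) := fun i hi =>
    c.measurableSet_preimage (hS i hi)
  have h1 : ∑ i ∈ F, c.len g (S i) =
      ∫⁻ t, ∑ i ∈ F, (Icc c.a c.b ∩ c.fn ⁻¹' (S i)).indicator (fun _ => (1 : ℝ≥0∞)) t ∂ν := by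
    rw [lintegral_finsetSum' F]
    · refine Finset.sum_congr rfl fun i hi => ?_
      rw [hlen _ (hS i hi), lintegral_indicator (hm i hi), setLIntegral_one]
    · intro i hi
      exact (measurable_const.indicator (hm i hi)).aemeasurable
  rw [h1, hlen univ MeasurableSet.univ]
  have h2 : ENNReal.ofReal N * ν (Icc c.a c.b ∩ c.fn ⁻¹' univ) =
      ∫⁻ t, (Icc c.a c.b ∩ c.fn ⁻¹' univ).indicator (fun _ => ENNReal.ofReal N) t ∂ν := by
    rw [lintegral_indicator (c.measurableSet_preimage MeasurableSet.univ), setLIntegral_const]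
  rw [h2]
  apply lintegral_mono
  intro t
  simp only []
  by_cases ht : t ∈ Icc c.a c.b
  · rw [Set.indicator_of_mem (show t ∈ Icc c.a c.b ∩ c.fn ⁻¹' univ from ⟨ht, mem_univ _⟩)]
    refine le_trans (le_of_eq ?_) (ENNReal.ofReal_le_ofReal (hN (c.fn t)))
    rw [ENNReal.ofReal_sum_of_nonneg (fun i _ => Set.indicator_nonneg (fun _ _ => zero_le_one) _)]
    refine Finset.sum_congr rfl fun i _ => ?_
    by_cases hi : c.fn t ∈ S i
    · rw [Set.indicator_of_mem (show t ∈ Icc c.a c.b ∩ c.fn ⁻¹' (S i) from ⟨ht, hi⟩),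
        Set.indicator_of_mem hi, ENNReal.ofReal_one]
    · rw [Set.indicator_of_notMem (fun hh => hi hh.2), Set.indicator_of_notMem hi,
        ENNReal.ofReal_zero]
  · refine le_trans (le_of_eq ?_) zero_le
    refine Finset.sum_eq_zero fun i _ => ?_
    exact Set.indicator_of_notMem (fun hh => ht hh.1) _

/-- sum over sets which cover each point at most `N` times: `∑ 1_{S_i} ≤ N`, all lengths finite (`Curve.len_lt_top`) -/
theorem mm_sum_le {A B U : Set (Rd d)} (h : GoodPos A B U) {g : Rd d → ℝ} {M : ℝ} (hg : ∀ x ∈ U, |g x| ≤ M) {tol : ℝ} (htol : 0 < tol)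
    {κ : Type*} (F : Finset κ) (S : κ → Set (Rd d)) (hS : ∀ i ∈ F, MeasurableSet (S i)) {N : ℝ}
    (hN : ∀ p : Rd d, (∑ i ∈ F, (S i).indicator (fun _ => (1 : ℝ)) p) ≤ N) :
    ∑ i ∈ F, mm tol A B U g (S i) ≤ N * (1 + tol) := by
  obtain ⟨c, hc, hmm⟩ := mm_spec h hg htol
  obtain ⟨hD, hfin, hlen⟩ := V2b_len h hg htol hc
  have hN0 : 0 ≤ N := by
    refine le_trans ?_ (hN 0)
    exact Finset.sum_nonneg fun i _ => Set.indicator_nonneg (fun _ _ => zero_le_one) _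
  have h1 : ∑ i ∈ F, mm tol A B U g (S i) = (∑ i ∈ F, (c.len g (S i)).toReal) / (D g A B U).toReal := by
    rw [Finset.sum_div]
    exact Finset.sum_congr rfl fun i _ => hmm _
  rw [h1, div_le_iff₀ hD]
  have h2 : ∑ i ∈ F, (c.len g (S i)).toReal = (∑ i ∈ F, c.len g (S i)).toReal := by
    rw [ENNReal.toReal_sum]
    intro i _
    exact ne_top_of_le_ne_top hfin (c.len_mono g (subset_univ _))
  have h3 := V2b_sum c g F S hS hN
  have h4 := ENNReal.toReal_mono (ENNReal.mul_ne_top ENNReal.ofReal_ne_top hfin) h3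
  rw [ENNReal.toReal_mul, ENNReal.toReal_ofReal hN0] at h4
  rw [h2]
  calc (∑ i ∈ F, c.len g (S i)).toReal ≤ N * (c.len g univ).toReal := h4
    _ ≤ N * ((1 + tol) * (D g A B U).toReal) := mul_le_mul_of_nonneg_left hlen hN0
    _ = N * (1 + tol) * (D g A B U).toReal := by ring

/-- no length in `A ∪ B` -/
theorem mm_of_subset {A B U : Set (Rd d)} (h : GoodPos A B U) {g : Rd d → ℝ} {M : ℝ} (hg : ∀ x ∈ U, |g x| ≤ M) {tol : ℝ} (htol : 0 < tol)
    {S : Set (Rd d)} (hS : S ⊆ A ∪ B) : mm tol A B U g S = 0 := by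
  obtain ⟨c, hc, hmm⟩ := mm_spec h hg htol
  have h1 : c.len g S = 0 := le_antisymm ((c.len_mono g hS).trans (hc.2.2.2.2 g).le) zero_le
  rw [hmm, h1, ENNReal.toReal_zero, zero_div]

theorem mm_of_disjoint {A B U : Set (Rd d)} (h : GoodPos A B U) {g : Rd d → ℝ} {M : ℝ} (hg : ∀ x ∈ U, |g x| ≤ M) {tol : ℝ} (htol : 0 < tol)
    {S : Set (Rd d)} (hS : Disjoint S U) : mm tol A B U g S = 0 := by
  obtain ⟨c, hc, hmm⟩ := mm_spec h hg htol
  have h1 : c.len g S = 0 := by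
    have he : Icc c.a c.b ∩ c.fn ⁻¹' S = ∅ := by
      rw [Set.eq_empty_iff_forall_notMem]
      rintro t ⟨ht, htS⟩
      exact Set.disjoint_left.1 hS htS (hc.2.2.1 ⟨t, ht, rfl⟩)
    unfold Curve.len
    rw [he, Measure.restrict_empty, lintegral_zero_measure]
  rw [hmm, h1, ENNReal.toReal_zero, zero_div]

/-- `decay` for the selected curve: apply `decay` with `t = tol * (D g A B U).toReal` and divide by `D`. -/
theorem mm_decay {R : ℕ} (hR : 1 ≤ R) {A B U : Set (Rd d)} (h : GoodPos A B U) {g : Rd d → ℝ} {M : ℝ} (hg : ∀ x ∈ U, |g x| ≤ M) {tol : ℝ} (htol : 0 < tol)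
    {x : Rd d} {k0 k : ℕ} (hk : k0 ≤ k) {Rt : ℝ} (hRt : 1 ≤ Rt)
    (hbox : ∀ j, k0 ≤ j → j ≤ k → CBox x (((R : ℝ) + 1) * dy j) ⊆ U ∧ Disjoint (CBox x (((R : ℝ) + 1) * dy j)) A ∧
      Disjoint (CBox x (((R : ℝ) + 1) * dy j)) B)
    (N : Finset ℕ) (hN : ∀ j ∈ N, k0 ≤ j ∧ j < k ∧ Typ R g x Rt j) {S : Set (Rd d)} (hS : S ⊆ CBox x ((R : ℝ) * dy k)) :
    mm tol A B U g S ≤ (1 - 1 / Rt) ^ N.card * (1 + tol) + k * tol := by
  obtain ⟨c, hc, hmm⟩ := mm_spec h hg htol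
  obtain ⟨hD, hfin, hlen⟩ := V2b_len h hg htol hc
  obtain ⟨hpos, hDfin⟩ := h.D_pos hg
  have ht : 0 ≤ tol * (D g A B U).toReal := by positivity
  have hl : c.len g univ ≤ D g A B U + ENNReal.ofReal (tol * (D g A B U).toReal) := by
    refine hc.2.2.2.1.trans (le_of_eq ?_)
    rw [ENNReal.ofReal_mul htol.le, ENNReal.ofReal_toReal hDfin.ne,
      ENNReal.ofReal_add zero_le_one htol.le, ENNReal.ofReal_one, add_mul, one_mul]
  have hdec := decay hR hk c ht hRt hc.1 hc.2.1 hc.2.2.1 hl hDfin hbox N hN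
  rw [hmm, div_le_iff₀ hD]
  have h1 : (c.len g S).toReal ≤ (c.len g (CBox x ((R : ℝ) * dy k))).toReal :=
    ENNReal.toReal_mono (ne_top_of_le_ne_top hfin (c.len_mono g (subset_univ _))) (c.len_mono g hS)
  have hq : 0 ≤ 1 - 1 / Rt := by
    rw [sub_nonneg, div_le_one (by linarith)]
    exact hRt
  have h2 := mul_le_mul_of_nonneg_left hlen (pow_nonneg hq N.card)
  calc (c.len g S).toReal ≤ (1 - 1 / Rt) ^ N.card * (c.len g univ).toReal +
        k * (tol * (D g A B U).toReal) := h1.trans hdec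
    _ ≤ (1 - 1 / Rt) ^ N.card * ((1 + tol) * (D g A B U).toReal) +
        k * (tol * (D g A B U).toReal) := by linarith
    _ = ((1 - 1 / Rt) ^ N.card * (1 + tol) + k * tol) * (D g A B U).toReal := by ring

end MP_d19698_pr
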