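import Pool.Agent.Lib.MP_d19698_pr.V2b

/-!
# V3: the clipped log distance `Fc`, translations, averages over a finite set of translations
-/

open MeasureTheory ProbabilityTheory Filter Topology Set
open scoped ENNReal NNReal

namespace MP_d19698_pr

variable {d : ℕ}

/-- the clipped log distance -/
noncomputable def Fc (A B U : Set (Rd d)) (lam u : ℝ) (g : Rd d → ℝ) : ℝ :=
  max (-u) (min 0 (Real.log (D g A B U).toReal - Real.log lam))

/-- the translated field -/
def shf (z : Rd d) (g : Rd d → ℝ) : Rd d → ℝ := fun p => g (p + z)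

/-- average over a finite set of translations -/
noncomputable def avz (Z : Finset (Rd d)) (F : Rd d → ℝ) : ℝ := (∑ z ∈ Z, F z) / (Z.card : ℝ)

/-- the averaged functional -/
noncomputable def Fav (Z : Finset (Rd d)) (A B U : Set (Rd d)) (lam u : ℝ) (g : Rd d → ℝ) : ℝ :=
  avz Z (fun z => Fc A B U lam u (shf z g))

/-- the averaged proportion -/
noncomputable def Mav (Z : Finset (Rd d)) (tol : ℝ) (A B U : Set (Rd d)) (g : Rd d → ℝ) (S : Set (Rd d)) : ℝ :=
  avz Z (fun z => mm tol A B U (shf z g) {p | p + z ∈ S})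

theorem avz_mono {Z : Finset (Rd d)} {F G : Rd d → ℝ} (h : ∀ z ∈ Z, F z ≤ G z) : avz Z F ≤ avz Z G := by
  unfold avz
  exact div_le_div_of_nonneg_right (Finset.sum_le_sum h) (Nat.cast_nonneg _)

theorem avz_const {Z : Finset (Rd d)} (hZ : Z.Nonempty) (c : ℝ) : avz Z (fun _ => c) = c := by
  unfold avz
  have h : (Z.card : ℝ) ≠ 0 := by exact_mod_cast hZ.card_pos.ne'
  rw [Finset.sum_const, nsmul_eq_mul, mul_div_cancel_left₀ _ h]

theorem Fc_mem {u : ℝ} (hu : 0 ≤ u) (A B U : Set (Rd d)) (lam : ℝ) (g : Rd d → ℝ) : -u ≤ Fc A B U lam u g ∧ Fc A B U lam u g ≤ 0 := by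
  unfold Fc
  exact ⟨le_max_left _ _, max_le (by linarith) (min_le_left _ _)⟩

/-- bounds for averages -/
private theorem V3_avz_bds {Z : Finset (Rd d)} {F : Rd d → ℝ} {a b : ℝ} (ha : a ≤ 0) (hb : 0 ≤ b)
    (h : ∀ z ∈ Z, a ≤ F z ∧ F z ≤ b) : a ≤ avz Z F ∧ avz Z F ≤ b := by
  rcases Z.eq_empty_or_nonempty with rfl | hZ
  · unfold avz
    rw [Finset.sum_empty, zero_div]
    exact ⟨ha, hb⟩
  · constructor
    · rw [← avz_const hZ a]
      exact avz_mono fun z hz => (h z hz).1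
    · rw [← avz_const hZ b]
      exact avz_mono fun z hz => (h z hz).2

private theorem V3_avz_sub (Z : Finset (Rd d)) (F G : Rd d → ℝ) :
    avz Z F - avz Z G = avz Z (fun z => F z - G z) := by
  unfold avz
  rw [Finset.sum_sub_distrib, sub_div]

/-- clipping is `1`-Lipschitz and monotone -/
private theorem V3_clip (u x y : ℝ) : |max (-u) (min 0 x) - max (-u) (min 0 y)| ≤ |x - y| := by
  refine (abs_max_sub_max_le_max _ _ _ _).trans ?_
  rw [sub_self, abs_zero]
  refine max_le (abs_nonneg _) ?_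
  refine (abs_min_sub_min_le_max _ _ _ _).trans ?_
  rw [sub_self, abs_zero]
  exact max_le (abs_nonneg _) le_rfl

private theorem V3_clip_mono {u x y : ℝ} (h : x ≤ y) : max (-u) (min 0 x) ≤ max (-u) (min 0 y) :=
  max_le_max le_rfl (min_le_min le_rfl h)

theorem Fav_mem {u : ℝ} (hu : 0 ≤ u) (Z : Finset (Rd d)) (A B U : Set (Rd d)) (lam : ℝ) (g : Rd d → ℝ) :
    -u ≤ Fav Z A B U lam u g ∧ Fav Z A B U lam u g ≤ 0 := by
  exact V3_avz_bds (by linarith) le_rfl fun z _ => Fc_mem hu A B U lam _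

/-- `GoodPos.log_lip`; clipping is `1`-Lipschitz. -/
theorem Fc_lip {A B U : Set (Rd d)} (h : GoodPos A B U) {f g : Rd d → ℝ} {M ε : ℝ} (hf : ∀ x ∈ U, |f x| ≤ M)
    (hg : ∀ x ∈ U, |g x| ≤ M) (hfg : ∀ x ∈ U, |f x - g x| ≤ ε) (lam u : ℝ) : |Fc A B U lam u f - Fc A B U lam u g| ≤ ε := by
  unfold Fc
  refine (V3_clip _ _ _).trans ?_
  rw [sub_sub_sub_cancel_right]
  exact h.log_lip hf hg hfg

/-- Lipschitz in the sup norm on a set `K` containing all translates `U + z`. -/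
theorem Fav_lip {A B U K : Set (Rd d)} (h : GoodPos A B U) {Z : Finset (Rd d)} (hK : ∀ z ∈ Z, ∀ p ∈ U, p + z ∈ K) {f g : Rd d → ℝ} {M ε : ℝ}
    (hf : ∀ x ∈ K, |f x| ≤ M) (hg : ∀ x ∈ K, |g x| ≤ M) (hfg : ∀ x ∈ K, |f x - g x| ≤ ε) (hε : 0 ≤ ε) (lam u : ℝ) :
    |Fav Z A B U lam u f - Fav Z A B U lam u g| ≤ ε := by
  unfold Fav
  rw [V3_avz_sub, abs_le]
  refine V3_avz_bds (by linarith) hε fun z hz => ?_
  rw [← abs_le]
  exact Fc_lip h (fun x hx => hf _ (hK z hz x hx)) (fun x hx => hg _ (hK z hz x hx))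
    (fun x hx => hfg _ (hK z hz x hx)) lam u

/-- one-sided difference: `mm_spec` and `log_D_change`; clipping is monotone and `1`-Lipschitz. -/
theorem Fc_diff_le {A B U S : Set (Rd d)} (h : GoodPos A B U) (hS : MeasurableSet S) {f g : Rd d → ℝ} {M s tol : ℝ} (hf : ∀ x ∈ U, |f x| ≤ M)
    (hg : ∀ x ∈ U, |g x| ≤ M) (hs : 0 ≤ s) (hs1 : s ≤ 1) (htol : 0 < tol)
    (h1 : ∀ x, x ∉ S → g x ≤ f x) (h2 : ∀ x ∈ S, g x ≤ f x + s) (lam u : ℝ) :
    max 0 (Fc A B U lam u g - Fc A B U lam u f) ≤ tol + 2 * s * mm tol A B U f S := by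
  obtain ⟨c, hc, hmm⟩ := mm_spec h hf htol
  obtain ⟨hpos, hfin⟩ := h.D_pos hf
  obtain ⟨hgpos, _⟩ := h.D_pos hg
  have hr : 0 ≤ tol + 2 * s * mm tol A B U f S := by
    have := mm_nonneg tol A B U f S
    positivity
  have hch := log_D_change hS c hs hs1 htol.le hc.1 hc.2.1 hc.2.2.1 hpos hfin hgpos hc.2.2.2.1 h1 h2
  rw [← hmm S] at hch
  refine max_le hr ?_
  unfold Fc
  rcases le_total (Real.log (D g A B U).toReal - Real.log lam)
    (Real.log (D f A B U).toReal - Real.log lam) with hle | hle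
  · have := V3_clip_mono (u := u) hle
    linarith
  · have h3 := (le_abs_self _).trans (V3_clip u (Real.log (D g A B U).toReal - Real.log lam)
      (Real.log (D f A B U).toReal - Real.log lam))
    rw [abs_of_nonneg (by linarith)] at h3
    linarith

/-- averaged version -/
theorem Fav_diff_le {A B U S : Set (Rd d)} (h : GoodPos A B U) (hS : MeasurableSet S) {Z : Finset (Rd d)} (hZ : Z.Nonempty) {f g : Rd d → ℝ}
    {M s tol : ℝ} (hf : ∀ x, |f x| ≤ M) (hg : ∀ x, |g x| ≤ M) (hs : 0 ≤ s) (hs1 : s ≤ 1) (htol : 0 < tol)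
    (h1 : ∀ x, x ∉ S → g x ≤ f x) (h2 : ∀ x ∈ S, g x ≤ f x + s) (lam u : ℝ) :
    max 0 (Fav Z A B U lam u g - Fav Z A B U lam u f) ≤ tol + 2 * s * Mav Z tol A B U f S := by
  have hr : 0 ≤ tol + 2 * s * Mav Z tol A B U f S := by
    have : 0 ≤ Mav Z tol A B U f S := by
      unfold Mav avz
      exact div_nonneg (Finset.sum_nonneg fun z _ => mm_nonneg _ _ _ _ _ _) (Nat.cast_nonneg _)
    positivity
  refine max_le hr ?_
  unfold Fav
  rw [V3_avz_sub]
  have h3 : avz Z (fun z => Fc A B U lam u (shf z g) - Fc A B U lam u (shf z f)) ≤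
      avz Z (fun z => tol + 2 * s * mm tol A B U (shf z f) {p | p + z ∈ S}) := by
    refine avz_mono fun z _ => ?_
    refine (le_max_right 0 _).trans ?_
    refine Fc_diff_le h ((measurable_add_const z) hS) (M := M) (fun x _ => hf _) (fun x _ => hg _) hs hs1
      htol (fun x hx => h1 _ hx) (fun x hx => h2 _ hx) lam u
  refine h3.trans (le_of_eq ?_)
  unfold Mav avz
  have hZ' : (Z.card : ℝ) ≠ 0 := by exact_mod_cast hZ.card_pos.ne'
  rw [Finset.sum_add_distrib, Finset.sum_const, nsmul_eq_mul, ← Finset.mul_sum, add_div,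
    mul_div_cancel_left₀ _ hZ', mul_div_assoc]

/-- the averaged functional does not feel a change outside `K ⊇ U + Z` -/
theorem Fav_congr {A B U K : Set (Rd d)} {Z : Finset (Rd d)} (hK : ∀ z ∈ Z, ∀ p ∈ U, p + z ∈ K) {f g : Rd d → ℝ} (h : ∀ p ∈ K, f p = g p) (lam u : ℝ) :
    Fav Z A B U lam u f = Fav Z A B U lam u g := by
  unfold Fav avz
  congr 1
  refine Finset.sum_congr rfl fun z hz => ?_
  have he : U.indicator (shf z f) = U.indicator (shf z g) :=
    Set.indicator_congr fun p hp => h _ (hK z hz p hp)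
  have hD : D (shf z f) A B U = D (shf z g) A B U := by
    rw [← D_indicator A B U (shf z f), ← D_indicator A B U (shf z g), he]
  show Fc A B U lam u (shf z f) = Fc A B U lam u (shf z g)
  unfold Fc
  rw [hD]

theorem Mav_nonneg (Z : Finset (Rd d)) (tol : ℝ) (A B U : Set (Rd d)) (g : Rd d → ℝ) (S : Set (Rd d)) : 0 ≤ Mav Z tol A B U g S := by
  unfold Mav avz
  exact div_nonneg (Finset.sum_nonneg fun z _ => mm_nonneg _ _ _ _ _ _) (Nat.cast_nonneg _)

theorem Mav_le {A B U : Set (Rd d)} (h : GoodPos A B U) {Z : Finset (Rd d)} (hZ : Z.Nonempty) {g : Rd d → ℝ} {M : ℝ} (hg : ∀ x, |g x| ≤ M) {tol : ℝ}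
    (htol : 0 < tol) (S : Set (Rd d)) : Mav Z tol A B U g S ≤ 1 + tol := by
  unfold Mav
  rw [← avz_const hZ (1 + tol)]
  exact avz_mono fun z _ => mm_le h (fun x _ => hg _) htol _

theorem Mav_sum_le {A B U : Set (Rd d)} (h : GoodPos A B U) {Z : Finset (Rd d)} (hZ : Z.Nonempty) {g : Rd d → ℝ} {M : ℝ} (hg : ∀ x, |g x| ≤ M) {tol : ℝ}
    (htol : 0 < tol) {κ : Type*} (F : Finset κ) (S : κ → Set (Rd d)) (hS : ∀ i ∈ F, MeasurableSet (S i)) {N : ℝ}
    (hN : ∀ p : Rd d, (∑ i ∈ F, (S i).indicator (fun _ => (1 : ℝ)) p) ≤ N) :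
    ∑ i ∈ F, Mav Z tol A B U g (S i) ≤ N * (1 + tol) := by
  have h1 : ∑ i ∈ F, Mav Z tol A B U g (S i) =
      avz Z (fun z => ∑ i ∈ F, mm tol A B U (shf z g) {p | p + z ∈ S i}) := by
    unfold Mav avz
    rw [← Finset.sum_div, Finset.sum_comm]
  rw [h1, ← avz_const hZ (N * (1 + tol))]
  refine avz_mono fun z _ => ?_
  refine mm_sum_le h (fun x _ => hg _) htol F (fun i => {p | p + z ∈ S i})
    (fun i hi => (measurable_add_const z) (hS i hi)) (fun p => ?_)
  exact hN (p + z)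

/-- `S` does not meet any translate `U + z` -/
theorem Mav_of_disjoint {A B U : Set (Rd d)} (h : GoodPos A B U) {Z : Finset (Rd d)} {g : Rd d → ℝ} {M : ℝ} (hg : ∀ x, |g x| ≤ M) {tol : ℝ}
    (htol : 0 < tol) {S : Set (Rd d)} (hS : ∀ z ∈ Z, ∀ p ∈ U, p + z ∉ S) : Mav Z tol A B U g S = 0 := by
  unfold Mav avz
  rw [Finset.sum_eq_zero, zero_div]
  intro z hz
  refine mm_of_disjoint h (fun x _ => hg _) htol ?_
  rw [Set.disjoint_left]
  intro p hp hpU
  exact hS z hz p hpU hp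

private theorem V3_tr (f : Rd d → ℝ) (z : Rd d) (A B U : Set (Rd d)) :
    D (shf z f) A B U = D f ((fun p => p + z) '' A) ((fun p => p + z) '' B) ((fun p => p + z) '' U) := by
  have h := D_sim f A B U z (r := 1) one_pos (LinearIsometryEquiv.refl ℝ (Rd d))
  have e : (fun y : Rd d => z + (1 : ℝ) • (LinearIsometryEquiv.refl ℝ (Rd d)) y) = fun p => p + z := by
    funext y
    rw [one_smul, LinearIsometryEquiv.coe_refl, id, add_comm]
  have e' : (fun y : Rd d => f (z + (1 : ℝ) • (LinearIsometryEquiv.refl ℝ (Rd d)) y)) = shf z f := by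
    funext y
    rw [one_smul, LinearIsometryEquiv.coe_refl, id, add_comm]
    rfl
  rw [e, e', ENNReal.ofReal_one, one_mul] at h
  exact h.symm

private theorem V3_img {S S' : Set (Rd d)} (z : Rd d) (h : ∀ p, p ∈ S ↔ p + z ∈ S') :
    (fun p => p + z) '' S = S' := by
  ext q
  constructor
  · rintro ⟨p, hp, rfl⟩
    exact (h p).1 hp
  · intro hq
    exact ⟨q - z, (h _).2 (by rwa [sub_add_cancel]), sub_add_cancel _ _⟩

private theorem V3_crd (x z p : Rd d) (i : Fin d) : p i - (x - z) i = (p + z) i - x i := by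
  rw [PiLp.sub_apply, PiLp.add_apply]
  ring

private theorem V3_memC (x z p : Rd d) (r : ℝ) : p ∈ CBox (x - z) r ↔ p + z ∈ CBox x r := by
  unfold CBox
  simp only [Set.mem_ofPred_eq, V3_crd]

private theorem V3_memB (x z p : Rd d) (r : ℝ) : p ∈ Box (x - z) r ↔ p + z ∈ Box x r := by
  unfold Box
  simp only [Set.mem_ofPred_eq, V3_crd]

private theorem V3_Shell (R : ℕ) (x z : Rd d) (j : ℕ) :
    (fun p => p + z) '' Shell R (x - z) j = Shell R x j := by
  apply V3_img
  intro p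
  unfold Shell
  rw [Set.mem_sdiff, Set.mem_sdiff, V3_memB, V3_memC]

private theorem V3_SBox (x z : Rd d) (r : ℝ) : (fun p => p + z) '' SBox (x - z) r = SBox x r := by
  apply V3_img
  intro p
  unfold SBox
  rw [Set.mem_sdiff, Set.mem_sdiff, V3_memB, V3_memC]

private theorem V3_Ann (x z : Rd d) (r r' : ℝ) : (fun p => p + z) '' Ann (x - z) r r' = Ann x r r' := by
  apply V3_img
  intro p
  unfold Ann
  rw [Set.mem_sdiff, Set.mem_sdiff, V3_memB, V3_memC]

/-- translation of spheres, annuli and typical scales (bijection of curves by translation, `Curve.exists_sim` with `r = 1` or `D_sim` with `r = 1`, `O = 1`) -/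
theorem Typ_shf (R : ℕ) (f : Rd d → ℝ) (x z : Rd d) (Rt : ℝ) (j : ℕ) : Typ R (shf z f) (x - z) Rt j ↔ Typ R f x Rt j := by
  have hsig : sig R (shf z f) (x - z) j = sig R f x j := by
    have hSh := V3_Shell R x z j
    have hSB := V3_SBox x z ((R : ℝ) * dy j)
    unfold sig
    apply le_antisymm
    · refine iSup₂_le fun p hp => iSup₂_le fun q hq => ?_
      rw [V3_tr, hSh, Set.image_singleton, Set.image_singleton]
      have hp' : p + z ∈ SBox x ((R : ℝ) * dy j) := by rw [← hSB]; exact ⟨p, hp, rfl⟩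
      have hq' : q + z ∈ SBox x ((R : ℝ) * dy j) := by rw [← hSB]; exact ⟨q, hq, rfl⟩
      exact le_iSup₂_of_le (p + z) hp' (le_iSup₂_of_le (q + z) hq' le_rfl)
    · refine iSup₂_le fun p hp => iSup₂_le fun q hq => ?_
      rw [← hSB] at hp hq
      obtain ⟨p', hp', rfl⟩ := hp
      obtain ⟨q', hq', rfl⟩ := hq
      refine le_iSup₂_of_le p' hp' (le_iSup₂_of_le q' hq' ?_)
      rw [V3_tr, hSh, Set.image_singleton, Set.image_singleton]
  have hcr : Cr (shf z f) (x - z) ((R : ℝ) * dy (j + 1)) ((R : ℝ) * dy j) =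
      Cr f x ((R : ℝ) * dy (j + 1)) ((R : ℝ) * dy j) := by
    unfold Cr
    rw [V3_tr, V3_SBox, V3_SBox, V3_Ann]
  unfold Typ
  rw [hsig, hcr]

end MP_d19698_pr
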